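import Pool.Agent.Lib.MP_fa98d2_nt.D.Stmts1

-- part Pool.Agent.Lib.MP_fa98d2_nt.D.Lattice
section

/-! Lattice sums: counting, Minkowski's theorem and the residue of the Epstein series. -/

open MeasureTheory Filter Topology Matrix Set
open scoped ENNReal Real

noncomputable section

namespace Pool.Agent.Lib.MP_fa98d2_nt.D

namespace Lattice

theorem tsum_prod_pow (f : ℤ → ℝ≥0∞) (n : ℕ) :
    ∑' m : Fin n → ℤ, ∏ i, f (m i) = (∑' k, f k) ^ n := by
  induction n with
  | zero => simp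
  | succ n ih =>
    rw [← (Fin.consEquiv fun _ => ℤ).tsum_eq, ENNReal.tsum_prod', pow_succ', ← ih,
      ← ENNReal.tsum_mul_right]
    refine tsum_congr fun k => ?_
    rw [← ENNReal.tsum_mul_left]
    refine tsum_congr fun m => ?_
    simp [Fin.consEquiv, Fin.prod_univ_succ]

variable {n : ℕ} {g : Matrix (Fin n) (Fin n) ℝ}

/-- all nonzero lattice vectors have length at least `l` -/
def Sep (g : Matrix (Fin n) (Fin n) ℝ) (l : ℝ) : Prop :=
  ∀ ξ : Fin n → ℤ, ξ ≠ 0 → l ≤ ‖zv ξ ᵥ* g‖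

theorem zv_sub (a b : Fin n → ℤ) : zv (a - b) = zv a - zv b := by
  ext i; simp [zv]

theorem Sep.smul {l t : ℝ} (h : Sep g l) (ht : 0 < t) : Sep (t • g) (t * l) := fun ξ hξ => by
  rw [vecMul_smul, norm_smul, Real.norm_of_nonneg ht.le]
  exact mul_le_mul_of_nonneg_left (h ξ hξ) ht.le

theorem Sep.th_le {l : ℝ} (h : Sep g l) (hl : 0 < l) {Φ : (Fin n → ℝ) → ℝ≥0∞} (M : ℝ≥0∞)
    (f : ℤ → ℝ≥0∞) (hf : ∀ r, Φ r ≤ M * ∏ i, f ⌊r i / l⌋) : Th Φ g ≤ M * (∑' k, f k) ^ n := by
  have inj : Function.Injective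
      fun (ξ : {ξ : Fin n → ℤ // ξ ≠ 0}) (i : Fin n) => ⌊(zv ξ.1 ᵥ* g) i / l⌋ := by
    intro a b hab
    by_contra hne
    have h1 := h (a.1 - b.1) (sub_ne_zero.2 fun e => hne (Subtype.ext e))
    refine h1.not_gt ((pi_norm_lt_iff hl).2 fun i => ?_)
    have h2 := Int.abs_sub_lt_one_of_floor_eq_floor (congrFun hab i)
    rw [← sub_div, abs_div, abs_of_pos hl, div_lt_one hl] at h2
    rwa [zv_sub, sub_vecMul, Pi.sub_apply, Real.norm_eq_abs]
  rw [← tsum_prod_pow, ← ENNReal.tsum_mul_left]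
  exact (ENNReal.tsum_le_tsum fun ξ => hf _).trans
    (ENNReal.tsum_comp_le_tsum_of_injective inj fun m => M * ∏ i, f (m i))

theorem Sep.th_zero {l R : ℝ} (h : Sep g l) {Φ : (Fin n → ℝ) → ℝ≥0∞}
    (h0 : ∀ r, R < ‖r‖ → Φ r = 0) (hR : R < l) : Th Φ g = 0 :=
  ENNReal.tsum_eq_zero.2 fun ξ => h0 _ (hR.trans_le (h ξ.1 ξ.2))

theorem Sep.cnt {l R : ℝ} (h : Sep g l) (hl : 0 < l) {Φ : (Fin n → ℝ) → ℝ≥0∞} {M : ℝ≥0∞}
    (hM : ∀ r, Φ r ≤ M) (h0 : ∀ r, R < ‖r‖ → Φ r = 0) (hR : l ≤ R) :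
    Th Φ g ≤ M * ENNReal.ofReal ((5 * R / l) ^ n) := by
  have h1 : 1 ≤ R / l := (one_le_div hl).2 hR
  set K : ℕ := ⌈R / l⌉₊ with hK
  have hK1 : R / l ≤ K := Nat.le_ceil _
  have hK2 : (K : ℝ) < R / l + 1 := Nat.ceil_lt_add_one (by linarith)
  refine (h.th_le hl M (fun k => if k ∈ Finset.Icc (-K : ℤ) K then 1 else 0) fun r => ?_).trans ?_
  · rcases lt_or_ge R ‖r‖ with hr | hr
    · simp [h0 r hr]
    refine (hM r).trans_eq ?_
    rw [Finset.prod_eq_one fun i _ => if_pos ?_, mul_one]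
    have h2 : |r i / l| ≤ K := by
      rw [abs_div, abs_of_pos hl]
      exact (div_le_div_of_nonneg_right ((norm_le_pi_norm r i).trans hr) hl.le).trans hK1
    rw [abs_le] at h2
    refine Finset.mem_Icc.2 ⟨Int.le_floor.2 (by simpa using h2.1), ?_⟩
    exact_mod_cast (Int.floor_le (r i / l)).trans h2.2
  · rw [tsum_eq_sum (s := Finset.Icc (-K : ℤ) K) fun k hk => if_neg hk,
      Finset.sum_congr rfl fun k hk => if_pos hk, Finset.sum_const, nsmul_eq_mul, mul_one,
      ENNReal.ofReal_pow (by linarith [mul_div_assoc 5 R l]), ← ENNReal.ofReal_natCast]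
    gcongr
    have : (Finset.Icc (-K : ℤ) K).card = 2 * K + 1 := by rw [Int.card_Icc]; omega
    rw [this, mul_div_assoc]
    push_cast
    linarith

/-- the normalized theta sum -/
def ψ (Φ : (Fin n → ℝ) → ℝ≥0∞) (g : Matrix (Fin n) (Fin n) ℝ) (t : ℝ) : ℝ≥0∞ :=
  ENNReal.ofReal (t ^ n) * Th Φ (t • g)

theorem Sep.ψ_zero {l R t : ℝ} (h : Sep g l) (hl : 0 < l) (hR : 0 < R) {Φ : (Fin n → ℝ) → ℝ≥0∞}
    (h0 : ∀ r, R < ‖r‖ → Φ r = 0) (ht : R / l < t) : ψ Φ g t = 0 := by
  rw [ψ, (h.smul ((div_pos hR hl).trans ht)).th_zero h0 ((div_lt_iff₀ hl).1 ht), mul_zero]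

theorem Sep.ψ_le {l R t : ℝ} (h : Sep g l) (hl : 0 < l) {Φ : (Fin n → ℝ) → ℝ≥0∞} {M : ℝ≥0∞}
    (hM : ∀ r, Φ r ≤ M) (h0 : ∀ r, R < ‖r‖ → Φ r = 0) (ht : 0 < t) :
    ψ Φ g t ≤ M * ENNReal.ofReal ((5 * R / l) ^ n) := by
  rcases lt_or_ge R (t * l) with hR | hR
  · simp [ψ, (h.smul ht).th_zero h0 hR]
  refine (mul_le_mul_right ((h.smul ht).cnt (mul_pos ht hl) hM h0 hR) _).trans_eq ?_
  rw [mul_left_comm, ← ENNReal.ofReal_mul (by positivity), ← mul_pow]
  congr 3
  field_simp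

theorem eis_eq (Φ : (Fin n → ℝ) → ℝ≥0∞) (s : ℝ) (g : Matrix (Fin n) (Fin n) ℝ) :
    Eis Φ s g = ENNReal.ofReal (|g.det| ^ s) *
      ∫⁻ t in Ioi (0 : ℝ), ENNReal.ofReal (t ^ (n * (s - 1) - 1)) * ψ Φ g t := by
  rw [Eis, ← lintegral_const_mul' _ _ ENNReal.ofReal_ne_top]
  refine setLIntegral_congr_fun measurableSet_Ioi fun t (ht : 0 < t) => ?_
  simp only [ψ]
  rw [← mul_assoc, ← mul_assoc, ← ENNReal.ofReal_mul (by positivity),
    ← ENNReal.ofReal_mul (by positivity), det_smul, Fintype.card_fin, abs_mul,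
    abs_of_pos (pow_pos ht n), Real.mul_rpow (by positivity) (abs_nonneg _), ← Real.rpow_natCast,
    ← Real.rpow_mul ht.le, ← Real.rpow_neg_one, mul_assoc, ← Real.rpow_add ht, ← mul_assoc,
    ← Real.rpow_add ht, mul_comm (_ ^ s)]
  congr 4
  ring

theorem pow_int {δ a b : ℝ} (hδ : 0 < δ) (ha : 0 ≤ a) (hab : a ≤ b) :
    ENNReal.ofReal δ * ∫⁻ t in Ioc a b, ENNReal.ofReal (t ^ (δ - 1)) =
      ENNReal.ofReal (b ^ δ - a ^ δ) := by
  have hi : IntegrableOn (fun t : ℝ => t ^ (δ - 1)) (Ioc a b) :=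
    (intervalIntegral.intervalIntegrable_rpow' (by linarith)).1
  rw [← ofReal_integral_eq_lintegral_ofReal hi ((ae_restrict_iff' measurableSet_Ioc).2
    (.of_forall fun t ht => Real.rpow_nonneg (ha.trans ht.1.le) _)),
    ← intervalIntegral.integral_of_le hab, integral_rpow (Or.inl (by linarith)),
    ← ENNReal.ofReal_mul hδ.le, sub_add_cancel, mul_div_cancel₀ _ hδ.ne']

theorem abel_le {δ a T : ℝ} (hδ : 0 < δ) (ha : 0 ≤ a) (hT : a ≤ T) {F : ℝ → ℝ≥0∞} {c B : ℝ≥0∞}
    (hc : ∀ t, 0 < t → t ≤ a → F t ≤ c) (hB : ∀ t, 0 < t → F t ≤ B) (h0 : ∀ t, T < t → F t = 0) :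
    ENNReal.ofReal δ * ∫⁻ t in Ioi (0 : ℝ), ENNReal.ofReal (t ^ (δ - 1)) * F t ≤
      c * ENNReal.ofReal (a ^ δ) + B * ENNReal.ofReal (T ^ δ - a ^ δ) := by
  have m : Measurable fun t : ℝ => ENNReal.ofReal (t ^ (δ - 1)) := by fun_prop
  have e1 := pow_int hδ le_rfl ha
  rw [Real.zero_rpow hδ.ne', sub_zero] at e1
  rw [← e1, ← pow_int hδ ha hT, mul_left_comm c, mul_left_comm B, ← mul_add,
    ← Ioc_union_Ioi_eq_Ioi (ha.trans hT), ← Ioc_union_Ioc_eq_Ioc ha hT, ← lintegral_const_mul _ m,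
    ← lintegral_const_mul _ m]
  refine mul_le_mul_right ((lintegral_union_le _ _ _).trans ?_) _
  rw [setLIntegral_congr_fun measurableSet_Ioi (g := fun _ => 0) fun t ht => by simp [h0 t ht],
    lintegral_zero, add_zero]
  refine (lintegral_union_le _ _ _).trans (add_le_add ?_ ?_) <;>
    refine setLIntegral_mono' measurableSet_Ioc fun t ht => ?_ <;> rw [mul_comm]
  exacts [mul_le_mul_left (hc t ht.1 ht.2) _, mul_le_mul_left (hB t (ha.trans_lt ht.1)) _]

theorem abel_ge {δ a : ℝ} (hδ : 0 < δ) (ha : 0 ≤ a) {F : ℝ → ℝ≥0∞} {c : ℝ≥0∞}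
    (hc : ∀ t, 0 < t → t ≤ a → c ≤ F t) : c * ENNReal.ofReal (a ^ δ) ≤
      ENNReal.ofReal δ * ∫⁻ t in Ioi (0 : ℝ), ENNReal.ofReal (t ^ (δ - 1)) * F t := by
  have m : Measurable fun t : ℝ => ENNReal.ofReal (t ^ (δ - 1)) := by fun_prop
  have e1 := pow_int hδ le_rfl ha
  rw [Real.zero_rpow hδ.ne', sub_zero] at e1
  rw [← e1, mul_left_comm c, ← lintegral_const_mul _ m]
  refine mul_le_mul_right (le_trans ?_ (lintegral_mono_set (Ioc_subset_Ioi_self : Ioc 0 a ⊆ _))) _
  refine setLIntegral_mono' measurableSet_Ioc fun t ht => ?_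
  rw [mul_comm]
  exact mul_le_mul_right (hc t ht.1 ht.2) _

theorem rpow_lim {a : ℝ} (ha : 0 < a) : Tendsto (fun δ : ℝ => a ^ δ) (𝓝[>] 0) (𝓝 1) := by
  have := ((Real.continuous_const_rpow ha.ne').tendsto 0).mono_left (nhdsWithin_le_nhds (s := Ioi 0))
  rwa [Real.rpow_zero] at this

theorem abel {T : ℝ} (hT : 0 < T) {F : ℝ → ℝ≥0∞} {L B : ℝ≥0∞} (hL : Tendsto F (𝓝[>] 0) (𝓝 L))
    (hB' : B ≠ ∞) (hB : ∀ t, 0 < t → F t ≤ B) (h0 : ∀ t, T < t → F t = 0) :
    Tendsto (fun δ => ENNReal.ofReal δ * ∫⁻ t in Ioi (0 : ℝ), ENNReal.ofReal (t ^ (δ - 1)) * F t)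
      (𝓝[>] 0) (𝓝 L) := by
  have key : ∀ {p : ℝ → Prop}, (∀ᶠ t in 𝓝[>] 0, p t) → ∃ a, 0 < a ∧ a ≤ T ∧
      ∀ t, 0 < t → t ≤ a → p t := fun hp => by
    obtain ⟨a, ha, h⟩ := (nhdsGT_basis_of_exists_gt ⟨1, one_pos⟩).eventually_iff.1 hp
    exact ⟨min (a / 2) T, lt_min (half_pos ha) hT, min_le_right _ _, fun t h1 h2 =>
      h ⟨h1, (h2.trans (min_le_left _ _)).trans_lt (half_lt_self ha)⟩⟩
  have one : ∀ (c : ℝ≥0∞) {a : ℝ}, 0 < a →
      Tendsto (fun δ : ℝ => c * ENNReal.ofReal (a ^ δ)) (𝓝[>] 0) (𝓝 c) := fun c a ha => by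
    simpa using ENNReal.Tendsto.const_mul (a := c) (ENNReal.tendsto_ofReal (rpow_lim ha))
      (Or.inl (by simp))
  refine tendsto_order.2 ⟨fun c' hc' => ?_, fun c' hc' => ?_⟩
  · obtain ⟨c, h1, h2⟩ := exists_between hc'
    obtain ⟨a, ha, -, h3⟩ := key (hL.eventually (lt_mem_nhds h2))
    filter_upwards [(one c ha).eventually (lt_mem_nhds h1), self_mem_nhdsWithin] with δ h4 h5
    exact h4.trans_le (abel_ge h5 ha.le fun t h6 h7 => (h3 t h6 h7).le)
  · obtain ⟨c, h1, h2⟩ := exists_between hc'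
    obtain ⟨a, ha, haT, h3⟩ := key (hL.eventually (gt_mem_nhds h1))
    have h8 := (one c ha).add (ENNReal.Tendsto.const_mul (a := B)
      (ENNReal.tendsto_ofReal ((rpow_lim hT).sub (rpow_lim ha))) (Or.inr hB'))
    rw [sub_self, ENNReal.ofReal_zero, mul_zero, add_zero] at h8
    filter_upwards [h8.eventually (gt_mem_nhds h2), self_mem_nhdsWithin] with δ h4 h5
    exact (abel_le h5 ha.le haT (fun t h6 h7 => (h3 t h6 h7).le) hB h0).trans_lt h4

theorem inv_bd (hg : g.det ≠ 0) : ∃ C : ℝ, 0 < C ∧ ∀ y : Fin n → ℝ, ‖y‖ ≤ C * ‖y ᵥ* g‖ := by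
  obtain ⟨C, h0, hC⟩ := (LinearMap.toContinuousLinearMap (vecMulLinear g⁻¹)).bound
  refine ⟨C, h0, fun y => ?_⟩
  simpa [mul_nonsing_inv g (Ne.isUnit hg)] using hC (y ᵥ* g)

theorem cont_vecMul (g : Matrix (Fin n) (Fin n) ℝ) : Continuous fun y : Fin n → ℝ => y ᵥ* g :=
  (vecMulLinear g).continuous_of_finiteDimensional

theorem lint_vecMul (hg : g.det ≠ 0) {F : (Fin n → ℝ) → ℝ≥0∞} (hF : Measurable F) :
    ∫⁻ x, F (x ᵥ* g) = ENNReal.ofReal |g.det|⁻¹ * ∫⁻ x, F x := by
  have h := Real.map_matrix_volume_pi_eq_smul_volume_pi (M := gᵀ) (by rwa [det_transpose])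
  have e : ⇑(toLin' gᵀ) = fun x => x ᵥ* g := funext fun x => by rw [toLin'_apply, mulVec_transpose]
  rw [← lintegral_map hF (cont_vecMul g).measurable, ← e, h, lintegral_smul_measure, det_transpose,
    abs_inv, smul_eq_mul]

theorem Sep.mink {l : ℝ} (h : Sep g l) (hl : 0 < l) (hg : g.det ≠ 0) : l ^ n ≤ |g.det| := by
  by_contra hlt
  have hD := abs_pos.2 hg
  have : Countable (Submodule.span ℤ (range (Pi.basisFun ℝ (Fin n)))).toAddSubgroup :=
    inferInstanceAs (Countable (Submodule.span ℤ (range (Pi.basisFun ℝ (Fin n)))))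
  obtain ⟨x, hx, hs⟩ := exists_ne_zero_mem_lattice_of_measure_mul_two_pow_lt_measure
    (ZSpan.isAddFundamentalDomain' (Pi.basisFun ℝ (Fin n)) volume)
    (s := vecMulLinear g ⁻¹' Metric.ball 0 l) (fun x hx => by simpa [neg_vecMul] using hx)
    ((convex_ball 0 l).linear_preimage _) (by
      have e : volume (vecMulLinear g ⁻¹' Metric.ball 0 l) =
          ENNReal.ofReal |g.det|⁻¹ * volume (Metric.ball (0 : Fin n → ℝ) l) := by
        rw [← lintegral_indicator_one measurableSet_ball,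
          ← lint_vecMul hg (measurable_one.indicator measurableSet_ball),
          ← lintegral_indicator_one (s := vecMulLinear g ⁻¹' _)
            ((cont_vecMul g).measurable measurableSet_ball)]
        rfl
      rw [e, ZSpan.fundamentalDomain_pi_basisFun, Real.volume_pi_Ico, Real.volume_pi_ball _ hl,
        ← ENNReal.ofReal_mul (by positivity), ← ENNReal.ofReal_ofNat, ← ENNReal.ofReal_pow zero_le_two]
      simp only [sub_zero, ENNReal.ofReal_one, Finset.prod_const_one, one_mul, Module.finrank_pi,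
        Fintype.card_fin]
      rw [ENNReal.ofReal_lt_ofReal_iff (by positivity), lt_inv_mul_iff₀ hD, mul_pow, mul_comm]
      exact mul_lt_mul_of_pos_left (not_le.1 hlt) (by positivity))
  choose ξ hξ using ((Pi.basisFun ℝ (Fin n)).mem_span_iff_repr_mem ℤ x.1).1 x.2
  have e : zv ξ = x.1 := funext fun i => by simpa [zv] using hξ i
  refine (h ξ fun h0 => hx (Subtype.ext ?_)).not_gt (by simpa [e] using hs)
  rw [← e, h0]
  ext i; simp [zv]

theorem shortest {N : ℕ} {g : Matrix (Fin (N + 1)) (Fin (N + 1)) ℝ} (hg : g.det ≠ 0) :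
    ∃ ξ : Fin (N + 1) → ℤ, ξ ≠ 0 ∧ 0 < ‖zv ξ ᵥ* g‖ ∧ Sep g ‖zv ξ ᵥ* g‖ := by
  obtain ⟨C, h0, hC⟩ := inv_bd hg
  set R := ‖zv (1 : Fin (N + 1) → ℤ) ᵥ* g‖
  have hf : {ξ : Fin (N + 1) → ℤ | ξ ≠ 0 ∧ ‖zv ξ ᵥ* g‖ ≤ R}.Finite := by
    refine (Finite.pi' fun _ => finite_Icc (-⌈C * R⌉) ⌈C * R⌉).subset fun ξ hξ i => ?_
    have h1 : |(ξ i : ℝ)| ≤ ⌈C * R⌉ := ((norm_le_pi_norm (zv ξ) i).trans ((hC _).trans
      (mul_le_mul_of_nonneg_left hξ.2 h0.le))).trans (Int.le_ceil _)
    exact abs_le.1 (by exact_mod_cast h1)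
  obtain ⟨ξ, ⟨h1, h2⟩, h3⟩ := exists_min_image _ (fun ξ => ‖zv ξ ᵥ* g‖) hf ⟨1, one_ne_zero, le_rfl⟩
  refine ⟨ξ, h1, ?_, fun η hη => ?_⟩
  · refine pos_of_mul_pos_right (lt_of_lt_of_le (norm_pos_iff.2 fun e => h1 ?_) (hC (zv ξ))) h0.le
    ext i
    simpa [zv] using congrFun e i
  · rcases le_total ‖zv η ᵥ* g‖ R with h | h
    exacts [h3 η ⟨hη, h⟩, h2.trans h]

theorem cone_lb {N : ℕ} {g : Matrix (Fin (N + 1)) (Fin (N + 1)) ℝ} {ξ : Fin (N + 1) → ℤ}
    (hξ : ξ ≠ 0) (hl : 0 < ‖zv ξ ᵥ* g‖) {s : ℝ} (hs : 0 ≤ s) :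
    ENNReal.ofReal ((|g.det| / ‖zv ξ ᵥ* g‖ ^ (N + 1)) ^ s) ≤ 2 * ∑ i, Eis (cone i) s g := by
  set r := zv ξ ᵥ* g with hr
  obtain ⟨i, hi⟩ := Finite.exists_max fun i => |r i|
  have e : |r i| = ‖r‖ :=
    le_antisymm (norm_le_pi_norm r i) ((pi_norm_le_iff_of_nonneg (abs_nonneg _)).2 hi)
  set l := ‖r‖
  set x := (|g.det| / l ^ (N + 1)) ^ s with hx
  have hx0 : 0 ≤ x := by positivity
  have h1 : ENNReal.ofReal (l / 2 * x) * volume (Icc (1 / l) (2 / l)) ≤ Eis (cone i) s g := by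
    rw [← setLIntegral_const]
    refine le_trans (setLIntegral_mono' measurableSet_Icc fun t ht => ?_)
      (lintegral_mono_set (Icc_subset_Ici_self.trans (Ici_subset_Ioi.2 (one_div_pos.2 hl))))
    have ht0 : 0 < t := lt_of_lt_of_le (one_div_pos.2 hl) ht.1
    have t1 : 1 ≤ t * l := (div_le_iff₀ hl).1 ht.1
    have t2 : t * l ≤ 2 := (le_div_iff₀ hl).1 ht.2
    have h2 : 1 ≤ Th (cone i) (t • g) := by
      refine le_trans (le_of_eq ?_) (ENNReal.le_tsum ⟨ξ, hξ⟩)
      rw [vecMul_smul, ← hr, cone, if_pos]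
      simp only [Pi.smul_apply, smul_eq_mul, abs_mul, abs_of_pos ht0]
      exact ⟨e ▸ t1, e ▸ t2, fun j => mul_le_mul_of_nonneg_left (hi j) ht0.le⟩
    refine le_trans (ENNReal.ofReal_le_ofReal ?_) (le_mul_of_one_le_right' h2)
    rw [det_smul, Fintype.card_fin, abs_mul, abs_of_pos (pow_pos ht0 _), hx]
    gcongr
    · rw [le_inv_comm₀ (by positivity) ht0, inv_div]; exact ht.2
    · rw [div_le_iff₀ (by positivity), mul_right_comm, ← mul_pow]
      exact le_mul_of_one_le_left (abs_nonneg _) (one_le_pow₀ t1)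
  refine le_trans (le_of_eq ?_) (mul_le_mul_right (h1.trans
    (Finset.single_le_sum (f := fun i => Eis (cone i) s g) (fun _ _ => zero_le) (Finset.mem_univ i))) 2)
  rw [Real.volume_Icc, ← ENNReal.ofReal_mul (by positivity), ← ENNReal.ofReal_ofNat,
    ← ENNReal.ofReal_mul zero_le_two]
  congr 1
  field_simp
  norm_num

/-- the cell of a point -/
def fl (t : ℝ) (x : Fin n → ℝ) : Fin n → ℤ := fun i => ⌊x i / t⌋

theorem fl_meas (t : ℝ) : Measurable (fl (n := n) t) :=
  measurable_pi_lambda _ fun i => by unfold fl; fun_prop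

theorem lint_fl {t : ℝ} (ht : 0 < t) (F : (Fin n → ℤ) → ℝ≥0∞) :
    ∫⁻ x, F (fl t x) = ENNReal.ofReal (t ^ n) * ∑' ξ, F ξ := by
  rw [← lintegral_map (measurable_of_countable F) (fl_meas t), lintegral_countable',
    ← ENNReal.tsum_mul_left]
  refine tsum_congr fun ξ => ?_
  have e : fl t ⁻¹' {ξ} = univ.pi fun i => Ico (ξ i * t) ((ξ i + 1) * t) := by
    ext x
    simp only [mem_preimage, mem_singleton_iff, funext_iff, fl, Int.floor_eq_iff, Set.mem_pi, mem_univ,
      true_imp_iff, mem_Ico, le_div_iff₀ ht, div_lt_iff₀ ht]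
  rw [Measure.map_apply (fl_meas t) (measurableSet_singleton _), e, Real.volume_pi_Ico, mul_comm]
  simp [add_mul, ENNReal.ofReal_pow ht.le]

theorem fl_close {t : ℝ} (ht : 0 < t) (x : Fin n → ℝ) : ‖t • zv (fl t x) - x‖ ≤ t := by
  refine (pi_norm_le_iff_of_nonneg ht.le).2 fun i => ?_
  have h1 := (le_div_iff₀ ht).1 (Int.floor_le (x i / t))
  have h2 := (div_lt_iff₀ ht).1 (Int.lt_floor_add_one (x i / t))
  simp only [Pi.sub_apply, Pi.smul_apply, smul_eq_mul, zv, fl, Real.norm_eq_abs, abs_le]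
  constructor <;> linarith

theorem riemann (hn : 0 < n) (hg : g.det ≠ 0) {Φ : (Fin n → ℝ) → ℝ≥0∞} (hc : Continuous Φ)
    {M : ℝ≥0∞} (hM' : M ≠ ∞) (hM : ∀ r, Φ r ≤ M) {R : ℝ} (h0 : ∀ r, R < ‖r‖ → Φ r = 0) :
    Tendsto (ψ Φ g) (𝓝[>] 0) (𝓝 (ENNReal.ofReal |g.det|⁻¹ * ∫⁻ x, Φ x)) := by
  obtain ⟨C, hC0, hC⟩ := inv_bd hg
  have : Nonempty (Fin n) := ⟨⟨0, hn⟩⟩
  rw [← lint_vecMul hg hc.measurable]
  have e : ∀ᶠ t in 𝓝[>] (0 : ℝ), ∫⁻ x, {ξ : Fin n → ℤ | ξ ≠ 0}.indicator
      (fun ξ => Φ (zv ξ ᵥ* (t • g))) (fl t x) = ψ Φ g t :=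
    eventually_mem_nhdsWithin.mono fun t ht => by
      rw [lint_fl ht, ← tsum_subtype]; rfl
  refine Tendsto.congr' e (tendsto_lintegral_filter_of_dominated_convergence
    ((Metric.closedBall 0 (C * R + 1)).indicator fun _ => M)
    (.of_forall fun t => (measurable_of_countable (Set.indicator _ _)).comp (fl_meas t)) ?_ ?_ ?_)
  · filter_upwards [Ioo_mem_nhdsGT one_pos] with t ht
    refine .of_forall fun x => (indicator_le_self _ _ _).trans ?_
    by_cases hx : x ∈ Metric.closedBall (0 : Fin n → ℝ) (C * R + 1)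
    · rw [indicator_of_mem hx]; exact hM _
    refine (h0 _ (lt_of_mul_lt_mul_left ?_ hC0.le)).trans_le zero_le
    rw [mem_closedBall_zero_iff, not_le] at hx
    rw [vecMul_smul, ← smul_vecMul]
    linarith [hC (t • zv (fl t x)), fl_close ht.1 x, norm_sub_norm_le x (t • zv (fl t x)),
      norm_sub_rev x (t • zv (fl t x)), ht.2]
  · rw [lintegral_indicator measurableSet_closedBall, setLIntegral_const]
    exact ENNReal.mul_ne_top hM' measure_closedBall_lt_top.ne
  · filter_upwards [compl_mem_ae_iff.2 (measure_singleton (0 : Fin n → ℝ))] with x hx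
    have h1 : Tendsto (fun t : ℝ => t • zv (fl t x)) (𝓝[>] 0) (𝓝 x) :=
      tendsto_iff_norm_sub_tendsto_zero.2 (squeeze_zero' (.of_forall fun _ => norm_nonneg _)
        (eventually_mem_nhdsWithin.mono fun t ht => fl_close ht x) nhdsWithin_le_nhds)
    refine (((hc.comp (cont_vecMul g)).tendsto x).comp h1).congr' ?_
    filter_upwards [h1.eventually_ne hx] with t ht
    rw [indicator_of_mem, vecMul_smul, ← smul_vecMul]
    · rfl
    · intro e
      apply ht
      ext i; simp [e, zv]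

end Lattice

open D.Lattice in
theorem lat : LatStmt where
  lim N Φ hc hs h0 g hg := by
    obtain ⟨M, hM⟩ := hc.bounded_above_of_compact_support hs
    obtain ⟨R, hR, hR'⟩ := hs.isBounded.exists_pos_norm_le
    obtain ⟨ξ, -, hl, h⟩ := shortest hg
    have hD := abs_pos.2 hg
    have b1 : ∀ r, ENNReal.ofReal (Φ r) ≤ ENNReal.ofReal M := fun r =>
      ENNReal.ofReal_le_ofReal ((le_abs_self _).trans (hM r))
    have b0 : ∀ r, R < ‖r‖ → ENNReal.ofReal (Φ r) = 0 := fun r hr => by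
      rw [image_eq_zero_of_notMem_tsupport fun h => (hR' r h).not_gt hr, ENNReal.ofReal_zero]
    have h1 := abel (div_pos hR hl) (riemann N.succ_pos hg (ENNReal.continuous_ofReal.comp hc)
      ENNReal.ofReal_ne_top b1 b0) (ENNReal.mul_ne_top ENNReal.ofReal_ne_top ENNReal.ofReal_ne_top)
      (fun t ht => h.ψ_le hl b1 b0 ht) fun t ht => h.ψ_zero hl hR b0 ht
    have hN : (0 : ℝ) < (N + 1 : ℕ) := by positivity
    have h2 : Tendsto (fun s : ℝ => ((N + 1 : ℕ) : ℝ) * (s - 1)) (𝓝[>] 1) (𝓝[>] 0) := by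
      refine tendsto_nhdsWithin_iff.2 ⟨Tendsto.mono_left (Continuous.tendsto' (by fun_prop) _ _
        (by simp)) nhdsWithin_le_nhds, eventually_mem_nhdsWithin.mono fun s hs => ?_⟩
      exact mul_pos hN (sub_pos.2 hs)
    have h3 : Tendsto (fun s : ℝ => ENNReal.ofReal (|g.det| ^ s / (N + 1 : ℕ))) (𝓝[>] 1)
        (𝓝 (ENNReal.ofReal (|g.det| / (N + 1 : ℕ)))) :=
      ENNReal.tendsto_ofReal ((((Real.continuous_const_rpow hD.ne').tendsto' _ _
        (Real.rpow_one _)).mono_left nhdsWithin_le_nhds).div_const _)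
    have h4 := ENNReal.Tendsto.mul h3 (Or.inl (by simpa using by positivity)) (h1.comp h2)
      (Or.inr ENNReal.ofReal_ne_top)
    simp only [Function.comp_def] at h4
    rw [← ofReal_integral_eq_lintegral_ofReal (hc.integrable_of_hasCompactSupport hs)
      (.of_forall h0), ← mul_assoc, ← ENNReal.ofReal_mul (by positivity),
      ← ENNReal.ofReal_mul (by positivity)] at h4
    rw [show (∫ r, Φ r) / (N + 1) = |g.det| / (N + 1 : ℕ) * |g.det|⁻¹ * ∫ r, Φ r by
      push_cast; field_simp]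
    refine h4.congr' (eventually_mem_nhdsWithin.mono fun s (hs : 1 < s) => ?_)
    have := sub_pos.2 hs
    simp only
    rw [eis_eq, ← mul_assoc, ← mul_assoc, ← ENNReal.ofReal_mul (by positivity),
      ← ENNReal.ofReal_mul this.le]
    congr 2
    field_simp
  dom N s2 hs2 := by
    refine ⟨ENNReal.ofReal (20 ^ (N + 1) * 4 ^ (((N + 1 : ℕ) : ℝ) * 2)) * 2,
      ENNReal.mul_ne_top ENNReal.ofReal_ne_top (by simp), fun Φ h1 h0 s s1 s3 g hg => ?_⟩
    obtain ⟨ξ, hξ, hl, h⟩ := shortest hg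
    have h2 := cone_lb hξ hl (s := s2) (by linarith)
    have h3 := h.mink hl hg
    set l := ‖zv ξ ᵥ* g‖
    have hs := sub_pos.2 s1
    have hN : (1 : ℝ) ≤ (N + 1 : ℕ) := by simp
    have hδ : 0 < ((N + 1 : ℕ) : ℝ) * (s - 1) := by positivity
    have h4 := abel_le hδ (a := 4 / l) (by positivity) le_rfl
      (fun t ht _ => h.ψ_le hl h1 h0 ht) (fun t ht => h.ψ_le hl h1 h0 ht)
      fun t ht => h.ψ_zero hl four_pos h0 ht
    rw [sub_self, ENNReal.ofReal_zero, mul_zero, add_zero, one_mul] at h4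
    rw [mul_assoc, eis_eq, mul_left_comm]
    refine le_trans ?_ (mul_le_mul_right h2 _)
    refine (mul_le_mul_right ((mul_le_mul_left (ENNReal.ofReal_le_ofReal
      (le_mul_of_one_le_left hs.le hN)) _).trans h4) _).trans ?_
    rw [← ENNReal.ofReal_mul (by positivity), ← ENNReal.ofReal_mul (by positivity),
      ← ENNReal.ofReal_mul (by positivity)]
    refine ENNReal.ofReal_le_ofReal ?_
    have e : |g.det| ^ s * ((5 * 4 / l) ^ (N + 1) * (4 / l) ^ (((N + 1 : ℕ) : ℝ) * (s - 1))) =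
        20 ^ (N + 1) * 4 ^ (((N + 1 : ℕ) : ℝ) * (s - 1)) * (|g.det| / l ^ (N + 1)) ^ s := by
      rw [Real.div_rpow (by norm_num) hl.le, Real.div_rpow (abs_nonneg _) (by positivity), div_pow,
        Real.rpow_mul hl.le, Real.rpow_natCast, Real.rpow_sub_one (by positivity)]
      field_simp
      norm_num
    rw [e]
    gcongr
    · norm_num
    · linarith
    · exact (one_le_div (by positivity)).2 h3
    · linarith
  mink N s hs g hg := by
    obtain ⟨ξ, hξ, hl, h⟩ := shortest hg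
    refine le_trans ?_ (cone_lb hξ hl hs)
    rw [ENNReal.one_le_ofReal]
    exact Real.one_le_rpow ((one_le_div (by positivity)).2 (h.mink hl hg)) hs
  sum N := by
    refine ⟨1 * (∑' k : ℤ, ENNReal.ofReal ((2 / (1 + |(k : ℝ)|)) ^ 2)) ^ (N + 1), ?_,
      fun g l hl l1 h => Sep.th_le h hl 1 _ fun r => ?_⟩
    · rw [one_mul]
      refine ENNReal.pow_ne_top (Summable.tsum_ofReal_ne_top ?_)
      have : Summable fun k : ℕ => (2 / (1 + (k : ℝ))) ^ 2 := by
        simpa [div_pow, add_comm, div_eq_mul_inv, mul_pow] using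
          ((summable_nat_add_iff 1).2 (Real.summable_nat_pow_inv.2 one_lt_two)).mul_left (2 ^ 2)
      exact .of_nat_of_neg (by simpa using this) (by simpa using this)
    · rw [one_mul, ← ENNReal.ofReal_prod_of_nonneg fun _ _ => by positivity, pow_mul,
        ← Fin.prod_const]
      refine ENNReal.ofReal_le_ofReal (Finset.prod_le_prod (fun _ _ => by positivity)
        fun i _ => pow_le_pow_left₀ (by positivity) ?_ 2)
      have h1 := (le_div_iff₀ hl).1 (Int.floor_le (r i / l))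
      have h2 := (div_lt_iff₀ hl).1 (Int.lt_floor_add_one (r i / l))
      have h3 := abs_le.1 (norm_le_pi_norm r i)
      rw [div_le_div_iff₀ (by positivity) (by positivity), mul_add, ← abs_of_pos hl, ← abs_mul,
        abs_of_pos hl]
      have h4 : |l * (⌊r i / l⌋ : ℝ)| ≤ ‖r‖ + 1 := abs_le.2 ⟨by linarith, by linarith⟩
      linarith [norm_nonneg r]

end Pool.Agent.Lib.MP_fa98d2_nt.D
end
end

-- part Pool.Agent.Lib.MP_fa98d2_nt.D.Arith
section

/-!
Integral matrices: primitive vectors and Hermite normal forms of Hecke double cosets.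
-/

open Matrix
open scoped ENNReal

noncomputable section

namespace Pool.Agent.Lib.MP_fa98d2_nt.D

namespace Arith

/-! ### Primitive vectors -/

/-- a transvection as an invertible matrix -/
def tv {n : ℕ} (i j : Fin n) (h : i ≠ j) (c : ℤ) : GL (Fin n) ℤ where
  val := transvection i j c
  inv := transvection i j (-c)
  val_inv := by rw [transvection_mul_transvection_same i j h]; simp
  inv_val := by rw [transvection_mul_transvection_same i j h]; simp

/-- a transposition as an invertible matrix -/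
def sw {n : ℕ} (i j : Fin n) : GL (Fin n) ℤ where
  val := swap ℤ i j
  inv := swap ℤ i j
  val_inv := swap_mul_self i j
  inv_val := swap_mul_self i j

theorem euclid (k : ℕ) : ∀ (m : ℕ) (v : Fin (k + 1) → ℤ), ∑ i, (v i).natAbs = m →
    ∃ (γ : GL (Fin (k + 1)) ℤ) (g : ℤ), v = g • γ.val (Fin.last k) := by
  intro m
  induction m using Nat.strong_induction_on with
  | _ m ih =>
    intro v hv
    by_cases h : ∃ i j, i ≠ j ∧ v i ≠ 0 ∧ (v i).natAbs ≤ (v j).natAbs
    · obtain ⟨i, j, hij, hi, hle⟩ := h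
      set v' : Fin (k + 1) → ℤ := Function.update v j (v j % v i) with hv'
      have hlt : ∑ l, (v' l).natAbs < m := by
        rw [← hv]
        apply Finset.sum_lt_sum
        · intro l _
          by_cases hl : l = j
          · subst hl
            have h1 := Int.emod_nonneg (v l) hi
            have h2 := Int.emod_lt_abs (v l) hi
            simp only [hv', Function.update_self]
            have h3 : |v i| = ((v i).natAbs : ℤ) := by simp
            omega
          · simp [hv', Function.update_of_ne hl]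
        · refine ⟨j, Finset.mem_univ _, ?_⟩
          have h1 := Int.emod_nonneg (v j) hi
          have h2 := Int.emod_lt_abs (v j) hi
          simp only [hv', Function.update_self]
          have h3 : |v i| = ((v i).natAbs : ℤ) := by simp
          omega
      obtain ⟨γ, g, hγ⟩ := ih _ hlt v' rfl
      refine ⟨γ * tv i j hij (v j / v i), g, ?_⟩
      funext l
      have hl' := congrFun hγ
      simp only [Pi.smul_apply, smul_eq_mul] at hl'
      by_cases hl : l = j
      · subst hl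
        have e1 := hl' l
        have e2 := hl' i
        simp only [hv', Function.update_self, Function.update_of_ne hij] at e1 e2
        simp only [Units.val_mul, tv, Pi.smul_apply, smul_eq_mul, mul_transvection_apply_same]
        have e3 := Int.emod_add_mul_ediv (v l) (v i)
        linear_combination e1 + (v l / v i) * e2 - e3
      · have e1 := hl' l
        simp only [hv', Function.update_of_ne hl] at e1
        simp only [Units.val_mul, tv, Pi.smul_apply, smul_eq_mul]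
        rw [mul_transvection_apply_of_ne i j _ _ hl]
        exact e1
    · push Not at h
      by_cases h0 : ∃ i, v i ≠ 0
      · obtain ⟨i, hi⟩ := h0
        refine ⟨sw i (Fin.last k), v i, ?_⟩
        funext l
        by_cases hl : l = i
        · subst hl
          simp [sw, Matrix.swap, Equiv.Perm.permMatrix]
        · have hz : v l = 0 := by
            by_contra hne
            have h1 := h i l (Ne.symm hl) hi
            have h2 := h l i hl hne
            omega
          simp [sw, Matrix.swap, Equiv.Perm.permMatrix, hz, Ne.symm hl]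
      · push Not at h0
        refine ⟨1, 0, ?_⟩
        funext l
        simp [h0]

theorem prim_dot {k : ℕ} (ξ : Prim k) : ∃ a : Fin (k + 1) → ℤ, ξ.1 ⬝ᵥ a = 1 := by
  obtain ⟨γ, hγ⟩ := ξ.2
  refine ⟨fun i => γ.inv i (Fin.last k), ?_⟩
  have h := congrFun (congrFun γ.val_inv (Fin.last k)) (Fin.last k)
  rw [← hγ]
  simpa [Matrix.mul_apply, dotProduct] using h

/-- the scaling map -/
def sc (k : ℕ) (z : ℕ+ × Prim k) : {ξ : Fin (k + 1) → ℤ // ξ ≠ 0} :=
  ⟨((z.1 : ℕ) : ℤ) • z.2.1, by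
    intro h
    obtain ⟨a, ha⟩ := prim_dot z.2
    have h1 : (((z.1 : ℕ) : ℤ) • z.2.1) ⬝ᵥ a = ((z.1 : ℕ) : ℤ) := by
      rw [smul_dotProduct, ha]; simp
    rw [h] at h1
    have h2 := z.1.pos
    simp at h1
    omega⟩

theorem sc_bij (k : ℕ) : Function.Bijective (sc k) := by
  constructor
  · rintro ⟨c, ξ⟩ ⟨c', ξ'⟩ h
    have h1 : ((c : ℕ) : ℤ) • ξ.1 = ((c' : ℕ) : ℤ) • ξ'.1 := congrArg Subtype.val h
    obtain ⟨a, ha⟩ := prim_dot ξ
    obtain ⟨a', ha'⟩ := prim_dot ξ'
    have e1 : ((c : ℕ) : ℤ) = ((c' : ℕ) : ℤ) * (ξ'.1 ⬝ᵥ a) := by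
      have := congrArg (fun w => w ⬝ᵥ a) h1
      simp only [smul_dotProduct, ha, smul_eq_mul, mul_one] at this
      exact this
    have e2 : ((c' : ℕ) : ℤ) = ((c : ℕ) : ℤ) * (ξ.1 ⬝ᵥ a') := by
      have := congrArg (fun w => w ⬝ᵥ a') h1
      simp only [smul_dotProduct, ha', smul_eq_mul, mul_one] at this
      exact this.symm
    have d1 : (c' : ℕ) ∣ (c : ℕ) := Int.natCast_dvd_natCast.mp ⟨_, e1⟩
    have d2 : (c : ℕ) ∣ (c' : ℕ) := Int.natCast_dvd_natCast.mp ⟨_, e2⟩
    have hc : c = c' := PNat.eq (Nat.dvd_antisymm d2 d1)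
    subst hc
    have hne : ((c : ℕ) : ℤ) ≠ 0 := by exact_mod_cast c.pos.ne'
    have : ξ.1 = ξ'.1 := smul_right_injective _ hne h1
    rw [Subtype.ext this]
  · rintro ⟨v, hv⟩
    obtain ⟨γ, g, hγ⟩ := euclid k _ v rfl
    have hg : g ≠ 0 := by
      rintro rfl
      exact hv (by simpa using hγ)
    rcases lt_or_gt_of_ne hg with h | h
    · refine ⟨(⟨g.natAbs, Int.natAbs_pos.mpr hg⟩, ⟨(-γ).val (Fin.last k), -γ, rfl⟩), ?_⟩
      apply Subtype.ext
      have e : ((g.natAbs : ℕ) : ℤ) = -g := by omega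
      simp only [sc, PNat.mk_coe, e, hγ, Units.val_neg]
      funext l
      simp
    · refine ⟨(⟨g.natAbs, Int.natAbs_pos.mpr hg⟩, ⟨γ.val (Fin.last k), γ, rfl⟩), ?_⟩
      apply Subtype.ext
      have e : ((g.natAbs : ℕ) : ℤ) = g := by omega
      simp only [sc, PNat.mk_coe, e, hγ]

/-! ### Hecke representatives -/

section hecke
variable {n : ℕ}

theorem reps_spec {p : ℕ} {I : Finset (Fin n)} {v : Fin n → Fin n → ℕ} :
    v ∈ reps p I ↔ ∀ a b, (a < b ∧ a ∉ I ∧ b ∈ I → v a b < p) ∧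
      (¬ (a < b ∧ a ∉ I ∧ b ∈ I) → v a b = 0) := by
  simp only [reps, Fintype.mem_piFinset]
  refine forall_congr' fun a => forall_congr' fun b => ?_
  by_cases h : a < b ∧ a ∉ I ∧ b ∈ I
  · simp [h]
  · rw [if_neg h]; simp only [Finset.mem_singleton]; tauto

/-- the diagonal part -/
def dg (p : ℕ) (I : Finset (Fin n)) : Matrix (Fin n) (Fin n) ℤ :=
  diagonal fun a => if a ∈ I then (p : ℤ) else 1

/-- the complementary diagonal part -/
def dg' (p : ℕ) (I : Finset (Fin n)) : Matrix (Fin n) (Fin n) ℤ :=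
  diagonal fun a => if a ∈ I then 1 else (p : ℤ)

/-- the nilpotent part -/
def nl (v : Fin n → Fin n → ℕ) : Matrix (Fin n) (Fin n) ℤ := Matrix.of fun a b => (v a b : ℤ)

theorem hmat_eq {p : ℕ} {I : Finset (Fin n)} {v : Fin n → Fin n → ℕ} (hv : v ∈ reps p I) :
    hmat ℤ p I v = dg p I + nl v := by
  ext a b
  by_cases h : a = b
  · subst h
    have := (reps_spec.mp hv a a).2 (by simp)
    simp [hmat, dg, nl, this]
  · simp [hmat, dg, nl, h]

theorem dg_mul_dg' (p : ℕ) (I : Finset (Fin n)) :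
    dg p I * dg' p I = (p : ℤ) • (1 : Matrix (Fin n) (Fin n) ℤ) := by
  ext a b
  by_cases h : a = b
  · subst h
    by_cases ha : a ∈ I <;> simp [dg, dg', ha]
  · simp [dg, dg', h]

theorem dg_mul_nl {p : ℕ} {I : Finset (Fin n)} {v : Fin n → Fin n → ℕ} (hv : v ∈ reps p I) :
    dg p I * nl v = nl v := by
  ext a b
  by_cases ha : a ∈ I
  · have := (reps_spec.mp hv a b).2 (by simp [ha])
    simp [dg, nl, this]
  · simp [dg, nl, ha]

theorem nl_mul_dg' {p : ℕ} {I : Finset (Fin n)} {v : Fin n → Fin n → ℕ} (hv : v ∈ reps p I) :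
    nl v * dg' p I = nl v := by
  ext a b
  by_cases hb : b ∈ I
  · simp [dg', nl, hb]
  · have := (reps_spec.mp hv a b).2 (by simp [hb])
    simp [dg', nl, this]

theorem nl_mul_nl {p : ℕ} {I : Finset (Fin n)} {v w : Fin n → Fin n → ℕ} (hv : v ∈ reps p I)
    (hw : w ∈ reps p I) : nl v * nl w = 0 := by
  ext a c
  rw [Matrix.mul_apply]
  refine Finset.sum_eq_zero fun b _ => ?_
  by_cases hb : b ∈ I
  · have := (reps_spec.mp hw b c).2 (by simp [hb])
    simp [nl, this]
  · have := (reps_spec.mp hv a b).2 (by simp [hb])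
    simp [nl, this]

theorem hmat_mul {p : ℕ} {I : Finset (Fin n)} {v w : Fin n → Fin n → ℕ} (hv : v ∈ reps p I)
    (hw : w ∈ reps p I) : hmat ℤ p I w * (dg' p I - nl v) =
      (p : ℤ) • (1 : Matrix (Fin n) (Fin n) ℤ) + (nl w - nl v) := by
  rw [hmat_eq hw, add_mul, mul_sub, mul_sub, dg_mul_dg', dg_mul_nl hv, nl_mul_dg' hw,
    nl_mul_nl hw hv]
  abel

theorem hmat_mul_self {p : ℕ} {I : Finset (Fin n)} {v : Fin n → Fin n → ℕ} (hv : v ∈ reps p I) :
    hmat ℤ p I v * (dg' p I - nl v) = (p : ℤ) • (1 : Matrix (Fin n) (Fin n) ℤ) := by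
  rw [hmat_mul hv hv]; simp

theorem hmat_det {p : ℕ} {I : Finset (Fin n)} {v : Fin n → Fin n → ℕ} (hv : v ∈ reps p I) :
    (hmat ℤ p I v).det = (p : ℤ) ^ I.card := by
  rw [det_of_isUpperTriangular]
  · simp [hmat, Finset.prod_ite_mem]
  · intro a b hab
    have hab' : b < a := hab
    have := (reps_spec.mp hv a b).2 (fun h => lt_asymm hab' h.1)
    simp [hmat, this, hab'.ne']

theorem abs_det_unit (γ : GL (Fin n) ℤ) : |γ.val.det| = 1 := by
  have h : IsUnit γ.val.det := (isUnit_iff_isUnit_det _).mp γ.isUnit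
  rcases Int.isUnit_iff.mp h with h | h <;> simp [h]

theorem mem_Dc {p : ℕ} {I : Finset (Fin n)} {v : Fin n → Fin n → ℕ} (hv : v ∈ reps p I)
    (γ : GL (Fin n) ℤ) : γ.val * hmat ℤ p I v ∈ Dc n p I.card := by
  refine ⟨⟨(dg' p I - nl v) * γ.inv, ?_⟩, ?_⟩
  · rw [mul_assoc, ← mul_assoc (hmat ℤ p I v), hmat_mul_self hv, smul_mul_assoc, one_mul,
      mul_smul_comm, γ.val_inv]
  · rw [det_mul, abs_mul, abs_det_unit, hmat_det hv]
    simp

theorem diag_entry {p : ℕ} {I J : Finset (Fin n)} {v w : Fin n → Fin n → ℕ} (hv : v ∈ reps p I)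
    (hw : w ∈ reps p J) {a : Fin n} (ha : a ∈ I) (ha' : a ∉ J) :
    (hmat ℤ p J w * (dg' p I - nl v)) a a = 1 := by
  rw [Matrix.mul_apply, Finset.sum_eq_single a]
  · have := (reps_spec.mp hv a a).2 (by simp)
    simp [hmat, dg', nl, ha, ha', this]
  · intro b _ hb
    rcases lt_or_gt_of_ne hb with h | h
    · have := (reps_spec.mp hw a b).2 (fun h' => lt_asymm h h'.1)
      simp [hmat, this, hb.symm]
    · have := (reps_spec.mp hv b a).2 (fun h' => lt_asymm h h'.1)
      simp [dg', nl, this, hb]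
  · simp

theorem uniq {p : ℕ} (hp : p.Prime) {I J : Finset (Fin n)} {v w : Fin n → Fin n → ℕ}
    (hv : v ∈ reps p I) (hw : w ∈ reps p J) (hc : I.card = J.card) {γ δ : GL (Fin n) ℤ}
    (h : γ.val * hmat ℤ p I v = δ.val * hmat ℤ p J w) : γ = δ ∧ I = J ∧ v = w := by
  have h1 : hmat ℤ p J w * (dg' p I - nl v) = (p : ℤ) • (δ.inv * γ.val) := by
    have : hmat ℤ p J w = δ.inv * γ.val * hmat ℤ p I v := by
      rw [mul_assoc, h, ← mul_assoc, δ.inv_val, one_mul]
    rw [this, mul_assoc, hmat_mul_self hv, mul_smul_comm, mul_one]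
  have hp1 : (1 : ℤ) < p := by exact_mod_cast hp.one_lt
  have hIJ : I = J := by
    apply Finset.eq_of_subset_of_card_le _ hc.ge
    intro a ha
    by_contra ha'
    have h2 := diag_entry hv hw ha ha'
    rw [h1] at h2
    simp only [Matrix.smul_apply, smul_eq_mul] at h2
    have := Int.eq_one_of_mul_eq_one_right (by omega) h2
    omega
  subst hIJ
  rw [hmat_mul hv hw] at h1
  have hvw : v = w := by
    funext a b
    by_cases hab : a < b ∧ a ∉ I ∧ b ∈ I
    · have e1 := (reps_spec.mp hv a b).1 hab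
      have e2 := (reps_spec.mp hw a b).1 hab
      have e3 := congrFun (congrFun h1 a) b
      simp only [Matrix.add_apply, Matrix.smul_apply, Matrix.sub_apply, nl, Matrix.of_apply,
        Matrix.one_apply_ne hab.1.ne, smul_eq_mul, mul_zero, zero_add] at e3
      have e4 : ((w a b : ℤ) - v a b) = 0 :=
        Int.eq_zero_of_abs_lt_dvd ⟨_, e3⟩ (by rw [abs_lt]; constructor <;> omega)
      omega
    · rw [(reps_spec.mp hv a b).2 hab, (reps_spec.mp hw a b).2 hab]
  subst hvw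
  refine ⟨?_, rfl, rfl⟩
  rw [sub_self, add_zero] at h1
  have h2 : (1 : Matrix (Fin n) (Fin n) ℤ) = δ.inv * γ.val :=
    smul_right_injective _ (by omega : (p : ℤ) ≠ 0) h1
  apply Units.ext
  have h3 : δ.val * (δ.inv * γ.val) = γ.val := by rw [← mul_assoc, δ.val_inv, one_mul]
  rw [← h3, ← h2, mul_one]

/-- cancellation of a matrix with nonzero determinant -/
theorem mul_comm_of {x y : Matrix (Fin n) (Fin n) ℤ} {p : ℤ} (hp : p ≠ 0)
    (h : x * y = p • (1 : Matrix (Fin n) (Fin n) ℤ)) :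
    y * x = p • (1 : Matrix (Fin n) (Fin n) ℤ) := by
  have hd : x.det ≠ 0 := by
    intro h0
    have := congrArg Matrix.det h
    rw [det_mul, h0, det_smul] at this
    simp at this
    exact hp (pow_eq_zero_iff'.mp this.symm).1
  have h1 : x * (y * x) = x * (p • (1 : Matrix (Fin n) (Fin n) ℤ)) := by
    rw [← mul_assoc, h, smul_mul_assoc, mul_smul_comm, one_mul, mul_one]
  have h2 := congrArg (fun z => x.adjugate * z) h1
  simp only [← mul_assoc, adjugate_mul, smul_mul_assoc, one_mul] at h2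
  exact smul_right_injective _ hd h2

/-- existence of an echelon basis for a lattice containing `p` times the standard lattice -/
theorem echelon {p : ℕ} (hp : p.Prime) (L : Submodule ℤ (Fin n → ℤ))
    (hL : ∀ w : Fin n → ℤ, (p : ℤ) • w ∈ L) :
    ∃ (I : Finset (Fin n)) (v : Fin n → Fin n → ℕ), v ∈ reps p I ∧
      (∀ a, hmat ℤ p I v a ∈ L) ∧ ∀ w ∈ L, ∃ c : Fin n → ℤ, w = c ᵥ* hmat ℤ p I v := by
  classical
  have hp0 : (0 : ℤ) < p := by exact_mod_cast hp.pos
  set I : Finset (Fin n) :=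
    Finset.univ.filter fun a => ¬ ∃ w ∈ L, w a = 1 ∧ ∀ b, b < a → w b = 0 with hI
  have hIm : ∀ a, a ∉ I ↔ ∃ w ∈ L, w a = 1 ∧ ∀ b, b < a → w b = 0 := by
    intro a
    simp only [hI, Finset.mem_filter, Finset.mem_univ, true_and, not_not]
  have key : ∀ a, a ∉ I → ∃ w ∈ L, w a = 1 ∧ (∀ b, b < a → w b = 0) ∧
      (∀ b, b ∉ I → b ≠ a → w b = 0) ∧ ∀ b, b ∈ I → 0 ≤ w b ∧ w b < p := by
    intro a
    induction a using WellFoundedGT.induction with
    | _ a ih =>
      intro ha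
      obtain ⟨w, hwL, hwa, hwb⟩ := (hIm a).mp ha
      have ih' : ∀ b, ∃ u : Fin n → ℤ, a < b → b ∉ I → u ∈ L ∧ u b = 1 ∧
          (∀ c, c < b → u c = 0) ∧ ∀ c, c ∉ I → c ≠ b → u c = 0 := by
        intro b
        by_cases hb : a < b ∧ b ∉ I
        · obtain ⟨u, h1, h2, h3, h4, _⟩ := ih b hb.1 hb.2
          exact ⟨u, fun _ _ => ⟨h1, h2, h3, h4⟩⟩
        · exact ⟨0, fun h1 h2 => absurd ⟨h1, h2⟩ hb⟩
      choose u hu using ih'
      set S : Finset (Fin n) := Finset.univ.filter fun b => a < b ∧ b ∉ I with hS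
      have hSm : ∀ b, b ∈ S ↔ a < b ∧ b ∉ I := by intro b; simp [hS]
      set w1 : Fin n → ℤ := w - ∑ b ∈ S, w b • u b with hw1
      have w1L : w1 ∈ L := L.sub_mem hwL (L.sum_mem fun b hb =>
        L.smul_mem _ (hu b ((hSm b).mp hb).1 ((hSm b).mp hb).2).1)
      have w1le : ∀ c, c ≤ a → w1 c = w c := by
        intro c hc
        simp only [hw1, Pi.sub_apply, Finset.sum_apply, Pi.smul_apply, smul_eq_mul]
        rw [Finset.sum_eq_zero, sub_zero]
        intro b hb
        have := hu b ((hSm b).mp hb).1 ((hSm b).mp hb).2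
        rw [this.2.2.1 c (lt_of_le_of_lt hc ((hSm b).mp hb).1), mul_zero]
      have w1gt : ∀ c, a < c → c ∉ I → w1 c = 0 := by
        intro c hc hcI
        simp only [hw1, Pi.sub_apply, Finset.sum_apply, Pi.smul_apply, smul_eq_mul]
        rw [Finset.sum_eq_single c, (hu c hc hcI).2.1]
        · ring
        · intro b hb hbc
          have := hu b ((hSm b).mp hb).1 ((hSm b).mp hb).2
          rw [this.2.2.2 c hcI hbc.symm, mul_zero]
        · intro h
          exact absurd ((hSm c).mpr ⟨hc, hcI⟩) h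
      refine ⟨w1 - (p : ℤ) • fun b => if b ∈ I then w1 b / p else 0,
        L.sub_mem w1L (hL _), ?_, ?_, ?_, ?_⟩
      · simp [ha, w1le a le_rfl, hwa]
      · intro b hb
        simp [w1le b hb.le, hwb b hb]
      · intro b hb hba
        rcases lt_or_gt_of_ne hba with h | h
        · simp [w1le b h.le, hwb b h]
        · simp [hb, w1gt b h hb]
      · intro b hb
        have e1 := Int.emod_add_mul_ediv (w1 b) p
        have e2 := Int.emod_nonneg (w1 b) hp0.ne'
        have e3 := Int.emod_lt_of_pos (w1 b) hp0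
        simp only [Pi.sub_apply, Pi.smul_apply, hb, if_true, smul_eq_mul]
        constructor <;> linarith
  have key' : ∀ a, ∃ w : Fin n → ℤ, a ∉ I → w ∈ L ∧ w a = 1 ∧ (∀ b, b < a → w b = 0) ∧
      (∀ b, b ∉ I → b ≠ a → w b = 0) ∧ ∀ b, b ∈ I → 0 ≤ w b ∧ w b < p := by
    intro a
    by_cases ha : a ∈ I
    · exact ⟨0, fun h => absurd ha h⟩
    · obtain ⟨w, hw⟩ := key a ha
      exact ⟨w, fun _ => hw⟩
  choose u hu using key'
  set v : Fin n → Fin n → ℕ := fun a b => if a < b ∧ a ∉ I ∧ b ∈ I then (u a b).toNat else 0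
    with hv
  have hrow1 : ∀ a, a ∉ I → hmat ℤ p I v a = u a := by
    intro a ha
    obtain ⟨-, h2, h3, h4, h5⟩ := hu a ha
    funext b
    by_cases hab : a = b
    · subst hab; simp [hmat, ha, h2]
    · by_cases hb : b ∈ I
      · rcases lt_or_gt_of_ne hab with h | h
        · simp [hmat, hab, hv, h, ha, hb, (h5 b hb).1]
        · simp [hmat, hab, hv, not_lt_of_gt h, h3 b h]
      · simp [hmat, hab, hv, hb, h4 b hb (Ne.symm hab)]
  have hrow2 : ∀ a, a ∈ I → hmat ℤ p I v a = (p : ℤ) • Pi.single a 1 := by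
    intro a ha
    funext b
    by_cases hab : a = b
    · subst hab; simp [hmat, ha]
    · simp [hmat, hab, hv, ha, Ne.symm hab]
  have hrowL : ∀ a, hmat ℤ p I v a ∈ L := by
    intro a
    by_cases ha : a ∈ I
    · rw [hrow2 a ha]; exact hL _
    · rw [hrow1 a ha]; exact (hu a ha).1
  refine ⟨I, v, ?_, hrowL, ?_⟩
  · refine reps_spec.mpr fun a b => ⟨fun h => ?_, fun h => ?_⟩
    · have := (hu a h.2.1).2.2.2.2 b h.2.2
      simp only [hv, if_pos h]
      omega
    · simp only [hv, if_neg h]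
  · have main : ∀ m : ℕ, ∀ w ∈ L, (∀ b : Fin n, b.val + m < n → w b = 0) →
        ∃ c : Fin n → ℤ, w = c ᵥ* hmat ℤ p I v := by
      intro m
      induction m with
      | zero =>
        intro w _ hw
        exact ⟨0, by funext b; simp [hw b (by simp)]⟩
      | succ m ih =>
        intro w hwL hw
        by_cases hm : m < n
        · set a : Fin n := ⟨n - 1 - m, by omega⟩ with ha
          have hav : a.val = n - 1 - m := rfl
          have hwb : ∀ b, b < a → w b = 0 := by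
            intro b hb
            have : b.val < a.val := hb
            exact hw b (by omega)
          have hq : ∃ q : ℤ, w a = q * hmat ℤ p I v a a ∧
              ∀ b, b < a → hmat ℤ p I v a b = 0 := by
            by_cases haI : a ∈ I
            · have hd : (p : ℤ) ∣ w a := by
                by_contra hnd
                have hco : IsCoprime (p : ℤ) (w a) :=
                  (Nat.prime_iff_prime_int.mp hp).coprime_iff_not_dvd.mpr hnd
                obtain ⟨s, t, hst⟩ := hco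
                refine (hIm a).mpr ⟨(p : ℤ) • (Pi.single a s) + t • w,
                  L.add_mem (hL _) (L.smul_mem _ hwL), ?_, ?_⟩ haI
                · simp only [Pi.add_apply, Pi.smul_apply, Pi.single_eq_same, smul_eq_mul]
                  linarith
                · intro b hb
                  simp [hwb b hb, hb.ne]
              obtain ⟨q, hq⟩ := hd
              refine ⟨q, ?_, ?_⟩
              · rw [hrow2 a haI, hq]; simp [mul_comm]
              · intro b hb
                rw [hrow2 a haI]; simp [hb.ne]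
            · refine ⟨w a, ?_, ?_⟩
              · rw [hrow1 a haI, (hu a haI).2.1, mul_one]
              · intro b hb
                rw [hrow1 a haI]; exact (hu a haI).2.2.1 b hb
          obtain ⟨q, hq1, hq2⟩ := hq
          obtain ⟨c, hc⟩ := ih (w - q • hmat ℤ p I v a)
            (L.sub_mem hwL (L.smul_mem _ (hrowL a))) (by
              intro b hb
              by_cases hba : b = a
              · subst hba; simp [hq1]
              · have hlt : b < a := by
                  have : b.val ≠ a.val := fun h => hba (Fin.ext h)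
                  show b.val < a.val
                  omega
                simp [hwb b hlt, hq2 b hlt])
          refine ⟨c + Pi.single a q, ?_⟩
          rw [add_vecMul, ← hc, single_vecMul]
          funext b
          simp
        · exact ih w hwL fun b hb => absurd hb (by omega)
    intro w hw
    exact main n w hw fun b hb => absurd hb (by omega)

theorem exist {p r : ℕ} (hp : p.Prime) {x : Matrix (Fin n) (Fin n) ℤ} (hx : x ∈ Dc n p r) :
    ∃ (γ : GL (Fin n) ℤ) (I : Finset (Fin n)) (v : Fin n → Fin n → ℕ), v ∈ reps p I ∧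
      I.card = r ∧ γ.val * hmat ℤ p I v = x := by
  obtain ⟨⟨y, hy⟩, hd⟩ := hx
  have hp0 : (p : ℤ) ≠ 0 := by exact_mod_cast hp.ne_zero
  have hy' := mul_comm_of hp0 hy
  obtain ⟨I, v, hv, h1, h2⟩ := echelon hp (LinearMap.range (Matrix.vecMulLinear x)) (by
    intro w
    refine ⟨w ᵥ* y, ?_⟩
    rw [vecMulLinear_apply, vecMul_vecMul, hy', vecMul_smul, vecMul_one])
  have h1' : ∀ a, ∃ c : Fin n → ℤ, c ᵥ* x = hmat ℤ p I v a := fun a => h1 a
  choose A hA using h1'
  have h2' : ∀ a, ∃ c : Fin n → ℤ, x a = c ᵥ* hmat ℤ p I v := fun a =>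
    h2 _ ⟨Pi.single a 1, by rw [vecMulLinear_apply, single_vecMul]; funext b; simp⟩
  choose B hB using h2'
  have eA : Matrix.of A * x = hmat ℤ p I v := by
    ext a b
    exact congrFun (hA a) b
  have eB : Matrix.of B * hmat ℤ p I v = x := by
    ext a b
    exact (congrFun (hB a) b).symm
  have hBA : Matrix.of B * Matrix.of A = 1 := by
    have e : Matrix.of B * Matrix.of A * (x * y) = x * y := by
      rw [← mul_assoc, mul_assoc (Matrix.of B), eA, eB]
    rw [hy, mul_smul_comm, mul_one] at e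
    exact smul_right_injective _ hp0 e
  let γ : GL (Fin n) ℤ := ⟨Matrix.of B, Matrix.of A, hBA, mul_eq_one_comm.mp hBA⟩
  refine ⟨γ, I, v, hv, ?_, eB⟩
  have e := (mem_Dc hv γ).2
  rw [show γ.val * hmat ℤ p I v = x from eB, hd] at e
  have hp1 : (1 : ℤ) < p := by exact_mod_cast hp.one_lt
  exact (pow_right_injective₀ (by omega) hp1.ne' e).symm

/-- the parametrisation of the double coset -/
def par (n p r : ℕ)
    (z : GL (Fin n) ℤ × ((Finset.powersetCard r Finset.univ).sigma (reps (n := n) p))) :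
    Dc n p r :=
  ⟨z.1.val * hmat ℤ p z.2.1.1 z.2.1.2, by
    have h := Finset.mem_sigma.mp z.2.2
    have h1 := mem_Dc h.2 z.1
    rwa [(Finset.mem_powersetCard.mp h.1).2] at h1⟩

theorem par_bij (n p r : ℕ) (hp : p.Prime) : Function.Bijective (par n p r) := by
  constructor
  · rintro ⟨γ, ⟨I, v⟩, h⟩ ⟨δ, ⟨J, w⟩, h'⟩ e
    have e' : γ.val * hmat ℤ p I v = δ.val * hmat ℤ p J w := congrArg Subtype.val e
    have k := Finset.mem_sigma.mp h
    have k' := Finset.mem_sigma.mp h'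
    obtain ⟨rfl, rfl, rfl⟩ := uniq hp k.2 k'.2
      ((Finset.mem_powersetCard.mp k.1).2.trans (Finset.mem_powersetCard.mp k'.1).2.symm) e'
    rfl
  · rintro ⟨x, hx⟩
    obtain ⟨γ, I, v, hv, hI, e⟩ := exist hp hx
    exact ⟨(γ, ⟨⟨I, v⟩, Finset.mem_sigma.mpr
      ⟨Finset.mem_powersetCard.mpr ⟨Finset.subset_univ _, hI⟩, hv⟩⟩), Subtype.ext e⟩

theorem dual_mem {p r s : ℕ} (hp : p.Prime) (hrs : r + s = n) {x y : Matrix (Fin n) (Fin n) ℤ}
    (hx : x ∈ Dc n p r) (h : x * y = (p : ℤ) • (1 : Matrix (Fin n) (Fin n) ℤ)) :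
    y ∈ Dc n p s := by
  have hp0 : (p : ℤ) ≠ 0 := by exact_mod_cast hp.ne_zero
  refine ⟨⟨x, mul_comm_of hp0 h⟩, ?_⟩
  have e := congrArg (fun z => |Matrix.det z|) h
  simp only [det_mul, abs_mul, hx.2, det_smul, det_one, mul_one, Fintype.card_fin, abs_pow,
    Nat.abs_cast] at e
  have e2 : (p : ℤ) ^ n = (p : ℤ) ^ r * (p : ℤ) ^ s := by rw [← pow_add, hrs]
  rw [e2] at e
  exact mul_left_cancel₀ (pow_ne_zero _ hp0) e

theorem dual_uniq {p : ℤ} (hp : p ≠ 0) {x y z : Matrix (Fin n) (Fin n) ℤ}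
    (h : x * y = p • (1 : Matrix (Fin n) (Fin n) ℤ))
    (h' : y * z = p • (1 : Matrix (Fin n) (Fin n) ℤ)) : z = x := by
  have e : x * y * z = x * (y * z) := mul_assoc _ _ _
  rw [h, h', smul_mul_assoc, mul_smul_comm, one_mul, mul_one] at e
  exact smul_right_injective _ hp e

end hecke

end Arith

theorem prim : PrimStmt := by
  intro k F
  rw [← (Equiv.ofBijective _ (Arith.sc_bij k)).tsum_eq, ENNReal.tsum_prod']
  rfl

theorem hnf : HNFStmt where
  dec := by
    intro n p r hp f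
    rw [← (Equiv.ofBijective _ (Arith.par_bij n p r hp)).tsum_eq, ENNReal.tsum_prod']
    refine tsum_congr fun γ => ?_
    rw [Finset.sum_sigma', ← Finset.tsum_subtype]
    rfl
  inv := by
    intro n p r hp hr
    have hp0 : (p : ℤ) ≠ 0 := by exact_mod_cast hp.ne_zero
    refine ⟨⟨fun x => ⟨x.2.1.choose, Arith.dual_mem hp (by omega) x.2 x.2.1.choose_spec⟩,
      fun y => ⟨y.2.1.choose, Arith.dual_mem hp (by omega) y.2 y.2.1.choose_spec⟩, ?_, ?_⟩,
      fun x => x.2.1.choose_spec⟩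
    · intro x
      exact Subtype.ext (Arith.dual_uniq hp0 x.2.1.choose_spec (Exists.choose_spec
        (Arith.dual_mem hp (by omega : r + (n - r) = n) x.2 x.2.1.choose_spec).1))
    · intro y
      exact Subtype.ext (Arith.dual_uniq hp0 y.2.1.choose_spec (Exists.choose_spec
        (Arith.dual_mem hp (by omega : n - r + r = n) y.2 y.2.1.choose_spec).1))

end Pool.Agent.Lib.MP_fa98d2_nt.D
end
end
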