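import Mathlib

/- Spherical cusp forms on PGL(n) over Q in classical form, as functions on GL(n,R). -/

open MeasureTheory
open scoped MatrixGroups ContDiff

noncomputable section

namespace Pool.Agent.Lib.MP_fa98d2_nt.D

variable {n : ℕ}

/-- smooth on the invertible matrices -/
def SmoothGL (φ : Matrix (Fin n) (Fin n) ℝ → ℂ) : Prop :=
  ContDiffOn ℝ ∞ (fun x : Fin n → Fin n → ℝ => φ (Matrix.of x)) {x | (Matrix.of x).det ≠ 0}

/-- the left invariant vector field of the elementary matrix `E_ij` -/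
def lie (i j : Fin n) (φ : Matrix (Fin n) (Fin n) ℝ → ℂ) (g : Matrix (Fin n) (Fin n) ℝ) : ℂ :=
  deriv (fun t : ℝ => φ (g * (1 + t • Matrix.single i j 1))) 0

/-- `liePow φ k i j = Σ E_(i,i1) E_(i1,i2) ... E_(i(k-1),j) φ` -/
def liePow (φ : Matrix (Fin n) (Fin n) ℝ → ℂ) :
    ℕ → Fin n → Fin n → Matrix (Fin n) (Fin n) ℝ → ℂ
  | 0, i, j => if i = j then φ else 0
  | k + 1, i, j => ∑ l, lie i l (liePow φ k l j)

/-- the Gelfand invariant `Σ E_(i1,i2) E_(i2,i3) ... E_(ik,i1)`; these operators generate the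
centre of the enveloping algebra, which maps onto the invariant differential operators -/
def gelfand (k : ℕ) (φ : Matrix (Fin n) (Fin n) ℝ → ℂ) : Matrix (Fin n) (Fin n) ℝ → ℂ :=
  ∑ i, liePow φ k i i

/-- `F` is the spherical vector of the representation induced from `|.|^μ_1, ..., |.|^μ_n`:
`F (u a k) = Π |a_i|^(μ_i + ρ_i)` -/
structure IsPower (μ : Fin n → ℂ) (F : Matrix (Fin n) (Fin n) ℝ → ℂ) : Prop where
  smooth : SmoothGL F
  one : F 1 = 1
  left : ∀ b g : Matrix (Fin n) (Fin n) ℝ, b.det ≠ 0 → g.det ≠ 0 → (∀ i j, j < i → b i j = 0) →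
    F (b * g) = (∏ i, ((|b i i| : ℝ) : ℂ) ^ (μ i + ((n : ℂ) - 1 - 2 * (i.val : ℂ)) / 2)) * F g
  right : ∀ k ∈ Matrix.orthogonalGroup (Fin n) ℝ, ∀ g : Matrix (Fin n) (Fin n) ℝ, g.det ≠ 0 →
    F (g * k) = F g

/-- entries above the diagonal of the Hecke representatives with `p` at the places in `I` -/
def heckeEntries (p : ℕ) (I : Finset (Fin n)) : Finset (Fin n → Fin n → ℕ) :=
  Fintype.piFinset fun a => Fintype.piFinset fun b =>
    if a < b ∧ a ∉ I ∧ b ∈ I then Finset.range p else {0}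

/-- the upper triangular Hecke representative (Hermite normal form) -/
def heckeRep (p : ℕ) (I : Finset (Fin n)) (v : Fin n → Fin n → ℕ) : Matrix (Fin n) (Fin n) ℝ :=
  Matrix.of fun a b => if a = b then (if a ∈ I then (p : ℝ) else 1) else (v a b : ℝ)

/-- `φ` is (the restriction to `GL(n,ℝ)` of) a spherical cusp form on `PGL(n)` with Langlands
parameters `μ` at the real place and Satake parameters `α p` at each prime `p`. -/
structure SphCusp (φ : Matrix (Fin n) (Fin n) ℝ → ℂ) (μ : Fin n → ℂ) (α : ℕ → Fin n → ℂ) :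
    Prop where
  smooth : SmoothGL φ
  nonzero : ∃ g, g.det ≠ 0 ∧ φ g ≠ 0
  inv : ∀ (γ : GL (Fin n) ℤ) (g : Matrix (Fin n) (Fin n) ℝ), g.det ≠ 0 →
    φ (γ.val.map (Int.cast : ℤ → ℝ) * g) = φ g
  cen : ∀ t : ℝ, t ≠ 0 → ∀ g : Matrix (Fin n) (Fin n) ℝ, g.det ≠ 0 → φ (t • g) = φ g
  sph : ∀ k ∈ Matrix.orthogonalGroup (Fin n) ℝ, ∀ g : Matrix (Fin n) (Fin n) ℝ, g.det ≠ 0 →
    φ (g * k) = φ g
  /-- zero constant term along each maximal parabolic -/
  cusp : ∀ j : ℕ, 0 < j → j < n → ∀ g : Matrix (Fin n) (Fin n) ℝ, g.det ≠ 0 →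
    ∫ X in (Set.univ.pi fun _ => Set.univ.pi fun _ => Set.Ico (0 : ℝ) 1 : Set (Fin n → Fin n → ℝ)),
      φ ((1 + Matrix.of fun a b : Fin n => if a.val < j ∧ j ≤ b.val then X a b else 0) * g) = 0
  /-- square-integrable for Haar measure on a fundamental domain, modulo scalars -/
  sqInt : ∃ D : Set (Fin n → Fin n → ℝ), MeasurableSet D ∧
    (∀ g : Matrix (Fin n) (Fin n) ℝ, g.det ≠ 0 →
      ∃! γ : GL (Fin n) ℤ, Matrix.of.symm (γ.val.map (Int.cast : ℤ → ℝ) * g) ∈ D) ∧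
    ∫⁻ x in D ∩ {x | 1 ≤ |(Matrix.of x).det| ∧ |(Matrix.of x).det| ≤ 2},
      ENNReal.ofReal (‖φ (Matrix.of x)‖ ^ 2 / |(Matrix.of x).det| ^ n) < ⊤
  sum_eq : ∑ i, μ i = 0
  /-- same eigenvalues under the invariant differential operators as the induced vector -/
  arch : ∃ F, IsPower μ F ∧ ∀ (k : ℕ) (g : Matrix (Fin n) (Fin n) ℝ), g.det ≠ 0 →
    gelfand k φ g = gelfand k F 1 * φ g
  prod_eq : ∀ p : ℕ, p.Prime → ∏ i, α p i = 1
  /-- the double coset of `diag(1,...,1,p,...,p)` with `r` entries `p` -/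
  hecke : ∀ p : ℕ, p.Prime → ∀ r : ℕ, r ≤ n → ∀ g : Matrix (Fin n) (Fin n) ℝ, g.det ≠ 0 →
    ∑ I ∈ Finset.powersetCard r Finset.univ, ∑ v ∈ heckeEntries p I, φ (heckeRep p I v * g) =
      (((p : ℝ) ^ ((r : ℝ) * ((n : ℝ) - r) / 2) : ℝ) : ℂ) *
        (∑ J ∈ Finset.powersetCard (n - r) Finset.univ, ∏ i ∈ J, α p i) * φ g

/-- `θ_p = max_i |log_p |α_{i,p}||` -/
def thetaP (α : ℕ → Fin n → ℂ) (p : ℕ) : ℝ := ⨆ i, |Real.logb p ‖α p i‖|

end Pool.Agent.Lib.MP_fa98d2_nt.D
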