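import Pool.Agent.Lib.MP_fa98d2_nt.D.Stmts1
import Pool.Agent.Lib.MP_fa98d2_nt.D.Defs

/- Haar measure on GL(k,R) in coordinates (adapted from the GL(3) library), explicit elements. -/

open MeasureTheory Matrix Set Topology
open scoped ENNReal MatrixGroups

noncomputable section

namespace Pool.Agent.Lib.MP_fa98d2_nt.D

abbrev G (k : ℕ) : Type := GL (Fin k) ℝ
abbrev GZ (k : ℕ) : Type := GL (Fin k) ℤ
abbrev E (k : ℕ) : Type := Fin k → Fin k → ℝ
abbrev Mat (k : ℕ) : Type := Matrix (Fin k) (Fin k) ℝ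

variable {k : ℕ}

def co (g : G k) : E k := fun i j => g.val i j

lemma of_co (g : G k) : Matrix.of (co g) = g.val := rfl

lemma isEmbedding_val : IsEmbedding (Units.val : G k → Mat k) := by
  refine Units.isEmbedding_val_mk' (f := fun A : Mat k => A⁻¹) ?_ ?_
  · intro A hA
    refine (continuousAt_matrix_inv A ?_).continuousWithinAt
    have hd : A.det ≠ 0 := ((Matrix.isUnit_iff_isUnit_det A).1 hA).ne_zero
    rw [Ring.inverse_eq_inv']
    exact continuousAt_inv₀ hd
  · intro u
    exact (Matrix.coe_units_inv u).symm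

lemma range_co : range (co (k := k)) = {x : E k | (Matrix.of x).det ≠ 0} := by
  ext x
  constructor
  · rintro ⟨g, rfl⟩
    exact Matrix.GeneralLinearGroup.det_ne_zero g
  · intro hx
    exact ⟨Matrix.GeneralLinearGroup.mkOfDetNeZero (Matrix.of x) hx, rfl⟩

lemma continuous_detE : Continuous fun x : E k => (Matrix.of x).det :=
  Continuous.matrix_det (continuous_matrix fun i j => by
    simp only [Matrix.of_apply]; fun_prop)

lemma isOpenEmbedding_co : IsOpenEmbedding (co (k := k)) := by
  refine ⟨isEmbedding_val, ?_⟩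
  rw [range_co]
  exact isOpen_ne_fun continuous_detE continuous_const

lemma continuous_co : Continuous (co (k := k)) := isOpenEmbedding_co.continuous

instance : MeasurableSpace (G k) := borel (G k)
instance : BorelSpace (G k) := ⟨rfl⟩
instance : SecondCountableTopology (G k) := isOpenEmbedding_co.isEmbedding.secondCountableTopology
instance : T2Space (G k) := isOpenEmbedding_co.isEmbedding.t2Space
instance : LocallyCompactSpace (G k) := isOpenEmbedding_co.locallyCompactSpace

lemma measurableEmbedding_co : MeasurableEmbedding (co (k := k)) :=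
  isOpenEmbedding_co.measurableEmbedding

def dens (x : E k) : ℝ≥0∞ := ENNReal.ofReal (|(Matrix.of x).det|⁻¹ ^ k)

lemma measurable_dens : Measurable (dens (k := k)) := by
  unfold dens
  exact ((continuous_detE.measurable.abs.inv).pow_const k).ennreal_ofReal

def nuE (k : ℕ) : Measure (E k) := volume.withDensity dens

def mu (k : ℕ) : Measure (G k) := (nuE k).comap co

lemma lintegral_mu (F : E k → ℝ≥0∞) (hF : Measurable F) :
    ∫⁻ g, F (co g) ∂mu k = ∫⁻ x in range co, dens x * F x := by
  rw [← measurableEmbedding_co.lintegral_map, mu, measurableEmbedding_co.map_comap, nuE,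
    restrict_withDensity measurableEmbedding_co.measurableSet_range,
    lintegral_withDensity_eq_lintegral_mul _ measurable_dens hF]
  rfl

lemma lintegral_mu_le (F : E k → ℝ≥0∞) (hF : Measurable F) :
    ∫⁻ g, F (co g) ∂mu k ≤ ∫⁻ x, dens x * F x := by
  rw [lintegral_mu F hF]
  exact setLIntegral_le_lintegral _ _

lemma nu_map (L : E k →ₗ[ℝ] E k) (c : ℝ) (hc : 0 < c) (hL : |LinearMap.det L| = c ^ k)
    (hd : ∀ x, |(Matrix.of (L x)).det| = c * |(Matrix.of x).det|) : MeasurePreserving L (nuE k) (nuE k) := by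
  have hLm : Measurable L := L.continuous_of_finiteDimensional.measurable
  have hL0 : LinearMap.det L ≠ 0 := by
    intro h; rw [h, abs_zero] at hL; exact (pow_pos hc k).ne' hL.symm
  refine ⟨hLm, ?_⟩
  ext s hs
  rw [Measure.map_apply hLm hs, nuE, withDensity_apply _ (hLm hs), withDensity_apply _ hs,
    ← lintegral_indicator (hLm hs), ← lintegral_indicator hs]
  have h1 : ∀ x, (L ⁻¹' s).indicator dens x =
      ENNReal.ofReal (c ^ k) * (s.indicator dens) (L x) := by
    intro x
    by_cases hx : L x ∈ s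
    · rw [indicator_of_mem hx, indicator_of_mem (show x ∈ L ⁻¹' s from hx), dens, dens, hd,
        ← ENNReal.ofReal_mul (by positivity)]
      congr 1
      rw [mul_inv, mul_pow, ← mul_assoc, ← mul_pow, mul_inv_cancel₀ hc.ne', one_pow, one_mul]
    · rw [indicator_of_notMem hx, indicator_of_notMem (show x ∉ L ⁻¹' s from hx), mul_zero]
  simp_rw [h1]
  rw [lintegral_const_mul' _ _ ENNReal.ofReal_ne_top,
    ← lintegral_map (measurable_dens.indicator hs) hLm,
    Measure.map_linearMap_addHaar_eq_smul_addHaar _ hL0, lintegral_smul_measure, smul_eq_mul,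
    ← mul_assoc, ← ENNReal.ofReal_mul (by positivity), abs_inv, hL,
    mul_inv_cancel₀ (pow_pos hc k).ne', ENNReal.ofReal_one, one_mul]

lemma mu_map (t : G k → G k) (ht : Measurable t) (L : E k →ₗ[ℝ] E k) (c : ℝ) (hc : 0 < c)
    (hL : |LinearMap.det L| = c ^ k)
    (hd : ∀ x, |(Matrix.of (L x)).det| = c * |(Matrix.of x).det|)
    (hco : ∀ g, L (co g) = co (t g)) : MeasurePreserving t (mu k) (mu k) := by
  refine ⟨ht, ?_⟩
  ext s hs
  rw [Measure.map_apply ht hs, mu, measurableEmbedding_co.comap_apply,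
    measurableEmbedding_co.comap_apply,
    ← (nu_map L c hc hL hd).measure_preimage
      (measurableEmbedding_co.measurableSet_image' hs).nullMeasurableSet]
  congr 1
  ext x
  constructor
  · rintro ⟨g, hg, rfl⟩
    exact ⟨t g, hg, (hco g).symm⟩
  · rintro ⟨g, hg, hx⟩
    have hx0 : x ∈ range co := by
      rw [range_co]
      intro h0
      have h1 := hd x
      rw [h0, ← hx, abs_zero, mul_zero, abs_eq_zero] at h1
      exact Matrix.GeneralLinearGroup.det_ne_zero g h1
    obtain ⟨g', rfl⟩ := hx0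
    refine ⟨g', ?_, rfl⟩
    rw [hco] at hx
    have := isOpenEmbedding_co.injective hx
    rw [mem_preimage, ← this]
    exact hg

/-- transpose on `G k` -/
def tr (g : G k) : G k :=
  ⟨g.val.transpose, (g⁻¹).val.transpose,
    by rw [← Matrix.transpose_mul, ← Units.val_mul, inv_mul_cancel, Units.val_one,
      Matrix.transpose_one],
    by rw [← Matrix.transpose_mul, ← Units.val_mul, mul_inv_cancel, Units.val_one,
      Matrix.transpose_one]⟩

@[simp] lemma val_tr (g : G k) : (tr g).val = g.val.transpose := rfl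

lemma tr_mul (g h : G k) : tr (g * h) = tr h * tr g := by
  apply Units.ext; simp [Matrix.transpose_mul]

@[simp] lemma tr_tr (g : G k) : tr (tr g) = g := by
  apply Units.ext; simp

@[simp] lemma tr_one : tr (1 : G k) = 1 := by
  apply Units.ext; simp

lemma tr_inv (g : G k) : tr g⁻¹ = (tr g)⁻¹ := by
  rw [eq_inv_iff_mul_eq_one, ← tr_mul, mul_inv_cancel, tr_one]

lemma continuous_tr : Continuous (tr (k := k)) := by
  rw [isEmbedding_val.continuous_iff]
  exact Units.continuous_val.matrix_transpose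

def rmul (h : Mat k) : E k →ₗ[ℝ] E k :=
  LinearMap.pi fun i => (Matrix.vecMulLinear h).comp (LinearMap.proj i)

lemma of_rmul (h : Mat k) (x : E k) : Matrix.of (rmul h x) = Matrix.of x * h := by
  ext i j
  simp [rmul, Matrix.mul_apply, Matrix.vecMul, dotProduct]

lemma det_rmul (h : Mat k) : LinearMap.det (rmul h) = h.det ^ k := by
  rw [rmul, LinearMap.det_pi]
  have : Matrix.vecMulLinear h = Matrix.toLin' h.transpose := by
    ext i j
    simp
  simp [this, LinearMap.det_toLin']

def trE : E k →ₗ[ℝ] E k where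
  toFun x := fun i j => x j i
  map_add' _ _ := rfl
  map_smul' _ _ := rfl

lemma det_trE : |LinearMap.det (trE (k := k))| = 1 := by
  have h : (trE (k := k)).comp trE = LinearMap.id := rfl
  have h2 : LinearMap.det (trE (k := k)) * LinearMap.det (trE (k := k)) = 1 := by
    rw [← LinearMap.det_comp, h, LinearMap.det_id]
  have h3 : |LinearMap.det (trE (k := k))| * |LinearMap.det (trE (k := k))| = 1 := by
    rw [← abs_mul, h2, abs_one]
  nlinarith [abs_nonneg (LinearMap.det (trE (k := k)))]

lemma mp_tr : MeasurePreserving tr (mu k) (mu k) := by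
  refine mu_map tr continuous_tr.measurable trE 1 one_pos (by rw [det_trE]; norm_num) ?_ ?_
  · intro x
    rw [one_mul, ← Matrix.det_transpose]
    rfl
  · intro g; rfl

lemma mp_rmul (h : G k) : MeasurePreserving (fun g => g * h) (mu k) (mu k) := by
  refine mu_map _ (continuous_mul_const h).measurable (rmul h.val) |h.val.det|
    (abs_pos.2 (Matrix.GeneralLinearGroup.det_ne_zero h)) (by rw [det_rmul, abs_pow]) ?_ ?_
  · intro x
    rw [of_rmul, Matrix.det_mul, abs_mul, mul_comm]
  · intro g
    exact of_rmul h.val (co g)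

instance : (mu k).IsMulRightInvariant := ⟨fun h => (mp_rmul h).map_eq⟩

instance : (mu k).IsMulLeftInvariant := by
  refine ⟨fun h => ?_⟩
  have : (fun g => h * g) = tr ∘ (fun g => g * tr h) ∘ tr := by
    ext1 g
    simp [tr_mul]
  rw [this]
  exact (mp_tr.comp ((mp_rmul (tr h)).comp mp_tr)).map_eq

instance : (mu k).IsOpenPosMeasure := by
  refine ⟨fun U hU hne h0 => ?_⟩
  rw [mu, measurableEmbedding_co.comap_apply, nuE,
    withDensity_apply_eq_zero measurable_dens] at h0
  have hV : IsOpen (co '' U) := isOpenEmbedding_co.isOpenMap U hU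
  have hsub : co '' U ⊆ {x | dens x ≠ 0} ∩ co '' U := by
    rintro x ⟨g, hg, rfl⟩
    refine ⟨?_, g, hg, rfl⟩
    have : 0 < |(Matrix.of (co g)).det|⁻¹ ^ k := by
      have := abs_pos.2 (Matrix.GeneralLinearGroup.det_ne_zero g)
      rw [of_co]; positivity
    simpa [dens] using this
  exact hV.measure_ne_zero volume (hne.image _) (measure_mono_null hsub h0)

instance : IsFiniteMeasureOnCompacts (mu k) := by
  refine ⟨fun K hK => ?_⟩
  have hK' : IsCompact (co '' K) := hK.image continuous_co
  rw [mu, measurableEmbedding_co.comap_apply, nuE, withDensity_apply _ hK'.measurableSet]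
  have hc : Continuous fun g : G k => |g.val.det|⁻¹ ^ k := by
    refine Continuous.pow (Continuous.inv₀ ?_ ?_) k
    · exact Units.continuous_val.matrix_det.abs
    · intro g; exact (abs_pos.2 (Matrix.GeneralLinearGroup.det_ne_zero g)).ne'
  obtain ⟨C, hC⟩ := (hK.image hc).bddAbove
  calc ∫⁻ x in co '' K, dens x ≤ ∫⁻ _ in co '' K, ENNReal.ofReal C := by
        refine setLIntegral_mono measurable_const ?_
        rintro x ⟨g, hg, rfl⟩
        exact ENNReal.ofReal_le_ofReal (hC ⟨g, hg, rfl⟩)
    _ < ∞ := by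
        rw [setLIntegral_const]
        exact ENNReal.mul_lt_top ENNReal.ofReal_lt_top hK'.measure_lt_top

instance : (mu k).IsHaarMeasure := {}

instance : (mu k).IsInvInvariant := by
  obtain ⟨K, hK, hK1⟩ := exists_compact_mem_nhds (1 : G k)
  have hKm : MeasurableSet K := hK.measurableSet
  have hpos : mu k K ≠ 0 := (Measure.measure_pos_of_mem_nhds (mu k) hK1).ne'
  have hfin : mu k K ≠ ∞ := hK.measure_lt_top.ne
  refine ⟨?_⟩
  ext s hs
  rw [Measure.inv_apply]
  have hsi : MeasurableSet s⁻¹ := hs.inv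
  have hm : Measurable fun p : G k × G k =>
      K.indicator (1 : G k → ℝ≥0∞) p.2 * s.indicator (1 : G k → ℝ≥0∞) (p.2⁻¹ * p.1) :=
    ((measurable_one.indicator hKm).comp measurable_snd).mul
      ((measurable_one.indicator hs).comp (measurable_snd.inv.mul measurable_fst))
  have hm' : Measurable fun p : G k × G k =>
      K.indicator (1 : G k → ℝ≥0∞) (p.1 * p.2) * s.indicator (1 : G k → ℝ≥0∞) (p.2⁻¹) :=
    ((measurable_one.indicator hKm).comp (measurable_fst.mul measurable_snd)).mul
      ((measurable_one.indicator hs).comp measurable_snd.inv)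
  have h1 : ∫⁻ g, ∫⁻ h, K.indicator (1 : G k → ℝ≥0∞) h * s.indicator (1 : G k → ℝ≥0∞) (h⁻¹ * g)
      ∂mu k ∂mu k = mu k K * mu k s := by
    rw [lintegral_lintegral_swap hm.aemeasurable]
    have : ∀ h : G k, ∫⁻ g, K.indicator (1 : G k → ℝ≥0∞) h * s.indicator (1 : G k → ℝ≥0∞) (h⁻¹ * g)
        ∂mu k = K.indicator (1 : G k → ℝ≥0∞) h * mu k s := by
      intro h
      rw [lintegral_const_mul _ (f := fun g => s.indicator (1 : G k → ℝ≥0∞) (h⁻¹ * g))
          ((measurable_one.indicator hs).comp (measurable_const_mul _)),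
        lintegral_mul_left_eq_self (fun g => s.indicator (1 : G k → ℝ≥0∞) g),
        lintegral_indicator_one hs]
    simp_rw [this]
    rw [lintegral_mul_const _ (measurable_one.indicator hKm), lintegral_indicator_one hKm]
  have h2 : ∫⁻ g, ∫⁻ h, K.indicator (1 : G k → ℝ≥0∞) h * s.indicator (1 : G k → ℝ≥0∞) (h⁻¹ * g)
      ∂mu k ∂mu k = mu k K * mu k s⁻¹ := by
    have h3 : ∀ g : G k, ∫⁻ h, K.indicator (1 : G k → ℝ≥0∞) h * s.indicator (1 : G k → ℝ≥0∞) (h⁻¹ * g)
        ∂mu k = ∫⁻ h, K.indicator (1 : G k → ℝ≥0∞) (g * h) * s.indicator (1 : G k → ℝ≥0∞) (h⁻¹) ∂mu k := by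
      intro g
      rw [← lintegral_mul_left_eq_self _ g]
      simp
    simp_rw [h3]
    rw [lintegral_lintegral_swap hm'.aemeasurable]
    have : ∀ h : G k, ∫⁻ g, K.indicator (1 : G k → ℝ≥0∞) (g * h) * s.indicator (1 : G k → ℝ≥0∞) (h⁻¹)
        ∂mu k = mu k K * (s⁻¹).indicator (1 : G k → ℝ≥0∞) h := by
      intro h
      rw [lintegral_mul_const _ (f := fun g => K.indicator (1 : G k → ℝ≥0∞) (g * h))
          ((measurable_one.indicator hKm).comp (measurable_mul_const _)),
        lintegral_mul_right_eq_self (fun g => K.indicator (1 : G k → ℝ≥0∞) g),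
        lintegral_indicator_one hKm]
      rfl
    simp_rw [this]
    rw [lintegral_const_mul _ (measurable_one.indicator hsi), lintegral_indicator_one hsi]
  exact ((ENNReal.mul_right_inj hpos hfin).1 (h1.symm.trans h2)).symm

/-! ### Explicit elements -/

def mkG (A : Mat k) : G k :=
  if h : A.det ≠ 0 then Matrix.GeneralLinearGroup.mkOfDetNeZero A h else 1

lemma val_mkG {A : Mat k} (h : A.det ≠ 0) : (mkG A).val = A := by
  rw [mkG, dif_pos h]; rfl

lemma det_ne (g : G k) : g.val.det ≠ 0 := Matrix.GeneralLinearGroup.det_ne_zero g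

@[simp] lemma mkG_val (g : G k) : mkG g.val = g := Units.ext (val_mkG (det_ne g))

@[simp] lemma mkG_co (g : G k) : mkG (Matrix.of (co g)) = g := mkG_val g

@[simp] lemma mkG_one : mkG (1 : Mat k) = 1 := mkG_val 1

lemma mkG_mul {A B : Mat k} (hA : A.det ≠ 0) (hB : B.det ≠ 0) : mkG (A * B) = mkG A * mkG B := by
  apply Units.ext
  rw [Units.val_mul, val_mkG hA, val_mkG hB, val_mkG (by rw [Matrix.det_mul]; exact mul_ne_zero hA hB)]

lemma continuous_G {α : Type*} [TopologicalSpace α] {f : α → G k} :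
    Continuous f ↔ ∀ i j, Continuous fun a => (f a).val i j := by
  rw [isEmbedding_val.continuous_iff]
  exact ⟨fun h i j => (continuous_apply_apply i j).comp h, fun h => continuous_matrix h⟩

lemma continuous_entry (i j : Fin k) : Continuous fun g : G k => g.val i j :=
  continuous_G.1 continuous_id i j

lemma continuousOn_mkG :
    ContinuousOn (fun x : E k => mkG (Matrix.of x)) {x | (Matrix.of x).det ≠ 0} := by
  rw [isOpenEmbedding_co.isInducing.continuousOn_iff]
  refine continuousOn_id.congr fun x hx => ?_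
  exact val_mkG hx

lemma measurable_mkG : Measurable fun x : E k => mkG (Matrix.of x) := by
  rw [← measurableEmbedding_co.measurable_comp_iff]
  have : (co ∘ fun x : E k => mkG (Matrix.of x)) =
      fun x => if (Matrix.of x).det = 0 then co (1 : G k) else x := by
    ext1 x
    by_cases h : (Matrix.of x).det = 0
    · simp [mkG, h]
    · rw [if_neg h]; exact val_mkG h
  rw [this]
  exact Measurable.ite (measurableSet_eq_fun continuous_detE.measurable measurable_const)
    measurable_const measurable_id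

lemma measurable_mkG' {α : Type*} [MeasurableSpace α] {A : α → Mat k}
    (h : ∀ i j, Measurable fun a => A a i j) : Measurable fun a => mkG (A a) :=
  measurable_mkG.comp (measurable_pi_lambda _ fun i => measurable_pi_lambda _ fun j => h i j)

/-- absolute value of the determinant -/
def dt (g : G k) : ℝ := |g.val.det|

lemma dt_pos (g : G k) : 0 < dt g := abs_pos.2 (det_ne g)

lemma dt_mul (g h : G k) : dt (g * h) = dt g * dt h := by
  simp [dt, Matrix.det_mul, abs_mul]

@[simp] lemma dt_one : dt (1 : G k) = 1 := by simp [dt]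

lemma dt_inv (g : G k) : dt g⁻¹ = (dt g)⁻¹ := by
  have := dt_mul g⁻¹ g
  rw [inv_mul_cancel, dt_one] at this
  exact eq_inv_of_mul_eq_one_left this.symm

lemma continuous_dt : Continuous (dt (k := k)) := Units.continuous_val.matrix_det.abs

lemma measurable_dt : Measurable (dt (k := k)) := continuous_dt.measurable

/-- diagonal element -/
def dg (a : Fin k → ℝ) : G k := mkG (Matrix.diagonal a)

lemma val_dg {a : Fin k → ℝ} (ha : ∀ i, a i ≠ 0) : (dg a).val = Matrix.diagonal a :=
  val_mkG (by rw [Matrix.det_diagonal]; exact Finset.prod_ne_zero_iff.2 fun i _ => ha i)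

lemma dg_mul {a b : Fin k → ℝ} (ha : ∀ i, a i ≠ 0) (hb : ∀ i, b i ≠ 0) :
    dg a * dg b = dg fun i => a i * b i := by
  apply Units.ext
  rw [Units.val_mul, val_dg ha, val_dg hb, val_dg fun i => mul_ne_zero (ha i) (hb i),
    Matrix.diagonal_mul_diagonal]

@[simp] lemma dg_one : dg (fun _ : Fin k => (1 : ℝ)) = 1 := by
  apply Units.ext
  rw [val_dg fun _ => one_ne_zero]; simp

lemma dg_inv {a : Fin k → ℝ} (ha : ∀ i, a i ≠ 0) : (dg a)⁻¹ = dg fun i => (a i)⁻¹ := by
  rw [inv_eq_iff_mul_eq_one, dg_mul ha fun i => inv_ne_zero (ha i), ← dg_one]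
  congr 1; ext i; exact mul_inv_cancel₀ (ha i)

lemma dt_dg {a : Fin k → ℝ} (ha : ∀ i, a i ≠ 0) : dt (dg a) = |∏ i, a i| := by
  rw [dt, val_dg ha, Matrix.det_diagonal]

/-- scalar element -/
def sc (t : ℝ) : G k := dg fun _ => t

lemma val_sc {t : ℝ} (ht : t ≠ 0) : (sc t : G k).val = t • (1 : Mat k) := by
  rw [sc, val_dg fun _ => ht, Matrix.smul_one_eq_diagonal]

lemma val_sc_mul {t : ℝ} (ht : t ≠ 0) (g : G k) : (sc t * g).val = t • g.val := by
  rw [Units.val_mul, val_sc ht, Matrix.smul_mul, Matrix.one_mul]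

lemma sc_comm {t : ℝ} (ht : t ≠ 0) (g : G k) : sc t * g = g * sc t := by
  apply Units.ext
  rw [val_sc_mul ht, Units.val_mul, val_sc ht, Matrix.mul_smul, Matrix.mul_one]

lemma sc_inv {t : ℝ} (ht : t ≠ 0) : (sc t : G k)⁻¹ = sc t⁻¹ := dg_inv fun _ => ht

lemma sc_mul {s t : ℝ} (hs : s ≠ 0) (ht : t ≠ 0) : (sc s * sc t : G k) = sc (s * t) :=
  dg_mul (fun _ => hs) fun _ => ht

@[simp] lemma sc_one : (sc 1 : G k) = 1 := dg_one

lemma dt_sc {t : ℝ} (ht : t ≠ 0) : dt (sc t : G k) = |t| ^ k := by
  rw [sc, dt_dg fun _ => ht]; simp [abs_pow]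

lemma measurable_sc : Measurable (sc : ℝ → G k) :=
  measurable_mkG' fun i j => by
    by_cases h : i = j <;> simp [h, measurable_id']

/-- integral matrices -/
def iz : GZ k →* G k := Matrix.GeneralLinearGroup.map (Int.castRingHom ℝ)

lemma val_iz (γ : GZ k) : (iz γ).val = γ.val.map (Int.cast : ℤ → ℝ) := rfl

lemma abs_det_GZ (γ : GZ k) : |γ.val.det| = 1 :=
  Int.isUnit_iff_abs_eq.1 ((Matrix.isUnit_iff_isUnit_det _).1 γ.isUnit)

@[simp] lemma dt_iz (γ : GZ k) : dt (iz γ) = 1 := by
  have : (iz γ).val.det = ((γ.val.det : ℤ) : ℝ) := by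
    rw [val_iz]
    exact ((Int.castRingHom ℝ).map_det γ.val).symm
  rw [dt, this, ← Int.cast_abs, abs_det_GZ, Int.cast_one]

lemma iz_inj : Function.Injective (iz (k := k)) := fun a b h => by
  apply Units.ext
  ext i j
  have : ((a.val i j : ℤ) : ℝ) = (b.val i j : ℤ) := congrArg (fun g : G k => g.val i j) h
  exact_mod_cast this

instance : Countable (Matrix (Fin k) (Fin k) ℤ) :=
  inferInstanceAs (Countable (Fin k → Fin k → ℤ))

instance : Countable (GZ k) := Units.val_injective.countable

instance : Countable (Prim k) := by unfold Prim; infer_instance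

lemma pz_row (ξ : Prim k) : (pz ξ).val (Fin.last k) = ξ.1 := ξ.2.choose_spec

lemma zv_vecMul (z : Fin k → ℤ) (γ : GZ k) : zv z ᵥ* (iz γ).val = zv (z ᵥ* γ.val) := by
  ext j; simp [zv, val_iz, Matrix.vecMul, dotProduct]

lemma iz_mulVec (γ : GZ k) (z : Fin k → ℤ) : (iz γ).val *ᵥ zv z = zv (γ.val *ᵥ z) := by
  ext j; simp [zv, val_iz, Matrix.mulVec, dotProduct]

/-! ### Block matrices -/

section blk
variable {R : Type} [CommRing R]

/-- the block matrix with rows `(A, b)` and `(0, 1)` -/
def blk (A : Matrix (Fin k) (Fin k) R) (b : Fin k → R) : Matrix (Fin (k + 1)) (Fin (k + 1)) R :=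
  Matrix.of fun i j => Fin.lastCases (Fin.lastCases 1 (fun _ => 0) j)
    (fun i' => Fin.lastCases (b i') (fun j' => A i' j') j) i

@[simp] lemma blk_cc (A : Matrix (Fin k) (Fin k) R) (b : Fin k → R) (i j : Fin k) :
    blk A b i.castSucc j.castSucc = A i j := by simp [blk]
@[simp] lemma blk_cl (A : Matrix (Fin k) (Fin k) R) (b : Fin k → R) (i : Fin k) :
    blk A b i.castSucc (Fin.last k) = b i := by simp [blk]
@[simp] lemma blk_lc (A : Matrix (Fin k) (Fin k) R) (b : Fin k → R) (j : Fin k) :
    blk A b (Fin.last k) j.castSucc = 0 := by simp [blk]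
@[simp] lemma blk_ll (A : Matrix (Fin k) (Fin k) R) (b : Fin k → R) :
    blk A b (Fin.last k) (Fin.last k) = 1 := by simp [blk]

lemma blk_mul (A A' : Matrix (Fin k) (Fin k) R) (b b' : Fin k → R) :
    blk A b * blk A' b' = blk (A * A') (A *ᵥ b' + b) := by
  ext i j
  refine Fin.lastCases ?_ (fun i => ?_) i <;> refine Fin.lastCases ?_ (fun j => ?_) j <;>
    simp [Matrix.mul_apply, Fin.sum_univ_castSucc, Matrix.mulVec, dotProduct]

@[simp] lemma blk_one : blk (1 : Matrix (Fin k) (Fin k) R) 0 = 1 := by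
  ext i j
  refine Fin.lastCases ?_ (fun i => ?_) i <;> refine Fin.lastCases ?_ (fun j => ?_) j <;>
    simp [Matrix.one_apply, Fin.castSucc_ne_last, (Fin.castSucc_ne_last _).symm]

lemma blk_last (A : Matrix (Fin k) (Fin k) R) (b : Fin k → R) :
    blk A b (Fin.last k) = Pi.single (Fin.last k) 1 := by
  ext j
  refine Fin.lastCases ?_ (fun j => ?_) j <;> simp [Fin.castSucc_ne_last]

lemma det_blk (A : Matrix (Fin k) (Fin k) R) (b : Fin k → R) : (blk A b).det = A.det := by
  rw [Matrix.det_succ_row _ (Fin.last k), Fin.sum_univ_castSucc]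
  simp only [blk_lc, mul_zero, zero_mul, Finset.sum_const_zero, blk_ll, zero_add, mul_one,
    Fin.succAbove_last]
  have : (blk A b).submatrix Fin.castSucc Fin.castSucc = A := by ext i j; simp
  rw [this, ← two_mul, pow_mul]; simp

lemma eq_blk {A : Matrix (Fin (k + 1)) (Fin (k + 1)) R}
    (h : A (Fin.last k) = Pi.single (Fin.last k) 1) :
    A = blk (A.submatrix Fin.castSucc Fin.castSucc) fun i => A i.castSucc (Fin.last k) := by
  ext i j
  refine Fin.lastCases ?_ (fun i => ?_) i <;> refine Fin.lastCases ?_ (fun j => ?_) j <;>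
    simp [h, Fin.castSucc_ne_last]

/-- element of the mirabolic subgroup -/
def pb (h : GL (Fin k) R) (b : Fin k → R) : GL (Fin (k + 1)) R :=
  ⟨blk h.val b, blk (h⁻¹).val (-((h⁻¹).val *ᵥ b)),
    by rw [blk_mul, Matrix.mulVec_neg, Matrix.mulVec_mulVec, ← Units.val_mul, mul_inv_cancel]; simp,
    by rw [blk_mul, ← Units.val_mul, inv_mul_cancel]; simp⟩

@[simp] lemma val_pb (h : GL (Fin k) R) (b : Fin k → R) : (pb h b).val = blk h.val b := rfl

lemma pb_mul (h h' : GL (Fin k) R) (b b' : Fin k → R) :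
    pb h b * pb h' b' = pb (h * h') (h.val *ᵥ b' + b) := Units.ext (blk_mul _ _ _ _)

@[simp] lemma pb_one : pb (1 : GL (Fin k) R) 0 = 1 := Units.ext blk_one

lemma pb_inv (h : GL (Fin k) R) (b : Fin k → R) : (pb h b)⁻¹ = pb h⁻¹ (-((h⁻¹).val *ᵥ b)) :=
  Units.ext rfl

lemma pb_inj {h h' : GL (Fin k) R} {b b' : Fin k → R} (e : pb h b = pb h' b') : h = h' ∧ b = b' := by
  have e' : blk h.val b = blk h'.val b' := congrArg Units.val e
  refine ⟨Units.ext ?_, ?_⟩
  · ext i j; simpa using congrFun (congrFun e' i.castSucc) j.castSucc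
  · ext i; simpa using congrFun (congrFun e' i.castSucc) (Fin.last k)

lemma exists_pb {g : GL (Fin (k + 1)) R} (h : g.val (Fin.last k) = Pi.single (Fin.last k) 1) :
    ∃ h b, g = pb h b := by
  have e := eq_blk h
  have hu : IsUnit (g.val.submatrix Fin.castSucc Fin.castSucc) := by
    rw [Matrix.isUnit_iff_isUnit_det, ← det_blk _ fun i => g.val i.castSucc (Fin.last k), ← e,
      ← Matrix.isUnit_iff_isUnit_det]
    exact g.isUnit
  exact ⟨hu.unit, _, Units.ext e⟩

end blk

lemma iz_pb (h : GZ k) (z : Fin k → ℤ) : iz (pb h z) = pb (iz h) (zv z) := by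
  apply Units.ext
  ext i j
  refine Fin.lastCases ?_ (fun i => ?_) i <;> refine Fin.lastCases ?_ (fun j => ?_) j <;>
    simp [val_iz, zv]

@[simp] lemma dt_pb (h : G k) (b : Fin k → ℝ) : dt (pb h b) = dt h := by simp [dt, det_blk]

lemma continuous_pb {α : Type*} [TopologicalSpace α] {h : α → G k} {b : α → Fin k → ℝ}
    (hh : Continuous h) (hb : Continuous b) : Continuous fun a => pb (h a) (b a) := by
  refine continuous_G.2 fun i j => ?_
  refine Fin.lastCases ?_ (fun i => ?_) i <;> refine Fin.lastCases ?_ (fun j => ?_) j <;>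
    simp only [val_pb, blk_ll, blk_lc, blk_cl, blk_cc]
  exacts [continuous_const, continuous_const, (continuous_apply i).comp hb, continuous_G.1 hh i j]

/-- upper left embedding -/
def up (h : G k) : G (k + 1) := pb h 0

/-- unipotent radical of the mirabolic subgroup -/
def nb (b : Fin k → ℝ) : G (k + 1) := pb 1 b

lemma up_mul (h h' : G k) : up (h * h') = up h * up h' := by simp [up, pb_mul]
@[simp] lemma up_one : up (1 : G k) = 1 := pb_one
lemma up_inv (h : G k) : up h⁻¹ = (up h)⁻¹ := by simp [up, pb_inv]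
lemma nb_add (b b' : Fin k → ℝ) : nb (b + b') = nb b * nb b' := by simp [nb, pb_mul, add_comm]
@[simp] lemma nb_zero : nb (0 : Fin k → ℝ) = 1 := pb_one
lemma nb_mul_up (b : Fin k → ℝ) (h : G k) : nb b * up h = pb h b := by simp [nb, up, pb_mul]
lemma up_mul_nb (h : G k) (b : Fin k → ℝ) : up h * nb b = nb (h.val *ᵥ b) * up h := by
  simp [nb, up, pb_mul]
@[simp] lemma dt_up (h : G k) : dt (up h) = dt h := dt_pb _ _
@[simp] lemma dt_nb (b : Fin k → ℝ) : dt (nb b) = 1 := by simp [nb]
lemma continuous_up : Continuous (up (k := k)) := continuous_pb continuous_id continuous_const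
lemma continuous_nb : Continuous (nb (k := k)) := continuous_pb continuous_const continuous_id
lemma iz_pb_one (z : Fin k → ℤ) : iz (pb 1 z) = nb (zv z) := by rw [iz_pb, map_one, nb]
lemma iz_pb_zero (h : GZ k) : iz (pb h 0) = up (iz h) := by
  rw [iz_pb, up]; congr 1; ext i; simp [zv]

lemma up_dg {a : Fin k → ℝ} (ha : ∀ i, a i ≠ 0) : up (dg a) = dg (Fin.snoc a 1) := by
  apply Units.ext
  rw [val_dg (fun i => by refine Fin.lastCases ?_ (fun i => ?_) i <;> simp [ha])]
  ext i j
  refine Fin.lastCases ?_ (fun i => ?_) i <;> refine Fin.lastCases ?_ (fun j => ?_) j <;>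
    simp [up, val_dg ha, Matrix.diagonal_apply, Fin.castSucc_ne_last, (Fin.castSucc_ne_last _).symm]

/-- last row -/
def lr (g : G (k + 1)) : Fin (k + 1) → ℝ := g.val (Fin.last k)

lemma lr_mul (a g : G (k + 1)) : lr (a * g) = lr a ᵥ* g.val := by
  ext j; simp [lr, Matrix.mul_apply, Matrix.vecMul, dotProduct]

lemma lr_pb (h : G k) (b : Fin k → ℝ) : lr (pb h b) = Pi.single (Fin.last k) 1 := blk_last _ _

@[simp] lemma lr_pb_mul (h : G k) (b : Fin k → ℝ) (g : G (k + 1)) : lr (pb h b * g) = lr g := by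
  rw [lr_mul, lr_pb, Matrix.single_one_vecMul]; rfl

@[simp] lemma lr_up_mul (h : G k) (g : G (k + 1)) : lr (up h * g) = lr g := lr_pb_mul _ _ _
@[simp] lemma lr_nb_mul (b : Fin k → ℝ) (g : G (k + 1)) : lr (nb b * g) = lr g := lr_pb_mul _ _ _

lemma lr_pz_mul (ξ : Prim k) (g : G (k + 1)) : lr (iz (pz ξ) * g) = zv ξ.1 ᵥ* g.val := by
  rw [lr_mul, ← pz_row]; rfl

lemma continuous_lr : Continuous (lr (k := k)) := continuous_pi fun j => continuous_entry _ j

/-- the identity matrix with the last row replaced -/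
def sr (r : Fin (k + 1) → ℝ) : G (k + 1) := mkG (Matrix.updateRow 1 (Fin.last k) r)

lemma det_updateRow_last (r : Fin (k + 1) → ℝ) :
    (Matrix.updateRow (1 : Mat (k + 1)) (Fin.last k) r).det = r (Fin.last k) := by
  have := Matrix.det_updateRow_sum (1 : Mat (k + 1)) (Fin.last k) r
  simp only [Matrix.det_one, smul_eq_mul, mul_one] at this
  rw [← this]; congr 2
  ext j; simp [Matrix.one_apply, Finset.sum_apply]

lemma val_sr {r : Fin (k + 1) → ℝ} (h : r (Fin.last k) ≠ 0) :
    (sr r).val = Matrix.updateRow 1 (Fin.last k) r := val_mkG (by rwa [det_updateRow_last])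

lemma lr_sr {r : Fin (k + 1) → ℝ} (h : r (Fin.last k) ≠ 0) : lr (sr r) = r := by
  rw [lr, val_sr h, Matrix.updateRow_self]

lemma dt_sr {r : Fin (k + 1) → ℝ} (h : r (Fin.last k) ≠ 0) : dt (sr r) = |r (Fin.last k)| := by
  rw [dt, val_sr h, det_updateRow_last]

lemma sr_single : sr (Pi.single (Fin.last k) 1) = 1 := by
  rw [sr, ← mkG_one]; congr 1
  ext i j
  by_cases h : i = Fin.last k
  · subst h; simp [Matrix.one_apply, Pi.single_apply, eq_comm]
  · simp [Matrix.updateRow_ne h]

lemma measurable_sr : Measurable (sr (k := k)) :=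
  measurable_mkG' fun i j => by
    by_cases h : i = Fin.last k
    · subst h; simp only [Matrix.updateRow_self]; exact measurable_pi_apply j
    · simp only [Matrix.updateRow_ne h]; exact measurable_const

lemma continuousOn_sr : ContinuousOn (sr (k := k)) {r | r (Fin.last k) ≠ 0} := by
  rw [isOpenEmbedding_co.isInducing.continuousOn_iff]
  have : Continuous fun r : Fin (k + 1) → ℝ =>
      (fun i j => Matrix.updateRow (1 : Mat (k + 1)) (Fin.last k) r i j : E (k + 1)) := by
    refine continuous_pi fun i => continuous_pi fun j => ?_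
    by_cases h : i = Fin.last k
    · subst h; simp only [Matrix.updateRow_self]; exact continuous_apply j
    · simp only [Matrix.updateRow_ne h]; exact continuous_const
  exact this.continuousOn.congr fun r hr => val_sr hr

/-- upper unitriangular -/
def IsU (u : G k) : Prop := ∀ i j, j ≤ i → u.val i j = if i = j then 1 else 0

lemma isU_one : IsU (1 : G k) := fun i j _ => by simp [Matrix.one_apply]

lemma isU_pb {h : G k} {b : Fin k → ℝ} : IsU (pb h b) ↔ IsU h := by
  constructor
  · intro H i j hij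
    simpa using H i.castSucc j.castSucc (Fin.castSucc_le_castSucc_iff.2 hij)
  · intro H i j
    refine Fin.lastCases ?_ (fun i => ?_) i <;> refine Fin.lastCases ?_ (fun j => ?_) j
    · simp
    · simp [(Fin.castSucc_ne_last _).symm]
    · intro h; exact absurd h (not_le.2 (Fin.castSucc_lt_last i))
    · intro h; simpa using H i j (Fin.castSucc_le_castSucc_iff.1 h)

lemma IsU.exists_pb {u : G (k + 1)} (h : IsU u) : ∃ u' b, IsU u' ∧ u = pb u' b := by
  obtain ⟨u', b, rfl⟩ := D.exists_pb (g := u) (by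
    ext j; rw [h _ _ (Fin.le_last j)]; simp [Pi.single_apply, eq_comm])
  exact ⟨u', b, isU_pb.1 h, rfl⟩

lemma IsU.mul_inv {u v : G k} (hu : IsU u) (hv : IsU v) : IsU (u * v) ∧ IsU u⁻¹ ∧ u.val.det = 1 := by
  induction k with
  | zero => exact ⟨fun i => i.elim0, fun i => i.elim0, by simp⟩
  | succ k ih =>
    obtain ⟨u', b, hu', rfl⟩ := hu.exists_pb
    obtain ⟨v', c, hv', rfl⟩ := hv.exists_pb
    obtain ⟨h1, h2, h3⟩ := ih hu' hv'
    rw [pb_mul, pb_inv, isU_pb, isU_pb, val_pb, det_blk]
    exact ⟨h1, h2, h3⟩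

lemma IsU.mul {u v : G k} (hu : IsU u) (hv : IsU v) : IsU (u * v) := (hu.mul_inv hv).1
lemma IsU.inv {u : G k} (hu : IsU u) : IsU u⁻¹ := (hu.mul_inv hu).2.1
lemma IsU.det {u : G k} (hu : IsU u) : u.val.det = 1 := (hu.mul_inv hu).2.2
lemma IsU.dt {u : G k} (hu : IsU u) : dt u = 1 := by rw [D.dt, hu.det, abs_one]
lemma isU_nb (b : Fin k → ℝ) : IsU (nb b) := isU_pb.2 isU_one
lemma IsU.up {u : G k} (hu : IsU u) : IsU (up u) := isU_pb.2 hu
lemma IsU.lr_mul {u : G (k + 1)} (hu : IsU u) (g : G (k + 1)) : lr (u * g) = lr g := by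
  obtain ⟨u', b, -, rfl⟩ := hu.exists_pb
  exact lr_pb_mul _ _ _

/-! ### Coordinates -/

/-- rows of a lower triangular matrix -/
def X : ℕ → Type
  | 0 => Unit
  | k + 1 => X k × (Fin (k + 1) → ℝ)

/-- columns of an upper unitriangular matrix -/
def Y : ℕ → Type
  | 0 => Unit
  | k + 1 => Y k × (Fin k → ℝ)

instance msX : ∀ k, MeasurableSpace (X k)
  | 0 => inferInstanceAs (MeasurableSpace Unit)
  | k + 1 => @Prod.instMeasurableSpace _ _ (msX k) _

instance msY : ∀ k, MeasurableSpace (Y k)
  | 0 => inferInstanceAs (MeasurableSpace Unit)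
  | k + 1 => @Prod.instMeasurableSpace _ _ (msY k) _

def sg : ∀ k, X k → G k
  | 0, _ => 1
  | k + 1, x => up (sg k x.1) * sr x.2

def un : ∀ k, Y k → G k
  | 0, _ => 1
  | k + 1, y => nb y.2 * up (un k y.1)

lemma measurable_sg : ∀ k, Measurable (sg k)
  | 0 => measurable_const
  | k + 1 => (continuous_up.measurable.comp ((measurable_sg k).comp measurable_fst)).mul
      (measurable_sr.comp measurable_snd)

lemma measurable_un : ∀ k, Measurable (un k)
  | 0 => measurable_const
  | k + 1 => (continuous_nb.measurable.comp measurable_snd).mul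
      (continuous_up.measurable.comp ((measurable_un k).comp measurable_fst))

lemma isU_un : ∀ k (y : Y k), IsU (un k y)
  | 0, _ => isU_one
  | k + 1, y => (isU_nb y.2).mul (isU_un k y.1).up

lemma IsU.exists_un : ∀ {k} {u : G k}, IsU u → ∃ y, un k y = u
  | 0, _, _ => ⟨(), Subsingleton.elim _ _⟩
  | k + 1, u, hu => by
    obtain ⟨u', b, hu', rfl⟩ := hu.exists_pb
    obtain ⟨y, rfl⟩ := hu'.exists_un
    exact ⟨(y, b), nb_mul_up _ _⟩

/-- the measure `dr / |r_last|` -/
def mR (k : ℕ) : Measure (Fin (k + 1) → ℝ) :=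
  volume.withDensity fun r => ENNReal.ofReal |r (Fin.last k)|⁻¹

instance : SFinite (mR k) := by unfold mR; infer_instance

/-- the invariant measure on `U \ GL(k)` in coordinates -/
def mX : ∀ k, Measure (X k)
  | 0 => Measure.dirac ()
  | k + 1 => ((mX k).withDensity fun x => ENNReal.ofReal (dt (sg k x))⁻¹).prod (mR k)

/-- Haar measure on the upper unitriangular group in coordinates -/
def mY : ∀ k, Measure (Y k)
  | 0 => Measure.dirac ()
  | k + 1 => (mY k).prod volume

/-- its restriction to the unit cube -/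
def cY : ∀ k, Measure (Y k)
  | 0 => Measure.dirac ()
  | k + 1 => (cY k).prod (cub k)

instance sfX : ∀ k, SigmaFinite (mX k)
  | 0 => inferInstanceAs (SigmaFinite (Measure.dirac ()))
  | k + 1 => by
    have := sfX k
    have : SigmaFinite (mR k) := by unfold mR; infer_instance
    exact inferInstanceAs (SigmaFinite
      (((mX k).withDensity fun x => ENNReal.ofReal (dt (sg k x))⁻¹).prod (mR k)))

instance sfY : ∀ k, SigmaFinite (mY k)
  | 0 => inferInstanceAs (SigmaFinite (Measure.dirac ()))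
  | k + 1 => by
    have := sfY k
    exact inferInstanceAs (SigmaFinite ((mY k).prod volume))

instance : IsProbabilityMeasure (cub k) :=
  ⟨by simp [cub, volume_pi, Measure.pi_pi]⟩

instance pcY : ∀ k, IsProbabilityMeasure (cY k)
  | 0 => inferInstanceAs (IsProbabilityMeasure (Measure.dirac ()))
  | k + 1 => by
    have := pcY k
    exact inferInstanceAs (IsProbabilityMeasure ((cY k).prod (cub k)))

/-- integral over `U \ GL(k)` -/
def II (k : ℕ) (H : G k → ℝ≥0∞) : ℝ≥0∞ := ∫⁻ x, H (sg k x) ∂mX k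

lemma II_zero (H : G 0 → ℝ≥0∞) : II 0 H = H 1 := by
  change ∫⁻ _ : Unit, H 1 ∂Measure.dirac () = H 1
  simp

lemma II_succ {H : G (k + 1) → ℝ≥0∞} (hH : Measurable H) :
    II (k + 1) H = ∫⁻ r, II k (fun h => ENNReal.ofReal (dt h)⁻¹ * H (up h * sr r)) ∂mR k := by
  have hm : Measurable fun p : X k × (Fin (k + 1) → ℝ) => H (up (sg k p.1) * sr p.2) :=
    hH.comp (measurable_sg (k + 1))
  have hd : Measurable fun x : X k => ENNReal.ofReal (dt (sg k x))⁻¹ :=
    (measurable_dt.comp (measurable_sg k)).inv.ennreal_ofReal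
  change ∫⁻ p : X k × (Fin (k + 1) → ℝ), H (up (sg k p.1) * sr p.2)
    ∂((mX k).withDensity fun x => ENNReal.ofReal (dt (sg k x))⁻¹).prod (mR k) = _
  rw [lintegral_prod_symm _ hm.aemeasurable]
  refine lintegral_congr fun r => ?_
  exact lintegral_withDensity_eq_lintegral_mul _ hd (hm.comp measurable_prodMk_right)

/-! ### Characters -/

lemma ee_add (x y : ℝ) : ee (x + y) = ee x * ee y := by
  simp [ee, mul_add, Complex.exp_add]

@[simp] lemma ee_zero : ee 0 = 1 := by simp [ee]

@[simp] lemma norm_ee (x : ℝ) : ‖ee x‖ = 1 := by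
  have : (2 * (Real.pi : ℂ) * Complex.I * x) = ((2 * Real.pi * x : ℝ) : ℂ) * Complex.I := by
    push_cast; ring
  rw [ee, this, Complex.norm_exp_ofReal_mul_I]

lemma ee_int (z : ℤ) : ee z = 1 := by
  have := Complex.exp_int_mul_two_pi_mul_I z
  rw [ee, ← this]; congr 1; push_cast; ring

lemma continuous_ee : Continuous ee := by unfold ee; fun_prop

lemma conj_ee (x : ℝ) : (starRingEnd ℂ) (ee x) = ee (-x) := by
  simp [ee, ← Complex.exp_conj, map_ofNat]

end Pool.Agent.Lib.MP_fa98d2_nt.D
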