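import Pool.Agent.Lib.MP_fa98d2_nt.D.Calc

/-!
Decay of cusp forms in the cusp, with Sobolev norms.
-/

open MeasureTheory Filter Topology Matrix
open scoped ENNReal Real ContDiff ComplexConjugate

noncomputable section

namespace Pool.Agent.Lib.MP_fa98d2_nt.D

namespace CD

variable {k N : ℕ}

/-! ### Iwasawa decomposition -/

lemma iwa (g : G k) : ∃ (u o : G k) (a : Fin k → ℝ), IsU u ∧ g = u * o ∧ (∀ i, 0 < a i) ∧
    o.val * o.valᵀ = diagonal fun i => a i ^ 2 := by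
  let f : (Fin k)ᵒᵈ → EuclideanSpace ℝ (Fin k) := fun i => WithLp.toLp 2 (g.val (OrderDual.ofDual i))
  let b : (Fin k)ᵒᵈ → EuclideanSpace ℝ (Fin k) := InnerProductSpace.gramSchmidt ℝ f
  let c : Fin k → Fin k → ℝ := fun i j =>
    inner ℝ (b (OrderDual.toDual j)) (f (OrderDual.toDual i)) / ‖b (OrderDual.toDual j)‖ ^ 2
  let O : Mat k := Matrix.of fun i j => b (OrderDual.toDual i) j
  let U : Mat k := Matrix.of fun i j => if i = j then 1 else if i < j then c i j else 0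
  have hU : U.det = 1 := by
    rw [Matrix.det_of_isUpperTriangular]
    · simp [U]
    · intro i j hij
      have h1 : j < i := hij
      simp [U, h1.ne', h1.le.not_gt]
  have hg : g.val = U * O := by
    ext i j
    have h1 := InnerProductSpace.gramSchmidt_def'' ℝ f (OrderDual.toDual i)
    have h2 : g.val i j = b (OrderDual.toDual i) j +
        ∑ l ∈ Finset.Iio (OrderDual.toDual i), c i (OrderDual.ofDual l) * b l j := by
      have h3 := congrArg (fun v : EuclideanSpace ℝ (Fin k) => v j) h1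
      simpa [f, b, c] using h3
    have h4 : ∑ l ∈ Finset.Iio (OrderDual.toDual i), c i (OrderDual.ofDual l) * b l j =
        ∑ l : Fin k, if i < l then c i l * b (OrderDual.toDual l) j else 0 := by
      rw [← Finset.sum_filter]
      refine Finset.sum_bij (fun l _ => OrderDual.ofDual l) ?_ ?_ ?_ ?_
      · intro l hl
        have h6 : l < OrderDual.toDual i := Finset.mem_Iio.1 hl
        exact Finset.mem_filter.2 ⟨Finset.mem_univ _, h6⟩
      · intro l _ l' _ h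
        exact h
      · intro l hl
        exact ⟨OrderDual.toDual l, Finset.mem_Iio.2 (by simpa using hl), rfl⟩
      · intro l _
        rfl
    rw [h2, h4, Matrix.mul_apply]
    have h5 : ∀ l : Fin k, U i l * O l j = (if i = l then b (OrderDual.toDual l) j else 0) +
        if i < l then c i l * b (OrderDual.toDual l) j else 0 := by
      intro l
      by_cases e : i = l
      · subst e; simp [U, O]
      · by_cases e' : i < l <;> simp [U, O, e, e']
    simp [h5, Finset.sum_add_distrib]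
  have hO : O.det ≠ 0 := by
    have := det_ne g
    rw [hg, Matrix.det_mul, hU, one_mul] at this
    exact this
  have hU0 : U.det ≠ 0 := by rw [hU]; exact one_ne_zero
  refine ⟨mkG U, mkG O, fun i => ‖b (OrderDual.toDual i)‖, ?_, ?_, ?_, ?_⟩
  · intro i j hij
    rw [val_mkG hU0]
    by_cases e : i = j
    · simp [U, e]
    · simp [U, e, hij.not_gt]
  · apply Units.ext
    rw [Units.val_mul, val_mkG hU0, val_mkG hO, hg]
  · intro i
    refine norm_pos_iff.2 fun h => hO ?_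
    exact Matrix.det_eq_zero_of_row_eq_zero i fun j => by simp [O, h]
  · rw [val_mkG hO]
    ext i j
    have h1 : (O * Oᵀ) i j = inner ℝ (b (OrderDual.toDual i)) (b (OrderDual.toDual j)) := by
      simp [O, Matrix.mul_apply, PiLp.inner_apply, mul_comm]
    rw [h1]
    by_cases e : i = j
    · subst e
      simp
    · rw [Matrix.diagonal_apply_ne _ e]
      exact InnerProductSpace.gramSchmidt_orthogonal ℝ f (by simpa using e)

section orth
variable {o : G k} {a : Fin k → ℝ}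

lemma row_dot (h : o.val * o.valᵀ = diagonal fun i => a i ^ 2) (i j : Fin k) :
    ∑ l, o.val i l * o.val j l = if i = j then a i ^ 2 else 0 := by
  have := congrFun (congrFun h i) j
  simpa [Matrix.mul_apply, Matrix.diagonal_apply] using this

lemma entry_le (ha : ∀ i, 0 < a i) (h : o.val * o.valᵀ = diagonal fun i => a i ^ 2) (i l : Fin k) :
    |o.val i l| ≤ a i := by
  have h1 := row_dot h i i
  rw [if_pos rfl] at h1
  have h2 : o.val i l * o.val i l ≤ ∑ l, o.val i l * o.val i l :=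
    Finset.single_le_sum (f := fun l => o.val i l * o.val i l) (fun l _ => mul_self_nonneg _)
      (Finset.mem_univ l)
  refine abs_le_of_sq_le_sq' ?_ (ha i).le |> fun h => abs_le.2 h
  nlinarith

lemma inv_entry (ha : ∀ i, 0 < a i) (h : o.val * o.valᵀ = diagonal fun i => a i ^ 2)
    (l i : Fin k) : (o⁻¹).val l i = o.val i l / a i ^ 2 := by
  have h1 : o.val * (o.valᵀ * diagonal fun i => (a i ^ 2)⁻¹) = 1 := by
    rw [← Matrix.mul_assoc, h, Matrix.diagonal_mul_diagonal, ← Matrix.diagonal_one]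
    congr 1
    ext i
    exact mul_inv_cancel₀ (pow_pos (ha i) 2).ne'
  have h2 : (o⁻¹).val = o.valᵀ * diagonal fun i => (a i ^ 2)⁻¹ := by
    rw [Matrix.coe_units_inv]
    exact Matrix.inv_eq_right_inv h1
  rw [h2, Matrix.mul_diagonal, Matrix.transpose_apply, div_eq_mul_inv]

lemma conj_entry (ha : ∀ i, 0 < a i) (h : o.val * o.valᵀ = diagonal fun i => a i ^ 2)
    (i j p q : Fin k) : |((o⁻¹).val * em i j * o.val) p q| ≤ a j / a i := by
  have h1 : ((o⁻¹).val * em i j * o.val) p q = (o⁻¹).val p i * o.val j q := by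
    simp [em, Matrix.mul_apply, Matrix.single_apply, ite_and, Finset.sum_ite_eq]
  have hi := ha i
  rw [h1, inv_entry ha h, abs_mul, abs_div, abs_of_pos (pow_pos hi 2)]
  calc |o.val i p| / a i ^ 2 * |o.val j q| ≤ a i / a i ^ 2 * a j := by
        have := entry_le ha h i p
        have := entry_le ha h j q
        gcongr
    _ = a j / a i := by field_simp

lemma dt_orth (ha : ∀ i, 0 < a i) (h : o.val * o.valᵀ = diagonal fun i => a i ^ 2) :
    dt o = ∏ i, a i := by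
  have h1 := congrArg Matrix.det h
  rw [Matrix.det_mul, Matrix.det_transpose, Matrix.det_diagonal, Finset.prod_pow] at h1
  have h2 : 0 ≤ ∏ i, a i := Finset.prod_nonneg fun i _ => (ha i).le
  rw [dt, ← abs_of_nonneg h2]
  exact sq_eq_sq_iff_abs_eq_abs _ _ |>.1 (by rw [← h1, sq])

/-- the first nonzero entry of an integer vector survives a unitriangular matrix -/
lemma first_entry {u : G k} (hu : IsU u) {ξ : Fin k → ℤ} (hξ : ξ ≠ 0) :
    ∃ i, 1 ≤ |(zv ξ ᵥ* u.val) i| := by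
  have hne : (Finset.univ.filter fun i => ξ i ≠ 0).Nonempty := by
    by_contra h
    rw [Finset.not_nonempty_iff_eq_empty, Finset.filter_eq_empty_iff] at h
    exact hξ (funext fun i => not_not.1 (h (Finset.mem_univ i)))
  obtain ⟨i, hi, hmin⟩ := Finset.exists_min_image _ id hne
  have hi0 : ξ i ≠ 0 := (Finset.mem_filter.1 hi).2
  refine ⟨i, ?_⟩
  have h1 : (zv ξ ᵥ* u.val) i = ξ i := by
    rw [Matrix.vecMul, dotProduct, Finset.sum_eq_single i]
    · simp [zv, hu i i le_rfl]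
    · intro l _ hl
      rcases lt_or_gt_of_ne hl with h | h
      · have : ξ l = 0 := by
          by_contra h'
          exact absurd (hmin l (Finset.mem_filter.2 ⟨Finset.mem_univ l, h'⟩)) (not_le.2 h)
        simp [zv, this]
      · simp [hu l i h.le, hl]
    · simp
  rw [h1, ← Int.cast_abs]
  exact_mod_cast Int.one_le_abs hi0

lemma vec_lower (ha : ∀ i, 0 < a i) (h : o.val * o.valᵀ = diagonal fun i => a i ^ 2)
    {η : Fin k → ℝ} {i : Fin k} (hi : 1 ≤ |η i|) : a i ≤ k * ‖η ᵥ* o.val‖ := by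
  have h1 : ∑ l, (η ᵥ* o.val) l * o.val i l = η i * a i ^ 2 := by
    simp only [Matrix.vecMul, dotProduct, Finset.sum_mul]
    rw [Finset.sum_comm]
    simp only [mul_assoc, ← Finset.mul_sum, row_dot h]
    simp
  have h2 : |∑ l, (η ᵥ* o.val) l * o.val i l| ≤ k * (‖η ᵥ* o.val‖ * a i) := by
    refine (Finset.abs_sum_le_sum_abs _ _).trans ?_
    refine (Finset.sum_le_card_nsmul _ _ (‖η ᵥ* o.val‖ * a i) fun l _ => ?_).trans (by simp)
    rw [abs_mul]
    exact mul_le_mul (norm_le_pi_norm (η ᵥ* o.val) l) (entry_le ha h i l) (abs_nonneg _)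
      (norm_nonneg _)
  have hp := ha i
  rw [h1, abs_mul, abs_of_pos (pow_pos hp 2)] at h2
  have h3 : a i * a i ≤ (k * ‖η ᵥ* o.val‖) * a i := by nlinarith
  exact le_of_mul_le_mul_right h3 hp

lemma row_upper (ha : ∀ i, 0 < a i) (h : o.val * o.valᵀ = diagonal fun i => a i ^ 2) (i : Fin k) :
    a i ≤ k * ‖o.val i‖ := by
  have := vec_lower ha h (η := Pi.single i 1) (i := i) (by simp)
  rwa [Matrix.single_one_vecMul] at this

end orth

/-! ### Derivatives of equivariant functions -/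

lemma norm_psi (m : Fin k → ℝ) (u : G (k + 1)) : ‖psi m u‖ = 1 := norm_ee _

lemma eqv_rd {m : Fin k → ℝ} {W : G (k + 1) → ℂ} (hW : Eqv m W) (A : Mat (k + 1)) :
    Eqv m (Rd A W) := by
  intro u hu g
  have : (fun t : ℝ => W (u * g * mkG (1 + t • A))) =
      fun t : ℝ => psi m u * W (g * mkG (1 + t • A)) := by
    ext t
    rw [mul_assoc, hW u hu]
  rw [Rd, this, deriv_const_mul_field]
  rfl

lemma eqv_norm {m : Fin k → ℝ} {W : G (k + 1) → ℂ} (hW : Eqv m W) {u : G (k + 1)} (hu : IsU u)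
    (g : G (k + 1)) : ‖W (u * g)‖ = ‖W g‖ := by
  rw [hW u hu, norm_mul, norm_psi, one_mul]

lemma Rw_append (l : List (Fin k × Fin k)) (x : Fin k × Fin k) (F : G k → ℂ) :
    Rw (l ++ [x]) F = Rw l (Rd (em x.1 x.2) F) := by
  simp [Rw, List.foldr_append]

lemma der_one (hC : CalcStmt) (hW : WhStmt) {m : Fin N → ℝ} {o : G (N + 1)} {a : Fin (N + 1) → ℝ}
    (ha : ∀ i, 0 < a i) (h : o.val * o.valᵀ = diagonal fun i => a i ^ 2) (i : Fin N)
    (hm : 0 ≤ m i) {W : G (N + 1) → ℂ} (hs : Sm W) (he : Eqv m W) :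
    ∃ x : Fin (N + 1) × Fin (N + 1), m i * (a i.castSucc / a i.succ) * ‖W o‖ ≤
      ((N + 1 : ℝ) ^ 2) * ‖Rd (em x.1 x.2) W o‖ := by
  obtain ⟨x, -, hx⟩ := Finset.exists_max_image (Finset.univ : Finset (Fin (N + 1) × Fin (N + 1)))
    (fun x => ‖Rd (em x.1 x.2) W o‖) Finset.univ_nonempty
  refine ⟨x, ?_⟩
  have h1 := hW.ldU N m W he i.castSucc i.succ Fin.castSucc_lt_succ o
  have h2 : (∑ l : Fin N, if i.castSucc = l.castSucc ∧ i.succ = l.succ then
      2 * π * Complex.I * m l else 0) = 2 * π * Complex.I * m i := by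
    rw [Finset.sum_eq_single i]
    · simp
    · intro l _ hl
      simp [hl.symm]
    · simp
  rw [h2, hC.ld_rd, hC.rd_lin _ _ _ hs] at h1
  have h3 : ‖2 * π * Complex.I * m i * W o‖ = 2 * π * m i * ‖W o‖ := by
    simp [abs_of_pos Real.pi_pos, abs_of_nonneg hm]
  have h4 : ‖(∑ p, ∑ q, ((((o⁻¹).val * em i.castSucc i.succ * o.val) p q : ℝ) : ℂ) •
      Rd (em p q) W) o‖ ≤ ((N + 1 : ℝ) ^ 2) * (a i.succ / a i.castSucc * ‖Rd (em x.1 x.2) W o‖) := by
    simp only [Finset.sum_apply, Pi.smul_apply, smul_eq_mul]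
    rw [← Finset.sum_product']
    refine (norm_sum_le _ _).trans ?_
    refine (Finset.sum_le_card_nsmul _ _ (a i.succ / a i.castSucc * ‖Rd (em x.1 x.2) W o‖)
      fun y _ => ?_).trans (by simp [sq])
    rw [norm_mul, Complex.norm_real, Real.norm_eq_abs]
    exact mul_le_mul (conj_entry ha h _ _ _ _) (hx y (Finset.mem_univ y)) (norm_nonneg _)
      (div_pos (ha _) (ha _)).le
  rw [h1, h3] at h4
  have p1 := ha i.castSucc
  have p2 := ha i.succ
  have h5 : m i * ‖W o‖ ≤ 2 * π * m i * ‖W o‖ := by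
    have := Real.pi_gt_three
    have : 0 ≤ m i * ‖W o‖ := by positivity
    nlinarith
  calc m i * (a i.castSucc / a i.succ) * ‖W o‖ = (a i.castSucc / a i.succ) * (m i * ‖W o‖) := by
        ring
    _ ≤ (a i.castSucc / a i.succ) *
        (((N + 1 : ℝ) ^ 2) * (a i.succ / a i.castSucc * ‖Rd (em x.1 x.2) W o‖)) := by
        exact mul_le_mul_of_nonneg_left (h5.trans h4) (div_pos p1 p2).le
    _ = _ := by field_simp

lemma der_pow (hC : CalcStmt) (hW : WhStmt) {m : Fin N → ℝ} {o : G (N + 1)} {a : Fin (N + 1) → ℝ}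
    (ha : ∀ i, 0 < a i) (h : o.val * o.valᵀ = diagonal fun i => a i ^ 2) (i : Fin N)
    (hm : 0 ≤ m i) : ∀ (j : ℕ) (W : G (N + 1) → ℂ), Sm W → Eqv m W →
    ∃ l : List (Fin (N + 1) × Fin (N + 1)), l.length = j ∧
      (m i * (a i.castSucc / a i.succ)) ^ j * ‖W o‖ ≤ ((N + 1 : ℝ) ^ 2) ^ j * ‖Rw l W o‖ := by
  intro j
  induction j with
  | zero => exact fun W _ _ => ⟨[], rfl, by simp [Rw]⟩
  | succ j ih =>
    intro W hs he
    obtain ⟨x, hx⟩ := der_one hC hW ha h i hm hs he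
    obtain ⟨l, hl, hl'⟩ := ih (Rd (em x.1 x.2) W) (hC.rd _ _ _ hs) (eqv_rd he _)
    refine ⟨l ++ [x], by simp [hl], ?_⟩
    have p1 := ha i.castSucc
    have p2 := ha i.succ
    rw [Rw_append]
    calc (m i * (a i.castSucc / a i.succ)) ^ (j + 1) * ‖W o‖
        = (m i * (a i.castSucc / a i.succ)) ^ j * (m i * (a i.castSucc / a i.succ) * ‖W o‖) := by
          ring
      _ ≤ (m i * (a i.castSucc / a i.succ)) ^ j * (((N + 1 : ℝ) ^ 2) * ‖Rd (em x.1 x.2) W o‖) := by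
          gcongr
      _ = ((N + 1 : ℝ) ^ 2) * ((m i * (a i.castSucc / a i.succ)) ^ j * ‖Rd (em x.1 x.2) W o‖) := by
          ring
      _ ≤ ((N + 1 : ℝ) ^ 2) * (((N + 1 : ℝ) ^ 2) ^ j * ‖Rw l (Rd (em x.1 x.2) W) o‖) := by
          gcongr
      _ = _ := by ring

/-- the largest of the numbers `m i * y i` and `1` can be gained from derivatives -/
lemma der_max (hC : CalcStmt) (hW : WhStmt) {m : Fin N → ℝ} {o : G (N + 1)} {a : Fin (N + 1) → ℝ}
    (ha : ∀ i, 0 < a i) (h : o.val * o.valᵀ = diagonal fun i => a i ^ 2)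
    (hm : ∀ i, 0 ≤ m i) (j : ℕ) {W : G (N + 1) → ℂ} (hs : Sm W) (he : Eqv m W) :
    ∃ (D : ℝ) (l : List (Fin (N + 1) × Fin (N + 1))), 1 ≤ D ∧
      (∀ i, m i * (a i.castSucc / a i.succ) ≤ D) ∧ l.length ≤ j ∧
      D ^ j * ‖W o‖ ≤ ((N + 1 : ℝ) ^ 2) ^ j * ‖Rw l W o‖ := by
  by_cases h1 : ∀ i, m i * (a i.castSucc / a i.succ) ≤ 1
  · refine ⟨1, [], le_rfl, h1, by simp, ?_⟩
    have : (1 : ℝ) ≤ ((N + 1 : ℝ) ^ 2) ^ j :=
      one_le_pow₀ (one_le_pow₀ (by linarith [Nat.cast_nonneg (α := ℝ) N]))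
    rw [one_pow]
    exact mul_le_mul_of_nonneg_right this (norm_nonneg _)
  · push Not at h1
    obtain ⟨i0, hi0⟩ := h1
    obtain ⟨i, -, hi⟩ := Finset.exists_max_image (Finset.univ : Finset (Fin N))
      (fun i => m i * (a i.castSucc / a i.succ)) ⟨i0, Finset.mem_univ _⟩
    obtain ⟨l, hl, hl'⟩ := der_pow hC hW ha h i (hm i) j W hs he
    exact ⟨_, l, hi0.le.trans (hi i0 (Finset.mem_univ _)), fun i' => hi i' (Finset.mem_univ _),
      hl.le, hl'⟩

/-! ### The elementary inequality -/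

lemma chain {a : Fin (N + 1) → ℝ} (ha : ∀ i, 0 < a i) {D : ℝ} (hD : 1 ≤ D)
    (h : ∀ i : Fin N, a i.castSucc ≤ D * a i.succ) (i : Fin (N + 1)) :
    a i ≤ D ^ N * a (Fin.last N) := by
  have key : ∀ i : Fin (N + 1), a i ≤ D ^ (N - i.val) * a (Fin.last N) := by
    intro i
    induction i using Fin.reverseInduction with
    | last => simp
    | cast i ih =>
      have e : N - i.castSucc.val = (N - i.succ.val) + 1 := by
        simp only [Fin.val_castSucc, Fin.val_succ]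
        omega
      rw [e, pow_succ]
      calc a i.castSucc ≤ D * a i.succ := h i
        _ ≤ D * (D ^ (N - i.succ.val) * a (Fin.last N)) := by gcongr
        _ = _ := by ring
  refine (key i).trans ?_
  have := ha (Fin.last N)
  gcongr
  omega

lemma elem {a : Fin (N + 1) → ℝ} (ha : ∀ i, 0 < a i) {m : Fin N → ℝ} (hm : ∀ i, 1 ≤ m i)
    {D c : ℝ} (hD : 1 ≤ D) (h : ∀ i, m i * (a i.castSucc / a i.succ) ≤ D)
    (hc : a (Fin.last N) ≤ c) {i0 : Fin (N + 1)} (h0 : ∀ i, a i0 ≤ a i) :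
    (∏ i, a i) ^ (4 * N + 2) * (∏ i, m i) ^ 2 ≤
      a i0 ^ (2 * (N + 1)) * (D ^ (N + 1) * c) ^ (N * (4 * N + 4)) := by
  have h1 : ∀ i : Fin N, m i * a i.castSucc ≤ D * a i.succ := by
    intro i
    have := h i
    rwa [← mul_div_assoc, div_le_iff₀ (ha _)] at this
  have h2 : ∀ i : Fin N, a i.castSucc ≤ D * a i.succ := fun i =>
    (le_mul_of_one_le_left (ha _).le (hm i)).trans (h1 i)
  have h3 : ∀ i, a i ≤ D ^ N * c := fun i => (chain ha hD h2 i).trans (by gcongr)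
  have hc0 : 0 < c := (ha _).trans_le hc
  have hD0 : 0 < D := by linarith
  set B := D ^ (N + 1) * c with hB
  have h4 : ∀ i, a i ≤ B := fun i => (h3 i).trans (by
    rw [hB]
    gcongr
    omega)
  have h5 : ∀ i, m i * a i0 ≤ B := fun i =>
    calc m i * a i0 ≤ m i * a i.castSucc := by
          have := hm i
          gcongr
          exact h0 _
      _ ≤ D * a i.succ := h1 i
      _ ≤ D * (D ^ N * c) := by gcongr; exact h3 _
      _ = B := by rw [hB]; ring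
  have h6 : ∏ i, a i ≤ a i0 * B ^ N := by
    rw [Fin.prod_univ_succAbove _ i0]
    have := ha i0
    gcongr
    exact (Finset.prod_le_prod (g := fun _ => B) (fun i _ => (ha _).le) fun i _ => h4 _).trans
      (by simp)
  have h7 : (∏ i, m i) * a i0 ^ N ≤ B ^ N := by
    have : (∏ i, m i) * a i0 ^ N = ∏ i, m i * a i0 := by
      rw [Finset.prod_mul_distrib]; simp
    rw [this]
    exact (Finset.prod_le_prod (g := fun _ => B)
      (fun i _ => mul_nonneg (by linarith [hm i]) (ha _).le) fun i _ => h5 _).trans (by simp)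
  have p0 := ha i0
  have p1 : 0 ≤ ∏ i, a i := Finset.prod_nonneg fun i _ => (ha i).le
  have p2 : 0 ≤ ∏ i, m i := Finset.prod_nonneg fun i _ => by linarith [hm i]
  have pB : 0 < B := by positivity
  calc (∏ i, a i) ^ (4 * N + 2) * (∏ i, m i) ^ 2
      ≤ (a i0 * B ^ N) ^ (4 * N + 2) * (∏ i, m i) ^ 2 := by gcongr
    _ = a i0 ^ (2 * (N + 1)) * (B ^ N) ^ (4 * N + 2) * ((∏ i, m i) * a i0 ^ N) ^ 2 := by ring
    _ ≤ a i0 ^ (2 * (N + 1)) * (B ^ N) ^ (4 * N + 2) * (B ^ N) ^ 2 := by gcongr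
    _ = _ := by ring

/-! ### Shortest vectors and the weight -/

abbrev NZ (k : ℕ) : Type := {ξ : Fin k → ℤ // ξ ≠ 0}

/-- length of the shortest vector -/
def lam (g : G k) : ℝ≥0∞ := ⨅ ξ : NZ k, ‖zv ξ.1 ᵥ* g.val‖ₑ

/-- its infimum over the orbit of the unitriangular group -/
def lamU (g : G k) : ℝ≥0∞ := ⨅ u : {u : G k // IsU u}, lam (u.1 * g)

open Classical in
def sh (r : Fin k → ℝ) : ℝ≥0∞ := if 1 ≤ ‖r‖ ∧ ‖r‖ ≤ 2 then 1 else 0

def om (g : G (N + 1)) : ℝ≥0∞ := sh (lr g) * lamU g ^ (2 * (N + 1))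

lemma cont_vec (η : Fin k → ℝ) : Continuous fun g : G k => η ᵥ* g.val :=
  continuous_const.matrix_vecMul Units.continuous_val

lemma measurable_lam : Measurable (lam (k := k)) :=
  (upperSemicontinuous_iInf fun ξ : NZ k =>
    (cont_vec (zv ξ.1)).enorm.upperSemicontinuous).measurable

lemma measurable_lamU : Measurable (lamU (k := k)) :=
  (upperSemicontinuous_iInf fun u : {u : G k // IsU u} => upperSemicontinuous_iInf fun ξ : NZ k =>
    ((cont_vec (zv ξ.1)).comp (continuous_const_mul u.1)).enorm.upperSemicontinuous).measurable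

lemma measurable_sh : Measurable (sh (k := k)) :=
  Measurable.ite ((measurableSet_le measurable_const measurable_norm).inter
    (measurableSet_le measurable_norm measurable_const)) measurable_const measurable_const

lemma measurable_om : Measurable (om (N := N)) :=
  (measurable_sh.comp continuous_lr.measurable).mul (measurable_lamU.pow_const _)

lemma lamU_le (g : G k) : lamU g ≤ lam g := by
  have := iInf_le (fun u : {u : G k // IsU u} => lam (u.1 * g)) ⟨1, isU_one⟩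
  rwa [one_mul] at this

lemma lamU_mul {u : G k} (hu : IsU u) (g : G k) : lamU (u * g) = lamU g := by
  have key : ∀ {u : G k}, IsU u → ∀ g, lamU g ≤ lamU (u * g) := fun {u} hu g =>
    le_iInf fun v => by
      have := iInf_le (fun u : {u : G k // IsU u} => lam (u.1 * g)) ⟨v.1 * u, v.2.mul hu⟩
      rwa [mul_assoc] at this
  refine le_antisymm ?_ (key hu g)
  have := key hu.inv (u * g)
  rwa [inv_mul_cancel_left] at this

lemma uinv_om : UInv (om (N := N)) := fun u hu g => by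
  rw [om, om, hu.lr_mul, lamU_mul hu]

/-- action of an integral matrix on nonzero vectors -/
def act (γ : GZ k) : NZ k ≃ NZ k where
  toFun ξ := ⟨ξ.1 ᵥ* γ.val, fun h => ξ.2 (by
    have : ξ.1 ᵥ* γ.val ᵥ* (γ⁻¹).val = ξ.1 := by
      rw [Matrix.vecMul_vecMul, ← Units.val_mul, mul_inv_cancel, Units.val_one, Matrix.vecMul_one]
    rw [← this, h, Matrix.zero_vecMul])⟩
  invFun ξ := ⟨ξ.1 ᵥ* (γ⁻¹).val, fun h => ξ.2 (by
    have : ξ.1 ᵥ* (γ⁻¹).val ᵥ* γ.val = ξ.1 := by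
      rw [Matrix.vecMul_vecMul, ← Units.val_mul, inv_mul_cancel, Units.val_one, Matrix.vecMul_one]
    rw [← this, h, Matrix.zero_vecMul])⟩
  left_inv ξ := Subtype.ext (by
    dsimp only
    rw [Matrix.vecMul_vecMul, ← Units.val_mul, mul_inv_cancel, Units.val_one, Matrix.vecMul_one])
  right_inv ξ := Subtype.ext (by
    dsimp only
    rw [Matrix.vecMul_vecMul, ← Units.val_mul, inv_mul_cancel, Units.val_one, Matrix.vecMul_one])

lemma act_vec (γ : GZ k) (ξ : NZ k) (g : G k) :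
    zv ξ.1 ᵥ* (iz γ * g).val = zv (act γ ξ).1 ᵥ* g.val := by
  rw [Units.val_mul, ← Matrix.vecMul_vecMul, zv_vecMul]
  rfl

lemma lam_iz (γ : GZ k) (g : G k) : lam (iz γ * g) = lam g := by
  simp only [lam, act_vec]
  exact (act γ).iInf_comp (g := fun ξ : NZ k => ‖zv ξ.1 ᵥ* g.val‖ₑ)

lemma Th_iz (Φ : (Fin k → ℝ) → ℝ≥0∞) (γ : GZ k) (g : G k) : Th Φ (iz γ * g).val = Th Φ g.val := by
  simp only [Th, act_vec]
  exact (act γ).tsum_eq fun ξ : NZ k => Φ (zv ξ.1 ᵥ* g.val)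

lemma measurable_Th {Φ : (Fin k → ℝ) → ℝ≥0∞} (h : Measurable Φ) :
    Measurable fun g : G k => Th Φ g.val :=
  Measurable.tsum fun ξ : NZ k => h.comp (cont_vec (zv ξ.1)).measurable

lemma lam_sc {t : ℝ} (ht : 0 < t) (g : G k) : lam (sc t * g) = ENNReal.ofReal t * lam g := by
  rw [lam, lam, ENNReal.mul_iInf_of_ne (ENNReal.ofReal_pos.2 ht).ne' ENNReal.ofReal_ne_top]
  refine iInf_congr fun ξ => ?_
  rw [val_sc_mul ht.ne', Matrix.vecMul_smul, enorm_smul, Real.enorm_eq_ofReal ht.le]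

lemma lamU_ge {u o : G (N + 1)} {a : Fin (N + 1) → ℝ} (hu : IsU u) (ha : ∀ i, 0 < a i)
    (h : o.val * o.valᵀ = diagonal fun i => a i ^ 2) {i0 : Fin (N + 1)} (h0 : ∀ i, a i0 ≤ a i) :
    ENNReal.ofReal (a i0 / (N + 1)) ≤ lamU (u * o) := by
  rw [lamU_mul hu]
  refine le_iInf fun v => le_iInf fun ξ => ?_
  obtain ⟨i, hi⟩ := first_entry v.2 ξ.2
  have h1 := vec_lower ha h hi
  rw [Matrix.vecMul_vecMul, ← Units.val_mul] at h1
  rw [← ofReal_norm]
  refine ENNReal.ofReal_le_ofReal ?_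
  rw [div_le_iff₀ (by positivity)]
  have := h0 i
  simp only [Nat.cast_add, Nat.cast_one] at h1
  linarith

lemma lam_pos (g : G (N + 1)) : lam g ≠ 0 := by
  obtain ⟨u, o, a, hu, rfl, ha, h⟩ := iwa g
  obtain ⟨i0, -, h0⟩ := Finset.exists_min_image Finset.univ a Finset.univ_nonempty
  have h1 := (lamU_ge hu ha h fun i => h0 i (Finset.mem_univ i)).trans (lamU_le _)
  refine (lt_of_lt_of_le (ENNReal.ofReal_pos.2 ?_) h1).ne'
  have := ha i0
  positivity

lemma lam_ne_top (g : G (N + 1)) : lam g ≠ ⊤ :=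
  ne_top_of_le_ne_top enorm_ne_top (iInf_le (fun ξ : NZ (N + 1) => ‖zv ξ.1 ᵥ* g.val‖ₑ)
    ⟨fun _ => 1, fun h => one_ne_zero (congrFun h 0)⟩)

/-! ### The pointwise bound -/

lemma Rw_Wf (hC : CalcStmt) (hW : WhStmt) (m : Fin N → ℤ) {w : G (N + 1) → ℂ} (hs : Sm w) :
    ∀ l : List (Fin (N + 1) × Fin (N + 1)), Sm (Rw l w) ∧ Rw l (Wf m w) = Wf m (Rw l w)
  | [] => ⟨hs, rfl⟩
  | x :: l => by
    obtain ⟨h1, h2⟩ := Rw_Wf hC hW m hs l
    refine ⟨hC.rd _ _ _ h1, ?_⟩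
    change Rd (em x.1 x.2) (Rw l (Wf m w)) = Wf m (Rd (em x.1 x.2) (Rw l w))
    rw [h2, (hW.sm N m _ h1).2]

lemma eqv_Rw {m : Fin N → ℝ} {W : G (N + 1) → ℂ} (hW : Eqv m W) :
    ∀ l : List (Fin (N + 1) × Fin (N + 1)), Eqv m (Rw l W)
  | [] => hW
  | _ :: l => eqv_rd (eqv_Rw hW l) _

def ord (N : ℕ) : ℕ := (N + 1) * N * (2 * N + 2)

def cst (N : ℕ) : ℝ := (N + 1 : ℝ) ^ (2 * (N + 1)) * (2 * (N + 1) : ℝ) ^ (N * (4 * N + 4)) *
  (((N + 1 : ℝ) ^ 2) ^ ord N) ^ 2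

def wm (m : Fin N → ℕ+) : ℝ≥0∞ := ∏ i, ENNReal.ofReal ((((m i : ℕ) : ℝ) ^ 2)⁻¹)

lemma point (hC : CalcStmt) (hW : WhStmt) (m : Fin N → ℕ+) {w : G (N + 1) → ℂ} (hs : Sm w)
    (hz : ZInv w) (g : G (N + 1)) :
    ENNReal.ofReal (dt g ^ ((4 * N + 2 : ℕ) : ℝ)) * cone (Fin.last N) (lr g) *
      ‖Wf (zm m) w g‖ₑ ^ 2 ≤ ENNReal.ofReal (cst N) * wm m *
      ∑' l : List (Fin (N + 1) × Fin (N + 1)),
        if l.length ≤ ord N then om g * ‖Wf (zm m) (Rw l w) g‖ₑ ^ 2 else 0 := by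
  by_cases hc : 1 ≤ |lr g (Fin.last N)| ∧ |lr g (Fin.last N)| ≤ 2 ∧
    ∀ j, |lr g j| ≤ |lr g (Fin.last N)|
  swap
  · simp [cone, hc]
  have n2 : ‖lr g‖ ≤ 2 := (pi_norm_le_iff_of_nonneg (by norm_num)).2 fun j =>
    (hc.2.2 j).trans hc.2.1
  have n1 : 1 ≤ ‖lr g‖ := hc.1.trans (norm_le_pi_norm (lr g) (Fin.last N))
  have hsh : sh (lr g) = 1 := if_pos ⟨n1, n2⟩
  have hco : cone (Fin.last N) (lr g) = 1 := if_pos hc
  obtain ⟨u, o, a, hu, rfl, ha, h⟩ := iwa g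
  obtain ⟨i0, -, h0⟩ := Finset.exists_min_image Finset.univ a Finset.univ_nonempty
  have h0' : ∀ i, a i0 ≤ a i := fun i => h0 i (Finset.mem_univ i)
  have he : Eqv (zv (zm m)) (Wf (zm m) w) :=
    hW.eqv N _ w (hC.cont _ _ hs) fun γ _ g => hz γ g
  have hm1 : ∀ i, 1 ≤ zv (zm m) i := fun i => by
    simp only [zv, zm, Int.cast_natCast]
    exact_mod_cast (m i).pos
  obtain ⟨D, l, hD, hD', hl, hl'⟩ := der_max hC hW ha h (fun i => zero_le_one.trans (hm1 i))
    (ord N) (hW.sm N _ _ hs).1 he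
  have hc2 : a (Fin.last N) ≤ 2 * (N + 1) := by
    have h1 := row_upper ha h (Fin.last N)
    rw [hu.lr_mul] at n2
    change ‖o.val (Fin.last N)‖ ≤ 2 at n2
    push_cast at h1
    nlinarith [Nat.cast_nonneg (α := ℝ) N]
  have h1 := elem ha hm1 hD hD' hc2 h0'
  refine le_trans ?_ (mul_le_mul_right (ENNReal.le_tsum l) _)
  rw [if_pos hl, ← (Rw_Wf hC hW (zm m) hs l).2, om, hsh, hco, one_mul, mul_one,
    ← ofReal_norm, ← ofReal_norm, eqv_norm he hu, eqv_norm (eqv_Rw he l) hu,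
    dt_mul, hu.dt, one_mul, dt_orth ha h, Real.rpow_natCast]
  refine le_trans ?_ (mul_le_mul_right (mul_le_mul_left
    (pow_le_pow_left₀ zero_le (lamU_ge hu ha h h0') _) _) _)
  have p0 := ha i0
  have p1 : 0 ≤ ∏ i, a i := Finset.prod_nonneg fun i _ => (ha i).le
  have p2 : 0 < ∏ i, zv (zm m) i := Finset.prod_pos fun i _ => zero_lt_one.trans_le (hm1 i)
  have e1 : wm m = ENNReal.ofReal (((∏ i, zv (zm m) i) ^ 2)⁻¹) := by
    rw [wm, ← ENNReal.ofReal_prod_of_nonneg fun i _ => by positivity]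
    congr 1
    simp [zv, zm, Finset.prod_pow]
  have c0 : 0 ≤ cst N := by unfold cst; positivity
  rw [e1, ← ENNReal.ofReal_pow (norm_nonneg _), ← ENNReal.ofReal_pow (norm_nonneg _),
    ← ENNReal.ofReal_pow (by positivity), ← ENNReal.ofReal_mul (by positivity),
    ← ENNReal.ofReal_mul c0, ← ENNReal.ofReal_mul (by positivity),
    ← ENNReal.ofReal_mul (by positivity)]
  refine ENNReal.ofReal_le_ofReal ?_
  set x := ‖Wf (zm m) w o‖
  set y := ‖Rw l (Wf (zm m) w) o‖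
  set Q := ∏ i, zv (zm m) i
  have hx : 0 ≤ x := norm_nonneg _
  have e2 : cst N * (Q ^ 2)⁻¹ * ((a i0 / (N + 1)) ^ (2 * (N + 1)) * y ^ 2) =
      (a i0 ^ (2 * (N + 1)) * (2 * (N + 1) : ℝ) ^ (N * (4 * N + 4)) *
        (((N + 1 : ℝ) ^ 2) ^ ord N * y) ^ 2) / Q ^ 2 := by
    rw [cst, div_pow]
    field_simp
  rw [e2, le_div_iff₀ (by positivity)]
  calc (∏ i, a i) ^ (4 * N + 2) * x ^ 2 * Q ^ 2 = (∏ i, a i) ^ (4 * N + 2) * Q ^ 2 * x ^ 2 := by
        ring
    _ ≤ a i0 ^ (2 * (N + 1)) * (D ^ (N + 1) * (2 * (N + 1))) ^ (N * (4 * N + 4)) * x ^ 2 := by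
        gcongr
    _ = a i0 ^ (2 * (N + 1)) * (2 * (N + 1) : ℝ) ^ (N * (4 * N + 4)) * (D ^ ord N * x) ^ 2 := by
        rw [mul_pow (D ^ (N + 1)), ← pow_mul,
          show (N + 1) * (N * (4 * N + 4)) = ord N * 2 by unfold ord; ring]
        ring
    _ ≤ _ := by gcongr

/-! ### The saturated weight -/

lemma measurable_sat {φ : G (N + 1) → ℝ≥0∞} (h : Measurable φ) : Measurable (sat φ) :=
  Measurable.iSup fun _ => Measurable.iSup fun _ => h.comp (measurable_const_mul _)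

lemma pinv_sat (φ : G (N + 1) → ℝ≥0∞) : PInv (sat φ) := by
  have key : ∀ (h : GZ N) (z : Fin N → ℤ) (g : G (N + 1)), sat φ (iz (pb h z) * g) ≤ sat φ g :=
    fun h z g => iSup_le fun h' => iSup_le fun z' => by
      rw [← mul_assoc, ← map_mul, pb_mul]
      exact le_iSup₂_of_le (f := fun (h : GZ N) (z : Fin N → ℤ) => φ (iz (pb h z) * g)) _ _ le_rfl
  intro h z g
  refine le_antisymm (key h z g) ?_
  have := key h⁻¹ (-((h⁻¹).val *ᵥ z)) (iz (pb h z) * g)
  rwa [← pb_inv, map_inv, inv_mul_cancel_left] at this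

lemma sat_om_le (g : G (N + 1)) : sat om g ≤ sh (lr g) * lam g ^ (2 * (N + 1)) :=
  iSup_le fun h => iSup_le fun z => by
    rw [om, ← lam_iz (pb h z) g]
    have : lr (iz (pb h z) * g) = lr g := by rw [iz_pb, lr_pb_mul]
    rw [this]
    gcongr
    exact lamU_le _

lemma prim_ne (ξ : Prim N) : ξ.1 ≠ 0 := fun h => by
  have h1 := abs_det_GZ (pz ξ)
  rw [Matrix.det_eq_zero_of_row_eq_zero (Fin.last N) fun j => by rw [pz_row, h]; rfl] at h1
  simp at h1

/-- majorant of the sum of the saturated weights -/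
def maj (g : G (N + 1)) : ℝ≥0∞ := lam g ^ (2 * (N + 1)) * Th sh g.val

lemma measurable_maj : Measurable (maj (N := N)) :=
  (measurable_lam.pow_const _).mul (measurable_Th measurable_sh)

lemma zinv_maj : ZInv (maj (N := N)) := fun γ g => by rw [maj, maj, lam_iz, Th_iz]

lemma sum_sat (g : G (N + 1)) : ∑' ξ : Prim N, sat om (iz (pz ξ) * g) ≤ maj g := by
  calc ∑' ξ : Prim N, sat om (iz (pz ξ) * g)
      ≤ ∑' ξ : Prim N, lam g ^ (2 * (N + 1)) * sh (zv ξ.1 ᵥ* g.val) :=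
        ENNReal.tsum_le_tsum fun ξ => by
          have := sat_om_le (iz (pz ξ) * g)
          rwa [lr_pz_mul, lam_iz, mul_comm] at this
    _ ≤ maj g := by
        rw [ENNReal.tsum_mul_left, maj]
        gcongr
        exact ENNReal.tsum_comp_le_tsum_of_injective
          (f := fun ξ : Prim N => (⟨ξ.1, prim_ne ξ⟩ : NZ (N + 1)))
          (fun ξ ξ' e => Subtype.ext (congrArg (fun x : NZ (N + 1) => x.1) e))
          fun ξ => sh (zv ξ.1 ᵥ* g.val)

lemma int_sh {r : Fin k → ℝ} (hr : 0 < ‖r‖) :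
    ∫⁻ t in Set.Ioi (0 : ℝ), ENNReal.ofReal t⁻¹ * sh (t • r) ≤ 1 := by
  calc ∫⁻ t in Set.Ioi (0 : ℝ), ENNReal.ofReal t⁻¹ * sh (t • r)
      ≤ ∫⁻ t in Set.Ioi (0 : ℝ),
          (Set.Icc ‖r‖⁻¹ (2 * ‖r‖⁻¹)).indicator (fun _ => ENNReal.ofReal ‖r‖) t := by
        refine setLIntegral_mono' measurableSet_Ioi fun t ht => ?_
        have ht' : 0 < t := ht
        by_cases h : 1 ≤ ‖t • r‖ ∧ ‖t • r‖ ≤ 2
        · rw [sh, if_pos h, mul_one]
          rw [norm_smul, Real.norm_eq_abs, abs_of_pos ht'] at h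
          have h1 : ‖r‖⁻¹ ≤ t := by rw [inv_le_iff_one_le_mul₀ hr]; exact h.1
          have h2 : t ≤ 2 * ‖r‖⁻¹ := by rw [le_mul_inv_iff₀ hr]; exact h.2
          rw [Set.indicator_of_mem (show t ∈ Set.Icc ‖r‖⁻¹ (2 * ‖r‖⁻¹) from ⟨h1, h2⟩)]
          exact ENNReal.ofReal_le_ofReal ((inv_le_comm₀ ht' hr).2 h1)
        · rw [sh, if_neg h, mul_zero]
          exact zero_le
    _ ≤ ∫⁻ t, (Set.Icc ‖r‖⁻¹ (2 * ‖r‖⁻¹)).indicator (fun _ => ENNReal.ofReal ‖r‖) t :=
        setLIntegral_le_lintegral _ _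
    _ = 1 := by
        rw [lintegral_indicator_const measurableSet_Icc, Real.volume_Icc,
          ← ENNReal.ofReal_mul hr.le, ← ENNReal.ofReal_one]
        congr 1
        field_simp
        norm_num

lemma int_maj (hL : LatStmt) (N : ℕ) : ∃ C : ℝ≥0∞, C ≠ ⊤ ∧ ∀ g : G (N + 1),
    ∫⁻ t in Set.Ioi (0 : ℝ), ENNReal.ofReal t⁻¹ * maj (sc t * g) ≤ C := by
  obtain ⟨C, hC, h⟩ := hL.sum N
  refine ⟨4 ^ (2 * (N + 1)) * C, ENNReal.mul_ne_top (ENNReal.pow_ne_top (by simp)) hC, fun g => ?_⟩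
  set l := (lam g).toReal with hl
  have l0 : 0 < l := ENNReal.toReal_pos (lam_pos g) (lam_ne_top g)
  have le : lam g = ENNReal.ofReal l := (ENNReal.ofReal_toReal (lam_ne_top g)).symm
  have l1 : ∀ ξ : NZ (N + 1), l ≤ ‖zv ξ.1 ᵥ* g.val‖ := fun ξ => by
    have h1 : lam g ≤ ‖zv ξ.1 ᵥ* g.val‖ₑ := iInf_le (fun ξ : NZ (N + 1) => ‖zv ξ.1 ᵥ* g.val‖ₑ) ξ
    rw [le, ← ofReal_norm] at h1
    exact (ENNReal.ofReal_le_ofReal_iff (norm_nonneg _)).1 h1
  have nv : ∀ ξ : Fin (N + 1) → ℤ, ‖zv ξ ᵥ* (l⁻¹ • g.val)‖ = l⁻¹ * ‖zv ξ ᵥ* g.val‖ := fun ξ => by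
    rw [Matrix.vecMul_smul, norm_smul, Real.norm_eq_abs, abs_of_pos (inv_pos.2 l0)]
  have h1 := h (l⁻¹ • g.val) 1 one_pos le_rfl fun ξ hξ => by
    rw [nv, le_inv_mul_iff₀ l0, mul_one]
    exact l1 ⟨ξ, hξ⟩
  let φ : NZ (N + 1) → ℝ≥0∞ := fun ξ =>
    ENNReal.ofReal ((1 / (1 + ‖zv ξ.1 ᵥ* (l⁻¹ • g.val)‖)) ^ (2 * (N + 1)))
  have h2 : ∀ t : ℝ, 0 < t → ENNReal.ofReal t⁻¹ * maj (sc t * g) ≤ ∑' ξ : NZ (N + 1),
      (4 ^ (2 * (N + 1)) * φ ξ) * (ENNReal.ofReal t⁻¹ * sh (t • (zv ξ.1 ᵥ* g.val))) := by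
    intro t ht
    rw [maj, Th, ← ENNReal.tsum_mul_left, ← ENNReal.tsum_mul_left]
    refine ENNReal.tsum_le_tsum fun ξ => ?_
    rw [val_sc_mul ht.ne', Matrix.vecMul_smul, lam_sc ht, mul_left_comm]
    by_cases hs : 1 ≤ ‖t • (zv ξ.1 ᵥ* g.val)‖ ∧ ‖t • (zv ξ.1 ᵥ* g.val)‖ ≤ 2
    swap
    · simp [sh, hs]
    refine mul_le_mul_left ?_ _
    have e4 : (4 : ℝ≥0∞) = ENNReal.ofReal 4 := by simp
    have q1 := l1 ξ
    rw [le, ← ENNReal.ofReal_mul ht.le, ← ENNReal.ofReal_pow (by positivity), e4,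
      ← ENNReal.ofReal_pow (by norm_num), ← ENNReal.ofReal_mul (by positivity), ← mul_pow, nv]
    refine ENNReal.ofReal_le_ofReal (pow_le_pow_left₀ (by positivity) ?_ _)
    have q2 := hs.2
    rw [norm_smul, Real.norm_eq_abs, abs_of_pos ht] at q2
    rw [mul_one_div, le_div_iff₀ (by positivity)]
    have q3 : t * l * (1 + l⁻¹ * ‖zv ξ.1 ᵥ* g.val‖) = t * l + t * ‖zv ξ.1 ᵥ* g.val‖ := by
      field_simp
    rw [q3]
    nlinarith
  have hm : ∀ r : Fin (N + 1) → ℝ, Measurable fun t : ℝ => ENNReal.ofReal t⁻¹ * sh (t • r) :=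
    fun r => measurable_inv.ennreal_ofReal.mul (measurable_sh.comp (measurable_id.smul_const r))
  calc ∫⁻ t in Set.Ioi (0 : ℝ), ENNReal.ofReal t⁻¹ * maj (sc t * g)
      ≤ ∫⁻ t in Set.Ioi (0 : ℝ), ∑' ξ : NZ (N + 1),
        (4 ^ (2 * (N + 1)) * φ ξ) * (ENNReal.ofReal t⁻¹ * sh (t • (zv ξ.1 ᵥ* g.val))) :=
        setLIntegral_mono' measurableSet_Ioi h2
    _ = ∑' ξ : NZ (N + 1), (4 ^ (2 * (N + 1)) * φ ξ) *
        ∫⁻ t in Set.Ioi (0 : ℝ), ENNReal.ofReal t⁻¹ * sh (t • (zv ξ.1 ᵥ* g.val)) := by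
        rw [lintegral_tsum fun ξ => ((hm _).const_mul _).aemeasurable]
        exact tsum_congr fun ξ => lintegral_const_mul _ (hm _)
    _ ≤ ∑' ξ : NZ (N + 1), 4 ^ (2 * (N + 1)) * φ ξ :=
        ENNReal.tsum_le_tsum fun ξ => mul_le_of_le_one_right' (int_sh (l0.trans_le (l1 ξ)))
    _ ≤ _ := by
        rw [ENNReal.tsum_mul_left]
        exact mul_le_mul_right h1 _

/-- the weighted norm of one Whittaker coefficient -/
lemma wh_bound (hL : LatStmt) (hQ : QuotStmt) (hPar : ParStmt) (N : ℕ) : ∃ C : ℝ≥0∞, C ≠ ⊤ ∧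
    ∀ (m : Fin N → ℕ+) (F : G (N + 1) → ℂ), Aut F →
      II (N + 1) (fun g => om g * ‖Wf (zm m) F g‖ₑ ^ 2) ≤ C * N2 F := by
  obtain ⟨C, hC, h⟩ := int_maj hL N
  refine ⟨ENNReal.ofReal ((N + 1) / Real.log 2) * C, ENNReal.mul_ne_top ENNReal.ofReal_ne_top hC,
    fun m F hF => ?_⟩
  have mF : Measurable fun g => ‖F g‖ₑ ^ 2 := hF.cont.measurable.enorm.pow_const 2
  have h1 := hPar.bes N (zm m) (fun i => by simp [zm]) F hF.cont (fun h z g => hF.zinv _ g) om
    measurable_om uinv_om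
  rw [← hQ.unf N (fun g => sat om g * ‖F g‖ₑ ^ 2) ((measurable_sat measurable_om).mul mF)
    (fun h z g => by dsimp only; rw [pinv_sat, hF.zinv])] at h1
  have h2 : QI (N + 1) (fun g => ∑' ξ : Prim N, sat om (iz (pz ξ) * g) *
      ‖F (iz (pz ξ) * g)‖ₑ ^ 2) ≤ QI (N + 1) fun g => maj g * ‖F g‖ₑ ^ 2 :=
    lintegral_mono fun g => mul_le_mul_right (by
      simp only [hF.zinv _ g]
      rw [ENNReal.tsum_mul_right]
      exact mul_le_mul_left (sum_sat g) _) _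
  refine (h1.trans h2).trans ?_
  rw [hQ.cen N (fun g => maj g * ‖F g‖ₑ ^ 2) (measurable_maj.mul mF)
    (fun γ g => by dsimp only; rw [zinv_maj, hF.zinv]), mul_assoc]
  refine mul_le_mul_right ?_ _
  rw [N2, ← lintegral_const_mul _ mF]
  refine lintegral_mono fun g => ?_
  calc ∫⁻ t in Set.Ioi (0 : ℝ), ENNReal.ofReal t⁻¹ * (maj (sc t * g) * ‖F (sc t * g)‖ₑ ^ 2)
      = ∫⁻ t in Set.Ioi (0 : ℝ), ENNReal.ofReal t⁻¹ * maj (sc t * g) * ‖F g‖ₑ ^ 2 :=
        setLIntegral_congr_fun measurableSet_Ioi fun t ht => by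
          rw [hF.sinv t (ne_of_gt ht), mul_assoc]
    _ = (∫⁻ t in Set.Ioi (0 : ℝ), ENNReal.ofReal t⁻¹ * maj (sc t * g)) * ‖F g‖ₑ ^ 2 :=
        lintegral_mul_const' _ _ (ENNReal.pow_ne_top enorm_ne_top)
    _ ≤ C * ‖F g‖ₑ ^ 2 := mul_le_mul_left (h g) _

lemma sum_wm : ∀ N : ℕ, ∑' m : Fin N → ℕ+, wm m ≠ ⊤ := by
  have h0 : ∑' c : ℕ+, ENNReal.ofReal ((((c : ℕ) : ℝ) ^ 2)⁻¹) ≠ ⊤ := by
    have h1 : Summable fun c : ℕ+ => (((c : ℕ) : ℝ) ^ 2)⁻¹ :=
      (Real.summable_nat_pow_inv.2 one_lt_two).comp_injective PNat.coe_injective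
    rw [← ENNReal.ofReal_tsum_of_nonneg (fun c => by positivity) h1]
    exact ENNReal.ofReal_ne_top
  intro N
  induction N with
  | zero => simp [wm]
  | succ N ih =>
    rw [← (Fin.consEquiv fun _ : Fin (N + 1) => ℕ+).tsum_eq, ENNReal.tsum_prod']
    have : ∀ (c : ℕ+) (m : Fin N → ℕ+), wm ((Fin.consEquiv fun _ : Fin (N + 1) => ℕ+) (c, m)) =
        ENNReal.ofReal ((((c : ℕ) : ℝ) ^ 2)⁻¹) * wm m := fun c m => by
      simp [wm, Fin.prod_univ_succ, Fin.consEquiv]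
    simp only [this, ENNReal.tsum_mul_left, ENNReal.tsum_mul_right]
    exact ENNReal.mul_ne_top h0 ih

lemma main (hL : LatStmt) (hC : CalcStmt) (hQ : QuotStmt) (hW : WhStmt) (hPar : ParStmt)
    (hR : RSStmt) (hV : ClassStmt) (N : ℕ) (hN : 1 ≤ N) : ∃ C : ℝ≥0∞, C ≠ ⊤ ∧
    ∀ w : G (N + 1) → ℂ, Sm w → Aut w → Cusp w →
      JJ ((4 * N + 2 : ℕ) : ℝ) (cone (Fin.last N)) w ≤ C * Sob (ord N) w := by
  obtain ⟨C, hC', h⟩ := wh_bound hL hQ hPar N
  refine ⟨2 * ((∑' m : Fin N → ℕ+, wm m) * (ENNReal.ofReal (cst N) * C)),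
    ENNReal.mul_ne_top (by simp) (ENNReal.mul_ne_top (sum_wm N)
      (ENNReal.mul_ne_top ENNReal.ofReal_ne_top hC')), fun w hs ha hc => ?_⟩
  rw [hR.unf N _ _ (hR.conem N _) w ha hc, mul_assoc]
  refine mul_le_mul' (hR.zeta N _ hN (by exact_mod_cast (by omega : 1 ≤ 4 * N + 2))).2 ?_
  rw [mul_assoc, ← ENNReal.tsum_mul_right]
  refine ENNReal.tsum_le_tsum fun m => ?_
  have hm : ∀ l : List (Fin (N + 1) × Fin (N + 1)), Measurable fun x : X (N + 1) =>
      if l.length ≤ ord N then om (sg _ x) * ‖Wf (zm m) (Rw l w) (sg _ x)‖ₑ ^ 2 else 0 := by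
    intro l
    split_ifs
    · have hc := hW.cont N (zm m) _ (hV.autR _ w hs ha l).2.cont
      exact (measurable_om.mul (hc.measurable.enorm.pow_const 2)).comp (measurable_sg _)
    · exact measurable_const
  calc Iv ((4 * N + 2 : ℕ) : ℝ) (cone (Fin.last N)) (Wf (zm m) w)
      ≤ ∫⁻ x, ENNReal.ofReal (cst N) * wm m * ∑' l : List (Fin (N + 1) × Fin (N + 1)),
        (if l.length ≤ ord N then om (sg _ x) * ‖Wf (zm m) (Rw l w) (sg _ x)‖ₑ ^ 2 else 0)
          ∂mX (N + 1) := lintegral_mono fun x => point hC hW m hs ha.zinv _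
    _ = ENNReal.ofReal (cst N) * wm m * ∑' l : List (Fin (N + 1) × Fin (N + 1)), ∫⁻ x,
        (if l.length ≤ ord N then om (sg _ x) * ‖Wf (zm m) (Rw l w) (sg _ x)‖ₑ ^ 2 else 0)
          ∂mX (N + 1) := by
        rw [lintegral_const_mul _ (Measurable.tsum hm), lintegral_tsum fun l => (hm l).aemeasurable]
    _ ≤ ENNReal.ofReal (cst N) * wm m * ∑' l : List (Fin (N + 1) × Fin (N + 1)),
        C * if l.length ≤ ord N then N2 (Rw l w) else 0 := by
        refine mul_le_mul_right (ENNReal.tsum_le_tsum fun l => ?_) _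
        split_ifs
        · exact h m _ (hV.autR _ w hs ha l).2
        · simp
    _ = _ := by
        rw [ENNReal.tsum_mul_left, Sob]
        ring

end CD

theorem cd (hL : LatStmt) (hC : CalcStmt) (hQ : QuotStmt) (hW : WhStmt) (hPar : ParStmt)
    (hR : RSStmt) (hV : ClassStmt) : CDStmt := by
  intro N hN
  obtain ⟨C, hC', h⟩ := CD.main hL hC hQ hW hPar hR hV N hN
  choose D hD hD' using fun i : Fin (N + 1) => hV.sobRt (N + 1) (CD.ord N) (sw i)
  refine ⟨((4 * N + 2 : ℕ) : ℝ), CD.ord N, ∑ i, C * D i,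
    by exact_mod_cast (by omega : 4 ≤ 4 * N + 2), ENNReal.sum_ne_top.2 fun i _ => ENNReal.mul_ne_top hC' (hD i), fun w hs ha hc => ?_⟩
  have mF : Measurable fun g => ‖w g‖ₑ ^ 2 := ha.cont.measurable.enorm.pow_const 2
  simp only [Finset.mul_sum, Finset.sum_mul]
  rw [lintegral_finsetSum _ (f := fun i g => ‖w g‖ₑ ^ 2 * Eis (cone i) ((4 * N + 2 : ℕ) : ℝ) g.val)
    fun i _ => mF.mul (hR.eism N _ _ (hR.conem N i))]
  refine Finset.sum_le_sum fun i _ => ?_
  have hs' : Sm (rt (sw i) w) := by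
    have := hC.tra _ w hs 1 (sw i)
    simp only [one_mul] at this
    exact this
  have ha' : Aut (rt (sw i) w) := ⟨hC.cont _ _ hs', fun γ g => by
    simp only [rt, mul_assoc]; exact ha.zinv γ _, fun t ht g => by
    simp only [rt, mul_assoc]; exact ha.sinv t ht _⟩
  have hc' : Cusp (rt (sw i) w) := fun j h1 h2 g => by
    simp only [rt, mul_assoc]; exact hc j h1 h2 _
  have h1 := h _ hs' ha' hc'
  rw [← hR.swp N _ i w ha, hR.eis N _ _ (hR.conem N i) w ha] at h1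
  have h2 : (1 : ℝ≥0∞) ≤ ENNReal.ofReal ((N + 1) / Real.log 2) := by
    rw [ENNReal.one_le_ofReal, le_div_iff₀ (Real.log_pos one_lt_two)]
    have := Real.log_two_lt_d9
    have := Nat.cast_nonneg (α := ℝ) N
    linarith
  refine (le_mul_of_one_le_left' h2).trans (h1.trans ?_)
  rw [mul_assoc]
  exact mul_le_mul_right (hD' i w hs ha) _

end Pool.Agent.Lib.MP_fa98d2_nt.D
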