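import Pool.Agent.Lib.MP_fa98d2_nt.D.Basic

-- part Pool.Agent.Lib.MP_fa98d2_nt.D.Stmts2
section

/-!
Density theorem for cusp forms on PGL(n): internal definitions and the statements of the analytic
modules. Plan: `dn_PLAN.md` in the team store.
-/

open MeasureTheory Filter Topology Matrix
open scoped ENNReal Real ContDiff ComplexConjugate

noncomputable section

namespace Pool.Agent.Lib.MP_fa98d2_nt.D

variable {k N : ℕ}

/-! ### Invariance notions -/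

section inv
variable {β : Type}

def ZInv (F : G k → β) : Prop := ∀ (γ : GZ k) (g : G k), F (iz γ * g) = F g
def SInv (F : G k → β) : Prop := ∀ t : ℝ, t ≠ 0 → ∀ g, F (sc t * g) = F g
def UInv (F : G k → β) : Prop := ∀ u, IsU u → ∀ g, F (u * g) = F g
def UZInv (F : G k → β) : Prop := ∀ γ : GZ k, IsU (iz γ) → ∀ g, F (iz γ * g) = F g
def PInv (F : G (k + 1) → β) : Prop :=
  ∀ (h : GZ k) (z : Fin k → ℤ) (g : G (k + 1)), F (iz (pb h z) * g) = F g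

/-- right translation -/
def rt (a : G k) (F : G k → β) : G k → β := fun g => F (g * a)

end inv

/-- modulus of a diagonal element -/
def dl (a : Fin k → ℝ) : ℝ := ∏ i, ∏ j ∈ Finset.Ioi i, a i / a j

structure HaarStmt : Prop where
  blk : ∀ (k : ℕ) (F : G (k + 1) → ℝ≥0∞), Measurable F → ∫⁻ g, F g ∂mu (k + 1) =
    ∫⁻ r, ∫⁻ h, ENNReal.ofReal (dt h)⁻¹ * ∫⁻ b, F (nb b * up h * sr r) ∂volume ∂mu k ∂mR k
  dec : ∀ k : ℕ, MeasurePreserving (fun p : Y k × X k => un k p.1 * sg k p.2)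
    ((mY k).prod (mX k)) (mu k)
  unf : ∀ (k : ℕ) (Ψ : G k → ℝ≥0∞), Measurable Ψ →
    ∫⁻ g, Ψ g ∂mu k = II k fun g => ∫⁻ y, Ψ (un k y * g) ∂mY k
  yr : ∀ (k : ℕ) (u : G k), IsU u → ∃ e : Y k ≃ᵐ Y k, MeasurePreserving e (mY k) (mY k) ∧
    ∀ y, un k (e y) = un k y * u
  ysc : ∀ (k : ℕ) (a : Fin k → ℝ), (∀ i, 0 < a i) → ∃ e : Y k ≃ᵐ Y k,
    (mY k).map e = ENNReal.ofReal (dl a)⁻¹ • mY k ∧ ∀ y, un k (e y) = dg a * un k y * (dg a)⁻¹
  yball : ∀ (k : ℕ) (δ : ℝ), 0 < δ →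
    mY k {y | ∀ i j, i < j → |(un k y).val i j| < δ} = ENNReal.ofReal ((2 * δ) ^ k.choose 2)
  iir : ∀ (k : ℕ) (H : G k → ℝ≥0∞), Measurable H → UInv H → ∀ a, II k (rt a H) = II k H
  iil : ∀ (k : ℕ) (H : G k → ℝ≥0∞), Measurable H → UInv H → ∀ a : Fin k → ℝ, (∀ i, 0 < a i) →
    II k (fun g => H (dg a * g)) = ENNReal.ofReal (dl a) * II k H

/-! ### Integration on the quotient -/

def th (g : G k) : ℝ≥0∞ := ENNReal.ofReal ((1 + ‖co g‖)⁻¹ ^ (2 * k * k))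

/-- partition of unity for `GL(k,Z)` -/
def wt (g : G k) : ℝ≥0∞ := th g / ∑' γ : GZ k, th (iz γ * g)

/-- integral over `GL(k,Z) \ GL(k,R)` -/
def QI (k : ℕ) (F : G k → ℝ≥0∞) : ℝ≥0∞ := ∫⁻ g, wt g * F g ∂mu k

/-- determinant shell -/
def Shl (c c' : ℝ) (g : G k) : ℝ≥0∞ := if c ≤ dt g ∧ dt g ≤ c' then 1 else 0

/-- measure on the quotient modulo scalars -/
def nu (k : ℕ) : Measure (G k) := (mu k).withDensity fun g => wt g * Shl 1 2 g

def N2 (F : G k → ℂ) : ℝ≥0∞ := ∫⁻ g, ‖F g‖ₑ ^ 2 ∂nu k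

def ip (F F' : G k → ℂ) : ℂ := ∫ g, F g * conj (F' g) ∂nu k

/-- integral over `P(Z) \ GL(k+1,R)` -/
def PI (k : ℕ) (H : G (k + 1) → ℝ≥0∞) : ℝ≥0∞ :=
  ∫⁻ r, QI k (fun h => ENNReal.ofReal (dt h)⁻¹ * ∫⁻ b, H (nb b * up h * sr r) ∂cub k) ∂mR k

structure Aut (F : G k → ℂ) : Prop where
  cont : Continuous F
  zinv : ZInv F
  sinv : SInv F

structure QuotStmt : Prop where
  meas : ∀ k : ℕ, Measurable (wt (k := k))
  sum : ∀ (k : ℕ) (g : G k), ∑' γ : GZ k, wt (iz γ * g) = 1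
  indep : ∀ (k : ℕ) (β F : G k → ℝ≥0∞), Measurable β → Measurable F →
    (∀ g, ∑' γ : GZ k, β (iz γ * g) = 1) → ZInv F → ∫⁻ g, β g * F g ∂mu k = QI k F
  fold : ∀ (k : ℕ) (Ψ : G k → ℝ≥0∞), Measurable Ψ →
    ∫⁻ g, Ψ g ∂mu k = QI k fun g => ∑' γ : GZ k, Ψ (iz γ * g)
  rinv : ∀ (k : ℕ) (F : G k → ℝ≥0∞), Measurable F → ZInv F → ∀ a, QI k (rt a F) = QI k F
  nuQ : ∀ (k : ℕ) (F : G k → ℝ≥0∞), Measurable F →
    ∫⁻ g, F g ∂nu k = QI k fun g => Shl 1 2 g * F g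
  cen : ∀ (k : ℕ) (Ψ : G (k + 1) → ℝ≥0∞), Measurable Ψ → ZInv Ψ →
    QI (k + 1) Ψ = ENNReal.ofReal ((k + 1) / Real.log 2) *
      ∫⁻ g, ∫⁻ t in Set.Ioi (0 : ℝ), ENNReal.ofReal t⁻¹ * Ψ (sc t * g) ∂volume ∂nu (k + 1)
  shell : ∀ (k : ℕ) (H : G (k + 1) → ℝ≥0∞), Measurable H → ZInv H → SInv H →
    ∀ c c' : ℝ, 0 < c → c ≤ c' → QI (k + 1) (fun g => Shl c c' g * H g) =
      ENNReal.ofReal (Real.log (c' / c) / Real.log 2) * ∫⁻ g, H g ∂nu (k + 1)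
  nuR : ∀ (k : ℕ) (H : G k → ℝ≥0∞), Measurable H → ZInv H → SInv H → ∀ a,
    ∫⁻ g, H (g * a) ∂nu k = ∫⁻ g, H g ∂nu k
  pos : ∀ (k : ℕ) (F : G k → ℂ), Aut F → N2 F = 0 → F = 0
  unf : ∀ (k : ℕ) (H : G (k + 1) → ℝ≥0∞), Measurable H → PInv H →
    QI (k + 1) (fun g => ∑' ξ : Prim k, H (iz (pz ξ) * g)) = PI k H

/-! ### Calculus -/

def Sm (F : G k → ℂ) : Prop :=
  ContDiffOn ℝ ∞ (fun x : E k => F (mkG (Matrix.of x))) {x | (Matrix.of x).det ≠ 0}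

/-- derivative along right translations -/
def Rd (A : Mat k) (F : G k → ℂ) (g : G k) : ℂ := deriv (fun t : ℝ => F (g * mkG (1 + t • A))) 0

/-- derivative along left translations -/
def Ld (A : Mat k) (F : G k → ℂ) (g : G k) : ℂ := deriv (fun t : ℝ => F (mkG (1 + t • A) * g)) 0

/-- elementary matrix -/
def em (a b : Fin k) : Mat k := Matrix.single a b 1

def Rw (l : List (Fin k × Fin k)) (F : G k → ℂ) : G k → ℂ :=
  l.foldr (fun x F => Rd (em x.1 x.2) F) F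

def gpw (F : G k → ℂ) : ℕ → Fin k → Fin k → G k → ℂ
  | 0, i, j => if i = j then F else 0
  | m + 1, i, j => ∑ l, Rd (em i l) (gpw F m l j)

def Gel (m : ℕ) (F : G k → ℂ) : G k → ℂ := ∑ i, gpw F m i i

def conv (f F : G k → ℂ) (g : G k) : ℂ := ∫ x, f x * F (g * x) ∂mu k

structure CalcStmt : Prop where
  cont : ∀ (k : ℕ) (F : G k → ℂ), Sm F → Continuous F
  const : ∀ (k : ℕ) (c : ℂ), Sm fun _ : G k => c
  add : ∀ (k : ℕ) (F F' : G k → ℂ), Sm F → Sm F' → Sm (F + F')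
  smul : ∀ (k : ℕ) (c : ℂ) (F : G k → ℂ), Sm F → Sm (c • F)
  mul : ∀ (k : ℕ) (F F' : G k → ℂ), Sm F → Sm F' → Sm (F * F')
  entry : ∀ (k : ℕ) (i j : Fin k), Sm (fun g : G k => ((g.val i j : ℝ) : ℂ)) ∧
    Sm fun g : G k => (((g⁻¹).val i j : ℝ) : ℂ)
  ofE : ∀ (k : ℕ) (f : E k → ℂ), ContDiff ℝ ∞ f → Sm (fun g : G k => f (co g)) ∧
    ∀ A g, Ld A (fun g : G k => f (co g)) g = fderiv ℝ f (co g) (fun i j => (A * g.val) i j)
  tra : ∀ (k : ℕ) (F : G k → ℂ), Sm F → ∀ a b : G k, Sm fun g => F (a * g * b)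
  res : ∀ (k : ℕ) (F : G (k + 1) → ℂ), Sm F → Sm fun h : G k => F (up h)
  rd : ∀ (k : ℕ) (A : Mat k) (F : G k → ℂ), Sm F → Sm (Rd A F)
  ld : ∀ (k : ℕ) (A : Mat k) (F : G k → ℂ), Sm F → Sm (Ld A F)
  ld_rd : ∀ (k : ℕ) (A : Mat k) (F : G k → ℂ) (g : G k),
    Ld A F g = Rd ((g⁻¹).val * A * g.val) F g
  rd_add : ∀ (k : ℕ) (A : Mat k) (F F' : G k → ℂ), Sm F → Sm F' → Rd A (F + F') = Rd A F + Rd A F'
  rd_smul : ∀ (k : ℕ) (A : Mat k) (c : ℂ) (F : G k → ℂ), Rd A (c • F) = c • Rd A F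
  rd_mul : ∀ (k : ℕ) (A : Mat k) (F F' : G k → ℂ), Sm F → Sm F' →
    Rd A (F * F') = Rd A F * F' + F * Rd A F'
  rd_lin : ∀ (k : ℕ) (A : Mat k) (F : G k → ℂ), Sm F →
    Rd A F = ∑ a, ∑ b, ((A a b : ℝ) : ℂ) • Rd (em a b) F
  curve : ∀ (k : ℕ) (F : G k → ℂ), Sm F → ∀ (c : ℝ → G k) (V : E k) (t : ℝ),
    HasDerivAt (fun t => co (c t)) V t →
    HasDerivAt (fun t => F (c t)) (Rd (((c t)⁻¹).val * Matrix.of V) F (c t)) t
  comm : ∀ (k : ℕ) (A B : Mat k) (F : G k → ℂ), Sm F →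
    Rd A (Rd B F) - Rd B (Rd A F) = Rd (A * B - B * A) F
  rd_ld : ∀ (k : ℕ) (A B : Mat k) (F : G k → ℂ), Sm F → Rd A (Ld B F) = Ld B (Rd A F)
  rd_rt : ∀ (k : ℕ) (A : Mat k) (a : G k) (F : G k → ℂ),
    Rd A (rt a F) = rt a (Rd ((a⁻¹).val * A * a.val) F)
  adj : ∀ (k : ℕ) (l : List (Fin k × Fin k)), ∃ (S : Finset (List (Fin k × Fin k)))
    (q : List (Fin k × Fin k) → G k → ℂ), l ∈ S ∧ (∀ l' ∈ S, l'.length = l.length) ∧
    (∀ l', Continuous (q l')) ∧ (∀ l', q l' 1 = if l' = l then 1 else 0) ∧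
    ∀ F, Sm F → ∀ a, Rw l (rt a F) = rt a (∑ l' ∈ S, q l' a • Rw l' F)
  mod : ∀ (k : ℕ) (V : Submodule ℂ (G k → ℂ)), (∀ w ∈ V, Sm w) →
    (∀ a b, ∀ w ∈ V, Rd (em a b) w ∈ V) → ∃ e : Fin k → Fin k → Module.End ℂ V, Comm 1 e ∧
      (∀ a b w, (e a b w : G k → ℂ) = Rd (em a b) w) ∧ (∀ l w, (ew e l w : G k → ℂ) = Rw l w) ∧
      ∀ m w, (egel e m w : G k → ℂ) = Gel m w
  par : ∀ (k : ℕ) (Z : Type) [MeasurableSpace Z] (ν : Measure Z) (u : Z → G k) (χ : Z → ℂ)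
    (K : Set (G k)), Measurable u → Integrable χ ν → IsCompact K → (∀ᵐ z ∂ν, χ z ≠ 0 → u z ∈ K) →
    ∀ F, Sm F → Sm (fun g => ∫ z, χ z * F (u z * g) ∂ν) ∧
      ∀ A, Rd A (fun g => ∫ z, χ z * F (u z * g) ∂ν) = fun g => ∫ z, χ z * Rd A F (u z * g) ∂ν
  convL : ∀ (k : ℕ) (f F : G k → ℂ), Sm f → HasCompactSupport f → Continuous F →
    Sm (conv f F) ∧ ∀ A, Rd A (conv f F) = conv (-Ld A f) F
  convG : ∀ (k : ℕ) (f F : G k → ℂ), Sm f → HasCompactSupport f → Sm F →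
    ∀ m, Gel m (conv f F) = conv f (Gel m F)
  gel_rt : ∀ (k : ℕ) (F : G k → ℂ), Sm F → ∀ m a, Gel m (rt a F) = rt a (Gel m F)
  gel_rd : ∀ (k : ℕ) (F : G k → ℂ), Sm F → ∀ m A, Gel m (Rd A F) = Rd A (Gel m F)
  supp : ∀ (k : ℕ) (A : Mat k) (f : G k → ℂ), tsupport (Ld A f) ⊆ tsupport f
  ibp : ∀ (k : ℕ) (A : Mat k) (f : G k → ℂ), Sm f → HasCompactSupport f →
    ∫ g, Ld A f g ∂mu k = 0

/-! ### Whittaker coefficients -/

def cfU (ξ : Fin k → ℤ) (F : G (k + 1) → ℂ) (g : G (k + 1)) : ℂ := fc ξ fun b => F (nb b * g)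

def Wh : ∀ k : ℕ, (Fin k → ℤ) → (G (k + 1) → ℂ) → ℂ
  | 0, _, F => F 1
  | k + 1, m, F =>
    Wh k (Fin.init m) fun h => cfU (Pi.single (Fin.last k) (m (Fin.last k))) F (up h)

def Wf (m : Fin k → ℤ) (F : G (k + 1) → ℂ) (g : G (k + 1)) : ℂ := Wh k m (rt g F)

/-- the first coefficient -/
def W1 (F : G (k + 1) → ℂ) : G (k + 1) → ℂ := Wf (fun _ => 1) F

lemma Wf_zero (m : Fin 0 → ℤ) (F : G 1 → ℂ) : Wf m F = F := by
  ext g; simp [Wf, Wh, rt]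

lemma Wf_succ (m : Fin (k + 1) → ℤ) (F : G (k + 2) → ℂ) (h : G (k + 1)) (g : G (k + 2)) :
    Wf m F (up h * g) = Wf (Fin.init m)
      (fun x => cfU (Pi.single (Fin.last k) (m (Fin.last k))) F (up x * g)) h := by
  simp only [Wf, Wh]
  congr 1
  ext x
  simp only [cfU, rt, up_mul, mul_assoc]

lemma Wf_rt (m : Fin k → ℤ) (F : G (k + 1) → ℂ) (a : G (k + 1)) :
    Wf m (rt a F) = rt a (Wf m F) := by
  ext g
  simp only [Wf, rt]
  congr 1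
  ext x
  simp only [rt, mul_assoc]

/-- character of the upper unitriangular group -/
def psi (m : Fin k → ℝ) (u : G (k + 1)) : ℂ := ee (∑ i, m i * u.val i.castSucc i.succ)

def Eqv (m : Fin k → ℝ) (W : G (k + 1) → ℂ) : Prop :=
  ∀ u, IsU u → ∀ g, W (u * g) = psi m u * W g

structure WhStmt : Prop where
  repr : ∀ (k : ℕ) (m : Fin k → ℤ) (F : G (k + 1) → ℂ), Continuous F → ∀ g, Wf m F g =
    ∫ y, conj (psi (zv m) (un (k + 1) y)) * F (un (k + 1) y * g) ∂cY (k + 1)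
  cpt : ∀ k : ℕ, ∃ K : Set (G k), IsCompact K ∧ ∀ᵐ y ∂cY k, un k y ∈ K
  cont : ∀ (k : ℕ) (m : Fin k → ℤ) (F : G (k + 1) → ℂ), Continuous F → Continuous (Wf m F)
  add : ∀ (k : ℕ) (m : Fin k → ℤ) (F F' : G (k + 1) → ℂ), Continuous F → Continuous F' →
    Wf m (F + F') = Wf m F + Wf m F'
  smul : ∀ (k : ℕ) (m : Fin k → ℤ) (c : ℂ) (F : G (k + 1) → ℂ), Wf m (c • F) = c • Wf m F
  psi_mul : ∀ (k : ℕ) (m : Fin k → ℝ) (u v : G (k + 1)), IsU u → IsU v →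
    psi m (u * v) = psi m u * psi m v
  psi_pb : ∀ (k : ℕ) (m : Fin (k + 1) → ℝ) (u : G (k + 1)) (b : Fin (k + 1) → ℝ),
    psi m (pb u b) = ee (m (Fin.last k) * b (Fin.last k)) * psi (Fin.init m) u
  eqv : ∀ (k : ℕ) (m : Fin k → ℤ) (F : G (k + 1) → ℂ), Continuous F → UZInv F →
    Eqv (zv m) (Wf m F)
  sinv : ∀ (k : ℕ) (m : Fin k → ℤ) (F : G (k + 1) → ℂ), SInv F → SInv (Wf m F)
  sm : ∀ (k : ℕ) (m : Fin k → ℤ) (F : G (k + 1) → ℂ), Sm F →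
    Sm (Wf m F) ∧ ∀ A, Rd A (Wf m F) = Wf m (Rd A F)
  conv : ∀ (k : ℕ) (m : Fin k → ℤ) (f F : G (k + 1) → ℂ), Continuous f → HasCompactSupport f →
    Continuous F → Wf m (conv f F) = conv f (Wf m F)
  /-- derivative of an equivariant function in an upper triangular direction -/
  ldU : ∀ (k : ℕ) (m : Fin k → ℝ) (W : G (k + 1) → ℂ), Eqv m W → ∀ i j : Fin (k + 1), i < j →
    ∀ g, Ld (em i j) W g =
      (∑ l : Fin k, if i = l.castSucc ∧ j = l.succ then 2 * π * Complex.I * m l else 0) * W g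

/-- element of the unipotent radical of the maximal parabolic of type `(j, k - j)` -/
def cb (j : ℕ) : ∀ k, Y k → G k
  | 0, _ => 1
  | k + 1, y => nb (fun i => if i.val < j ∧ j ≤ k then y.2 i else 0) * up (cb j k y.1)

def Cusp (F : G k → ℂ) : Prop :=
  ∀ j : ℕ, 0 < j → j < k → ∀ g, ∫ y, F (cb j k y * g) ∂cY k = 0

/-- saturation by the integral mirabolic group -/
def sat (om : G (k + 1) → ℝ≥0∞) (g : G (k + 1)) : ℝ≥0∞ :=
  ⨆ (h : GZ k) (z : Fin k → ℤ), om (iz (pb h z) * g)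

/-- positive tuple as an integer tuple -/
def zm (m : Fin k → ℕ+) : Fin k → ℤ := fun i => ((m i : ℕ) : ℤ)

structure ParStmt : Prop where
  bes : ∀ (k : ℕ) (m : Fin k → ℤ), (∀ i, m i ≠ 0) → ∀ (F : G (k + 1) → ℂ), Continuous F → PInv F →
    ∀ om : G (k + 1) → ℝ≥0∞, Measurable om → UInv om →
    II (k + 1) (fun g => om g * ‖Wf m F g‖ₑ ^ 2) ≤ PI k fun g => sat om g * ‖F g‖ₑ ^ 2
  par : ∀ (k : ℕ) (F : G (k + 1) → ℂ), Continuous F → PInv F → Cusp F →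
    ∀ om : G (k + 1) → ℝ≥0∞, Measurable om →
    (∀ (h : G k) (b : Fin k → ℝ), dt h = 1 → ∀ g, om (pb h b * g) = om g) →
    PI k (fun g => om g * ‖F g‖ₑ ^ 2) =
      ∑' m : Fin k → ℕ+, II (k + 1) fun g => om g * ‖Wf (zm m) F g‖ₑ ^ 2

/-! ### Hecke operators -/

def hm (p : ℕ) (I : Finset (Fin k)) (v : Fin k → Fin k → ℕ) : G k := mkG (hmat ℝ p I v)

def TI (p : ℕ) (I : Finset (Fin k)) (F : G k → ℂ) (g : G k) : ℂ := ∑ v ∈ reps p I, F (hm p I v * g)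

def Tr (p r : ℕ) (F : G k → ℂ) (g : G k) : ℂ :=
  ∑ I ∈ Finset.powersetCard r Finset.univ, TI p I F g

def Hk (α : ℕ → Fin k → ℂ) (F : G k → ℂ) : Prop :=
  ∀ p : ℕ, p.Prime → ∀ r : ℕ, r ≤ k → ∀ g, Tr p r F g =
    (((p : ℝ) ^ ((r : ℝ) * ((k : ℝ) - r) / 2) : ℝ) : ℂ) * esy (α p) (k - r) * F g

def Pr1 (α : ℕ → Fin k → ℂ) : Prop := ∀ p : ℕ, p.Prime → ∏ i, α p i = 1

def dI (p : ℕ) (I : Finset (Fin k)) (i : Fin k) : ℕ := if i ∈ I then p else 1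

def nI (I : Finset (Fin k)) : ℕ :=
  (Finset.univ.filter fun x : Fin k × Fin k => x.1 < x.2 ∧ x.1 ∉ I ∧ x.2 ∈ I).card

def HWStmt : Prop :=
  ∀ (k p : ℕ), 0 < p → ∀ (I : Finset (Fin (k + 1))) (F : G (k + 1) → ℂ), Continuous F → UZInv F →
    ∀ (m : Fin k → ℤ) (g : G (k + 1)), Wf m (TI p I F) g = (p : ℂ) ^ nI I *
      if ∀ i : Fin k, (dI p I i.castSucc : ℤ) ∣ m i * dI p I i.succ then
        Wf (fun i => m i * dI p I i.succ / dI p I i.castSucc) F (dg (fun i => dI p I i) * g)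
      else 0

/-- the conclusion of `SchurStmt` -/
def IsSch (α : Fin (N + 1) → ℂ) (S : (Fin (N + 1) → ℕ) → ℂ) : Prop :=
  S 0 = 1 ∧
    (∀ A : (Fin (N + 1) → ℤ) → ℂ, (∀ l, ¬ Antitone l → A l = 0) →
      (∀ l, Antitone l → ∀ r, r ≤ N + 1 → esy α (N + 1 - r) * A l =
        ∑ I ∈ Finset.powersetCard r Finset.univ, A (l - ind I)) →
      ∀ l : Fin (N + 1) → ℕ, Antitone l → A (fun i => l i) = S l * A 0) ∧
    (∀ B : ℝ, 1 ≤ B → (∀ i, ‖α i‖ ≤ B) →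
      (∀ l : Fin (N + 1) → ℕ, Antitone l → ‖S l‖ ≤
        ((N + 1).factorial * (N + 1) ^ ((N + 1) ^ 2) : ℝ) *
          ((∑ i, l i : ℕ) + 1 : ℝ) ^ ((N + 1) ^ 2) * B ^ (∑ i, l i)) ∧
      ∀ (i : Fin (N + 1)) (l : ℕ), ‖α i‖ ^ l ≤
        (1 + B) ^ N * ∑ j ∈ Finset.range (min l N + 1), ‖S (Pi.single 0 (l - j))‖)

lemma SchurStmt.isSch (h : SchurStmt) (α : Fin (N + 1) → ℂ) (hα : ∏ i, α i = 1) :
    ∃ S, IsSch α S := h N α hα

/-- partition attached to an exponent vector -/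
def lam (e : Fin N → ℕ) (i : Fin (N + 1)) : ℕ := ∑ j : Fin N, if i.val ≤ j.val then e j else 0

/-- diagonal entries attached to a tuple -/
def tm (m : Fin N → ℕ+) (i : Fin (N + 1)) : ℝ :=
  ∏ j : Fin N, if i.val ≤ j.val then ((m j : ℕ) : ℝ) else 1

/-- all coefficients are multiples of translates of the first one -/
def ShinF (c : (Fin N → ℕ+) → ℂ) (F : G (N + 1) → ℂ) : Prop :=
  ∀ m g, Wf (zm m) F g = ((dl (tm m) ^ (-(1 / 2) : ℝ) : ℝ) : ℂ) * c m * W1 F (dg (tm m) * g)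

def ShinStmt : Prop :=
  ∀ (N : ℕ) (α : ℕ → Fin (N + 1) → ℂ) (S : ℕ → (Fin (N + 1) → ℕ) → ℂ),
    (∀ p : ℕ, p.Prime → IsSch (α p) (S p)) → ∀ F, Aut F → Hk α F →
    ShinF (mulf fun p e => S p (lam e)) F

structure OrthStmt : Prop where
  orth : ∀ (k : ℕ) (α α' : ℕ → Fin k → ℂ) (F F' : G k → ℂ), Aut F → Aut F' → N2 F < ⊤ → N2 F' < ⊤ →
    Hk α F → Hk α' F' → (∃ p : ℕ, p.Prime ∧ ∃ r, r ≤ k ∧ esy (α p) r ≠ esy (α' p) r) → ip F F' = 0
  unit : ∀ (k : ℕ) (α : ℕ → Fin k → ℂ) (F : G k → ℂ), Aut F → N2 F < ⊤ → F ≠ 0 → Hk α F → Pr1 α →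
    ∀ p : ℕ, p.Prime → ∀ i, ∃ j, ‖α p j‖ = ‖α p i‖⁻¹

/-! ### Rankin-Selberg integrals -/

def JJ (s : ℝ) (Φ : (Fin k → ℝ) → ℝ≥0∞) (F : G k → ℂ) : ℝ≥0∞ :=
  QI k fun g => ‖F g‖ₑ ^ 2 * (ENNReal.ofReal (dt g ^ s) * Th Φ g.val)

def Iv (s : ℝ) (Φ : (Fin (N + 1) → ℝ) → ℝ≥0∞) (W : G (N + 1) → ℂ) : ℝ≥0∞ :=
  II (N + 1) fun g => ENNReal.ofReal (dt g ^ s) * Φ (lr g) * ‖W g‖ₑ ^ 2

/-- weighted norm in the Kirillov model -/
def KK (s : ℝ) (W : G (N + 1) → ℂ) : ℝ≥0∞ :=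
  II N fun h => ENNReal.ofReal (dt h ^ (s - 1)) * ‖W (up h)‖ₑ ^ 2

def zet (N : ℕ) (s : ℝ) : ℝ≥0∞ := ∑' c : ℕ+, ENNReal.ofReal (((c : ℕ) : ℝ) ^ (-((N + 1) * s)))

def DS (c : (Fin N → ℕ+) → ℂ) (s : ℝ) : ℝ≥0∞ :=
  ∑' m : Fin N → ℕ+, ENNReal.ofReal (‖c m‖ ^ 2 * dtm m ^ (-s))

/-- the transposition of `i` and the last index -/
def sw (i : Fin (N + 1)) : G (N + 1) := mkG ((Equiv.swap i (Fin.last N)).permMatrix ℝ)

structure RSStmt : Prop where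
  eis : ∀ (N : ℕ) (s : ℝ) (Φ : (Fin (N + 1) → ℝ) → ℝ≥0∞), Measurable Φ → ∀ F, Aut F →
    JJ s Φ F = ENNReal.ofReal ((N + 1) / Real.log 2) *
      ∫⁻ g, ‖F g‖ₑ ^ 2 * Eis Φ s g.val ∂nu (N + 1)
  eism : ∀ (N : ℕ) (s : ℝ) (Φ : (Fin (N + 1) → ℝ) → ℝ≥0∞), Measurable Φ →
    Measurable fun g : G (N + 1) => Eis Φ s g.val
  conem : ∀ (N : ℕ) (i : Fin (N + 1)), Measurable (cone i)
  unf : ∀ (N : ℕ) (s : ℝ) (Φ : (Fin (N + 1) → ℝ) → ℝ≥0∞), Measurable Φ → ∀ F, Aut F → Cusp F →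
    JJ s Φ F = zet N s * ∑' m : Fin N → ℕ+, Iv s Φ (Wf (zm m) F)
  zeta : ∀ (N : ℕ) (s : ℝ), 1 ≤ N → 1 ≤ s → 1 ≤ zet N s ∧ zet N s ≤ 2
  ik : ∀ (N : ℕ) (s : ℝ) (Φ : (Fin (N + 1) → ℝ) → ℝ≥0∞), Measurable Φ → ∀ W, Continuous W →
    Iv s Φ W = ∫⁻ r, Φ r * ENNReal.ofReal (|r (Fin.last N)| ^ (s - 1)) * KK s (rt (sr r) W)
  kkm : ∀ (N : ℕ) (s : ℝ) (W : G (N + 1) → ℂ), Continuous W → Measurable fun a => KK s (rt a W)
  swp : ∀ (N : ℕ) (s : ℝ) (i : Fin (N + 1)) (F : G (N + 1) → ℂ), Aut F →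
    JJ s (cone i) F = JJ s (cone (Fin.last N)) (rt (sw i) F)
  dser : ∀ (N : ℕ) (s : ℝ) (Φ : (Fin (N + 1) → ℝ) → ℝ≥0∞), Measurable Φ → ∀ F, Aut F →
    ∀ c, ShinF c F → ∑' m : Fin N → ℕ+, Iv s Φ (Wf (zm m) F) = DS c s * Iv s Φ (W1 F)

/-! ### The space of smooth vectors -/

structure InV (α : ℕ → Fin k → ℂ) (w : G k → ℂ) : Prop where
  sm : Sm w
  aut : Aut w
  cusp : Cusp w
  hk : Hk α w
  l2 : ∀ l, N2 (Rw l w) < ⊤

def Cen (γ : ℕ → ℂ) (w : G k → ℂ) : Prop := ∀ m, Gel m w = γ m • w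

/-- Sobolev norm -/
def Sob (M : ℕ) (w : G k → ℂ) : ℝ≥0∞ :=
  ∑' l : List (Fin k × Fin k), if l.length ≤ M then N2 (Rw l w) else 0

structure ClassStmt : Prop where
  sub : ∀ (k : ℕ) (α : ℕ → Fin k → ℂ), ∃ V : Submodule ℂ (G k → ℂ), ∀ w, w ∈ V ↔ InV α w
  subC : ∀ (k : ℕ) (α : ℕ → Fin k → ℂ) (γ : ℕ → ℂ), ∃ V : Submodule ℂ (G k → ℂ),
    ∀ w, w ∈ V ↔ InV α w ∧ Cen γ w
  rtV : ∀ (k : ℕ) (α : ℕ → Fin k → ℂ) (w : G k → ℂ), InV α w → ∀ a, InV α (rt a w)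
  rdV : ∀ (k : ℕ) (α : ℕ → Fin k → ℂ) (w : G k → ℂ), InV α w → ∀ A, InV α (Rd A w)
  rtC : ∀ (k : ℕ) (γ : ℕ → ℂ) (w : G k → ℂ), Sm w → Cen γ w → ∀ a, Cen γ (rt a w)
  rdC : ∀ (k : ℕ) (γ : ℕ → ℂ) (w : G k → ℂ), Sm w → Cen γ w → ∀ A, Cen γ (Rd A w)
  convV : ∀ (k : ℕ) (α : ℕ → Fin k → ℂ) (F : G k → ℂ), Aut F → Cusp F → Hk α F → N2 F < ⊤ →
    ∀ f, Sm f → HasCompactSupport f → InV α (conv f F)
  convC : ∀ (k : ℕ) (γ : ℕ → ℂ) (w : G k → ℂ), Sm w → Cen γ w →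
    ∀ f, Sm f → HasCompactSupport f → Cen γ (conv f w)
  young : ∀ (k : ℕ) (f F : G k → ℂ), Continuous f → HasCompactSupport f → Aut F →
    N2 (conv f F) ≤ (∫⁻ x, ‖f x‖ₑ ∂mu k) ^ 2 * N2 F
  init : ∀ (k : ℕ) (F : G k → ℂ), Continuous F → F ≠ 0 →
    ∃ f, Sm f ∧ HasCompactSupport f ∧ conv f F ≠ 0
  autR : ∀ (k : ℕ) (w : G k → ℂ), Sm w → Aut w → ∀ l, Sm (Rw l w) ∧ Aut (Rw l w)
  cuspR : ∀ (k : ℕ) (w : G k → ℂ), Sm w → Cusp w → ∀ A, Cusp (Rd A w)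
  n2rt : ∀ (k : ℕ) (F : G k → ℂ), Aut F → ∀ a, N2 (rt a F) = N2 F
  sobFin : ∀ (k : ℕ) (α : ℕ → Fin k → ℂ) (w : G k → ℂ), InV α w → ∀ M, Sob M w < ⊤
  sobRt : ∀ (k M : ℕ) (a : G k), ∃ C : ℝ≥0∞, C ≠ ⊤ ∧
    ∀ w, Sm w → Aut w → Sob M (rt a w) ≤ C * Sob M w
  strong : ∀ (k : ℕ) (F : G k → ℂ), Aut F → N2 F < ⊤ →
    Tendsto (fun a => N2 (rt a F - F)) (𝓝 1) (𝓝 0)

def CDStmt : Prop :=
  ∀ N : ℕ, 1 ≤ N → ∃ (s2 : ℝ) (M : ℕ) (C : ℝ≥0∞), 4 ≤ s2 ∧ C ≠ ⊤ ∧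
    ∀ w : G (N + 1) → ℂ, Sm w → Aut w → Cusp w →
      ∫⁻ g, ‖w g‖ₑ ^ 2 * ∑ i, Eis (cone i) s2 g.val ∂nu (N + 1) ≤ C * Sob M w

/-- the Kirillov model is isometric up to the factor `R` -/
def Iso (α : ℕ → Fin (N + 1) → ℂ) (R : ℝ) : Prop :=
  0 < R ∧ ∀ w, InV α w → N2 w = ENNReal.ofReal R * KK 1 (W1 w)

def IsoStmt : Prop :=
  ∀ N : ℕ, 1 ≤ N → ∀ α : ℕ → Fin (N + 1) → ℂ, Pr1 α → (∃ w, w ≠ 0 ∧ InV α w) → ∃ R, Iso α R

def IrrStmt : Prop :=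
  ∀ (k : ℕ) (Ξ : G (k + 1) → ℂ) (η : X k → ℂ), Measurable Ξ → Eqv (fun _ => 1) Ξ → Measurable η →
    KK 1 Ξ < ⊤ → ∫⁻ x, ‖η x‖ₑ ^ 2 ∂mX k < ⊤ →
    (∀ᵐ h ∂mu k, ∀ᵐ b : Fin k → ℝ,
      ∫ x, η x * conj (Ξ (up (sg k x) * (nb b * up h))) ∂mX k = 0) →
    (∀ᵐ x ∂mX k, η x = 0) ∨ KK 1 Ξ = 0

/-! ### Local estimates -/

/-- open ball around the identity -/
def Bl (k : ℕ) (δ : ℝ) : Set (G k) := {g | ∀ i j, |g.val i j - (1 : Mat k) i j| < δ}

def Om (a : G k) (δ : ℝ) : Set (G k) := {g | ∃ u, IsU u ∧ ∃ x ∈ Bl k δ, g = u * a * x}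

def tT (k : ℕ) (T : ℝ) (i : Fin k) : ℝ := T ^ (k - i.val)

def bp (k : ℕ) : ContDiffBump (0 : E k) := ⟨1 / 2, 3 / 4, by norm_num, by norm_num⟩

/-- bump function at scale `δ` around the identity -/
def tf (δ : ℝ) (g : G k) : ℂ := ((bp k (δ⁻¹ • (co g - co (1 : G k))) : ℝ) : ℂ)

def L0 (T δ : ℝ) (W : G (N + 1) → ℂ) : ℂ := ∫ x, tf δ x * W (up (dg (tT N T) * x)) ∂mu N

def NL (N : ℕ) (T δ : ℝ) : ℝ := dl (tT N T) * δ ^ (N ^ 2 + N.choose 2)

/-- growth condition on the eigenvalues of the Gelfand invariants -/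
def Gam (n : ℕ) (C0 T : ℝ) (γ : ℕ → ℂ) : Prop := ∀ m, m ≤ n → ‖γ m‖ ≤ C0 * T ^ m

structure Loc0Stmt : Prop where
  opn : ∀ (k : ℕ) (a : G k) (δ : ℝ), IsOpen (Bl k δ) ∧ IsOpen (Om a δ)
  mul : ∀ (k : ℕ) (δ δ' : ℝ), δ * (2 * k + 2) ≤ 1 → δ' * (2 * k + 2) ≤ 1 →
    ∀ x ∈ Bl k δ, ∀ y ∈ Bl k δ', x * y ∈ Bl k (2 * (δ + δ')) ∧ x⁻¹ ∈ Bl k (2 * δ)
  det : ∀ k : ℕ, ∃ C : ℝ, 0 ≤ C ∧ ∀ δ : ℝ, δ * (2 * k + 2) ≤ 1 → ∀ x ∈ Bl k δ,
    |Real.log (dt x)| ≤ C * δ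
  vol : ∀ k : ℕ, ∃ C : ℝ, 0 < C ∧ ∀ δ : ℝ, 0 < δ → δ * (2 * k + 2) ≤ 1 →
    ENNReal.ofReal (δ ^ k ^ 2 / C) ≤ mu k (Bl k δ) ∧ mu k (Bl k δ) ≤ ENNReal.ofReal (C * δ ^ k ^ 2)
  seg : ∀ (k : ℕ) (δ : ℝ), δ * (2 * k + 2) ≤ 1 → ∀ A : Mat k, (∀ i j, |A i j| < δ) →
    (1 + A).det ≠ 0
  bump : ∀ (k : ℕ) (δ : ℝ), 0 < δ → δ * (2 * k + 2) ≤ 1 →
    Sm (tf (k := k) δ) ∧ HasCompactSupport (tf (k := k) δ) ∧
      (∀ g : G k, tf δ g ≠ 0 → g ∈ Bl k δ) ∧ (∀ g ∈ Bl k (δ / 2), tf δ g = 1) ∧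
      ∀ g : G k, ∃ x : ℝ, 0 ≤ x ∧ x ≤ 1 ∧ tf δ g = x
  /-- scaled left derivatives of `q * tf` are bounded -/
  der : ∀ (k : ℕ) (c : ℝ), 0 < c → c * (2 * k + 2) ≤ 1 → ∀ q : G k → ℂ, Sm q →
    ∀ l : List (Mat k), ∃ C : ℝ, 0 ≤ C ∧ ∀ T : ℝ, 1 ≤ T → ∀ g,
      ‖l.foldr (fun A f => Ld A f) (q * tf (c / T)) g‖ ≤ C * T ^ l.length ∧
      (l.foldr (fun A f => Ld A f) (q * tf (c / T)) g ≠ 0 → g ∈ Bl k (c / T))
  upper : ∀ k : ℕ, ∃ C : ℝ, 0 < C ∧ ∀ (a : Fin k → ℝ), (∀ i, 0 < a i) → ∀ δ : ℝ, 0 < δ →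
    δ * (2 * k + 2) ≤ 1 → ∀ τ W : G k → ℂ, Measurable τ → (∀ g, ‖τ g‖ ≤ 1) →
    (∀ g, τ g ≠ 0 → g ∈ Bl k δ) → Measurable W → UInv (fun g => ‖W g‖) →
    ‖∫ x, τ x * W (dg a * x) ∂mu k‖ₑ ^ 2 ≤
      ENNReal.ofReal (C * dl a * δ ^ (k ^ 2 + k.choose 2)) *
        II k fun g => (Om (dg a) δ).indicator 1 g * ‖W g‖ₑ ^ 2

def Loc1Stmt : Prop :=
  ∀ (N : ℕ) (C0 c1 : ℝ), 0 < c1 → c1 * (2 * N + 2) ≤ 1 → ∃ C : ℝ, 0 < C ∧ ∀ T : ℝ, 1 ≤ T →
    ∀ (α : ℕ → Fin (N + 1) → ℂ) (γ : ℕ → ℂ), Gam (N + 1) C0 T γ → ∀ w, InV α w → Cen γ w →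
    ∀ a b, ‖L0 T (c1 / T) (W1 (Rd (em a b) w))‖ₑ ^ 2 ≤
      ENNReal.ofReal (C * T ^ 2 * NL N T (c1 / T)) * KK 1 (W1 w)

def Loc2Stmt : Prop :=
  ∀ N : ℕ, ∃ c1 c : ℝ, 0 < c1 ∧ c1 * (40 * (N + 2)) ≤ 1 ∧ 0 < c ∧ ∀ T : ℝ, 1 ≤ T →
    ∀ (α : ℕ → Fin (N + 1) → ℂ) (γ : ℕ → ℂ) (R : ℝ), Iso α R →
    (∃ w, w ≠ 0 ∧ InV α w ∧ Cen γ w) → ∃ w, w ≠ 0 ∧ InV α w ∧ Cen γ w ∧
      ENNReal.ofReal (c * NL N T (c1 / T)) * KK 1 (W1 w) ≤ ‖L0 T (c1 / T) (W1 w)‖ₑ ^ 2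

open Classical in
def ball2 (r : Fin k → ℝ) : ℝ≥0∞ := if ‖r‖ ≤ 2 then 1 else 0

/-- a vector with controlled derivatives and mass near the identity coset -/
def Nice (CM : ℕ → ℝ) (T : ℝ) (α : ℕ → Fin (N + 1) → ℂ) (w : G (N + 1) → ℂ) : Prop :=
  w ≠ 0 ∧ InV α w ∧ (∀ M, Sob M w ≤ ENNReal.ofReal (CM M * T ^ (2 * M)) * N2 w) ∧
    ∀ s : ℝ, 1 ≤ s → s ≤ 3 →
      KK 1 (W1 w) ≤ ENNReal.ofReal (CM 0 * T ^ (N + 1)) * Iv s ball2 (W1 w)

def LocStmt : Prop :=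
  ∀ (N : ℕ) (C0 : ℝ), ∃ (c C : ℝ) (CM : ℕ → ℝ), 0 < c ∧ c * (10 * (N + 2)) ≤ 1 ∧ 0 < C ∧
    ∀ T : ℝ, 1 ≤ T → ∃ (Λ : (G (N + 1) → ℂ) → ℂ) (b : ℝ), 0 < b ∧
      (∀ (ι : Type) (S : Finset ι) (z : ι → ℂ) (W : ι → G (N + 1) → ℂ), (∀ i, Continuous (W i)) →
        Λ (fun g => ∑ i ∈ S, z i * W i g) = ∑ i ∈ S, z i * Λ (W i)) ∧
      (∀ W, Continuous W → UInv (fun g => ‖W g‖) → ‖Λ W‖ₑ ^ 2 ≤
        ENNReal.ofReal (C * b * T ^ (N + 1 + (N + 1).choose 2)) *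
          II (N + 1) fun g => (Om (up (dg (tT N T))) (c / T)).indicator 1 g * ‖W g‖ₑ ^ 2) ∧
      ∀ (α : ℕ → Fin (N + 1) → ℂ) (γ : ℕ → ℂ) (R : ℝ), Gam (N + 1) C0 T γ → Iso α R →
        (∃ w, w ≠ 0 ∧ InV α w ∧ Cen γ w) →
        (∃ w, w ≠ 0 ∧ InV α w ∧ ENNReal.ofReal b * KK 1 (W1 w) ≤ ‖Λ (W1 w)‖ₑ ^ 2) ∧
          ∃ w, Nice CM T α w

def RBStmt : Prop :=
  ∀ N : ℕ, 1 ≤ N → ∀ (CM : ℕ → ℝ) (ε : ℝ), 0 < ε → ∃ C : ℝ, 0 < C ∧ ∀ T : ℝ, 1 ≤ T →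
    ∀ (α : ℕ → Fin (N + 1) → ℂ) (R : ℝ), Pr1 α → Iso α R → (∃ w, Nice CM T α w) →
      R ≤ C * T ^ ε ∧ ∀ p : ℕ, p.Prime → ∀ i, ‖α p i‖ ≤ Real.sqrt p

/-- the tuple `(m, 1, ..., 1)` -/
def m1 (N : ℕ) (m : ℕ+) : Fin (N + 1) → ℕ+ := Function.update 1 0 m

def InjStmt : Prop :=
  ∀ (N : ℕ) (c : ℝ), 0 < c → c * (10 * (N + 3)) ≤ 1 → ∃ c3 C : ℝ, 0 < c3 ∧ 0 < C ∧
    ∀ T : ℝ, 1 ≤ T → ∀ m : ℕ+, ((m : ℕ) : ℝ) ≤ c3 * T ^ (N + 2) → ∀ F : G (N + 2) → ℂ, Aut F →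
      ENNReal.ofReal (dl (tm (m1 N m))) * II (N + 2) (fun g =>
        (Om (up (dg (tT (N + 1) T))) (c / T)).indicator 1 g *
          ‖Wf (zm (m1 N m)) F ((dg (tm (m1 N m)))⁻¹ * g)‖ₑ ^ 2) ≤ ENNReal.ofReal (C / T) * N2 F

def MainStmt : Prop :=
  ∀ (N : ℕ) (C0 ε : ℝ), 0 < ε → ∃ C : ℝ, ∀ p : ℕ, p.Prime → ∀ T : ℝ, 1 ≤ T → ∀ σ : ℝ, 0 ≤ σ →
    ∀ (ι : Type) [Fintype ι] (α : ι → ℕ → Fin (N + 2) → ℂ) (γ : ι → ℕ → ℂ),
      (∀ j, Pr1 (α j)) → (∀ j, Gam (N + 2) C0 T (γ j)) →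
      (∀ j, ∃ w, w ≠ 0 ∧ InV (α j) w ∧ Cen (γ j) w) →
      (∀ i j, i ≠ j → ∃ q : ℕ, q.Prime ∧ ∃ r, r ≤ N + 2 ∧ esy (α i q) r ≠ esy (α j q) r) →
      (∀ j, σ ≤ thetaP (α j) p) →
      (Fintype.card ι : ℝ) ≤ C * (p : ℝ) ^ (N + 2) *
        T ^ (((N + 1) * (N + 4) : ℝ) / 2 - 2 * (N + 2) * σ + ε)

/-! ### Multiplicity one and the passage from the classical definition -/

/-- orthogonal -/
def IsO (a : G k) : Prop := a.val ∈ Matrix.orthogonalGroup (Fin k) ℝ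

def GelfStmt : Prop :=
  ∀ (k : ℕ) (H : Type) [NormedAddCommGroup H] [InnerProductSpace ℂ H] [CompleteSpace H]
    (ρ : G k →* (H ≃ₗᵢ[ℂ] H)),
    (∀ U : Submodule ℂ H, IsClosed (U : Set H) → (∀ g, ∀ x ∈ U, ρ g x ∈ U) → U = ⊥ ∨ U = ⊤) →
    ∀ x y : H, x ≠ 0 → (∀ a, IsO a → ρ a x = x) → (∀ a, IsO a → ρ a y = y) → ∃ c : ℂ, y = c • x

structure Form (α : ℕ → Fin k → ℂ) (F : G k → ℂ) : Prop where
  aut : Aut F
  cusp : Cusp F
  hk : Hk α F
  l2 : N2 F < ⊤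
  ne : F ≠ 0
  sph : ∀ a, IsO a → rt a F = F

def MultStmt : Prop :=
  ∀ N : ℕ, 1 ≤ N → ∀ (α : ℕ → Fin (N + 1) → ℂ) (F F' : G (N + 1) → ℂ), Pr1 α →
    Form α F → Form α F' → ∃ c : ℂ, F' = c • F

def BridgeStmt : Prop :=
  ∀ n : ℕ, ∃ C0 : ℝ, ∀ (φ : Mat n → ℂ) (μ : Fin n → ℂ) (α : ℕ → Fin n → ℂ), SphCusp φ μ α →
    ∀ T : ℝ, 1 ≤ T → (∀ i, ‖μ i‖ ≤ T) →
      Form α (fun g : G n => φ g.val) ∧ Sm (fun g : G n => φ g.val) ∧ Pr1 α ∧
        ∃ γ, Gam n C0 T γ ∧ Cen γ fun g : G n => φ g.val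

/-- the final statement -/
def FinalStmt : Prop :=
  ∀ n : ℕ, 2 ≤ n → ∀ ε : ℝ, 0 < ε → ∃ C : ℝ, ∀ p : ℕ, p.Prime → ∀ T : ℝ, 1 ≤ T → ∀ σ : ℝ, 0 ≤ σ →
    ∀ (ι : Type) [Fintype ι] (φ : ι → Mat n → ℂ) (μ : ι → Fin n → ℂ) (α : ι → ℕ → Fin n → ℂ),
      (∀ j, SphCusp (φ j) (μ j) (α j)) →
      (∀ i j, i ≠ j → ¬ ∃ c : ℂ, ∀ g : Mat n, g.det ≠ 0 → φ j g = c * φ i g) →
      (∀ j l, ‖μ j l‖ ≤ T) → (∀ j, σ ≤ thetaP (α j) p) →
      (Fintype.card ι : ℝ) ≤ C * (p : ℝ) ^ n * T ^ (((n : ℝ) - 1) * (n + 2) / 2 - 2 * n * σ + ε)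

end Pool.Agent.Lib.MP_fa98d2_nt.D
end
end

-- part Pool.Agent.Lib.MP_fa98d2_nt.D.Calc
section

/-!
Calculus on `GL(k,R)`: the fields of `CalcStmt` that do not involve integrals.
-/

open MeasureTheory Filter Topology Matrix
open scoped ENNReal Real ContDiff ComplexConjugate

noncomputable section

namespace Pool.Agent.Lib.MP_fa98d2_nt.D.Calc

variable {k : ℕ}

/-! ### Coordinates -/

/-- the function in coordinates -/
def cE (F : G k → ℂ) (x : E k) : ℂ := F (mkG (Matrix.of x))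

/-- the open set of invertible matrices -/
def U (k : ℕ) : Set (E k) := {x | (Matrix.of x).det ≠ 0}

lemma isOpen_U : IsOpen (U k) := isOpen_ne_fun continuous_detE continuous_const

lemma co_mem (g : G k) : co g ∈ U k := det_ne g

lemma U_mem_nhds (g : G k) : U k ∈ 𝓝 (co g) := isOpen_U.mem_nhds (co_mem g)

lemma sm_iff {F : G k → ℂ} : Sm F ↔ ContDiffOn ℝ ∞ (cE F) (U k) := Iff.rfl

lemma co_mkG {x : E k} (hx : x ∈ U k) : co (mkG (Matrix.of x)) = x := val_mkG hx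

@[simp] lemma cE_co (F : G k → ℂ) (g : G k) : cE F (co g) = F g := by simp [cE]

lemma sm_at {F : G k → ℂ} (hF : Sm F) (g : G k) : ContDiffAt ℝ ∞ (cE F) (co g) :=
  (sm_iff.1 hF).contDiffAt (U_mem_nhds g)

lemma sm_diff {F : G k → ℂ} (hF : Sm F) (g : G k) : DifferentiableAt ℝ (cE F) (co g) :=
  (sm_at hF g).differentiableAt (by simp)

lemma cE_eqOn {F : G k → ℂ} {f : E k → ℂ} (h : ∀ g, F g = f (co g)) : Set.EqOn (cE F) f (U k) :=
  fun x hx => by rw [cE, h, co_mkG hx]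

lemma cE_ev {F : G k → ℂ} {f : E k → ℂ} (h : ∀ g, F g = f (co g)) (g : G k) :
    cE F =ᶠ[𝓝 (co g)] f :=
  eventually_of_mem (U_mem_nhds g) (cE_eqOn h)

lemma sm_of_eq {F : G k → ℂ} {f : E k → ℂ} (hf : ContDiffOn ℝ ∞ f (U k))
    (h : ∀ g, F g = f (co g)) : Sm F :=
  sm_iff.2 (hf.congr (cE_eqOn h))

/-- two-sided multiplication in coordinates -/
def mE (A B : Mat k) : E k →L[ℝ] E k :=
  LinearMap.toContinuousLinearMap
    { toFun := fun x i j => (A * Matrix.of x * B) i j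
      map_add' := fun x y => by
        ext i j
        have : Matrix.of (x + y) = Matrix.of x + Matrix.of y := rfl
        rw [this, Matrix.mul_add, Matrix.add_mul]; rfl
      map_smul' := fun c x => by
        ext i j
        have : Matrix.of (c • x) = c • Matrix.of x := rfl
        rw [this, Matrix.mul_smul, Matrix.smul_mul]; rfl }

lemma mE_apply (A B : Mat k) (x : E k) : mE A B x = fun i j => (A * Matrix.of x * B) i j := rfl

lemma of_mE (A B : Mat k) (x : E k) : Matrix.of (mE A B x) = A * Matrix.of x * B := rfl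

lemma mE_co (a b g : G k) : mE a.val b.val (co g) = co (a * g * b) := rfl

lemma mE_r (A : Mat k) (g : G k) : mE 1 A (co g) = fun i j => (g.val * A) i j := by
  rw [mE_apply, Matrix.one_mul, of_co]

lemma mE_l (A : Mat k) (g : G k) : mE A 1 (co g) = fun i j => (A * g.val) i j := by
  rw [mE_apply, Matrix.mul_one, of_co]

/-! ### One-parameter curves -/

lemma continuous_line (A : Mat k) : Continuous fun t : ℝ => (fun i j => (1 + t • A) i j : E k) := by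
  refine continuous_pi fun i => continuous_pi fun j => ?_
  simp only [Matrix.add_apply, Matrix.smul_apply, smul_eq_mul]
  fun_prop

lemma ev_det (A : Mat k) : ∀ᶠ t : ℝ in 𝓝 0, (1 + t • A).det ≠ 0 := by
  have h : Continuous fun t : ℝ => (1 + t • A).det := continuous_detE.comp (continuous_line A)
  refine h.continuousAt.eventually_ne ?_
  simp

lemma tendsto_line (A : Mat k) : Tendsto (fun t : ℝ => mkG (1 + t • A)) (𝓝 0) (𝓝 1) := by
  have h1 : ContinuousAt (fun x : E k => mkG (Matrix.of x)) (co (1 : G k)) :=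
    continuousOn_mkG.continuousAt (U_mem_nhds 1)
  have h2 : Tendsto (fun t : ℝ => (fun i j => (1 + t • A) i j : E k)) (𝓝 0) (𝓝 (co (1 : G k))) := by
    have := (continuous_line A).tendsto 0
    simp only [zero_smul, add_zero] at this
    exact this
  have := h1.tendsto.comp h2
  rw [mkG_co] at this
  exact this

lemma mkG_conj (a : G k) (A : Mat k) {t : ℝ} (h : (1 + t • A).det ≠ 0) :
    mkG (1 + t • ((a⁻¹).val * A * a.val)) = a⁻¹ * mkG (1 + t • A) * a := by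
  have e : 1 + t • ((a⁻¹).val * A * a.val) = (a⁻¹ * mkG (1 + t • A) * a).val := by
    rw [Units.val_mul, Units.val_mul, val_mkG h, Matrix.mul_add, Matrix.add_mul, Matrix.mul_one,
      ← Units.val_mul, inv_mul_cancel, Units.val_one, Matrix.mul_smul, Matrix.smul_mul]
  rw [e, mkG_val]

lemma hasDerivAt_line {F : G k → ℂ} (hF : Sm F) (g : G k) (V : E k) :
    HasDerivAt (fun t : ℝ => cE F (co g + t • V)) (fderiv ℝ (cE F) (co g) V) 0 := by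
  have h1 : HasDerivAt (fun t : ℝ => co g + t • V) V 0 := by
    simpa using ((hasDerivAt_id (0 : ℝ)).smul_const V).const_add (co g)
  have h2 : HasFDerivAt (cE F) (fderiv ℝ (cE F) (co g)) (co g + (0 : ℝ) • V) := by
    simpa using (sm_diff hF g).hasFDerivAt
  exact h2.comp_hasDerivAt (0 : ℝ) h1

lemma hasDerivAt_two {F : G k → ℂ} (hF : Sm F) (A : Mat k) (a b : G k) :
    HasDerivAt (fun t : ℝ => F (a * mkG (1 + t • A) * b))
      (fderiv ℝ (cE F) (co (a * b)) fun i j => (a.val * A * b.val) i j) 0 := by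
  refine (hasDerivAt_line hF (a * b) _).congr_of_eventuallyEq ?_
  filter_upwards [ev_det A] with t ht
  rw [← cE_co F]
  congr 1
  ext i j
  simp only [co, Units.val_mul, val_mkG ht, Matrix.mul_add, Matrix.add_mul, Matrix.mul_one,
    Matrix.mul_smul, Matrix.smul_mul, Matrix.add_apply, Matrix.smul_apply, Pi.add_apply,
    Pi.smul_apply]

lemma hasDerivAt_rd' {F : G k → ℂ} (hF : Sm F) (A : Mat k) (g : G k) :
    HasDerivAt (fun t : ℝ => F (g * mkG (1 + t • A)))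
      (fderiv ℝ (cE F) (co g) fun i j => (g.val * A) i j) 0 := by
  simpa using hasDerivAt_two hF A g 1

lemma hasDerivAt_ld' {F : G k → ℂ} (hF : Sm F) (A : Mat k) (g : G k) :
    HasDerivAt (fun t : ℝ => F (mkG (1 + t • A) * g))
      (fderiv ℝ (cE F) (co g) fun i j => (A * g.val) i j) 0 := by
  simpa using hasDerivAt_two hF A 1 g

/-- the formula for `Rd` in coordinates -/
lemma rd_eq {F : G k → ℂ} (hF : Sm F) (A : Mat k) (g : G k) :
    Rd A F g = fderiv ℝ (cE F) (co g) fun i j => (g.val * A) i j := (hasDerivAt_rd' hF A g).deriv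

/-- the formula for `Ld` in coordinates -/
lemma ld_eq {F : G k → ℂ} (hF : Sm F) (A : Mat k) (g : G k) :
    Ld A F g = fderiv ℝ (cE F) (co g) fun i j => (A * g.val) i j := (hasDerivAt_ld' hF A g).deriv

lemma hasDerivAt_rd {F : G k → ℂ} (hF : Sm F) (A : Mat k) (g : G k) :
    HasDerivAt (fun t : ℝ => F (g * mkG (1 + t • A))) (Rd A F g) 0 := by
  rw [rd_eq hF]; exact hasDerivAt_rd' hF A g

lemma hasDerivAt_ld {F : G k → ℂ} (hF : Sm F) (A : Mat k) (g : G k) :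
    HasDerivAt (fun t : ℝ => F (mkG (1 + t • A) * g)) (Ld A F g) 0 := by
  rw [ld_eq hF]; exact hasDerivAt_ld' hF A g

/-! ### Linear vector fields -/

/-- derivative along a linear vector field -/
def vf (L : E k →L[ℝ] E k) (F : G k → ℂ) (g : G k) : ℂ := fderiv ℝ (cE F) (co g) (L (co g))

lemma rd_vf {F : G k → ℂ} (hF : Sm F) (A : Mat k) : Rd A F = vf (mE 1 A) F := by
  ext g; rw [rd_eq hF, vf, mE_r]

lemma ld_vf {F : G k → ℂ} (hF : Sm F) (A : Mat k) : Ld A F = vf (mE A 1) F := by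
  ext g; rw [ld_eq hF, vf, mE_l]

lemma contDiffOn_fderiv {F : G k → ℂ} (hF : Sm F) :
    ContDiffOn ℝ ∞ (fderiv ℝ (cE F)) (U k) :=
  (sm_iff.1 hF).fderiv_of_isOpen isOpen_U (by simp)

lemma sm_vf {F : G k → ℂ} (hF : Sm F) (L : E k →L[ℝ] E k) : Sm (vf L F) :=
  sm_of_eq (f := fun x => fderiv ℝ (cE F) x (L x))
    ((contDiffOn_fderiv hF).clm_apply L.contDiff.contDiffOn) fun _ => rfl

lemma vf_vf {F : G k → ℂ} (hF : Sm F) (L L' : E k →L[ℝ] E k) (g : G k) :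
    vf L (vf L' F) g = fderiv ℝ (fderiv ℝ (cE F)) (co g) (L (co g)) (L' (co g)) +
      fderiv ℝ (cE F) (co g) (L' (L (co g))) := by
  have h1 : cE (vf L' F) =ᶠ[𝓝 (co g)] fun x => fderiv ℝ (cE F) x (L' x) :=
    cE_ev (F := vf L' F) (f := fun x => fderiv ℝ (cE F) x (L' x)) (fun _ => rfl) g
  have h2 : DifferentiableAt ℝ (fderiv ℝ (cE F)) (co g) :=
    ((contDiffOn_fderiv hF).contDiffAt (U_mem_nhds g)).differentiableAt (by simp)
  rw [vf, h1.fderiv_eq, (h2.hasFDerivAt.clm_apply L'.hasFDerivAt).fderiv]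
  simp [add_comm]

lemma vf_comm {F : G k → ℂ} (hF : Sm F) (L L' : E k →L[ℝ] E k) (g : G k) :
    vf L (vf L' F) g - vf L' (vf L F) g =
      fderiv ℝ (cE F) (co g) (L' (L (co g)) - L (L' (co g))) := by
  have hs : IsSymmSndFDerivAt ℝ (cE F) (co g) := (sm_at hF g).isSymmSndFDerivAt
    (by rw [minSmoothness_of_isRCLikeNormedField]; exact WithTop.coe_le_coe.2 le_top)
  rw [vf_vf hF, vf_vf hF, hs.eq (L (co g)) (L' (co g)), map_sub]
  ring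

/-! ### Smoothness -/

theorem cont : ∀ (k : ℕ) (F : G k → ℂ), Sm F → Continuous F := fun _ F hF => by
  have : F = fun g => cE F (co g) := by ext g; simp
  rw [this]
  exact continuous_iff_continuousAt.2 fun g =>
    ContinuousAt.comp (f := co) (sm_at hF g).continuousAt continuous_co.continuousAt

theorem const : ∀ (k : ℕ) (c : ℂ), Sm fun _ : G k => c := fun _ _ => contDiffOn_const

theorem add : ∀ (k : ℕ) (F F' : G k → ℂ), Sm F → Sm F' → Sm (F + F') := fun _ _ _ hF hF' =>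
  ContDiffOn.add hF hF'

theorem smul : ∀ (k : ℕ) (c : ℂ) (F : G k → ℂ), Sm F → Sm (c • F) := fun _ c _ hF =>
  ContDiffOn.const_smul c hF

theorem mul : ∀ (k : ℕ) (F F' : G k → ℂ), Sm F → Sm F' → Sm (F * F') := fun _ _ _ hF hF' =>
  ContDiffOn.mul hF hF'

lemma sm_zero : Sm (0 : G k → ℂ) := const k 0

lemma sm_neg {F : G k → ℂ} (hF : Sm F) : Sm (-F) := ContDiffOn.neg hF

lemma sm_sub {F F' : G k → ℂ} (hF : Sm F) (hF' : Sm F') : Sm (F - F') := ContDiffOn.sub hF hF'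

lemma sm_sum {ι : Type*} {s : Finset ι} {F : ι → G k → ℂ} (h : ∀ i ∈ s, Sm (F i)) :
    Sm (∑ i ∈ s, F i) :=
  Finset.sum_induction F Sm (add k) sm_zero h

lemma contDiff_det {X : Type*} [NormedAddCommGroup X] [NormedSpace ℝ X] {M : X → Mat k}
    (h : ∀ i j, ContDiff ℝ ∞ fun x => M x i j) : ContDiff ℝ ∞ fun x => (M x).det := by
  simp only [Matrix.det_apply']
  exact ContDiff.sum fun σ _ => contDiff_const.mul (contDiff_prod fun i _ => h _ _)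

lemma contDiff_coord (i j : Fin k) : ContDiff ℝ ∞ fun x : E k => x i j := by fun_prop

theorem entry : ∀ (k : ℕ) (i j : Fin k), Sm (fun g : G k => ((g.val i j : ℝ) : ℂ)) ∧
    Sm fun g : G k => (((g⁻¹).val i j : ℝ) : ℂ) := fun k i j => by
  refine ⟨sm_of_eq (f := fun x => ((x i j : ℝ) : ℂ))
    (Complex.ofRealCLM.contDiff.comp (contDiff_coord i j)).contDiffOn fun _ => rfl, ?_⟩
  have h1 : ContDiff ℝ ∞ fun x : E k => (Matrix.of x).det := contDiff_det contDiff_coord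
  have h2 : ContDiff ℝ ∞ fun x : E k => (Matrix.of x).adjugate i j := by
    simp only [Matrix.adjugate_apply]
    refine contDiff_det fun a b => ?_
    by_cases h : a = j
    · simp only [h, Matrix.updateRow_self]; exact contDiff_const
    · simp only [Matrix.updateRow_ne h]; exact contDiff_coord a b
  refine sm_of_eq (f := fun x => ((((Matrix.of x).det)⁻¹ * (Matrix.of x).adjugate i j : ℝ) : ℂ))
    (Complex.ofRealCLM.contDiff.comp_contDiffOn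
      ((h1.contDiffOn.inv fun _ hx => hx).mul h2.contDiffOn)) fun g => ?_
  rw [of_co, Matrix.coe_units_inv, Matrix.inv_def, Ring.inverse_eq_inv', Matrix.smul_apply,
    smul_eq_mul]

theorem ofE : ∀ (k : ℕ) (f : E k → ℂ), ContDiff ℝ ∞ f → Sm (fun g : G k => f (co g)) ∧
    ∀ A g, Ld A (fun g : G k => f (co g)) g = fderiv ℝ f (co g) (fun i j => (A * g.val) i j) :=
  fun _ f hf => by
  have h : Sm (fun g => f (co g)) := sm_of_eq hf.contDiffOn fun _ => rfl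
  refine ⟨h, fun A g => ?_⟩
  rw [ld_eq h, (cE_ev (f := f) (fun _ => rfl) g).fderiv_eq]

theorem tra : ∀ (k : ℕ) (F : G k → ℂ), Sm F → ∀ a b : G k, Sm fun g => F (a * g * b) :=
  fun k F hF a b => by
  refine sm_of_eq (f := fun x => cE F (mE a.val b.val x))
    ((sm_iff.1 hF).comp (mE a.val b.val).contDiff.contDiffOn fun x hx => ?_) fun g => ?_
  · change (Matrix.of (mE a.val b.val x)).det ≠ 0
    rw [of_mE, Matrix.det_mul, Matrix.det_mul]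
    exact mul_ne_zero (mul_ne_zero (det_ne a) hx) (det_ne b)
  · rw [mE_co, cE_co]

lemma sm_rt {F : G k → ℂ} (hF : Sm F) (a : G k) : Sm (rt a F) := by
  have := tra k F hF 1 a
  simp only [one_mul] at this
  exact this

theorem res : ∀ (k : ℕ) (F : G (k + 1) → ℂ), Sm F → Sm fun h : G k => F (up h) := fun k F hF => by
  have h1 : ContDiff ℝ ∞ fun x : E k => (fun i j => blk (Matrix.of x) 0 i j : E (k + 1)) := by
    refine contDiff_pi.2 fun i => contDiff_pi.2 fun j => ?_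
    refine Fin.lastCases ?_ (fun i => ?_) i <;> refine Fin.lastCases ?_ (fun j => ?_) j <;>
      simp only [blk_ll, blk_lc, blk_cl, blk_cc]
    exacts [contDiff_const, contDiff_const, contDiff_const, contDiff_coord i j]
  refine sm_of_eq (f := fun x => cE F fun i j => blk (Matrix.of x) 0 i j)
    ((sm_iff.1 hF).comp h1.contDiffOn fun x hx => ?_) fun g => ?_
  · change (blk (Matrix.of x) 0).det ≠ 0
    rw [det_blk]; exact hx
  · exact (cE_co F (up g)).symm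

theorem rd : ∀ (k : ℕ) (A : Mat k) (F : G k → ℂ), Sm F → Sm (Rd A F) := fun _ A _ hF => by
  rw [rd_vf hF]; exact sm_vf hF _

theorem ld : ∀ (k : ℕ) (A : Mat k) (F : G k → ℂ), Sm F → Sm (Ld A F) := fun _ A _ hF => by
  rw [ld_vf hF]; exact sm_vf hF _

theorem ld_rd : ∀ (k : ℕ) (A : Mat k) (F : G k → ℂ) (g : G k),
    Ld A F g = Rd ((g⁻¹).val * A * g.val) F g := fun _ A F g => by
  refine Filter.EventuallyEq.deriv_eq ?_
  filter_upwards [ev_det A] with t ht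
  rw [mkG_conj g A ht, ← mul_assoc, ← mul_assoc, mul_inv_cancel, one_mul]

theorem rd_rt : ∀ (k : ℕ) (A : Mat k) (a : G k) (F : G k → ℂ),
    Rd A (rt a F) = rt a (Rd ((a⁻¹).val * A * a.val) F) := fun _ A a F => by
  ext g
  refine Filter.EventuallyEq.deriv_eq ?_
  filter_upwards [ev_det A] with t ht
  rw [mkG_conj a A ht, rt]
  congr 1
  group

theorem rd_add : ∀ (k : ℕ) (A : Mat k) (F F' : G k → ℂ), Sm F → Sm F' →
    Rd A (F + F') = Rd A F + Rd A F' := fun _ A _ _ hF hF' => by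
  ext g
  exact ((hasDerivAt_rd hF A g).add (hasDerivAt_rd hF' A g)).deriv

theorem rd_smul : ∀ (k : ℕ) (A : Mat k) (c : ℂ) (F : G k → ℂ), Rd A (c • F) = c • Rd A F :=
  fun _ A c F => by
  ext g
  exact deriv_const_mul_field c

theorem rd_mul : ∀ (k : ℕ) (A : Mat k) (F F' : G k → ℂ), Sm F → Sm F' →
    Rd A (F * F') = Rd A F * F' + F * Rd A F' := fun _ A F F' hF hF' => by
  ext g
  have := ((hasDerivAt_rd hF A g).mul (hasDerivAt_rd hF' A g)).deriv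
  simp only [zero_smul, add_zero, mkG_one, mul_one] at this
  exact this

theorem curve : ∀ (k : ℕ) (F : G k → ℂ), Sm F → ∀ (c : ℝ → G k) (V : E k) (t : ℝ),
    HasDerivAt (fun t => co (c t)) V t →
    HasDerivAt (fun t => F (c t)) (Rd (((c t)⁻¹).val * Matrix.of V) F (c t)) t :=
  fun _ F hF c V t hc => by
  rw [rd_eq hF, ← Matrix.mul_assoc, ← Units.val_mul, mul_inv_cancel, Units.val_one, Matrix.one_mul]
  have := (sm_diff hF (c t)).hasFDerivAt.comp_hasDerivAt t hc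
  simpa [Function.comp_def] using this

theorem comm : ∀ (k : ℕ) (A B : Mat k) (F : G k → ℂ), Sm F →
    Rd A (Rd B F) - Rd B (Rd A F) = Rd (A * B - B * A) F := fun k A B F hF => by
  ext g
  rw [rd_vf (rd k B F hF), rd_vf (rd k A F hF), rd_vf hF, rd_vf hF, Pi.sub_apply, vf_comm hF,
    rd_eq hF]
  congr 1
  ext i j
  simp only [mE_apply, Pi.sub_apply, Matrix.one_mul, Matrix.mul_sub, Matrix.sub_apply, of_co,
    ← Matrix.mul_assoc]
  rfl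

theorem rd_ld : ∀ (k : ℕ) (A B : Mat k) (F : G k → ℂ), Sm F → Rd A (Ld B F) = Ld B (Rd A F) :=
  fun k A B F hF => by
  ext g
  rw [rd_vf (ld k B F hF), ld_vf (rd k A F hF), rd_vf hF, ld_vf hF, ← sub_eq_zero, vf_comm hF]
  have : mE B 1 (mE 1 A (co g)) = mE 1 A (mE B 1 (co g)) := by
    apply Matrix.of.injective
    simp only [of_mE, Matrix.one_mul, Matrix.mul_one, Matrix.mul_assoc]
  rw [this, sub_self, map_zero]

theorem supp : ∀ (k : ℕ) (A : Mat k) (f : G k → ℂ), tsupport (Ld A f) ⊆ tsupport f :=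
  fun _ A f => by
  refine closure_minimal (fun g hg => ?_) (isClosed_tsupport f)
  by_contra h
  apply hg
  have h1 : Tendsto (fun t : ℝ => mkG (1 + t • A) * g) (𝓝 0) (𝓝 g) := by
    simpa using (tendsto_line A).mul_const g
  have h2 : (fun t : ℝ => f (mkG (1 + t • A) * g)) =ᶠ[𝓝 0] fun _ => 0 :=
    h1.eventually (notMem_tsupport_iff_eventuallyEq.1 h)
  rw [Ld, h2.deriv_eq, deriv_const]

/-! ### Linearity -/

lemma rd_zero_fun (A : Mat k) : Rd A (0 : G k → ℂ) = 0 := by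
  ext g; exact deriv_const _ _

lemma rd_sum (A : Mat k) {ι : Type*} {s : Finset ι} {F : ι → G k → ℂ} (h : ∀ i ∈ s, Sm (F i)) :
    Rd A (∑ i ∈ s, F i) = ∑ i ∈ s, Rd A (F i) := by
  classical
  induction s using Finset.induction_on with
  | empty => simp [rd_zero_fun]
  | insert a s ha ih =>
    have h' : ∀ i ∈ s, Sm (F i) := fun i hi => h i (Finset.mem_insert_of_mem hi)
    rw [Finset.sum_insert ha, Finset.sum_insert ha,
      rd_add k A _ _ (h a (Finset.mem_insert_self _ _)) (sm_sum h'), ih h']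

lemma rd_zero_mat (F : G k → ℂ) : Rd 0 F = 0 := by
  ext g
  simp only [Rd, smul_zero, add_zero]
  exact deriv_const _ _

lemma rd_add_mat {F : G k → ℂ} (hF : Sm F) (A B : Mat k) : Rd (A + B) F = Rd A F + Rd B F := by
  ext g
  rw [Pi.add_apply, rd_eq hF, rd_eq hF, rd_eq hF, ← map_add, Matrix.mul_add]
  rfl

lemma rd_sub_mat {F : G k → ℂ} (hF : Sm F) (A B : Mat k) : Rd (A - B) F = Rd A F - Rd B F := by
  ext g
  rw [Pi.sub_apply, rd_eq hF, rd_eq hF, rd_eq hF, ← map_sub, Matrix.mul_sub]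
  rfl

lemma rd_smul_mat {F : G k → ℂ} (hF : Sm F) (c : ℝ) (A : Mat k) :
    Rd (c • A) F = (c : ℂ) • Rd A F := by
  ext g
  rw [Pi.smul_apply, rd_eq hF, rd_eq hF, Matrix.mul_smul, Complex.coe_smul, ← map_smul]
  rfl

lemma rd_sum_mat {F : G k → ℂ} (hF : Sm F) {ι : Type*} (s : Finset ι) (A : ι → Mat k) :
    Rd (∑ i ∈ s, A i) F = ∑ i ∈ s, Rd (A i) F := by
  classical
  induction s using Finset.induction_on with
  | empty => simp [rd_zero_mat]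
  | insert a s ha ih => rw [Finset.sum_insert ha, Finset.sum_insert ha, rd_add_mat hF, ih]

theorem rd_lin : ∀ (k : ℕ) (A : Mat k) (F : G k → ℂ), Sm F →
    Rd A F = ∑ a, ∑ b, ((A a b : ℝ) : ℂ) • Rd (em a b) F := fun _ A F hF => by
  have : A = ∑ a, ∑ b, A a b • em a b := by
    conv_lhs => rw [Matrix.matrix_eq_sum_single A]
    simp only [em, Matrix.smul_single, smul_eq_mul, mul_one]
  conv_lhs => rw [this]
  simp only [rd_sum_mat hF, rd_smul_mat hF]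

lemma rt_sum (a : G k) {ι : Type*} (s : Finset ι) (F : ι → G k → ℂ) :
    rt a (∑ i ∈ s, F i) = ∑ i ∈ s, rt a (F i) := by
  ext g; simp [rt, Finset.sum_apply]

lemma sm_rw {F : G k → ℂ} (hF : Sm F) (l : List (Fin k × Fin k)) : Sm (Rw l F) := by
  induction l with
  | nil => exact hF
  | cons x l ih => exact rd k _ _ ih

lemma rw_cons (x : Fin k × Fin k) (l : List (Fin k × Fin k)) (F : G k → ℂ) :
    Rw (x :: l) F = Rd (em x.1 x.2) (Rw l F) := rfl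

lemma conj_em (P Q : Mat k) (i j c d : Fin k) : (P * em i j * Q) c d = P c i * Q j d := by
  rw [em, Matrix.mul_apply, Finset.sum_eq_single j]
  · rw [Matrix.mul_single_apply_same, mul_one]
  · intro b _ hb
    rw [Matrix.mul_single_apply_of_ne _ _ _ _ _ hb, zero_mul]
  · simp

lemma rd_em_rt {F : G k → ℂ} (hF : Sm F) (a : G k) (i j : Fin k) :
    Rd (em i j) (rt a F) =
      rt a (∑ c, ∑ d, ((((a⁻¹).val c i : ℝ) : ℂ) * ((a.val j d : ℝ) : ℂ)) • Rd (em c d) F) := by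
  rw [rd_rt, rd_lin k _ F hF]
  simp only [conj_em, Complex.ofReal_mul]

theorem adj : ∀ (k : ℕ) (l : List (Fin k × Fin k)), ∃ (S : Finset (List (Fin k × Fin k)))
    (q : List (Fin k × Fin k) → G k → ℂ), l ∈ S ∧ (∀ l' ∈ S, l'.length = l.length) ∧
    (∀ l', Continuous (q l')) ∧ (∀ l', q l' 1 = if l' = l then 1 else 0) ∧
    ∀ F, Sm F → ∀ a, Rw l (rt a F) = rt a (∑ l' ∈ S, q l' a • Rw l' F) := fun k l => by
  induction l with
  | nil =>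
    refine ⟨{[]}, fun l' _ => if l' = [] then 1 else 0, by simp, by simp,
      fun _ => continuous_const, fun _ => rfl, fun F _ a => ?_⟩
    simp [Rw]
  | cons x l ih =>
    obtain ⟨S, q, h1, h2, h3, h4, h5⟩ := ih
    refine ⟨(Finset.univ ×ˢ S).image fun p : (Fin k × Fin k) × List (Fin k × Fin k) => p.1 :: p.2,
      fun l' a => List.casesOn l' 0 fun y l'' =>
        (((a⁻¹).val y.1 x.1 : ℝ) : ℂ) * ((a.val x.2 y.2 : ℝ) : ℂ) * q l'' a,
      Finset.mem_image.2 ⟨(x, l), by simp [h1], rfl⟩, ?_, ?_, ?_, fun F hF a => ?_⟩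
    · intro l' hl'
      obtain ⟨p, hp, rfl⟩ := Finset.mem_image.1 hl'
      simp [h2 p.2 (Finset.mem_product.1 hp).2]
    · intro l'
      cases l' with
      | nil => exact continuous_const
      | cons y l'' =>
        exact ((cont k _ (entry k y.1 x.1).2).mul (cont k _ (entry k x.2 y.2).1)).mul (h3 l'')
    · intro l'
      cases l' with
      | nil => simp
      | cons y l'' =>
        obtain ⟨x1, x2⟩ := x
        obtain ⟨y1, y2⟩ := y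
        simp only [inv_one, Units.val_one, h4, Matrix.one_apply, List.cons.injEq, Prod.mk.injEq]
        simp only [@eq_comm _ y2 x2]
        by_cases e1 : y1 = x1 <;> by_cases e2 : x2 = y2 <;> by_cases e3 : l'' = l <;>
          simp [e1, e2, e3]
    · have hs : ∀ l' ∈ S, Sm (q l' a • Rw l' F) := fun l' _ => smul k _ _ (sm_rw hF l')
      rw [rw_cons, h5 F hF a, rd_em_rt (sm_sum hs), Finset.sum_image, Finset.sum_product,
        Fintype.sum_prod_type]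
      · congr 1
        refine Finset.sum_congr rfl fun c _ => Finset.sum_congr rfl fun d _ => ?_
        rw [rd_sum _ hs, Finset.smul_sum]
        refine Finset.sum_congr rfl fun l' _ => ?_
        rw [rd_smul, smul_smul, rw_cons]
      · intro p _ p' _ h
        exact Prod.ext (List.cons.inj h).1 (List.cons.inj h).2

/-! ### The module structure -/

lemma em_mul (a b c d : Fin k) : em a b * em c d = if b = c then em a d else 0 := by
  split_ifs with h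
  · subst h; rw [em, em, Matrix.single_mul_single_same, mul_one, em]
  · exact Matrix.single_mul_single_of_ne _ _ _ _ h _

theorem mod : ∀ (k : ℕ) (V : Submodule ℂ (G k → ℂ)), (∀ w ∈ V, Sm w) →
    (∀ a b, ∀ w ∈ V, Rd (em a b) w ∈ V) → ∃ e : Fin k → Fin k → Module.End ℂ V, Comm 1 e ∧
      (∀ a b w, (e a b w : G k → ℂ) = Rd (em a b) w) ∧ (∀ l w, (ew e l w : G k → ℂ) = Rw l w) ∧
      ∀ m w, (egel e m w : G k → ℂ) = Gel m w := fun k V hV hR => by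
  let e : Fin k → Fin k → Module.End ℂ V := fun a b =>
    { toFun := fun w => ⟨Rd (em a b) w, hR a b w w.2⟩
      map_add' := fun w w' => Subtype.ext (rd_add k _ _ _ (hV _ w.2) (hV _ w'.2))
      map_smul' := fun c w => Subtype.ext (rd_smul k _ c w) }
  have he : ∀ a b (w : V), (e a b w : G k → ℂ) = Rd (em a b) w := fun _ _ _ => rfl
  refine ⟨e, fun a b c d => ?_, he, fun l w => ?_, fun m w => ?_⟩
  · ext1 w
    apply Subtype.ext
    have := comm k (em a b) (em c d) w (hV _ w.2)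
    rw [rd_sub_mat (hV _ w.2), em_mul, em_mul] at this
    simp only [one_smul, LinearMap.sub_apply, Module.End.mul_apply, Submodule.coe_sub, he, this]
    split_ifs <;> simp [he, rd_zero_mat]
  · induction l with
    | nil => rfl
    | cons x l ih =>
      rw [rw_cons, ← ih, ← he]
      simp [ew]
  · have : ∀ m i j, (epw e m i j w : G k → ℂ) = gpw w m i j := by
      intro m
      induction m with
      | zero => intro i j; simp only [epw, gpw]; split_ifs <;> rfl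
      | succ m ih =>
        intro i j
        simp only [epw, gpw, LinearMap.sum_apply, Submodule.coe_sum, Module.End.mul_apply, he, ih]
    simp only [egel, Gel, LinearMap.sum_apply, Submodule.coe_sum, this]

section alg
variable {n : ℕ} {M : Type} [AddCommGroup M] [Module ℂ M] {e : Fin n → Fin n → Module.End ℂ M}

lemma comm_epw (he : Comm 1 e) (a b : Fin n) (m : ℕ) : ∀ i j,
    e a b * epw e m i j - epw e m i j * e a b =
      (if b = i then epw e m a j else 0) - (if j = a then epw e m i b else 0) := by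
  induction m with
  | zero =>
    intro i j
    simp only [epw]
    simp only [@eq_comm _ i b, @eq_comm _ a j]
    have : (e a b * if i = j then 1 else 0) - (if i = j then 1 else 0) * e a b = 0 := by
      split_ifs <;> simp
    rw [this]
    split_ifs <;> simp
  | succ m ih =>
    intro i j
    have h : ∀ l, e a b * (e i l * epw e m l j) - e i l * epw e m l j * e a b =
        ((if b = i then e a l * epw e m l j else 0) - (if l = a then e i b * epw e m l j else 0)) +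
          ((if b = l then e i l * epw e m a j else 0) -
            (if j = a then e i l * epw e m l b else 0)) := by
      intro l
      have h1 := he a b i l
      rw [one_smul] at h1
      calc _ = (e a b * e i l - e i l * e a b) * epw e m l j +
            e i l * (e a b * epw e m l j - epw e m l j * e a b) := by noncomm_ring
        _ = _ := by
          rw [h1, ih, sub_mul, mul_sub]
          simp only [ite_mul, mul_ite, zero_mul, mul_zero]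
    simp only [epw]
    rw [Finset.mul_sum, Finset.sum_mul, ← Finset.sum_sub_distrib]
    simp only [h, Finset.sum_add_distrib, Finset.sum_sub_distrib, Finset.sum_ite_eq,
      Finset.sum_ite_eq', Finset.mem_univ, if_true, Finset.sum_ite_irrel, Finset.sum_const_zero]
    abel

lemma comm_egel (he : Comm 1 e) (a b : Fin n) (m : ℕ) : egel e m * e a b = e a b * egel e m := by
  rw [eq_comm, ← sub_eq_zero, egel, Finset.mul_sum, Finset.sum_mul, ← Finset.sum_sub_distrib]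
  simp only [comm_epw he, Finset.sum_sub_distrib, Finset.sum_ite_eq, Finset.sum_ite_eq',
    Finset.mem_univ, if_true, sub_self]

lemma epw_rho (ρ : Module.End ℂ M) (h h' : Matrix (Fin n) (Fin n) ℂ) (hh : h' * h = 1)
    (hr : ∀ i l, e i l * ρ = ρ * ∑ c, ∑ d, (h' c i * h l d) • e c d) (m : ℕ) : ∀ i j,
    epw e m i j * ρ = ρ * ∑ c, ∑ d, (h' c i * h j d) • epw e m c d := by
  have h1 : ∀ c d, ∑ l, h' c l * h l d = if c = d then 1 else 0 := fun c d => by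
    rw [← Matrix.mul_apply, hh, Matrix.one_apply]
  have h2 : ∀ c d, ∑ l, h c l * h' l d = if c = d then 1 else 0 := fun c d => by
    rw [← Matrix.mul_apply, mul_eq_one_comm.1 hh, Matrix.one_apply]
  induction m with
  | zero =>
    intro i j
    simp only [epw, smul_ite, smul_zero, Finset.sum_ite_eq, Finset.mem_univ, if_true]
    rw [← Finset.sum_smul]
    simp only [mul_comm (h' _ i), h2]
    by_cases e1 : i = j <;> simp [e1, eq_comm]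
  | succ m ih =>
    intro i j
    simp only [epw]
    rw [Finset.sum_mul]
    simp only [mul_assoc, ih]
    simp only [← mul_assoc, hr]
    simp only [mul_assoc]
    rw [← Finset.mul_sum]
    congr 1
    have h3 : ∀ l, (∑ c, ∑ d, (h' c i * h l d) • e c d) * ∑ c, ∑ d, (h' c l * h j d) • epw e m c d =
        ∑ c, ∑ d, ∑ c', ∑ d', ((h' c i * h j d') * (h' c' l * h l d)) • (e c d * epw e m c' d') := by
      intro l
      simp only [Finset.sum_mul]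
      simp only [Finset.mul_sum, smul_mul_smul_comm]
      refine Finset.sum_congr rfl fun c _ => Finset.sum_congr rfl fun d _ =>
        Finset.sum_congr rfl fun c' _ => Finset.sum_congr rfl fun d' _ => ?_
      congr 1; ring
    simp only [h3]
    rw [Finset.sum_comm]
    refine Finset.sum_congr rfl fun c _ => ?_
    rw [Finset.sum_comm]
    have h4 : ∀ d, ∑ l, ∑ c', ∑ d', ((h' c i * h j d') * (h' c' l * h l d)) •
        (e c d * epw e m c' d') = ∑ d', (h' c i * h j d') • (e c d * epw e m d d') := by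
      intro d
      rw [Finset.sum_comm]
      have h5 : ∀ c', ∑ l, ∑ d', ((h' c i * h j d') * (h' c' l * h l d)) • (e c d * epw e m c' d') =
          if c' = d then ∑ d', (h' c i * h j d') • (e c d * epw e m c' d') else 0 := by
        intro c'
        rw [Finset.sum_comm]
        simp only [← Finset.sum_smul, ← Finset.mul_sum, h1]
        split_ifs <;> simp
      simp only [h5, Finset.sum_ite_eq', Finset.mem_univ, if_true]
    simp only [h4]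
    rw [Finset.sum_comm]
    simp only [Finset.smul_sum]

lemma egel_rho (ρ : Module.End ℂ M) (h h' : Matrix (Fin n) (Fin n) ℂ) (hh : h' * h = 1)
    (hr : ∀ i l, e i l * ρ = ρ * ∑ c, ∑ d, (h' c i * h l d) • e c d) (m : ℕ) :
    egel e m * ρ = ρ * egel e m := by
  have h1 : ∀ c d, ∑ l, h' c l * h l d = if c = d then 1 else 0 := fun c d => by
    rw [← Matrix.mul_apply, hh, Matrix.one_apply]
  rw [egel, Finset.sum_mul]
  simp only [epw_rho ρ h h' hh hr]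
  rw [← Finset.mul_sum, Finset.sum_comm]
  congr 1
  refine Finset.sum_congr rfl fun c _ => ?_
  rw [Finset.sum_comm]
  simp only [← Finset.sum_smul, h1, ite_smul, one_smul, zero_smul, Finset.sum_ite_eq,
    Finset.mem_univ, if_true]

end alg

/-- the space of smooth functions -/
def SmS (k : ℕ) : Submodule ℂ (G k → ℂ) where
  carrier := {F | Sm F}
  add_mem' := fun h h' => add k _ _ h h'
  zero_mem' := sm_zero
  smul_mem' := fun c _ h => smul k c _ h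

lemma sm_gel {F : G k → ℂ} (hF : Sm F) (m : ℕ) : Sm (Gel m F) := by
  obtain ⟨e, -, -, -, h⟩ := mod k (SmS k) (fun _ h => h) fun _ _ w hw => rd k _ w hw
  have := h m ⟨F, hF⟩
  rw [← show _ = Gel m F from this]
  exact (egel e m ⟨F, hF⟩).2

theorem gel_rt : ∀ (k : ℕ) (F : G k → ℂ), Sm F → ∀ m a, Gel m (rt a F) = rt a (Gel m F) :=
  fun k F hF m a => by
  obtain ⟨e, -, h1, -, h2⟩ := mod k (SmS k) (fun _ h => h) fun _ _ w hw => rd k _ w hw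
  let ρ : Module.End ℂ (SmS k) :=
    { toFun := fun w => ⟨rt a w, sm_rt w.2 a⟩
      map_add' := fun _ _ => rfl
      map_smul' := fun _ _ => rfl }
  have hρ : ∀ w : SmS k, (ρ w : G k → ℂ) = rt a w := fun _ => rfl
  have h3 := egel_rho (e := e) ρ (a.val.map ((↑) : ℝ → ℂ)) ((a⁻¹).val.map ((↑) : ℝ → ℂ)) ?_ ?_ m
  · have h4 := congrArg (fun T : Module.End ℂ (SmS k) => (T ⟨F, hF⟩ : G k → ℂ)) h3
    simpa only [Module.End.mul_apply, h2, hρ] using h4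
  · have := Matrix.map_mul (L := (a⁻¹).val) (M := a.val) (f := Complex.ofRealHom)
    rw [← Units.val_mul, inv_mul_cancel, Units.val_one,
      Matrix.map_one _ (map_zero _) (map_one _)] at this
    exact this.symm
  · intro i l
    ext1 w
    apply Subtype.ext
    simp only [Module.End.mul_apply, h1, hρ, LinearMap.sum_apply, Submodule.coe_sum,
      LinearMap.smul_apply, Submodule.coe_smul, Matrix.map_apply]
    exact rd_em_rt w.2 a i l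

theorem gel_rd : ∀ (k : ℕ) (F : G k → ℂ), Sm F → ∀ m A, Gel m (Rd A F) = Rd A (Gel m F) :=
  fun k F hF m A => by
  obtain ⟨e, hc, h1, -, h2⟩ := mod k (SmS k) (fun _ h => h) fun _ _ w hw => rd k _ w hw
  have h3 : egel e m * ∑ a, ∑ b, ((A a b : ℝ) : ℂ) • e a b =
      (∑ a, ∑ b, ((A a b : ℝ) : ℂ) • e a b) * egel e m := by
    simp only [Finset.mul_sum, Finset.sum_mul, mul_smul_comm, smul_mul_assoc, comm_egel hc]
  have h4 : ∀ w : SmS k, ((∑ a, ∑ b, ((A a b : ℝ) : ℂ) • e a b) w : G k → ℂ) = Rd A w := by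
    intro w
    rw [rd_lin k A w w.2]
    simp only [h1, LinearMap.sum_apply, Submodule.coe_sum, LinearMap.smul_apply, Submodule.coe_smul]
  have h5 := congrArg (fun T : Module.End ℂ (SmS k) => (T ⟨F, hF⟩ : G k → ℂ)) h3
  simpa only [Module.End.mul_apply, h2, h4] using h5

end Pool.Agent.Lib.MP_fa98d2_nt.D.Calc
end
end
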