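import Pool.Agent.Lib.MP_fa98d2_nt.D.Calc

-- part Pool.Agent.Lib.MP_fa98d2_nt.D.RS
section

/-! Rankin-Selberg integrals: Eisenstein form, unfolding, Kirillov form, Dirichlet series. -/

open MeasureTheory Filter Topology Matrix
open scoped ENNReal Real

noncomputable section

namespace Pool.Agent.Lib.MP_fa98d2_nt.D

namespace RS

variable {k N : ℕ}

lemma continuous_vecMul {α : Type*} [TopologicalSpace α] (x : Fin k → ℝ) {A : α → Mat k}
    (hA : Continuous A) : Continuous fun a => x ᵥ* A a :=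
  continuous_const.matrix_vecMul hA

lemma measurable_Th {α : Type*} [TopologicalSpace α] [MeasurableSpace α] [OpensMeasurableSpace α]
    {Φ : (Fin k → ℝ) → ℝ≥0∞} (hΦ : Measurable Φ) {A : α → Mat k} (hA : Continuous A) :
    Measurable fun a => Th Φ (A a) :=
  Measurable.tsum fun _ => hΦ.comp (continuous_vecMul _ hA).measurable

lemma measurable_dtp (s : ℝ) : Measurable fun g : G k => ENNReal.ofReal (dt g ^ s) :=
  (measurable_dt.pow_const s).ennreal_ofReal

lemma measurable_sq {W : G k → ℂ} (hW : Continuous W) : Measurable fun g => ‖W g‖ₑ ^ 2 :=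
  hW.measurable.enorm.pow_const 2

lemma vecMul_inv (γ : GZ k) (z : Fin k → ℤ) : z ᵥ* γ.val ᵥ* (γ⁻¹).val = z := by
  rw [Matrix.vecMul_vecMul, ← Units.val_mul, mul_inv_cancel, Units.val_one, Matrix.vecMul_one]

lemma inv_vecMul (γ : GZ k) (z : Fin k → ℤ) : z ᵥ* (γ⁻¹).val ᵥ* γ.val = z := by
  rw [Matrix.vecMul_vecMul, ← Units.val_mul, inv_mul_cancel, Units.val_one, Matrix.vecMul_one]

lemma vecMul_ne (γ : GZ k) {z : Fin k → ℤ} (hz : z ≠ 0) : z ᵥ* γ.val ≠ 0 := fun h => by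
  have := vecMul_inv γ z
  rw [h, Matrix.zero_vecMul] at this
  exact hz this.symm

/-- right action on the nonzero vectors -/
def actN (γ : GZ k) : {ξ : Fin k → ℤ // ξ ≠ 0} ≃ {ξ : Fin k → ℤ // ξ ≠ 0} where
  toFun ξ := ⟨ξ.1 ᵥ* γ.val, vecMul_ne γ ξ.2⟩
  invFun ξ := ⟨ξ.1 ᵥ* (γ⁻¹).val, vecMul_ne γ⁻¹ ξ.2⟩
  left_inv ξ := Subtype.ext (vecMul_inv γ ξ.1)
  right_inv ξ := Subtype.ext (inv_vecMul γ ξ.1)

lemma prim_vecMul (γ : GZ (k + 1)) (ξ : Prim k) :
    ∃ γ' : GZ (k + 1), γ'.val (Fin.last k) = ξ.1 ᵥ* γ.val := by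
  refine ⟨pz ξ * γ, ?_⟩
  rw [← pz_row]
  ext j
  simp [Matrix.mul_apply, Matrix.vecMul, dotProduct]

/-- right action on the primitive vectors -/
def actP (γ : GZ (k + 1)) : Prim k ≃ Prim k where
  toFun ξ := ⟨ξ.1 ᵥ* γ.val, prim_vecMul γ ξ⟩
  invFun ξ := ⟨ξ.1 ᵥ* (γ⁻¹).val, prim_vecMul γ⁻¹ ξ⟩
  left_inv ξ := Subtype.ext (vecMul_inv γ ξ.1)
  right_inv ξ := Subtype.ext (inv_vecMul γ ξ.1)

lemma zv_iz_mul (z : Fin k → ℤ) (γ : GZ k) (g : G k) :
    zv z ᵥ* (iz γ * g).val = zv (z ᵥ* γ.val) ᵥ* g.val := by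
  rw [Units.val_mul, ← Matrix.vecMul_vecMul, zv_vecMul]

lemma Th_iz (Φ : (Fin k → ℝ) → ℝ≥0∞) (γ : GZ k) (g : G k) :
    Th Φ (iz γ * g).val = Th Φ g.val := by
  unfold Th
  simp only [zv_iz_mul]
  exact (actN γ).tsum_eq fun ξ => Φ (zv ξ.1 ᵥ* g.val)

/-- the integrand of `JJ` -/
def Ps (s : ℝ) (Φ : (Fin k → ℝ) → ℝ≥0∞) (F : G k → ℂ) (g : G k) : ℝ≥0∞ :=
  ‖F g‖ₑ ^ 2 * (ENNReal.ofReal (dt g ^ s) * Th Φ g.val)

lemma measurable_Ps (s : ℝ) {Φ : (Fin k → ℝ) → ℝ≥0∞} (hΦ : Measurable Φ) {F : G k → ℂ}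
    (hF : Aut F) : Measurable (Ps s Φ F) :=
  (measurable_sq hF.cont).mul ((measurable_dtp s).mul (measurable_Th hΦ Units.continuous_val))

lemma zinv_Ps (s : ℝ) (Φ : (Fin k → ℝ) → ℝ≥0∞) {F : G k → ℂ} (hF : Aut F) : ZInv (Ps s Φ F) :=
  fun γ g => by rw [Ps, Ps, hF.zinv, dt_mul, dt_iz, one_mul, Th_iz]

lemma QI_const_mul (hQ : QuotStmt) (c : ℝ≥0∞) {H : G k → ℝ≥0∞} (hH : Measurable H) :
    QI k (fun g => c * H g) = c * QI k H := by
  unfold QI
  rw [← lintegral_const_mul c (f := fun g => wt g * H g) ((hQ.meas k).mul hH)]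
  exact lintegral_congr fun g => mul_left_comm _ _ _

lemma QI_tsum (hQ : QuotStmt) {ι : Type} [Countable ι] {H : ι → G k → ℝ≥0∞}
    (hH : ∀ i, Measurable (H i)) : QI k (fun g => ∑' i, H i g) = ∑' i, QI k (H i) := by
  unfold QI
  rw [← lintegral_tsum (f := fun i g => wt g * H i g) fun i =>
    ((hQ.meas k).mul (hH i)).aemeasurable]
  exact lintegral_congr fun g => ENNReal.tsum_mul_left.symm

lemma II_const_mul (c : ℝ≥0∞) {H : G k → ℝ≥0∞} (hH : Measurable H) :
    II k (fun g => c * H g) = c * II k H :=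
  lintegral_const_mul c (hH.comp (measurable_sg k))

lemma eis (hQ : QuotStmt) (s : ℝ) {Φ : (Fin (N + 1) → ℝ) → ℝ≥0∞} (hΦ : Measurable Φ)
    {F : G (N + 1) → ℂ} (hF : Aut F) :
    JJ s Φ F = ENNReal.ofReal ((N + 1) / Real.log 2) *
      ∫⁻ g, ‖F g‖ₑ ^ 2 * Eis Φ s g.val ∂nu (N + 1) := by
  refine (hQ.cen N (Ps s Φ F) (measurable_Ps s hΦ hF) (zinv_Ps s Φ hF)).trans ?_
  congr 1
  refine lintegral_congr fun g => ?_
  rw [Eis, ← lintegral_const_mul' _ _ (ENNReal.pow_ne_top enorm_ne_top)]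
  refine setLIntegral_congr_fun measurableSet_Ioi fun t ht => ?_
  have ht' : 0 < t := ht
  simp only [Ps]
  rw [hF.sinv t ht'.ne', dt, val_sc_mul ht'.ne', ENNReal.ofReal_mul (inv_nonneg.2 ht'.le)]
  ring

lemma eism (s : ℝ) {Φ : (Fin k → ℝ) → ℝ≥0∞} (hΦ : Measurable Φ) :
    Measurable fun g : G k => Eis Φ s g.val := by
  have hA : Continuous fun p : G k × ℝ => p.2 • p.1.val :=
    continuous_snd.smul (Units.continuous_val.comp continuous_fst)
  exact Measurable.lintegral_prod_right' (ν := volume.restrict (Set.Ioi (0 : ℝ)))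
    (f := fun p : G k × ℝ =>
      ENNReal.ofReal (p.2⁻¹ * |(p.2 • p.1.val).det| ^ s) * Th Φ (p.2 • p.1.val))
    ((measurable_snd.inv.mul (hA.matrix_det.abs.measurable.pow_const s)).ennreal_ofReal.mul
      (measurable_Th hΦ hA))

lemma conem (i : Fin k) : Measurable (cone i) := by
  have h : ∀ j : Fin k, Measurable fun r : Fin k → ℝ => |r j| := fun j =>
    (measurable_pi_apply j).abs
  refine Measurable.ite ?_ measurable_const measurable_const
  refine (measurableSet_le measurable_const (h i)).inter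
    ((measurableSet_le (h i) measurable_const).inter ?_)
  change MeasurableSet {r : Fin k → ℝ | ∀ j, |r j| ≤ |r i|}
  rw [Set.ofPred_forall]
  exact MeasurableSet.iInter fun j => measurableSet_le (h j) (h i)

/-- the integrand of `Iv` -/
def Hv (s : ℝ) (Φ : (Fin (N + 1) → ℝ) → ℝ≥0∞) (W : G (N + 1) → ℂ) (g : G (N + 1)) : ℝ≥0∞ :=
  ENNReal.ofReal (dt g ^ s) * Φ (lr g) * ‖W g‖ₑ ^ 2

lemma measurable_Hv (s : ℝ) {Φ : (Fin (N + 1) → ℝ) → ℝ≥0∞} (hΦ : Measurable Φ)
    {W : G (N + 1) → ℂ} (hW : Continuous W) : Measurable (Hv s Φ W) :=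
  ((measurable_dtp s).mul (hΦ.comp continuous_lr.measurable)).mul (measurable_sq hW)

/-- the sum over primitive vectors -/
def Pp (s : ℝ) (Φ : (Fin (N + 1) → ℝ) → ℝ≥0∞) (F : G (N + 1) → ℂ) (g : G (N + 1)) : ℝ≥0∞ :=
  ∑' ξ : Prim N, Hv s Φ F (iz (pz ξ) * g)

lemma Pp_eq (s : ℝ) (Φ : (Fin (N + 1) → ℝ) → ℝ≥0∞) {F : G (N + 1) → ℂ} (hF : Aut F)
    (g : G (N + 1)) : Pp s Φ F g =
      ‖F g‖ₑ ^ 2 * (ENNReal.ofReal (dt g ^ s) * ∑' ξ : Prim N, Φ (zv ξ.1 ᵥ* g.val)) := by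
  rw [← ENNReal.tsum_mul_left, ← ENNReal.tsum_mul_left]
  refine tsum_congr fun ξ => ?_
  rw [Hv, hF.zinv, dt_mul, dt_iz, one_mul, lr_pz_mul, mul_comm]

lemma measurable_Pp (s : ℝ) {Φ : (Fin (N + 1) → ℝ) → ℝ≥0∞} (hΦ : Measurable Φ)
    {F : G (N + 1) → ℂ} (hF : Aut F) : Measurable (Pp s Φ F) :=
  Measurable.tsum fun _ => (measurable_Hv s hΦ hF.cont).comp (measurable_const_mul _)

lemma zinv_Pp (s : ℝ) (Φ : (Fin (N + 1) → ℝ) → ℝ≥0∞) {F : G (N + 1) → ℂ} (hF : Aut F) :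
    ZInv (Pp s Φ F) := fun γ g => by
  rw [Pp_eq s Φ hF, Pp_eq s Φ hF, hF.zinv, dt_mul, dt_iz, one_mul]
  simp only [zv_iz_mul]
  congr 2
  exact (actP γ).tsum_eq fun ξ => Φ (zv ξ.1 ᵥ* g.val)

lemma Ps_eq (hP : PrimStmt) (s : ℝ) (Φ : (Fin (N + 1) → ℝ) → ℝ≥0∞) {F : G (N + 1) → ℂ}
    (hF : Aut F) (g : G (N + 1)) : Ps s Φ F g =
      ∑' c : ℕ+, ENNReal.ofReal (((c : ℕ) : ℝ) ^ (-((N + 1) * s))) *
        rt (sc ((c : ℕ) : ℝ)) (Pp s Φ F) g := by
  rw [Ps, Th, hP N fun ξ => Φ (zv ξ ᵥ* g.val), ← ENNReal.tsum_mul_left, ← ENNReal.tsum_mul_left]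
  refine tsum_congr fun c => ?_
  have hc : (0 : ℝ) < ((c : ℕ) : ℝ) := by exact_mod_cast c.pos
  rw [rt, ← sc_comm hc.ne', Pp_eq s Φ hF, hF.sinv _ hc.ne', dt_mul, dt_sc hc.ne', abs_of_pos hc,
    val_sc_mul hc.ne', mul_left_comm (ENNReal.ofReal _), ← mul_assoc (ENNReal.ofReal _),
    ← ENNReal.ofReal_mul (by positivity)]
  have e1 : ((c : ℕ) : ℝ) ^ (-((N + 1) * s)) * (((c : ℕ) : ℝ) ^ (N + 1) * dt g) ^ s = dt g ^ s := by
    rw [Real.mul_rpow (by positivity) (dt_pos g).le, ← Real.rpow_natCast, ← Real.rpow_mul hc.le,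
      ← mul_assoc, ← Real.rpow_add hc]
    push_cast
    rw [neg_add_cancel, Real.rpow_zero, one_mul]
  rw [e1]
  congr 2
  refine tsum_congr fun ξ => ?_
  congr 1
  rw [Matrix.vecMul_smul, ← Matrix.smul_vecMul]
  congr 1
  ext i
  simp [zv]

lemma unf (hP : PrimStmt) (hQ : QuotStmt) (hPar : ParStmt) (s : ℝ)
    {Φ : (Fin (N + 1) → ℝ) → ℝ≥0∞} (hΦ : Measurable Φ) {F : G (N + 1) → ℂ} (hF : Aut F)
    (hC : Cusp F) : JJ s Φ F = zet N s * ∑' m : Fin N → ℕ+, Iv s Φ (Wf (zm m) F) := by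
  have hPI : PInv F := fun h z g => hF.zinv _ g
  have h1 : QI (N + 1) (Pp s Φ F) = PI N (Hv s Φ F) :=
    hQ.unf N (Hv s Φ F) (measurable_Hv s hΦ hF.cont) fun h z g => by
      rw [Hv, Hv, hF.zinv, dt_mul, dt_iz, one_mul, iz_pb, lr_pb_mul]
  have h2 : PI N (Hv s Φ F) = ∑' m : Fin N → ℕ+, Iv s Φ (Wf (zm m) F) :=
    hPar.par N F hF.cont hPI hC (fun g => ENNReal.ofReal (dt g ^ s) * Φ (lr g))
      ((measurable_dtp s).mul (hΦ.comp continuous_lr.measurable)) fun h b hh g => by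
        simp only [dt_mul, dt_pb, hh, one_mul, lr_pb_mul]
  have hm : ∀ a : G (N + 1), Measurable (rt a (Pp s Φ F)) := fun a =>
    (measurable_Pp s hΦ hF).comp (measurable_mul_const a)
  have h3 : JJ s Φ F = QI (N + 1) fun g => ∑' c : ℕ+,
      ENNReal.ofReal (((c : ℕ) : ℝ) ^ (-((N + 1) * s))) * rt (sc ((c : ℕ) : ℝ)) (Pp s Φ F) g :=
    congrArg (QI (N + 1)) (funext (Ps_eq hP s Φ hF))
  rw [h3, QI_tsum hQ fun c => (hm _).const_mul _, zet, ← ENNReal.tsum_mul_right]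
  refine tsum_congr fun c => ?_
  rw [QI_const_mul hQ _ (hm _), hQ.rinv _ _ (measurable_Pp s hΦ hF) (zinv_Pp s Φ hF), h1, h2]

lemma zeta {s : ℝ} (hN : 1 ≤ N) (hs : 1 ≤ s) : 1 ≤ zet N s ∧ zet N s ≤ 2 := by
  constructor
  · refine le_trans ?_ (ENNReal.le_tsum (1 : ℕ+))
    simp
  · have hN' : (1 : ℝ) ≤ N := by exact_mod_cast hN
    calc zet N s ≤ ∑' c : ℕ+, ENNReal.ofReal (1 / ((c : ℕ) : ℝ) ^ 2) := by
          refine ENNReal.tsum_le_tsum fun c => ENNReal.ofReal_le_ofReal ?_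
          have hc : (1 : ℝ) ≤ ((c : ℕ) : ℝ) := by exact_mod_cast c.pos
          rw [one_div, ← Real.rpow_natCast, ← Real.rpow_neg (by linarith)]
          refine Real.rpow_le_rpow_of_exponent_le hc ?_
          push_cast
          nlinarith
      _ ≤ ∑' c : ℕ, ENNReal.ofReal (1 / (c : ℝ) ^ 2) :=
          ENNReal.tsum_comp_le_tsum_of_injective PNat.coe_injective
            fun c : ℕ => ENNReal.ofReal (1 / (c : ℝ) ^ 2)
      _ = ENNReal.ofReal (π ^ 2 / 6) := by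
          rw [← ENNReal.ofReal_tsum_of_nonneg (fun _ => by positivity) hasSum_zeta_two.summable,
            hasSum_zeta_two.tsum_eq]
      _ ≤ 2 := by
          rw [← ENNReal.ofReal_ofNat 2]
          refine ENNReal.ofReal_le_ofReal ?_
          nlinarith [Real.pi_pos, Real.pi_lt_d2]

lemma ik (s : ℝ) {Φ : (Fin (N + 1) → ℝ) → ℝ≥0∞} (hΦ : Measurable Φ) {W : G (N + 1) → ℂ}
    (hW : Continuous W) : Iv s Φ W =
      ∫⁻ r, Φ r * ENNReal.ofReal (|r (Fin.last N)| ^ (s - 1)) * KK s (rt (sr r) W) := by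
  refine (II_succ (measurable_Hv s hΦ hW)).trans ?_
  rw [mR, lintegral_withDensity_eq_lintegral_mul_non_measurable _
    (measurable_pi_apply _).abs.inv.ennreal_ofReal (ae_of_all _ fun _ => ENNReal.ofReal_lt_top)]
  refine lintegral_congr_ae ?_
  filter_upwards [Measure.ae_eval_ne (fun _ : Fin (N + 1) => (volume : Measure ℝ)) (Fin.last N) 0]
    with r hr
  have hr' : 0 < |r (Fin.last N)| := abs_pos.2 hr
  have hm : Measurable fun h : G N =>
      ENNReal.ofReal (dt h ^ (s - 1)) * ‖rt (sr r) W (up h)‖ₑ ^ 2 :=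
    (measurable_dtp _).mul (measurable_sq (hW.comp (continuous_up.mul continuous_const)))
  have hm2 : Measurable fun h : G N => ENNReal.ofReal (dt h)⁻¹ * Hv s Φ W (up h * sr r) :=
    measurable_dt.inv.ennreal_ofReal.mul
      ((measurable_Hv s hΦ hW).comp (continuous_up.mul continuous_const).measurable)
  rw [Pi.mul_apply, KK, ← II_const_mul _ hm, ← II_const_mul _ hm2]
  congr 1
  ext h
  have hh := dt_pos h
  rw [Hv, dt_mul, dt_up, dt_sr hr, lr_up_mul, lr_sr hr, rt, Real.mul_rpow hh.le hr'.le,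
    Real.rpow_sub_one hh.ne', Real.rpow_sub_one hr'.ne', div_eq_mul_inv, div_eq_mul_inv,
    ENNReal.ofReal_mul (by positivity), ENNReal.ofReal_mul (by positivity),
    ENNReal.ofReal_mul (by positivity)]
  ring

lemma kkm (s : ℝ) {W : G (N + 1) → ℂ} (hW : Continuous W) :
    Measurable fun a => KK s (rt a W) :=
  Measurable.lintegral_prod_right' (ν := mX N)
    (f := fun p : G (N + 1) × X N =>
      ENNReal.ofReal (dt (sg N p.2) ^ (s - 1)) * ‖W (up (sg N p.2) * p.1)‖ₑ ^ 2)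
    (((measurable_dtp _).comp ((measurable_sg N).comp measurable_snd)).mul
      ((measurable_sq hW).comp ((continuous_up.measurable.comp
        ((measurable_sg N).comp measurable_snd)).mul measurable_fst)))

lemma abs_det_perm (σ : Equiv.Perm (Fin k)) : |(σ.permMatrix ℝ).det| = 1 := by
  rw [Matrix.det_permutation]
  rcases Int.units_eq_one_or (Equiv.Perm.sign σ) with h | h <;> simp [h]

lemma val_sw (i : Fin (N + 1)) : (sw i).val = (Equiv.swap i (Fin.last N)).permMatrix ℝ :=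
  val_mkG fun h => by simpa [h] using abs_det_perm (Equiv.swap i (Fin.last N))

lemma cone_sw (i : Fin (N + 1)) (r : Fin (N + 1) → ℝ) :
    cone i (r ᵥ* (sw i).val) = cone (Fin.last N) r := by
  rw [val_sw, Matrix.vecMul_permMatrix, Equiv.symm_swap]
  simp only [cone, Function.comp, Equiv.swap_apply_left]
  refine if_congr (and_congr_right fun _ => and_congr_right fun _ => ?_) rfl rfl
  exact (Equiv.swap i (Fin.last N)).forall_congr_right (q := fun j => |r j| ≤ |r (Fin.last N)|)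

lemma swp (hQ : QuotStmt) (s : ℝ) (i : Fin (N + 1)) {F : G (N + 1) → ℂ} (hF : Aut F) :
    JJ s (cone i) F = JJ s (cone (Fin.last N)) (rt (sw i) F) := by
  refine (hQ.rinv _ (Ps s (cone i) F) (measurable_Ps s (conem i) hF) (zinv_Ps s _ hF)
    (sw i)).symm.trans ?_
  refine congrArg (QI (N + 1)) (funext fun g => ?_)
  have e : dt (sw i) = 1 := by rw [dt, val_sw, abs_det_perm]
  simp only [rt, Ps, dt_mul, e, mul_one, Th, Units.val_mul, ← Matrix.vecMul_vecMul, cone_sw]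

lemma tm_pos (m : Fin N → ℕ+) (i : Fin (N + 1)) : 0 < tm m i :=
  Finset.prod_pos fun j _ => by
    split_ifs
    · exact_mod_cast (m j).pos
    · exact one_pos

lemma tm_last (m : Fin N → ℕ+) : tm m (Fin.last N) = 1 :=
  Finset.prod_eq_one fun j _ => if_neg (by simp)

lemma dtm_pos (m : Fin N → ℕ+) : 0 < dtm m :=
  Finset.prod_pos fun j _ => pow_pos (by exact_mod_cast (m j).pos) _

lemma dl_pos {a : Fin k → ℝ} (ha : ∀ i, 0 < a i) : 0 < dl a :=
  Finset.prod_pos fun i _ => Finset.prod_pos fun j _ => div_pos (ha i) (ha j)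

lemma dt_tm (m : Fin N → ℕ+) : dt (dg (tm m)) = dtm m := by
  rw [dt_dg fun i => (tm_pos m i).ne', abs_of_pos (Finset.prod_pos fun i _ => tm_pos m i)]
  unfold tm dtm
  rw [Finset.prod_comm]
  refine Finset.prod_congr rfl fun j _ => ?_
  rw [Fin.prod_univ_eq_prod_range (fun i => if i ≤ j.val then ((m j : ℕ) : ℝ) else 1) (N + 1),
    ← Finset.prod_filter, Finset.prod_const]
  congr 1
  have : (Finset.range (N + 1)).filter (fun i => i ≤ j.val) = Finset.range (j.val + 1) := by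
    ext i
    have := j.2
    simp only [Finset.mem_filter, Finset.mem_range]
    omega
  rw [this, Finset.card_range]

lemma lr_tm (m : Fin N → ℕ+) (g : G (N + 1)) : lr (dg (tm m) * g) = lr g := by
  ext j
  simp only [lr, Units.val_mul, val_dg fun i => (tm_pos m i).ne', Matrix.diagonal_mul, tm_last,
    one_mul]

lemma dser (hH : HaarStmt) (hW : WhStmt) (s : ℝ) {Φ : (Fin (N + 1) → ℝ) → ℝ≥0∞}
    (hΦ : Measurable Φ) {F : G (N + 1) → ℂ} (hF : Aut F) {c : (Fin N → ℕ+) → ℂ}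
    (hc : ShinF c F) : ∑' m : Fin N → ℕ+, Iv s Φ (Wf (zm m) F) = DS c s * Iv s Φ (W1 F) := by
  have hcont : Continuous (W1 F) := hW.cont N _ F hF.cont
  have hm := measurable_Hv s hΦ hcont
  have hU : UInv (Hv s Φ (W1 F)) := fun u hu g => by
    have e := hW.eqv N (fun _ => 1) F hF.cont (fun γ _ g => hF.zinv γ g) u hu g
    have e2 : ‖W1 F (u * g)‖ₑ = ‖W1 F g‖ₑ := by
      rw [← ofReal_norm, ← ofReal_norm, W1, e, norm_mul, psi, norm_ee, one_mul]
    rw [Hv, Hv, dt_mul, hu.dt, one_mul, hu.lr_mul, e2]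
  rw [DS, ← ENNReal.tsum_mul_right]
  refine tsum_congr fun m => ?_
  have hd := dl_pos (tm_pos m)
  have hD := dtm_pos m
  have e1 : Hv s Φ (Wf (zm m) F) = fun g =>
      ENNReal.ofReal ((dl (tm m))⁻¹ * (‖c m‖ ^ 2 * dtm m ^ (-s))) *
        Hv s Φ (W1 F) (dg (tm m) * g) := by
    ext g
    have hg := dt_pos g
    have e2 : ‖Wf (zm m) F g‖ₑ ^ 2 =
        ENNReal.ofReal ((dl (tm m))⁻¹ * ‖c m‖ ^ 2) * ‖W1 F (dg (tm m) * g)‖ₑ ^ 2 := by
      rw [hc m g, enorm_mul, mul_pow, ← ofReal_norm (_ * c m),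
        ← ENNReal.ofReal_pow (norm_nonneg _), norm_mul, mul_pow, Complex.norm_real,
        Real.norm_of_nonneg (by positivity), ← Real.rpow_natCast, ← Real.rpow_mul hd.le,
        ← Real.rpow_neg_one]
      norm_num
    have e3 : (dl (tm m))⁻¹ * (‖c m‖ ^ 2 * dtm m ^ (-s)) * (dtm m * dt g) ^ s =
        dt g ^ s * ((dl (tm m))⁻¹ * ‖c m‖ ^ 2) := by
      rw [Real.mul_rpow hD.le hg.le, Real.rpow_neg hD.le]
      have := Real.rpow_pos_of_pos hD s
      field_simp
    rw [Hv, Hv, e2, dt_mul, dt_tm, lr_tm, ← mul_assoc, ← mul_assoc, ← mul_assoc,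
      ← ENNReal.ofReal_mul (by positivity), e3, ENNReal.ofReal_mul (p := dt g ^ s) (by positivity)]
    ring
  change II (N + 1) (Hv s Φ (Wf (zm m) F)) = _ * II (N + 1) (Hv s Φ (W1 F))
  rw [e1, II_const_mul _ (H := fun g => Hv s Φ (W1 F) (dg (tm m) * g))
    (hm.comp (measurable_const_mul _)), hH.iil _ _ hm hU _ (tm_pos m),
    ← mul_assoc, ← ENNReal.ofReal_mul (by positivity)]
  congr 2
  field_simp

end RS

theorem rs (hP : PrimStmt) (hH : HaarStmt) (hQ : QuotStmt) (hW : WhStmt) (hPar : ParStmt) :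
    RSStmt where
  eis _ s _ hΦ _ hF := RS.eis hQ s hΦ hF
  eism _ s _ hΦ := RS.eism s hΦ
  conem _ i := RS.conem i
  unf _ s _ hΦ _ hF hC := RS.unf hP hQ hPar s hΦ hF hC
  zeta _ _ hN hs := RS.zeta hN hs
  ik _ s _ hΦ _ hW := RS.ik s hΦ hW
  kkm _ s _ hW := RS.kkm s hW
  swp _ s i _ hF := RS.swp hQ s i hF
  dser _ s _ hΦ _ hF _ hc := RS.dser hH hW s hΦ hF hc

end Pool.Agent.Lib.MP_fa98d2_nt.D
end
end

-- part Pool.Agent.Lib.MP_fa98d2_nt.D.Class
section

/-!
The space of smooth vectors: closure properties and norm inequalities.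
-/

open MeasureTheory Filter Topology Matrix
open scoped ENNReal Real ContDiff ComplexConjugate

noncomputable section

namespace Pool.Agent.Lib.MP_fa98d2_nt.D

namespace Class

variable {k : ℕ}

/-! ### The unipotent radicals -/

lemma measurable_cb (j : ℕ) : ∀ k, Measurable (cb j k)
  | 0 => measurable_const
  | k + 1 => by
    refine (continuous_nb.measurable.comp (measurable_pi_lambda _ fun i => ?_)).mul
      (continuous_up.measurable.comp ((measurable_cb j k).comp measurable_fst))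
    by_cases h : i.val < j ∧ j ≤ k
    · simp only [if_pos h]
      exact (measurable_pi_apply i).comp measurable_snd
    · simp only [if_neg h]
      exact measurable_const

lemma cb_cpt (j : ℕ) : ∀ k, ∃ K : Set (G k), IsCompact K ∧ ∀ᵐ y ∂cY k, cb j k y ∈ K
  | 0 => ⟨{1}, isCompact_singleton, Eventually.of_forall fun _ => rfl⟩
  | k + 1 => by
    obtain ⟨K, hK, h⟩ := cb_cpt j k
    refine ⟨(fun p : (Fin k → ℝ) × G k => nb p.1 * up p.2) '' (Metric.closedBall 0 1 ×ˢ K),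
      ((isCompact_closedBall _ _).prod hK).image ((continuous_nb.comp continuous_fst).mul
        (continuous_up.comp continuous_snd)), ?_⟩
    have h1 : ∀ᵐ b ∂cub k, b ∈ Set.univ.pi fun _ : Fin k => Set.Ico (0 : ℝ) 1 :=
      ae_restrict_mem (MeasurableSet.univ_pi fun _ => measurableSet_Ico)
    have h2 := (Measure.quasiMeasurePreserving_fst (μ := cY k) (ν := cub k)).ae h
    have h3 := (Measure.quasiMeasurePreserving_snd (μ := cY k) (ν := cub k)).ae h1
    refine (h2.and h3).mono fun y hy => ⟨(fun i => if i.val < j ∧ j ≤ k then y.2 i else 0,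
      cb j k y.1), ⟨?_, hy.1⟩, rfl⟩
    rw [mem_closedBall_zero_iff, pi_norm_le_iff_of_nonneg zero_le_one]
    intro i
    have h4 := hy.2 i (Set.mem_univ i)
    dsimp only
    split_ifs
    · rw [Real.norm_of_nonneg h4.1]; exact h4.2.le
    · simp

lemma integrable_cb {F : G k → ℂ} (hF : Continuous F) (j : ℕ) (g : G k) :
    Integrable (fun y => F (cb j k y * g)) (cY k) := by
  obtain ⟨K, hK, h⟩ := cb_cpt j k
  have hc : Continuous fun u : G k => F (u * g) := hF.comp (continuous_mul_const g)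
  obtain ⟨C, hC⟩ := hK.exists_bound_of_continuousOn hc.continuousOn
  exact Integrable.of_bound (hc.measurable.comp (measurable_cb j k)).aestronglyMeasurable C
    (h.mono fun y hy => hC _ hy)

/-! ### Smooth functions -/

section sm
variable (hC : CalcStmt)
include hC

lemma sm_zero : Sm (0 : G k → ℂ) := hC.const k 0

lemma rd_zero (A : Mat k) : Rd A (0 : G k → ℂ) = 0 := by
  have := hC.rd_smul k A 0 0
  rwa [zero_smul, zero_smul] at this

lemma sm_sum {ι : Type} (S : Finset ι) {F : ι → G k → ℂ} (h : ∀ i ∈ S, Sm (F i)) :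
    Sm (∑ i ∈ S, F i) :=
  Finset.sum_induction _ _ (hC.add k) (sm_zero hC) h

lemma rd_sum (A : Mat k) {ι : Type} (S : Finset ι) {F : ι → G k → ℂ} (h : ∀ i ∈ S, Sm (F i)) :
    Rd A (∑ i ∈ S, F i) = ∑ i ∈ S, Rd A (F i) := by
  classical
  induction S using Finset.induction_on with
  | empty => simpa using rd_zero hC A
  | insert a S ha ih =>
    have h1 := fun i hi => h i (Finset.mem_insert_of_mem hi)
    rw [Finset.sum_insert ha, Finset.sum_insert ha,
      hC.rd_add k A _ _ (h a (Finset.mem_insert_self _ _)) (sm_sum hC S h1), ih h1]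

lemma sm_rt {F : G k → ℂ} (h : Sm F) (a : G k) : Sm (rt a F) := by
  have := hC.tra k F h 1 a
  simp only [one_mul] at this
  exact this

lemma sm_lt {F : G k → ℂ} (h : Sm F) (a : G k) : Sm fun g => F (a * g) := by
  simpa only [mul_one] using hC.tra k F h a 1

lemma sm_rw {F : G k → ℂ} (h : Sm F) : ∀ l, Sm (Rw l F)
  | [] => h
  | _ :: l => hC.rd k _ _ (sm_rw h l)

lemma rw_add {F F' : G k → ℂ} (h : Sm F) (h' : Sm F') : ∀ l, Rw l (F + F') = Rw l F + Rw l F'
  | [] => rfl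
  | x :: l => by
    change Rd _ (Rw l (F + F')) = Rd _ (Rw l F) + Rd _ (Rw l F')
    rw [rw_add h h' l, hC.rd_add k _ _ _ (sm_rw hC h l) (sm_rw hC h' l)]

lemma rw_smul (c : ℂ) (F : G k → ℂ) : ∀ l, Rw l (c • F) = c • Rw l F
  | [] => rfl
  | x :: l => by
    change Rd _ (Rw l (c • F)) = c • Rd _ (Rw l F)
    rw [rw_smul c F l, hC.rd_smul]

lemma sm_gpw {F : G k → ℂ} (h : Sm F) : ∀ m i j, Sm (gpw F m i j)
  | 0, i, j => by
    unfold gpw
    split_ifs
    · exact h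
    · exact sm_zero hC
  | m + 1, i, j => sm_sum hC _ fun l _ => hC.rd k _ _ (sm_gpw h m l j)

lemma gpw_add {F F' : G k → ℂ} (h : Sm F) (h' : Sm F') :
    ∀ m i j, gpw (F + F') m i j = gpw F m i j + gpw F' m i j
  | 0, i, j => by
    unfold gpw
    split_ifs <;> simp
  | m + 1, i, j => by
    simp only [gpw, ← Finset.sum_add_distrib]
    refine Finset.sum_congr rfl fun l _ => ?_
    rw [gpw_add h h' m l j, hC.rd_add k _ _ _ (sm_gpw hC h m l j) (sm_gpw hC h' m l j)]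

lemma gpw_smul (c : ℂ) (F : G k → ℂ) : ∀ m i j, gpw (c • F) m i j = c • gpw F m i j
  | 0, i, j => by
    unfold gpw
    split_ifs <;> simp
  | m + 1, i, j => by
    simp only [gpw, Finset.smul_sum]
    refine Finset.sum_congr rfl fun l _ => ?_
    rw [gpw_smul c F m l j, hC.rd_smul]

lemma gel_add {F F' : G k → ℂ} (h : Sm F) (h' : Sm F') (m : ℕ) :
    Gel m (F + F') = Gel m F + Gel m F' := by
  simp only [Gel, gpw_add hC h h', Finset.sum_add_distrib]

lemma gel_smul (c : ℂ) (F : G k → ℂ) (m : ℕ) : Gel m (c • F) = c • Gel m F := by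
  simp only [Gel, gpw_smul hC, Finset.smul_sum]

end sm

lemma rw_rd (l : List (Fin k × Fin k)) (a b : Fin k) (F : G k → ℂ) :
    Rw l (Rd (em a b) F) = Rw (l ++ [(a, b)]) F := by
  simp [Rw, List.foldr_append]

/-! ### Automorphic functions -/

lemma aut_zero : Aut (0 : G k → ℂ) := ⟨continuous_const, fun _ _ => rfl, fun _ _ _ => rfl⟩

lemma aut_add {F F' : G k → ℂ} (h : Aut F) (h' : Aut F') : Aut (F + F') :=
  ⟨h.cont.add h'.cont, fun γ g => by simp only [Pi.add_apply, h.zinv γ g, h'.zinv γ g],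
    fun t ht g => by simp only [Pi.add_apply, h.sinv t ht g, h'.sinv t ht g]⟩

lemma aut_smul (c : ℂ) {F : G k → ℂ} (h : Aut F) : Aut (c • F) :=
  ⟨h.cont.const_smul c, fun γ g => by simp only [Pi.smul_apply, h.zinv γ g],
    fun t ht g => by simp only [Pi.smul_apply, h.sinv t ht g]⟩

lemma aut_sum {ι : Type} (S : Finset ι) {F : ι → G k → ℂ} (h : ∀ i ∈ S, Aut (F i)) :
    Aut (∑ i ∈ S, F i) :=
  Finset.sum_induction _ _ (fun _ _ => aut_add) aut_zero h

lemma aut_rt {F : G k → ℂ} (h : Aut F) (a : G k) : Aut (rt a F) :=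
  ⟨h.cont.comp (continuous_mul_const a), fun γ g => by simp only [rt, mul_assoc, h.zinv γ],
    fun t ht g => by simp only [rt, mul_assoc, h.sinv t ht]⟩

lemma aut_rd (hC : CalcStmt) {F : G k → ℂ} (hs : Sm F) (h : Aut F) (A : Mat k) : Aut (Rd A F) :=
  ⟨hC.cont k _ (hC.rd k A F hs), fun γ g => by simp only [Rd, mul_assoc, h.zinv γ],
    fun t ht g => by simp only [Rd, mul_assoc, h.sinv t ht]⟩

lemma aut_rw (hC : CalcStmt) {F : G k → ℂ} (hs : Sm F) (h : Aut F) : ∀ l, Aut (Rw l F)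
  | [] => h
  | _ :: l => aut_rd hC (sm_rw hC hs l) (aut_rw hC hs h l) _

lemma aut_conv {f F : G k → ℂ} (hc : Continuous (conv f F)) (h : Aut F) : Aut (conv f F) :=
  ⟨hc, fun γ g => by simp only [conv, mul_assoc, h.zinv γ],
    fun t ht g => by simp only [conv, mul_assoc, h.sinv t ht]⟩

/-! ### Cuspidality -/

lemma cusp_add {F F' : G k → ℂ} (hF : Continuous F) (hF' : Continuous F') (h : Cusp F)
    (h' : Cusp F') : Cusp (F + F') := fun j h0 h1 g => by
  simp only [Pi.add_apply]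
  rw [integral_add (integrable_cb hF j g) (integrable_cb hF' j g), h j h0 h1, h' j h0 h1, add_zero]

lemma cusp_smul (c : ℂ) {F : G k → ℂ} (h : Cusp F) : Cusp (c • F) := fun j h0 h1 g => by
  simp only [Pi.smul_apply]
  rw [integral_smul, h j h0 h1, smul_zero]

lemma cusp_rt {F : G k → ℂ} (h : Cusp F) (a : G k) : Cusp (rt a F) := fun j h0 h1 g => by
  simp only [rt, mul_assoc]
  exact h j h0 h1 _

lemma cusp_rd (hC : CalcStmt) {F : G k → ℂ} (hs : Sm F) (h : Cusp F) (A : Mat k) :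
    Cusp (Rd A F) := fun j h0 h1 g => by
  obtain ⟨K, hK, h2⟩ := cb_cpt j k
  have h3 := (hC.par k (Y k) (cY k) (cb j k) (fun _ => 1) K (measurable_cb j k)
    (integrable_const _) hK (h2.mono fun y hy _ => hy) F hs).2 A
  simp only [one_mul, h j h0 h1] at h3
  rw [← congrFun h3 g]
  exact congrFun (rd_zero hC A) g

lemma integrable_conv {f F : G k → ℂ} (hf : Continuous f) (hs : HasCompactSupport f)
    (hF : Continuous F) (g : G k) : Integrable (fun x => f x * F (g * x)) (mu k) :=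
  (hf.mul (hF.comp (continuous_const_mul g))).integrable_of_hasCompactSupport hs.mul_right

lemma cusp_conv {f F : G k → ℂ} (hf : Continuous f) (hs : HasCompactSupport f)
    (hF : Continuous F) (h : Cusp F) : Cusp (conv f F) := fun j h0 h1 g => by
  obtain ⟨K, hK, h2⟩ := cb_cpt j k
  have hc : Continuous fun p : G k × G k => F (p.1 * g * p.2) := by fun_prop
  obtain ⟨C, hC⟩ := (hK.prod hs).exists_bound_of_continuousOn hc.continuousOn
  have hi : Integrable (Function.uncurry fun (y : Y k) (x : G k) => f x * F (cb j k y * g * x))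
      ((cY k).prod (mu k)) := by
    refine Integrable.mono' (((hf.integrable_of_hasCompactSupport hs).norm.mul_const C).comp_snd _)
      ((hf.measurable.comp measurable_snd).mul (hc.measurable.comp
        (((measurable_cb j k).comp measurable_fst).prodMk measurable_snd))).aestronglyMeasurable ?_
    filter_upwards [(Measure.quasiMeasurePreserving_fst (μ := cY k) (ν := mu k)).ae h2] with p hp
    by_cases h3 : f p.2 = 0
    · simp [Function.uncurry, h3]
    · simp only [Function.uncurry, norm_mul]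
      exact mul_le_mul_of_nonneg_left (hC (_, p.2) ⟨hp, subset_tsupport _ h3⟩) (norm_nonneg _)
  simp only [conv]
  rw [integral_integral_swap hi]
  simp only [integral_const_mul, mul_assoc, h j h0 h1, mul_zero, integral_zero]

/-! ### Hecke operators -/

lemma hk_add {α : ℕ → Fin k → ℂ} {F F' : G k → ℂ} (h : Hk α F) (h' : Hk α F') :
    Hk α (F + F') := fun p hp r hr g => by
  rw [Pi.add_apply, mul_add, ← h p hp r hr, ← h' p hp r hr]
  simp only [Tr, TI, Pi.add_apply, Finset.sum_add_distrib]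

lemma hk_smul {α : ℕ → Fin k → ℂ} (c : ℂ) {F : G k → ℂ} (h : Hk α F) : Hk α (c • F) :=
  fun p hp r hr g => by
  rw [Pi.smul_apply, smul_eq_mul, mul_left_comm, ← h p hp r hr]
  simp only [Tr, TI, Pi.smul_apply, smul_eq_mul, Finset.mul_sum]

lemma hk_rt {α : ℕ → Fin k → ℂ} {F : G k → ℂ} (h : Hk α F) (a : G k) : Hk α (rt a F) :=
  fun p hp r hr g => by
  simp only [rt]
  rw [← h p hp r hr]
  simp only [Tr, TI, rt, mul_assoc]

lemma hk_rd (hC : CalcStmt) {α : ℕ → Fin k → ℂ} {F : G k → ℂ} (hs : Sm F) (h : Hk α F)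
    (A : Mat k) : Hk α (Rd A F) := fun p hp r hr g => by
  have h1 : (∑ I ∈ Finset.powersetCard r Finset.univ, ∑ v ∈ reps p I, fun g => F (hm p I v * g)) =
      ((((p : ℝ) ^ ((r : ℝ) * ((k : ℝ) - r) / 2) : ℝ) : ℂ) * esy (α p) (k - r)) • F := by
    funext g
    rw [Pi.smul_apply, smul_eq_mul, ← h p hp r hr]
    simp only [Tr, TI, Finset.sum_apply]
  have h2 := congrArg (Rd A) h1
  rw [hC.rd_smul, rd_sum hC A _ fun I _ => sm_sum hC _ fun v _ => sm_lt hC hs _] at h2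
  have h3 := congrFun h2 g
  rw [Pi.smul_apply, smul_eq_mul] at h3
  rw [← h3, Finset.sum_apply]
  refine Finset.sum_congr rfl fun I _ => ?_
  rw [rd_sum hC A _ fun v _ => sm_lt hC hs _, Finset.sum_apply]
  simp only [TI, Rd, mul_assoc]

lemma hk_conv {α : ℕ → Fin k → ℂ} {f F : G k → ℂ} (hf : Continuous f) (hs : HasCompactSupport f)
    (hF : Continuous F) (h : Hk α F) : Hk α (conv f F) := fun p hp r hr g => by
  simp only [Tr, TI, conv]
  rw [← integral_const_mul]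
  simp only [← integral_finsetSum _ fun v _ => integrable_conv hf hs hF (hm p _ v * g)]
  rw [← integral_finsetSum _ fun I _ =>
    integrable_finsetSum _ fun v _ => integrable_conv hf hs hF (hm p I v * g)]
  refine integral_congr_ae (Eventually.of_forall fun x => ?_)
  simp only
  rw [mul_left_comm, ← h p hp r hr]
  simp only [Tr, TI, Finset.mul_sum, mul_assoc]

/-! ### The norm -/

lemma meas2 {F : G k → ℂ} (h : Continuous F) : Measurable fun g => ‖F g‖ₑ ^ 2 :=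
  h.measurable.enorm.pow_const 2

lemma n2_par {F F' : G k → ℂ} (h : Continuous F) (h' : Continuous F') :
    N2 (F + F') + N2 (F - F') = 2 * (N2 F + N2 F') := by
  simp only [N2]
  rw [← lintegral_add_left (meas2 (h.add h')), ← lintegral_add_left (meas2 h),
    ← lintegral_const_mul' _ _ ENNReal.ofNat_ne_top]
  refine lintegral_congr fun g => ?_
  simp only [Pi.add_apply, Pi.sub_apply, enorm_eq_nnnorm]
  have := congrArg ENNReal.ofNNReal (parallelogram_law_with_nnnorm ℂ (F g) (F' g))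
  push_cast at this
  exact this

lemma n2_add {F F' : G k → ℂ} (h : Continuous F) (h' : Continuous F') :
    N2 (F + F') ≤ 2 * (N2 F + N2 F') :=
  le_self_add.trans (n2_par h h').le

lemma n2_smul (c : ℂ) (F : G k → ℂ) : N2 (c • F) = ‖c‖ₑ ^ 2 * N2 F := by
  simp only [N2, Pi.smul_apply, enorm_smul, mul_pow]
  exact lintegral_const_mul' _ _ (ENNReal.pow_ne_top enorm_ne_top)

lemma n2_sum {ι : Type} (S : Finset ι) {F : ι → G k → ℂ} (h : ∀ i, Continuous (F i)) :
    N2 (∑ i ∈ S, F i) ≤ 2 ^ S.card * ∑ i ∈ S, N2 (F i) := by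
  classical
  induction S using Finset.induction_on with
  | empty => simp [N2]
  | insert a S ha ih =>
    have h1 : Continuous (∑ i ∈ S, F i) :=
      Finset.sum_induction _ _ (fun _ _ => Continuous.add) continuous_const fun i _ => h i
    rw [Finset.sum_insert ha, Finset.sum_insert ha, Finset.card_insert_of_notMem ha, pow_succ',
      mul_assoc, mul_add]
    refine (n2_add (h a) h1).trans ?_
    rw [← mul_add]
    gcongr
    rw [mul_add]
    exact add_le_add (le_mul_of_one_le_left' (one_le_pow₀ one_le_two)) ih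

lemma n2_rt (hQ : QuotStmt) {F : G k → ℂ} (h : Aut F) (a : G k) : N2 (rt a F) = N2 F :=
  hQ.nuR k (fun g => ‖F g‖ₑ ^ 2) (meas2 h.cont) (fun γ g => by simp only [h.zinv γ g])
    (fun t ht g => by simp only [h.sinv t ht g]) a

lemma cs_lintegral {a b : G k → ℝ≥0∞} (ha : Measurable a) (hb : Measurable b) :
    (∫⁻ x, a x * b x ∂mu k) ^ 2 ≤ (∫⁻ x, a x ∂mu k) * ∫⁻ x, a x * b x ^ 2 ∂mu k := by
  have h2 : (0 : ℝ) ≤ 1 / 2 := by norm_num
  have e : ∀ x : ℝ≥0∞, (x ^ 2) ^ (1 / 2 : ℝ) = x := fun x => by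
    rw [one_div]; exact_mod_cast ENNReal.pow_rpow_inv_natCast two_ne_zero x
  have e' : ∀ x : ℝ≥0∞, (x ^ (1 / 2 : ℝ)) ^ 2 = x := fun x => by
    rw [one_div]; exact_mod_cast ENNReal.rpow_inv_natCast_pow two_ne_zero x
  have h1 := ENNReal.lintegral_mul_norm_pow_le (μ := mu k) ha.aemeasurable
    (ha.mul (hb.pow_const 2)).aemeasurable h2 h2 (by norm_num)
  have h3 : ∀ x, a x ^ (1 / 2 : ℝ) * (a x * b x ^ 2) ^ (1 / 2 : ℝ) = a x * b x := fun x => by
    rw [← ENNReal.mul_rpow_of_nonneg _ _ h2, ← mul_assoc, ← sq, ← mul_pow, e]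
  simp only [Pi.mul_apply, h3] at h1
  rw [← ENNReal.mul_rpow_of_nonneg _ _ h2] at h1
  exact (pow_le_pow_left' h1 2).trans_eq (e' _)

lemma young (hQ : QuotStmt) {f F : G k → ℂ} (hf : Continuous f) (hs : HasCompactSupport f)
    (h : Aut F) : N2 (conv f F) ≤ (∫⁻ x, ‖f x‖ₑ ∂mu k) ^ 2 * N2 F := by
  have : SFinite (nu k) := by unfold nu; infer_instance
  have hA : ∫⁻ x, ‖f x‖ₑ ∂mu k ≠ ⊤ := (hf.integrable_of_hasCompactSupport hs).2.ne
  have hF := h.cont
  have h1 : ∀ g, ‖conv f F g‖ₑ ^ 2 ≤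
      (∫⁻ x, ‖f x‖ₑ ∂mu k) * ∫⁻ x, ‖f x‖ₑ * ‖F (g * x)‖ₑ ^ 2 ∂mu k := fun g => by
    refine (pow_le_pow_left' (enorm_integral_le_lintegral_enorm _) 2).trans ?_
    simp only [enorm_mul]
    exact cs_lintegral hf.measurable.enorm (hF.comp (continuous_const_mul g)).measurable.enorm
  refine (lintegral_mono h1).trans_eq ?_
  have hm : Measurable (Function.uncurry fun g x : G k => ‖f x‖ₑ * ‖F (g * x)‖ₑ ^ 2) :=
    (hf.measurable.comp measurable_snd).enorm.mul
      ((hF.measurable.comp (measurable_fst.mul measurable_snd)).enorm.pow_const 2)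
  rw [lintegral_const_mul' _ _ hA, lintegral_lintegral_swap hm.aemeasurable, sq, mul_assoc,
    ← lintegral_mul_const (N2 F) hf.measurable.enorm]
  refine congrArg _ (lintegral_congr fun x => ?_)
  rw [lintegral_const_mul' _ _ enorm_ne_top]
  exact congrArg _ (n2_rt hQ h x)

lemma strong (hQ : QuotStmt) {F : G k → ℂ} (h : Aut F) (hN : N2 F < ⊤) :
    Tendsto (fun a => N2 (rt a F - F)) (𝓝 1) (𝓝 0) := by
  have hF := h.cont
  have h1 : ∀ a, N2 (rt a F + F) + N2 (rt a F - F) = N2 (F + F) := fun a => by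
    rw [n2_par (aut_rt h a).cont hF, n2_rt hQ h, ← n2_par hF hF]
    simp [N2]
  have h2 : N2 (F + F) ≤ liminf (fun a => N2 (rt a F + F)) (𝓝 1) := by
    refine le_trans (lintegral_mono fun g => ?_)
      (lintegral_liminf_le fun a => meas2 ((aut_rt h a).cont.add hF))
    have h3 : Continuous fun a : G k => ‖(rt a F + F) g‖ₑ ^ 2 :=
      (ENNReal.continuous_pow 2).comp
        ((hF.comp (continuous_const_mul g)).add continuous_const).enorm
    rw [(h3.tendsto 1).liminf_eq]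
    simp [rt]
  have h3 : N2 (F + F) ≠ ⊤ := ((n2_add hF hF).trans_lt
    (ENNReal.mul_lt_top ENNReal.ofNat_lt_top (ENNReal.add_lt_top.2 ⟨hN, hN⟩))).ne
  refine ENNReal.tendsto_nhds_zero.2 fun ε hε => ?_
  rcases eq_or_ne (N2 (F + F)) 0 with h0 | h0
  · exact Eventually.of_forall fun a => (le_add_self.trans ((h1 a).trans h0).le).trans zero_le
  filter_upwards [eventually_lt_of_lt_liminf
    ((ENNReal.sub_lt_self h3 h0 hε.ne').trans_le h2)] with a ha
  by_contra h4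
  exact (le_tsub_add.trans_lt (ENNReal.add_lt_add ha (not_le.1 h4))).ne (h1 a).symm

/-! ### Sobolev norms -/

lemma sob_eq (M : ℕ) (w : G k → ℂ) :
    Sob M w = ∑ l ∈ (List.finite_length_le (Fin k × Fin k) M).toFinset, N2 (Rw l w) := by
  rw [Sob, tsum_eq_sum (s := (List.finite_length_le (Fin k × Fin k) M).toFinset)
    fun l hl => if_neg (by simpa using hl)]
  exact Finset.sum_congr rfl fun l hl => if_pos (by simpa using hl)

lemma le_sob {M : ℕ} (w : G k → ℂ) {l : List (Fin k × Fin k)} (h : l.length ≤ M) :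
    N2 (Rw l w) ≤ Sob M w := by
  refine le_trans ?_ (ENNReal.le_tsum l)
  rw [if_pos h]

lemma n2_rw_rt (hC : CalcStmt) (hQ : QuotStmt) (a : G k) (l : List (Fin k × Fin k)) :
    ∃ C : ℝ≥0∞, C ≠ ⊤ ∧ ∀ w, Sm w → Aut w → N2 (Rw l (rt a w)) ≤ C * Sob l.length w := by
  obtain ⟨S, q, -, h1, -, -, h2⟩ := hC.adj k l
  refine ⟨2 ^ S.card * ∑ l' ∈ S, ‖q l' a‖ₑ ^ 2, ENNReal.mul_ne_top
    (ENNReal.pow_ne_top ENNReal.ofNat_ne_top)
    (ENNReal.sum_ne_top.2 fun _ _ => ENNReal.pow_ne_top enorm_ne_top), fun w hs hw => ?_⟩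
  have h3 := fun l' => aut_smul (q l' a) (aut_rw hC hs hw l')
  rw [h2 w hs, n2_rt hQ (aut_sum S fun l' _ => h3 l'), mul_assoc, Finset.sum_mul]
  refine (n2_sum S fun l' => (h3 l').cont).trans (mul_le_mul_right ?_ _)
  refine Finset.sum_le_sum fun l' hl' => ?_
  rw [n2_smul]
  exact mul_le_mul_right (le_sob w (h1 l' hl').le) _

lemma sob_mono {M M' : ℕ} (h : M ≤ M') (w : G k → ℂ) : Sob M w ≤ Sob M' w := by
  refine ENNReal.tsum_le_tsum fun l => ?_
  by_cases h1 : l.length ≤ M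
  · rw [if_pos h1, if_pos (h1.trans h)]
  · rw [if_neg h1]; exact zero_le

lemma sob_rt (hC : CalcStmt) (hQ : QuotStmt) (M : ℕ) (a : G k) : ∃ C : ℝ≥0∞, C ≠ ⊤ ∧
    ∀ w, Sm w → Aut w → Sob M (rt a w) ≤ C * Sob M w := by
  choose C h1 h2 using n2_rw_rt hC hQ a
  refine ⟨∑ l ∈ (List.finite_length_le (Fin k × Fin k) M).toFinset, C l,
    ENNReal.sum_ne_top.2 fun l _ => h1 l, fun w hs hw => ?_⟩
  rw [sob_eq M (rt a w), Finset.sum_mul]
  refine Finset.sum_le_sum fun l hl => (h2 l w hs hw).trans (mul_le_mul_right (sob_mono ?_ w) _)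
  simpa using hl

lemma sob_fin {w : G k → ℂ} (h : ∀ l, N2 (Rw l w) < ⊤) (M : ℕ) : Sob M w < ⊤ := by
  rw [sob_eq]
  exact ENNReal.sum_lt_top.2 fun l _ => h l

/-! ### The space of smooth vectors -/

variable {α : ℕ → Fin k → ℂ}

lemma inV_add (hC : CalcStmt) {w w' : G k → ℂ} (h : InV α w) (h' : InV α w') : InV α (w + w') :=
  ⟨hC.add k _ _ h.sm h'.sm, aut_add h.aut h'.aut, cusp_add h.aut.cont h'.aut.cont h.cusp h'.cusp,
    hk_add h.hk h'.hk, fun l => by
      rw [rw_add hC h.sm h'.sm]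
      exact (n2_add (aut_rw hC h.sm h.aut l).cont (aut_rw hC h'.sm h'.aut l).cont).trans_lt
        (ENNReal.mul_lt_top ENNReal.ofNat_lt_top (ENNReal.add_lt_top.2 ⟨h.l2 l, h'.l2 l⟩))⟩

lemma inV_smul (hC : CalcStmt) (c : ℂ) {w : G k → ℂ} (h : InV α w) : InV α (c • w) :=
  ⟨hC.smul k c _ h.sm, aut_smul c h.aut, cusp_smul c h.cusp, hk_smul c h.hk, fun l => by
    rw [rw_smul hC, n2_smul]
    exact ENNReal.mul_lt_top (ENNReal.pow_lt_top enorm_lt_top) (h.l2 l)⟩

lemma inV_zero (hC : CalcStmt) : InV α (0 : G k → ℂ) :=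
  ⟨sm_zero hC, aut_zero, fun _ _ _ _ => by simp, fun _ _ _ _ _ => by simp [Tr, TI], fun l => by
    have := rw_smul hC 0 (0 : G k → ℂ) l
    rw [zero_smul, zero_smul] at this
    simp [this, N2]⟩

lemma inV_rt (hC : CalcStmt) (hQ : QuotStmt) {w : G k → ℂ} (h : InV α w) (a : G k) :
    InV α (rt a w) :=
  ⟨sm_rt hC h.sm a, aut_rt h.aut a, cusp_rt h.cusp a, hk_rt h.hk a, fun l => by
    obtain ⟨C, h1, h2⟩ := n2_rw_rt hC hQ a l
    exact (h2 w h.sm h.aut).trans_lt (ENNReal.mul_lt_top h1.lt_top (sob_fin h.l2 _))⟩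

lemma inV_rd (hC : CalcStmt) {w : G k → ℂ} (h : InV α w) (A : Mat k) : InV α (Rd A w) := by
  have h1 : ∀ a b, InV α (Rd (em a b) w) := fun a b =>
    ⟨hC.rd k _ _ h.sm, aut_rd hC h.sm h.aut _, cusp_rd hC h.sm h.cusp _, hk_rd hC h.sm h.hk _,
      fun l => by rw [rw_rd]; exact h.l2 _⟩
  rw [hC.rd_lin k A w h.sm]
  exact Finset.sum_induction _ _ (fun _ _ => inV_add hC) (inV_zero hC) fun a _ =>
    Finset.sum_induction _ _ (fun _ _ => inV_add hC) (inV_zero hC) fun b _ =>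
      inV_smul hC _ (h1 a b)

lemma rw_conv (hC : CalcStmt) {f F : G k → ℂ} (hf : Sm f) (hs : HasCompactSupport f)
    (hF : Continuous F) : ∀ l, ∃ f', Sm f' ∧ HasCompactSupport f' ∧ Rw l (conv f F) = conv f' F
  | [] => ⟨f, hf, hs, rfl⟩
  | x :: l => by
    obtain ⟨f', h1, h2, h3⟩ := rw_conv hC hf hs hF l
    refine ⟨-Ld (em x.1 x.2) f', ?_, HasCompactSupport.neg
      (h2.of_isClosed_subset (isClosed_tsupport _) (hC.supp k _ f')), ?_⟩
    · rw [← neg_one_smul ℂ]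
      exact hC.smul k _ _ (hC.ld k _ _ h1)
    · change Rd _ (Rw l (conv f F)) = _
      rw [h3, (hC.convL k f' F h1 h2 hF).2]

lemma inV_conv (hC : CalcStmt) (hQ : QuotStmt) {F : G k → ℂ} (h1 : Aut F) (h2 : Cusp F)
    (h3 : Hk α F) (h4 : N2 F < ⊤) {f : G k → ℂ} (hf : Sm f) (hs : HasCompactSupport f) :
    InV α (conv f F) := by
  have h5 := (hC.convL k f F hf hs h1.cont).1
  have h6 := hC.cont k f hf
  refine ⟨h5, aut_conv (hC.cont k _ h5) h1, cusp_conv h6 hs h1.cont h2, hk_conv h6 hs h1.cont h3,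
    fun l => ?_⟩
  obtain ⟨f', h7, h8, h9⟩ := rw_conv hC hf hs h1.cont l
  have h10 := hC.cont k f' h7
  rw [h9]
  exact (young hQ h10 h8 h1).trans_lt (ENNReal.mul_lt_top
    (ENNReal.pow_lt_top (h10.integrable_of_hasCompactSupport h8).2) h4)

lemma init (hC : CalcStmt) (hL : Loc0Stmt) {F : G k → ℂ} (hF : Continuous F) (h0 : F ≠ 0) :
    ∃ f, Sm f ∧ HasCompactSupport f ∧ conv f F ≠ 0 := by
  obtain ⟨g, hg⟩ := Function.ne_iff.1 h0
  have hc : Continuous fun x : G k => (F (g * x) * conj (F g)).re := by fun_prop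
  have h1 : 0 < (F (g * 1) * conj (F g)).re := by
    rw [mul_one, Complex.mul_conj, Complex.ofReal_re]
    exact Complex.normSq_pos.2 hg
  have h2 : {x : G k | 0 < (F (g * x) * conj (F g)).re} ∈ 𝓝 (1 : G k) :=
    (isOpen_lt continuous_const hc).mem_nhds h1
  rw [isOpenEmbedding_co.isInducing.nhds_eq_comap, Filter.mem_comap] at h2
  obtain ⟨U, hU, h2⟩ := h2
  obtain ⟨ε, hε, h3⟩ := Metric.mem_nhds_iff.1 hU
  have hk : (0 : ℝ) < 2 * k + 2 := by positivity
  have hδ : 0 < min ε (1 / (2 * k + 2)) := lt_min hε (by positivity)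
  obtain ⟨b1, b2, b3, b4, b5⟩ := hL.bump k (min ε (1 / (2 * k + 2))) hδ
    ((le_div_iff₀ hk).1 (min_le_right _ _))
  refine ⟨_, b1, b2, fun h4 => ?_⟩
  set f : G k → ℂ := tf (min ε (1 / (2 * k + 2)))
  have hf := hC.cont k f b1
  have h5 : Continuous fun x : G k => (f x * F (g * x) * conj (F g)).re := by fun_prop
  have h6 : HasCompactSupport fun x : G k => (f x * F (g * x) * conj (F g)).re :=
    b2.mono fun x hx h => hx (by simp only [h, zero_mul, Complex.zero_re])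
  have h7 := h5.integral_pos_of_hasCompactSupport_nonneg_nonzero (μ := mu k) (x := 1) h6
    (fun x => ?_) ?_
  · have h8 := integral_re ((integrable_conv hf b2 hF g).mul_const (conj (F g)))
    rw [integral_mul_const] at h8
    have h9 : ∫ x, f x * F (g * x) ∂mu k = 0 := congrFun h4 g
    rw [h9, zero_mul, map_zero] at h8
    exact h7.ne' h8
  · by_cases h8 : f x = 0
    · simp [h8]
    obtain ⟨r, h9, -, h10⟩ := b5 x
    have h11 : x ∈ co ⁻¹' U := h3 (by
      rw [Metric.mem_ball, dist_pi_lt_iff hε]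
      intro i
      rw [dist_pi_lt_iff hε]
      intro j
      exact (b3 x h8 i j).trans_le (min_le_left _ _))
    simp only [Pi.zero_apply]
    rw [h10, mul_assoc, Complex.re_ofReal_mul]
    exact mul_nonneg h9 (h2 h11).le
  · rw [b4 1 (fun i j => by simpa using half_pos hδ), one_mul]
    exact h1.ne'

end Class

open _root_.Pool.Agent.Lib.MP_fa98d2_nt.D.Class in
theorem cls (hC : CalcStmt) (hQ : QuotStmt) (_hW : WhStmt) (hL : Loc0Stmt) : ClassStmt where
  sub _ α := ⟨⟨⟨⟨{w | InV α w}, inV_add hC⟩, inV_zero hC⟩, fun c _ => inV_smul hC c⟩,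
    fun _ => Iff.rfl⟩
  subC k α γ := ⟨⟨⟨⟨{w | InV α w ∧ Cen γ w}, fun h h' => ⟨inV_add hC h.1 h'.1, fun m => by
      rw [gel_add hC h.1.sm h'.1.sm, h.2 m, h'.2 m, smul_add]⟩⟩,
      ⟨inV_zero hC, fun m => by
        have := gel_smul hC 0 (0 : G k → ℂ) m
        rw [zero_smul, zero_smul] at this
        rw [this, smul_zero]⟩⟩,
    fun c _ h => ⟨inV_smul hC c h.1, fun m => by rw [gel_smul hC, h.2 m, smul_comm]⟩⟩,
    fun _ => Iff.rfl⟩
  rtV _ _ _ h a := inV_rt hC hQ h a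
  rdV _ _ _ h A := inV_rd hC h A
  rtC k γ w hs h a m := by rw [hC.gel_rt k w hs, h m]; rfl
  rdC k γ w hs h A m := by rw [hC.gel_rd k w hs, h m, hC.rd_smul]
  convV _ _ _ h1 h2 h3 h4 _ hf hs := inV_conv hC hQ h1 h2 h3 h4 hf hs
  convC k γ w hs h f hf hc m := by
    rw [hC.convG k f w hf hc hs, h m]
    funext g
    simp only [conv, Pi.smul_apply, smul_eq_mul, ← integral_const_mul, mul_left_comm]
  young _ _ _ hf hs h := young hQ hf hs h
  init _ _ hF h0 := init hC hL hF h0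
  autR _ _ hs h l := ⟨sm_rw hC hs l, aut_rw hC hs h l⟩
  cuspR _ _ hs h A := cusp_rd hC hs h A
  n2rt _ _ h a := n2_rt hQ h a
  sobFin _ _ _ h M := sob_fin h.l2 M
  sobRt _ M a := sob_rt hC hQ M a
  strong _ _ h hN := strong hQ h hN

end Pool.Agent.Lib.MP_fa98d2_nt.D
end
end
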