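import Pool.Agent.Lib.MP_fa98d2_nt.D.Stmts1

/-! Euler products of Dirichlet series over tuples. -/

open Filter Topology
open scoped ENNReal

noncomputable section

namespace Pool.Agent.Lib.MP_fa98d2_nt.D

namespace Euler

theorem tsum_pi_fin {α : Type} : ∀ (n : ℕ) (f : Fin n → α → ℝ≥0∞),
    ∑' K : Fin n → α, ∏ i, f i (K i) = ∏ i, ∑' a, f i a
  | 0, f => by simp
  | n + 1, f => by
    rw [← (Fin.consEquiv fun _ => α).tsum_eq, ENNReal.tsum_prod', Fin.prod_univ_succ,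
      ← tsum_pi_fin n fun i => f i.succ, ← ENNReal.tsum_mul_right]
    refine tsum_congr fun a => ?_
    rw [← ENNReal.tsum_mul_left]
    exact tsum_congr fun K => by simp [Fin.prod_univ_succ, Fin.consEquiv]

theorem tsum_pi {ι α : Type} [Fintype ι] (f : ι → α → ℝ≥0∞) :
    ∑' K : ι → α, ∏ i, f i (K i) = ∏ i, ∑' a, f i a := by
  have e := (Fintype.equivFin ι).symm
  rw [← e.prod_comp, ← tsum_pi_fin _ fun i => f (e i), ← (e.arrowCongr (Equiv.refl α)).tsum_eq]
  exact tsum_congr fun K => by rw [← e.prod_comp]; simp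

variable {N : ℕ}

theorem prod_ne (m : Fin N → ℕ+) : (∏ i, (m i : ℕ)) ≠ 0 :=
  Finset.prod_ne_zero_iff.2 fun i _ => (m i).ne_zero

theorem pf_sub (m : Fin N → ℕ+) (i : Fin N) :
    (m i : ℕ).primeFactors ⊆ (∏ i, (m i : ℕ)).primeFactors :=
  Nat.primeFactors_mono (Finset.dvd_prod_of_mem _ (Finset.mem_univ i)) (prod_ne m)

theorem fac_zero {m : Fin N → ℕ+} {p : ℕ} (h : p ∉ (∏ i, (m i : ℕ)).primeFactors) (i : Fin N) :
    (m i : ℕ).factorization p = 0 :=
  Finsupp.notMem_support_iff.1 fun h' => h (pf_sub m i h')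

theorem mulf_eq {g : ℕ → (Fin N → ℕ) → ℝ≥0∞} (hg : ∀ p, g p 0 = 1) {m : Fin N → ℕ+}
    {P : Finset ℕ} (h : (∏ i, (m i : ℕ)).primeFactors ⊆ P) :
    mulf g m = ∏ p : P, g p fun i => (m i : ℕ).factorization p := by
  rw [Finset.prod_coe_sort P fun p => g p fun i => (m i : ℕ).factorization p]
  refine Finset.prod_subset h fun p _ hp => ?_
  rw [← hg p]
  congr 1
  exact funext (fac_zero hp)

theorem euler_le {g : ℕ → (Fin N → ℕ) → ℝ≥0∞} (hg : ∀ p, g p 0 = 1) {P : Finset ℕ}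
    (hP : ∀ p ∈ P, p.Prime) : ∏ p ∈ P, ∑' k, g p k ≤ ∑' m, mulf g m := by
  let m : (P → Fin N → ℕ) → Fin N → ℕ+ := fun K i =>
    ⟨∏ p : P, (p : ℕ) ^ K p i, Finset.prod_pos fun p _ => pow_pos (hP p p.2).pos _⟩
  have h1 : ∀ K i, (m K i : ℕ).factorization = ∑ p : P, Finsupp.single (p : ℕ) (K p i) := by
    intro K i
    change (∏ p : P, (p : ℕ) ^ K p i).factorization = _
    rw [Nat.factorization_prod fun (p : P) _ => (pow_pos (hP p p.2).pos _).ne']
    exact Finset.sum_congr rfl fun p _ => (hP p p.2).factorization_pow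
  have h2 : ∀ K i (p : P), (m K i : ℕ).factorization p = K p i := by
    intro K i p
    rw [h1, Finsupp.finsetSum_apply, Finset.sum_eq_single p]
    · simp
    · exact fun q _ hq => Finsupp.single_eq_of_ne fun h => hq (Subtype.ext h.symm)
    · simp
  have h3 : ∀ K, (∏ i, (m K i : ℕ)).primeFactors ⊆ P := by
    intro K q hq
    have hq' := Nat.prime_of_mem_primeFactors hq
    obtain ⟨i, -, hi⟩ := (hq'.prime.dvd_finsetProd_iff _).1 (Nat.dvd_of_mem_primeFactors hq)
    obtain ⟨p, -, hp⟩ := (hq'.prime.dvd_finsetProd_iff _).1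
      (show q ∣ ∏ p : P, (p : ℕ) ^ K p i from hi)
    rw [(Nat.prime_dvd_prime_iff_eq hq' (hP p p.2)).1 (hq'.dvd_of_dvd_pow hp)]
    exact p.2
  have h4 : Function.Injective m := fun K K' h => by
    funext p i
    rw [← h2 K, h, h2]
  rw [← Finset.prod_coe_sort P fun p => ∑' k, g p k, ← tsum_pi]
  refine le_trans (le_of_eq (tsum_congr fun K => ?_))
    (ENNReal.tsum_comp_le_tsum_of_injective h4 (mulf g))
  rw [mulf_eq hg (h3 K)]
  simp only [h2]

theorem le_euler {g : ℕ → (Fin N → ℕ) → ℝ≥0∞} (hg : ∀ p, g p 0 = 1) {B : ℝ≥0∞}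
    (h : ∀ P : Finset ℕ, (∀ p ∈ P, p.Prime) → ∏ p ∈ P, ∑' k, g p k ≤ B) :
    ∑' m, mulf g m ≤ B := by
  classical
  rw [ENNReal.tsum_eq_iSup_sum]
  refine iSup_le fun S => ?_
  set P := S.biUnion fun m => (∏ i, (m i : ℕ)).primeFactors with hP
  have h1 : ∀ m ∈ S, (∏ i, (m i : ℕ)).primeFactors ⊆ P := fun m hm =>
    Finset.subset_biUnion_of_mem (fun m : Fin N → ℕ+ => (∏ i, (m i : ℕ)).primeFactors) hm
  refine le_trans ?_ (h P fun p hp => ?_)
  · let κ : (Fin N → ℕ+) → P → Fin N → ℕ := fun m p i => (m i : ℕ).factorization p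
    have h2 : Set.InjOn κ S := fun m hm m' hm' e => by
      funext i
      refine PNat.eq (Nat.eq_of_factorization_eq (m i).ne_zero (m' i).ne_zero fun p => ?_)
      by_cases hp : p ∈ P
      · exact congrFun (congrFun e ⟨p, hp⟩) i
      · rw [fac_zero fun h => hp (h1 m hm h), fac_zero fun h => hp (h1 m' hm' h)]
    rw [← Finset.prod_coe_sort P fun p => ∑' k, g p k, ← tsum_pi]
    refine le_trans (le_of_eq ?_) (ENNReal.sum_le_tsum (S.image κ))
    rw [Finset.sum_image h2]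
    exact Finset.sum_congr rfl fun m hm => mulf_eq hg (h1 m hm)
  · obtain ⟨m, -, hm⟩ := Finset.mem_biUnion.1 hp
    exact Nat.prime_of_mem_primeFactors hm

/-- the terms of the local factors -/
def gg (a : ℕ → (Fin N → ℕ) → ℝ) (s : ℝ) (p : ℕ) (k : Fin N → ℕ) : ℝ≥0∞ :=
  ENNReal.ofReal (a p k * ((p : ℝ) ^ wsz k) ^ (-s))

theorem dtm_eq (m : Fin N → ℕ+) : dtm m =
    ∏ p ∈ (∏ i, (m i : ℕ)).primeFactors, (p : ℝ) ^ wsz fun i => (m i : ℕ).factorization p := by
  simp only [wsz, ← Finset.prod_pow_eq_pow_sum]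
  rw [Finset.prod_comm]
  refine Finset.prod_congr rfl fun i _ => ?_
  have h : (m i : ℕ) = ∏ p ∈ (∏ i, (m i : ℕ)).primeFactors, p ^ (m i : ℕ).factorization p := by
    conv_lhs => rw [← Nat.prod_factorization_pow_eq_self (m i).ne_zero]
    exact Finsupp.prod_of_support_subset _ (pf_sub m i) _ (by simp)
  conv_lhs => rw [h]
  push_cast
  rw [← Finset.prod_pow]
  exact Finset.prod_congr rfl fun p _ => by rw [← pow_mul, mul_comm]

theorem Dser_eq {a : ℕ → (Fin N → ℕ) → ℝ} (ha : ∀ p k, 0 ≤ a p k) (s : ℝ) :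
    Dser a s = ∑' m, mulf (gg a s) m := by
  refine tsum_congr fun m => ?_
  rw [dtm_eq, ← Real.finsetProd_rpow _ _ (fun p _ => by positivity), mulf,
    ← Finset.prod_mul_distrib,
    ENNReal.ofReal_prod_of_nonneg fun p _ => mul_nonneg (ha _ _) (by positivity)]
  rfl

theorem gg_zero {a : ℕ → (Fin N → ℕ) → ℝ} (ha : ∀ p, a p 0 = 1) (s : ℝ) (p : ℕ) :
    gg a s p 0 = 1 := by simp [gg, ha, wsz]

theorem one_add_sum_le {ι : Type} (s : Finset ι) (f : ι → ℕ) :
    ∑ i ∈ s, f i + 1 ≤ ∏ i ∈ s, (f i + 1) := by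
  classical
  induction s using Finset.induction_on with
  | empty => simp
  | insert i s hi ih =>
    rw [Finset.sum_insert hi, Finset.prod_insert hi]
    nlinarith [Nat.zero_le (f i * ∑ i ∈ s, f i)]

theorem loc_bound (N d : ℕ) (C1 : ℝ) {δ : ℝ} (hδ : 0 < δ) : ∃ K : ℝ, 0 ≤ K ∧
    ∀ a : ℕ → (Fin N → ℕ) → ℝ, ∀ p : ℕ, p.Prime →
      (∀ k, a p k ≤ C1 * (wsz k + 1 : ℝ) ^ d * (p : ℝ) ^ wsz k) →
      ∑' k, gg a (1 + δ) p k ≤ ENNReal.ofReal K := by
  set r : ℝ := 2 ^ (-δ) with hr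
  have r0 : 0 < r := by positivity
  have r1 : r < 1 := Real.rpow_lt_one_of_one_lt_of_neg one_lt_two (by linarith)
  set h : ℕ → ℝ := fun j => (j + 1 : ℝ) ^ d * r ^ j with hh
  have h0 : ∀ j, 0 ≤ h j := fun j => by positivity
  have hs : Summable h := by
    have := (summable_nat_add_iff 1).2
      (summable_pow_mul_geometric_of_norm_lt_one (R := ℝ) d (r := r) (by simpa [abs_of_pos r0]))
    refine (this.mul_left r⁻¹).congr fun j => ?_
    simp only [hh]
    push_cast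
    field_simp
    ring
  refine ⟨|C1| * (∑' j, h j) ^ N, mul_nonneg (abs_nonneg _) (pow_nonneg (tsum_nonneg h0) _),
    fun a p hp ha => ?_⟩
  have p0 : (0 : ℝ) < p := by exact_mod_cast hp.pos
  have key : ∀ k, gg a (1 + δ) p k ≤
      ENNReal.ofReal |C1| * ∏ i, ENNReal.ofReal (h ((i.val + 1) * k i)) := fun k => by
    rw [← ENNReal.ofReal_prod_of_nonneg fun i _ => h0 _, ← ENNReal.ofReal_mul (abs_nonneg _)]
    refine ENNReal.ofReal_le_ofReal ?_
    have e1 : (p : ℝ) ^ wsz k * ((p : ℝ) ^ wsz k) ^ (-(1 + δ)) ≤ r ^ wsz k := by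
      rw [neg_add, Real.rpow_add (by positivity), Real.rpow_neg_one, ← mul_assoc,
        mul_inv_cancel₀ (by positivity), one_mul, ← Real.rpow_pow_comm p0.le]
      exact pow_le_pow_left₀ (by positivity) (Real.rpow_le_rpow_of_nonpos two_pos
        (by exact_mod_cast hp.two_le) (by linarith)) _
    have e2 : (wsz k + 1 : ℝ) ≤ ∏ i, ((((i.val + 1) * k i : ℕ) : ℝ) + 1) := by
      exact_mod_cast one_add_sum_le Finset.univ fun i : Fin N => (i.val + 1) * k i
    calc a p k * ((p : ℝ) ^ wsz k) ^ (-(1 + δ))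
        ≤ (|C1| * (wsz k + 1 : ℝ) ^ d * (p : ℝ) ^ wsz k) * ((p : ℝ) ^ wsz k) ^ (-(1 + δ)) := by
          refine mul_le_mul_of_nonneg_right ((ha k).trans ?_) (by positivity)
          gcongr
          exact le_abs_self _
      _ = |C1| * ((wsz k + 1 : ℝ) ^ d * ((p : ℝ) ^ wsz k * ((p : ℝ) ^ wsz k) ^ (-(1 + δ)))) := by
          ring
      _ ≤ |C1| * ((∏ i, ((((i.val + 1) * k i : ℕ) : ℝ) + 1)) ^ d * r ^ wsz k) := by gcongr
      _ = _ := by
          simp only [hh, Finset.prod_mul_distrib, Finset.prod_pow, Finset.prod_pow_eq_pow_sum, wsz]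
  refine (ENNReal.tsum_le_tsum key).trans ?_
  rw [ENNReal.tsum_mul_left, tsum_pi fun (i : Fin N) j => ENNReal.ofReal (h ((i.val + 1) * j)),
    ENNReal.ofReal_mul (abs_nonneg _), ENNReal.ofReal_pow (tsum_nonneg h0),
    ENNReal.ofReal_tsum_of_nonneg h0 hs]
  gcongr
  refine (Finset.prod_le_pow_card _ _ _ fun i _ => ?_).trans_eq (by rw [Finset.card_fin])
  exact ENNReal.tsum_comp_le_tsum_of_injective (f := fun j => (i.val + 1) * j)
    (mul_right_injective₀ (Nat.succ_ne_zero _)) fun j => ENNReal.ofReal (h j)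

theorem wsz_pos {k : Fin N → ℕ} (hk : k ≠ 0) : 1 ≤ wsz k := by
  obtain ⟨i, hi⟩ := Function.ne_iff.1 hk
  exact le_trans (Nat.mul_pos (Nat.succ_pos _) (Nat.pos_of_ne_zero hi))
    (Finset.single_le_sum (f := fun i : Fin N => (i.val + 1) * k i) (fun _ _ => Nat.zero_le _)
      (Finset.mem_univ i))

theorem loc_shift {a : ℕ → (Fin N → ℕ) → ℝ} (h1 : ∀ p, a p 0 = 1) (ha : ∀ p k, 0 ≤ a p k)
    {s K : ℝ} {p : ℕ} (hp : p.Prime) (hK0 : 0 ≤ K) (hK : ∑' k, gg a s p k ≤ ENNReal.ofReal K) :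
    ∃ y : ℝ, 0 ≤ y ∧ y ≤ K ∧ ∑' k, gg a s p k = ENNReal.ofReal (1 + y) ∧
      ∀ t, 0 ≤ t → ∑' k, gg a (s + t) p k ≤ ENNReal.ofReal (1 + (p : ℝ) ^ (-t) * y) := by
  have p1 : (1 : ℝ) ≤ p := by exact_mod_cast hp.one_le
  rw [ENNReal.tsum_eq_add_tsum_ite 0, gg_zero h1] at hK ⊢
  set x := ∑' k, @ite _ (k = 0) (Classical.propDecidable _) 0 (gg a s p k) with hx
  have x1 : x ≤ ENNReal.ofReal K := le_add_self.trans hK
  have x2 : x ≠ ∞ := ne_top_of_le_ne_top ENNReal.ofReal_ne_top x1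
  refine ⟨x.toReal, ENNReal.toReal_nonneg, ENNReal.toReal_le_of_le_ofReal hK0 x1, ?_,
    fun t ht => ?_⟩
  · rw [ENNReal.ofReal_add zero_le_one ENNReal.toReal_nonneg, ENNReal.ofReal_toReal x2,
      ENNReal.ofReal_one]
  · rw [ENNReal.ofReal_add zero_le_one (by positivity), ENNReal.ofReal_mul (by positivity),
      ENNReal.ofReal_toReal x2, ENNReal.ofReal_one, ENNReal.tsum_eq_add_tsum_ite 0, gg_zero h1,
      hx, ← ENNReal.tsum_mul_left]
    gcongr with k
    split_ifs with hk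
    · exact zero_le
    · rw [gg, gg, ← ENNReal.ofReal_mul (by positivity), neg_add, Real.rpow_add (by positivity),
        ← mul_assoc, mul_comm]
      refine ENNReal.ofReal_le_ofReal (mul_le_mul_of_nonneg_right ?_
        (mul_nonneg (ha _ _) (by positivity)))
      exact Real.rpow_le_rpow_of_nonpos (by linarith)
        (le_self_pow₀ p1 (Nat.one_le_iff_ne_zero.1 (wsz_pos hk))) (by linarith)

theorem one_add_le_rpow {y K η t : ℝ} (hy : 0 ≤ y) (hK : y ≤ K) (hη : 0 < η)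
    (ht : t ≤ η / (1 + K)) : 1 + t * y ≤ (1 + y) ^ η := by
  have y1 : 0 < 1 + y := by linarith
  rw [Real.rpow_def_of_pos y1]
  refine le_trans ?_ (Real.add_one_le_exp _)
  have h1 := Real.one_sub_inv_le_log_of_pos y1
  have h2 : y / (1 + K) ≤ 1 - (1 + y)⁻¹ := by
    rw [show 1 - (1 + y)⁻¹ = y / (1 + y) by field_simp; ring]
    gcongr
  have h3 : t * y ≤ η / (1 + K) * y := mul_le_mul_of_nonneg_right ht hy
  have h4 : η / (1 + K) * y = y / (1 + K) * η := by ring
  nlinarith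

end Euler

open Euler in
theorem euler : EulerStmt := by
  intro N d C1 ε η hε hη
  obtain ⟨K1, hK1, h1⟩ := loc_bound N d C1 (δ := 1 / 4) (by norm_num)
  obtain ⟨K, hK, h2⟩ := loc_bound N d C1 (δ := ε / 2) (by linarith)
  have hs : Summable fun p : ℕ => (p : ℝ) ^ (-(5 / 4) : ℝ) * K1 :=
    (Real.summable_nat_rpow.2 (by norm_num)).mul_right _
  obtain ⟨P0, hP0⟩ := eventually_atTop.1
    (((tendsto_rpow_neg_atTop (y := ε / 2) (by linarith)).comp
      tendsto_natCast_atTop_atTop).eventually (ge_mem_nhds (show 0 < η / (1 + K) by positivity)))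
  refine ⟨max (Real.exp (∑' p : ℕ, (p : ℝ) ^ (-(5 / 4) : ℝ) * K1)) ((1 + K) ^ P0),
    lt_max_of_lt_left (Real.exp_pos _), fun a a1 a0 ha => ⟨?_, fun X hX hD => ?_⟩⟩
  · rw [Dser_eq a0]
    refine le_euler (gg_zero a1 _) fun P hP => ?_
    have f0 : ∀ p : ℕ, 0 ≤ (p : ℝ) ^ (-(5 / 4) : ℝ) * K1 := fun p => by positivity
    calc ∏ p ∈ P, ∑' k, gg a (5 / 2) p k
        ≤ ∏ p ∈ P, ENNReal.ofReal (1 + (p : ℝ) ^ (-(5 / 4) : ℝ) * K1) := by
          refine Finset.prod_le_prod' fun p hp => ?_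
          obtain ⟨y, -, y1, -, y3⟩ := loc_shift a1 a0 (hP p hp) hK1
            (h1 a p (hP p hp) (ha p (hP p hp)))
          have := y3 (5 / 4) (by norm_num)
          rw [show (1 + 1 / 4 + 5 / 4 : ℝ) = 5 / 2 by norm_num] at this
          refine this.trans (ENNReal.ofReal_le_ofReal ?_)
          gcongr
      _ ≤ _ := by
          rw [← ENNReal.ofReal_prod_of_nonneg fun p _ => add_nonneg zero_le_one (f0 p)]
          exact ENNReal.ofReal_le_ofReal (le_max_of_le_left ((Real.prod_one_add_le_exp_sum _ f0).trans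
            (Real.exp_le_exp.2 (hs.sum_le_tsum _ fun p _ => f0 p))))
  · rw [Dser_eq a0] at hD ⊢
    refine le_euler (gg_zero a1 _) fun P hP => ?_
    choose! y y0 y1 y2 y3 using fun p (hp : p ∈ P) =>
      loc_shift a1 a0 (hP p hp) hK (h2 a p (hP p hp) (ha p (hP p hp)))
    have y4 : ∀ p ∈ P, 0 ≤ 1 + y p := fun p hp => add_nonneg zero_le_one (y0 p hp)
    have e1 : ∏ p ∈ P, (1 + y p) ≤ X := by
      have := (euler_le (gg_zero a1 _) hP).trans hD
      rwa [Finset.prod_congr rfl y2, ← ENNReal.ofReal_prod_of_nonneg y4,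
        ENNReal.ofReal_le_ofReal_iff (by linarith)] at this
    have e2 : ∏ p ∈ P, (if p < P0 then 1 + K else 1) ≤ (1 + K) ^ P0 := by
      rw [Finset.prod_ite, Finset.prod_const_one, mul_one, Finset.prod_const]
      refine pow_le_pow_right₀ (by linarith) ((Finset.card_le_card (t := Finset.range P0)
        fun p hp => Finset.mem_range.2 (Finset.mem_filter.1 hp).2).trans_eq (Finset.card_range _))
    calc ∏ p ∈ P, ∑' k, gg a (1 + ε) p k
        ≤ ∏ p ∈ P, ENNReal.ofReal ((if p < P0 then 1 + K else 1) * (1 + y p) ^ η) := by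
          refine Finset.prod_le_prod' fun p hp => ?_
          have := y3 p hp (ε / 2) (by linarith)
          rw [show (1 + ε / 2 + ε / 2 : ℝ) = 1 + ε by ring] at this
          refine this.trans (ENNReal.ofReal_le_ofReal ?_)
          split_ifs with h
          · have h3 : (p : ℝ) ^ (-(ε / 2)) ≤ 1 := Real.rpow_le_one_of_one_le_of_nonpos
              (by exact_mod_cast (hP p hp).one_le) (by linarith)
            have h4 : 1 ≤ (1 + y p) ^ η := Real.one_le_rpow (by linarith [y0 p hp]) hη.le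
            nlinarith [y0 p hp, y1 p hp]
          · rw [one_mul]
            exact one_add_le_rpow (y0 p hp) (y1 p hp) hη (hP0 p (not_lt.1 h))
      _ ≤ _ := by
          rw [← ENNReal.ofReal_prod_of_nonneg fun p hp => mul_nonneg (by split_ifs <;> linarith)
            (Real.rpow_nonneg (y4 p hp) _), Finset.prod_mul_distrib, Real.finsetProd_rpow _ _ y4]
          exact ENNReal.ofReal_le_ofReal (mul_le_mul (le_max_of_le_right e2)
            (Real.rpow_le_rpow (Finset.prod_nonneg y4) e1 hη.le)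
            (Real.rpow_nonneg (Finset.prod_nonneg y4) _) (le_max_of_le_left (Real.exp_pos _).le))

end Pool.Agent.Lib.MP_fa98d2_nt.D
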