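import Pool.Agent.Lib.MP_fa98d2_nt.D.Calc

-- part Pool.Agent.Lib.MP_fa98d2_nt.D.CalcInt
section

/-!
Differentiation under the integral sign on GL(k,R): parametric integrals, convolutions and
integration by parts.
-/

open MeasureTheory Filter Topology Matrix
open scoped ENNReal Real ContDiff Pointwise

set_option linter.unusedSectionVars false

noncomputable section

namespace Pool.Agent.Lib.MP_fa98d2_nt.D.CalcInt

/-! ### Smooth parametric integrals -/

section Gen

variable {Y P X Z : Type} [TopologicalSpace Y] [MeasurableSpace Y] [OpensMeasurableSpace Y]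
  [SecondCountableTopology Y] [NormedAddCommGroup P] [NormedSpace ℝ P] [NormedAddCommGroup X]
  [NormedSpace ℝ X] [MeasurableSpace Z] {ν : Measure Z} {c : Y → P}
  {u : Z → Y} {χ : Z → ℂ} {K : Set Y} {U : Set P} {O : Set X}

lemma asm {F : Type} [NormedAddCommGroup F] [NormedSpace ℂ F] (hu : Measurable u)
    (hχ : Integrable χ ν) {φ : Y → F} (hφ : Continuous φ) :
    AEStronglyMeasurable (fun z => χ z • φ (u z)) ν :=
  hχ.aestronglyMeasurable.smul (hφ.stronglyMeasurable.comp_measurable hu).aestronglyMeasurable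

lemma integ {F : Type} [NormedAddCommGroup F] [NormedSpace ℂ F] (hu : Measurable u)
    (hχ : Integrable χ ν) (hK : IsCompact K) (hz : ∀ᵐ z ∂ν, χ z ≠ 0 → u z ∈ K) {φ : Y → F}
    (hφ : Continuous φ) : Integrable (fun z => χ z • φ (u z)) ν := by
  obtain ⟨C, hC⟩ := hK.exists_bound_of_continuousOn hφ.continuousOn
  refine (hχ.norm.mul_const C).mono' (asm hu hχ hφ) ?_
  filter_upwards [hz] with z hz
  by_cases h : χ z = 0
  · simp [h]
  · rw [norm_smul]
    exact mul_le_mul_of_nonneg_left (hC _ (hz h)) (norm_nonneg _)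

/-- derivative in the second variable -/
def D2 (Φ : P × X → ℂ) (q : P × X) : X →L[ℝ] ℂ :=
  (fderiv ℝ Φ q).comp (ContinuousLinearMap.inr ℝ P X)

lemma D2_apply (Φ : P × X → ℂ) (q : P × X) (V : X) : D2 Φ q V = fderiv ℝ Φ q (0, V) := rfl

lemma hasD2 {Φ : P × X → ℂ} {p : P} {x : X} (h : DifferentiableAt ℝ Φ (p, x)) :
    HasFDerivAt (fun x => Φ (p, x)) (D2 Φ (p, x)) x :=
  h.hasFDerivAt.comp x (hasFDerivAt_prodMk_right p x)

lemma diffAt {Φ : P × X → ℂ} (hU : IsOpen U) (hO : IsOpen O) (hΦ : ContDiffOn ℝ ∞ Φ (U ×ˢ O))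
    {p : P} {x : X} (hp : p ∈ U) (hx : x ∈ O) : DifferentiableAt ℝ Φ (p, x) :=
  (hΦ.contDiffAt ((hU.prod hO).mem_nhds ⟨hp, hx⟩)).differentiableAt (by simp)

lemma smD2 {Φ : P × X → ℂ} (hU : IsOpen U) (hO : IsOpen O) (hΦ : ContDiffOn ℝ ∞ Φ (U ×ˢ O)) :
    ContDiffOn ℝ ∞ (D2 Φ) (U ×ˢ O) :=
  (((contDiffOn_infty_iff_fderiv_of_isOpen (hU.prod hO)).1 hΦ).2).clm_comp contDiffOn_const

lemma contY {F : Type} [TopologicalSpace F] {Φ : P × X → F} (hc : Continuous c)
    (hcU : ∀ y, c y ∈ U) (hΦ : ContinuousOn Φ (U ×ˢ O)) {x : X} (hx : x ∈ O) :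
    Continuous fun y => Φ (c y, x) :=
  hΦ.comp_continuous (hc.prodMk continuous_const) fun y => ⟨hcU y, hx⟩

variable [FiniteDimensional ℝ X]

lemma hasF (hc : Continuous c) (hcU : ∀ y, c y ∈ U) (hU : IsOpen U) (hO : IsOpen O)
    (hu : Measurable u) (hχ : Integrable χ ν) (hK : IsCompact K)
    (hz : ∀ᵐ z ∂ν, χ z ≠ 0 → u z ∈ K) {Φ : P × X → ℂ} (hΦ : ContDiffOn ℝ ∞ Φ (U ×ˢ O)) {x₀ : X}
    (hx : x₀ ∈ O) : HasFDerivAt (fun x => ∫ z, χ z * Φ (c (u z), x) ∂ν)
      (∫ z, χ z • D2 Φ (c (u z), x₀) ∂ν) x₀ := by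
  have : ProperSpace X := FiniteDimensional.proper ℝ X
  obtain ⟨s, hs, hsO, hsc⟩ := local_compact_nhds (hO.mem_nhds hx)
  have hD := (smD2 hU hO hΦ).continuousOn
  obtain ⟨C, hC⟩ := ((hK.image hc).prod hsc).exists_bound_of_continuousOn
    (hD.mono (Set.prod_mono (by rintro _ ⟨y, -, rfl⟩; exact hcU y) hsO))
  refine hasFDerivAt_integral_of_dominated_of_fderiv_le (F := fun x z => χ z * Φ (c (u z), x))
    (F' := fun x z => χ z • D2 Φ (c (u z), x)) (bound := fun z => ‖χ z‖ * C) hs ?_ ?_ ?_ ?_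
    (hχ.norm.mul_const C) ?_
  · filter_upwards [hO.mem_nhds hx] with x hx
    exact asm hu hχ (contY hc hcU hΦ.continuousOn hx)
  · exact integ hu hχ hK hz (contY hc hcU hΦ.continuousOn hx)
  · have := asm (F := X →L[ℝ] ℂ) (φ := fun y => D2 Φ (c y, x₀)) hu hχ (contY hc hcU hD hx)
    exact this
  · filter_upwards [hz] with z hz x hxs
    by_cases h : χ z = 0
    · simp [h]
    · rw [norm_smul]
      exact mul_le_mul_of_nonneg_left (hC _ ⟨⟨_, hz h, rfl⟩, hxs⟩) (norm_nonneg _)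
  · exact Eventually.of_forall fun z x hxs =>
      (hasD2 (diffAt hU hO hΦ (hcU _) (hsO hxs))).const_mul (χ z)

lemma fderiv_int (hc : Continuous c) (hcU : ∀ y, c y ∈ U) (hU : IsOpen U) (hO : IsOpen O)
    (hu : Measurable u) (hχ : Integrable χ ν) (hK : IsCompact K)
    (hz : ∀ᵐ z ∂ν, χ z ≠ 0 → u z ∈ K) {Φ : P × X → ℂ} (hΦ : ContDiffOn ℝ ∞ Φ (U ×ˢ O)) {x₀ : X}
    (hx : x₀ ∈ O) (V : X) : fderiv ℝ (fun x => ∫ z, χ z * Φ (c (u z), x) ∂ν) x₀ V =
      ∫ z, χ z * D2 Φ (c (u z), x₀) V ∂ν := by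
  rw [(hasF hc hcU hU hO hu hχ hK hz hΦ hx).fderiv, ContinuousLinearMap.integral_apply
    (integ hu hχ hK hz (contY hc hcU (smD2 hU hO hΦ).continuousOn hx))]
  rfl

lemma smInt (hc : Continuous c) (hcU : ∀ y, c y ∈ U) (hU : IsOpen U) (hO : IsOpen O)
    (hu : Measurable u) (hχ : Integrable χ ν) (hK : IsCompact K)
    (hz : ∀ᵐ z ∂ν, χ z ≠ 0 → u z ∈ K) {Φ : P × X → ℂ} (hΦ : ContDiffOn ℝ ∞ Φ (U ×ˢ O)) :
    ContDiffOn ℝ ∞ (fun x => ∫ z, χ z * Φ (c (u z), x) ∂ν) O := by
  refine contDiffOn_infty.2 fun n => ?_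
  induction n generalizing Φ with
  | zero =>
    exact contDiffOn_zero.2 fun x hx =>
      (hasF hc hcU hU hO hu hχ hK hz hΦ hx).continuousAt.continuousWithinAt
  | succ n ih =>
    rw [Nat.cast_succ, contDiffOn_succ_iff_fderiv_of_isOpen hO]
    refine ⟨fun x hx => (hasF hc hcU hU hO hu hχ hK hz hΦ hx).differentiableAt.differentiableWithinAt,
      by simp, contDiffOn_clm_apply.2 fun V => ?_⟩
    exact (ih (Φ := fun q => D2 Φ q V) ((smD2 hU hO hΦ).clm_apply contDiffOn_const)).congr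
      fun x hx => fderiv_int hc hcU hU hO hu hχ hK hz hΦ hx V

end Gen

/-! ### Calculus on the group -/

variable {k : ℕ}

/-- the invertible matrices in coordinates -/
def UU (k : ℕ) : Set (E k) := {x | (Matrix.of x).det ≠ 0}

lemma isOpen_UU : IsOpen (UU k) := isOpen_ne_fun continuous_detE continuous_const

lemma co_mem (g : G k) : co g ∈ UU k := det_ne g

/-- a function in coordinates -/
def til (F : G k → ℂ) (x : E k) : ℂ := F (mkG (Matrix.of x))

lemma til_co (F : G k → ℂ) (g : G k) : til F (co g) = F g := by rw [til, mkG_co]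

lemma sm_at {F : G k → ℂ} (hF : Sm F) (g : G k) : ContDiffAt ℝ ∞ (til F) (co g) :=
  ContDiffOn.contDiffAt hF (isOpen_UU.mem_nhds (co_mem g))

lemma sm_of_at {F : G k → ℂ} (hF : ∀ g, ContDiffAt ℝ ∞ (til F) (co g)) : Sm F := by
  intro x hx
  have : x ∈ Set.range (co (k := k)) := by rw [range_co]; exact hx
  obtain ⟨g, rfl⟩ := this
  exact (hF g).contDiffWithinAt

lemma sm_cont {F : G k → ℂ} (hF : Sm F) : Continuous F := by
  have := ContinuousOn.comp_continuous (ContDiffOn.continuousOn hF) continuous_co co_mem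
  exact this.congr fun g => til_co F g

lemma curve {F : G k → ℂ} {c : ℝ → G k} {V : E k} {t : ℝ}
    (hF : DifferentiableAt ℝ (til F) (co (c t))) (hc : HasDerivAt (fun t => co (c t)) V t) :
    HasDerivAt (fun t => F (c t)) (fderiv ℝ (til F) (co (c t)) V) t := by
  have := hF.hasFDerivAt.comp_hasDerivAt t hc
  exact this.congr_of_eventuallyEq (Eventually.of_forall fun s => (til_co F (c s)).symm)

lemma ev_det (A : Mat k) : ∀ᶠ t : ℝ in 𝓝 0, (1 + t • A).det ≠ 0 := by
  have h : Continuous fun t : ℝ => (1 + t • A).det :=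
    Continuous.matrix_det (continuous_const.add (continuous_id.smul continuous_const))
  exact h.continuousAt.eventually_ne (by simp)

lemma der_one (A : Mat k) (a b : G k) :
    HasDerivAt (fun t : ℝ => co (a * mkG (1 + t • A) * b)) (fun i j => (a.val * A * b.val) i j)
      0 := by
  have h : HasDerivAt (fun t : ℝ => (fun i j => (a.val * b.val) i j : E k) +
      t • (fun i j => (a.val * A * b.val) i j : E k)) (fun i j => (a.val * A * b.val) i j) 0 := by
    simpa using ((hasDerivAt_id (0 : ℝ)).smul_const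
      (fun i j => (a.val * A * b.val) i j : E k)).const_add (fun i j => (a.val * b.val) i j : E k)
  refine h.congr_of_eventuallyEq ?_
  filter_upwards [ev_det A] with t ht
  ext i j
  simp [co, val_mkG ht, Matrix.mul_add, Matrix.add_mul]

lemma tend_one (A : Mat k) : Tendsto (fun t : ℝ => mkG (1 + t • A)) (𝓝 0) (𝓝 1) := by
  rw [isOpenEmbedding_co.isInducing.tendsto_nhds_iff]
  have := (der_one A 1 1).continuousAt.tendsto
  simpa [Function.comp_def] using this

lemma rd_eq (A : Mat k) {F : G k → ℂ} {g : G k} (hF : DifferentiableAt ℝ (til F) (co g)) :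
    Rd A F g = fderiv ℝ (til F) (co g) (fun i j => (g.val * A) i j) := by
  have h := curve (F := F) (c := fun t : ℝ => g * mkG (1 + t • A) * 1) (t := 0) (by simpa using hF)
    (der_one A g 1)
  simpa [Rd] using h.deriv

lemma ld_eq (A : Mat k) {F : G k → ℂ} {g : G k} (hF : DifferentiableAt ℝ (til F) (co g)) :
    Ld A F g = fderiv ℝ (til F) (co g) (fun i j => (A * g.val) i j) := by
  have h := curve (F := F) (c := fun t : ℝ => 1 * mkG (1 + t • A) * g) (t := 0) (by simpa using hF)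
    (der_one A 1 g)
  simpa [Ld] using h.deriv

lemma rd_congr (A : Mat k) {F F' : G k → ℂ} {g : G k} (h : F =ᶠ[𝓝 g] F') :
    Rd A F g = Rd A F' g := by
  have h1 : Tendsto (fun t : ℝ => g * mkG (1 + t • A)) (𝓝 0) (𝓝 g) := by
    simpa using (tend_one A).const_mul g
  exact EventuallyEq.deriv_eq (h1.eventually h)

lemma ld_zero (A : Mat k) {f : G k → ℂ} {g : G k} (h : g ∉ tsupport f) : Ld A f g = 0 := by
  have h1 : Tendsto (fun t : ℝ => mkG (1 + t • A) * g) (𝓝 0) (𝓝 g) := by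
    simpa using (tend_one A).mul_const g
  have h2 : (fun t : ℝ => f (mkG (1 + t • A) * g)) =ᶠ[𝓝 0] fun _ => 0 :=
    h1.eventually (notMem_tsupport_iff_eventuallyEq.1 h)
  rw [Ld, h2.deriv_eq, deriv_const]

lemma til_congr {F F' : G k → ℂ} {g : G k} (h : F =ᶠ[𝓝 g] F') : til F =ᶠ[𝓝 (co g)] til F' := by
  rw [← isOpenEmbedding_co.map_nhds_eq, EventuallyEq, eventually_map]
  simp only [til_co]
  exact h

/-! ### Products and inverses in coordinates -/

section Co

variable {X : Type} [NormedAddCommGroup X] [NormedSpace ℝ X]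

lemma cd_det {A : X → Mat k} (hA : ∀ i j, ContDiff ℝ ∞ fun x => A x i j) :
    ContDiff ℝ ∞ fun x => (A x).det := by
  simp only [Matrix.det_apply']
  exact ContDiff.sum fun σ _ => contDiff_const.mul (contDiff_prod fun i _ => hA _ _)

lemma cd_inv (i j : Fin k) : ContDiffOn ℝ ∞ (fun x : E k => (Matrix.of x)⁻¹ i j) (UU k) := by
  have h1 : ∀ i j, ContDiff ℝ ∞ fun x : E k => Matrix.of x i j := fun i j =>
    (contDiff_apply_apply ℝ ℝ i j)
  have h2 : ContDiff ℝ ∞ fun x : E k => (Matrix.of x).adjugate i j := by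
    simp only [Matrix.adjugate_apply]
    refine cd_det fun a b => ?_
    simp only [Matrix.updateRow_apply]
    split_ifs
    · exact contDiff_const
    · exact h1 a b
  simp only [Matrix.inv_def, Matrix.smul_apply, smul_eq_mul, Ring.inverse_eq_inv']
  exact ((cd_det h1).contDiffOn.inv fun x hx => hx).mul h2.contDiffOn

lemma cd_mul {A B : X → Mat k} {s : Set X} (hA : ∀ i j, ContDiffOn ℝ ∞ (fun x => A x i j) s)
    (hB : ∀ i j, ContDiffOn ℝ ∞ (fun x => B x i j) s) :
    ContDiffOn ℝ ∞ (fun x => (fun i j => (A x * B x) i j : E k)) s := by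
  refine contDiffOn_pi.2 fun i => contDiffOn_pi.2 fun j => ?_
  simp only [Matrix.mul_apply]
  exact ContDiffOn.sum fun l _ => (hA i l).mul (hB l j)

end Co

lemma der_inv (A : Mat k) (y : G k) :
    HasDerivAt (fun t : ℝ => co ((mkG (1 + t • A))⁻¹ * y)) (-fun i j => (A * y.val) i j) 0 := by
  have h1 : ∀ i j, DifferentiableAt ℝ (fun t : ℝ => ((mkG (1 + t • A))⁻¹).val i j) 0 := by
    intro i j
    have a1 := (der_one A 1 1).differentiableAt
    have a2 : DifferentiableAt ℝ (fun x : E k => (Matrix.of x)⁻¹ i j)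
        (co (1 * mkG (1 + (0 : ℝ) • A) * 1)) :=
      ((cd_inv i j).contDiffAt (isOpen_UU.mem_nhds (co_mem _))).differentiableAt (by simp)
    have a3 := a2.comp (0 : ℝ) a1
    simpa [Function.comp_def, of_co] using a3
  refine hasDerivAt_pi.2 fun i => hasDerivAt_pi.2 fun j => ?_
  have h2 : DifferentiableAt ℝ
      (fun t : ℝ => (((mkG (1 + t • A))⁻¹).val * (A * y.val) : Mat k) i j) 0 :=
    DifferentiableAt.fun_sum (u := Finset.univ) fun l _ => (h1 i l).mul_const ((A * y.val) l j)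
  have h3 := ((hasDerivAt_id (0 : ℝ)).mul h2.hasDerivAt).const_sub (y.val i j)
  refine (h3.congr_of_eventuallyEq ?_).congr_deriv (by simp)
  filter_upwards [ev_det A] with t ht
  have h4 : ((mkG (1 + t • A))⁻¹).val * (1 + t • A) = 1 := by
    have := (mkG (1 + t • A)).inv_mul
    rwa [val_mkG ht] at this
  have h5 : ((mkG (1 + t • A))⁻¹).val * y.val =
      y.val - t • (((mkG (1 + t • A))⁻¹).val * (A * y.val)) := by
    rw [eq_sub_iff_add_eq, ← Matrix.mul_smul, ← Matrix.mul_add, ← Matrix.smul_mul]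
    nth_rewrite 1 [← Matrix.one_mul y.val]
    rw [← Matrix.add_mul, ← Matrix.mul_assoc, h4, Matrix.one_mul]
  simp only [co, Units.val_mul, h5, Matrix.sub_apply, Matrix.smul_apply, smul_eq_mul, id,
    Pi.mul_apply]

/-! ### Jointly smooth families -/

/-- a jointly smooth function of two group elements -/
def Sm2 (Ψ : G k → G k → ℂ) : Prop :=
  ContDiffOn ℝ ∞ (fun q : E k × E k => Ψ (mkG (Matrix.of q.1)) (mkG (Matrix.of q.2)))
    (UU k ×ˢ UU k)

lemma cd1 (i j : Fin k) :
    ContDiffOn ℝ ∞ (fun q : E k × E k => Matrix.of q.1 i j) (UU k ×ˢ UU k) :=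
  ((contDiff_apply_apply ℝ ℝ i j).comp contDiff_fst).contDiffOn

lemma cd2 (i j : Fin k) :
    ContDiffOn ℝ ∞ (fun q : E k × E k => Matrix.of q.2 i j) (UU k ×ˢ UU k) :=
  ((contDiff_apply_apply ℝ ℝ i j).comp contDiff_snd).contDiffOn

lemma sm2_l {F : G k → ℂ} (hF : Sm F) : Sm2 fun p g => F (p * g) := by
  refine (ContDiffOn.comp hF (cd_mul cd1 cd2) fun q hq => ?_).congr fun q hq => ?_
  · show (Matrix.of q.1 * Matrix.of q.2).det ≠ 0
    rw [Matrix.det_mul]
    exact mul_ne_zero hq.1 hq.2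
  · exact congrArg F (mkG_mul hq.1 hq.2).symm

lemma sm2_r {F : G k → ℂ} (hF : Sm F) : Sm2 fun p g => F (g * p) := by
  refine (ContDiffOn.comp hF (cd_mul cd2 cd1) fun q hq => ?_).congr fun q hq => ?_
  · show (Matrix.of q.2 * Matrix.of q.1).det ≠ 0
    rw [Matrix.det_mul]
    exact mul_ne_zero hq.2 hq.1
  · exact congrArg F (mkG_mul hq.2 hq.1).symm

lemma sm2_i {F : G k → ℂ} (hF : Sm F) : Sm2 fun p g => F (g⁻¹ * p) := by
  have e : ∀ q ∈ UU k ×ˢ UU k, (fun i j => ((Matrix.of q.2)⁻¹ * Matrix.of q.1) i j : E k) =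
      co ((mkG (Matrix.of q.2))⁻¹ * mkG (Matrix.of q.1)) := fun q hq => by
    ext i j
    simp only [co, Units.val_mul, Matrix.coe_units_inv, val_mkG hq.1, val_mkG hq.2]
  refine (ContDiffOn.comp hF (cd_mul (A := fun q : E k × E k => (Matrix.of q.2)⁻¹)
    (fun i j => (cd_inv i j).comp contDiffOn_snd fun q hq => hq.2) cd1) fun q hq => ?_).congr
    fun q hq => ?_
  · rw [e q hq]
    exact co_mem _
  · rw [Function.comp_apply, e q hq, mkG_co]

lemma rd2 {Ψ : G k → G k → ℂ} (h : Sm2 Ψ) (A : Mat k) (p g : G k) : Rd A (Ψ p) g =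
    D2 (fun q : E k × E k => Ψ (mkG (Matrix.of q.1)) (mkG (Matrix.of q.2))) (co p, co g)
      (fun i j => (g.val * A) i j) := by
  have h1 := hasD2 (diffAt isOpen_UU isOpen_UU h (co_mem p) (co_mem g))
  simp only [mkG_co] at h1
  rw [rd_eq A h1.differentiableAt, ← h1.fderiv]
  rfl

lemma sm2_rd {Ψ : G k → G k → ℂ} (h : Sm2 Ψ) (A : Mat k) : Sm2 fun p => Rd A (Ψ p) := by
  refine (((smD2 isOpen_UU isOpen_UU h).clm_apply
    (cd_mul (B := fun _ => A) cd2 fun _ _ => contDiffOn_const))).congr fun q hq => ?_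
  have e1 : co (mkG (Matrix.of q.1)) = q.1 := val_mkG hq.1
  have e2 : co (mkG (Matrix.of q.2)) = q.2 := val_mkG hq.2
  refine (rd2 h A _ _).trans ?_
  rw [e1, e2, val_mkG hq.2]

lemma sm2_cont {Ψ : G k → G k → ℂ} (h : Sm2 Ψ) (g : G k) : Continuous fun p => Ψ p g := by
  simpa only [mkG_co] using contY continuous_co co_mem (ContDiffOn.continuousOn h) (co_mem g)

lemma sm2_gpw {Ψ : G k → G k → ℂ} (h : Sm2 Ψ) (m : ℕ) :
    ∀ i j, Sm2 fun p => gpw (Ψ p) m i j := by
  induction m with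
  | zero =>
    intro i j
    simp only [gpw]
    split_ifs
    · exact h
    · exact contDiffOn_const
  | succ m ih =>
    intro i j
    simp only [gpw, Sm2, Finset.sum_apply]
    exact ContDiffOn.sum fun l _ => sm2_rd (ih l j) _

section Par

variable {Z : Type} [MeasurableSpace Z] {ν : Measure Z} {u : Z → G k} {χ : Z → ℂ} {K : Set (G k)}
  (hu : Measurable u) (hχ : Integrable χ ν) (hK : IsCompact K) (hz : ∀ᵐ z ∂ν, χ z ≠ 0 → u z ∈ K)
  {Ψ : G k → G k → ℂ} (h : Sm2 Ψ)

include hu hχ hK hz h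

lemma parS : Sm fun g => ∫ z, χ z * Ψ (u z) g ∂ν := by
  have := smInt continuous_co co_mem isOpen_UU isOpen_UU hu hχ hK hz h
  simp only [mkG_co] at this
  exact this

lemma parR (A : Mat k) (g : G k) :
    Rd A (fun g => ∫ z, χ z * Ψ (u z) g ∂ν) g = ∫ z, χ z * Rd A (Ψ (u z)) g ∂ν := by
  have h1 := fderiv_int continuous_co co_mem isOpen_UU isOpen_UU hu hχ hK hz h (co_mem g)
    (fun i j => (g.val * A) i j)
  simp only [mkG_co, ← rd2 h] at h1
  rw [rd_eq A ((sm_at (parS hu hχ hK hz h) g).differentiableAt (by simp)), ← h1]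
  rfl

lemma parP (m : ℕ) : ∀ i j, gpw (fun g => ∫ z, χ z * Ψ (u z) g ∂ν) m i j =
    fun g => ∫ z, χ z * gpw (Ψ (u z)) m i j g ∂ν := by
  induction m with
  | zero =>
    intro i j
    simp only [gpw]
    split_ifs
    · rfl
    · ext g
      simp
  | succ m ih =>
    intro i j
    ext g
    simp only [gpw, ih, Finset.sum_apply, Finset.mul_sum]
    refine Eq.trans ?_ (integral_finsetSum _ fun l _ =>
      integ hu hχ hK hz (sm2_cont (sm2_rd (sm2_gpw h m l j) (em i l)) g)).symm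
    exact Finset.sum_congr rfl fun l _ => parR hu hχ hK hz (sm2_gpw h m l j) _ g

lemma parGel (m : ℕ) (g : G k) : Gel m (fun g => ∫ z, χ z * Ψ (u z) g ∂ν) g =
    ∫ z, χ z * Gel m (Ψ (u z)) g ∂ν := by
  simp only [Gel, parP hu hχ hK hz h, Finset.sum_apply, Finset.mul_sum]
  exact (integral_finsetSum _ fun i _ => integ hu hχ hK hz (sm2_cont (sm2_gpw h m i i) g)).symm

end Par

/-! ### The four statements -/

lemma par (k : ℕ) (Z : Type) [MeasurableSpace Z] (ν : Measure Z) (u : Z → G k) (χ : Z → ℂ)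
    (K : Set (G k)) (hu : Measurable u) (hχ : Integrable χ ν) (hK : IsCompact K)
    (hz : ∀ᵐ z ∂ν, χ z ≠ 0 → u z ∈ K) (F : G k → ℂ) (hF : Sm F) :
    Sm (fun g => ∫ z, χ z * F (u z * g) ∂ν) ∧ ∀ A, Rd A (fun g => ∫ z, χ z * F (u z * g) ∂ν) =
      fun g => ∫ z, χ z * Rd A F (u z * g) ∂ν := by
  refine ⟨parS hu hχ hK hz (sm2_l hF), fun A => funext fun g => ?_⟩
  rw [parR hu hχ hK hz (sm2_l hF)]
  simp only [Rd, mul_assoc]

lemma conv_eq (f F : G k → ℂ) (g : G k) : conv f F g = ∫ x, F x * f (g⁻¹ * x) ∂mu k := by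
  rw [conv, ← integral_mul_left_eq_self (fun x => F x * f (g⁻¹ * x)) g]
  simp only [inv_mul_cancel_left, mul_comm]

lemma rd_inv {f : G k → ℂ} (hf : Sm f) (A : Mat k) (p g : G k) :
    Rd A (fun g => f (g⁻¹ * p)) g = -Ld A f (g⁻¹ * p) := by
  have hd : DifferentiableAt ℝ (til f) (co (g⁻¹ * p)) := (sm_at hf _).differentiableAt (by simp)
  have h := curve (F := f) (c := fun t : ℝ => (mkG (1 + t • A))⁻¹ * (g⁻¹ * p)) (t := 0)
    (by simpa using hd) (der_inv A _)
  rw [ld_eq A hd, ← map_neg]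
  simpa [Rd, mul_assoc] using h.deriv

lemma convL (k : ℕ) (f F : G k → ℂ) (hf : Sm f) (hs : HasCompactSupport f) (hF : Continuous F) :
    Sm (conv f F) ∧ ∀ A, Rd A (conv f F) = conv (-Ld A f) F := by
  have key : ∀ g₀ : G k, ∃ K : Set (G k), IsCompact K ∧
      ∀ᶠ g in 𝓝 g₀, ∀ x, x ∉ K → g⁻¹ * x ∉ tsupport f := fun g₀ => by
    obtain ⟨N, hN, hN1⟩ := exists_compact_mem_nhds g₀
    refine ⟨N * tsupport f, hN.mul hs, ?_⟩
    filter_upwards [hN1] with g hg x hx h
    exact hx ⟨g, hg, _, h, mul_inv_cancel_left g x⟩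
  have loc : ∀ (K : Set (G k)) (φ : G k → ℂ) (g : G k), (∀ x, x ∉ K → φ (g⁻¹ * x) = 0) →
      conv φ F g = ∫ x, K.indicator F x * φ (g⁻¹ * x) ∂mu k := fun K φ g h => by
    rw [conv_eq]
    refine integral_congr_ae (Eventually.of_forall fun x => ?_)
    by_cases hx : x ∈ K
    · simp only [Set.indicator_of_mem hx]
    · simp only [h x hx, mul_zero]
  have main : ∀ g₀ : G k, ContDiffAt ℝ ∞ (til (conv f F)) (co g₀) ∧
      ∀ A, Rd A (conv f F) g₀ = conv (-Ld A f) F g₀ := fun g₀ => by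
    obtain ⟨K, hK, hg⟩ := key g₀
    have hχ : Integrable (K.indicator F) (mu k) :=
      (integrable_indicator_iff hK.measurableSet).2 (hF.continuousOn.integrableOn_compact hK)
    have hz : ∀ᵐ z ∂mu k, K.indicator F z ≠ 0 → id z ∈ K :=
      Eventually.of_forall fun z hz => Set.mem_of_indicator_ne_zero hz
    have e : conv f F =ᶠ[𝓝 g₀] fun g => ∫ x, K.indicator F x * f (g⁻¹ * x) ∂mu k := by
      filter_upwards [hg] with g hg
      exact loc K f g fun x hx => image_eq_zero_of_notMem_tsupport (hg x hx)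
    refine ⟨(sm_at (parS measurable_id hχ hK hz (sm2_i hf)) g₀).congr_of_eventuallyEq
      (til_congr e), fun A => ?_⟩
    rw [rd_congr A e, loc K _ g₀ fun x hx => by simp [ld_zero A (hg.self_of_nhds x hx)]]
    refine (parR measurable_id hχ hK hz (sm2_i hf) A g₀).trans ?_
    simp only [rd_inv hf, id, Pi.neg_apply]
  exact ⟨sm_of_at fun g => (main g).1, fun A => funext fun g => (main g).2 A⟩

lemma convG (hrt : ∀ F : G k → ℂ, Sm F → ∀ m a, Gel m (rt a F) = rt a (Gel m F))
    (f F : G k → ℂ) (hf : Sm f) (hs : HasCompactSupport f) (hF : Sm F) (m : ℕ) :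
    Gel m (conv f F) = conv f (Gel m F) := by
  ext g
  refine (parGel (u := id) measurable_id ((sm_cont hf).integrable_of_hasCompactSupport hs) hs
    (Eventually.of_forall fun z hz => subset_tsupport f hz) (sm2_r hF) m g).trans ?_
  refine integral_congr_ae (Eventually.of_forall fun x => ?_)
  exact congrArg (fun H : G k → ℂ => f x * H g) (hrt F hF m x)

lemma ibp (k : ℕ) (A : Mat k) (f : G k → ℂ) (hf : Sm f) (hs : HasCompactSupport f) :
    ∫ g, Ld A f g ∂mu k = 0 := by
  have h := congrFun ((convL k f (fun _ => 1) hf hs continuous_const).2 A) 1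
  simp only [Rd, conv, deriv_const, mul_one, Pi.neg_apply, integral_neg] at h
  exact neg_eq_zero.1 h.symm

end Pool.Agent.Lib.MP_fa98d2_nt.D.CalcInt

namespace Pool.Agent.Lib.MP_fa98d2_nt.D

theorem calcS : CalcStmt where
  cont := Calc.cont
  const := Calc.const
  add := Calc.add
  smul := Calc.smul
  mul := Calc.mul
  entry := Calc.entry
  ofE := Calc.ofE
  tra := Calc.tra
  res := Calc.res
  rd := Calc.rd
  ld := Calc.ld
  ld_rd := Calc.ld_rd
  rd_add := Calc.rd_add
  rd_smul := Calc.rd_smul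
  rd_mul := Calc.rd_mul
  rd_lin := Calc.rd_lin
  curve := Calc.curve
  comm := Calc.comm
  rd_ld := Calc.rd_ld
  rd_rt := Calc.rd_rt
  adj := Calc.adj
  mod := Calc.mod
  par := fun k Z _ ν u χ K hu hχ hK hz F hF => CalcInt.par k Z ν u χ K hu hχ hK hz F hF
  convL := CalcInt.convL
  convG := fun k => CalcInt.convG (Calc.gel_rt k)
  gel_rt := Calc.gel_rt
  gel_rd := Calc.gel_rd
  supp := Calc.supp
  ibp := CalcInt.ibp

end Pool.Agent.Lib.MP_fa98d2_nt.D
end
end

-- part Pool.Agent.Lib.MP_fa98d2_nt.D.Haar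
section

/- Haar measure of GL(k,R) in Iwasawa type coordinates. -/

open MeasureTheory Filter Topology Matrix Set
open scoped ENNReal

noncomputable section

namespace Pool.Agent.Lib.MP_fa98d2_nt.D

namespace Haar

variable {k : ℕ}

/-! ### Splitting off the last row and the last column -/

lemma mp_snoc (α : Type) [MeasureSpace α] [SigmaFinite (volume : Measure α)] (k : ℕ) :
    MeasurePreserving (fun p : α × (Fin k → α) => (Fin.snoc p.2 p.1 : Fin (k + 1) → α))
      volume volume := by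
  have h := (volume_preserving_piFinSuccAbove (fun _ : Fin (k + 1) => α) (Fin.last k)).symm
  have e : (fun p : α × (Fin k → α) => (Fin.snoc p.2 p.1 : Fin (k + 1) → α)) =
      (MeasurableEquiv.piFinSuccAbove (fun _ : Fin (k + 1) => α) (Fin.last k)).symm := by
    ext1 p
    exact (Fin.insertNth_last' p.1 p.2).symm
  rw [e]
  exact h

lemma mp_cols (k : ℕ) : MeasurePreserving (fun (p : (Fin k → ℝ) × E k) (i : Fin k) =>
    (Fin.snoc (p.2 i) (p.1 i) : Fin (k + 1) → ℝ)) volume volume :=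
  (volume_preserving_pi fun _ : Fin k => mp_snoc ℝ k).comp
    (volume_measurePreserving_arrowProdEquivProdArrow ℝ (Fin k → ℝ) (Fin k)).symm

/-- right multiplication of the top rows -/
def rm (S : Mat (k + 1)) : (Fin k → Fin (k + 1) → ℝ) →ₗ[ℝ] (Fin k → Fin (k + 1) → ℝ) :=
  LinearMap.pi fun i => (Matrix.vecMulLinear S).comp (LinearMap.proj i)

lemma det_rm (S : Mat (k + 1)) : LinearMap.det (rm S) = S.det ^ k := by
  rw [rm, LinearMap.det_pi]
  have : Matrix.vecMulLinear S = Matrix.toLin' S.transpose := by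
    ext i j
    simp
  simp [this, LinearMap.det_toLin']

lemma lint_rm (S : Mat (k + 1)) (hS : S.det ≠ 0) (Φ : (Fin k → Fin (k + 1) → ℝ) → ℝ≥0∞)
    (hΦ : Measurable Φ) :
    ∫⁻ t, Φ t = ENNReal.ofReal (|S.det| ^ k) * ∫⁻ t, Φ (rm S t) := by
  have h0 : LinearMap.det (rm S) ≠ 0 := by rw [det_rm]; exact pow_ne_zero _ hS
  have hp : 0 < |S.det| ^ k := pow_pos (abs_pos.2 hS) _
  rw [← lintegral_map hΦ (rm S).continuous_of_finiteDimensional.measurable,
    Measure.map_linearMap_addHaar_eq_smul_addHaar _ h0, lintegral_smul_measure, smul_eq_mul,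
    ← mul_assoc, ← ENNReal.ofReal_mul hp.le, abs_inv, det_rm, abs_pow, mul_inv_cancel₀ hp.ne',
    ENNReal.ofReal_one, one_mul]

lemma lint_top (S : Mat (k + 1)) (hS : S.det ≠ 0) (Φ : (Fin k → Fin (k + 1) → ℝ) → ℝ≥0∞)
    (hΦ : Measurable Φ) :
    ∫⁻ t, Φ t = ENNReal.ofReal (|S.det| ^ k) * ∫⁻ x : E k, ∫⁻ b : Fin k → ℝ,
      Φ (rm S fun i => (Fin.snoc (x i) (b i) : Fin (k + 1) → ℝ)) := by
  have h3 : Measurable fun t => Φ (rm S t) :=
    hΦ.comp (rm S).continuous_of_finiteDimensional.measurable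
  rw [lint_rm S hS Φ hΦ, ← (mp_cols k).lintegral_comp h3]
  congr 1
  exact lintegral_prod_symm _ (h3.comp (mp_cols k).measurable).aemeasurable

lemma lint_row (Φ : E (k + 1) → ℝ≥0∞) (hΦ : Measurable Φ) :
    ∫⁻ x, Φ x = ∫⁻ r : Fin (k + 1) → ℝ, ∫⁻ t : Fin k → Fin (k + 1) → ℝ, Φ (Fin.snoc t r) := by
  have h1 := mp_snoc (Fin (k + 1) → ℝ) k
  rw [← h1.lintegral_comp hΦ]
  exact lintegral_prod _ (hΦ.comp h1.measurable).aemeasurable

lemma measurable_snoc (r : Fin (k + 1) → ℝ) :
    Measurable fun t : Fin k → Fin (k + 1) → ℝ => (Fin.snoc t r : E (k + 1)) := by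
  refine measurable_pi_lambda _ fun i => ?_
  refine Fin.lastCases ?_ (fun i => ?_) i
  · simp
  · simpa using measurable_pi_apply i

lemma of_snoc (x : E k) (b : Fin k → ℝ) (r : Fin (k + 1) → ℝ) :
    Matrix.of (Fin.snoc (rm (Matrix.updateRow 1 (Fin.last k) r) fun i =>
      (Fin.snoc (x i) (b i) : Fin (k + 1) → ℝ)) r : E (k + 1)) =
      blk (Matrix.of x) b * Matrix.updateRow 1 (Fin.last k) r := by
  ext i j
  refine Fin.lastCases ?_ (fun i => ?_) i
  · simp [Matrix.mul_apply, Fin.sum_univ_castSucc]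
  · simp [rm, Matrix.mul_apply, Matrix.vecMul, dotProduct, Fin.sum_univ_castSucc]

/-- the weight with one extra power of the determinant -/
def wd (m : ℕ) (x : E k) : ℝ≥0∞ := ENNReal.ofReal (|(Matrix.of x).det|⁻¹ ^ (m + 1))

lemma measurable_wd (m : ℕ) : Measurable (wd (k := k) m) :=
  ((continuous_detE.measurable.abs.inv).pow_const _).ennreal_ofReal

lemma wd_zero (m : ℕ) {x : E k} (hx : (Matrix.of x).det = 0) : wd m x = 0 := by simp [wd, hx]

lemma set_wd (m : ℕ) (F : E k → ℝ≥0∞) :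
    ∫⁻ x in range co, wd m x * F x = ∫⁻ x, wd m x * F x := by
  rw [← lintegral_indicator measurableEmbedding_co.measurableSet_range]
  refine lintegral_congr fun x => indicator_apply_eq_self.2 fun hx => ?_
  rw [range_co] at hx
  rw [wd_zero m (not_not.1 hx), zero_mul]

lemma lint_succ (F : G (k + 1) → ℝ≥0∞) (hF : Measurable F) :
    ∫⁻ g, F g ∂mu (k + 1) = ∫⁻ x : E (k + 1), wd k x * F (mkG (Matrix.of x)) := by
  have := lintegral_mu (fun x => F (mkG (Matrix.of x))) (hF.comp measurable_mkG)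
  simp only [mkG_co] at this
  rw [this, ← set_wd]
  rfl

lemma measurable_idt : Measurable fun h : G k => ENNReal.ofReal (dt h)⁻¹ :=
  measurable_dt.inv.ennreal_ofReal

lemma lint_dt (Ψ : G k → ℝ≥0∞) (hΨ : Measurable Ψ) :
    ∫⁻ h, ENNReal.ofReal (dt h)⁻¹ * Ψ h ∂mu k = ∫⁻ x : E k, wd k x * Ψ (mkG (Matrix.of x)) := by
  have := lintegral_mu (fun x => ENNReal.ofReal (dt (mkG (Matrix.of x)))⁻¹ * Ψ (mkG (Matrix.of x)))
    ((measurable_idt.mul hΨ).comp measurable_mkG)
  simp only [mkG_co] at this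
  rw [this, ← set_wd]
  refine setLIntegral_congr_fun measurableEmbedding_co.measurableSet_range fun x hx => ?_
  rw [range_co] at hx
  rw [← mul_assoc, dens, dt, val_mkG hx, ← ENNReal.ofReal_mul (by positivity), ← pow_succ, wd]

lemma measurable_inner {F : G (k + 1) → ℝ≥0∞} (hF : Measurable F) (r : Fin (k + 1) → ℝ) :
    Measurable fun h : G k => ∫⁻ b, F (nb b * up h * sr r) := by
  have h : Measurable fun p : G k × (Fin k → ℝ) => F (nb p.2 * up p.1 * sr r) :=
    hF.comp (((continuous_nb.measurable.comp measurable_snd).mul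
      (continuous_up.measurable.comp measurable_fst)).mul_const _)
  exact h.lintegral_prod_right' (ν := volume)

lemma blkS (k : ℕ) (F : G (k + 1) → ℝ≥0∞) (hF : Measurable F) : ∫⁻ g, F g ∂mu (k + 1) =
    ∫⁻ r, ∫⁻ h, ENNReal.ofReal (dt h)⁻¹ * ∫⁻ b, F (nb b * up h * sr r) ∂volume ∂mu k ∂mR k := by
  have hΦ : Measurable fun x : E (k + 1) => wd k x * F (mkG (Matrix.of x)) :=
    (measurable_wd k).mul (hF.comp measurable_mkG)
  rw [lint_succ F hF, lint_row _ hΦ, mR,
    lintegral_withDensity_eq_lintegral_mul_non_measurable _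
      (measurable_pi_apply (Fin.last k)).abs.inv.ennreal_ofReal
      (Eventually.of_forall fun _ => ENNReal.ofReal_lt_top)]
  refine lintegral_congr_ae ?_
  filter_upwards [Measure.ae_eval_ne (fun _ : Fin (k + 1) => (volume : Measure ℝ)) (Fin.last k) 0]
    with r hr
  have hS : (Matrix.updateRow (1 : Mat (k + 1)) (Fin.last k) r).det ≠ 0 := by
    rwa [det_updateRow_last]
  have h2 : Measurable fun t : Fin k → Fin (k + 1) → ℝ =>
      wd k (Fin.snoc t r : E (k + 1)) * F (mkG (Matrix.of (Fin.snoc t r : E (k + 1)))) :=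
    hΦ.comp (measurable_snoc r)
  have hp : 0 < |r (Fin.last k)| := abs_pos.2 hr
  simp only [Pi.mul_apply]
  rw [lint_top _ hS _ h2, lint_dt _ (measurable_inner hF r), det_updateRow_last,
    ← lintegral_const_mul' _ _ ENNReal.ofReal_ne_top,
    ← lintegral_const_mul' _ _ ENNReal.ofReal_ne_top]
  refine lintegral_congr fun x => ?_
  simp only [wd, of_snoc, Matrix.det_mul, det_blk, det_updateRow_last]
  by_cases hx : (Matrix.of x).det = 0
  · simp [hx]
  have e : ∀ b, mkG (blk (Matrix.of x) b * Matrix.updateRow 1 (Fin.last k) r) =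
      nb b * up (mkG (Matrix.of x)) * sr r := fun b => by
    rw [mkG_mul (by rwa [det_blk]) hS, nb_mul_up, sr]
    congr 1
    apply Units.ext
    rw [val_mkG (by rwa [det_blk]), val_pb, val_mkG hx]
  simp only [e]
  rw [lintegral_const_mul' _ _ ENNReal.ofReal_ne_top, ← mul_assoc, ← mul_assoc,
    ← ENNReal.ofReal_mul (by positivity), ← ENNReal.ofReal_mul (by positivity)]
  congr 2
  rw [abs_mul, mul_inv, mul_pow, pow_succ (|r (Fin.last k)|⁻¹), inv_pow (|r (Fin.last k)|)]
  field_simp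

/-! ### The decomposition of the Haar measure -/

lemma mu_zero (Ψ : G 0 → ℝ≥0∞) : ∫⁻ g, Ψ g ∂mu 0 = Ψ 1 := by
  have h1 : Ψ = fun _ => Ψ 1 := funext fun g => congrArg Ψ (Subsingleton.elim _ _)
  have h2 := lintegral_mu (k := 0) (fun _ => Ψ 1) measurable_const
  have h3 : range (co (k := 0)) = univ := by rw [range_co]; simp
  rw [h1, h2, h3]
  simp [dens, volume_pi]

lemma measurable_ug : Measurable fun p : G k × Y k => un k p.2 * p.1 :=
  ((measurable_un k).comp measurable_snd).mul measurable_fst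

lemma measurable_avg {Ψ : G k → ℝ≥0∞} (hΨ : Measurable Ψ) :
    Measurable fun g => ∫⁻ y, Ψ (un k y * g) ∂mY k :=
  (hΨ.comp measurable_ug).lintegral_prod_right'

lemma lint_Y {f : Y (k + 1) → ℝ≥0∞} (hf : Measurable f) :
    ∫⁻ y, f y ∂mY (k + 1) = ∫⁻ y, ∫⁻ b, f (y, b) ∂volume ∂mY k :=
  lintegral_prod (μ := mY k) (ν := volume) f hf.aemeasurable

lemma unfS : ∀ (k : ℕ) (Ψ : G k → ℝ≥0∞), Measurable Ψ →
    ∫⁻ g, Ψ g ∂mu k = II k fun g => ∫⁻ y, Ψ (un k y * g) ∂mY k
  | 0, Ψ, _ => by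
    rw [mu_zero, II_zero]
    change Ψ 1 = ∫⁻ _ : Unit, Ψ (1 * 1) ∂Measure.dirac ()
    simp
  | k + 1, Ψ, hΨ => by
    rw [blkS k Ψ hΨ, II_succ (measurable_avg hΨ)]
    refine lintegral_congr fun r => ?_
    refine (unfS k _ (measurable_idt.mul (measurable_inner hΨ r))).trans ?_
    congr 1
    ext1 g
    have hm : Measurable fun y : Y (k + 1) => Ψ (un (k + 1) y * (up g * sr r)) :=
      hΨ.comp ((measurable_un (k + 1)).mul_const _)
    rw [lint_Y hm, ← lintegral_const_mul' _ _ ENNReal.ofReal_ne_top]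
    refine lintegral_congr fun y => ?_
    simp only [Pi.mul_apply, dt_mul, (isU_un k y).dt, one_mul, un, up_mul, mul_assoc]

lemma measurable_dec : Measurable fun p : Y k × X k => un k p.1 * sg k p.2 :=
  ((measurable_un k).comp measurable_fst).mul ((measurable_sg k).comp measurable_snd)

lemma decS (k : ℕ) : MeasurePreserving (fun p : Y k × X k => un k p.1 * sg k p.2)
    ((mY k).prod (mX k)) (mu k) := by
  refine ⟨measurable_dec, Measure.ext_of_lintegral _ fun f hf => ?_⟩
  rw [lintegral_map hf measurable_dec, unfS k f hf]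
  exact lintegral_prod_symm _ (hf.comp measurable_dec).aemeasurable

/-! ### The unipotent group -/

lemma un_succ (y : Y (k + 1)) : un (k + 1) y = pb (un k y.1) y.2 := nb_mul_up _ _

/-- skew product with a translation -/
def skew {α β : Type} [MeasurableSpace α] [MeasurableSpace β] [AddCommGroup β]
    [MeasurableAdd₂ β] [MeasurableSub₂ β] (e : α ≃ᵐ α) (c : α → β) (hc : Measurable c) :
    α × β ≃ᵐ α × β where
  toFun p := (e p.1, c p.1 + p.2)
  invFun p := (e.symm p.1, p.2 - c (e.symm p.1))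
  left_inv p := by simp
  right_inv p := by simp
  measurable_toFun := (e.measurable.comp measurable_fst).prodMk
    ((hc.comp measurable_fst).add measurable_snd)
  measurable_invFun := (e.symm.measurable.comp measurable_fst).prodMk
    (measurable_snd.sub (hc.comp (e.symm.measurable.comp measurable_fst)))

lemma yrS : ∀ (k : ℕ) (u : G k), IsU u → ∃ e : Y k ≃ᵐ Y k, MeasurePreserving e (mY k) (mY k) ∧
    ∀ y, un k (e y) = un k y * u
  | 0, _, _ => ⟨MeasurableEquiv.refl _, MeasurePreserving.id _, fun _ => Subsingleton.elim _ _⟩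
  | k + 1, u, hu => by
    obtain ⟨u', b, hu', rfl⟩ := hu.exists_pb
    obtain ⟨e, h1, h2⟩ := yrS k u' hu'
    have hc : Measurable fun y : Y k => (un k y).val *ᵥ b :=
      (Continuous.measurable (f := fun g : G k => g.val *ᵥ b)
        (Units.continuous_val.matrix_mulVec continuous_const)).comp (measurable_un k)
    refine ⟨skew e _ hc, ?_, fun y => ?_⟩
    · exact h1.skew_product (g := fun y c => (un k y).val *ᵥ b + c)
        ((hc.comp measurable_fst).add measurable_snd)
        (Eventually.of_forall fun y => map_add_left_eq_self _ _)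
    · rw [un_succ, un_succ, pb_mul, ← h2]
      rfl

lemma conj_entry {a : Fin k → ℝ} (ha : ∀ i, a i ≠ 0) (g : G k) (i j : Fin k) :
    (dg a * g * (dg a)⁻¹).val i j = a i * g.val i j * (a j)⁻¹ := by
  rw [dg_inv ha, Units.val_mul, Units.val_mul, val_dg ha, val_dg fun i => inv_ne_zero (ha i),
    Matrix.mul_diagonal, Matrix.diagonal_mul]

lemma isU_conj {a : Fin k → ℝ} (ha : ∀ i, a i ≠ 0) {u : G k} (hu : IsU u) :
    IsU (dg a * u * (dg a)⁻¹) := fun i j hij => by
  rw [conj_entry ha, hu i j hij]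
  split_ifs with h
  · rw [h, mul_one, mul_inv_cancel₀ (ha j)]
  · simp

lemma dl_succ (a : Fin (k + 1) → ℝ) :
    dl a = dl (fun i : Fin k => a i.castSucc) * ∏ i : Fin k, a i.castSucc / a (Fin.last k) := by
  have key : ∀ (n : ℕ) (i : Fin n) (f : Fin n → ℝ),
      ∏ j ∈ Finset.Ioi i, f j = ∏ j, if i < j then f j else 1 := fun n i f => by
    rw [← Finset.prod_filter]
    congr 1
    ext j
    simp
  simp only [dl, key]
  rw [Fin.prod_univ_castSucc, ← Finset.prod_mul_distrib]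
  simp [Fin.prod_univ_castSucc, Fin.castSucc_lt_last, not_lt.2 (Fin.le_last _)]

lemma dl_pos {a : Fin k → ℝ} (ha : ∀ i, 0 < a i) : 0 < dl a :=
  Finset.prod_pos fun i _ => Finset.prod_pos fun j _ => div_pos (ha i) (ha j)

lemma dl_inv (a : Fin k → ℝ) : dl (fun i => (a i)⁻¹) = (dl a)⁻¹ := by
  simp only [dl, ← Finset.prod_inv_distrib, inv_div, inv_div_inv]

/-- scaling of the coordinates -/
def scl (d : Fin k → ℝ) (hd : ∀ i, d i ≠ 0) : (Fin k → ℝ) ≃ᵐ (Fin k → ℝ) :=
  MeasurableEquiv.piCongrRight fun i => MeasurableEquiv.mulLeft₀ (d i) (hd i)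

lemma map_scl (d : Fin k → ℝ) (hd : ∀ i, 0 < d i) :
    Measure.map (scl d fun i => (hd i).ne') volume = ENNReal.ofReal (∏ i, d i)⁻¹ • volume := by
  have hp : 0 < ∏ i, d i := Finset.prod_pos fun i _ => hd i
  have h := Real.map_matrix_volume_pi_eq_smul_volume_pi (M := Matrix.diagonal d)
    (by rw [Matrix.det_diagonal]; exact hp.ne')
  rw [Matrix.det_diagonal, abs_of_pos (inv_pos.2 hp)] at h
  rw [← h]
  congr 1
  ext x i
  simp [scl, MeasurableEquiv.piCongrRight, Matrix.mulVec_diagonal]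

lemma yscS : ∀ (k : ℕ) (a : Fin k → ℝ), (∀ i, 0 < a i) → ∃ e : Y k ≃ᵐ Y k,
    (mY k).map e = ENNReal.ofReal (dl a)⁻¹ • mY k ∧ ∀ y, un k (e y) = dg a * un k y * (dg a)⁻¹
  | 0, a, _ => ⟨MeasurableEquiv.refl _, by
      rw [show dl a = 1 by simp [dl], inv_one, ENNReal.ofReal_one, one_smul]
      exact Measure.map_id,
      fun _ => Subsingleton.elim _ _⟩
  | k + 1, a, ha => by
    obtain ⟨e, h1, h2⟩ := yscS k (fun i => a i.castSucc) fun i => ha _
    have hd : ∀ i : Fin k, 0 < a i.castSucc / a (Fin.last k) := fun i => div_pos (ha _) (ha _)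
    refine ⟨e.prodCongr (scl _ fun i => (hd i).ne'), ?_, fun y => ?_⟩
    · have h3 := Measure.map_prod_map (mY k) (volume : Measure (Fin k → ℝ)) e.measurable
        (scl _ fun i => (hd i).ne').measurable
      rw [h1, map_scl _ hd, Measure.prod_smul_left, Measure.prod_smul_right, smul_smul,
        ← ENNReal.ofReal_mul (inv_pos.2 (dl_pos fun i => ha _)).le, ← mul_inv, ← dl_succ] at h3
      exact h3.symm
    · apply Units.ext
      ext i j
      rw [conj_entry fun i => (ha i).ne', un_succ, un_succ]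
      change (pb (un k (e y.1)) fun i => a i.castSucc / a (Fin.last k) * y.2 i).val i j = _
      rw [h2]
      refine Fin.lastCases ?_ (fun i => ?_) i <;> refine Fin.lastCases ?_ (fun j => ?_) j
      · simp [(ha _).ne']
      · simp
      · rw [val_pb, val_pb, blk_cl, blk_cl]; ring
      · rw [val_pb, val_pb, blk_cc, blk_cc, conj_entry fun i => (ha _).ne']

lemma yballS : ∀ (k : ℕ) (δ : ℝ), 0 < δ →
    mY k {y | ∀ i j, i < j → |(un k y).val i j| < δ} = ENNReal.ofReal ((2 * δ) ^ k.choose 2)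
  | 0, δ, _ => by
    have : {y : Y 0 | ∀ i j, i < j → |(un 0 y).val i j| < δ} = univ :=
      eq_univ_of_forall fun y i => i.elim0
    rw [this]
    change Measure.dirac () (univ : Set Unit) = _
    simp
  | k + 1, δ, hδ => by
    have e : {y : Y k × (Fin k → ℝ) | ∀ i j, i < j → |(un (k + 1) y).val i j| < δ} =
        {y | ∀ i j, i < j → |(un k y).val i j| < δ} ×ˢ univ.pi fun _ => Ioo (-δ) δ := by
      ext y
      simp only [mem_ofPred_eq, mem_prod, Set.mem_pi, mem_univ, true_imp_iff, mem_Ioo, ← abs_lt,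
        un_succ (k := k) y, val_pb]
      constructor
      · intro h
        exact ⟨fun i j hij => by simpa using h i.castSucc j.castSucc (by simpa using hij),
          fun i => by simpa using h i.castSucc (Fin.last k) (Fin.castSucc_lt_last i)⟩
      · rintro ⟨h1, h2⟩ i j
        refine Fin.lastCases ?_ (fun i => ?_) i <;> refine Fin.lastCases ?_ (fun j => ?_) j
        · simp
        · intro h; exact absurd h (not_lt.2 (Fin.le_last _))
        · intro _; simpa using h2 i
        · intro h; simpa using h1 i j (by simpa using h)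
    change ((mY k).prod volume) _ = _
    erw [e]
    rw [Measure.prod_prod, yballS k δ hδ, Real.volume_pi_Ioo, Finset.prod_const,
      ← ENNReal.ofReal_pow (by linarith), ← ENNReal.ofReal_mul (by positivity), Finset.card_univ,
      Fintype.card_fin, Nat.choose_succ_succ, Nat.choose_one_right, pow_add, mul_comm]
    congr 3
    ring

lemma mY_ne (k : ℕ) : mY k ≠ 0 := fun h => by
  have := yballS k 1 one_pos
  rw [h, Measure.coe_zero, Pi.zero_apply, eq_comm, ENNReal.ofReal_eq_zero] at this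
  exact absurd this (not_le.2 (by positivity))

/-! ### Invariance of the integral over the quotient -/

lemma avg_uinv (θ : G k → ℝ≥0∞) {u : G k} (hu : IsU u) (g : G k) :
    ∫⁻ y, θ (un k y * (u * g)) ∂mY k = ∫⁻ y, θ (un k y * g) ∂mY k := by
  obtain ⟨e, h1, h2⟩ := yrS k u hu
  rw [← h1.lintegral_comp_emb e.measurableEmbedding fun y => θ (un k y * g)]
  simp only [h2, mul_assoc]

lemma ae_sg {p : G k → Prop} (hp : UInv p) (h : ∀ᵐ g ∂mu k, p g) : ∀ᵐ x ∂mX k, p (sg k x) := by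
  have : NeZero (mY k) := ⟨mY_ne k⟩
  obtain ⟨y, hy⟩ := (Measure.ae_ae_of_ae_prod ((decS k).quasiMeasurePreserving.ae h)).exists
  simpa only [hp _ (isU_un k y)] using hy

lemma ae_mu {p : G k → Prop} (hp : UInv p) (hm : MeasurableSet {g | p g})
    (h : ∀ᵐ x ∂mX k, p (sg k x)) : ∀ᵐ g ∂mu k, p g := by
  rw [← (decS k).map_eq, ae_map_iff measurable_dec.aemeasurable hm]
  filter_upwards [Measure.quasiMeasurePreserving_snd.ae h] with q hq
  rwa [hp _ (isU_un k q.1)]

lemma wt_eq {β H : G k → ℝ≥0∞} {c : ℝ≥0∞} (hβ : Measurable β) (hH : Measurable H) (hU : UInv H)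
    (h : ∀ᵐ g ∂mu k, ∫⁻ y, β (un k y * g) ∂mY k = c) : ∫⁻ g, β g * H g ∂mu k = c * II k H := by
  have h1 : Measurable fun g => β g * H g := hβ.mul hH
  have h2 : Measurable fun x => H (sg k x) := hH.comp (measurable_sg k)
  rw [unfS k _ h1, II, II, ← lintegral_const_mul _ h2]
  refine lintegral_congr_ae ?_
  filter_upwards [ae_sg (fun u hu g => by simp only [avg_uinv β hu g]) h] with x hx
  have h3 : Measurable fun y => β (un k y * sg k x) := hβ.comp ((measurable_un k).mul_const _)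
  simp only [hU _ (isU_un k _)]
  rw [lintegral_mul_const _ h3, hx]

lemma exists_wt (k : ℕ) : ∃ β : G k → ℝ≥0∞, Measurable β ∧
    ∀ᵐ g ∂mu k, ∫⁻ y, β (un k y * g) ∂mY k = 1 := by
  obtain ⟨θ, h1, h2, h3⟩ := exists_pos_lintegral_lt_of_sigmaFinite (mu k) one_ne_zero
  have hθ : Measurable fun g => (θ g : ℝ≥0∞) := h2.coe_nnreal_ennreal
  have hD := measurable_avg hθ
  refine ⟨fun g => θ g * (∫⁻ y, θ (un k y * g) ∂mY k)⁻¹, hθ.mul hD.inv, ?_⟩
  rw [unfS k _ hθ] at h3
  have h4 : ∀ᵐ g ∂mu k, ∫⁻ y, (θ (un k y * g) : ℝ≥0∞) ∂mY k < ⊤ :=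
    ae_mu (fun u hu g => by simp only [avg_uinv (fun g => (θ g : ℝ≥0∞)) hu g])
      (measurableSet_lt hD measurable_const)
      (ae_lt_top (hD.comp (measurable_sg k)) (h3.trans ENNReal.one_lt_top).ne)
  filter_upwards [h4] with g hg
  have hm : Measurable fun y => (θ (un k y * g) : ℝ≥0∞) := hθ.comp ((measurable_un k).mul_const _)
  simp only [avg_uinv (fun g => (θ g : ℝ≥0∞)) (isU_un k _) g]
  rw [lintegral_mul_const _ hm]
  refine ENNReal.mul_inv_cancel (fun h0 => ?_) hg.ne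
  have : NeZero (mY k) := ⟨mY_ne k⟩
  obtain ⟨y, hy⟩ := ((lintegral_eq_zero_iff hm).1 h0).exists
  exact (h1 _).ne' (by simpa using hy)

lemma iirS (k : ℕ) (H : G k → ℝ≥0∞) (hH : Measurable H) (hU : UInv H) (a : G k) :
    II k (rt a H) = II k H := by
  obtain ⟨β, h1, h2⟩ := exists_wt k
  have h3 := wt_eq h1 (H := rt a H) (hH.comp (measurable_mul_const a))
    (fun u hu g => by simp only [rt, mul_assoc, hU u hu]) h2
  have h4 := wt_eq (β := fun g => β (g * a⁻¹)) (c := 1) (h1.comp (measurable_mul_const _)) hH hU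
    (by simpa only [mul_assoc] using (mp_rmul a⁻¹).quasiMeasurePreserving.ae h2)
  rw [← lintegral_mul_right_eq_self _ a] at h4
  simp only [mul_inv_cancel_right, one_mul] at h3 h4
  exact h3.symm.trans h4

lemma iilS (k : ℕ) (H : G k → ℝ≥0∞) (hH : Measurable H) (hU : UInv H) (a : Fin k → ℝ)
    (ha : ∀ i, 0 < a i) : II k (fun g => H (dg a * g)) = ENNReal.ofReal (dl a) * II k H := by
  obtain ⟨β, h1, h2⟩ := exists_wt k
  have ha' : ∀ i, a i ≠ 0 := fun i => (ha i).ne'
  have h3 := wt_eq h1 (H := fun g => H (dg a * g)) (hH.comp (measurable_const_mul _))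
    (fun u hu g => by
      simpa only [mul_assoc, inv_mul_cancel_left] using hU _ (isU_conj ha' hu) (dg a * g)) h2
  obtain ⟨e, e1, e2⟩ := yscS k (fun i => (a i)⁻¹) fun i => inv_pos.2 (ha i)
  rw [dl_inv, inv_inv] at e1
  rw [← dg_inv ha'] at e2
  have h4 := wt_eq (β := fun g => β ((dg a)⁻¹ * g)) (c := ENNReal.ofReal (dl a))
    (h1.comp (measurable_const_mul _)) hH hU (by
      filter_upwards [(measurePreserving_mul_left (mu k) (dg a)⁻¹).quasiMeasurePreserving.ae h2]
        with g hg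
      have := lintegral_map_equiv (μ := mY k) (fun y => β (un k y * ((dg a)⁻¹ * g))) e
      rw [e1, lintegral_smul_measure, hg, smul_eq_mul, mul_one] at this
      simpa only [e2, inv_inv, mul_assoc, mul_inv_cancel_left] using this.symm)
  rw [← lintegral_mul_left_eq_self _ (dg a)] at h4
  simp only [inv_mul_cancel_left, one_mul] at h3 h4
  exact h3.symm.trans h4

end Haar

open Haar in
theorem haar : HaarStmt := ⟨blkS, decS, unfS, yrS, yscS, yballS, iirS, iilS⟩

end Pool.Agent.Lib.MP_fa98d2_nt.D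
end
end
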