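import Pool.Agent.Lib.MP_fa98d2_nt.D.Calc

-- part Pool.Agent.Lib.MP_fa98d2_nt.D.RB
section

/-!
Density theorem for cusp forms on PGL(n): the bound for the Kirillov constant and the trivial
bound for the Satake parameters.
-/

open MeasureTheory Filter Topology Matrix
open scoped ENNReal Real ContDiff ComplexConjugate

noncomputable section

namespace Pool.Agent.Lib.MP_fa98d2_nt.D

namespace RB

variable {N : ℕ}

/-! ### Combinatorics of the coefficients -/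

/-- the coefficients -/
def cf (S : ℕ → (Fin (N + 1) → ℕ) → ℂ) : (Fin N → ℕ+) → ℂ := mulf fun p e => S p (lam e)

/-- squares of the local coefficients -/
def af (S : ℕ → (Fin (N + 1) → ℕ) → ℂ) (p : ℕ) (e : Fin N → ℕ) : ℝ := ‖S p (lam e)‖ ^ 2

lemma lam_zero : lam (0 : Fin N → ℕ) = 0 := by
  ext i; simp [lam]

lemma lam_anti (e : Fin N → ℕ) : Antitone (lam e) := by
  intro i j hij
  refine Finset.sum_le_sum fun l _ => ?_
  by_cases h : j.val ≤ l.val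
  · rw [if_pos h, if_pos (le_trans (Fin.le_def.1 hij) h)]
  · rw [if_neg h]; exact Nat.zero_le _

lemma sum_ite_le (j x : ℕ) (hj : j < N) :
    (∑ i : Fin (N + 1), if i.val ≤ j then x else 0) = (j + 1) * x := by
  rw [Fin.sum_univ_eq_sum_range (fun i => if i ≤ j then x else 0) (N + 1), ← Finset.sum_filter]
  have : (Finset.range (N + 1)).filter (fun i => i ≤ j) = Finset.range (j + 1) := by
    ext i; simp only [Finset.mem_filter, Finset.mem_range]; omega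
  rw [this, Finset.sum_const, Finset.card_range, smul_eq_mul]

lemma sum_lam (e : Fin N → ℕ) : ∑ i, lam e i = wsz e := by
  unfold lam wsz
  rw [Finset.sum_comm]
  exact Finset.sum_congr rfl fun j _ => sum_ite_le j.val (e j) j.isLt

lemma lam_single (l : ℕ) :
    lam (Pi.single 0 l : Fin (N + 1) → ℕ) = (Pi.single 0 l : Fin (N + 2) → ℕ) := by
  ext i
  unfold lam
  rw [Finset.sum_eq_single (0 : Fin (N + 1))]
  · refine Fin.cases ?_ (fun i => ?_) i
    · simp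
    · simp
  · intro b _ hb
    simp [Pi.single_eq_of_ne hb]
  · intro h; exact absurd (Finset.mem_univ _) h

lemma norm_cf (S : ℕ → (Fin (N + 1) → ℕ) → ℂ) (m : Fin N → ℕ+) :
    ‖cf S m‖ ^ 2 = mulf (af S) m := by
  unfold cf mulf af
  rw [norm_prod, Finset.prod_pow]

lemma DS_eq (S : ℕ → (Fin (N + 1) → ℕ) → ℂ) (s : ℝ) : DS (cf S) s = Dser (af S) s := by
  unfold DS Dser
  simp_rw [norm_cf]

lemma one_le_DS (S : ℕ → (Fin (N + 1) → ℕ) → ℂ) (s : ℝ) : 1 ≤ DS (cf S) s := by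
  refine le_trans (le_of_eq ?_) (ENNReal.le_tsum (1 : Fin N → ℕ+))
  simp [cf, mulf, dtm]

/-- the tuple `(p ^ l, 1, ..., 1)` -/
def tp (N p l : ℕ) (hp : 0 < p) (i : Fin (N + 1)) : ℕ+ :=
  if i = 0 then Nat.toPNat (p ^ l) (pow_pos hp l) else 1

lemma tp_zero (p l : ℕ) (hp : 0 < p) : ((tp N p l hp 0 : ℕ+) : ℕ) = p ^ l := by
  rw [tp, if_pos rfl]; rfl

lemma tp_succ (p l : ℕ) (hp : 0 < p) (i : Fin N) : ((tp N p l hp i.succ : ℕ+) : ℕ) = 1 := by
  rw [tp, if_neg (Fin.succ_ne_zero i)]; rfl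

lemma dtm_tp (p l : ℕ) (hp : 0 < p) : dtm (tp N p l hp) = (p : ℝ) ^ l := by
  unfold dtm
  rw [Fin.prod_univ_succ]
  simp [tp_zero, tp_succ]

lemma cf_tp (S : ℕ → (Fin (N + 2) → ℕ) → ℂ) {p : ℕ} (hp : p.Prime) (h0 : S p 0 = 1) (l : ℕ) :
    cf S (tp N p l hp.pos) = S p (Pi.single 0 l) := by
  unfold cf mulf
  have h1 : (∏ i, ((tp N p l hp.pos i : ℕ+) : ℕ)) = p ^ l := by
    rw [Fin.prod_univ_succ]
    simp [tp_zero, tp_succ]
  rw [h1]
  rcases Nat.eq_zero_or_pos l with rfl | hl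
  · simp [h0]
  · rw [Nat.primeFactors_prime_pow hl.ne' hp, Finset.prod_singleton, ← lam_single]
    congr 2
    ext i
    refine Fin.cases ?_ (fun i => ?_) i
    · rw [tp_zero, hp.factorization_pow]; simp
    · rw [tp_succ]; simp

lemma term_le (S : ℕ → (Fin (N + 2) → ℕ) → ℂ) {p : ℕ} (hp : p.Prime) (h0 : S p 0 = 1) (l : ℕ)
    (s : ℝ) : ENNReal.ofReal (‖S p (Pi.single 0 l)‖ ^ 2 * ((p : ℝ) ^ l) ^ (-s)) ≤ DS (cf S) s := by
  refine le_trans (le_of_eq ?_) (ENNReal.le_tsum (tp N p l hp.pos))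
  rw [cf_tp S hp h0, dtm_tp]

lemma le_of_pow_le {x y C : ℝ} (hy : 0 < y) (h : ∀ l : ℕ, x ^ l ≤ C * y ^ l) : x ≤ y := by
  by_contra hxy
  have h1 : 1 < x / y := (one_lt_div hy).2 (not_le.1 hxy)
  obtain ⟨l, hl⟩ := pow_unbounded_of_one_lt C h1
  have := h l
  rw [div_pow, lt_div_iff₀ (pow_pos hy l)] at hl
  exact absurd this (not_le.2 hl)

lemma alpha_le_s {α : Fin (N + 2) → ℂ} (S : ℕ → (Fin (N + 2) → ℕ) → ℂ) {p : ℕ} (hp : p.Prime)
    (hS : IsSch α (S p)) {s : ℝ} (hs : 0 ≤ s) (hfin : DS (cf S) s ≠ ⊤) (i : Fin (N + 2)) :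
    ‖α i‖ ≤ (p : ℝ) ^ (s / 2) := by
  have hp1 : (1 : ℝ) ≤ p := by exact_mod_cast hp.one_le
  have hp0 : (0 : ℝ) < p := lt_of_lt_of_le one_pos hp1
  set y : ℝ := (p : ℝ) ^ (s / 2) with hy
  have hy1 : 1 ≤ y := Real.one_le_rpow hp1 (by linarith)
  set D : ℝ := (DS (cf S) s).toReal with hD
  have hD0 : 0 ≤ D := ENNReal.toReal_nonneg
  have h1 : ∀ l : ℕ, ‖S p (Pi.single 0 l)‖ ≤ Real.sqrt D * y ^ l := by
    intro l
    have h2 := (ENNReal.ofReal_le_iff_le_toReal hfin).1 (term_le S hp hS.1 l s)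
    have h3 : (y ^ l) ^ 2 = ((p : ℝ) ^ l) ^ s := by
      rw [hy, ← Real.rpow_natCast, ← Real.rpow_natCast, ← Real.rpow_natCast,
        ← Real.rpow_mul hp0.le, ← Real.rpow_mul hp0.le, ← Real.rpow_mul hp0.le]
      congr 1; push_cast; ring
    have h4 : (0 : ℝ) < ((p : ℝ) ^ l) ^ s := Real.rpow_pos_of_pos (pow_pos hp0 l) s
    rw [Real.rpow_neg (pow_pos hp0 l).le, ← div_eq_mul_inv, div_le_iff₀ h4, ← hD, ← h3] at h2
    refine le_of_sq_le_sq ?_ (by positivity)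
    rw [mul_pow, Real.sq_sqrt hD0]
    exact h2
  set B : ℝ := 1 + ∑ j, ‖α j‖ with hB
  have hB1 : 1 ≤ B := le_add_of_nonneg_right (Finset.sum_nonneg fun j _ => norm_nonneg _)
  have hBa : ∀ j, ‖α j‖ ≤ B := fun j =>
    le_trans (Finset.single_le_sum (f := fun j => ‖α j‖) (fun j _ => norm_nonneg _)
      (Finset.mem_univ j)) (le_add_of_nonneg_left zero_le_one)
  have h5 := (hS.2.2 B hB1 hBa).2 i
  refine le_of_pow_le (C := (1 + B) ^ (N + 1) * ((N + 2 : ℕ) * Real.sqrt D)) (by positivity)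
    fun l => (h5 l).trans ?_
  rw [mul_assoc]
  refine mul_le_mul_of_nonneg_left ?_ (by positivity)
  calc ∑ j ∈ Finset.range (min l (N + 1) + 1), ‖S p (Pi.single 0 (l - j))‖
      ≤ ∑ _j ∈ Finset.range (min l (N + 1) + 1), Real.sqrt D * y ^ l := by
        refine Finset.sum_le_sum fun j _ => (h1 _).trans ?_
        exact mul_le_mul_of_nonneg_left (pow_le_pow_right₀ hy1 (Nat.sub_le _ _))
          (Real.sqrt_nonneg _)
    _ ≤ ((N + 2 : ℕ) * Real.sqrt D) * y ^ l := by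
        rw [Finset.sum_const, Finset.card_range, nsmul_eq_mul, mul_assoc]
        refine mul_le_mul_of_nonneg_right ?_ (by positivity)
        exact_mod_cast Nat.succ_le_succ (min_le_right _ _)

lemma alpha_le {α : Fin (N + 2) → ℂ} (S : ℕ → (Fin (N + 2) → ℕ) → ℂ) {p : ℕ} (hp : p.Prime)
    (hS : IsSch α (S p)) (hfin : ∀ s : ℝ, 1 < s → s ≤ 3 → DS (cf S) s ≠ ⊤) (i : Fin (N + 2)) :
    ‖α i‖ ≤ Real.sqrt p := by
  have hp0 : (0 : ℝ) < p := by exact_mod_cast hp.pos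
  have hc : ContinuousAt (fun s : ℝ => (p : ℝ) ^ (s / 2)) 1 :=
    (Real.continuousAt_const_rpow hp0.ne').comp (f := fun s : ℝ => s / 2) (by fun_prop)
  have ht : Tendsto (fun s : ℝ => (p : ℝ) ^ (s / 2)) (𝓝[>] 1) (𝓝 ((p : ℝ) ^ ((1 : ℝ) / 2))) :=
    hc.tendsto.mono_left nhdsWithin_le_nhds
  rw [Real.sqrt_eq_rpow]
  refine ge_of_tendsto ht ?_
  filter_upwards [Ioc_mem_nhdsGT (show (1 : ℝ) < 3 by norm_num)] with s hs
  exact alpha_le_s S hp hS (by linarith [hs.1]) (hfin s hs.1 hs.2) i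

lemma af_le {α : Fin (N + 1) → ℂ} (S : ℕ → (Fin (N + 1) → ℕ) → ℂ) {p : ℕ} (hp : p.Prime)
    (hS : IsSch α (S p)) (hα : ∀ i, ‖α i‖ ≤ Real.sqrt p) (e : Fin N → ℕ) :
    af S p e ≤ ((N + 1).factorial * (N + 1) ^ ((N + 1) ^ 2) : ℝ) ^ 2 *
      (wsz e + 1 : ℝ) ^ (2 * (N + 1) ^ 2) * (p : ℝ) ^ wsz e := by
  have hp1 : (1 : ℝ) ≤ p := by exact_mod_cast hp.one_le
  have h1 := (hS.2.2 (Real.sqrt p) (Real.one_le_sqrt.2 hp1) hα).1 (lam e) (lam_anti e)
  rw [sum_lam] at h1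
  refine (pow_le_pow_left₀ (norm_nonneg _) h1 2).trans (le_of_eq ?_)
  rw [mul_pow, mul_pow, ← pow_mul, ← pow_mul (Real.sqrt p), mul_comm (wsz e) 2, pow_mul (Real.sqrt p),
    Real.sq_sqrt (by linarith), mul_comm ((N + 1) ^ 2) 2]

/-! ### The Rankin-Selberg integral -/

/-- the constant in the unfolding -/
def kap (N : ℕ) : ℝ := (N + 1) / Real.log 2

lemma kap_pos (N : ℕ) : 0 < kap N := div_pos (by positivity) (Real.log_pos one_lt_two)

lemma cone_le (i : Fin N) (r : Fin N → ℝ) : cone i r ≤ 1 := by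
  unfold cone; split_ifs <;> simp

lemma cone_zero (i : Fin N) (r : Fin N → ℝ) (h : 2 < ‖r‖) : cone i r = 0 := by
  unfold cone
  rw [if_neg]
  rintro ⟨-, h2, h3⟩
  exact absurd ((pi_norm_le_iff_of_nonneg zero_le_two).2 fun j => (h3 j).trans h2) (not_le.2 h)

lemma ball_le (r : Fin N → ℝ) : ball2 r ≤ 1 := by
  unfold ball2; split_ifs <;> simp

lemma ball_zero (r : Fin N → ℝ) (h : 2 < ‖r‖) : ball2 r = 0 := by
  unfold ball2
  rw [if_neg (not_le.2 h)]

lemma ball_meas : Measurable (ball2 (k := N)) := by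
  unfold ball2
  exact Measurable.ite (measurableSet_le measurable_norm measurable_const) measurable_const
    measurable_const

lemma cone_int (i : Fin N) : ∫⁻ r, cone i r ≠ ⊤ := by
  have h : ∀ r, cone i r ≤ (Metric.closedBall (0 : Fin N → ℝ) 2).indicator 1 r := by
    intro r
    by_cases hr : r ∈ Metric.closedBall (0 : Fin N → ℝ) 2
    · rw [Set.indicator_of_mem hr]; exact cone_le i r
    · rw [cone_zero i r (by simpa using hr)]; exact zero_le
  refine ne_top_of_le_ne_top ?_ (lintegral_mono h)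
  rw [lintegral_indicator_one measurableSet_closedBall]
  exact measure_closedBall_lt_top.ne

lemma jj_bound (hL : LatStmt) (hR : RSStmt) (hD : CDStmt) (hN : 1 ≤ N) :
    ∃ (M : ℕ) (K : ℝ≥0∞), K ≠ ⊤ ∧ ∀ Φ : (Fin (N + 1) → ℝ) → ℝ≥0∞, Measurable Φ → (∀ r, Φ r ≤ 1) →
      (∀ r, 2 < ‖r‖ → Φ r = 0) → ∀ s : ℝ, 1 < s → s ≤ 3 → ∀ w : G (N + 1) → ℂ, Sm w → Aut w →
      Cusp w → ENNReal.ofReal (s - 1) * JJ s Φ w ≤ K * Sob M w := by
  obtain ⟨s2, M, C, hs2, hC, H⟩ := hD N hN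
  obtain ⟨C', hC', H'⟩ := hL.dom N s2 (by linarith)
  refine ⟨M, ENNReal.ofReal (kap N) * (C' * C),
    ENNReal.mul_ne_top ENNReal.ofReal_ne_top (ENNReal.mul_ne_top hC' hC), ?_⟩
  intro Φ hΦ h1 h2 s hs hs3 w hsm haut hcu
  rw [hR.eis N s Φ hΦ w haut, mul_left_comm, mul_assoc, mul_assoc]
  refine mul_le_mul_right ?_ _
  refine le_trans ?_ (mul_le_mul_right (H w hsm haut hcu) _)
  rw [← lintegral_const_mul' _ _ ENNReal.ofReal_ne_top, ← lintegral_const_mul' _ _ hC']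
  refine lintegral_mono fun g => ?_
  rw [mul_left_comm, mul_left_comm C']
  exact mul_le_mul_right (H' Φ h1 (fun r hr => h2 r (by linarith)) s hs hs3 g.val (det_ne g)) _

lemma mink_bound (hL : LatStmt) (hR : RSStmt) {s : ℝ} (hs : 0 ≤ s) {w : G (N + 1) → ℂ}
    (hw : Aut w) : ENNReal.ofReal (kap N) * N2 w ≤ 2 * ∑ i, JJ s (cone i) w := by
  have hm : Measurable fun g => ‖w g‖ₑ ^ 2 := hw.cont.measurable.enorm.pow_const 2
  simp_rw [fun i => hR.eis N s (cone i) (hR.conem N i) w hw]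
  rw [← Finset.mul_sum, mul_left_comm]
  refine mul_le_mul_right ?_ _
  rw [← lintegral_finsetSum _ fun i _ => hm.fun_mul (hR.eism N s (cone i) (hR.conem N i)),
    ← lintegral_const_mul' _ _ (by simp)]
  refine lintegral_mono fun g => ?_
  rw [← Finset.mul_sum, mul_left_comm]
  exact le_mul_of_one_le_right' (hL.mink N s hs g.val (det_ne g))

lemma jj_eq (hR : RSStmt) (hSh : ShinStmt) {α : ℕ → Fin (N + 1) → ℂ}
    {S : ℕ → (Fin (N + 1) → ℕ) → ℂ} (hS : ∀ p : ℕ, p.Prime → IsSch (α p) (S p)) (s : ℝ)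
    {Φ : (Fin (N + 1) → ℝ) → ℝ≥0∞} (hΦ : Measurable Φ) {w : G (N + 1) → ℂ} (hw : InV α w) :
    JJ s Φ w = zet N s * (DS (cf S) s * Iv s Φ (W1 w)) := by
  rw [hR.unf N s Φ hΦ w hw.aut hw.cusp,
    hR.dser N s Φ hΦ w hw.aut (cf S) (hSh N α S hS w hw.aut hw.hk)]

lemma holder {s : ℝ} (hs : 1 ≤ s) (hs3 : s ≤ 3) {Φ : (Fin (N + 1) → ℝ) → ℝ≥0∞}
    (hΦ : Measurable Φ) {W : G (N + 1) → ℂ} (hW : Continuous W) :
    Iv s Φ W ≤ Iv 1 Φ W ^ (1 - (s - 1) / 2) * Iv 3 Φ W ^ ((s - 1) / 2) := by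
  have hm : ∀ t : ℝ, Measurable fun x : X (N + 1) =>
      ENNReal.ofReal (dt (sg (N + 1) x) ^ t) * Φ (lr (sg (N + 1) x)) * ‖W (sg (N + 1) x)‖ₑ ^ 2 :=
    fun t => (((measurable_dt.pow_const t).ennreal_ofReal.mul
      (hΦ.comp continuous_lr.measurable)).mul (hW.measurable.enorm.pow_const 2)).comp
        (measurable_sg (N + 1))
  have h1 : 0 ≤ 1 - (s - 1) / 2 := by linarith
  have h2 : 0 ≤ (s - 1) / 2 := by linarith
  refine le_trans (le_of_eq ?_) (ENNReal.lintegral_mul_norm_pow_le (hm 1).aemeasurable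
    (hm 3).aemeasurable h1 h2 (by ring))
  refine lintegral_congr fun x => ?_
  have hd := dt_pos (sg (N + 1) x)
  simp only [mul_assoc]
  rw [ENNReal.mul_rpow_of_nonneg _ _ h1, ENNReal.mul_rpow_of_nonneg _ _ h2, mul_mul_mul_comm,
    ← ENNReal.rpow_add_of_nonneg _ _ h1 h2, sub_add_cancel, ENNReal.rpow_one,
    ENNReal.ofReal_rpow_of_pos (Real.rpow_pos_of_pos hd _),
    ENNReal.ofReal_rpow_of_pos (Real.rpow_pos_of_pos hd _),
    ← ENNReal.ofReal_mul (by positivity), ← Real.rpow_mul hd.le, ← Real.rpow_mul hd.le,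
    ← Real.rpow_add hd]
  congr 3; ring

lemma iv_one (hW : WhStmt) (hR : RSStmt) (hV : ClassStmt) {α : ℕ → Fin (N + 1) → ℂ} {R : ℝ}
    (hI : Iso α R) {Φ : (Fin (N + 1) → ℝ) → ℝ≥0∞} (hΦ : Measurable Φ) {w : G (N + 1) → ℂ}
    (hw : InV α w) : ENNReal.ofReal R * Iv 1 Φ (W1 w) = (∫⁻ r, Φ r) * N2 w := by
  rw [hR.ik N 1 Φ hΦ (W1 w) (hW.cont N _ w hw.aut.cont),
    ← lintegral_const_mul' _ _ ENNReal.ofReal_ne_top, ← lintegral_mul_const _ hΦ]
  refine lintegral_congr fun r => ?_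
  rw [sub_self, Real.rpow_zero, ENNReal.ofReal_one, mul_one, mul_left_comm, W1, ← Wf_rt,
    ← hV.n2rt _ w hw.aut (sr r), hI.2 _ (hV.rtV _ α w hw (sr r))]
  rfl

lemma n2_pos (hQ : QuotStmt) {α : ℕ → Fin (N + 1) → ℂ} {w : G (N + 1) → ℂ} (hw : InV α w)
    (h0 : w ≠ 0) : N2 w ≠ 0 ∧ N2 w ≠ ⊤ :=
  ⟨fun h => h0 (hQ.pos _ w hw.aut h), (hw.l2 []).ne⟩

lemma ds_le (hQ : QuotStmt) (hR : RSStmt) (hSh : ShinStmt) (hN : 1 ≤ N) {α : ℕ → Fin (N + 1) → ℂ}
    {S : ℕ → (Fin (N + 1) → ℕ) → ℂ} (hS : ∀ p : ℕ, p.Prime → IsSch (α p) (S p)) {R : ℝ}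
    (hI : Iso α R) {w : G (N + 1) → ℂ} (hw : InV α w) (h0 : w ≠ 0) {s : ℝ} (hs : 1 < s)
    {Y1 Y2 : ℝ≥0∞} (hY : Y1 ≠ ⊤) (h1 : ENNReal.ofReal (s - 1) * JJ s ball2 w ≤ Y1 * N2 w)
    (h2 : KK 1 (W1 w) ≤ Y2 * Iv s ball2 (W1 w)) :
    ENNReal.ofReal (s - 1) * DS (cf S) s ≤ Y1 * (ENNReal.ofReal R * Y2) := by
  obtain ⟨hn0, hnt⟩ := n2_pos hQ hw h0
  have h3 : ENNReal.ofReal (s - 1) * DS (cf S) s * Iv s ball2 (W1 w) ≤ Y1 * N2 w := by
    refine le_trans ?_ h1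
    rw [jj_eq hR hSh hS s ball_meas hw, mul_assoc]
    exact mul_le_mul_right (le_mul_of_one_le_left' (hR.zeta N s hN hs.le).1) _
  have h4 : N2 w ≤ ENNReal.ofReal R * Y2 * Iv s ball2 (W1 w) := by
    rw [hI.2 w hw, mul_assoc]
    exact mul_le_mul_right h2 _
  have h5 : Iv s ball2 (W1 w) ≠ 0 := by
    intro h
    rw [h, mul_zero] at h4
    exact hn0 (le_zero_iff.1 h4)
  have h6 : Iv s ball2 (W1 w) ≠ ⊤ := by
    intro h
    rw [h, ENNReal.mul_top (mul_ne_zero (ENNReal.ofReal_pos.2 (by linarith)).ne'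
      (lt_of_lt_of_le one_pos (one_le_DS S s)).ne')] at h3
    exact ENNReal.mul_ne_top hY hnt (top_le_iff.1 h3)
  rw [← ENNReal.mul_le_mul_iff_left h5 h6, mul_assoc Y1]
  exact h3.trans (mul_le_mul_right h4 _)

lemma jj_le (hW : WhStmt) (hR : RSStmt) (hSh : ShinStmt) (hV : ClassStmt) (hN : 1 ≤ N)
    {α : ℕ → Fin (N + 1) → ℂ} {S : ℕ → (Fin (N + 1) → ℕ) → ℂ}
    (hS : ∀ p : ℕ, p.Prime → IsSch (α p) (S p)) {R : ℝ} (hI : Iso α R) {w : G (N + 1) → ℂ}
    (hw : InV α w) {s : ℝ} (hs : 1 ≤ s) (hs3 : s ≤ 3) {Y : ℝ≥0∞} (i : Fin (N + 1))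
    (h1 : JJ 3 (cone i) w ≤ Y * N2 w) :
    ENNReal.ofReal R ^ (1 - (s - 1) / 2) * JJ s (cone i) w ≤
      2 * (DS (cf S) s * ((∫⁻ r, cone (Fin.last N) r) ^ (1 - (s - 1) / 2) * Y ^ ((s - 1) / 2))) *
        N2 w := by
  have e1 : 0 ≤ 1 - (s - 1) / 2 := by linarith
  have e2 : 0 ≤ (s - 1) / 2 := by linarith
  have hc := hR.conem N (Fin.last N)
  have hw' := hV.rtV _ α w hw (sw i)
  have h3 : Iv 3 (cone (Fin.last N)) (W1 (rt (sw i) w)) ≤ Y * N2 w := by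
    refine le_trans ?_ h1
    rw [hR.swp N 3 i w hw.aut, jj_eq hR hSh hS 3 hc hw']
    exact (le_mul_of_one_le_left' (one_le_DS S 3)).trans
      (le_mul_of_one_le_left' (hR.zeta N 3 hN (by norm_num)).1)
  have h4 := iv_one hW hR hV hI hc hw'
  rw [hV.n2rt _ w hw.aut] at h4
  have h5 := holder hs hs3 hc (hW.cont N (fun _ => 1) _ hw'.aut.cont)
  have h6 : ENNReal.ofReal R ^ (1 - (s - 1) / 2) * Iv s (cone (Fin.last N)) (W1 (rt (sw i) w)) ≤
      (∫⁻ r, cone (Fin.last N) r) ^ (1 - (s - 1) / 2) * Y ^ ((s - 1) / 2) * N2 w := by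
    refine (mul_le_mul_right h5 _).trans ?_
    rw [← mul_assoc, ← ENNReal.mul_rpow_of_nonneg _ _ e1]
    refine (mul_le_mul' (ENNReal.rpow_le_rpow h4.le e1) (ENNReal.rpow_le_rpow h3 e2)).trans
      (le_of_eq ?_)
    rw [ENNReal.mul_rpow_of_nonneg _ _ e1, ENNReal.mul_rpow_of_nonneg _ _ e2, mul_mul_mul_comm,
      ← ENNReal.rpow_add_of_nonneg _ _ e1 e2, sub_add_cancel, ENNReal.rpow_one]
  rw [hR.swp N s i w hw.aut, jj_eq hR hSh hS s hc hw', mul_left_comm, mul_left_comm _ (DS _ _),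
    mul_assoc 2, mul_assoc (DS _ _)]
  exact mul_le_mul' (hR.zeta N s hN hs).2 (mul_le_mul_right h6 _)

lemma r_le (hL : LatStmt) (hQ : QuotStmt) (hW : WhStmt) (hR : RSStmt) (hSh : ShinStmt)
    (hV : ClassStmt) (hN : 1 ≤ N) {α : ℕ → Fin (N + 1) → ℂ} {S : ℕ → (Fin (N + 1) → ℕ) → ℂ}
    (hS : ∀ p : ℕ, p.Prime → IsSch (α p) (S p)) {R : ℝ} (hI : Iso α R) {w : G (N + 1) → ℂ}
    (hw : InV α w) (h0 : w ≠ 0) {s : ℝ} (hs : 1 ≤ s) (hs3 : s ≤ 3) {Y : ℝ≥0∞}
    (h1 : ∀ i, JJ 3 (cone i) w ≤ Y * N2 w) :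
    ENNReal.ofReal (kap N) * ENNReal.ofReal R ^ (1 - (s - 1) / 2) ≤ 2 * (((N + 1 : ℕ) : ℝ≥0∞) *
      (2 * (DS (cf S) s *
        ((∫⁻ r, cone (Fin.last N) r) ^ (1 - (s - 1) / 2) * Y ^ ((s - 1) / 2))))) := by
  obtain ⟨hn0, hnt⟩ := n2_pos hQ hw h0
  rw [← ENNReal.mul_le_mul_iff_left hn0 hnt, mul_right_comm, mul_comm]
  refine (mul_le_mul_right (mink_bound hL hR (s := s) (by linarith) hw.aut) _).trans ?_
  rw [mul_left_comm, mul_assoc 2, Finset.mul_sum]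
  refine mul_le_mul_right ?_ _
  refine (Finset.sum_le_sum fun i _ => jj_le hW hR hSh hV hN hS hI hw hs hs3 i (h1 i)).trans
    (le_of_eq ?_)
  rw [Finset.sum_const, Finset.card_univ, Fintype.card_fin, nsmul_eq_mul, ← mul_assoc]

/-! ### The bootstrap -/

lemma boot (D : ℝ → ℝ≥0∞) {A C P R e : ℝ} (hA : 1 ≤ A) (hC : 0 < C) (hP : 1 ≤ P) (hR : 0 < R)
    (he : 0 < e) (he1 : e ≤ 1)
    (H1 : ENNReal.ofReal (e / 2) * D (1 + e / 2) ≤ ENNReal.ofReal (A * P * R))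
    (H2 : ∀ s, 1 < s → s ≤ 3 → ENNReal.ofReal (R ^ (1 - (s - 1) / 2)) ≤
      D s * ENNReal.ofReal (A * P ^ ((s - 1) / 2)))
    (H3 : D (5 / 2) ≤ ENNReal.ofReal C)
    (H4 : ∀ X : ℝ, 1 ≤ X → D (1 + e / 2) ≤ ENNReal.ofReal X →
      D (1 + e) ≤ ENNReal.ofReal (C * X ^ e)) :
    R ≤ (1 + (C * (1 + 2 / e * A * (C * A) ^ 4) ^ e * A) ^ 2) * P ^ (9 * e) := by
  have hP0 : 0 < P := by linarith
  have hA0 : 0 < A := by linarith
  have key : ∀ s X, 1 < s → s ≤ 3 → 0 ≤ X → D s ≤ ENNReal.ofReal X →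
      R ^ (1 - (s - 1) / 2) ≤ X * (A * P ^ ((s - 1) / 2)) := by
    intro s X h1 h3 hX h
    have := (H2 s h1 h3).trans (mul_le_mul_left h _)
    rwa [← ENNReal.ofReal_mul hX, ENNReal.ofReal_le_ofReal_iff (by positivity)] at this
  have s1 : R ≤ (C * A) ^ 4 * P ^ 3 := by
    have h := key (5 / 2) C (by norm_num) (by norm_num) hC.le H3
    have h' := pow_le_pow_left₀ (by positivity) h 4
    rw [← Real.rpow_natCast, ← Real.rpow_mul hR.le, ← mul_assoc, mul_pow,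
      ← Real.rpow_natCast (P ^ _), ← Real.rpow_mul hP0.le] at h'
    norm_num at h'
    exact_mod_cast h'
  set X0 : ℝ := 1 + 2 / e * A * (C * A) ^ 4 with hX0
  have hX1 : 1 ≤ X0 := le_add_of_nonneg_right (by positivity)
  have hP4 : 1 ≤ P ^ 4 := one_le_pow₀ hP
  have s2 : D (1 + e / 2) ≤ ENNReal.ofReal (X0 * P ^ 4) := by
    rw [← ENNReal.mul_le_mul_iff_right (ENNReal.ofReal_pos.2 (half_pos he)).ne'
      ENNReal.ofReal_ne_top, ← ENNReal.ofReal_mul (half_pos he).le]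
    refine H1.trans (ENNReal.ofReal_le_ofReal ?_)
    calc A * P * R ≤ A * P * ((C * A) ^ 4 * P ^ 3) := mul_le_mul_of_nonneg_left s1 (by positivity)
      _ = e / 2 * ((2 / e * A * (C * A) ^ 4) * P ^ 4) := by field_simp
      _ ≤ e / 2 * (X0 * P ^ 4) := by
          refine mul_le_mul_of_nonneg_left (mul_le_mul_of_nonneg_right ?_ (by positivity))
            (half_pos he).le
          rw [hX0]; linarith
  have s3 := H4 _ (one_le_mul_of_one_le_of_one_le hX1 hP4) s2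
  have s4 := key (1 + e) _ (by linarith) (by linarith) (by positivity) s3
  have hPe : 1 ≤ P ^ (9 * e) := Real.one_le_rpow hP (by positivity)
  rcases le_or_gt R 1 with hR1 | hR1
  · exact hR1.trans (one_le_mul_of_one_le_of_one_le (le_add_of_nonneg_right (by positivity)) hPe)
  have s5 : R ^ ((1 : ℝ) / 2) ≤ C * X0 ^ e * A * P ^ (9 * e / 2) := by
    refine (Real.rpow_le_rpow_of_exponent_le hR1.le (by linarith)).trans (s4.trans (le_of_eq ?_))
    rw [Real.mul_rpow (by positivity) (by positivity), ← Real.rpow_natCast P,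
      ← Real.rpow_mul hP0.le, show 9 * e / 2 = ((4 : ℕ) : ℝ) * e + (1 + e - 1) / 2 by push_cast; ring,
      Real.rpow_add hP0]
    ring
  have s6 := pow_le_pow_left₀ (by positivity) s5 2
  rw [← Real.rpow_natCast, ← Real.rpow_mul hR.le, mul_pow, ← Real.rpow_natCast (P ^ _),
    ← Real.rpow_mul hP0.le, show (1 : ℝ) / 2 * ((2 : ℕ) : ℝ) = 1 by norm_num,
    show 9 * e / 2 * ((2 : ℕ) : ℝ) = 9 * e by push_cast; ring, Real.rpow_one] at s6
  exact s6.trans (mul_le_mul_of_nonneg_right (le_add_of_nonneg_left zero_le_one) (by positivity))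

lemma rpow_le_of {x : ℝ≥0∞} {A t : ℝ} (hA : 1 ≤ A) (hx : x ≤ ENNReal.ofReal A) (h0 : 0 ≤ t)
    (h1 : t ≤ 1) : x ^ t ≤ ENNReal.ofReal A := by
  refine (ENNReal.rpow_le_rpow hx h0).trans ?_
  rw [ENNReal.ofReal_rpow_of_pos (by linarith)]
  refine ENNReal.ofReal_le_ofReal ?_
  exact (Real.rpow_le_rpow_of_exponent_le hA h1).trans (Real.rpow_one A).le

lemma exists_S (hS : SchurStmt) {α : ℕ → Fin (N + 1) → ℂ} (hα : Pr1 α) :
    ∃ S : ℕ → (Fin (N + 1) → ℕ) → ℂ, (∀ p, S p 0 = 1) ∧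
      ∀ p : ℕ, p.Prime → IsSch (α p) (S p) := by
  have : ∀ p : ℕ, ∃ S : (Fin (N + 1) → ℕ) → ℂ, S 0 = 1 ∧ (p.Prime → IsSch (α p) S) := by
    intro p
    by_cases hp : p.Prime
    · obtain ⟨S, h⟩ := hS.isSch (α p) (hα p hp)
      exact ⟨S, h.1, fun _ => h⟩
    · exact ⟨fun _ => 1, rfl, fun h => absurd h hp⟩
  choose S h1 h2 using this
  exact ⟨S, h1, h2⟩

end RB

open RB in
theorem rb (hS : SchurStmt) (hE : EulerStmt) (hL : LatStmt) (hQ : QuotStmt) (hW : WhStmt)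
    (hR : RSStmt) (hSh : ShinStmt) (hV : ClassStmt) (hD : CDStmt) : RBStmt := by
  intro N hN CM ε hε
  obtain ⟨M, K, hK, HJ⟩ := jj_bound hL hR hD hN
  obtain ⟨N, rfl⟩ : ∃ N', N = N' + 1 := ⟨N - 1, by omega⟩
  set m : ℕ := 2 * M + (N + 2) with hm
  have hm0 : (0 : ℝ) < m := by rw [hm]; positivity
  set e : ℝ := min 1 (ε / (9 * m)) with he
  have he0 : 0 < e := lt_min one_pos (by positivity)
  have he1 : e ≤ 1 := min_le_left _ _
  have he2 : (m : ℝ) * (9 * e) ≤ ε := by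
    have := (le_div_iff₀ (by positivity)).1 (min_le_right 1 (ε / (9 * m)))
    rw [← he] at this
    linarith
  obtain ⟨C, hC, HE⟩ := hE (N + 1) (2 * (N + 1 + 1) ^ 2)
    (((N + 1 + 1).factorial * ((N + 1 : ℕ) + 1) ^ ((N + 1 + 1) ^ 2) : ℝ) ^ 2) e e he0 he0
  set V : ℝ≥0∞ := ∫⁻ r, cone (Fin.last (N + 1)) r with hVdef
  have hVt : V ≠ ⊤ := cone_int _
  have hKM : K * ENNReal.ofReal (CM M) ≠ ⊤ := ENNReal.mul_ne_top hK ENNReal.ofReal_ne_top
  have hκ := kap_pos (N + 1)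
  obtain ⟨A, hA, hA1, hA2, hA3, hA4⟩ : ∃ A : ℝ, 1 ≤ A ∧ V ≤ ENNReal.ofReal A ∧
      K * ENNReal.ofReal (CM M) ≤ ENNReal.ofReal A ∧ CM 0 ≤ A ∧
      4 * ((N + 1 + 1 : ℕ) : ℝ) ≤ kap (N + 1) * A := by
    have a1 : 0 ≤ V.toReal := ENNReal.toReal_nonneg
    have a2 : 0 ≤ (K * ENNReal.ofReal (CM M)).toReal := ENNReal.toReal_nonneg
    have a3 := abs_nonneg (CM 0)
    have a4 := le_abs_self (CM 0)
    have a5 : 0 ≤ 4 * ((N + 1 + 1 : ℕ) : ℝ) / kap (N + 1) := by positivity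
    refine ⟨1 + V.toReal + (K * ENNReal.ofReal (CM M)).toReal + |CM 0| +
      4 * ((N + 1 + 1 : ℕ) : ℝ) / kap (N + 1), by linarith, ?_, ?_, by linarith, ?_⟩
    · rw [ENNReal.le_ofReal_iff_toReal_le hVt (by linarith)]; linarith
    · rw [ENNReal.le_ofReal_iff_toReal_le hKM (by linarith)]; linarith
    · rw [← div_le_iff₀' hκ]; linarith
  have hA0 : 0 < A := by linarith
  have hA3' : 1 ≤ A ^ 3 := one_le_pow₀ hA
  refine ⟨1 + (C * (1 + 2 / e * A ^ 3 * (C * A ^ 3) ^ 4) ^ e * A ^ 3) ^ 2, by positivity, ?_⟩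
  rintro T hT α R hα hI ⟨w, h0, hw, hsob, hkk⟩
  obtain ⟨S, hS0, hSp⟩ := exists_S hS hα
  have hT0 : 0 < T := by linarith
  have hR0 := hI.1
  have hP : 1 ≤ T ^ m := one_le_pow₀ hT
  have hY : K * Sob M w ≤ ENNReal.ofReal (A * T ^ (2 * M)) * N2 w := by
    refine (mul_le_mul_right (hsob M) _).trans ?_
    rw [← mul_assoc, ENNReal.ofReal_mul' (by positivity), ENNReal.ofReal_mul' (by positivity),
      ← mul_assoc]
    exact mul_le_mul_left (mul_le_mul_left hA2 _) _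
  have H1 : ∀ s, 1 < s → s ≤ 3 →
      ENNReal.ofReal (s - 1) * DS (cf S) s ≤ ENNReal.ofReal (A ^ 3 * T ^ m * R) := by
    intro s hs hs3
    refine (ds_le hQ hR hSh hN hSp hI hw h0 hs ENNReal.ofReal_ne_top
      ((HJ ball2 ball_meas ball_le ball_zero s hs hs3 w hw.sm hw.aut hw.cusp).trans hY)
      (hkk s hs.le hs3)).trans ?_
    rw [← ENNReal.ofReal_mul hR0.le, ← ENNReal.ofReal_mul (by positivity)]
    refine ENNReal.ofReal_le_ofReal ?_
    calc A * T ^ (2 * M) * (R * (CM 0 * T ^ (N + 1 + 1)))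
        ≤ A * T ^ (2 * M) * (R * (A ^ 2 * T ^ (N + 1 + 1))) := by
          gcongr
          exact hA3.trans (by nlinarith)
      _ = A ^ 3 * T ^ m * R := by rw [hm]; ring
  have hfin : ∀ s : ℝ, 1 < s → s ≤ 3 → DS (cf S) s ≠ ⊤ := by
    intro s hs hs3 h
    have := H1 s hs hs3
    rw [h, ENNReal.mul_top (ENNReal.ofReal_pos.2 (by linarith)).ne'] at this
    exact ENNReal.ofReal_ne_top (top_le_iff.1 this)
  have hal : ∀ p : ℕ, p.Prime → ∀ i, ‖α p i‖ ≤ Real.sqrt p :=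
    fun p hp i => alpha_le S hp (hSp p hp) hfin i
  refine ⟨?_, hal⟩
  obtain ⟨H3, H4⟩ := HE (af S) (fun p => by simp [af, lam_zero, hS0]) (fun p k => sq_nonneg _)
    fun p hp k => af_le S hp (hSp p hp) (hal p hp) k
  simp only [← DS_eq] at H3 H4
  have hJ3 : ∀ i, JJ 3 (cone i) w ≤ ENNReal.ofReal (A * T ^ m) * N2 w := by
    intro i
    have h1 := (HJ (cone i) (hR.conem _ i) (cone_le i) (cone_zero i) 3 (by norm_num) le_rfl w
      hw.sm hw.aut hw.cusp).trans hY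
    refine (le_mul_of_one_le_left' (ENNReal.one_le_ofReal.2 (by norm_num))).trans (h1.trans ?_)
    refine mul_le_mul_left (ENNReal.ofReal_le_ofReal ?_) _
    exact mul_le_mul_of_nonneg_left (pow_le_pow_right₀ hT (by omega)) hA0.le
  have H2 : ∀ s, 1 < s → s ≤ 3 → ENNReal.ofReal (R ^ (1 - (s - 1) / 2)) ≤
      DS (cf S) s * ENNReal.ofReal (A ^ 3 * (T ^ m) ^ ((s - 1) / 2)) := by
    intro s hs hs3
    have e1 : 0 ≤ 1 - (s - 1) / 2 := by linarith
    have e2 : 0 ≤ (s - 1) / 2 := by linarith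
    have h1 := r_le hL hQ hW hR hSh hV hN hSp hI hw h0 hs.le hs3 hJ3
    rw [← ENNReal.mul_le_mul_iff_right (ENNReal.ofReal_pos.2 hκ).ne' ENNReal.ofReal_ne_top,
      ← ENNReal.ofReal_rpow_of_pos hR0]
    refine h1.trans ?_
    have h2 : V ^ (1 - (s - 1) / 2) ≤ ENNReal.ofReal A := rpow_le_of hA hA1 e1 (by linarith)
    have h3 : ENNReal.ofReal (A * T ^ m) ^ ((s - 1) / 2) ≤
        ENNReal.ofReal A * ENNReal.ofReal ((T ^ m) ^ ((s - 1) / 2)) := by
      rw [ENNReal.ofReal_mul hA0.le, ENNReal.mul_rpow_of_nonneg _ _ e2,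
        ENNReal.ofReal_rpow_of_pos (x := T ^ m) (by positivity)]
      exact mul_le_mul_left (rpow_le_of hA le_rfl e2 (by linarith)) _
    have h4 : (2 : ℝ≥0∞) * (((N + 1 + 1 : ℕ) : ℝ≥0∞) * 2) ≤
        ENNReal.ofReal (kap (N + 1)) * ENNReal.ofReal A := by
      rw [← ENNReal.ofReal_mul hκ.le]
      refine le_trans (le_of_eq ?_) (ENNReal.ofReal_le_ofReal hA4)
      rw [ENNReal.ofReal_mul (by norm_num), ENNReal.ofReal_natCast, ENNReal.ofReal_ofNat]
      ring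
    calc 2 * (((N + 1 + 1 : ℕ) : ℝ≥0∞) * (2 * (DS (cf S) s *
          (V ^ (1 - (s - 1) / 2) * ENNReal.ofReal (A * T ^ m) ^ ((s - 1) / 2)))))
        = 2 * (((N + 1 + 1 : ℕ) : ℝ≥0∞) * 2) * (DS (cf S) s *
          (V ^ (1 - (s - 1) / 2) * ENNReal.ofReal (A * T ^ m) ^ ((s - 1) / 2))) := by ring
      _ ≤ ENNReal.ofReal (kap (N + 1)) * ENNReal.ofReal A * (DS (cf S) s *
          (ENNReal.ofReal A * (ENNReal.ofReal A * ENNReal.ofReal ((T ^ m) ^ ((s - 1) / 2))))) :=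
        mul_le_mul' h4 (mul_le_mul_right (mul_le_mul' h2 h3) _)
      _ = _ := by
        rw [ENNReal.ofReal_mul (by positivity), ENNReal.ofReal_pow hA0.le]
        ring
  have H1' := H1 (1 + e / 2) (by linarith) (by linarith)
  rw [add_sub_cancel_left] at H1'
  refine (boot (DS (cf S)) hA3' hC hP hR0 he0 he1 H1' H2 H3 H4).trans ?_
  refine mul_le_mul_of_nonneg_left ?_ (by positivity)
  rw [← Real.rpow_natCast, ← Real.rpow_mul hT0.le]
  exact Real.rpow_le_rpow_of_exponent_le hT he2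

end Pool.Agent.Lib.MP_fa98d2_nt.D
end
end

-- part Pool.Agent.Lib.MP_fa98d2_nt.D.Inj
section

/-! Density theorem for cusp forms on PGL(n): injectivity of the localised region. -/

open MeasureTheory Filter Topology Matrix
open scoped ENNReal Real ContDiff ComplexConjugate

noncomputable section

namespace Pool.Agent.Lib.MP_fa98d2_nt.D

namespace Inj

variable {k N : ℕ}

lemma tm_m1 (m : ℕ+) (i : Fin (N + 2)) :
    tm (m1 N m) i = if i = 0 then ((m : ℕ) : ℝ) else 1 := by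
  unfold tm
  rw [Finset.prod_eq_single 0]
  · by_cases h : i = 0
    · subst h; simp [m1]
    · have : ¬ i.val ≤ 0 := fun h' => h (Fin.ext (Nat.le_zero.1 h'))
      simp [h, this]
  · intro j _ hj; simp [m1, hj]
  · intro h; exact (h (Finset.mem_univ _)).elim

lemma tm_pos (m : ℕ+) (i : Fin (N + 2)) : 0 < tm (m1 N m) i := by
  rw [tm_m1]; split_ifs
  · exact_mod_cast m.pos
  · exact one_pos

lemma dl_pos {a : Fin k → ℝ} (ha : ∀ i, 0 < a i) : 0 < dl a :=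
  Finset.prod_pos fun i _ => Finset.prod_pos fun j _ => div_pos (ha i) (ha j)

lemma dl_inv {a : Fin k → ℝ} (ha : ∀ i, 0 < a i) : dl a * dl (fun i => (a i)⁻¹) = 1 := by
  unfold dl
  rw [← Finset.prod_mul_distrib]
  refine Finset.prod_eq_one fun i _ => ?_
  rw [← Finset.prod_mul_distrib]
  refine Finset.prod_eq_one fun j _ => ?_
  have := (ha i).ne'
  have := (ha j).ne'
  field_simp

lemma isU_conj {a : Fin k → ℝ} (ha : ∀ i, a i ≠ 0) {u : G k} (hu : IsU u) :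
    IsU (dg a * u * (dg a)⁻¹) := by
  intro i j hij
  rw [dg_inv ha, Units.val_mul, Units.val_mul, val_dg ha, val_dg fun i => inv_ne_zero (ha i),
    Matrix.mul_diagonal, Matrix.diagonal_mul, hu i j hij]
  split_ifs with h
  · subst h; rw [mul_one, mul_inv_cancel₀ (ha i)]
  · simp

lemma om_u {a u g : G k} {δ : ℝ} (hu : IsU u) (hg : g ∈ Om a δ) : u * g ∈ Om a δ := by
  obtain ⟨v, hv, x, hx, rfl⟩ := hg
  exact ⟨u * v, hu.mul hv, x, hx, by group⟩

lemma om_iff {a u g : G k} {δ : ℝ} (hu : IsU u) : u * g ∈ Om a δ ↔ g ∈ Om a δ :=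
  ⟨fun h => by simpa using om_u hu.inv h, om_u hu⟩

lemma vecMul_first {v : Fin k → ℝ} {u : G k} (hu : IsU u) {i : Fin k} (hv : ∀ j, j < i → v j = 0) :
    (v ᵥ* u.val) i = v i := by
  simp only [Matrix.vecMul, dotProduct]
  rw [Finset.sum_eq_single i]
  · rw [hu i i le_rfl]; simp
  · intro j _ hj
    rcases lt_or_gt_of_ne hj with h | h
    · rw [hv j h, zero_mul]
    · rw [hu j i h.le, if_neg hj, mul_zero]
  · intro h; exact (h (Finset.mem_univ _)).elim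

lemma lr_dg_mul {a : Fin (k + 1) → ℝ} (ha : ∀ i, a i ≠ 0) (h1 : a (Fin.last k) = 1)
    (g : G (k + 1)) : lr (dg a * g) = lr g := by
  ext j
  simp only [lr, Units.val_mul, val_dg ha, Matrix.diagonal_mul, h1, one_mul]

/-- an integral vector that is carried close to the last basis vector is that vector -/
lemma row {η : Fin (k + 1) → ℤ} {a y : Fin (k + 1) → ℝ} {u : G (k + 1)} (hu : IsU u) {e : ℝ}
    (he : e ≤ 1) (ha : ∀ i, 0 < a i) (hy : ∀ i, 0 < y i) (ha1 : a (Fin.last k) = 1)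
    (hy1 : y (Fin.last k) = 1) (hb : ∀ i, i ≠ Fin.last k → e ≤ (a i)⁻¹ * y i)
    (h : ∀ i, |(zv η ᵥ* ((dg a)⁻¹ * u * dg y).val) i - (1 : Mat (k + 1)) (Fin.last k) i| < e) :
    η = Pi.single (Fin.last k) 1 := by
  have hval : ∀ i, (∀ j, j < i → η j = 0) →
      (zv η ᵥ* ((dg a)⁻¹ * u * dg y).val) i = η i * ((a i)⁻¹ * y i) := by
    intro i hi
    rw [dg_inv fun i => (ha i).ne', Units.val_mul, Units.val_mul, ← Matrix.vecMul_vecMul,
      ← Matrix.vecMul_vecMul, val_dg fun i => (hy i).ne', val_dg fun i => inv_ne_zero (ha i).ne',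
      Matrix.vecMul_diagonal, vecMul_first hu fun j hj => by
        rw [Matrix.vecMul_diagonal]; simp [zv, hi j hj], Matrix.vecMul_diagonal]
    simp [zv, mul_assoc]
  have h0 : ∀ n : ℕ, ∀ i : Fin (k + 1), i.val = n → i ≠ Fin.last k → η i = 0 := by
    intro n
    induction n using Nat.strong_induction_on with
    | _ n ih =>
      intro i hi hl
      have h1 := h i
      rw [hval i fun j hj => ih j.val (hi ▸ hj) j rfl (hj.trans_le (Fin.le_last i)).ne,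
        Matrix.one_apply_ne (Ne.symm hl), sub_zero, abs_mul,
        abs_of_pos (mul_pos (inv_pos.2 (ha i)) (hy i))] at h1
      by_contra hne
      have h2 : (1 : ℝ) ≤ |(η i : ℝ)| := by exact_mod_cast Int.one_le_abs hne
      have h3 := hb i hl
      have h4 := mul_pos (inv_pos.2 (ha i)) (hy i)
      nlinarith
  have h1 := h (Fin.last k)
  rw [hval _ fun j hj => h0 _ j rfl hj.ne, ha1, hy1, Matrix.one_apply_eq] at h1
  have h2 : |η (Fin.last k) - 1| < 1 := by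
    have : |((η (Fin.last k) : ℤ) : ℝ) - 1| < 1 := by simpa using h1.trans_le he
    exact_mod_cast this
  ext i
  by_cases hi : i = Fin.last k
  · subst hi
    have := Int.abs_lt_one_iff.1 h2
    simp; omega
  · simp [hi, h0 _ i rfl hi]

lemma sat_meas {om : G (k + 1) → ℝ≥0∞} (h : Measurable om) : Measurable (sat om) :=
  Measurable.iSup fun _ => Measurable.iSup fun _ => h.comp (measurable_const_mul _)

lemma sat_le (om : G (k + 1) → ℝ≥0∞) (h : GZ k) (z : Fin k → ℤ) (g : G (k + 1)) :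
    sat om (iz (pb h z) * g) ≤ sat om g := by
  refine iSup_le fun h' => iSup_le fun z' => ?_
  rw [← mul_assoc, ← map_mul, pb_mul]
  exact le_iSup₂_of_le (f := fun (h : GZ k) (z : Fin k → ℤ) => om (iz (pb h z) * g)) _ _ le_rfl

lemma sat_pinv (om : G (k + 1) → ℝ≥0∞) : PInv (sat om) := by
  intro h z g
  refine le_antisymm (sat_le om h z g) ?_
  have := sat_le om h⁻¹ (-((h⁻¹).val *ᵥ z)) (iz (pb h z) * g)
  rwa [← pb_inv, map_inv, inv_mul_cancel_left] at this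

lemma tsum_le_one {ι : Type} (f : ι → ℝ≥0∞) (B : ℝ≥0∞) (h1 : ∀ i, f i ≤ B)
    (h2 : ∀ i j, f i ≠ 0 → f j ≠ 0 → i = j) : ∑' i, f i ≤ B := by
  by_cases h : ∃ i, f i ≠ 0
  · obtain ⟨i, hi⟩ := h
    rw [tsum_eq_single i fun j hj => by by_contra h'; exact hj (h2 j i h' hi)]
    exact h1 i
  · push Not at h
    simp [h]

end Inj

open Inj in
theorem inj (hH : HaarStmt) (hQ : QuotStmt) (hW : WhStmt) (hPar : ParStmt) (hL : Loc0Stmt) :
    InjStmt := by
  intro N c hc hc1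
  obtain ⟨C, hC0, hC⟩ := hL.det (N + 2)
  have hl2 : 0 < Real.log 2 := Real.log_pos one_lt_two
  refine ⟨1, 2 * C * c / Real.log 2 + 1, one_pos, by positivity, fun T hT m hm F hF => ?_⟩
  have hT0 : 0 < T := by linarith
  have hN0 : (0 : ℝ) ≤ N := Nat.cast_nonneg N
  set δ := c / T with hδ
  have hδ0 : 0 < δ := by positivity
  have hδc : δ ≤ c := div_le_self hc.le hT
  have hδ2 : 2 * δ * (2 * ((N + 2 : ℕ) : ℝ) + 2) ≤ 1 := by push_cast; nlinarith
  have hδ1 : δ * (2 * ((N + 2 : ℕ) : ℝ) + 2) ≤ 1 := by push_cast; nlinarith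
  set a := tm (m1 N m) with ha
  have hap : ∀ i, 0 < a i := tm_pos m
  have han : ∀ i, a i ≠ 0 := fun i => (hap i).ne'
  set y : Fin (N + 2) → ℝ := Fin.snoc (tT (N + 1) T) 1 with hy
  have htp : ∀ i, 0 < tT (N + 1) T i := fun i => pow_pos hT0 _
  have hup : up (dg (tT (N + 1) T)) = dg y := up_dg fun i => (htp i).ne'
  have hyp : ∀ i, 0 < y i := fun i => by
    refine Fin.lastCases ?_ (fun i => ?_) i <;> simp [hy, htp]
  have hy1 : y (Fin.last (N + 1)) = 1 := by simp [hy]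
  have ha1 : a (Fin.last (N + 1)) = 1 := by
    rw [ha, tm_m1, if_neg (Fin.last_pos.ne')]
  rw [hup]
  set om : G (N + 2) → ℝ≥0∞ := fun g => (Om (dg y) δ).indicator 1 (dg a * g) with hom
  have homm : Measurable om :=
    (measurable_one.indicator (hL.opn _ _ _).2.measurableSet).comp (measurable_const_mul _)
  have homU : UInv om := by
    intro u hu g
    have : dg a * (u * g) = dg a * u * (dg a)⁻¹ * (dg a * g) := by group
    have h2 : dg a * (u * g) ∈ Om (dg y) δ ↔ dg a * g ∈ Om (dg y) δ := by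
      rw [this]; exact om_iff (isU_conj han hu)
    simp only [hom]
    by_cases h3 : dg a * g ∈ Om (dg y) δ
    · rw [Set.indicator_of_mem h3, Set.indicator_of_mem (h2.2 h3)]; rfl
    · rw [Set.indicator_of_notMem h3, Set.indicator_of_notMem fun h => h3 (h2.1 h)]
  have hz : ∀ i, zm (m1 N m) i ≠ 0 := fun i => by
    simp only [zm]; exact_mod_cast (m1 N m i).pos.ne'
  set H : G (N + 2) → ℝ≥0∞ := fun g => om g * ‖Wf (zm (m1 N m)) F g‖ₑ ^ 2 with hHd
  have hHm : Measurable H :=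
    homm.mul ((hW.cont _ _ _ hF.cont).measurable.enorm.pow_const 2)
  have hHU : UInv H := by
    intro u hu g
    have h1 := hW.eqv _ (zm (m1 N m)) F hF.cont (fun γ _ g => hF.zinv γ g) u hu g
    have h2 : ‖psi (zv (zm (m1 N m))) u‖ₑ = 1 := by
      rw [← ofReal_norm, psi, norm_ee, ENNReal.ofReal_one]
    simp only [hHd, homU u hu g, h1, enorm_mul, h2, one_mul]
  have e1 : (fun g => (Om (dg y) δ).indicator 1 g * ‖Wf (zm (m1 N m)) F ((dg a)⁻¹ * g)‖ₑ ^ 2) =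
      fun g => H (dg (fun i => (a i)⁻¹) * g) := by
    ext g
    simp only [hHd, hom, ← dg_inv han, mul_inv_cancel_left]
  rw [e1, hH.iil _ H hHm hHU _ fun i => inv_pos.2 (hap i), ← mul_assoc,
    ← ENNReal.ofReal_mul (dl_pos hap).le, dl_inv hap, ENNReal.ofReal_one, one_mul]
  have hFm : Measurable fun g => ‖F g‖ₑ ^ 2 := hF.cont.measurable.enorm.pow_const 2
  refine (hPar.bes _ _ hz F hF.cont (fun h z g => hF.zinv _ g) om homm homU).trans ?_
  rw [← hQ.unf _ (fun g => sat om g * ‖F g‖ₑ ^ 2) ((sat_meas homm).mul hFm) (fun h z g => by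
    simp only [sat_pinv om h z g, hF.zinv _ g])]
  set D := dt (dg y) / dt (dg a) with hD
  have hD0 : 0 < D := div_pos (dt_pos _) (dt_pos _)
  have hex : ∀ (ξ : Prim (N + 1)) g, sat om (iz (pz ξ) * g) ≠ 0 → ∃ γ : GZ (N + 2),
      γ.val (Fin.last _) = ξ.1 ∧ ∃ u, IsU u ∧ ∃ x ∈ Bl (N + 2) δ,
        iz γ * g = (dg a)⁻¹ * u * dg y * x := by
    intro ξ g h
    simp only [sat, ne_eq, ENNReal.iSup_eq_zero, not_forall] at h
    obtain ⟨h', z, h⟩ := h
    obtain ⟨u, hu, x, hx, e⟩ := Set.mem_of_indicator_ne_zero h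
    refine ⟨pb h' z * pz ξ, ?_, u, hu, x, hx, ?_⟩
    · rw [← pz_row ξ, Units.val_mul, val_pb]
      ext j
      rw [Matrix.mul_apply, blk_last, Finset.sum_eq_single (Fin.last _)] <;> simp +contextual
    · rw [map_mul, mul_assoc, mul_assoc, mul_assoc, eq_inv_mul_iff_mul_eq, e, mul_assoc]
  have huniq : ∀ g (ξ ξ' : Prim (N + 1)), sat om (iz (pz ξ) * g) ≠ 0 →
      sat om (iz (pz ξ') * g) ≠ 0 → ξ = ξ' := by
    intro g ξ ξ' h h'
    obtain ⟨γ, hγ, u, hu, x, hx, e⟩ := hex ξ g h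
    obtain ⟨γ', hγ', u', hu', x', hx', e'⟩ := hex ξ' g h'
    have hxi := (hL.mul _ δ δ hδ1 hδ1 x hx x hx).2
    have hxx := (hL.mul _ δ (2 * δ) hδ1 hδ2 x' hx' _ hxi).1
    have e2 : iz (γ' * γ⁻¹) * ((dg a)⁻¹ * u * dg y) = (dg a)⁻¹ * (u' * (dg y * (x' * x⁻¹))) := by
      have h1 : (dg a)⁻¹ * u * dg y = iz γ * g * x⁻¹ := by rw [e]; group
      rw [h1, map_mul, map_inv]
      calc _ = iz γ' * g * x⁻¹ := by group
        _ = _ := by rw [e']; group
    have e3 : zv ((γ' * γ⁻¹).val (Fin.last _)) ᵥ* ((dg a)⁻¹ * u * dg y).val = lr (x' * x⁻¹) := by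
      have := congrArg lr e2
      rw [lr_mul, dg_inv han, lr_dg_mul (fun i => inv_ne_zero (han i)) (by simp [ha1]), hu'.lr_mul,
        lr_dg_mul (fun i => (hyp i).ne') hy1, ← dg_inv han] at this
      exact this
    have e4 := row (η := (γ' * γ⁻¹).val (Fin.last _)) (a := a) (y := y) hu
      (e := 2 * (δ + 2 * δ)) (by nlinarith) hap hyp ha1 hy1 (fun i hi => by
        obtain ⟨i, rfl⟩ := Fin.exists_castSucc_eq.2 hi
        have hi := i.isLt
        have h6 : 2 * (δ + 2 * δ) ≤ T⁻¹ := by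
          rw [hδ, div_eq_mul_inv]
          have := inv_pos.2 hT0
          nlinarith
        refine h6.trans ?_
        rw [ha, tm_m1]
        simp only [hy, Fin.snoc_castSucc, tT]
        split_ifs with h0
        · have : i.val = 0 := by simpa using congrArg Fin.val h0
          have hm0 : (0 : ℝ) < (m : ℕ) := by exact_mod_cast m.pos
          rw [this, Nat.sub_zero, inv_mul_eq_div, le_div_iff₀ hm0, inv_mul_le_iff₀ hT0]
          calc ((m : ℕ) : ℝ) ≤ 1 * T ^ (N + 2) := hm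
            _ = _ := by ring
        · rw [inv_one, one_mul]
          exact (inv_le_one_of_one_le₀ hT).trans (one_le_pow₀ hT))
      (fun i => by rw [e3]; exact hxx _ i)
    apply Subtype.ext
    rw [← hγ, ← hγ']
    have : γ' = (γ' * γ⁻¹) * γ := by group
    rw [this, Units.val_mul]
    ext j
    rw [Matrix.mul_apply, e4, Finset.sum_eq_single (Fin.last _)] <;> simp +contextual
  have hshl : ∀ g (ξ : Prim (N + 1)), sat om (iz (pz ξ) * g) ≤
      Shl (D * Real.exp (-(C * δ))) (D * Real.exp (C * δ)) g := by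
    intro g ξ
    by_cases h : sat om (iz (pz ξ) * g) = 0
    · rw [h]; exact zero_le
    obtain ⟨γ, -, u, hu, x, hx, e⟩ := hex ξ g h
    have h1 : dt g = D * dt x := by
      have := congrArg dt e
      rw [dt_mul, dt_iz, one_mul, dt_mul, dt_mul, dt_mul, hu.dt, dt_inv] at this
      rw [this, hD]; ring
    have h2 := abs_le.1 (hC δ hδ1 x hx)
    have h3 : Real.exp (-(C * δ)) ≤ dt x := (Real.le_log_iff_exp_le (dt_pos x)).1 h2.1
    have h4 : dt x ≤ Real.exp (C * δ) := (Real.log_le_iff_le_exp (dt_pos x)).1 h2.2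
    rw [Shl, if_pos ⟨by rw [h1]; gcongr, by rw [h1]; gcongr⟩]
    exact iSup_le fun _ => iSup_le fun _ => Set.indicator_le_self' (fun _ _ => zero_le) _
  calc _ ≤ QI (N + 2) fun g => Shl (D * Real.exp (-(C * δ))) (D * Real.exp (C * δ)) g *
        ‖F g‖ₑ ^ 2 := by
        refine lintegral_mono fun g => mul_le_mul_right ?_ _
        simp only [hF.zinv _ g]
        rw [ENNReal.tsum_mul_right]
        exact mul_le_mul_left (tsum_le_one _ _ (hshl g) (huniq g)) _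
    _ = _ * N2 F := hQ.shell _ _ hFm (fun γ g => by simp only [hF.zinv γ g])
        (fun t ht g => by simp only [hF.sinv t ht g]) _ _ (by positivity) (by
          have : 0 ≤ C * δ := by positivity
          gcongr; linarith)
    _ ≤ _ := by
      refine mul_le_mul_left (ENNReal.ofReal_le_ofReal ?_) _
      rw [mul_div_mul_left _ _ hD0.ne', ← Real.exp_sub, Real.log_exp, hδ, add_div]
      have : (C * (c / T) - -(C * (c / T))) / Real.log 2 = 2 * C * c / Real.log 2 / T := by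
        field_simp; ring
      rw [this]
      exact le_add_of_nonneg_right (by positivity)

end Pool.Agent.Lib.MP_fa98d2_nt.D
end
end
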