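import Pool.Agent.Lib.MP_fa98d2_nt.D.Calc

-- part Pool.Agent.Lib.MP_fa98d2_nt.D.Loc0
section

/- Local estimates near the identity of GL(k,R). -/

open MeasureTheory Filter Topology Matrix
open scoped ENNReal Real ContDiff ComplexConjugate

noncomputable section

namespace Pool.Agent.Lib.MP_fa98d2_nt.D

namespace Loc0

variable {k : ℕ}

/-- largest entry -/
def nm (A : Mat k) : ℝ := ‖(fun i j => A i j : E k)‖

lemma nm_nonneg (A : Mat k) : 0 ≤ nm A := norm_nonneg _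

lemma abs_le_nm (A : Mat k) (i j : Fin k) : |A i j| ≤ nm A :=
  (norm_le_pi_norm (fun j => A i j) j).trans (norm_le_pi_norm (fun i j => A i j : E k) i)

lemma nm_le {A : Mat k} {c : ℝ} (hc : 0 ≤ c) (h : ∀ i j, |A i j| ≤ c) : nm A ≤ c :=
  (pi_norm_le_iff_of_nonneg hc).2 fun i => (pi_norm_le_iff_of_nonneg hc).2 fun j => h i j

lemma nm_lt {A : Mat k} {c : ℝ} (hc : 0 < c) (h : ∀ i j, |A i j| < c) : nm A < c :=
  (pi_norm_lt_iff hc).2 fun i => (pi_norm_lt_iff hc).2 fun j => h i j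

lemma nm_add (A B : Mat k) : nm (A + B) ≤ nm A + nm B :=
  nm_le (add_nonneg (nm_nonneg _) (nm_nonneg _)) fun i j =>
    (abs_add_le _ _).trans (add_le_add (abs_le_nm A i j) (abs_le_nm B i j))

lemma nm_neg (A : Mat k) : nm (-A) ≤ nm A :=
  nm_le (nm_nonneg _) fun i j => by
    rw [Matrix.neg_apply, abs_neg]; exact abs_le_nm A i j

lemma nm_mul (A B : Mat k) : nm (A * B) ≤ k * (nm A * nm B) := by
  have h0 : 0 ≤ nm A * nm B := mul_nonneg (nm_nonneg _) (nm_nonneg _)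
  refine nm_le (by positivity) fun i j => ?_
  rw [Matrix.mul_apply]
  refine (Finset.abs_sum_le_sum_abs _ _).trans ?_
  calc ∑ l, |A i l * B l j| ≤ ∑ _l : Fin k, nm A * nm B := by
        refine Finset.sum_le_sum fun l _ => ?_
        rw [abs_mul]
        exact mul_le_mul (abs_le_nm _ _ _) (abs_le_nm _ _ _) (abs_nonneg _) (nm_nonneg _)
    _ = k * (nm A * nm B) := by simp

lemma mem_Bl {δ : ℝ} (hδ : 0 < δ) {g : G k} : g ∈ Bl k δ ↔ nm (g.val - 1) < δ :=
  ⟨fun h => nm_lt hδ fun i j => h i j, fun h i j => (abs_le_nm (g.val - 1) i j).trans_lt h⟩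

lemma nm_co (g : G k) : nm (g.val - 1) = ‖co g - co (1 : G k)‖ := rfl

lemma nm_mul_sub (x y : G k) : nm ((x * y).val - 1) ≤
    nm (x.val - 1) + nm (y.val - 1) + k * (nm (x.val - 1) * nm (y.val - 1)) := by
  have : (x * y).val - 1 = (x.val - 1) + (y.val - 1) + (x.val - 1) * (y.val - 1) := by
    rw [Units.val_mul]; noncomm_ring
  rw [this]
  exact (nm_add _ _).trans (add_le_add (nm_add _ _) (nm_mul _ _))

lemma nm_inv_sub (x : G k) (h : k * nm (x.val - 1) ≤ 1 / 2) :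
    nm ((x⁻¹).val - 1) ≤ 2 * nm (x.val - 1) := by
  have h1 : (x⁻¹).val * x.val = 1 := by rw [← Units.val_mul, inv_mul_cancel, Units.val_one]
  have : (x⁻¹).val - 1 = -(x.val - 1) + -(((x⁻¹).val - 1) * (x.val - 1)) := by
    rw [sub_mul, mul_sub, h1]; noncomm_ring
  have h2 : nm ((x⁻¹).val - 1) ≤
      nm (x.val - 1) + k * (nm ((x⁻¹).val - 1) * nm (x.val - 1)) := by
    conv_lhs => rw [this]
    exact (nm_add _ _).trans (add_le_add (nm_neg _) ((nm_neg _).trans (nm_mul _ _)))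
  have h3 := nm_nonneg ((x⁻¹).val - 1)
  nlinarith

lemma det_ne_of_nm {A : Mat k} (h : k * nm A < 1) : (1 + A).det ≠ 0 := by
  intro h0
  obtain ⟨v, hv, hv0⟩ := Matrix.exists_mulVec_eq_zero_iff.2 h0
  have hvp : 0 < ‖v‖ := norm_pos_iff.2 hv
  have h1 : v = -(A *ᵥ v) := by
    rw [Matrix.add_mulVec, Matrix.one_mulVec] at hv0
    exact eq_neg_of_add_eq_zero_left hv0
  have h2 : ‖v‖ ≤ k * (nm A * ‖v‖) := by
    have h0 : 0 ≤ nm A * ‖v‖ := mul_nonneg (nm_nonneg _) (norm_nonneg _)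
    refine (pi_norm_le_iff_of_nonneg (by positivity)).2 fun i => ?_
    have : v i = -(∑ l, A i l * v l) := by
      conv_lhs => rw [h1]
      rfl
    rw [this, Real.norm_eq_abs, abs_neg]
    refine (Finset.abs_sum_le_sum_abs _ _).trans ?_
    calc ∑ l, |A i l * v l| ≤ ∑ _l : Fin k, nm A * ‖v‖ := by
          refine Finset.sum_le_sum fun l _ => ?_
          rw [abs_mul]
          exact mul_le_mul (abs_le_nm _ _ _) (norm_le_pi_norm v l) (abs_nonneg _) (nm_nonneg _)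
      _ = k * (nm A * ‖v‖) := by simp
  nlinarith

lemma isOpen_Bl (δ : ℝ) : IsOpen (Bl k δ) := by
  have : Bl k δ = ⋂ i, ⋂ j, {g : G k | |g.val i j - (1 : Mat k) i j| < δ} := by
    ext g; simp [Bl]
  rw [this]
  refine isOpen_iInter_of_finite fun i => isOpen_iInter_of_finite fun j => ?_
  exact isOpen_lt ((continuous_entry i j).sub continuous_const).abs continuous_const

lemma isOpen_Om (a : G k) (δ : ℝ) : IsOpen (Om a δ) := by
  have : Om a δ = ⋃ u ∈ {u : G k | IsU u}, (fun x => (u * a) * x) '' Bl k δ := by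
    ext g
    simp only [Om, Set.mem_ofPred_eq, Set.mem_iUnion, Set.mem_image, exists_prop]
    constructor
    · rintro ⟨u, hu, x, hx, rfl⟩; exact ⟨u, hu, x, hx, rfl⟩
    · rintro ⟨u, hu, x, hx, rfl⟩; exact ⟨u, hu, x, hx, rfl⟩
  rw [this]
  exact isOpen_biUnion fun u _ => isOpenMap_mul_left (u * a) _ (isOpen_Bl δ)

lemma kd {δ : ℝ} (hδ : 0 ≤ δ) (h : δ * (2 * k + 2) ≤ 1) : k * δ ≤ 1 / 2 := by nlinarith

lemma mul_Bl (δ δ' : ℝ) (h : δ * (2 * k + 2) ≤ 1) (h' : δ' * (2 * k + 2) ≤ 1)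
    (x : G k) (hx : x ∈ Bl k δ) (y : G k) (hy : y ∈ Bl k δ') :
    x * y ∈ Bl k (2 * (δ + δ')) ∧ x⁻¹ ∈ Bl k (2 * δ) := by
  have hk : (0 : ℝ) ≤ k := Nat.cast_nonneg k
  constructor
  · intro i j
    have hδ : 0 < δ := (abs_nonneg _).trans_lt (hx i j)
    have hδ' : 0 < δ' := (abs_nonneg _).trans_lt (hy i j)
    have h1 := (mem_Bl hδ).1 hx
    have h2 := (mem_Bl hδ').1 hy
    have h3 := nm_mul_sub x y
    have h4 := kd hδ'.le h'
    have h5 := nm_nonneg (x.val - 1)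
    have h6 := nm_nonneg (y.val - 1)
    refine (mem_Bl (by positivity)).2 ?_ i j
    have h7 : k * nm (y.val - 1) ≤ 1 / 2 := (mul_le_mul_of_nonneg_left h2.le hk).trans h4
    nlinarith
  · intro i j
    have hδ : 0 < δ := (abs_nonneg _).trans_lt (hx i j)
    have h1 := (mem_Bl hδ).1 hx
    have h4 := kd hδ.le h
    have h7 : k * nm (x.val - 1) ≤ 1 / 2 := (mul_le_mul_of_nonneg_left h1.le hk).trans h4
    have := nm_inv_sub x h7
    refine (mem_Bl (by positivity)).2 ?_ i j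
    linarith

lemma seg (δ : ℝ) (h : δ * (2 * k + 2) ≤ 1) (A : Mat k) (hA : ∀ i j, |A i j| < δ) :
    (1 + A).det ≠ 0 := by
  rcases Nat.eq_zero_or_pos k with rfl | hk
  · simp
  have hδ : 0 < δ := (abs_nonneg _).trans_lt (hA ⟨0, hk⟩ ⟨0, hk⟩)
  have h1 := nm_lt hδ hA
  have h4 := kd hδ.le h
  have hk : (0 : ℝ) ≤ k := Nat.cast_nonneg k
  exact det_ne_of_nm (by nlinarith)

/-- radius of the big ball -/
def rr (k : ℕ) : ℝ := 1 / (2 * k + 2)

lemma le_rr {δ : ℝ} (h : δ * (2 * k + 2) ≤ 1) : δ ≤ rr k := by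
  rw [rr, le_div_iff₀ (by positivity)]; exact h

lemma det_ne_ball {x : E k} (hx : x ∈ Metric.closedBall (co (1 : G k)) (rr k)) :
    (Matrix.of x).det ≠ 0 := by
  have h1 : Matrix.of x = 1 + (Matrix.of x - 1) := by abel
  rw [h1]
  apply det_ne_of_nm
  have h2 : nm (Matrix.of x - 1) ≤ rr k := by
    rw [Metric.mem_closedBall, dist_eq_norm] at hx
    exact hx
  have hk : (0 : ℝ) ≤ k := Nat.cast_nonneg k
  refine (mul_le_mul_of_nonneg_left h2 hk).trans_lt ?_
  rw [rr, mul_one_div, div_lt_one (by positivity)]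
  linarith

lemma ball_sub {δ : ℝ} (h : δ * (2 * k + 2) ≤ 1) :
    Metric.closedBall (co (1 : G k)) δ ⊆ Set.range (co (k := k)) := by
  rw [range_co]
  exact fun x hx => det_ne_ball (Metric.closedBall_subset_closedBall (le_rr h) hx)

lemma isCompact_cl {δ : ℝ} (h : δ * (2 * k + 2) ≤ 1) :
    IsCompact (co ⁻¹' Metric.closedBall (co (1 : G k)) δ) :=
  isOpenEmbedding_co.isInducing.isCompact_preimage' (isCompact_closedBall _ _) (ball_sub h)

lemma contDiff_det : ContDiff ℝ 1 fun x : E k => (Matrix.of x).det := by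
  simp_rw [Matrix.det_apply']
  refine ContDiff.sum fun σ _ => contDiff_const.mul (contDiff_prod fun i _ => ?_)
  simp only [Matrix.of_apply]
  fun_prop

lemma det_bounds (k : ℕ) : ∃ m M : ℝ, 0 < m ∧ 0 < M ∧
    ∀ x ∈ Metric.closedBall (co (1 : G k)) (rr k), m ≤ |(Matrix.of x).det| ∧
      |(Matrix.of x).det| ≤ M := by
  have hK := isCompact_closedBall (co (1 : G k)) (rr k)
  have hne : (Metric.closedBall (co (1 : G k)) (rr k)).Nonempty :=
    ⟨_, Metric.mem_closedBall_self (by unfold rr; positivity)⟩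
  have hc : Continuous fun x : E k => |(Matrix.of x).det| := continuous_detE.abs
  obtain ⟨x0, hx0, h0⟩ := hK.exists_isMinOn hne hc.continuousOn
  obtain ⟨x1, hx1, h1⟩ := hK.exists_isMaxOn hne hc.continuousOn
  exact ⟨_, _, abs_pos.2 (det_ne_ball hx0), abs_pos.2 (det_ne_ball hx1),
    fun x hx => ⟨h0 hx, h1 hx⟩⟩

lemma abs_log_le {t m : ℝ} (hm : 0 < m) (hm1 : m ≤ 1) (ht : m ≤ t) :
    |Real.log t| ≤ |t - 1| / m := by
  have ht0 : 0 < t := hm.trans_le ht
  rw [le_div_iff₀ hm]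
  rcases le_total 1 t with h | h
  · have h1 := Real.log_nonneg h
    have h2 := Real.log_le_sub_one_of_pos ht0
    rw [abs_of_nonneg h1, abs_of_nonneg (by linarith)]
    nlinarith
  · have h1 := Real.log_nonpos ht0.le h
    have h2 := Real.log_le_sub_one_of_pos (inv_pos.2 ht0)
    rw [Real.log_inv] at h2
    rw [abs_of_nonpos h1, abs_of_nonpos (by linarith)]
    have h3 : -Real.log t * t ≤ 1 - t := by
      have := mul_le_mul_of_nonneg_right h2 ht0.le
      rwa [sub_mul, inv_mul_cancel₀ ht0.ne', one_mul] at this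
    nlinarith

lemma det (k : ℕ) : ∃ C : ℝ, 0 ≤ C ∧ ∀ δ : ℝ, δ * (2 * k + 2) ≤ 1 → ∀ x ∈ Bl k δ,
    |Real.log (dt x)| ≤ C * δ := by
  rcases Nat.eq_zero_or_pos k with rfl | hk
  · refine ⟨0, le_rfl, fun δ _ x _ => ?_⟩
    simp [dt]
  obtain ⟨m, M, hm, -, hb⟩ := det_bounds k
  obtain ⟨L, hL⟩ := (contDiff_det (k := k)).contDiffOn.exists_lipschitzOnWith one_ne_zero
    (convex_closedBall (co (1 : G k)) (rr k)) (isCompact_closedBall _ _)
  have hm' : 0 < min m 1 := lt_min hm one_pos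
  refine ⟨L / min m 1, by positivity, fun δ h x hx => ?_⟩
  have hδ : 0 < δ := (abs_nonneg _).trans_lt (hx ⟨0, hk⟩ ⟨0, hk⟩)
  have h1 := (mem_Bl hδ).1 hx
  rw [nm_co] at h1
  have hx' : co x ∈ Metric.closedBall (co (1 : G k)) (rr k) := by
    rw [Metric.mem_closedBall, dist_eq_norm]; exact h1.le.trans (le_rr h)
  have h2 := hL.dist_le_mul _ hx' _ (Metric.mem_closedBall_self (by unfold rr; positivity))
  rw [dist_eq_norm, dist_eq_norm, of_co, of_co, Units.val_one, Matrix.det_one,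
    Real.norm_eq_abs] at h2
  have h3 : |dt x - 1| ≤ |x.val.det - 1| := by
    have := abs_abs_sub_abs_le_abs_sub x.val.det 1
    rwa [abs_one] at this
  refine (abs_log_le hm' (min_le_right _ _) ((min_le_left _ _).trans (hb _ hx').1)).trans ?_
  rw [div_mul_eq_mul_div]
  refine div_le_div_of_nonneg_right ?_ hm'.le
  exact h3.trans (h2.trans (mul_le_mul_of_nonneg_left h1.le L.2))

lemma image_Bl {δ : ℝ} (hδ : 0 < δ) (h : δ * (2 * k + 2) ≤ 1) :
    co '' Bl k δ = Metric.ball (co (1 : G k)) δ := by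
  ext x
  constructor
  · rintro ⟨g, hg, rfl⟩
    rw [Metric.mem_ball, dist_eq_norm, ← nm_co]
    exact (mem_Bl hδ).1 hg
  · intro hx
    obtain ⟨g, rfl⟩ := ball_sub h (Metric.ball_subset_closedBall hx)
    refine ⟨g, (mem_Bl hδ).2 ?_, rfl⟩
    rwa [Metric.mem_ball, dist_eq_norm, ← nm_co] at hx

lemma vol (k : ℕ) : ∃ C : ℝ, 0 < C ∧ ∀ δ : ℝ, 0 < δ → δ * (2 * k + 2) ≤ 1 →
    ENNReal.ofReal (δ ^ k ^ 2 / C) ≤ mu k (Bl k δ) ∧
      mu k (Bl k δ) ≤ ENNReal.ofReal (C * δ ^ k ^ 2) := by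
  obtain ⟨m, M, hm, hM, hb⟩ := det_bounds k
  set V : ℝ := (volume (Metric.ball (0 : E k) 1)).toReal with hV
  have hV1 : volume (Metric.ball (0 : E k) 1) = ENNReal.ofReal V :=
    (ENNReal.ofReal_toReal measure_ball_lt_top.ne).symm
  have hV0 : 0 < V :=
    ENNReal.toReal_pos (Metric.measure_ball_pos volume _ one_pos).ne' measure_ball_lt_top.ne
  refine ⟨max (m⁻¹ ^ k * V) (M ^ k / V), lt_max_of_lt_left (by positivity), fun δ hδ h => ?_⟩
  have hfr : Module.finrank ℝ (E k) = k ^ 2 := by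
    simp [Module.finrank_pi_fintype, sq]
  have hvol : volume (Metric.ball (co (1 : G k)) δ) = ENNReal.ofReal (δ ^ k ^ 2 * V) := by
    rw [Measure.addHaar_ball_of_pos _ _ hδ, hfr, hV1, ← ENNReal.ofReal_mul (by positivity)]
  have hmu : mu k (Bl k δ) = ∫⁻ x in Metric.ball (co (1 : G k)) δ, dens x := by
    rw [mu, measurableEmbedding_co.comap_apply, image_Bl hδ h, nuE,
      withDensity_apply _ measurableSet_ball]
  have hsub : ∀ x ∈ Metric.ball (co (1 : G k)) δ, x ∈ Metric.closedBall (co (1 : G k)) (rr k) :=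
    fun x hx => Metric.closedBall_subset_closedBall (le_rr h) (Metric.ball_subset_closedBall hx)
  rw [hmu]
  constructor
  · calc ENNReal.ofReal (δ ^ k ^ 2 / max (m⁻¹ ^ k * V) (M ^ k / V))
        ≤ ENNReal.ofReal (M⁻¹ ^ k) * volume (Metric.ball (co (1 : G k)) δ) := by
          rw [hvol, ← ENNReal.ofReal_mul (by positivity)]
          refine ENNReal.ofReal_le_ofReal ?_
          refine (div_le_div_of_nonneg_left (by positivity) (by positivity)
            (le_max_right _ _)).trans (le_of_eq ?_)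
          rw [inv_pow]; field_simp
      _ = ∫⁻ _ in Metric.ball (co (1 : G k)) δ, ENNReal.ofReal (M⁻¹ ^ k) := by
          rw [setLIntegral_const]
      _ ≤ _ := by
          refine setLIntegral_mono measurable_dens fun x hx => ENNReal.ofReal_le_ofReal ?_
          have h1 := hb x (hsub x hx)
          exact pow_le_pow_left₀ (by positivity) (inv_anti₀ (hm.trans_le h1.1) h1.2) k
  · calc ∫⁻ x in Metric.ball (co (1 : G k)) δ, dens x
        ≤ ∫⁻ _ in Metric.ball (co (1 : G k)) δ, ENNReal.ofReal (m⁻¹ ^ k) := by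
          refine setLIntegral_mono measurable_const fun x hx => ENNReal.ofReal_le_ofReal ?_
          have h1 := hb x (hsub x hx)
          exact pow_le_pow_left₀ (by positivity) (inv_anti₀ hm h1.1) k
      _ = ENNReal.ofReal (m⁻¹ ^ k) * volume (Metric.ball (co (1 : G k)) δ) := by
          rw [setLIntegral_const]
      _ ≤ _ := by
          rw [hvol, ← ENNReal.ofReal_mul (by positivity)]
          refine ENNReal.ofReal_le_ofReal ?_
          calc m⁻¹ ^ k * (δ ^ k ^ 2 * V) = (m⁻¹ ^ k * V) * δ ^ k ^ 2 := by ring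
            _ ≤ _ := mul_le_mul_of_nonneg_right (le_max_left _ _) (by positivity)

/-- rescaled profile -/
def B (b : E k → ℂ) (δ : ℝ) (g : G k) : ℂ := b (δ⁻¹ • (co g - co (1 : G k)))

lemma contDiff_aff {b : E k → ℂ} (hb : ContDiff ℝ ∞ b) (δ : ℝ) :
    ContDiff ℝ ∞ fun x : E k => b (δ⁻¹ • (x - co (1 : G k))) :=
  hb.comp ((contDiff_id.sub contDiff_const).const_smul δ⁻¹)

lemma sm_B (hC : CalcStmt) {b : E k → ℂ} (hb : ContDiff ℝ ∞ b) (δ : ℝ) : Sm (B b δ) :=
  (hC.ofE k _ (contDiff_aff hb δ)).1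

lemma B_ne {b : E k → ℂ} (hs : tsupport b ⊆ Metric.closedBall 0 (3 / 4)) {δ : ℝ} (hδ : 0 < δ)
    {g : G k} (h : B b δ g ≠ 0) : ‖co g - co (1 : G k)‖ ≤ 3 / 4 * δ := by
  have h1 := hs (subset_tsupport b h)
  rw [mem_closedBall_zero_iff, norm_smul, norm_inv, Real.norm_of_nonneg hδ.le,
    inv_mul_le_iff₀ hδ] at h1
  linarith

/-- the complexified bump -/
def b0 (k : ℕ) (x : E k) : ℂ := ((bp k x : ℝ) : ℂ)

lemma contDiff_b0 : ContDiff ℝ ∞ (b0 k) :=
  Complex.ofRealCLM.contDiff.comp (bp k).contDiff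

lemma tsupport_b0 : tsupport (b0 k) ⊆ Metric.closedBall 0 (3 / 4) := by
  have h1 : Function.support (b0 k) = Function.support (bp k) := by
    ext x; simp [b0]
  rw [tsupport, h1]
  exact le_of_eq (bp k).tsupport_eq

lemma tf_eq (δ : ℝ) : tf (k := k) δ = B (b0 k) δ := rfl

lemma cl_sub_Bl {δ : ℝ} (hδ : 0 < δ) :
    co ⁻¹' Metric.closedBall (co (1 : G k)) (3 / 4 * δ) ⊆ Bl k δ := by
  intro g hg
  rw [Set.mem_preimage, Metric.mem_closedBall, dist_eq_norm, ← nm_co] at hg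
  exact (mem_Bl hδ).2 (by linarith)

lemma tsupport_B {b : E k → ℂ} (hs : tsupport b ⊆ Metric.closedBall 0 (3 / 4)) {δ : ℝ}
    (hδ : 0 < δ) :
    tsupport (B b δ) ⊆ co ⁻¹' Metric.closedBall (co (1 : G k)) (3 / 4 * δ) := by
  refine closure_minimal (fun g hg => ?_) (Metric.isClosed_closedBall.preimage continuous_co)
  rw [Set.mem_preimage, Metric.mem_closedBall, dist_eq_norm]
  exact B_ne hs hδ hg

lemma bump (hC : CalcStmt) (k : ℕ) (δ : ℝ) (hδ : 0 < δ) (h : δ * (2 * k + 2) ≤ 1) :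
    Sm (tf (k := k) δ) ∧ HasCompactSupport (tf (k := k) δ) ∧
      (∀ g : G k, tf δ g ≠ 0 → g ∈ Bl k δ) ∧ (∀ g ∈ Bl k (δ / 2), tf δ g = 1) ∧
      ∀ g : G k, ∃ x : ℝ, 0 ≤ x ∧ x ≤ 1 ∧ tf δ g = x := by
  refine ⟨sm_B hC contDiff_b0 δ, ?_, fun g hg => ?_, fun g hg => ?_,
    fun g => ⟨_, (bp k).nonneg, (bp k).le_one, rfl⟩⟩
  · have hk : (0 : ℝ) ≤ k := Nat.cast_nonneg k
    exact (isCompact_cl (δ := 3 / 4 * δ) (by nlinarith)).of_isClosed_subset (isClosed_tsupport _)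
      (tsupport_B tsupport_b0 hδ)
  · exact cl_sub_Bl hδ (tsupport_B tsupport_b0 hδ (subset_tsupport _ hg))
  · have h1 := (mem_Bl (half_pos hδ)).1 hg
    rw [nm_co] at h1
    have : bp k (δ⁻¹ • (co g - co (1 : G k))) = 1 := by
      apply (bp k).one_of_mem_closedBall
      rw [mem_closedBall_zero_iff, norm_smul, norm_inv, Real.norm_of_nonneg hδ.le,
        inv_mul_le_iff₀ hδ]
      change _ ≤ δ * (1 / 2)
      linarith
    rw [tf, this]; simp

/-- iterated left derivative -/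
def LL (l : List (Mat k)) (f : G k → ℂ) : G k → ℂ := l.foldr (fun A f => Ld A f) f

lemma ld_add (hC : CalcStmt) (A : Mat k) {F F' : G k → ℂ} (h : Sm F) (h' : Sm F') :
    Ld A (F + F') = Ld A F + Ld A F' := by
  ext g
  rw [hC.ld_rd, hC.rd_add k _ _ _ h h', Pi.add_apply, Pi.add_apply, hC.ld_rd, hC.ld_rd]

lemma ld_smul (hC : CalcStmt) (A : Mat k) (c : ℂ) (F : G k → ℂ) :
    Ld A (c • F) = c • Ld A F := by
  ext g
  rw [hC.ld_rd, hC.rd_smul, Pi.smul_apply, Pi.smul_apply, hC.ld_rd]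

lemma ld_mul (hC : CalcStmt) (A : Mat k) {F F' : G k → ℂ} (h : Sm F) (h' : Sm F') :
    Ld A (F * F') = Ld A F * F' + F * Ld A F' := by
  ext g
  rw [hC.ld_rd, hC.rd_mul k _ _ _ h h']
  simp only [Pi.add_apply, Pi.mul_apply, hC.ld_rd]

lemma sm_LL (hC : CalcStmt) (l : List (Mat k)) {F : G k → ℂ} (h : Sm F) : Sm (LL l F) := by
  induction l with
  | nil => exact h
  | cons A l ih => exact hC.ld k A _ ih

lemma LL_add (hC : CalcStmt) (l : List (Mat k)) {F F' : G k → ℂ} (h : Sm F) (h' : Sm F') :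
    LL l (F + F') = LL l F + LL l F' := by
  induction l with
  | nil => rfl
  | cons A l ih =>
    change Ld A (LL l (F + F')) = Ld A (LL l F) + Ld A (LL l F')
    rw [ih, ld_add hC A (sm_LL hC l h) (sm_LL hC l h')]

lemma LL_smul (hC : CalcStmt) (l : List (Mat k)) (c : ℂ) (F : G k → ℂ) :
    LL l (c • F) = c • LL l F := by
  induction l with
  | nil => rfl
  | cons A l ih =>
    change Ld A (LL l (c • F)) = c • Ld A (LL l F)
    rw [ih, ld_smul hC]

lemma sm_sum (hC : CalcStmt) {ι : Type} (s : Finset ι) (F : ι → G k → ℂ) (h : ∀ i, Sm (F i)) :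
    Sm (∑ i ∈ s, F i) := by
  classical
  induction s using Finset.induction_on with
  | empty => exact hC.const k 0
  | insert i s hi ih => rw [Finset.sum_insert hi]; exact hC.add k _ _ (h i) ih

lemma LL_sum (hC : CalcStmt) (l : List (Mat k)) {ι : Type} (s : Finset ι) (F : ι → G k → ℂ)
    (h : ∀ i, Sm (F i)) : LL l (∑ i ∈ s, F i) = ∑ i ∈ s, LL l (F i) := by
  classical
  induction s using Finset.induction_on with
  | empty =>
    have := LL_smul hC l 0 (0 : G k → ℂ)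
    simpa using this
  | insert i s hi ih =>
    rw [Finset.sum_insert hi, Finset.sum_insert hi, LL_add hC l (h i) (sm_sum hC s F h), ih]

lemma tsupport_LL (hC : CalcStmt) (l : List (Mat k)) (F : G k → ℂ) :
    tsupport (LL l F) ⊆ tsupport F := by
  induction l with
  | nil => exact le_rfl
  | cons A l ih => exact (hC.supp k A _).trans ih

/-- basis vector -/
def ev (p : Fin k × Fin k) : E k := Pi.single p.1 (Pi.single p.2 1)

lemma eq_sum_ev (x : E k) : x = ∑ p : Fin k × Fin k, x p.1 p.2 • ev p := by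
  ext i j
  rw [Finset.sum_apply, Finset.sum_apply, Finset.sum_eq_single (i, j)]
  · simp [ev]
  · rintro ⟨a, b⟩ _ hne
    by_cases ha : a = i
    · subst ha
      have hb : j ≠ b := fun hb => hne (by rw [hb])
      simp [ev, Pi.single_eq_of_ne hb]
    · simp [ev, Pi.single_eq_of_ne (Ne.symm ha)]
  · simp

/-- entry of a left multiple -/
def en (A : Mat k) (p : Fin k × Fin k) (g : G k) : ℂ := (((A * g.val) p.1 p.2 : ℝ) : ℂ)

lemma sm_en (hC : CalcStmt) (A : Mat k) (p : Fin k × Fin k) : Sm (en A p) := by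
  have : en A p = ∑ l, ((A p.1 l : ℝ) : ℂ) • fun g : G k => ((g.val l p.2 : ℝ) : ℂ) := by
    ext g
    simp [en, Matrix.mul_apply, Finset.sum_apply]
  rw [this]
  exact sm_sum hC _ _ fun l => hC.smul k _ _ (hC.entry k l p.2).1

/-- coordinate derivative of a profile -/
def db (b : E k → ℂ) (p : Fin k × Fin k) (x : E k) : ℂ := fderiv ℝ b x (ev p)

lemma contDiff_db {b : E k → ℂ} (hb : ContDiff ℝ ∞ b) (p : Fin k × Fin k) :
    ContDiff ℝ ∞ (db b p) :=
  (hb.fderiv_right (m := ∞) le_rfl).clm_apply contDiff_const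

lemma tsupport_db (b : E k → ℂ) (p : Fin k × Fin k) : tsupport (db b p) ⊆ tsupport b :=
  tsupport_fderiv_apply_subset ℝ (ev p)

lemma ld_B (hC : CalcStmt) (A : Mat k) {b : E k → ℂ} (hb : ContDiff ℝ ∞ b) (δ : ℝ) :
    Ld A (B b δ) = ((δ⁻¹ : ℝ) : ℂ) • ∑ p, en A p * B (db b p) δ := by
  ext g
  have h1 := (hC.ofE k _ (contDiff_aff hb δ)).2 A g
  have h2 : HasFDerivAt (fun x : E k => δ⁻¹ • (x - co (1 : G k)))
      (δ⁻¹ • ContinuousLinearMap.id ℝ (E k)) (co g) :=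
    ((hasFDerivAt_id (co g)).sub_const _).const_smul δ⁻¹
  have h3 := ((hb.differentiable (by simp)) (δ⁻¹ • (co g - co (1 : G k)))).hasFDerivAt.comp
    (co g) h2
  have h4 := h3.fderiv
  change Ld A (fun g : G k => b (δ⁻¹ • (co g - co (1 : G k)))) g = _
  rw [h1]
  change fderiv ℝ (b ∘ fun x : E k => δ⁻¹ • (x - co (1 : G k))) (co g) _ = _
  rw [h4, ContinuousLinearMap.comp_apply, _root_.smul_apply,
    ContinuousLinearMap.id_apply, map_smul, eq_sum_ev (fun i j => (A * g.val) i j), map_sum]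
  simp [Finset.sum_apply, en, B, db]

lemma der_aux (hC : CalcStmt) {c : ℝ} (hc : 0 < c) (hc' : c * (2 * k + 2) ≤ 1)
    (l : List (Mat k)) : ∀ (q : G k → ℂ) (b : E k → ℂ), Sm q → ContDiff ℝ ∞ b →
      tsupport b ⊆ Metric.closedBall 0 (3 / 4) → ∃ C : ℝ, 0 ≤ C ∧ ∀ T : ℝ, 1 ≤ T → ∀ g,
        ‖LL l (q * B b (c / T)) g‖ ≤ C * T ^ l.length := by
  induction l using List.reverseRecOn with
  | nil =>
    intro q b hq hb hs
    obtain ⟨C1, h1⟩ := (isCompact_cl hc').exists_bound_of_continuousOn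
      (hC.cont k q hq).continuousOn
    have hcs : HasCompactSupport b :=
      (isCompact_closedBall _ _).of_isClosed_subset (isClosed_tsupport _) hs
    obtain ⟨C2, h2⟩ := hcs.exists_bound_of_continuous hb.continuous
    have hC2 : 0 ≤ C2 := (norm_nonneg _).trans (h2 0)
    refine ⟨max C1 0 * C2, by positivity, fun T hT g => ?_⟩
    change ‖q g * B b (c / T) g‖ ≤ max C1 0 * C2 * T ^ 0
    rw [pow_zero, mul_one]
    by_cases h0 : B b (c / T) g = 0
    · rw [h0, mul_zero, norm_zero]; positivity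
    have h3 := B_ne hs (by positivity) h0
    have h4 : c / T ≤ c := div_le_self hc.le hT
    rw [norm_mul]
    refine mul_le_mul ((h1 g ?_).trans (le_max_left _ _)) (h2 _) (norm_nonneg _) (le_max_right _ _)
    rw [Set.mem_preimage, Metric.mem_closedBall, dist_eq_norm]
    linarith
  | append_singleton l A ih =>
    intro q b hq hb hs
    obtain ⟨C1, hC1, h1⟩ := ih (Ld A q) b (hC.ld k A q hq) hb hs
    have h2 := fun p : Fin k × Fin k => ih (q * en A p) (db b p) (hC.mul k _ _ hq (sm_en hC A p))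
      (contDiff_db hb p) ((tsupport_db b p).trans hs)
    choose C2 hC2 h2 using h2
    have hS : 0 ≤ ∑ p, C2 p := Finset.sum_nonneg fun p _ => hC2 p
    refine ⟨C1 + c⁻¹ * ∑ p, C2 p, by positivity, fun T hT g => ?_⟩
    have hT0 : 0 < T := one_pos.trans_le hT
    have hsm : ∀ p, Sm ((q * en A p) * B (db b p) (c / T)) := fun p =>
      hC.mul k _ _ (hC.mul k _ _ hq (sm_en hC A p)) (sm_B hC (contDiff_db hb p) _)
    have h3 : LL (l ++ [A]) (q * B b (c / T)) = LL l (Ld A q * B b (c / T)) +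
        (((c / T)⁻¹ : ℝ) : ℂ) • ∑ p, LL l ((q * en A p) * B (db b p) (c / T)) := by
      have : LL (l ++ [A]) (q * B b (c / T)) = LL l (Ld A (q * B b (c / T))) := by
        simp [LL, List.foldr_append]
      rw [this, ld_mul hC A hq (sm_B hC hb _), ld_B hC A hb, mul_smul_comm, Finset.mul_sum,
        ← LL_sum hC l _ _ hsm, ← LL_smul hC, ← LL_add hC l
          (hC.mul k _ _ (hC.ld k A q hq) (sm_B hC hb _)) (hC.smul k _ _ (sm_sum hC _ _ hsm))]
      simp only [mul_assoc]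
    rw [h3, Pi.add_apply, Pi.smul_apply, Finset.sum_apply, List.length_append,
      List.length_singleton]
    refine (norm_add_le _ _).trans ?_
    rw [norm_smul, Complex.norm_real, Real.norm_of_nonneg (by positivity)]
    have h4 : ‖∑ p, LL l ((q * en A p) * B (db b p) (c / T)) g‖ ≤ (∑ p, C2 p) * T ^ l.length := by
      rw [Finset.sum_mul]
      exact (norm_sum_le _ _).trans (Finset.sum_le_sum fun p _ => h2 p T hT g)
    have h5 : T ^ l.length ≤ T ^ (l.length + 1) := pow_le_pow_right₀ hT (Nat.le_succ _)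
    calc _ ≤ C1 * T ^ (l.length + 1) + (c / T)⁻¹ * ((∑ p, C2 p) * T ^ l.length) :=
          add_le_add ((h1 T hT g).trans (mul_le_mul_of_nonneg_left h5 hC1))
            (mul_le_mul_of_nonneg_left h4 (by positivity))
      _ = _ := by field_simp; ring

lemma der (hC : CalcStmt) (k : ℕ) (c : ℝ) (hc : 0 < c) (hc' : c * (2 * k + 2) ≤ 1)
    (q : G k → ℂ) (hq : Sm q) (l : List (Mat k)) : ∃ C : ℝ, 0 ≤ C ∧ ∀ T : ℝ, 1 ≤ T → ∀ g,
      ‖l.foldr (fun A f => Ld A f) (q * tf (c / T)) g‖ ≤ C * T ^ l.length ∧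
      (l.foldr (fun A f => Ld A f) (q * tf (c / T)) g ≠ 0 → g ∈ Bl k (c / T)) := by
  obtain ⟨C, hC0, h⟩ := der_aux hC hc hc' l q (b0 k) hq contDiff_b0 tsupport_b0
  refine ⟨C, hC0, fun T hT g => ⟨h T hT g, fun hg => ?_⟩⟩
  have hT0 : 0 < T := one_pos.trans_le hT
  have h1 := tsupport_LL hC l (q * tf (c / T)) (subset_tsupport _ hg)
  exact cl_sub_Bl (by positivity)
    (tsupport_B tsupport_b0 (by positivity) (tsupport_mul_subset_right h1))

lemma dl_pos {a : Fin k → ℝ} (ha : ∀ i, 0 < a i) : 0 < dl a :=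
  Finset.prod_pos fun i _ => Finset.prod_pos fun j _ => div_pos (ha i) (ha j)

lemma cs {α : Type} [MeasurableSpace α] (μ : Measure α) {s : Set α} (hs : MeasurableSet s)
    {f : α → ℝ≥0∞} (hf : Measurable f) :
    (∫⁻ x, s.indicator 1 x * f x ∂μ) ^ 2 ≤ μ s * ∫⁻ x, s.indicator 1 x * f x ^ 2 ∂μ := by
  have hi : Measurable (s.indicator (1 : α → ℝ≥0∞)) := measurable_one.indicator hs
  have h := ENNReal.lintegral_mul_le_Lp_mul_Lq μ Real.HolderConjugate.two_two hi.aemeasurable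
    (hi.mul hf).aemeasurable
  have e1 : ∀ x, s.indicator (1 : α → ℝ≥0∞) x * (s.indicator (1 : α → ℝ≥0∞) x * f x) =
      s.indicator 1 x * f x := by
    intro x; by_cases hx : x ∈ s <;> simp [hx]
  have e2 : ∀ x, s.indicator (1 : α → ℝ≥0∞) x ^ (2 : ℝ) = s.indicator 1 x := by
    intro x; by_cases hx : x ∈ s <;> simp [hx]
  have e3 : ∀ x, (s.indicator (1 : α → ℝ≥0∞) x * f x) ^ (2 : ℝ) = s.indicator 1 x * f x ^ 2 := by
    intro x; by_cases hx : x ∈ s <;> simp [hx]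
  simp only [Pi.mul_apply, e1, e2, e3] at h
  rw [lintegral_indicator_one hs] at h
  refine (pow_le_pow_left' h 2).trans (le_of_eq ?_)
  rw [mul_pow, ← ENNReal.rpow_natCast, ← ENNReal.rpow_natCast, ← ENNReal.rpow_mul,
    ← ENNReal.rpow_mul]
  norm_num

lemma fiber (hH : HaarStmt) {a : Fin k → ℝ} (ha : ∀ i, 0 < a i) {δ : ℝ} (hδ : 0 < δ)
    (h : δ * (2 * k + 2) ≤ 1) (g : G k) :
    mY k {y | (dg a)⁻¹ * (un k y * g) ∈ Bl k δ} ≤
      ENNReal.ofReal (dl a * (8 * δ) ^ k.choose 2) * (Om (dg a) δ).indicator 1 g := by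
  by_cases hg : g ∈ Om (dg a) δ
  swap
  · have : {y | (dg a)⁻¹ * (un k y * g) ∈ Bl k δ} = ∅ := by
      refine Set.eq_empty_of_forall_notMem fun y hy => hg ⟨(un k y)⁻¹, (isU_un k y).inv, _, hy, ?_⟩
      group
    rw [this, measure_empty]
    exact zero_le
  rw [Set.indicator_of_mem hg, Pi.one_apply, mul_one]
  obtain ⟨u, hu, x, hx, rfl⟩ := hg
  obtain ⟨e1, he1, hu1⟩ := hH.yr k u hu
  obtain ⟨e2, he2, hu2⟩ := hH.ysc k a ha
  have hd := dl_pos ha
  set S : Set (Y k) := {y | (dg a)⁻¹ * (un k y * (dg a * x)) ∈ Bl k δ} with hS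
  have h1 : {y | (dg a)⁻¹ * (un k y * (u * dg a * x)) ∈ Bl k δ} = e1 ⁻¹' S := by
    ext y
    simp only [hS, Set.mem_ofPred_eq, Set.mem_preimage, hu1, mul_assoc]
  have h2 : mY k (e1 ⁻¹' S) = mY k S := by
    rw [← e1.map_apply, he1.map_eq]
  have h3 : mY k (e2 ⁻¹' S) = ENNReal.ofReal (dl a)⁻¹ * mY k S := by
    rw [← e2.map_apply, he2, Measure.smul_apply, smul_eq_mul]
  have h4 : e2 ⁻¹' S ⊆ {y | ∀ i j, i < j → |(un k y).val i j| < 4 * δ} := by
    intro y hy i j hij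
    have hy' : un k y * x ∈ Bl k δ := by
      simp only [hS, Set.mem_ofPred_eq, Set.mem_preimage, hu2] at hy
      convert hy using 1
      group
    have hk : (0 : ℝ) ≤ k := Nat.cast_nonneg k
    have a1 := (mem_Bl hδ).1 hy'
    have a2 := (mem_Bl hδ).1 hx
    have a3 := kd hδ.le h
    have a4 := nm_inv_sub x ((mul_le_mul_of_nonneg_left a2.le hk).trans a3)
    have a5 := nm_mul_sub (un k y * x) x⁻¹
    rw [mul_inv_cancel_right] at a5
    have a6 : k * nm ((un k y * x).val - 1) ≤ 1 / 2 :=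
      (mul_le_mul_of_nonneg_left a1.le hk).trans a3
    have a7 := nm_nonneg ((x⁻¹).val - 1)
    have a8 := abs_le_nm ((un k y).val - 1) i j
    rw [Matrix.sub_apply, Matrix.one_apply_ne hij.ne, sub_zero] at a8
    nlinarith
  have h5 := (measure_mono h4).trans_eq (hH.yball k (4 * δ) (by positivity))
  rw [h1, h2]
  calc mY k S = ENNReal.ofReal (dl a) * mY k (e2 ⁻¹' S) := by
        rw [h3, ← mul_assoc, ← ENNReal.ofReal_mul hd.le, mul_inv_cancel₀ hd.ne',
          ENNReal.ofReal_one, one_mul]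
    _ ≤ ENNReal.ofReal (dl a) * ENNReal.ofReal ((2 * (4 * δ)) ^ k.choose 2) := by gcongr
    _ = _ := by
        rw [← ENNReal.ofReal_mul hd.le]
        congr 3
        ring

lemma upper (hH : HaarStmt) (k : ℕ) : ∃ C : ℝ, 0 < C ∧ ∀ (a : Fin k → ℝ), (∀ i, 0 < a i) →
    ∀ δ : ℝ, 0 < δ → δ * (2 * k + 2) ≤ 1 → ∀ τ W : G k → ℂ, Measurable τ → (∀ g, ‖τ g‖ ≤ 1) →
    (∀ g, τ g ≠ 0 → g ∈ Bl k δ) → Measurable W → UInv (fun g => ‖W g‖) →
    ‖∫ x, τ x * W (dg a * x) ∂mu k‖ₑ ^ 2 ≤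
      ENNReal.ofReal (C * dl a * δ ^ (k ^ 2 + k.choose 2)) *
        II k fun g => (Om (dg a) δ).indicator 1 g * ‖W g‖ₑ ^ 2 := by
  obtain ⟨C, hC, hv⟩ := vol k
  refine ⟨C * 8 ^ k.choose 2, by positivity, fun a ha δ hδ h τ W _ hτ1 hτs hW hU => ?_⟩
  have hd := dl_pos ha
  have hB : MeasurableSet (Bl k δ) := (isOpen_Bl δ).measurableSet
  have hi : Measurable ((Bl k δ).indicator (1 : G k → ℝ≥0∞)) := measurable_one.indicator hB
  have hWa : Measurable fun x => ‖W (dg a * x)‖ₑ := (hW.comp (measurable_const_mul _)).enorm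
  have h1 : ‖∫ x, τ x * W (dg a * x) ∂mu k‖ₑ ≤
      ∫⁻ x, (Bl k δ).indicator 1 x * ‖W (dg a * x)‖ₑ ∂mu k := by
    refine (enorm_integral_le_lintegral_enorm _).trans (lintegral_mono fun x => ?_)
    simp only [enorm_mul]
    gcongr
    by_cases hx : x ∈ Bl k δ
    · rw [Set.indicator_of_mem hx, Pi.one_apply, ← ofReal_norm, ← ENNReal.ofReal_one]
      exact ENNReal.ofReal_le_ofReal (hτ1 x)
    · have : τ x = 0 := by_contra fun h0 => hx (hτs x h0)
      simp [this]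
  set Ψ : G k → ℝ≥0∞ := fun g => (Bl k δ).indicator 1 ((dg a)⁻¹ * g) * ‖W g‖ₑ ^ 2 with hΨ
  have hΨm : Measurable Ψ := (hi.comp (measurable_const_mul _)).mul (hW.enorm.pow_const 2)
  have h2 : ∫⁻ x, (Bl k δ).indicator 1 x * ‖W (dg a * x)‖ₑ ^ 2 ∂mu k = ∫⁻ g, Ψ g ∂mu k := by
    rw [← lintegral_mul_left_eq_self Ψ (dg a)]
    simp only [hΨ, inv_mul_cancel_left]
  have h3 : ∀ g, ∫⁻ y, Ψ (un k y * g) ∂mY k ≤ ENNReal.ofReal (dl a * (8 * δ) ^ k.choose 2) *
      ((Om (dg a) δ).indicator 1 g * ‖W g‖ₑ ^ 2) := by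
    intro g
    have hm : MeasurableSet {y | (dg a)⁻¹ * (un k y * g) ∈ Bl k δ} :=
      (((measurable_un k).mul_const g).const_mul _) hB
    have e : ∀ y, Ψ (un k y * g) =
        {y | (dg a)⁻¹ * (un k y * g) ∈ Bl k δ}.indicator 1 y * ‖W g‖ₑ ^ 2 := by
      intro y
      have e1 : ‖W (un k y * g)‖ₑ = ‖W g‖ₑ := by
        rw [← ofReal_norm, ← ofReal_norm]
        exact congrArg _ (hU _ (isU_un k y) g)
      simp only [hΨ, e1]
      rfl
    simp only [e]
    rw [lintegral_mul_const _ (measurable_one.indicator hm), lintegral_indicator_one hm,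
      ← mul_assoc]
    gcongr
    exact fiber hH ha hδ h g
  have h4 : ∫⁻ g, Ψ g ∂mu k ≤ ENNReal.ofReal (dl a * (8 * δ) ^ k.choose 2) *
      II k fun g => (Om (dg a) δ).indicator 1 g * ‖W g‖ₑ ^ 2 := by
    rw [hH.unf k Ψ hΨm, II, II, ← lintegral_const_mul' _ _ ENNReal.ofReal_ne_top]
    exact lintegral_mono fun x => h3 _
  calc _ ≤ (∫⁻ x, (Bl k δ).indicator 1 x * ‖W (dg a * x)‖ₑ ∂mu k) ^ 2 := pow_le_pow_left' h1 2
    _ ≤ mu k (Bl k δ) * ∫⁻ g, Ψ g ∂mu k := by rw [← h2]; exact cs _ hB hWa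
    _ ≤ ENNReal.ofReal (C * δ ^ k ^ 2) * (ENNReal.ofReal (dl a * (8 * δ) ^ k.choose 2) *
        II k fun g => (Om (dg a) δ).indicator 1 g * ‖W g‖ₑ ^ 2) := mul_le_mul' (hv δ hδ h).2 h4
    _ = _ := by
        rw [← mul_assoc, ← ENNReal.ofReal_mul (by positivity)]
        congr 2
        rw [mul_pow, pow_add]
        ring

end Loc0

theorem loc0 (hH : HaarStmt) (hC : CalcStmt) : Loc0Stmt where
  opn _ a δ := ⟨Loc0.isOpen_Bl δ, Loc0.isOpen_Om a δ⟩
  mul _ δ δ' h h' x hx y hy := Loc0.mul_Bl δ δ' h h' x hx y hy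
  det := Loc0.det
  vol := Loc0.vol
  seg _ δ h A hA := Loc0.seg δ h A hA
  bump := Loc0.bump hC
  der := Loc0.der hC
  upper := Loc0.upper hH

end Pool.Agent.Lib.MP_fa98d2_nt.D
end
end

-- part Pool.Agent.Lib.MP_fa98d2_nt.D.Loc1
section

/-!
First local estimate: the smoothed value of the Whittaker function of a first derivative at the
point `diag(T^N, ..., T, 1)` costs at most one power of `T`.
-/

open MeasureTheory Filter Topology Matrix
open scoped ENNReal Real ContDiff ComplexConjugate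

noncomputable section

namespace Pool.Agent.Lib.MP_fa98d2_nt.D

namespace Loc1

variable {k N : ℕ}

/-! ### Left derivatives -/

/-- iterated left derivative, the head of the list is applied last -/
def DL (l : List (Mat k)) (φ : G k → ℂ) : G k → ℂ := l.foldr (fun A f => Ld A f) φ

/-- iterated left derivative, the head of the list is applied first -/
def DF (l : List (Mat k)) (f : G k → ℂ) : G k → ℂ := l.foldl (fun F A => Ld A F) f

/-- the matrices of a word -/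
def wm (l : List (Fin k × Fin k)) : List (Mat k) := l.map fun x => em x.1 x.2

lemma length_wm (l : List (Fin k × Fin k)) : (wm l).length = l.length := List.length_map _

lemma ld_mul (hC : CalcStmt) (A : Mat k) {F F' : G k → ℂ} (hF : Sm F) (hF' : Sm F') :
    Ld A (F * F') = Ld A F * F' + F * Ld A F' := by
  funext g
  rw [hC.ld_rd, hC.rd_mul k _ F F' hF hF']
  simp only [Pi.add_apply, Pi.mul_apply, hC.ld_rd]

lemma ld_rt (A : Mat k) (x : G k) (f : G k → ℂ) : Ld A (rt x f) = rt x (Ld A f) := by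
  funext g
  simp only [Ld, rt, mul_assoc]

lemma sm_rt (hC : CalcStmt) {F : G k → ℂ} (hF : Sm F) (a : G k) : Sm (rt a F) := by
  have := hC.tra k F hF 1 a
  simp only [one_mul] at this
  exact this

lemma sm_Rw (hC : CalcStmt) {F : G k → ℂ} (hF : Sm F) (l : List (Fin k × Fin k)) :
    Sm (Rw l F) := by
  induction l with
  | nil => exact hF
  | cons x l ih => exact hC.rd k _ _ ih

lemma ld_Rw (hC : CalcStmt) (A : Mat k) {F : G k → ℂ} (hF : Sm F) (l : List (Fin k × Fin k)) :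
    Ld A (Rw l F) = Rw l (Ld A F) := by
  induction l with
  | nil => rfl
  | cons x l ih =>
    change Ld A (Rd (em x.1 x.2) (Rw l F)) = Rd (em x.1 x.2) (Rw l (Ld A F))
    rw [← ih, hC.rd_ld k _ _ _ (sm_Rw hC hF l)]

lemma rd_one (A : Mat k) (F : G k → ℂ) : Rd A F 1 = Ld A F 1 := by
  simp only [Rd, Ld, one_mul, mul_one]

lemma rw_rt_one (hC : CalcStmt) (l : List (Fin k × Fin k)) (x : G k) :
    ∀ f : G k → ℂ, Sm f → Rw l (rt x f) 1 = DF (wm l) f x := by
  induction l with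
  | nil => intro f _; simp [Rw, DF, wm, rt]
  | cons y l ih =>
    intro f hf
    change Rd (em y.1 y.2) (Rw l (rt x f)) 1 = DF (wm l) (Ld (em y.1 y.2) f) x
    rw [rd_one, ld_Rw hC _ (sm_rt hC hf x), ld_rt, ih _ (hC.ld k _ _ hf)]

lemma sm_DL (hC : CalcStmt) {φ : G k → ℂ} (hφ : Sm φ) (l : List (Mat k)) : Sm (DL l φ) := by
  induction l with
  | nil => exact hφ
  | cons A l ih => exact hC.ld k _ _ ih

lemma sm_DF (hC : CalcStmt) (l : List (Mat k)) : ∀ f : G k → ℂ, Sm f → Sm (DF l f) := by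
  induction l with
  | nil => intro f hf; exact hf
  | cons A l ih => intro f hf; exact ih _ (hC.ld k _ _ hf)

lemma cs_ld (hC : CalcStmt) (A : Mat k) {φ : G k → ℂ} (h : HasCompactSupport φ) :
    HasCompactSupport (Ld A φ) :=
  IsCompact.of_isClosed_subset h (isClosed_tsupport _) (hC.supp k A φ)

lemma cs_DL (hC : CalcStmt) {φ : G k → ℂ} (h : HasCompactSupport φ) (l : List (Mat k)) :
    HasCompactSupport (DL l φ) := by
  induction l with
  | nil => exact h
  | cons A l ih => exact cs_ld hC A ih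

lemma integrable_mul {φ F : G k → ℂ} (hφ : Continuous φ) (h : HasCompactSupport φ)
    (hF : Continuous F) : Integrable (fun x => φ x * F x) (mu k) :=
  (hφ.mul hF).integrable_of_hasCompactSupport h.mul_right

lemma ibp1 (hC : CalcStmt) (A : Mat k) {φ F : G k → ℂ} (hφ : Sm φ) (h : HasCompactSupport φ)
    (hF : Sm F) : ∫ x, φ x * Ld A F x ∂mu k = -∫ x, Ld A φ x * F x ∂mu k := by
  have h0 := hC.ibp k A (φ * F) (hC.mul k _ _ hφ hF) h.mul_right
  rw [ld_mul hC A hφ hF] at h0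
  simp only [Pi.add_apply, Pi.mul_apply] at h0
  rw [integral_add (integrable_mul (hC.cont k _ (hC.ld k A φ hφ)) (cs_ld hC A h) (hC.cont k _ hF))
    (integrable_mul (hC.cont k _ hφ) h (hC.cont k _ (hC.ld k A F hF)))] at h0
  linear_combination h0

lemma ibpL (hC : CalcStmt) {φ : G k → ℂ} (hφ : Sm φ) (h : HasCompactSupport φ)
    (l : List (Mat k)) : ∀ f : G k → ℂ, Sm f →
    ‖∫ x, φ x * DF l f x ∂mu k‖ = ‖∫ x, DL l φ x * f x ∂mu k‖ := by
  induction l with
  | nil => intro f _; rfl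
  | cons A l ih =>
    intro f hf
    change ‖∫ x, φ x * DF l (Ld A f) x ∂mu k‖ = ‖∫ x, Ld A (DL l φ) x * f x ∂mu k‖
    rw [ih _ (hC.ld k _ _ hf), ibp1 hC A (sm_DL hC hφ l) (cs_DL hC h l) hf, norm_neg]

/-! ### Restriction to the upper left block -/

lemma mkG_blk (A : Mat k) : mkG (blk A 0) = up (mkG A) := by
  by_cases h : A.det = 0
  · have h1 : mkG A = 1 := by simp [mkG, h]
    have h2 : mkG (blk A 0) = 1 := by simp [mkG, det_blk, h]
    rw [h1, h2, up_one]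
  · apply Units.ext
    rw [val_mkG (by rwa [det_blk]), up, val_pb, val_mkG h]

lemma one_add_em (t : ℝ) (c d : Fin k) :
    (1 : Mat (k + 1)) + t • em c.castSucc d.castSucc = blk (1 + t • em c d) 0 := by
  ext i j
  refine Fin.lastCases ?_ (fun i => ?_) i <;> refine Fin.lastCases ?_ (fun j => ?_) j <;>
    simp [em, Matrix.one_apply, Matrix.single_apply, Fin.castSucc_ne_last,
      (Fin.castSucc_ne_last _).symm]

lemma rd_up (c d : Fin k) (F : G (k + 1) → ℂ) (g : G (k + 1)) (y : G k) :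
    Rd (em c.castSucc d.castSucc) F (g * up y) = Rd (em c d) (fun y => F (g * up y)) y := by
  simp only [Rd, one_add_em, mkG_blk, up_mul, mul_assoc]

lemma rw_up (F : G (k + 1) → ℂ) (g : G (k + 1)) (l : List (Fin k × Fin k)) :
    (fun y => Rw (upw l) F (g * up y)) = Rw l fun y => F (g * up y) := by
  induction l with
  | nil => rfl
  | cons x l ih =>
    funext y
    change Rd (em x.1.castSucc x.2.castSucc) (Rw (upw l) F) (g * up y) =
      Rd (em x.1 x.2) (Rw l fun y => F (g * up y)) y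
    rw [rd_up, ih]

lemma w1_rd (hW : WhStmt) {w : G (k + 1) → ℂ} (hw : Sm w) (A : Mat (k + 1)) :
    W1 (Rd A w) = Rd A (W1 w) := ((hW.sm k _ w hw).2 A).symm

lemma sm_w1 (hW : WhStmt) {w : G (k + 1) → ℂ} (hw : Sm w) : Sm (W1 w) := (hW.sm k _ w hw).1

lemma w1_Rw (hC : CalcStmt) (hW : WhStmt) {w : G (k + 1) → ℂ} (hw : Sm w)
    (l : List (Fin (k + 1) × Fin (k + 1))) : W1 (Rw l w) = Rw l (W1 w) := by
  induction l with
  | nil => rfl
  | cons x l ih =>
    change W1 (Rd (em x.1 x.2) (Rw l w)) = Rd (em x.1 x.2) (Rw l (W1 w))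
    rw [w1_rd hW (sm_Rw hC hw l), ih]

lemma w1_rt (w : G (k + 1) → ℂ) (a : G (k + 1)) : W1 (rt a w) = rt a (W1 w) := Wf_rt _ _ _

/-! ### The base point -/

/-- the point `diag(T^N, ..., T, 1)` -/
def aT (N : ℕ) (T : ℝ) : G (N + 1) := up (dg (tT N T))

lemma tT_pos {T : ℝ} (hT : 0 < T) (i : Fin k) : 0 < tT k T i := pow_pos hT _

lemma aT_eq {T : ℝ} (hT : 0 < T) : aT N T = dg fun i : Fin (N + 1) => T ^ (N - i.val) := by
  rw [aT, up_dg fun i => (tT_pos hT i).ne']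
  congr 1
  funext i
  refine Fin.lastCases ?_ (fun i => ?_) i <;> simp [tT]

lemma rd_smulA (hC : CalcStmt) (t : ℝ) (A : Mat k) {F : G k → ℂ} (hF : Sm F) (g : G k) :
    Rd (t • A) F g = t * Rd A F g := by
  rw [hC.rd_lin k _ F hF, hC.rd_lin k A F hF]
  simp only [Finset.sum_apply, Pi.smul_apply, Matrix.smul_apply, smul_eq_mul, Complex.ofReal_mul,
    Finset.mul_sum, mul_assoc]

lemma conj_em {a : Fin k → ℝ} (ha : ∀ i, a i ≠ 0) (i j : Fin k) :
    ((dg a)⁻¹).val * em i j * (dg a).val = ((a i)⁻¹ * a j) • em i j := by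
  rw [dg_inv ha, val_dg fun i => inv_ne_zero (ha i), val_dg ha]
  ext p q
  simp only [em, Matrix.diagonal_mul, Matrix.mul_diagonal, Matrix.smul_apply, Matrix.single_apply,
    smul_eq_mul]
  split_ifs with h
  · obtain ⟨rfl, rfl⟩ := h; ring
  · ring

lemma eqv_w1 (hW : WhStmt) {w : G (k + 1) → ℂ} (hw : Aut w) : Eqv (zv fun _ => 1) (W1 w) :=
  hW.eqv k _ w hw.cont fun γ _ g => hw.zinv γ g

lemma rd_upper (hC : CalcStmt) (hW : WhStmt) {T : ℝ} (hT : 0 < T) {w : G (N + 1) → ℂ}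
    (hw : Sm w) (ha : Aut w) {i j : Fin (N + 1)} (hij : i < j) :
    (T : ℂ)⁻¹ * Rd (em i j) (W1 w) (aT N T) =
      (if j.val = i.val + 1 then 2 * π * Complex.I else 0) * W1 w (aT N T) := by
  have h1 := hW.ldU N _ _ (eqv_w1 hW ha) i j hij (aT N T)
  have hp : ∀ i : Fin (N + 1), T ^ (N - i.val) ≠ 0 := fun i => (pow_pos hT _).ne'
  rw [hC.ld_rd, aT_eq hT, conj_em hp, rd_smulA hC _ _ (sm_w1 hW hw), ← aT_eq hT] at h1
  have hT' : (T : ℂ) ≠ 0 := by exact_mod_cast hT.ne'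
  split_ifs with h
  · have hi : i.val < N := by have := j.2; omega
    have hs : (∑ l : Fin N, if i = l.castSucc ∧ j = l.succ then
        2 * π * Complex.I * ((zv (fun _ : Fin N => (1 : ℤ)) l : ℝ) : ℂ) else 0) =
        2 * π * Complex.I := by
      rw [Finset.sum_eq_single (⟨i.val, hi⟩ : Fin N)]
      · rw [if_pos ⟨Fin.ext rfl, Fin.ext h⟩]
        simp [zv]
      · intro l _ hl
        rw [if_neg]
        rintro ⟨h1, -⟩
        exact hl (Fin.ext (by simp [h1]))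
      · intro h; exact absurd (Finset.mem_univ _) h
    have he : (T ^ (N - i.val))⁻¹ * T ^ (N - j.val) = T⁻¹ := by
      have : N - i.val = (N - j.val) + 1 := by omega
      rw [this, pow_succ]
      field_simp
    rw [hs, he, Complex.ofReal_inv] at h1
    exact h1
  · have hs : (∑ l : Fin N, if i = l.castSucc ∧ j = l.succ then
        2 * π * Complex.I * ((zv (fun _ : Fin N => (1 : ℤ)) l : ℝ) : ℂ) else 0) = 0 := by
      refine Finset.sum_eq_zero fun l _ => if_neg ?_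
      rintro ⟨h1, h2⟩
      exact h (by simp [h1, h2])
    rw [hs, zero_mul, mul_eq_zero] at h1
    rcases h1 with h1 | h1
    · exfalso
      have : (T ^ (N - i.val))⁻¹ * T ^ (N - j.val) ≠ 0 := mul_ne_zero (inv_ne_zero (hp i)) (hp j)
      exact this (by exact_mod_cast h1)
    · rw [h1, mul_zero, zero_mul]

/-! ### Rescaled operators -/

section alg
variable {n : ℕ} {M : Type} [AddCommGroup M] [Module ℂ M]

lemma comm_smul (t : ℂ) {e : Fin n → Fin n → Module.End ℂ M} (h : Comm 1 e) :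
    Comm t fun a b => t • e a b := by
  intro a b c d
  have := h a b c d
  rw [one_smul] at this
  simp only [smul_mul_smul_comm]
  rw [← smul_sub, this, mul_smul]
  congr 1
  rw [smul_sub]
  congr 1 <;> split_ifs <;> simp

lemma ew_smul (t : ℂ) (e : Fin n → Fin n → Module.End ℂ M) (l : List (Fin n × Fin n)) :
    ew (fun a b => t • e a b) l = t ^ l.length • ew e l := by
  induction l with
  | nil => simp [ew]
  | cons x l ih =>
    have h1 : ∀ e : Fin n → Fin n → Module.End ℂ M, ew e (x :: l) = e x.1 x.2 * ew e l :=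
      fun e => by simp [ew]
    rw [h1, h1, ih, smul_mul_smul_comm, List.length_cons, pow_succ']

lemma epw_smul (t : ℂ) (e : Fin n → Fin n → Module.End ℂ M) (m : ℕ) :
    ∀ i j, epw (fun a b => t • e a b) m i j = t ^ m • epw e m i j := by
  induction m with
  | zero => intro i j; simp [epw]
  | succ m ih =>
    intro i j
    simp only [epw, ih, smul_mul_smul_comm, Finset.smul_sum, pow_succ']

lemma egel_smul (t : ℂ) (e : Fin n → Fin n → Module.End ℂ M) (m : ℕ) :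
    egel (fun a b => t • e a b) m = t ^ m • egel e m := by
  simp only [egel, epw_smul, Finset.smul_sum]

lemma ecomb_apply (e : Fin n → Fin n → Module.End ℂ M) (L : M →ₗ[ℂ] ℂ)
    (z : List (ℂ × List (Fin n × Fin n))) (w : M) :
    L (ecomb e z w) = (z.map fun x => x.1 * L (ew e x.2 w)).sum := by
  induction z with
  | nil => simp [ecomb]
  | cons x z ih =>
    have h1 : ecomb e (x :: z) = x.1 • ew e x.2 + ecomb e z := by simp [ecomb]
    rw [h1, LinearMap.add_apply, map_add, ih, LinearMap.smul_apply, map_smul, smul_eq_mul,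
      List.map_cons, List.sum_cons]

end alg

lemma length_upw (l : List (Fin N × Fin N)) : (upw l).length = l.length := List.length_map _

lemma two_pi_I_ne : (2 * π * Complex.I : ℂ) ≠ 0 := Complex.two_pi_I_ne_zero

/-- Every first derivative is, at the base point, a bounded combination of derivatives along the
upper left block. -/
lemma kaz_apply (hK : KazStmt) (hC : CalcStmt) (hW : WhStmt) (hV : ClassStmt) (C0 : ℝ)
    (c d : Fin (N + 1)) : ∃ (K : ℕ) (C : ℝ), ∀ T : ℝ, 1 ≤ T →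
      ∀ (α : ℕ → Fin (N + 1) → ℂ) (γ : ℕ → ℂ), Gam (N + 1) C0 T γ →
      ∃ z : List (ℂ × List (Fin N × Fin N)), (∀ x ∈ z, x.2.length ≤ K) ∧
        (z.map fun x => ‖x.1‖).sum ≤ C ∧ ∀ w, InV α w → Cen γ w →
        W1 (Rd (em c d) w) (aT N T) = T * (z.map fun x =>
          x.1 * ((T : ℂ)⁻¹ ^ x.2.length * W1 (Rw (upw x.2) w) (aT N T))).sum := by
  obtain ⟨K, C, H⟩ := hK N _ two_pi_I_ne C0 c d
  refine ⟨K, C, fun T hT α γ hγ => ?_⟩
  have hT0 : 0 < T := by linarith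
  have hT' : (T : ℂ) ≠ 0 := by exact_mod_cast hT0.ne'
  obtain ⟨V, hVm⟩ := hV.subC (N + 1) α γ
  obtain ⟨e, he1, he2, he3, he4⟩ := hC.mod (N + 1) V (fun w hw => ((hVm w).1 hw).1.sm)
    fun a b w hw => (hVm _).2 ⟨hV.rdV _ α w ((hVm w).1 hw).1 _,
      hV.rdC _ γ w ((hVm w).1 hw).1.sm ((hVm w).1 hw).2 _⟩
  let L : V →ₗ[ℂ] ℂ :=
    { toFun := fun w => W1 (w : G (N + 1) → ℂ) (aT N T)
      map_add' := fun w w' => by
        have := hW.add N (fun _ => 1) w w' ((hVm w).1 w.2).1.aut.cont ((hVm w').1 w'.2).1.aut.cont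
        exact congrFun this _
      map_smul' := fun t w => congrFun (hW.smul N (fun _ => 1) t w) _ }
  have hL : ∀ w : V, L w = W1 (w : G (N + 1) → ℂ) (aT N T) := fun _ => rfl
  have hn : ‖(T : ℂ)⁻¹‖ = T⁻¹ := by rw [norm_inv, Complex.norm_real, Real.norm_of_nonneg hT0.le]
  obtain ⟨z, hz1, hz2, hz3⟩ := H V (fun a b => (T : ℂ)⁻¹ • e a b) (T : ℂ)⁻¹
    (by rw [hn]; exact inv_le_one_of_one_le₀ hT) (comm_smul _ he1) L
    (fun i j hij => by
      ext w
      have hw := ((hVm w).1 w.2).1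
      simp only [LinearMap.comp_apply, LinearMap.smul_apply, map_smul, smul_eq_mul]
      rw [hL, hL, he2, w1_rd hW hw.sm]
      exact rd_upper hC hW hT0 hw.sm hw.aut hij)
    (fun m => (T : ℂ)⁻¹ ^ m * γ m) (fun m hm => ⟨by
      rw [egel_smul, mul_smul]
      congr 1
      ext1 w
      apply Subtype.ext
      rw [he4, ((hVm w).1 w.2).2 m]
      rfl, by
      rw [norm_mul, norm_pow, hn, inv_pow, inv_mul_le_iff₀ (pow_pos hT0 m), mul_comm]
      exact hγ m hm⟩)
  refine ⟨z, hz1, hz2, fun w hw hc => ?_⟩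
  have h1 := LinearMap.congr_fun hz3 ⟨w, (hVm w).2 ⟨hw, hc⟩⟩
  simp only [LinearMap.comp_apply, LinearMap.smul_apply, map_smul, smul_eq_mul, ecomb_apply,
    ew_smul, List.map_map, Function.comp_def, length_upw] at h1
  simp only [hL, he2, he3] at h1
  rw [← h1, ← mul_assoc, mul_inv_cancel₀ hT', one_mul]

/-! ### Integrals with a bound -/

/-- integrable with a bound for the integral -/
def Bd (φ : G k → ℂ) (B : ℝ) : Prop := Integrable φ (mu k) ∧ ‖∫ x, φ x ∂mu k‖ ≤ B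

lemma Bd.mono {φ : G k → ℂ} {B B' : ℝ} (h : Bd φ B) (hB : B ≤ B') : Bd φ B' :=
  ⟨h.1, h.2.trans hB⟩

lemma Bd.zero : Bd (fun _ : G k => 0) 0 := ⟨integrable_zero _ _ _, by simp⟩

lemma Bd.add {φ ψ : G k → ℂ} {B B' : ℝ} (h : Bd φ B) (h' : Bd ψ B') :
    Bd (fun x => φ x + ψ x) (B + B') :=
  ⟨h.1.add h'.1, by
    rw [integral_add h.1 h'.1]
    exact (norm_add_le _ _).trans (add_le_add h.2 h'.2)⟩

lemma Bd.cmul {φ : G k → ℂ} {B : ℝ} (h : Bd φ B) (c : ℂ) : Bd (fun x => c * φ x) (‖c‖ * B) :=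
  ⟨h.1.const_mul c, by
    rw [integral_const_mul, norm_mul]
    exact mul_le_mul_of_nonneg_left h.2 (norm_nonneg _)⟩

lemma Bd.sum {ι : Type} (s : Finset ι) {φ : ι → G k → ℂ} {B : ι → ℝ} (h : ∀ i, Bd (φ i) (B i)) :
    Bd (fun x => ∑ i ∈ s, φ i x) (∑ i ∈ s, B i) := by
  classical
  induction s using Finset.induction_on with
  | empty => simpa using Bd.zero
  | insert i s hi ih => simpa only [Finset.sum_insert hi] using (h i).add ih

lemma Bd.list {ι : Type} (z : List (ℂ × ι)) {φ : ι → G k → ℂ} {B : ℝ}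
    (h : ∀ x ∈ z, Bd (φ x.2) B) :
    Bd (fun y => (z.map fun x => x.1 * φ x.2 y).sum) ((z.map fun x => ‖x.1‖).sum * B) := by
  induction z with
  | nil => simpa using Bd.zero
  | cons x z ih =>
    simpa only [List.map_cons, List.sum_cons, add_mul] using
      ((h x List.mem_cons_self).cmul x.1).add (ih fun y hy => h y (List.mem_cons_of_mem _ hy))

/-! ### The estimate -/

lemma der_unif (hL : Loc0Stmt) {c : ℝ} (hc : 0 < c) (hc' : c * (2 * k + 2) ≤ 1) {q : G k → ℂ}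
    (hq : Sm q) (K : ℕ) : ∃ B : ℝ, 0 < B ∧ ∀ l : List (Fin k × Fin k), l.length ≤ K →
      ∀ T : ℝ, 1 ≤ T → ∀ g, ‖DL (wm l) (q * tf (c / T)) g‖ ≤ B * T ^ l.length ∧
        (DL (wm l) (q * tf (c / T)) g ≠ 0 → g ∈ Bl k (c / T)) := by
  choose C hC0 hC using fun l : List (Fin k × Fin k) => hL.der k c hc hc' q hq (wm l)
  obtain ⟨B, hB⟩ := ((List.finite_length_le (Fin k × Fin k) K).image C).bddAbove
  refine ⟨max B 1, lt_max_of_lt_right one_pos, fun l hl T hT g => ⟨?_, (hC l T hT g).2⟩⟩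
  have h1 := (hC l T hT g).1
  rw [length_wm] at h1
  exact h1.trans (mul_le_mul_of_nonneg_right ((hB ⟨l, hl, rfl⟩).trans (le_max_left _ _))
    (by positivity))

lemma dl_pos {a : Fin k → ℝ} (ha : ∀ i, 0 < a i) : 0 < dl a :=
  Finset.prod_pos fun i _ => Finset.prod_pos fun j _ => div_pos (ha i) (ha j)

lemma NL_pos {T δ : ℝ} (hT : 0 < T) (hδ : 0 < δ) : 0 < NL N T δ :=
  mul_pos (dl_pos (tT_pos hT)) (pow_pos hδ _)

/-- The Cauchy-Schwarz bound for a test function of size at most `B`. -/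
lemma upper_real (hW : WhStmt) (hL : Loc0Stmt) (N : ℕ) : ∃ C : ℝ, 0 < C ∧ ∀ T : ℝ, 0 < T →
    ∀ δ : ℝ, 0 < δ → δ * (2 * N + 2) ≤ 1 → ∀ w : G (N + 1) → ℂ, Aut w → KK 1 (W1 w) ≠ ⊤ →
    ∀ (τ : G N → ℂ) (B : ℝ), 0 < B → Measurable τ → (∀ g, ‖τ g‖ ≤ B) →
      (∀ g, τ g ≠ 0 → g ∈ Bl N δ) →
      ‖∫ x, τ x * W1 w (aT N T * up x) ∂mu N‖ ≤
        B * Real.sqrt (C * NL N T δ * (KK 1 (W1 w)).toReal) := by
  obtain ⟨C, hC, H⟩ := hL.upper N
  refine ⟨C, hC, fun T hT δ hδ hδ' w hw hK τ B hB hτ hτB hτs => ?_⟩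
  have hB' : (B : ℂ) ≠ 0 := by exact_mod_cast hB.ne'
  have hcont : Continuous fun h : G N => W1 w (up h) :=
    (hW.cont N _ w hw.cont).comp continuous_up
  have h1 := H (tT N T) (tT_pos hT) δ hδ hδ' (fun x => (B : ℂ)⁻¹ * τ x) (fun h => W1 w (up h))
    (hτ.const_mul _)
    (fun g => by
      rw [norm_mul, norm_inv, Complex.norm_real, Real.norm_of_nonneg hB.le,
        inv_mul_le_iff₀ hB, mul_one]
      exact hτB g)
    (fun g hg => hτs g (right_ne_zero_of_mul hg)) hcont.measurable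
    (fun u hu g => by
      simp only [up_mul]
      rw [eqv_w1 hW hw _ hu.up, norm_mul, psi, norm_ee, one_mul])
  have h2 : II N (fun g => (Om (dg (tT N T)) δ).indicator 1 g * ‖W1 w (up g)‖ₑ ^ 2) ≤
      KK 1 (W1 w) := by
    refine lintegral_mono fun x => ?_
    simp only [sub_self, Real.rpow_zero, ENNReal.ofReal_one]
    refine mul_le_mul_left ?_ _
    by_cases hx : sg N x ∈ Om (dg (tT N T)) δ
    · rw [Set.indicator_of_mem hx]; exact le_rfl
    · rw [Set.indicator_of_notMem hx]; exact zero_le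
  have h3 := h1.trans (mul_le_mul_right h2 _)
  have hpos : 0 ≤ C * dl (tT N T) * δ ^ (N ^ 2 + N.choose 2) :=
    (mul_pos (mul_pos hC (dl_pos (tT_pos hT))) (pow_pos hδ _)).le
  rw [← ENNReal.ofReal_toReal hK, ← ENNReal.ofReal_mul hpos, ← ofReal_norm,
    ← ENNReal.ofReal_pow (norm_nonneg _),
    ENNReal.ofReal_le_ofReal_iff (mul_nonneg hpos ENNReal.toReal_nonneg)] at h3
  have h4 : ∫ x, τ x * W1 w (aT N T * up x) ∂mu N =
      B * ∫ x, (B : ℂ)⁻¹ * τ x * W1 w (up (dg (tT N T) * x)) ∂mu N := by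
    rw [← integral_const_mul]
    congr 1
    funext x
    rw [up_mul, aT]
    field_simp
  rw [h4, norm_mul, Complex.norm_real, Real.norm_of_nonneg hB.le]
  refine mul_le_mul_of_nonneg_left (Real.le_sqrt_of_sq_le ?_) hB.le
  rw [NL, ← mul_assoc]
  exact h3

/-- the coefficients of the adjoint action -/
def qq (a b c d : Fin (N + 1)) (x : G N) : ℂ :=
  (((up x).val c a : ℝ) : ℂ) * ((((up x)⁻¹).val b d : ℝ) : ℂ)

lemma sm_qq (hC : CalcStmt) (a b c d : Fin (N + 1)) : Sm (qq a b c d) :=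
  hC.res N _ (hC.mul _ _ _ (hC.entry _ c a).1 (hC.entry _ b d).2)

lemma expand (hC : CalcStmt) (hW : WhStmt) {w : G (N + 1) → ℂ} (hw : Sm w) (a b : Fin (N + 1))
    (g : G (N + 1)) (x : G N) : W1 (Rd (em a b) w) (g * up x) =
      ∑ c, ∑ d, qq a b c d x * W1 (Rd (em c d) (rt (up x) w)) g := by
  have h1 := hC.rd_rt _ ((up x).val * em a b * ((up x)⁻¹).val) (up x) (W1 w)
  have h2 : ((up x)⁻¹).val * ((up x).val * em a b * ((up x)⁻¹).val) * (up x).val = em a b := by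
    rw [← Matrix.mul_assoc, ← Matrix.mul_assoc, ← Units.val_mul, inv_mul_cancel, Units.val_one,
      Matrix.one_mul, Matrix.mul_assoc, ← Units.val_mul, inv_mul_cancel, Units.val_one,
      Matrix.mul_one]
  rw [h2, hC.rd_lin _ _ _ (sm_rt hC (sm_w1 hW hw) _)] at h1
  have h3 := congrFun h1 g
  simp only [Finset.sum_apply, Pi.smul_apply, smul_eq_mul, rt] at h3
  rw [w1_rd hW hw, ← h3]
  refine Finset.sum_congr rfl fun c _ => Finset.sum_congr rfl fun d _ => ?_
  rw [w1_rd hW (sm_rt hC hw _), w1_rt]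
  congr 1
  rw [qq, ← Complex.ofReal_mul]
  congr 1
  simp [em, Matrix.mul_apply, Matrix.single_apply, ite_and]

lemma word_eq (hC : CalcStmt) (hW : WhStmt) {w : G (N + 1) → ℂ} (hw : Sm w) (g : G (N + 1))
    (l : List (Fin N × Fin N)) (x : G N) :
    W1 (Rw (upw l) (rt (up x) w)) g = DF (wm l) (fun y => W1 w (g * up y)) x := by
  have hs : Sm fun y => W1 w (g * up y) := by
    have := hC.res N _ (hC.tra _ _ (sm_w1 hW hw) g 1)
    simpa only [mul_one] using this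
  have h1 := congrFun (rw_up (rt (up x) (W1 w)) g l) 1
  simp only [up_one, mul_one] at h1
  rw [w1_Rw hC hW (sm_rt hC hw _), w1_rt, h1, ← rw_rt_one hC l x _ hs]
  congr 1
  funext y
  simp only [rt, up_mul, mul_assoc]

lemma pair_bound (hK : KazStmt) (hC : CalcStmt) (hW : WhStmt) (hV : ClassStmt) (hL : Loc0Stmt)
    (C0 : ℝ) {c1 : ℝ} (hc : 0 < c1) (hc' : c1 * (2 * N + 2) ≤ 1) {Cu : ℝ}
    (hu : ∀ T : ℝ, 0 < T → ∀ δ : ℝ, 0 < δ → δ * (2 * N + 2) ≤ 1 → ∀ w : G (N + 1) → ℂ, Aut w →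
      KK 1 (W1 w) ≠ ⊤ → ∀ (τ : G N → ℂ) (B : ℝ), 0 < B → Measurable τ → (∀ g, ‖τ g‖ ≤ B) →
      (∀ g, τ g ≠ 0 → g ∈ Bl N δ) → ‖∫ x, τ x * W1 w (aT N T * up x) ∂mu N‖ ≤
        B * Real.sqrt (Cu * NL N T δ * (KK 1 (W1 w)).toReal))
    (a b c d : Fin (N + 1)) : ∃ B : ℝ, 0 ≤ B ∧ ∀ T : ℝ, 1 ≤ T →
      ∀ (α : ℕ → Fin (N + 1) → ℂ) (γ : ℕ → ℂ), Gam (N + 1) C0 T γ → ∀ w, InV α w → Cen γ w →
      KK 1 (W1 w) ≠ ⊤ → Bd (fun x => tf (c1 / T) x *
        (qq a b c d x * W1 (Rd (em c d) (rt (up x) w)) (aT N T)))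
        (B * (T * Real.sqrt (Cu * NL N T (c1 / T) * (KK 1 (W1 w)).toReal))) := by
  obtain ⟨K, C, H⟩ := kaz_apply hK hC hW hV C0 c d
  obtain ⟨B, hB, hD⟩ := der_unif hL hc hc' (sm_qq hC a b c d) K
  refine ⟨max C 0 * B, mul_nonneg (le_max_right _ _) hB.le, fun T hT α γ hγ w hw hcen hK => ?_⟩
  have hT0 : 0 < T := by linarith
  have hδ : 0 < c1 / T := div_pos hc hT0
  have hδ' : c1 / T * (2 * N + 2) ≤ 1 :=
    (mul_le_mul_of_nonneg_right (div_le_self hc.le hT) (by positivity)).trans hc'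
  obtain ⟨z, hz1, hz2, hz3⟩ := H T hT α γ hγ
  obtain ⟨b1, b2, -⟩ := hL.bump N _ hδ hδ'
  set S := Real.sqrt (Cu * NL N T (c1 / T) * (KK 1 (W1 w)).toReal) with hS
  have hS0 : 0 ≤ S := Real.sqrt_nonneg _
  set f : G N → ℂ := fun y => W1 w (aT N T * up y) with hf
  have hs : Sm f := by
    have := hC.res N _ (hC.tra _ _ (sm_w1 hW hw.sm) (aT N T) 1)
    simpa only [mul_one] using this
  set φ : G N → ℂ := qq a b c d * tf (c1 / T) with hφ
  have hφs : Sm φ := hC.mul _ _ _ (sm_qq hC a b c d) b1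
  have hφc : HasCompactSupport φ := b2.mul_left
  have hn : ‖(T : ℂ)⁻¹‖ = T⁻¹ := by rw [norm_inv, Complex.norm_real, Real.norm_of_nonneg hT0.le]
  have h1 : ∀ x ∈ z, Bd (fun y => (T : ℂ)⁻¹ ^ x.2.length * (φ y * DF (wm x.2) f y)) (B * S) := by
    intro x hx
    have h2 : Bd (fun y => φ y * DF (wm x.2) f y) (B * T ^ x.2.length * S) := by
      refine ⟨integrable_mul (hC.cont _ _ hφs) hφc (hC.cont _ _ (sm_DF hC _ f hs)), ?_⟩
      rw [ibpL hC hφs hφc _ f hs]
      exact hu T hT0 _ hδ hδ' w hw.aut hK _ _ (mul_pos hB (pow_pos hT0 _))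
        (hC.cont _ _ (sm_DL hC hφs _)).measurable (fun g => (hD x.2 (hz1 x hx) T hT g).1)
        fun g => (hD x.2 (hz1 x hx) T hT g).2
    refine (h2.cmul _).mono (le_of_eq ?_)
    rw [norm_pow, hn, inv_pow]
    field_simp
  have h3 := (Bd.list z (φ := fun l y => (T : ℂ)⁻¹ ^ l.length * (φ y * DF (wm l) f y)) h1).cmul T
  have h4 : (fun x => tf (c1 / T) x * (qq a b c d x * W1 (Rd (em c d) (rt (up x) w)) (aT N T))) =
      fun y => (T : ℂ) * (z.map fun x => x.1 *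
        ((T : ℂ)⁻¹ ^ x.2.length * (φ y * DF (wm x.2) f y))).sum := by
    funext y
    rw [hz3 _ (hV.rtV _ α w hw _) (hV.rtC _ γ w hw.sm hcen _)]
    simp only [word_eq hC hW hw.sm]
    have : (z.map fun x => x.1 * ((T : ℂ)⁻¹ ^ x.2.length * (φ y * DF (wm x.2) f y))).sum =
        φ y * (z.map fun x => x.1 * ((T : ℂ)⁻¹ ^ x.2.length * DF (wm x.2) f y)).sum := by
      rw [← List.sum_map_mul_left]
      congr 2
      funext x
      ring
    rw [this, hφ, Pi.mul_apply]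
    ring
  rw [h4]
  refine h3.mono ?_
  rw [Complex.norm_real, Real.norm_of_nonneg hT0.le]
  have h5 : (z.map fun x => ‖x.1‖).sum * (B * S) ≤ max C 0 * (B * S) :=
    mul_le_mul_of_nonneg_right (hz2.trans (le_max_left _ _)) (mul_nonneg hB.le hS0)
  calc T * ((z.map fun x => ‖x.1‖).sum * (B * S)) ≤ T * (max C 0 * (B * S)) :=
        mul_le_mul_of_nonneg_left h5 hT0.le
    _ = max C 0 * B * (T * S) := by ring

end Loc1

open Loc1 in
theorem loc1 (hK : KazStmt) (hC : CalcStmt) (hW : WhStmt) (hV : ClassStmt) (hL : Loc0Stmt) :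
    Loc1Stmt := by
  intro N C0 c1 hc hc'
  obtain ⟨Cu, hCu, hu⟩ := upper_real hW hL N
  choose B hB0 hB using pair_bound hK hC hW hV hL C0 hc hc' hu
  set D : ℝ := ∑ a, ∑ b, ∑ c, ∑ d, B a b c d with hD
  have hD0 : ∀ a b, 0 ≤ ∑ c, ∑ d, B a b c d := fun a b =>
    Finset.sum_nonneg fun c _ => Finset.sum_nonneg fun d _ => hB0 a b c d
  have hD1 : ∀ a b, ∑ c, ∑ d, B a b c d ≤ D + 1 := fun a b => by
    have h1 : ∑ c, ∑ d, B a b c d ≤ ∑ b, ∑ c, ∑ d, B a b c d :=
      Finset.single_le_sum (fun b _ => hD0 a b) (Finset.mem_univ b)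
    have h2 : ∑ b, ∑ c, ∑ d, B a b c d ≤ D :=
      Finset.single_le_sum (f := fun a => ∑ b, ∑ c, ∑ d, B a b c d)
        (fun a _ => Finset.sum_nonneg fun b _ => hD0 a b) (Finset.mem_univ a)
    linarith
  have hD2 : 0 < D + 1 := by
    have : 0 ≤ D := Finset.sum_nonneg fun a _ => Finset.sum_nonneg fun b _ => hD0 a b
    linarith
  refine ⟨(D + 1) ^ 2 * Cu, by positivity, fun T hT α γ hγ w hw hcen a b => ?_⟩
  have hT0 : 0 < T := by linarith
  have hNL : 0 < NL N T (c1 / T) := NL_pos hT0 (div_pos hc hT0)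
  have hpos : 0 < (D + 1) ^ 2 * Cu * T ^ 2 * NL N T (c1 / T) := by positivity
  by_cases hK : KK 1 (W1 w) = ⊤
  · rw [hK, ENNReal.mul_top (ENNReal.ofReal_pos.2 hpos).ne']
    exact le_top
  set S := Real.sqrt (Cu * NL N T (c1 / T) * (KK 1 (W1 w)).toReal) with hS
  have hS0 : 0 ≤ S := Real.sqrt_nonneg _
  have h1 := (Bd.sum Finset.univ fun c => Bd.sum Finset.univ fun d =>
    hB a b c d T hT α γ hγ w hw hcen hK).2
  have h2 : L0 T (c1 / T) (W1 (Rd (em a b) w)) = ∫ x, ∑ c, ∑ d, tf (c1 / T) x *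
      (qq a b c d x * W1 (Rd (em c d) (rt (up x) w)) (aT N T)) ∂mu N := by
    rw [L0]
    congr 1
    funext x
    rw [up_mul]
    change tf (c1 / T) x * W1 (Rd (em a b) w) (aT N T * up x) = _
    rw [expand hC hW hw.sm]
    simp only [Finset.mul_sum]
  rw [← h2] at h1
  simp only [← Finset.sum_mul] at h1
  have h3 : ‖L0 T (c1 / T) (W1 (Rd (em a b) w))‖ ≤ (D + 1) * (T * S) :=
    h1.trans (mul_le_mul_of_nonneg_right (hD1 a b) (mul_nonneg hT0.le hS0))
  have h4 : S ^ 2 = Cu * NL N T (c1 / T) * (KK 1 (W1 w)).toReal :=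
    Real.sq_sqrt (mul_nonneg (mul_pos hCu hNL).le ENNReal.toReal_nonneg)
  rw [← ENNReal.ofReal_toReal hK, ← ENNReal.ofReal_mul hpos.le, ← ofReal_norm,
    ← ENNReal.ofReal_pow (norm_nonneg _)]
  refine ENNReal.ofReal_le_ofReal ((pow_le_pow_left₀ (norm_nonneg _) h3 2).trans (le_of_eq ?_))
  rw [mul_pow, mul_pow, h4]
  ring

end Pool.Agent.Lib.MP_fa98d2_nt.D
end
end
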