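import Pool.Agent.Lib.MP_fa98d2_nt.D.Calc

-- part Pool.Agent.Lib.MP_fa98d2_nt.D.Loc2
section

/-!
Existence of a vector whose Kirillov function correlates with the bump function.
-/

open MeasureTheory Filter Topology Matrix
open scoped ENNReal Real ContDiff ComplexConjugate InnerProductSpace

noncomputable section

namespace Pool.Agent.Lib.MP_fa98d2_nt.D

namespace Loc2

variable {N : ℕ}

/-! ### Hilbert space facts -/

lemma approx {H : Type*} [NormedAddCommGroup H] [InnerProductSpace ℂ H] [CompleteSpace H]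
    (S : Submodule ℂ H) (hS : Sᗮ = ⊥) (b : H) (hb : b ≠ 0) :
    ∃ φ ∈ S, φ ≠ 0 ∧ ‖b‖ ^ 2 * ‖φ‖ ^ 2 ≤ 9 * ‖⟪b, φ⟫_ℂ‖ ^ 2 := by
  have hcl : S.topologicalClosure = ⊤ := Submodule.topologicalClosure_eq_top_iff.2 hS
  have hmem : b ∈ closure (S : Set H) := by
    rw [← Submodule.topologicalClosure_coe, hcl]; trivial
  have hb0 : 0 < ‖b‖ := norm_pos_iff.2 hb
  obtain ⟨φ, hφ, hd⟩ := Metric.mem_closure_iff.1 hmem (‖b‖ / 2) (by positivity)
  rw [dist_comm, dist_eq_norm] at hd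
  have h1 : ‖φ‖ ≤ 3 / 2 * ‖b‖ := by
    have := norm_add_le (φ - b) b
    rw [sub_add_cancel] at this
    linarith
  have h2 : ‖b‖ ^ 2 / 2 ≤ ‖⟪b, φ⟫_ℂ‖ := by
    have e : ⟪b, b⟫_ℂ = ⟪b, φ⟫_ℂ - ⟪b, φ - b⟫_ℂ := by
      rw [inner_sub_right]; ring
    have h3 : ‖⟪b, b⟫_ℂ‖ = ‖b‖ ^ 2 := by
      rw [inner_self_eq_norm_sq_to_K]; simp
    have h4 := norm_sub_le ⟪b, φ⟫_ℂ ⟪b, φ - b⟫_ℂ
    have h5 := norm_inner_le_norm (𝕜 := ℂ) b (φ - b)
    rw [← e, h3] at h4
    nlinarith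
  refine ⟨φ, hφ, ?_, ?_⟩
  · rintro rfl
    rw [zero_sub, norm_neg] at hd
    linarith
  · have h6 : ‖φ‖ ^ 2 ≤ (3 / 2 * ‖b‖) ^ 2 := by gcongr
    have h7 : (‖b‖ ^ 2 / 2) ^ 2 ≤ ‖⟪b, φ⟫_ℂ‖ ^ 2 := by gcongr
    nlinarith [sq_nonneg ‖b‖]

section L2
variable {Z : Type*} [MeasurableSpace Z] {μ : Measure Z}

lemma eLp_sq (f : Z → ℂ) : eLpNorm f 2 μ ^ 2 = ∫⁻ x, ‖f x‖ₑ ^ 2 ∂μ := by
  have := eLpNorm_nnreal_pow_eq_lintegral (μ := μ) (f := f) (p := 2) two_ne_zero
  simpa using this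

lemma memLp_of {f : Z → ℂ} (hf : Measurable f) (h : ∫⁻ x, ‖f x‖ₑ ^ 2 ∂μ < ⊤) : MemLp f 2 μ := by
  refine ⟨hf.aestronglyMeasurable, ?_⟩
  rw [← eLp_sq] at h
  by_contra h'
  rw [not_lt, top_le_iff] at h'
  rw [h'] at h
  simp at h

lemma ofReal_norm_sq (φ : Lp ℂ 2 μ) {f : Z → ℂ} (h : φ =ᵐ[μ] f) :
    ENNReal.ofReal (‖φ‖ ^ 2) = ∫⁻ x, ‖f x‖ₑ ^ 2 ∂μ := by
  rw [← eLp_sq, ← eLpNorm_congr_ae h, ← Lp.enorm_def, ENNReal.ofReal_pow (norm_nonneg _),
    ofReal_norm]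

lemma inner_eq (φ ψ : Lp ℂ 2 μ) {f g : Z → ℂ} (h : φ =ᵐ[μ] f) (h' : ψ =ᵐ[μ] g) :
    ⟪φ, ψ⟫_ℂ = ∫ x, g x * conj (f x) ∂μ := by
  rw [L2.inner_def]
  refine integral_congr_ae ?_
  filter_upwards [h, h'] with x hx hx'
  rw [hx, hx']
  simp

end L2

/-! ### The character and the averaged bump -/

def chi (u : G N) : ℂ := psi (fun _ => 1) (up u)

lemma continuous_chi : Continuous (chi (N := N)) := by
  unfold chi psi
  refine continuous_ee.comp (continuous_finsetSum _ fun i _ => continuous_const.mul ?_)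
  exact (continuous_entry _ _).comp continuous_up

lemma norm_chi (u : G N) : ‖chi u‖ = 1 := norm_ee _

lemma chi_mul (hW : WhStmt) {u v : G N} (hu : IsU u) (hv : IsU v) :
    chi (u * v) = chi u * chi v := by
  unfold chi
  rw [up_mul, hW.psi_mul _ _ _ _ hu.up hv.up]

lemma continuous_tf (δ : ℝ) : Continuous (tf (k := N) δ) := by
  have h : Continuous fun g : G N => δ⁻¹ • (co g - co (1 : G N)) :=
    (continuous_co.sub continuous_const).const_smul δ⁻¹
  exact Complex.continuous_ofReal.comp ((bp N).continuous.comp h)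

lemma conj_tf (δ : ℝ) (g : G N) : conj (tf δ g) = tf δ g := Complex.conj_ofReal _

lemma norm_tf_le (δ : ℝ) (g : G N) : ‖tf δ g‖ ≤ 1 := by
  unfold tf
  rw [Complex.norm_real, Real.norm_of_nonneg (bp N).nonneg]
  exact (bp N).le_one

def beta (a : G N) (δ : ℝ) (h : G N) : ℂ :=
  ∫ y, conj (chi (un N y)) * tf δ (a⁻¹ * un N y * h) ∂mY N

lemma measurable_beta (a : G N) (δ : ℝ) : Measurable (beta a δ) := by
  have : Measurable fun p : G N × Y N =>
      conj (chi (un N p.2)) * tf δ (a⁻¹ * un N p.2 * p.1) := by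
    refine Measurable.mul ?_ ?_
    · exact (Complex.continuous_conj.comp continuous_chi).measurable.comp
        ((measurable_un N).comp measurable_snd)
    · exact (continuous_tf δ).measurable.comp
        ((((measurable_un N).comp measurable_snd).const_mul _).mul measurable_fst)
  exact (this.stronglyMeasurable.integral_prod_right' (ν := mY N)).measurable

lemma norm_beta_U (hH : HaarStmt) (hW : WhStmt) (a : G N) (δ : ℝ) {u : G N} (hu : IsU u)
    (h : G N) : ‖beta a δ (u * h)‖ = ‖beta a δ h‖ := by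
  obtain ⟨e, he, hey⟩ := hH.yr N u hu
  have h1 : beta a δ h = conj (chi u) * beta a δ (u * h) := by
    unfold beta
    rw [← he.integral_comp', ← integral_const_mul]
    refine integral_congr_ae (Eventually.of_forall fun y => ?_)
    simp only [hey, chi_mul hW (isU_un N y) hu, map_mul, mul_assoc]
    ring
  rw [h1, norm_mul, Complex.norm_conj, norm_chi, one_mul]

lemma dl_pos {a : Fin N → ℝ} (ha : ∀ i, 0 < a i) : 0 < dl a :=
  Finset.prod_pos fun i _ => Finset.prod_pos fun j _ => div_pos (ha i) (ha j)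

/-- the averaged bump after the change of scale -/
def gam (a : G N) (δ : ℝ) (x : G N) : ℂ :=
  ∫ y, conj (chi (a * un N y * a⁻¹)) * tf δ (un N y * x) ∂mY N

lemma beta_dg (hH : HaarStmt) {a : Fin N → ℝ} (ha : ∀ i, 0 < a i) (δ : ℝ) (x : G N) :
    beta (dg a) δ (dg a * x) = (dl a : ℂ) * gam (dg a) δ x := by
  obtain ⟨e, he, hey⟩ := hH.ysc N a ha
  have h0 := dl_pos ha
  have h1 := integral_map_equiv (μ := mY N) e
    fun y => conj (chi (un N y)) * tf δ ((dg a)⁻¹ * un N y * (dg a * x))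
  rw [he, integral_smul_measure] at h1
  have h2 : gam (dg a) δ x = ((dl a)⁻¹ : ℝ) • beta (dg a) δ (dg a * x) := by
    unfold gam beta
    rw [ENNReal.toReal_ofReal (inv_pos.2 h0).le] at h1
    rw [h1]
    refine integral_congr_ae (Eventually.of_forall fun y => ?_)
    simp only [hey]
    congr 2
    group
  rw [h2, Complex.real_smul, ← mul_assoc, ← Complex.ofReal_mul, mul_inv_cancel₀ h0.ne']
  simp

lemma beta_supp (hL : Loc0Stmt) (a : G N) {δ : ℝ} (hδ : 0 < δ) (hδ1 : δ * (2 * N + 2) ≤ 1)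
    {h : G N} (hh : beta a δ h ≠ 0) : h ∈ Om a δ := by
  by_contra hn
  apply hh
  unfold beta
  have : ∀ y, conj (chi (un N y)) * tf δ (a⁻¹ * un N y * h) = 0 := by
    intro y
    by_contra hy
    have h1 := (hL.bump N δ hδ hδ1).2.2.1 _ (right_ne_zero_of_mul hy)
    exact hn ⟨(un N y)⁻¹, (isU_un N y).inv, _, h1, by group⟩
  simp [this]

/-- small unipotent coordinates -/
def SY (N : ℕ) (r : ℝ) : Set (Y N) := {y | ∀ i j, i < j → |(un N y).val i j| < r}

lemma measurableSet_SY (r : ℝ) : MeasurableSet (SY N r) := by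
  unfold SY
  simp only [Set.ofPred_forall]
  refine MeasurableSet.iInter fun i => MeasurableSet.iInter fun j => MeasurableSet.iInter fun _ => ?_
  exact measurableSet_lt (((continuous_entry i j).measurable.comp (measurable_un N)).abs)
    measurable_const

lemma mem_SY_iff {r : ℝ} (hr : 0 < r) (y : Y N) : y ∈ SY N r ↔ un N y ∈ Bl N r := by
  constructor
  · intro h i j
    by_cases hij : i < j
    · rw [Matrix.one_apply_ne hij.ne, sub_zero]; exact h i j hij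
    · rw [isU_un N y i j (not_lt.1 hij), Matrix.one_apply, sub_self, abs_zero]; exact hr
  · intro h i j hij
    have := h i j
    rwa [Matrix.one_apply_ne hij.ne, sub_zero] at this

lemma vol_SY (hH : HaarStmt) {r : ℝ} (hr : 0 < r) :
    mY N (SY N r) = ENNReal.ofReal ((2 * r) ^ N.choose 2) := hH.yball N r hr

lemma integrable_ind (hH : HaarStmt) {r : ℝ} (hr : 0 < r) (c : ℝ) :
    Integrable ((SY N r).indicator fun _ => c) (mY N) := by
  rw [integrable_indicator_iff (measurableSet_SY r)]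
  exact integrableOn_const (by rw [vol_SY hH hr]; exact ENNReal.ofReal_ne_top)

lemma integral_ind (hH : HaarStmt) {r : ℝ} (hr : 0 < r) (c : ℝ) :
    ∫ y, (SY N r).indicator (fun _ => c) y ∂mY N = (2 * r) ^ N.choose 2 * c := by
  rw [integral_indicator_const _ (measurableSet_SY r), Measure.real, vol_SY hH hr,
    ENNReal.toReal_ofReal (by positivity), smul_eq_mul]

lemma Bl_mono {r r' : ℝ} (h : r ≤ r') : Bl N r ⊆ Bl N r' := fun _ hg i j => (hg i j).trans_le h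

/-- on the support the unipotent element is small -/
lemma small_of_tf (hL : Loc0Stmt) {δ : ℝ} (hδ : 0 < δ) (hδ1 : 2 * δ * (2 * N + 2) ≤ 1)
    {u x : G N} (hx : x ∈ Bl N δ) (h : tf δ (u * x) ≠ 0) : u ∈ Bl N (6 * δ) := by
  have hN : (0 : ℝ) ≤ 2 * N + 2 := by positivity
  have hδ2 : δ * (2 * N + 2) ≤ 1 := by nlinarith
  have h1 := (hL.bump N δ hδ hδ2).2.2.1 _ h
  have h2 := (hL.mul N δ δ hδ2 hδ2 x hx x hx).2
  have h3 := (hL.mul N δ (2 * δ) hδ2 hδ1 _ h1 _ h2).1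
  rw [mul_inv_cancel_right] at h3
  exact Bl_mono (by linarith) h3

lemma norm_integrand_le (hL : Loc0Stmt) (a : G N) {δ : ℝ} (hδ : 0 < δ)
    (hδ1 : 2 * δ * (2 * N + 2) ≤ 1) {x : G N} (hx : x ∈ Bl N δ) (y : Y N) :
    ‖conj (chi (a * un N y * a⁻¹)) * tf δ (un N y * x)‖ ≤
      (SY N (6 * δ)).indicator (fun _ => (1 : ℝ)) y := by
  rw [norm_mul, Complex.norm_conj, norm_chi, one_mul]
  by_cases h : tf δ (un N y * x) = 0
  · rw [h, norm_zero]; exact Set.indicator_nonneg (fun _ _ => zero_le_one) _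
  · rw [Set.indicator_of_mem ((mem_SY_iff (by positivity) y).2 (small_of_tf hL hδ hδ1 hx h))]
    exact norm_tf_le _ _

lemma norm_gam_le (hH : HaarStmt) (hL : Loc0Stmt) (a : G N) {δ : ℝ} (hδ : 0 < δ)
    (hδ1 : 2 * δ * (2 * N + 2) ≤ 1) {x : G N} (hx : x ∈ Bl N δ) :
    ‖gam a δ x‖ ≤ (2 * (6 * δ)) ^ N.choose 2 := by
  have := norm_integral_le_of_norm_le (integrable_ind (N := N) hH (r := 6 * δ) (by positivity) 1)
    (Eventually.of_forall (norm_integrand_le hL a hδ hδ1 hx))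
  rwa [integral_ind hH (by positivity), mul_one] at this

lemma tT_pos {T : ℝ} (hT : 1 ≤ T) (i : Fin N) : 0 < tT N T i := by
  unfold tT; positivity

lemma entry_le {T r : ℝ} (hT : 1 ≤ T) {u : G N} (hu : u ∈ Bl N r) (i : Fin N) :
    |(up (dg (tT N T) * u * (dg (tT N T))⁻¹)).val i.castSucc i.succ| ≤ T * r := by
  have hne : ∀ i, tT N T i ≠ 0 := fun i => (tT_pos hT i).ne'
  have hr : 0 < r := (abs_nonneg _).trans_lt (hu i i)
  by_cases hi : i.val + 1 < N
  · have e : i.succ = (⟨i.val + 1, hi⟩ : Fin N).castSucc := rfl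
    set j : Fin N := ⟨i.val + 1, hi⟩ with hj
    have hij : i ≠ j := fun h => by have := congrArg Fin.val h; simp [hj] at this
    rw [e, up, val_pb, blk_cc, dg_inv hne, Units.val_mul, Units.val_mul, val_dg hne,
      val_dg fun i => inv_ne_zero (hne i), Matrix.mul_diagonal, Matrix.diagonal_mul]
    have h1 : tT N T i = T * tT N T j := by
      unfold tT
      rw [← pow_succ']
      congr 1
      simp only [hj]; omega
    have h2 := hu i j
    rw [Matrix.one_apply_ne hij, sub_zero] at h2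
    rw [h1, mul_right_comm, mul_assoc T, mul_inv_cancel₀ (hne j), mul_one, abs_mul,
      abs_of_nonneg (by linarith : (0 : ℝ) ≤ T)]
    gcongr
  · have e : i.succ = Fin.last N := by
      apply Fin.ext; have := i.isLt; simp only [Fin.val_succ, Fin.val_last]; omega
    rw [e, up, val_pb, blk_cl, Pi.zero_apply, abs_zero]
    positivity

lemma re_chi {T r : ℝ} (hT : 1 ≤ T) (hr : N * (T * r) ≤ 1 / 10) {u : G N} (hu : u ∈ Bl N r) :
    1 / 2 ≤ (chi (dg (tT N T) * u * (dg (tT N T))⁻¹)).re := by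
  unfold chi psi
  set θ : ℝ := ∑ i : Fin N, 1 * (up (dg (tT N T) * u * (dg (tT N T))⁻¹)).val i.castSucc i.succ
    with hθ
  have h1 : |θ| ≤ 1 / 10 := by
    refine le_trans (Finset.abs_sum_le_sum_abs _ _) (le_trans ?_ hr)
    calc _ ≤ ∑ _i : Fin N, T * r := Finset.sum_le_sum fun i _ => by
          rw [one_mul]; exact entry_le hT hu i
      _ = _ := by simp
  have h2 : (ee θ).re = Real.cos (2 * π * θ) := by
    have : (2 * (π : ℂ) * Complex.I * θ) = ((2 * π * θ : ℝ) : ℂ) * Complex.I := by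
      push_cast; ring
    rw [ee, this, Complex.exp_ofReal_mul_I_re]
  rw [h2]
  refine le_trans ?_ Real.one_sub_sq_div_two_le_cos
  have h3 : θ ^ 2 ≤ (1 / 10) ^ 2 := by
    rw [← sq_abs]; gcongr
  have h4 : π ^ 2 ≤ 4 ^ 2 := by
    have := Real.pi_le_four
    have := Real.pi_pos
    gcongr
  have h5 : (2 * π * θ) ^ 2 ≤ 4 * (4 ^ 2 * (1 / 10) ^ 2) := by
    rw [mul_pow, mul_pow, mul_assoc]
    gcongr
    norm_num
  linarith

lemma le_norm_gam (hH : HaarStmt) (hL : Loc0Stmt) {T δ : ℝ} (hT : 1 ≤ T) (hδ : 0 < δ)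
    (hδ1 : 2 * δ * (2 * N + 2) ≤ 1) (hδ2 : N * (T * (6 * δ)) ≤ 1 / 10) {x : G N}
    (hx : x ∈ Bl N (δ / 8)) :
    (δ / 8) ^ N.choose 2 / 2 ≤ ‖gam (dg (tT N T)) δ x‖ := by
  have hN : (0 : ℝ) ≤ 2 * N + 2 := by positivity
  have hδ3 : δ * (2 * N + 2) ≤ 1 := by nlinarith
  have hδ4 : δ / 8 * (2 * N + 2) ≤ 1 := by nlinarith
  have hx' : x ∈ Bl N δ := Bl_mono (by linarith) hx
  set a := dg (tT N T) with ha
  have hm : Measurable fun y => conj (chi (a * un N y * a⁻¹)) * tf δ (un N y * x) := by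
    refine Measurable.mul ?_ ?_
    · exact (Complex.continuous_conj.comp continuous_chi).measurable.comp
        (((measurable_un N).const_mul _).mul_const _)
    · exact (continuous_tf δ).measurable.comp ((measurable_un N).mul_const _)
  have hint : Integrable (fun y => conj (chi (a * un N y * a⁻¹)) * tf δ (un N y * x)) (mY N) :=
    (integrable_ind (N := N) hH (r := 6 * δ) (by positivity) 1).mono' hm.aestronglyMeasurable
      (Eventually.of_forall (norm_integrand_le hL a hδ hδ1 hx'))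
  have hre : (gam a δ x).re =
      ∫ y, (conj (chi (a * un N y * a⁻¹)) * tf δ (un N y * x)).re ∂mY N :=
    (integral_re hint).symm
  refine le_trans ?_ (Complex.re_le_norm _)
  rw [hre]
  refine le_trans ?_ (integral_mono (integrable_ind (N := N) hH (r := δ / 8) (by positivity) (1 / 2))
    hint.re fun y => ?_)
  · rw [integral_ind hH (by positivity), mul_one_div]
    gcongr
    linarith
  · obtain ⟨t, ht0, -, ht⟩ := (hL.bump N δ hδ hδ3).2.2.2.2 (un N y * x)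
    have e : (conj (chi (a * un N y * a⁻¹)) * tf δ (un N y * x)).re =
        (chi (a * un N y * a⁻¹)).re * t := by
      rw [ht]; simp
    change _ ≤ (conj (chi (a * un N y * a⁻¹)) * tf δ (un N y * x)).re
    rw [e]
    by_cases h0 : tf δ (un N y * x) = 0
    · have ht1 : t = 0 := by rw [ht] at h0; exact_mod_cast h0
      by_cases hy : y ∈ SY N (δ / 8)
      · exfalso
        have h1 := (hL.mul N _ _ hδ4 hδ4 _ ((mem_SY_iff (by positivity) y).1 hy) _ hx).1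
        have h2 := (hL.bump N δ hδ hδ3).2.2.2.1 _ (Bl_mono (by linarith) h1)
        rw [h2] at h0
        exact one_ne_zero h0
      · rw [Set.indicator_of_notMem hy, ht1, mul_zero]
    · have h3 := re_chi hT hδ2 (small_of_tf hL hδ hδ1 hx' h0)
      by_cases hy : y ∈ SY N (δ / 8)
      · have h1 := (hL.mul N _ _ hδ4 hδ4 _ ((mem_SY_iff (by positivity) y).1 hy) _ hx).1
        have h2 := (hL.bump N δ hδ hδ3).2.2.2.1 _ (Bl_mono (by linarith) h1)
        have ht1 : t = 1 := by rw [ht] at h2; exact_mod_cast h2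
        rw [Set.indicator_of_mem hy, ht1, mul_one]
        exact h3
      · rw [Set.indicator_of_notMem hy]
        exact mul_nonneg (by linarith) ht0

lemma norm_beta_le (hH : HaarStmt) (hW : WhStmt) (hL : Loc0Stmt) {a : Fin N → ℝ}
    (ha : ∀ i, 0 < a i) {δ : ℝ} (hδ : 0 < δ) (hδ1 : 2 * δ * (2 * N + 2) ≤ 1) (h : G N) :
    ‖beta (dg a) δ h‖ ≤ dl a * (2 * (6 * δ)) ^ N.choose 2 := by
  have hN : (0 : ℝ) ≤ 2 * N + 2 := by positivity
  have h0 := dl_pos ha
  by_cases hh : beta (dg a) δ h = 0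
  · rw [hh, norm_zero]; positivity
  · obtain ⟨u, hu, x, hx, rfl⟩ := beta_supp hL _ hδ (by nlinarith) hh
    rw [mul_assoc u, norm_beta_U hH hW _ _ hu, beta_dg hH ha, norm_mul, Complex.norm_real,
      Real.norm_of_nonneg h0.le]
    gcongr
    exact norm_gam_le hH hL _ hδ hδ1 hx

lemma lintegral_beta_lt (hH : HaarStmt) (hL : Loc0Stmt) (a : G N) {δ : ℝ} (hδ : 0 < δ)
    (hδ1 : δ * (2 * N + 2) ≤ 1) : ∫⁻ x, ‖beta a δ (sg N x)‖ₑ ∂mX N < ⊤ := by
  have hm : Measurable fun g : G N => ‖tf δ (a⁻¹ * g)‖ₑ :=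
    ((continuous_tf δ).measurable.comp (measurable_const_mul _)).enorm
  have hi : Integrable (tf (k := N) δ) (mu N) :=
    (continuous_tf δ).integrable_of_hasCompactSupport (hL.bump N δ hδ hδ1).2.1
  have h1 : ∫⁻ g, ‖tf δ (a⁻¹ * g)‖ₑ ∂mu N < ⊤ := (hi.comp_mul_left a⁻¹).2
  rw [hH.unf N _ hm] at h1
  refine lt_of_le_of_lt (lintegral_mono fun x => ?_) h1
  refine le_trans (enorm_integral_le_lintegral_enorm _) (le_of_eq (lintegral_congr fun y => ?_))
  rw [enorm_mul, ← ofReal_norm (conj _), Complex.norm_conj, norm_chi, ENNReal.ofReal_one, one_mul,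
    mul_assoc]

lemma sq_beta_lt (hH : HaarStmt) (hW : WhStmt) (hL : Loc0Stmt) {a : Fin N → ℝ}
    (ha : ∀ i, 0 < a i) {δ : ℝ} (hδ : 0 < δ) (hδ1 : 2 * δ * (2 * N + 2) ≤ 1) :
    ∫⁻ x, ‖beta (dg a) δ (sg N x)‖ₑ ^ 2 ∂mX N < ⊤ := by
  have hN : (0 : ℝ) ≤ 2 * N + 2 := by positivity
  calc ∫⁻ x, ‖beta (dg a) δ (sg N x)‖ₑ ^ 2 ∂mX N
      ≤ ∫⁻ x, ENNReal.ofReal (dl a * (2 * (6 * δ)) ^ N.choose 2) * ‖beta (dg a) δ (sg N x)‖ₑ
          ∂mX N := by
        refine lintegral_mono fun x => ?_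
        rw [sq]
        gcongr
        rw [← ofReal_norm]
        exact ENNReal.ofReal_le_ofReal (norm_beta_le hH hW hL ha hδ hδ1 _)
    _ < ⊤ := by
        rw [lintegral_const_mul' _ _ ENNReal.ofReal_ne_top]
        exact ENNReal.mul_lt_top ENNReal.ofReal_lt_top
          (lintegral_beta_lt hH hL _ hδ (by nlinarith))

/-- lower bound for the norm of the averaged bump -/
lemma le_sq_beta (hH : HaarStmt) (hW : WhStmt) (hL : Loc0Stmt) (N : ℕ) : ∃ c : ℝ, 0 < c ∧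
    ∀ T δ : ℝ, 1 ≤ T → 0 < δ → 2 * δ * (2 * N + 2) ≤ 1 → N * (T * (6 * δ)) ≤ 1 / 10 →
      ENNReal.ofReal (c * NL N T δ) ≤ ∫⁻ x, ‖beta (dg (tT N T)) δ (sg N x)‖ₑ ^ 2 ∂mX N := by
  obtain ⟨C, hC, hup⟩ := hL.upper N
  obtain ⟨C', hC', hvol⟩ := hL.vol N
  refine ⟨1 / (4 * C * C' ^ 2 * 8 ^ (N ^ 2 + N.choose 2)), by positivity, ?_⟩
  intro T δ hT hδ hδ1 hδ2
  have hN : (0 : ℝ) ≤ 2 * N + 2 := by positivity
  have hδ4 : δ / 8 * (2 * N + 2) ≤ 1 := by nlinarith
  have ha := fun i : Fin N => tT_pos hT i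
  have h0 := dl_pos ha
  set a := tT N T with hadef
  set r := δ / 8 with hr
  have hr0 : 0 < r := by positivity
  have hBm : MeasurableSet (Bl N r) := (hL.opn N 1 r).1.measurableSet
  have h1 := hup a ha r hr0 hδ4 ((Bl N r).indicator fun _ => 1) (fun _ => 1)
    (measurable_const.indicator hBm)
    (fun g => by by_cases hg : g ∈ Bl N r <;> simp [hg])
    (fun g hg => by by_contra h; exact hg (Set.indicator_of_notMem h _)) measurable_const
    (fun _ _ _ => rfl)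
  have hv := hvol r hr0 hδ4
  have hfin : mu N (Bl N r) ≠ ⊤ := ne_top_of_le_ne_top ENNReal.ofReal_ne_top hv.2
  have h2 : ‖∫ x, (Bl N r).indicator (fun _ => (1 : ℂ)) x * 1 ∂mu N‖ₑ = mu N (Bl N r) := by
    simp only [mul_one]
    rw [integral_indicator_const _ hBm, enorm_smul, enorm_one, mul_one, Measure.real,
      Real.enorm_toReal hfin]
  rw [h2] at h1
  set J := II N fun g => (Om (dg a) r).indicator 1 g * ‖(1 : ℂ)‖ₑ ^ 2 with hJ
  have h3 : ENNReal.ofReal ((dl a * (r ^ N.choose 2 / 2)) ^ 2) * J ≤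
      ∫⁻ x, ‖beta (dg a) δ (sg N x)‖ₑ ^ 2 ∂mX N := by
    rw [hJ, II, ← lintegral_const_mul' _ _ ENNReal.ofReal_ne_top]
    refine lintegral_mono fun x => ?_
    by_cases hx : sg N x ∈ Om (dg a) r
    · rw [Set.indicator_of_mem hx]
      obtain ⟨u, hu, z, hz, e⟩ := hx
      simp only [Pi.one_apply, enorm_one, one_pow, mul_one]
      rw [e, ← ofReal_norm, ← ENNReal.ofReal_pow (norm_nonneg _), mul_assoc u,
        norm_beta_U hH hW _ _ hu, beta_dg hH ha, norm_mul, Complex.norm_real,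
        Real.norm_of_nonneg h0.le]
      refine ENNReal.ofReal_le_ofReal ?_
      gcongr
      exact le_norm_gam hH hL hT hδ hδ1 hδ2 hz
    · rw [Set.indicator_of_notMem hx]
      simp
  have hA : 0 < C * dl a * r ^ (N ^ 2 + N.choose 2) := by positivity
  refine (ENNReal.mul_le_mul_iff_right (a := ENNReal.ofReal (C * dl a * r ^ (N ^ 2 + N.choose 2)))
    (ENNReal.ofReal_pos.2 hA).ne' ENNReal.ofReal_ne_top).1 ?_
  calc _ = ENNReal.ofReal ((dl a * (r ^ N.choose 2 / 2)) ^ 2) *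
        ENNReal.ofReal (r ^ N ^ 2 / C') ^ 2 := by
        rw [← ENNReal.ofReal_mul hA.le, ← ENNReal.ofReal_pow (by positivity),
          ← ENNReal.ofReal_mul (by positivity)]
        congr 1
        have e : δ = 8 * r := by rw [hr]; ring
        rw [NL, ← hadef, e, mul_pow 8 r]
        field_simp
        ring
    _ ≤ ENNReal.ofReal ((dl a * (r ^ N.choose 2 / 2)) ^ 2) *
        (ENNReal.ofReal (C * dl a * r ^ (N ^ 2 + N.choose 2)) * J) := by
        gcongr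
        exact le_trans (by gcongr; exact hv.1) h1
    _ ≤ _ := by
        rw [mul_left_comm]
        gcongr

/-- the functional is the scalar product with the averaged bump -/
lemma pairing (hH : HaarStmt) (hL : Loc0Stmt) (a : G N) {δ : ℝ} (hδ : 0 < δ)
    (hδ1 : δ * (2 * N + 2) ≤ 1) {f : G N → ℂ} (hf : Continuous f)
    (he : ∀ u, IsU u → ∀ h, f (u * h) = chi u * f h) :
    ∫ x, tf δ x * f (a * x) ∂mu N = ∫ x, f (sg N x) * conj (beta a δ (sg N x)) ∂mX N := by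
  have hi : Integrable (fun x => tf δ x * f (a * x)) (mu N) :=
    ((continuous_tf δ).mul (hf.comp (continuous_const_mul a))).integrable_of_hasCompactSupport
      (hL.bump N δ hδ hδ1).2.1.mul_right
  have hi2 : Integrable (fun g => tf δ (a⁻¹ * g) * f g) (mu N) := by
    simpa using hi.comp_mul_left a⁻¹
  have hd := hH.dec N
  have h1 : ∫ x, tf δ x * f (a * x) ∂mu N = ∫ g, tf δ (a⁻¹ * g) * f g ∂mu N := by
    rw [← integral_mul_left_eq_self (fun x => tf δ x * f (a * x)) a⁻¹]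
    simp
  have h2 : ∫ g, tf δ (a⁻¹ * g) * f g ∂mu N =
      ∫ p : Y N × X N, tf δ (a⁻¹ * (un N p.1 * sg N p.2)) * f (un N p.1 * sg N p.2)
        ∂(mY N).prod (mX N) := by
    rw [← hd.map_eq, integral_map hd.measurable.aemeasurable]
    rw [hd.map_eq]
    exact hi2.aestronglyMeasurable
  have hi3 : Integrable (fun p : Y N × X N =>
      tf δ (a⁻¹ * (un N p.1 * sg N p.2)) * f (un N p.1 * sg N p.2)) ((mY N).prod (mX N)) :=
    hd.integrable_comp_of_integrable hi2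
  rw [h1, h2, integral_prod_symm _ hi3]
  refine integral_congr_ae (Eventually.of_forall fun x => ?_)
  simp only [beta]
  rw [← integral_conj, ← integral_const_mul]
  refine integral_congr_ae (Eventually.of_forall fun y => ?_)
  simp only [he _ (isU_un N y), map_mul, Complex.conj_conj, conj_tf, mul_assoc]
  ring

lemma KK_one (W : G (N + 1) → ℂ) : KK 1 W = ∫⁻ x, ‖W (up (sg N x))‖ₑ ^ 2 ∂mX N := by
  simp [KK, II]

lemma eqv_W1 (hW : WhStmt) {w : G (N + 1) → ℂ} (hw : Aut w) : Eqv (fun _ => 1) (W1 w) := by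
  have := hW.eqv N (fun _ => 1) w hw.cont fun γ _ g => hw.zinv γ g
  have e : zv (fun _ : Fin N => (1 : ℤ)) = fun _ => 1 := by ext i; simp [zv]
  rwa [e] at this

lemma KK_lt {α : ℕ → Fin (N + 1) → ℂ} {R : ℝ} (hR : Iso α R) {w : G (N + 1) → ℂ}
    (hw : InV α w) : KK 1 (W1 w) < ⊤ := by
  have h1 : N2 w < ⊤ := hw.l2 []
  rw [hR.2 w hw] at h1
  by_contra h
  rw [not_lt, top_le_iff] at h
  rw [h, ENNReal.mul_top (ENNReal.ofReal_pos.2 hR.1).ne'] at h1
  exact lt_irrefl _ h1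

lemma measurable_res (hW : WhStmt) {w : G (N + 1) → ℂ} (hw : Continuous w) :
    Measurable fun x => W1 w (up (sg N x)) :=
  ((hW.cont N _ w hw).comp continuous_up).measurable.comp (measurable_sg N)

/-- the classes of the Kirillov functions -/
def SK (hW : WhStmt) (hV : ClassStmt) (α : ℕ → Fin (N + 1) → ℂ) (γ : ℕ → ℂ) :
    Submodule ℂ (Lp ℂ 2 (mX N)) where
  carrier := {φ | ∃ w, InV α w ∧ Cen γ w ∧ φ =ᵐ[mX N] fun x => W1 w (up (sg N x))}
  zero_mem' := by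
    obtain ⟨V, hV'⟩ := hV.subC (N + 1) α γ
    have h0 := (hV' 0).1 V.zero_mem
    refine ⟨0, h0.1, h0.2, ?_⟩
    have e : W1 (0 : G (N + 1) → ℂ) = 0 := by
      have := hW.smul N (fun _ => 1) 0 0
      simpa [W1] using this
    rw [e]
    exact Lp.coeFn_zero _ _ _
  add_mem' := by
    rintro φ ψ ⟨w, hw, hc, h⟩ ⟨w', hw', hc', h'⟩
    obtain ⟨V, hV'⟩ := hV.subC (N + 1) α γ
    have h0 := (hV' _).1 (V.add_mem ((hV' w).2 ⟨hw, hc⟩) ((hV' w').2 ⟨hw', hc'⟩))
    refine ⟨w + w', h0.1, h0.2, ?_⟩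
    have e : W1 (w + w') = W1 w + W1 w' := hW.add N _ w w' hw.aut.cont hw'.aut.cont
    rw [e]
    filter_upwards [Lp.coeFn_add φ ψ, h, h'] with x hx h1 h2
    rw [hx, Pi.add_apply, h1, h2, Pi.add_apply]
  smul_mem' := by
    rintro c φ ⟨w, hw, hc, h⟩
    obtain ⟨V, hV'⟩ := hV.subC (N + 1) α γ
    have h0 := (hV' _).1 (V.smul_mem c ((hV' w).2 ⟨hw, hc⟩))
    refine ⟨c • w, h0.1, h0.2, ?_⟩
    have e : W1 (c • w) = c • W1 w := hW.smul N _ c w
    rw [e]
    filter_upwards [Lp.coeFn_smul c φ, h] with x hx h1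
    rw [hx, Pi.smul_apply, h1, Pi.smul_apply]

lemma SK_orth (hQ : QuotStmt) (hW : WhStmt) (hV : ClassStmt) (hI : IrrStmt)
    {α : ℕ → Fin (N + 1) → ℂ} {γ : ℕ → ℂ} {R : ℝ} (hR : Iso α R) {w : G (N + 1) → ℂ}
    (hw0 : w ≠ 0) (hw : InV α w) (hc : Cen γ w) : (SK hW hV α γ)ᗮ = ⊥ := by
  rw [Submodule.eq_bot_iff]
  intro η hη
  have hsm := Lp.aestronglyMeasurable η
  have hfin : ∫⁻ x, ‖hsm.mk η x‖ₑ ^ 2 ∂mX N < ⊤ := by
    rw [← ofReal_norm_sq η hsm.ae_eq_mk]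
    exact ENNReal.ofReal_lt_top
  have h := hI N (W1 w) (hsm.mk η) (hW.cont N _ w hw.aut.cont).measurable (eqv_W1 hW hw.aut)
    hsm.measurable_mk (KK_lt hR hw) hfin ?_
  · rcases h with h | h
    · refine Lp.ext ?_
      filter_upwards [h, hsm.ae_eq_mk, Lp.coeFn_zero ℂ 2 (mX N)] with x h1 h2 h3
      rw [h2, h1, h3, Pi.zero_apply]
    · exfalso
      apply hw0
      apply hQ.pos _ w hw.aut
      rw [hR.2 w hw, h, mul_zero]
  · refine Eventually.of_forall fun h => Eventually.of_forall fun b => ?_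
    have hw' := hV.rtV _ α w hw (nb b * up h)
    have hc' := hV.rtC _ γ w hw.sm hc (nb b * up h)
    have hm : MemLp (fun x => W1 (rt (nb b * up h) w) (up (sg N x))) 2 (mX N) :=
      memLp_of (measurable_res hW hw'.aut.cont) (by rw [← KK_one]; exact KK_lt hR hw')
    have h1 := (Submodule.mem_orthogonal _ _).1 hη hm.toLp ⟨_, hw', hc', hm.coeFn_toLp⟩
    rw [inner_eq _ _ hm.coeFn_toLp hsm.ae_eq_mk] at h1
    rw [← h1]
    simp only [W1, Wf_rt, rt]

end Loc2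

open Loc2 in
theorem loc2 (hH : HaarStmt) (hQ : QuotStmt) (hW : WhStmt) (hV : ClassStmt) (hI : IrrStmt)
    (hL : Loc0Stmt) : Loc2Stmt := by
  intro N
  obtain ⟨c, hc, hlow⟩ := le_sq_beta hH hW hL N
  have hN : (0 : ℝ) ≤ N := Nat.cast_nonneg N
  refine ⟨1 / (60 * (N + 2)), c / 9, by positivity, ?_, by positivity, ?_⟩
  · rw [div_mul_eq_mul_div, div_le_one (by positivity)]
    nlinarith
  rintro T hT α γ R hR ⟨w0, hw0, hw, hcen⟩
  set δ : ℝ := 1 / (60 * (N + 2)) / T with hδdef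
  have hT0 : 0 < T := by linarith
  have hδ : 0 < δ := by positivity
  have hTδ : T * δ * (60 * (N + 2)) = 1 := by rw [hδdef]; field_simp
  have hδT : δ ≤ T * δ := by nlinarith
  have hδ1 : 2 * δ * (2 * N + 2) ≤ 1 := by nlinarith
  have hδ2 : N * (T * (6 * δ)) ≤ 1 / 10 := by nlinarith
  have hδ3 : δ * (2 * N + 2) ≤ 1 := by nlinarith
  have ha := fun i : Fin N => tT_pos hT i
  have hNL : 0 < NL N T δ := mul_pos (dl_pos ha) (by positivity)
  have hm : MemLp (fun x => beta (dg (tT N T)) δ (sg N x)) 2 (mX N) :=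
    memLp_of ((measurable_beta _ _).comp (measurable_sg N)) (sq_beta_lt hH hW hL ha hδ hδ1)
  have hb : c * NL N T δ ≤ ‖hm.toLp‖ ^ 2 := by
    have := hlow T δ hT hδ hδ1 hδ2
    rw [← ofReal_norm_sq _ hm.coeFn_toLp] at this
    exact (ENNReal.ofReal_le_ofReal_iff (by positivity)).1 this
  have hb0 : hm.toLp ≠ 0 := by
    intro h
    rw [h, norm_zero] at hb
    have : 0 < c * NL N T δ := by positivity
    linarith [sq_nonneg (0 : ℝ), (by norm_num : (0 : ℝ) ^ 2 = 0)]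
  obtain ⟨φ, ⟨w, hw1, hw2, hφ⟩, hφ0, hle⟩ :=
    approx _ (SK_orth hQ hW hV hI hR hw0 hw hcen) _ hb0
  refine ⟨w, ?_, hw1, hw2, ?_⟩
  · rintro rfl
    apply hφ0
    have e : W1 (0 : G (N + 1) → ℂ) = 0 := by
      have := hW.smul N (fun _ => 1) 0 0
      simpa [W1] using this
    rw [e] at hφ
    exact Lp.ext (hφ.trans (Lp.coeFn_zero ℂ 2 (mX N)).symm)
  · have h1 : L0 T δ (W1 w) = ⟪hm.toLp, φ⟫_ℂ := by
      rw [inner_eq _ _ hm.coeFn_toLp hφ]
      refine pairing hH hL _ hδ hδ3 (f := fun h => W1 w (up h))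
        ((hW.cont N _ w hw1.aut.cont).comp continuous_up) fun u hu h => ?_
      rw [up_mul]
      exact eqv_W1 hW hw1.aut _ hu.up _
    rw [h1, KK_one, ← ofReal_norm_sq φ hφ, ← ENNReal.ofReal_mul (by positivity), ← ofReal_norm,
      ← ENNReal.ofReal_pow (norm_nonneg _)]
    refine ENNReal.ofReal_le_ofReal ?_
    have h2 : c * NL N T δ * ‖φ‖ ^ 2 ≤ ‖hm.toLp‖ ^ 2 * ‖φ‖ ^ 2 := by gcongr
    nlinarith

end Pool.Agent.Lib.MP_fa98d2_nt.D
end
end

-- part Pool.Agent.Lib.MP_fa98d2_nt.D.Loc3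
section

/- The local functional: stability, upper bound, and a vector with controlled derivatives. -/

open MeasureTheory Filter Topology Matrix
open scoped ENNReal Real ContDiff ComplexConjugate

noncomputable section

namespace Pool.Agent.Lib.MP_fa98d2_nt.D

namespace Loc3

variable {k N : ℕ}

/-! ### Elementary facts -/

lemma ld_neg (A : Mat k) (f : G k → ℂ) : Ld (-A) f = -Ld A f := by
  ext g
  have := deriv_comp_neg (fun t : ℝ => f (mkG (1 + t • A) * g)) 0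
  simp only [neg_zero, neg_smul] at this
  simp only [Ld, Pi.neg_apply, smul_neg]
  exact this

lemma bl_mono {δ δ' : ℝ} (h : δ ≤ δ') : Bl k δ ⊆ Bl k δ' := fun _ hg i j => (hg i j).trans_le h

lemma one_bl {δ : ℝ} (h : 0 < δ) : (1 : G k) ∈ Bl k δ := fun i j => by simpa using h

lemma up_bl {δ : ℝ} (h0 : 0 < δ) {x : G k} (hx : x ∈ Bl k δ) : up x ∈ Bl (k + 1) δ := by
  intro i j
  refine Fin.lastCases ?_ (fun i => ?_) i <;> refine Fin.lastCases ?_ (fun j => ?_) j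
  · simpa [up] using h0
  · simpa [up, Matrix.one_apply, (Fin.castSucc_ne_last _).symm] using h0
  · simpa [up, Matrix.one_apply, Fin.castSucc_ne_last] using h0
  · simpa [up, Matrix.one_apply] using hx i j

lemma sr_bl {δ : ℝ} (h0 : 0 < δ) {r : Fin (k + 1) → ℝ} (hr : r (Fin.last k) ≠ 0)
    (h : ∀ j, |r j - (Pi.single (Fin.last k) 1 : Fin (k + 1) → ℝ) j| < δ) :
    sr r ∈ Bl (k + 1) δ := by
  intro i j
  rw [val_sr hr]
  by_cases e : i = Fin.last k
  · subst e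
    have := h j
    rw [Pi.single_apply] at this
    rw [Matrix.updateRow_self, Matrix.one_apply]
    simpa only [eq_comm] using this
  · rw [Matrix.updateRow_ne e]
    simpa using h0

lemma tT_ge {T : ℝ} (hT : 1 ≤ T) (i : Fin k) : 1 ≤ tT k T i := one_le_pow₀ hT

lemma tT_pos {T : ℝ} (hT : 1 ≤ T) (i : Fin k) : 0 < tT k T i := one_pos.trans_le (tT_ge hT i)

lemma dl_pos {a : Fin k → ℝ} (ha : ∀ i, 0 < a i) : 0 < dl a :=
  Finset.prod_pos fun i _ => Finset.prod_pos fun j _ => div_pos (ha i) (ha j)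

lemma nl_pos {T δ : ℝ} (hT : 1 ≤ T) (hδ : 0 < δ) : 0 < NL N T δ :=
  mul_pos (dl_pos (tT_pos hT)) (pow_pos hδ _)

lemma dl_eq (a : Fin k → ℝ) : dl a = ∏ i, ∏ j, if i < j then a i / a j else 1 := by
  refine Finset.prod_congr rfl fun i _ => ?_
  rw [← Finset.filter_lt_eq_Ioi, Finset.prod_filter]

lemma dl_snoc (a : Fin k → ℝ) : dl (Fin.snoc a 1 : Fin (k + 1) → ℝ) = dl a * ∏ i, a i := by
  rw [dl_eq, dl_eq, Fin.prod_univ_castSucc, ← Finset.prod_mul_distrib]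
  have h : (∏ j : Fin (k + 1), if Fin.last k < j then
      (Fin.snoc a 1 : Fin (k + 1) → ℝ) (Fin.last k) / (Fin.snoc a 1 : Fin (k + 1) → ℝ) j else 1) = 1 :=
    Finset.prod_eq_one fun j _ => if_neg (not_lt.2 (Fin.le_last j))
  rw [h, mul_one]
  refine Finset.prod_congr rfl fun i _ => ?_
  rw [Fin.prod_univ_castSucc]
  simp [Fin.castSucc_lt_last]

lemma sum_tT (k : ℕ) : ∑ i : Fin k, (k - i.val) = (k + 1).choose 2 := by
  induction k with
  | zero => simp
  | succ k ih =>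
    rw [Fin.sum_univ_succ, Nat.choose_succ_succ' (k + 1) 1, ← ih]
    simp

lemma prod_tT (k : ℕ) (T : ℝ) : ∏ i, tT k T i = T ^ (k + 1).choose 2 := by
  simp only [tT]
  rw [Finset.prod_pow_eq_pow_sum, sum_tT]

lemma norm_le_of_sq {x y : ℂ} {a : ℝ} (ha : 0 ≤ a)
    (h : ‖x‖ₑ ^ 2 ≤ ENNReal.ofReal (a ^ 2) * ‖y‖ₑ ^ 2) : ‖x‖ ≤ a * ‖y‖ := by
  rw [ENNReal.ofReal_pow ha, ← mul_pow, ENNReal.pow_le_pow_left_iff two_ne_zero,
    ← ofReal_norm, ← ofReal_norm, ← ENNReal.ofReal_mul ha,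
    ENNReal.ofReal_le_ofReal_iff (by positivity)] at h
  exact h

lemma sq_le_of_norm {x y : ℂ} {a : ℝ} (ha : 0 ≤ a) (h : a * ‖y‖ ≤ ‖x‖) :
    ENNReal.ofReal (a ^ 2) * ‖y‖ₑ ^ 2 ≤ ‖x‖ₑ ^ 2 := by
  rw [ENNReal.ofReal_pow ha, ← mul_pow, ENNReal.pow_le_pow_left_iff two_ne_zero,
    ← ofReal_norm, ← ofReal_norm, ← ENNReal.ofReal_mul ha]
  exact ENNReal.ofReal_le_ofReal h

lemma exists_sqrt (M : ℝ≥0∞) : ∃ m : ℝ≥0∞, m ^ 2 = M :=
  ⟨M ^ ((2 : ℕ) : ℝ)⁻¹, ENNReal.rpow_inv_natCast_pow two_ne_zero M⟩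

/-- multiply an inequality by a real factor -/
lemma scale {a b t : ℝ} {x y : ℝ≥0∞} (ht : 0 ≤ t)
    (h : ENNReal.ofReal a * x ≤ ENNReal.ofReal b * y) :
    ENNReal.ofReal (t * a) * x ≤ ENNReal.ofReal (t * b) * y := by
  rw [ENNReal.ofReal_mul ht, ENNReal.ofReal_mul ht, mul_assoc, mul_assoc]
  exact mul_le_mul_right h _

lemma lint_le (hL : Loc0Stmt) {f : G k → ℂ} {B : ℝ≥0∞} {δ : ℝ} (h1 : ∀ g ∈ Bl k δ, ‖f g‖ₑ ≤ B)
    (h2 : ∀ g, f g ≠ 0 → g ∈ Bl k δ) : ∫⁻ g, ‖f g‖ₑ ∂mu k ≤ B * mu k (Bl k δ) := by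
  rw [← lintegral_indicator_const (hL.opn k 1 δ).1.measurableSet]
  refine lintegral_mono fun g => ?_
  by_cases h : g ∈ Bl k δ
  · rw [Set.indicator_of_mem h]; exact h1 g h
  · have : f g = 0 := not_not.1 fun a => h (h2 g a)
    simp [this]

/-! ### The bump function -/

/-- admissible radius -/
def Ok (k : ℕ) (δ : ℝ) : Prop := 0 < δ ∧ δ * (2 * k + 2) ≤ 1

lemma Ok.mono {δ δ' : ℝ} (h : Ok k δ) (h0 : 0 < δ') (h1 : δ' ≤ δ) : Ok k δ' :=
  ⟨h0, (mul_le_mul_of_nonneg_right h1 (by positivity)).trans h.2⟩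

lemma Ok.half {δ : ℝ} (h : Ok k δ) : δ ≤ 1 / 2 := by
  have := h.2
  have h0 : (0 : ℝ) ≤ k := Nat.cast_nonneg k
  nlinarith [h.1]

lemma Ok.div {c T : ℝ} (h : Ok k c) (hT : 1 ≤ T) : Ok k (c / T) :=
  h.mono (div_pos h.1 (by linarith)) (div_le_self h.1.le hT)

lemma Ok.pred {δ : ℝ} (h : Ok (k + 1) δ) : Ok k δ := by
  refine ⟨h.1, le_trans ?_ h.2⟩
  push_cast
  nlinarith [h.1]

/-- total mass of the bump function -/
def It (k : ℕ) (δ : ℝ) : ℝ := ∫ y : G k, ‖tf δ y‖ ∂mu k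

section bump
variable (hC : CalcStmt) (hL : Loc0Stmt) {δ : ℝ} (hδ : Ok k δ)
include hL hδ

lemma tf_norm (g : G k) : ‖tf δ g‖ ≤ 1 ∧ ((‖tf δ g‖ : ℝ) : ℂ) = tf δ g := by
  obtain ⟨x, h0, h1, e⟩ := (hL.bump k δ hδ.1 hδ.2).2.2.2.2 g
  rw [e, Complex.norm_real, Real.norm_of_nonneg h0]
  exact ⟨h1, rfl⟩

lemma tf_sm : Sm (tf (k := k) δ) := (hL.bump k δ hδ.1 hδ.2).1

lemma tf_cs : HasCompactSupport (tf (k := k) δ) := (hL.bump k δ hδ.1 hδ.2).2.1

lemma tf_bl {g : G k} (h : tf δ g ≠ 0) : g ∈ Bl k δ := (hL.bump k δ hδ.1 hδ.2).2.2.1 g h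

lemma int_tf : ∫ y : G k, tf δ y ∂mu k = It k δ := by
  rw [It, ← integral_complex_ofReal]
  exact integral_congr_ae (ae_of_all _ fun g => (tf_norm hL hδ g).2.symm)

include hC

lemma tf_cont : Continuous (tf (k := k) δ) := hC.cont _ _ (tf_sm hL hδ)

lemma tf_int {F : G k → ℂ} (hF : Continuous F) : Integrable (fun y => tf δ y * F y) (mu k) :=
  ((tf_cont hC hL hδ).mul hF).integrable_of_hasCompactSupport (tf_cs hL hδ).mul_right

lemma tf_int0 : Integrable (tf (k := k) δ) (mu k) :=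
  (tf_cont hC hL hδ).integrable_of_hasCompactSupport (tf_cs hL hδ)

lemma lint_tf : ∫⁻ y : G k, ‖tf δ y‖ₑ ∂mu k = ENNReal.ofReal (It k δ) :=
  (ofReal_integral_norm_eq_lintegral_enorm (tf_int0 hC hL hδ)).symm

lemma half_le : mu k (Bl k (δ / 2)) ≤ ENNReal.ofReal (It k δ) := by
  rw [← lint_tf hC hL hδ, ← lintegral_indicator_one (hL.opn k 1 _).1.measurableSet]
  refine lintegral_mono fun g => ?_
  by_cases h : g ∈ Bl k (δ / 2)
  · rw [Set.indicator_of_mem h, (hL.bump k δ hδ.1 hδ.2).2.2.2.1 g h]; simp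
  · rw [Set.indicator_of_notMem h]; exact zero_le

end bump

lemma it_nonneg (k : ℕ) (δ : ℝ) : 0 ≤ It k δ := integral_nonneg fun _ => norm_nonneg _

/-- volume of balls against the mass of the bump function -/
lemma vol_it (hC : CalcStmt) (hL : Loc0Stmt) (k : ℕ) : ∃ K : ℝ, 0 < K ∧ ∀ δ, Ok k δ →
    δ ^ k ^ 2 ≤ K * It k δ ∧ mu k (Bl k δ) ≤ ENNReal.ofReal (K * It k δ) ∧
      mu k (Bl k δ) ≤ ENNReal.ofReal (K * δ ^ k ^ 2) := by
  obtain ⟨C, hC0, H⟩ := hL.vol k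
  refine ⟨(C + 1) ^ 2 * 2 ^ k ^ 2, by positivity, fun δ hδ => ?_⟩
  have h0 := hδ.1
  have h2 : Ok k (δ / 2) := hδ.mono (by positivity) (by linarith)
  have a := (H _ h2.1 h2.2).1.trans (half_le hC hL hδ)
  rw [ENNReal.ofReal_le_ofReal_iff (it_nonneg k δ), div_pow, div_div, div_le_iff₀ (by positivity)]
    at a
  have i0 := it_nonneg k δ
  have p1 : (1 : ℝ) ≤ 2 ^ k ^ 2 := one_le_pow₀ one_le_two
  have p2 : 0 ≤ It k δ * 2 ^ k ^ 2 := by positivity
  have p3 : 0 ≤ δ ^ k ^ 2 := by positivity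
  refine ⟨by nlinarith, (H _ hδ.1 hδ.2).2.trans (ENNReal.ofReal_le_ofReal ?_),
    (H _ hδ.1 hδ.2).2.trans (ENNReal.ofReal_le_ofReal ?_)⟩
  · nlinarith [mul_le_mul_of_nonneg_left a hC0.le]
  · refine mul_le_mul_of_nonneg_right ?_ p3
    nlinarith [sq_nonneg C]

/-! ### The functional `L0` -/

lemma cont_u (T : ℝ) : Continuous fun x : G N => up (dg (tT N T) * x) :=
  continuous_up.comp (continuous_const.mul continuous_id)

section L0
variable (hC : CalcStmt) (hL : Loc0Stmt) (T : ℝ) {δ δ' : ℝ} (hδ : Ok N δ) (hδ' : Ok (N + 1) δ')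
include hC hL

include hδ in
lemma l0_sum {ι : Type} (S : Finset ι) (z : ι → ℂ) (W : ι → G (N + 1) → ℂ)
    (hW : ∀ i, Continuous (W i)) :
    L0 T δ (fun g => ∑ i ∈ S, z i * W i g) = ∑ i ∈ S, z i * L0 T δ (W i) := by
  simp only [L0, Finset.mul_sum]
  refine (integral_finsetSum _ fun i _ =>
    tf_int hC hL hδ (continuous_const.mul ((hW i).comp (cont_u T)))).trans
    (Finset.sum_congr rfl fun i _ => ?_)
  rw [← integral_const_mul]
  exact integral_congr_ae (ae_of_all _ fun x => mul_left_comm _ _ _)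

include hδ' in
lemma conv_sum {ι : Type} (S : Finset ι) (z : ι → ℂ) (W : ι → G (N + 1) → ℂ)
    (hW : ∀ i, Continuous (W i)) :
    conv (tf δ') (fun g => ∑ i ∈ S, z i * W i g) = fun g => ∑ i ∈ S, z i * conv (tf δ') (W i) g := by
  ext g
  simp only [conv, Finset.mul_sum]
  refine (integral_finsetSum _ fun i _ => tf_int hC hL hδ'
    (continuous_const.mul ((hW i).comp (continuous_const.mul continuous_id)))).trans
    (Finset.sum_congr rfl fun i _ => ?_)
  rw [← integral_const_mul]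
  exact integral_congr_ae (ae_of_all _ fun x => mul_left_comm _ _ _)

include hδ' in
lemma conv_cont {W : G (N + 1) → ℂ} (hW : Continuous W) : Continuous (conv (tf δ') W) :=
  hC.cont _ _ (hC.convL _ _ _ (tf_sm hL hδ') (tf_cs hL hδ') hW).1

include hδ hδ' in
lemma l0_conv {W : G (N + 1) → ℂ} (hW : Continuous W) (g : G (N + 1)) :
    L0 T δ (rt g (conv (tf δ') W)) = ∫ y, tf δ' y * L0 T δ (rt (g * y) W) ∂mu (N + 1) := by
  simp only [L0, rt, conv, ← integral_const_mul]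
  have hc : Continuous fun p : G N × G (N + 1) =>
      tf δ p.1 * (tf δ' p.2 * W (up (dg (tT N T) * p.1) * g * p.2)) :=
    ((tf_cont hC hL hδ).comp continuous_fst).mul (((tf_cont hC hL hδ').comp continuous_snd).mul
      (hW.comp ((((cont_u T).comp continuous_fst).mul continuous_const).mul continuous_snd)))
  have hs : HasCompactSupport fun p : G N × G (N + 1) =>
      tf δ p.1 * (tf δ' p.2 * W (up (dg (tT N T) * p.1) * g * p.2)) := by
    refine HasCompactSupport.intro ((tf_cs hL hδ).prod (tf_cs hL hδ')) fun p hp => ?_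
    rcases not_and_or.1 hp with a | a
    · rw [image_eq_zero_of_notMem_tsupport a, zero_mul]
    · rw [image_eq_zero_of_notMem_tsupport a, zero_mul, mul_zero]
  rw [integral_integral_swap (hc.integrable_of_hasCompactSupport hs)]
  refine integral_congr_ae (ae_of_all _ fun y => integral_congr_ae (ae_of_all _ fun x => ?_))
  simp only [mul_assoc]
  exact mul_left_comm _ _ _

include hδ in
/-- the translates of the functional form a smooth function -/
lemma l0_sm {W : G (N + 1) → ℂ} (hW : Sm W) : Sm (fun g => L0 T δ (rt g W)) ∧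
    ∀ A, Rd A (fun g => L0 T δ (rt g W)) = fun g => L0 T δ (rt g (Rd A W)) :=
  hC.par (N + 1) (G N) (mu N) (fun x => up (dg (tT N T) * x)) (tf δ)
    ((fun x => up (dg (tT N T) * x)) '' tsupport (tf δ)) (cont_u T).measurable (tf_int0 hC hL hδ)
    ((tf_cs hL hδ).isCompact.image (cont_u T))
    (ae_of_all _ fun x hx => ⟨x, subset_tsupport _ hx, rfl⟩) W hW

include hδ hδ' in
/-- lower bound after convolution -/
lemma l0_lower {W : G (N + 1) → ℂ} (hW : Sm W) (g : G (N + 1)) (l : ℂ)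
    (h : ∀ y ∈ Bl (N + 1) δ', ‖L0 T δ (rt (g * y) W) - l‖ ≤ ‖l‖ / 2) :
    It (N + 1) δ' / 2 * ‖l‖ ≤ ‖L0 T δ (rt g (conv (tf δ') W))‖ := by
  rw [l0_conv hC hL T hδ hδ' (hC.cont _ _ hW)]
  have hF : Continuous fun y => L0 T δ (rt (g * y) W) :=
    (hC.cont _ _ (l0_sm hC hL T hδ hW).1).comp (continuous_const.mul continuous_id)
  have e : ∫ y, tf δ' y * L0 T δ (rt (g * y) W) ∂mu (N + 1) =
      It (N + 1) δ' * l + ∫ y, tf δ' y * (L0 T δ (rt (g * y) W) - l) ∂mu (N + 1) := by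
    simp only [mul_sub]
    rw [integral_sub (tf_int hC hL hδ' hF) (tf_int hC hL hδ' continuous_const), integral_mul_const,
      int_tf hL hδ']
    ring
  have b : ‖∫ y, tf δ' y * (L0 T δ (rt (g * y) W) - l) ∂mu (N + 1)‖ ≤
      It (N + 1) δ' * (‖l‖ / 2) := by
    rw [It, ← integral_mul_const]
    refine norm_integral_le_of_norm_le ((tf_int0 hC hL hδ').norm.mul_const _)
      (ae_of_all _ fun y => ?_)
    rw [norm_mul]
    by_cases a : tf δ' y = 0
    · simp [a]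
    · exact mul_le_mul_of_nonneg_left (h y (tf_bl hL hδ' a)) (norm_nonneg _)
  have c := norm_sub_le (It (N + 1) δ' * l +
    ∫ y, tf δ' y * (L0 T δ (rt (g * y) W) - l) ∂mu (N + 1))
    (∫ y, tf δ' y * (L0 T δ (rt (g * y) W) - l) ∂mu (N + 1))
  rw [add_sub_cancel_right, norm_mul, Complex.norm_real, Real.norm_of_nonneg (it_nonneg _ _)] at c
  rw [e]
  linarith

end L0

/-! ### Stability -/

lemma entry_le {δ : ℝ} (hδ : Ok k δ) {x : G k} (hx : x ∈ Bl k (2 * δ)) (i j : Fin k) :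
    |x.val i j| ≤ 2 := by
  have a := hx i j
  have b : |(1 : Mat k) i j| ≤ 1 := by
    rw [Matrix.one_apply]; split_ifs <;> simp
  have c := abs_sub_abs_le_abs_sub (x.val i j) ((1 : Mat k) i j)
  linarith [hδ.half]

lemma sm_rt (hC : CalcStmt) {W : G k → ℂ} (hW : Sm W) (a : G k) : Sm (rt a W) := by
  have := hC.tra _ W hW 1 a
  simp only [one_mul] at this
  exact this

lemma stab (hC : CalcStmt) (hL : Loc0Stmt) (T : ℝ) {δ δ' B : ℝ} (hδ : Ok N δ)
    (hδ' : Ok (N + 1) δ') {W : G (N + 1) → ℂ} (hW : Sm W)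
    (hB : ∀ g a b, ‖L0 T δ (Rd (em a b) (rt g W))‖ ≤ B) {x : G (N + 1)} (hx : x ∈ Bl (N + 1) δ') :
    ‖L0 T δ (rt x W) - L0 T δ W‖ ≤ 2 * (N + 1) ^ 3 * δ' * B := by
  obtain ⟨hF, hR⟩ := l0_sm hC hL T hδ hW
  set V : Mat (N + 1) := x.val - 1 with hV
  have hV1 : ∀ i j, |V i j| < δ' := hx
  have hV2 : ∀ t ∈ Set.Icc (0 : ℝ) 1, ∀ i j, |(t • V) i j| < δ' := fun t ht i j => by
    rw [Matrix.smul_apply, smul_eq_mul, abs_mul, abs_of_nonneg ht.1]
    exact (mul_le_of_le_one_left (abs_nonneg _) ht.2).trans_lt (hV1 i j)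
  have hd : ∀ t ∈ Set.Icc (0 : ℝ) 1, (1 + t • V).det ≠ 0 := fun t ht =>
    hL.seg _ δ' hδ'.2 _ (hV2 t ht)
  set c : ℝ → G (N + 1) := fun t => mkG (1 + t • V) with hc
  have hb : ∀ t ∈ Set.Icc (0 : ℝ) 1, c t ∈ Bl (N + 1) δ' := fun t ht i j => by
    rw [hc, val_mkG (hd t ht)]
    simpa using hV2 t ht i j
  have hco : ∀ t ∈ Set.Icc (0 : ℝ) 1, HasDerivAt (fun t => co (c t)) (fun i j => V i j) t :=
    fun t ht => by
      have h1 : Continuous fun s : ℝ => (1 + s • V).det :=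
        Continuous.matrix_det (continuous_const.add (continuous_id.smul continuous_const))
      have h2 : ∀ᶠ s in 𝓝 t, (1 + s • V).det ≠ 0 := h1.continuousAt.eventually_ne (hd t ht)
      have h3 : HasDerivAt (fun s : ℝ => (co (1 : G (N + 1)) + s • (fun i j => V i j) : E (N + 1)))
          (fun i j => V i j) t := by
        simpa using ((hasDerivAt_id t).smul_const (fun i j => V i j : E (N + 1))).const_add
          (co (1 : G (N + 1)))
      refine h3.congr_of_eventuallyEq (h2.mono fun s hs => ?_)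
      ext i j
      simp only [co, hc, val_mkG hs]
      rfl
  have hB0 : 0 ≤ B := (norm_nonneg _).trans (hB 1 0 0)
  have key := norm_image_sub_le_of_norm_deriv_le_segment_01' (C := 2 * (N + 1) ^ 3 * δ' * B)
    (fun t ht => (hC.curve _ _ hF c _ t (hco t ht)).hasDerivWithinAt) fun t ht => by
      have ht' := Set.Ico_subset_Icc_self ht
      have hs : Sm (rt (c t) W) := sm_rt hC hW _
      have e1 : ((c t)⁻¹).val * Matrix.of (fun i j => V i j) =
          ((c t)⁻¹).val * (V * ((c t)⁻¹).val) * (c t).val := by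
        rw [Matrix.mul_assoc, Matrix.mul_assoc, ← Units.val_mul, inv_mul_cancel, Units.val_one,
          Matrix.mul_one]
        rfl
      have e2 : Rd (V * ((c t)⁻¹).val) (rt (c t) W) = fun g => ∑ p : Fin (N + 1) × Fin (N + 1),
          (((V * ((c t)⁻¹).val) p.1 p.2 : ℝ) : ℂ) * Rd (em p.1 p.2) (rt (c t) W) g := by
        rw [hC.rd_lin _ _ _ hs]
        ext g
        simp only [Finset.sum_apply, Pi.smul_apply, smul_eq_mul, Fintype.sum_prod_type]
      have e3 : ∀ i j, |(V * ((c t)⁻¹).val) i j| ≤ (N + 1) * (δ' * 2) := fun i j => by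
        rw [Matrix.mul_apply]
        refine (Finset.abs_sum_le_sum_abs _ _).trans ((Finset.sum_le_card_nsmul _ _ (δ' * 2)
          fun l _ => ?_).trans (by simp))
        rw [abs_mul]
        exact mul_le_mul (hV1 i l).le (entry_le hδ'
          (hL.mul _ δ' δ' hδ'.2 hδ'.2 _ (hb t ht') _ (hb t ht')).2 l j) (abs_nonneg _) hδ'.1.le
      rw [hR, e1]
      beta_reduce
      rw [← hC.rd_rt, e2, l0_sum hC hL T hδ _ _ _ fun p => hC.cont _ _ (hC.rd _ _ _ hs)]
      refine (norm_sum_le _ _).trans ((Finset.sum_le_card_nsmul _ _ ((N + 1) * (δ' * 2) * B)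
        fun p _ => ?_).trans (le_of_eq ?_))
      · rw [norm_mul, Complex.norm_real, Real.norm_eq_abs]
        exact mul_le_mul (e3 _ _) (hB _ _ _) (norm_nonneg _) (by have := hδ'.1; positivity)
      · simp only [Finset.card_univ, Fintype.card_prod, Fintype.card_fin, nsmul_eq_mul]
        push_cast
        ring
  have c1 : c 1 = x := by simp [hc, hV]
  have c0 : c 0 = 1 := by simp [hc]
  have r1 : rt (1 : G (N + 1)) W = W := by ext g; simp [rt]
  rwa [c1, c0, r1] at key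

/-! ### Upper bounds -/

lemma uinv_rt {β : Type} {F : G k → β} (h : UInv F) (a : G k) : UInv (rt a F) :=
  fun u hu g => by simp only [rt, mul_assoc, h u hu]

lemma uinv_w1 (hW : WhStmt) {w : G (N + 1) → ℂ} (h : Aut w) : UInv fun g => ‖W1 w g‖ :=
  fun u hu g => by
    have := hW.eqv N (fun _ => 1) w h.cont (fun γ _ g => h.zinv γ g) u hu g
    simp only [W1, this, psi, norm_mul, norm_ee, one_mul]

lemma dt_om (hL : Loc0Stmt) (N : ℕ) : ∃ C : ℝ, 0 < C ∧ ∀ T δ, 1 ≤ T → Ok N δ →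
    ∀ g ∈ Om (dg (tT N T)) δ, ∀ s : ℝ, 1 ≤ s → s ≤ 3 → 1 ≤ C * dt g ^ (s - 1) := by
  obtain ⟨C, h0, H⟩ := hL.det N
  refine ⟨Real.exp (2 * C), Real.exp_pos _, ?_⟩
  rintro T δ hT hδ g ⟨u, hu, x, hx, rfl⟩ s h1 h3
  have a1 : 1 ≤ dt (dg (tT N T)) := by
    rw [dt_dg fun i => (tT_pos hT i).ne', prod_tT, abs_of_nonneg (by positivity)]
    exact one_le_pow₀ hT
  have a2 : -C ≤ Real.log (dt x) := by
    have := (abs_le.1 (H δ hδ.2 x hx)).1
    nlinarith [hδ.half, hδ.1]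
  have a3 := Real.log_nonneg a1
  rw [Real.rpow_def_of_pos (dt_pos _), dt_mul, dt_mul, hu.dt, one_mul,
    Real.log_mul (dt_pos _).ne' (dt_pos _).ne', ← Real.exp_add]
  refine Real.one_le_exp ?_
  nlinarith

/-- upper bound for the functional by the weighted Kirillov norms -/
lemma l0_upper (hC : CalcStmt) (hL : Loc0Stmt) (N : ℕ) : ∃ C : ℝ, 0 < C ∧ ∀ T δ, 1 ≤ T → Ok N δ →
    ∀ W : G (N + 1) → ℂ, Continuous W → UInv (fun g => ‖W g‖) → ∀ s, 1 ≤ s → s ≤ 3 →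
    ‖L0 T δ W‖ₑ ^ 2 ≤ ENNReal.ofReal (C * NL N T δ) * KK s W := by
  obtain ⟨C, h0, H⟩ := hL.upper N
  obtain ⟨C', h0', H'⟩ := dt_om hL N
  refine ⟨C * C', by positivity, fun T δ hT hδ W hW hU s h1 h3 => ?_⟩
  have a := H (tT N T) (tT_pos hT) δ hδ.1 hδ.2 (tf δ) (fun h => W (up h))
    (tf_cont hC hL hδ).measurable (fun g => (tf_norm hL hδ g).1) (fun g => tf_bl hL hδ)
    (hW.comp continuous_up).measurable fun u hu g => by
      simp only [up_mul]; exact hU _ hu.up _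
  refine a.trans ?_
  have e : C * C' * NL N T δ = C * dl (tT N T) * δ ^ (N ^ 2 + N.choose 2) * C' := by
    rw [NL]; ring
  have := dl_pos (tT_pos (k := N) hT)
  have := hδ.1
  rw [e, ENNReal.ofReal_mul (q := C') (by positivity), mul_assoc _ (ENNReal.ofReal C')]
  refine mul_le_mul_right ?_ _
  rw [KK, II, II, ← lintegral_const_mul' _ _ ENNReal.ofReal_ne_top]
  refine lintegral_mono fun x => ?_
  beta_reduce
  rw [← mul_assoc, ← ENNReal.ofReal_mul h0'.le]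
  refine mul_le_mul_left ?_ _
  by_cases b : sg N x ∈ Om (dg (tT N T)) δ
  · rw [Set.indicator_of_mem b, Pi.one_apply, ENNReal.one_le_ofReal]
    exact H' T δ hT hδ _ b s h1 h3
  · rw [Set.indicator_of_notMem b]; exact zero_le

lemma pw_id (N : ℕ) {s T : ℝ} (h : s * T = 1) : s ^ (N ^ 2 * 2 + ((N + 1) ^ 2 + (N + 1).choose 2)) =
    s ^ (N ^ 2 + N.choose 2 + (N + 1) ^ 2 * 2) * T ^ (N + 1) := by
  have e : N ^ 2 + N.choose 2 + (N + 1) ^ 2 * 2 =
      (N ^ 2 * 2 + ((N + 1) ^ 2 + (N + 1).choose 2)) + (N + 1) := by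
    rw [Nat.choose_succ_succ' N 1, Nat.choose_one_right]
    ring
  rw [e, pow_add _ _ (N + 1), mul_assoc, ← mul_pow, h, one_pow, mul_one]

/-- upper bound for the smoothed functional -/
lemma lam_upper (hC : CalcStmt) (hL : Loc0Stmt) (N : ℕ) {c1 c2 : ℝ} (h1 : Ok (N + 1) (4 * c1))
    (h2 : 0 < c2) (h21 : c2 ≤ c1) : ∃ C : ℝ, 0 < C ∧ ∀ T, 1 ≤ T →
    ∀ W : G (N + 1) → ℂ, Continuous W → UInv (fun g => ‖W g‖) →
    ‖L0 T (c1 / T) (conv (tf (c2 / T)) W)‖ₑ ^ 2 ≤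
      ENNReal.ofReal (C * (NL N T (c1 / T) * It (N + 1) (c2 / T) ^ 2) *
        T ^ (N + 1 + (N + 1).choose 2)) *
      II (N + 1) fun g => (Om (up (dg (tT N T))) (4 * c1 / T)).indicator 1 g * ‖W g‖ₑ ^ 2 := by
  obtain ⟨C, h0, H⟩ := hL.upper (N + 1)
  obtain ⟨K, hK, HK⟩ := vol_it hC hL N
  obtain ⟨K', hK', HK'⟩ := vol_it hC hL (N + 1)
  have hc1 : 0 < c1 := h2.trans_le h21
  refine ⟨(K * c1 ^ N ^ 2) ^ 2 * C * (4 * c1) ^ ((N + 1) ^ 2 + (N + 1).choose 2) * K' ^ 2 /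
    (c1 ^ (N ^ 2 + N.choose 2) * (c2 ^ (N + 1) ^ 2) ^ 2), by positivity, fun T hT W hW hU => ?_⟩
  have hT0 : 0 < T := by linarith
  have o4 : Ok (N + 1) (4 * c1 / T) := h1.div hT
  have o1 : Ok (N + 1) (c1 / T) := (h1.mono hc1 (by linarith)).div hT
  have o2 : Ok (N + 1) (c2 / T) := (h1.mono h2 (by linarith)).div hT
  have ha : ∀ i, 0 < (Fin.snoc (tT N T) 1 : Fin (N + 1) → ℝ) i := fun i => by
    refine Fin.lastCases ?_ (fun i => ?_) i <;> simp [tT_pos hT]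
  rw [up_dg fun i => (tT_pos hT i).ne']
  set J := II (N + 1) fun g => (Om (dg (Fin.snoc (tT N T) 1)) (4 * c1 / T)).indicator 1 g *
    ‖W g‖ₑ ^ 2
  obtain ⟨m, hm⟩ := exists_sqrt (ENNReal.ofReal (C * dl (Fin.snoc (tT N T) 1 : Fin (N + 1) → ℝ) *
    (4 * c1 / T) ^ ((N + 1) ^ 2 + (N + 1).choose 2)) * J)
  have a1 : ∀ x ∈ Bl N (c1 / T), ‖tf (c1 / T) x * conv (tf (c2 / T)) W (up (dg (tT N T) * x))‖ₑ ≤
      m := fun x hx => by
    have b1 := H _ ha _ o4.1 o4.2 (fun g => tf (c2 / T) ((up x)⁻¹ * g)) W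
      ((tf_cont hC hL o2).comp (continuous_const.mul continuous_id)).measurable
      (fun g => (tf_norm hL o2 _).1) (fun g hg => by
        have := (hL.mul _ _ _ o1.2 o2.2 _ (up_bl o1.1 hx) _ (tf_bl hL o2 hg)).1
        rw [mul_inv_cancel_left] at this
        refine bl_mono ?_ this
        rw [← add_div, ← mul_div_assoc]
        exact div_le_div_of_nonneg_right (by linarith) hT0.le) hW.measurable hU
    rw [← hm, ENNReal.pow_le_pow_left_iff two_ne_zero, ← integral_mul_left_eq_self _ (up x)] at b1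
    simp only [inv_mul_cancel_left] at b1
    rw [enorm_mul, ← one_mul m]
    refine mul_le_mul' ?_ ?_
    · rw [← ofReal_norm, ENNReal.ofReal_le_one]; exact (tf_norm hL o1.pred _).1
    · simpa only [conv, up_mul, up_dg fun i => (tT_pos hT i).ne', mul_assoc] using b1
  have a2 := (enorm_integral_le_lintegral_enorm _).trans ((lint_le hL a1 fun g hg =>
    tf_bl hL o1.pred (left_ne_zero_of_mul hg)).trans (mul_le_mul_right (HK _ o1.pred).2.2 m))
  refine (pow_le_pow_left' a2 2).trans ?_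
  rw [mul_pow, hm, mul_right_comm, ← ENNReal.ofReal_pow (by have := o1.1; positivity),
    ← ENNReal.ofReal_mul (by have := dl_pos ha; have := o4.1; positivity)]
  refine mul_le_mul_left (ENNReal.ofReal_le_ofReal ?_) _
  have a3 : ((c2 / T) ^ (N + 1) ^ 2) ^ 2 ≤ (K' * It (N + 1) (c2 / T)) ^ 2 :=
    pow_le_pow_left₀ (by have := o2.1; positivity) (HK' _ o2).1 2
  have a4 := pw_id N (inv_mul_cancel₀ hT0.ne')
  have hd := dl_pos (tT_pos (k := N) hT)
  rw [dl_snoc, prod_tT, NL]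
  generalize It (N + 1) (c2 / T) = I at a3 ⊢
  simp only [div_eq_mul_inv _ T, mul_pow, ← pow_mul] at a3 ⊢
  rw [pow_add, pow_add T⁻¹ (N ^ 2 + N.choose 2)] at a4
  generalize T⁻¹ ^ (N ^ 2 * 2) = s1 at a4 ⊢
  generalize T⁻¹ ^ ((N + 1) ^ 2 + (N + 1).choose 2) = s2 at a4 ⊢
  have p3 : 0 < T⁻¹ ^ (N ^ 2 + N.choose 2) := by positivity
  generalize T⁻¹ ^ (N ^ 2 + N.choose 2) = s3 at a4 p3 ⊢
  generalize T⁻¹ ^ ((N + 1) ^ 2 * 2) = s4 at a3 a4 ⊢
  rw [pow_add T]
  generalize (N + 1) ^ 2 + (N + 1).choose 2 = e1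
  generalize N ^ 2 * 2 = e2
  generalize N ^ 2 + N.choose 2 = e3
  generalize (N + 1) ^ 2 * 2 = e4 at a3 ⊢
  generalize (N + 1).choose 2 = e5
  have a5 : s4 ≤ K' ^ 2 * I ^ 2 / c2 ^ e4 := by
    rw [le_div_iff₀ (by positivity)]; linarith
  calc _ = C * dl (tT N T) * T ^ e5 * 4 ^ e1 * c1 ^ e1 * K ^ 2 * c1 ^ e2 * (s1 * s2) := by ring
    _ = C * dl (tT N T) * T ^ e5 * 4 ^ e1 * c1 ^ e1 * K ^ 2 * c1 ^ e2 * s3 * T ^ (N + 1) * s4 := by
      rw [a4]; ring
    _ ≤ C * dl (tT N T) * T ^ e5 * 4 ^ e1 * c1 ^ e1 * K ^ 2 * c1 ^ e2 * s3 * T ^ (N + 1) *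
        (K' ^ 2 * I ^ 2 / c2 ^ e4) := mul_le_mul_of_nonneg_left a5 (by positivity)
    _ = _ := by field_simp

/-! ### Lower bound -/

lemma iso_cancel {α : ℕ → Fin (N + 1) → ℂ} {R : ℝ} (hI : Iso α R) {w w' : G (N + 1) → ℂ}
    (hw : InV α w) (hw' : InV α w') {a : ℝ≥0∞} (h : N2 w' ≤ a * N2 w) :
    KK 1 (W1 w') ≤ a * KK 1 (W1 w) := by
  rw [hI.2 w hw, hI.2 w' hw', mul_left_comm] at h
  exact (ENNReal.mul_le_mul_iff_right (by simpa using hI.1) ENNReal.ofReal_ne_top).1 h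

lemma lam_lower (hC : CalcStmt) (hW : WhStmt) (hV : ClassStmt) (hL : Loc0Stmt)
    {T δ c2 cL C1 R : ℝ} {α : ℕ → Fin (N + 1) → ℂ} {γ : ℕ → ℂ} {w : G (N + 1) → ℂ} (hT : 1 ≤ T)
    (hδ : Ok N δ) (h2 : Ok (N + 1) (4 * c2)) (hcL : 0 < cL) (hC1 : 0 < C1)
    (hq : 16 * (N + 1) ^ 3 * c2 * Real.sqrt (C1 / cL) ≤ 1)
    (H1 : ∀ w, InV α w → Cen γ w → ∀ a b, ‖L0 T δ (W1 (Rd (em a b) w))‖ₑ ^ 2 ≤
      ENNReal.ofReal (C1 * T ^ 2 * NL N T δ) * KK 1 (W1 w))
    (hI : Iso α R) (hw : InV α w) (hc : Cen γ w)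
    (H2 : ENNReal.ofReal (cL * NL N T δ) * KK 1 (W1 w) ≤ ‖L0 T δ (W1 w)‖ₑ ^ 2) :
    ∀ g ∈ Bl (N + 1) (c2 / T),
      ENNReal.ofReal (cL / 4 * (NL N T δ * It (N + 1) (c2 / T) ^ 2)) * KK 1 (W1 w) ≤
        ‖L0 T δ (rt g (conv (tf (c2 / T)) (W1 w)))‖ₑ ^ 2 := by
  intro g hg
  have hT0 : 0 < T := by linarith
  have hc2 : 0 < c2 := by linarith [h2.1]
  have o2 : Ok (N + 1) (c2 / T) := (h2.mono hc2 (by linarith)).div hT
  have hs : Sm (W1 w) := (hW.sm N _ w hw.sm).1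
  set q := Real.sqrt (C1 / cL) with hq'
  have q0 : 0 ≤ q := Real.sqrt_nonneg _
  have q2 : q ^ 2 = C1 / cL := Real.sq_sqrt (by positivity)
  have hB : ∀ g a b, ‖L0 T δ (Rd (em a b) (rt g (W1 w)))‖ ≤ q * T * ‖L0 T δ (W1 w)‖ :=
    fun g a b => by
      have v := hV.rtV _ α w hw g
      have e : Rd (em a b) (rt g (W1 w)) = W1 (Rd (em a b) (rt g w)) := by
        rw [W1, ← Wf_rt, (hW.sm N _ _ v.sm).2, W1]
      rw [e]
      refine norm_le_of_sq (by positivity)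
        ((H1 _ v (hV.rtC _ γ w hw.sm hc g) a b).trans (le_trans ?_ (mul_le_mul_right H2 _)))
      rw [← mul_assoc, ← ENNReal.ofReal_mul (by positivity)]
      refine mul_le_mul' (le_of_eq ?_) ?_
      · congr 1
        rw [mul_pow, q2]
        field_simp
      · simpa using iso_cancel hI hw v (a := 1) (by rw [hV.n2rt _ w hw.aut, one_mul])
  have a := l0_lower hC hL T hδ o2 hs g (L0 T δ (W1 w)) fun y hy => by
    have b : g * y ∈ Bl (N + 1) (4 * c2 / T) := by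
      have := (hL.mul _ _ _ o2.2 o2.2 _ hg _ hy).1
      rwa [show 2 * (c2 / T + c2 / T) = 4 * c2 / T by ring] at this
    refine (stab hC hL T hδ (h2.div hT) hs hB b).trans ?_
    have e : 2 * (N + 1) ^ 3 * (4 * c2 / T) * (q * T * ‖L0 T δ (W1 w)‖) =
        16 * (N + 1) ^ 3 * c2 * q * (‖L0 T δ (W1 w)‖ / 2) := by field_simp; ring
    rw [e]
    exact mul_le_of_le_one_left (by positivity) hq
  refine le_trans ?_ (sq_le_of_norm (by have := it_nonneg (N + 1) (c2 / T); positivity) a)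
  refine le_trans (le_of_eq ?_) (mul_le_mul_right H2 _)
  rw [← mul_assoc (ENNReal.ofReal _), ← ENNReal.ofReal_mul (by positivity)]
  congr 2
  ring

/-! ### The nice vector -/

/-- iterated derivative of the test function -/
def Dl (l : List (Fin k × Fin k)) (f : G k → ℂ) : G k → ℂ :=
  (l.map fun x => -em x.1 x.2).foldr (fun A f => Ld A f) f

lemma rw_conv (hC : CalcStmt) {f F : G k → ℂ} (h1 : Sm f) (h2 : HasCompactSupport f)
    (hF : Continuous F) (l : List (Fin k × Fin k)) :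
    Sm (Dl l f) ∧ HasCompactSupport (Dl l f) ∧ Rw l (conv f F) = conv (Dl l f) F := by
  induction l with
  | nil => exact ⟨h1, h2, rfl⟩
  | cons x l ih =>
    obtain ⟨a, b, c⟩ := ih
    refine ⟨hC.ld _ _ _ a, b.isCompact.of_isClosed_subset (isClosed_tsupport _) (hC.supp _ _ _), ?_⟩
    change Rd (em x.1 x.2) (Rw l (conv f F)) = conv (Ld (-em x.1 x.2) (Dl l f)) F
    rw [c, (hC.convL _ _ _ a b hF).2, ld_neg]

lemma iv_lower (hR : RSStmt) {W : G (N + 1) → ℂ} (hW : Continuous W) {δ K s : ℝ}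
    (hδ : Ok (N + 1) δ) (h1 : 1 ≤ s) (h3 : s ≤ 3) {κ : ℝ≥0∞}
    (h : ∀ g ∈ Bl (N + 1) δ, κ ≤ ENNReal.ofReal K * KK s (rt g W)) :
    ENNReal.ofReal ((2 * δ) ^ (N + 1)) * κ ≤ ENNReal.ofReal (4 * K) * Iv s ball2 W := by
  have hm : Measurable (ball2 (k := N + 1)) :=
    Measurable.ite (measurableSet_le measurable_norm measurable_const) measurable_const
      measurable_const
  have hv := Real.volume_pi_ball (Pi.single (Fin.last N) 1 : Fin (N + 1) → ℝ) hδ.1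
  rw [Fintype.card_fin] at hv
  rw [hR.ik N s _ hm W hW, ← hv, mul_comm, ← setLIntegral_const,
    ← lintegral_const_mul' _ _ ENNReal.ofReal_ne_top]
  refine le_trans (setLIntegral_mono' measurableSet_ball fun r hr => ?_)
    (setLIntegral_le_lintegral _ _)
  have a1 : ∀ j, |r j - (Pi.single (Fin.last N) 1 : Fin (N + 1) → ℝ) j| < δ := fun j =>
    (dist_pi_lt_iff hδ.1).1 hr j
  have a2 : 1 / 2 ≤ r (Fin.last N) := by
    have := abs_lt.1 (a1 (Fin.last N))
    rw [Pi.single_eq_same] at this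
    linarith [hδ.half]
  have a3 : ‖r‖ ≤ 2 := by
    have b1 : ‖r - Pi.single (Fin.last N) 1‖ < δ := by rwa [← dist_eq_norm]
    have b2 := norm_le_norm_add_norm_sub' r (Pi.single (Fin.last N) 1 : Fin (N + 1) → ℝ)
    rw [Pi.norm_single, norm_one] at b2
    linarith [hδ.half]
  have a4 : (1 / 4 : ℝ) ≤ |r (Fin.last N)| ^ (s - 1) := by
    have b1 : (1 / 2 : ℝ) ^ (s - 1) ≤ |r (Fin.last N)| ^ (s - 1) :=
      Real.rpow_le_rpow (by norm_num) (a2.trans (le_abs_self _)) (by linarith)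
    have b2 : (1 / 2 : ℝ) ^ ((2 : ℕ) : ℝ) ≤ (1 / 2 : ℝ) ^ (s - 1) :=
      Real.rpow_le_rpow_of_exponent_ge (by norm_num) (by norm_num) (by push_cast; linarith)
    rw [Real.rpow_natCast] at b2
    linarith
  refine (h _ (sr_bl hδ.1 (by linarith) a1)).trans ?_
  rw [ball2, if_pos a3, one_mul, ← mul_assoc]
  refine mul_le_mul_left ?_ _
  rcases le_total K 0 with b | b
  · rw [ENNReal.ofReal_of_nonpos b]; exact zero_le
  · rw [← ENNReal.ofReal_mul (by positivity)]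
    exact ENNReal.ofReal_le_ofReal (by nlinarith)

lemma nice (hC : CalcStmt) (hQ : QuotStmt) (hW : WhStmt) (hR : RSStmt) (hV : ClassStmt)
    (hL : Loc0Stmt) (N : ℕ) {c2 cL : ℝ} (h2 : Ok (N + 1) c2) (hcL : 0 < cL) :
    ∃ CM : ℕ → ℝ, ∀ T δ, 1 ≤ T → Ok N δ → ∀ (α : ℕ → Fin (N + 1) → ℂ) (R : ℝ) (w : G (N + 1) → ℂ),
      Iso α R → w ≠ 0 → InV α w → (∀ g ∈ Bl (N + 1) (c2 / T),
        ENNReal.ofReal (cL / 4 * (NL N T δ * It (N + 1) (c2 / T) ^ 2)) * KK 1 (W1 w) ≤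
          ‖L0 T δ (rt g (conv (tf (c2 / T)) (W1 w)))‖ₑ ^ 2) →
      Nice CM T α (conv (tf (c2 / T)) w) := by
  obtain ⟨Cu, hCu, HU⟩ := l0_upper hC hL N
  obtain ⟨K, hK, HK⟩ := vol_it hC hL (N + 1)
  choose Cl hCl0 hCl using fun l : List (Fin (N + 1) × Fin (N + 1)) =>
    hL.der (N + 1) c2 h2.1 h2.2 (fun _ => 1) (hC.const _ 1) (l.map fun x => -em x.1 x.2)
  have hc2 := h2.1
  set K1 := 4 * Cu / cL with hK1
  have K0 : 0 < K1 := by positivity
  have S0 : ∀ M, 0 ≤ ∑ l ∈ (List.finite_length_le (Fin (N + 1) × Fin (N + 1)) M).toFinset,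
      (Cl l * K) ^ 2 * K1 := fun M => Finset.sum_nonneg fun l _ => by positivity
  refine ⟨fun M => (∑ l ∈ (List.finite_length_le (Fin (N + 1) × Fin (N + 1)) M).toFinset,
    (Cl l * K) ^ 2 * K1) + 4 * K1 / (2 * c2) ^ (N + 1), fun T δ hT hδ α R w hI hw0 hw H => ?_⟩
  have hT0 : 0 < T := by linarith
  have o2 : Ok (N + 1) (c2 / T) := h2.div hT
  have hn := nl_pos (N := N) hT hδ.1
  have hw' : InV α (conv (tf (c2 / T)) w) :=
    hV.convV _ α w hw.aut hw.cusp hw.hk (hw.l2 []) _ (tf_sm hL o2) (tf_cs hL o2)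
  have eW : W1 (conv (tf (c2 / T)) w) = conv (tf (c2 / T)) (W1 w) :=
    hW.conv N _ _ w (tf_cont hC hL o2) (tf_cs hL o2) hw.aut.cont
  have cW : Continuous (W1 (conv (tf (c2 / T)) w)) := hW.cont N _ _ hw'.aut.cont
  rw [← eW] at H
  have i0 : 0 < It (N + 1) (c2 / T) := by
    have a := (HK _ o2).1
    have b : 0 < (c2 / T) ^ (N + 1) ^ 2 := pow_pos o2.1 _
    exact (mul_pos_iff_of_pos_left hK).1 (b.trans_le a)
  have yg := hV.young _ _ w (tf_cont hC hL o2) (tf_cs hL o2) hw.aut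
  rw [lint_tf hC hL o2, ← ENNReal.ofReal_pow i0.le] at yg
  have dr := fun l => rw_conv hC (tf_sm hL o2) (tf_cs hL o2) hw.aut.cont l
  have mB := (HK _ o2).2.1
  generalize conv (tf (c2 / T)) w = w' at *
  generalize It (N + 1) (c2 / T) = I at *
  have st : ∀ g ∈ Bl (N + 1) (c2 / T), ∀ s : ℝ, 1 ≤ s → s ≤ 3 →
      ENNReal.ofReal (I ^ 2) * KK 1 (W1 w) ≤ ENNReal.ofReal K1 * KK s (rt g (W1 w')) :=
    fun g hg s h1 h3 => by
      have a := scale (t := 4 / (cL * NL N T δ)) (by positivity) ((H g hg).trans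
        (HU T δ hT hδ _ (cW.comp (continuous_mul_const g)) (uinv_rt (uinv_w1 hW hw'.aut) g) s h1 h3))
      have e1 : 4 / (cL * NL N T δ) * (cL / 4 * (NL N T δ * I ^ 2)) = I ^ 2 := by field_simp
      have e2 : 4 / (cL * NL N T δ) * (Cu * NL N T δ) = K1 := by rw [hK1]; field_simp
      rwa [e1, e2] at a
  have n2 : ENNReal.ofReal (I ^ 2) * N2 w ≤ ENNReal.ofReal K1 * N2 w' := by
    have a := st 1 (one_bl o2.1) 1 le_rfl (by norm_num)
    have r1 : rt (1 : G (N + 1)) (W1 w') = W1 w' := by ext g; simp [rt]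
    rw [r1] at a
    rw [hI.2 w hw, hI.2 w' hw', mul_left_comm, mul_left_comm (ENNReal.ofReal K1)]
    exact mul_le_mul_right a _
  refine ⟨fun e => hw0 (hQ.pos _ w hw.aut ?_), hw', fun M => ?_, fun s h1 h3 => ?_⟩
  · have a : N2 w' = 0 := by simp [e, N2]
    rw [a, mul_zero, nonpos_iff_eq_zero, mul_eq_zero] at n2
    exact n2.resolve_left (by simpa using i0.ne')
  · have a : ∀ l : List (Fin (N + 1) × Fin (N + 1)), l.length ≤ M →
        N2 (Rw l w') ≤ ENNReal.ofReal ((Cl l * K) ^ 2 * K1 * T ^ (2 * M)) * N2 w' := fun l hl => by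
      obtain ⟨d1, d2, d3⟩ := dr l
      have e : ((fun _ => 1) * tf (c2 / T) : G (N + 1) → ℂ) = tf (c2 / T) := by ext g; simp
      have b0 := hCl l T hT
      rw [e, List.length_map] at b0
      have b1 : ∫⁻ g, ‖Dl l (tf (c2 / T)) g‖ₑ ∂mu (N + 1) ≤
          ENNReal.ofReal (Cl l * T ^ M) * ENNReal.ofReal (K * I) :=
        (lint_le hL (fun g _ => by
          rw [← ofReal_norm]
          exact ENNReal.ofReal_le_ofReal ((b0 g).1.trans (mul_le_mul_of_nonneg_left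
            (pow_le_pow_right₀ hT hl) (hCl0 l)))) fun g => (b0 g).2).trans (mul_le_mul_right mB _)
      have := hCl0 l
      rw [d3]
      refine (hV.young _ _ w (hC.cont _ _ d1) d2 hw.aut).trans
        ((mul_le_mul_left (pow_le_pow_left' b1 2) _).trans ?_)
      rw [← ENNReal.ofReal_mul (by positivity), ← ENNReal.ofReal_pow (by positivity)]
      have b2 := scale (t := (Cl l * K) ^ 2 * T ^ (2 * M)) (by positivity) n2
      have e1 : (Cl l * T ^ M * (K * I)) ^ 2 = (Cl l * K) ^ 2 * T ^ (2 * M) * I ^ 2 := by ring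
      rwa [← e1, mul_right_comm _ _ K1] at b2
    rw [Sob, tsum_eq_sum (s := (List.finite_length_le (Fin (N + 1) × Fin (N + 1)) M).toFinset)
      fun l hl => if_neg (by simpa using hl)]
    refine (Finset.sum_le_sum fun l hl => (if_pos (by simpa using hl)).trans_le
      (a l (by simpa using hl))).trans ?_
    rw [← Finset.sum_mul, ← ENNReal.ofReal_sum_of_nonneg fun l _ => by positivity, ← Finset.sum_mul]
    exact mul_le_mul_left (ENNReal.ofReal_le_ofReal (mul_le_mul_of_nonneg_right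
      (le_add_of_nonneg_right (by positivity)) (by positivity))) _
  · have a := scale (t := T ^ (N + 1) / (2 * c2) ^ (N + 1)) (by positivity)
      (iv_lower hR cW o2 h1 h3 fun g hg => (iso_cancel hI hw hw' yg).trans (st g hg s h1 h3))
    have e1 : T ^ (N + 1) / (2 * c2) ^ (N + 1) * (2 * (c2 / T)) ^ (N + 1) = 1 := by
      rw [← mul_div_assoc, div_pow]; field_simp
    rw [e1, ENNReal.ofReal_one, one_mul] at a
    refine a.trans (mul_le_mul_left (ENNReal.ofReal_le_ofReal ?_) _)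
    have e2 : T ^ (N + 1) / (2 * c2) ^ (N + 1) * (4 * K1) =
        4 * K1 / (2 * c2) ^ (N + 1) * T ^ (N + 1) := by ring
    rw [e2]
    exact mul_le_mul_of_nonneg_right (le_add_of_nonneg_left (S0 0)) (by positivity)

end Loc3

open Loc3 in
theorem loc3 (hC : CalcStmt) (hQ : QuotStmt) (hW : WhStmt) (hR : RSStmt) (hV : ClassStmt)
    (hL : Loc0Stmt) (h1 : Loc1Stmt) (h2 : Loc2Stmt) : LocStmt := by
  intro N C0
  obtain ⟨c1, cL, hc1, hc1', hcL, H2⟩ := h2 N
  have hN : (0 : ℝ) ≤ N := Nat.cast_nonneg N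
  have o4 : Ok (N + 1) (4 * c1) := ⟨by positivity, by push_cast; nlinarith⟩
  have o1 : Ok N c1 := (o4.mono hc1 (by linarith)).pred
  obtain ⟨C1, hC1, H1⟩ := h1 N C0 c1 hc1 o1.2
  have q0 := Real.sqrt_nonneg (C1 / cL)
  obtain ⟨c2, hc2, h21, hq⟩ : ∃ c2 : ℝ, 0 < c2 ∧ c2 ≤ c1 ∧
      16 * (N + 1) ^ 3 * c2 * Real.sqrt (C1 / cL) ≤ 1 := by
    refine ⟨min c1 (16 * (N + 1) ^ 3 * (Real.sqrt (C1 / cL) + 1))⁻¹, by positivity,
      min_le_left _ _, ?_⟩
    have a := min_le_right c1 (16 * (N + 1) ^ 3 * (Real.sqrt (C1 / cL) + 1))⁻¹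
    have b : 0 < min c1 (16 * ((N : ℝ) + 1) ^ 3 * (Real.sqrt (C1 / cL) + 1))⁻¹ := by positivity
    rw [le_inv_comm₀ b (by positivity), ← one_div, le_div_iff₀ b] at a
    have c : 0 < 16 * ((N : ℝ) + 1) ^ 3 := by positivity
    nlinarith [mul_pos c b]
  have o8 : Ok (N + 1) (4 * c2) := o4.mono (by positivity) (by linarith)
  have o2 : Ok (N + 1) c2 := o8.mono hc2 (by linarith)
  obtain ⟨C, hC0, HU⟩ := lam_upper hC hL N o4 hc2 h21
  obtain ⟨CM, HN⟩ := nice hC hQ hW hR hV hL N o2 hcL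
  obtain ⟨K, hK, HK⟩ := vol_it hC hL (N + 1)
  refine ⟨4 * c1, 4 * C / cL, CM, by positivity, by linarith, by positivity, fun T hT => ?_⟩
  have p1 := o1.div hT
  have p2 := o2.div hT
  have i0 : 0 < It (N + 1) (c2 / T) :=
    (mul_pos_iff_of_pos_left hK).1 ((pow_pos p2.1 _).trans_le (HK _ p2).1)
  have hn := nl_pos (N := N) hT p1.1
  refine ⟨fun W => L0 T (c1 / T) (conv (tf (c2 / T)) W),
    cL / 4 * (NL N T (c1 / T) * It (N + 1) (c2 / T) ^ 2), by positivity,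
    fun ι S z W hW => ?_, fun W hW hU => ?_, fun α γ R hγ hI hex => ?_⟩
  · beta_reduce
    rw [conv_sum hC hL p2 S z W hW, l0_sum hC hL T p1 S z _ fun i => conv_cont hC hL p2 (hW i)]
  · have e : 4 * C / cL * (cL / 4 * (NL N T (c1 / T) * It (N + 1) (c2 / T) ^ 2)) =
        C * (NL N T (c1 / T) * It (N + 1) (c2 / T) ^ 2) := by field_simp
    rw [e]
    exact HU T hT W hW hU
  · obtain ⟨w, hw0, hw, hc, H⟩ := H2 T hT α γ R hI hex
    have a := lam_lower hC hW hV hL hT p1 o8 hcL hC1 hq (H1 T hT α γ hγ) hI hw hc H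
    refine ⟨⟨w, hw0, hw, ?_⟩, _, HN T _ hT p1 α R w hI hw0 hw a⟩
    have b := a 1 (one_bl p2.1)
    have r1 : ∀ F : G (N + 1) → ℂ, rt (1 : G (N + 1)) F = F := fun F => by ext g; simp [rt]
    rwa [r1] at b

end Pool.Agent.Lib.MP_fa98d2_nt.D
end
end
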