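import Pool.Agent.Lib.MP_fa98d2_nt.D.Calc

-- part Pool.Agent.Lib.MP_fa98d2_nt.D.Bridge
section

/-! The passage from the classical definition of a spherical cusp form to the internal one. -/

open MeasureTheory Filter Topology Matrix
open scoped ENNReal Real ContDiff ComplexConjugate

noncomputable section

namespace Pool.Agent.Lib.MP_fa98d2_nt.D

namespace Bridge

variable {n : ℕ}

/-! ### Calculus -/

lemma sm_of {φ : Mat n → ℂ} (h : SmoothGL φ) : Sm fun g : G n => φ g.val :=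
  ContDiffOn.congr h fun x hx => by simp only [val_mkG hx]

lemma ev_det (A : Mat n) : ∀ᶠ t : ℝ in 𝓝 0, (1 + t • A).det ≠ 0 := by
  have hc : Continuous fun t : ℝ => (1 + t • A).det :=
    Continuous.matrix_det (by fun_prop)
  exact hc.continuousAt.eventually_ne (by simp)

lemma rd_lie (φ : Mat n → ℂ) (i j : Fin n) :
    Rd (em i j) (fun g : G n => φ g.val) = fun g => lie i j φ g.val := by
  funext g
  refine EventuallyEq.deriv_eq ?_
  filter_upwards [ev_det (em i j)] with t ht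
  rw [Units.val_mul, val_mkG ht]
  rfl

lemma gpw_eq (φ : Mat n → ℂ) (m : ℕ) (i j : Fin n) :
    gpw (fun g : G n => φ g.val) m i j = fun g => liePow φ m i j g.val := by
  induction m generalizing i j with
  | zero =>
    simp only [gpw, liePow]
    split_ifs <;> rfl
  | succ m ih =>
    funext g
    simp only [gpw, liePow, ih, rd_lie, Finset.sum_apply]

lemma gel_eq (φ : Mat n → ℂ) (m : ℕ) (g : G n) :
    Gel m (fun g : G n => φ g.val) g = gelfand m φ g.val := by
  simp only [Gel, gelfand, gpw_eq, Finset.sum_apply]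

/-! ### The eigenvalues of the Gelfand invariants -/

/-- the character of the Borel subgroup -/
def chi (ν : Fin n → ℂ) (b : Mat n) : ℂ := ∏ i, ((|b i i| : ℝ) : ℂ) ^ ν i

/-- smooth vectors of the induced representation -/
def indV (hC : CalcStmt) (ν : Fin n → ℂ) : Submodule ℂ (G n → ℂ) where
  carrier := {w | Sm w ∧ ∀ b : G n, (∀ i j, j < i → b.val i j = 0) → ∀ g,
    w (b * g) = chi ν b.val * w g}
  add_mem' := fun {a b} ha hb => ⟨hC.add n a b ha.1 hb.1, fun u hu g => by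
    simp only [Pi.add_apply, ha.2 u hu, hb.2 u hu, mul_add]⟩
  zero_mem' := ⟨hC.const n 0, fun u _ g => by simp⟩
  smul_mem' := fun c a ha => ⟨hC.smul n c a ha.1, fun u hu g => by
    simp only [Pi.smul_apply, ha.2 u hu, smul_eq_mul, mul_left_comm]⟩

lemma rd_mem (hC : CalcStmt) (ν : Fin n → ℂ) (A : Mat n) :
    ∀ w ∈ indV hC ν, Rd A w ∈ indV hC ν := fun w hw =>
  ⟨hC.rd n A w hw.1, fun u hu g => by
    simp only [Rd, mul_assoc, hw.2 u hu, deriv_const_mul_field]⟩

lemma rd_one (hC : CalcStmt) (ν : Fin n → ℂ) {i j : Fin n} (hij : i ≤ j) {w : G n → ℂ}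
    (hw : w ∈ indV hC ν) :
    Rd (em i j) w 1 = deriv (fun t : ℝ => chi ν (1 + t • em i j)) 0 * w 1 := by
  rw [← deriv_mul_const_field]
  refine EventuallyEq.deriv_eq ?_
  filter_upwards [ev_det (em i j)] with t ht
  rw [one_mul, ← mul_one (mkG _), hw.2 _ fun a b hab => ?_, val_mkG ht]
  rw [val_mkG ht]
  have h1 : ¬ (i = a ∧ j = b) := fun h => absurd hij (by rw [h.1, h.2]; exact not_le.2 hab)
  simp [em, Matrix.one_apply_ne hab.ne', h1]

lemma deriv_off (ν : Fin n → ℂ) {i j : Fin n} (hij : i ≠ j) :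
    deriv (fun t : ℝ => chi ν (1 + t • em i j)) 0 = 0 := by
  have : (fun t : ℝ => chi ν (1 + t • em i j)) = fun _ => 1 := by
    funext t
    refine Finset.prod_eq_one fun a _ => ?_
    have h1 : ¬ (i = a ∧ j = a) := fun h => hij (h.1.trans h.2.symm)
    simp [em, h1]
  rw [this, deriv_const]

lemma deriv_diag (ν : Fin n → ℂ) (i : Fin n) :
    deriv (fun t : ℝ => chi ν (1 + t • em i i)) 0 = ν i := by
  have h1 : HasDerivAt (fun z : ℂ => (1 + z) ^ ν i) (ν i * (1 + ((0 : ℝ) : ℂ)) ^ (ν i - 1) * 1)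
      ((0 : ℝ) : ℂ) :=
    ((hasDerivAt_id _).const_add 1).cpow_const (by simp)
  have h2 := h1.comp_ofReal.deriv
  simp only [Complex.ofReal_zero, add_zero, Complex.one_cpow, mul_one] at h2
  rw [← h2]
  refine EventuallyEq.deriv_eq ?_
  filter_upwards [Ioi_mem_nhds (show (-1 : ℝ) < 0 by norm_num)] with t ht
  have ht' : 0 ≤ 1 + t := by linarith [Set.mem_Ioi.1 ht]
  unfold chi
  rw [Finset.prod_eq_single i (fun a _ ha => ?_) (by simp)]
  · simp [em, abs_of_nonneg ht']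
  · simp [em, ha.symm]

lemma hc_bound (hHC : HCStmt) (hC : CalcStmt) (n : ℕ) : ∃ C0 : ℝ, ∀ (μ : Fin n → ℂ)
    (P : Mat n → ℂ), IsPower μ P → ∀ T : ℝ, 1 ≤ T → (∀ i, ‖μ i‖ ≤ T) →
    Gam n C0 T fun m => gelfand m P 1 := by
  choose C hC0 hCb using hHC n
  refine ⟨∑ m ∈ Finset.range (n + 1), C m * (2 * n + 2) ^ m, fun μ P hP T hT hμ m hm => ?_⟩
  set ν : Fin n → ℂ := fun i => μ i + ((n : ℂ) - 1 - 2 * (i.val : ℂ)) / 2 with hν
  obtain ⟨e, hcomm, he, -, hg⟩ := hC.mod n (indV hC ν) (fun w hw => hw.1)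
    fun a b => rd_mem hC ν _
  let L : indV hC ν →ₗ[ℂ] ℂ := (LinearMap.proj (1 : G n)).comp (indV hC ν).subtype
  have hL : ∀ w : indV hC ν, L w = (w : G n → ℂ) 1 := fun _ => rfl
  have hn : (0 : ℝ) ≤ n := Nat.cast_nonneg _
  obtain ⟨z, hz, hLz⟩ := hCb m (indV hC ν) e hcomm L
    (fun i j hij => LinearMap.ext fun w => by
      rw [LinearMap.comp_apply, hL, he, rd_one hC ν hij.le w.2, deriv_off ν hij.ne]
      simp) ν
    (fun i => LinearMap.ext fun w => by
      rw [LinearMap.comp_apply, hL, he, rd_one hC ν le_rfl w.2, deriv_diag]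
      rfl) ((2 * n + 2) * T) (by nlinarith) (fun i => by
      have h1 : ‖((n : ℂ) - 1 - 2 * (i.val : ℂ)) / 2‖ ≤ 2 * n + 1 := by
        have h2 : (i.val : ℝ) ≤ n := by exact_mod_cast i.2.le
        have h3 : ((n : ℂ) - 1 - 2 * (i.val : ℂ)) / 2 =
            ((((n : ℝ) - 1 - 2 * (i.val : ℝ)) / 2 : ℝ) : ℂ) := by push_cast; ring
        have h4 : (0 : ℝ) ≤ i.val := Nat.cast_nonneg _
        rw [h3, Complex.norm_real, Real.norm_eq_abs, abs_le]
        constructor <;> linarith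
      refine (norm_add_le _ _).trans ?_
      nlinarith [hμ i])
  have hPV : (fun g : G n => P g.val) ∈ indV hC ν :=
    ⟨sm_of hP.smooth, fun b hb g => hP.left _ _ (det_ne b) (det_ne g) hb⟩
  have h1 := LinearMap.congr_fun hLz ⟨_, hPV⟩
  rw [LinearMap.comp_apply, hL, hg, LinearMap.smul_apply, hL] at h1
  simp only [gel_eq, Units.val_one, hP.one, smul_eq_mul, mul_one] at h1
  have h2 : C m * (2 * n + 2) ^ m ≤ ∑ m ∈ Finset.range (n + 1), C m * (2 * n + 2) ^ m :=
    Finset.single_le_sum (f := fun m => C m * (2 * (n : ℝ) + 2) ^ m)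
      (fun i _ => mul_nonneg (hC0 i) (by positivity)) (Finset.mem_range.2 (Nat.lt_succ_of_le hm))
  refine (congrArg norm h1).trans_le (hz.trans ?_)
  rw [mul_pow, ← mul_assoc]
  gcongr

/-! ### Constant terms -/

/-- the columns above the diagonal -/
def cols : ∀ k, E k → Y k
  | 0, _ => ()
  | k + 1, x => (cols k fun a b => x a.castSucc b.castSucc, fun a => x a.castSucc (Fin.last k))

/-- uniform measure on the unit interval -/
def lam0 : Measure ℝ := volume.restrict (Set.Ico 0 1)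

instance : IsProbabilityMeasure lam0 := ⟨by simp [lam0]⟩

lemma cub_eq (k : ℕ) : cub k = Measure.pi fun _ => lam0 := by
  rw [cub, volume_pi, Measure.restrict_pi_pi]
  rfl

lemma cube_eq (k : ℕ) :
    (volume : Measure (E k)).restrict
      (Set.univ.pi fun _ => Set.univ.pi fun _ => Set.Ico (0 : ℝ) 1) =
      Measure.pi fun _ => cub k := by
  rw [volume_pi, Measure.restrict_pi_pi]
  rfl

lemma mp_cols : ∀ k, MeasurePreserving (cols k) (Measure.pi fun _ => cub k) (cY k)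
  | 0 => ⟨measurable_const, by
      change Measure.map (fun _ : E 0 => ()) _ = Measure.dirac ()
      rw [Measure.map_const, measure_univ, one_smul]⟩
  | k + 1 => by
    have h1 := (measurePreserving_snd (μ := cub (k + 1))
      (ν := Measure.pi fun _ : Fin k => cub (k + 1))).comp
      (measurePreserving_piFinSuccAbove (fun _ : Fin (k + 1) => cub (k + 1)) (Fin.last k))
    have h2 : MeasurePreserving (MeasurableEquiv.piFinSuccAbove (fun _ => ℝ) (Fin.last k))
        (cub (k + 1)) (lam0.prod (cub k)) := by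
      rw [cub_eq, cub_eq]
      exact measurePreserving_piFinSuccAbove (fun _ : Fin (k + 1) => lam0) (Fin.last k)
    have h3 := measurePreserving_pi (fun _ : Fin k => cub (k + 1))
      (fun _ : Fin k => lam0.prod (cub k)) fun _ => h2
    have h4 := measurePreserving_arrowProdEquivProdArrow ℝ (Fin k → ℝ) (Fin k)
      (fun _ => lam0) fun _ => cub k
    rw [← cub_eq] at h4
    have h5 := ((mp_cols k).prod (MeasurePreserving.id (cub k))).comp
      (Measure.measurePreserving_swap.comp (h4.comp (h3.comp h1)))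
    have h6 : cols (k + 1) = Prod.map (cols k) id ∘ Prod.swap ∘
        MeasurableEquiv.arrowProdEquivProdArrow ℝ (Fin k → ℝ) (Fin k) ∘
        (fun (a : Fin k → Fin (k + 1) → ℝ) i =>
          MeasurableEquiv.piFinSuccAbove (fun _ => ℝ) (Fin.last k) (a i)) ∘ Prod.snd ∘
        MeasurableEquiv.piFinSuccAbove (fun _ => Fin (k + 1) → ℝ) (Fin.last k) := by
      funext x
      simp [cols, MeasurableEquiv.arrowProdEquivProdArrow, Equiv.arrowProdEquivProdArrow,
        Fin.init]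
      rfl
    rw [h6]
    exact h5

lemma measurable_cb (j : ℕ) : ∀ k, Measurable (cb j k)
  | 0 => measurable_const
  | k + 1 => by
    refine (continuous_nb.measurable.comp (measurable_pi_lambda _ fun i => ?_)).mul
      (continuous_up.measurable.comp ((measurable_cb j k).comp measurable_fst))
    split_ifs
    · exact (measurable_pi_apply i).comp measurable_snd
    · exact measurable_const

lemma val_cb (j : ℕ) : ∀ (k : ℕ) (x : E k), (cb j k (cols k x)).val =
    1 + Matrix.of fun a b : Fin k => if a.val < j ∧ j ≤ b.val then x a b else 0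
  | 0, _ => Subsingleton.elim _ _
  | k + 1, x => by
    simp only [cb, cols, nb_mul_up, val_pb, val_cb j k]
    ext a b
    refine Fin.lastCases ?_ (fun a => ?_) a <;> refine Fin.lastCases ?_ (fun b => ?_) b
    · simp
    · have := b.2
      simp [(Fin.castSucc_ne_last _).symm]
      omega
    · simp [Fin.castSucc_ne_last]
    · simp [Matrix.one_apply]

lemma cusp_of {φ : Mat n → ℂ} {μ : Fin n → ℂ} {α : ℕ → Fin n → ℂ} (h : SphCusp φ μ α)
    (hc : Continuous fun g : G n => φ g.val) : Cusp fun g : G n => φ g.val := by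
  intro j h0 hj g
  have hm : Measurable fun y : Y n => φ (cb j n y * g).val :=
    hc.measurable.comp ((measurable_cb j n).mul_const g)
  rw [← (mp_cols n).map_eq, integral_map (mp_cols n).measurable.aemeasurable
    hm.aestronglyMeasurable, ← cube_eq, ← h.cusp j h0 hj g.val (det_ne g)]
  simp only [Units.val_mul, val_cb]

/-! ### Hecke operators and square integrability -/

lemma det_hmat {p : ℕ} (hp : p ≠ 0) (I : Finset (Fin n)) {v : Fin n → Fin n → ℕ}
    (hv : v ∈ reps p I) : (hmat ℝ p I v).det ≠ 0 := by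
  rw [Matrix.det_of_isUpperTriangular]
  · refine Finset.prod_ne_zero_iff.2 fun a _ => ?_
    by_cases h : a ∈ I <;> simp [hmat, h, hp]
  · intro a b hab
    have h1 := Fintype.mem_piFinset.1 (Fintype.mem_piFinset.1 hv a) b
    have h2 : b < a := hab
    rw [if_neg fun h => absurd h.1 (not_lt.2 h2.le), Finset.mem_singleton] at h1
    simp [hmat, h2.ne', h1]

lemma hk_of {φ : Mat n → ℂ} {μ : Fin n → ℂ} {α : ℕ → Fin n → ℂ} (h : SphCusp φ μ α) :
    Hk α fun g : G n => φ g.val := by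
  intro p hp r hr g
  rw [esy, ← h.hecke p hp r hr g.val (det_ne g)]
  refine Finset.sum_congr rfl fun I _ => Finset.sum_congr rfl fun v hv => ?_
  simp only [Units.val_mul, hm, val_mkG (det_hmat hp.ne_zero I hv)]
  rfl

lemma l2_of (hQ : QuotStmt) {φ : Mat n → ℂ} {μ : Fin n → ℂ} {α : ℕ → Fin n → ℂ}
    (h : SphCusp φ μ α) (ha : Aut fun g : G n => φ g.val) :
    N2 (fun g : G n => φ g.val) < ⊤ := by
  obtain ⟨D, hD, huniq, hfin⟩ := h.sqInt
  have hF : Measurable fun g : G n => ‖φ g.val‖ₑ ^ 2 := ha.cont.measurable.enorm.pow_const 2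
  have hS : Measurable (Shl (k := n) 1 2) :=
    Measurable.ite ((measurableSet_le measurable_const measurable_dt).inter
      (measurableSet_le measurable_dt measurable_const)) measurable_const measurable_const
  have hSF : Measurable fun g : G n => Shl 1 2 g * ‖φ g.val‖ₑ ^ 2 := hS.mul hF
  have hβ : Measurable fun g : G n => D.indicator (1 : E n → ℝ≥0∞) (co g) :=
    (measurable_one.indicator hD).comp continuous_co.measurable
  have hsum : ∀ g : G n, ∑' γ : GZ n, D.indicator (1 : E n → ℝ≥0∞) (co (iz γ * g)) = 1 := by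
    intro g
    obtain ⟨γ, h1, h2⟩ := huniq g.val (det_ne g)
    have h3 : co (iz γ * g) ∈ D := h1
    rw [tsum_eq_single γ fun γ' hγ => Set.indicator_of_notMem (a := co (iz γ' * g))
      (fun hh => hγ (h2 γ' hh)) _, Set.indicator_of_mem h3, Pi.one_apply]
  have hz : ZInv fun g : G n => Shl 1 2 g * ‖φ g.val‖ₑ ^ 2 := fun γ g => by
    have : φ (iz γ * g).val = φ g.val := ha.zinv γ g
    simp only [Shl, dt_mul, dt_iz, one_mul, this]
  have hΨ : Measurable fun x : E n => D.indicator (1 : E n → ℝ≥0∞) x *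
      (Shl 1 2 (mkG (Matrix.of x)) * ‖φ (mkG (Matrix.of x)).val‖ₑ ^ 2) :=
    (measurable_one.indicator hD).mul (hSF.comp measurable_mkG)
  have hshell : MeasurableSet
      (D ∩ {x : E n | 1 ≤ |(Matrix.of x).det| ∧ |(Matrix.of x).det| ≤ 2}) :=
    hD.inter ((measurableSet_le measurable_const continuous_detE.measurable.abs).inter
      (measurableSet_le continuous_detE.measurable.abs measurable_const))
  have h1 := lintegral_mu _ hΨ
  simp only [mkG_co] at h1
  rw [N2, hQ.nuQ n _ hF, ← hQ.indep n _ _ hβ hSF hsum hz, h1]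
  refine lt_of_le_of_lt ?_ hfin
  rw [← lintegral_indicator hshell]
  refine le_trans (setLIntegral_mono' measurableEmbedding_co.measurableSet_range ?_)
    (setLIntegral_le_lintegral _ _)
  rintro _ ⟨g, rfl⟩
  by_cases hg : co g ∈ D ∩ {x : E n | 1 ≤ |(Matrix.of x).det| ∧ |(Matrix.of x).det| ≤ 2}
  · have h2 : 1 ≤ dt g ∧ dt g ≤ 2 := hg.2
    rw [Set.indicator_of_mem hg, Set.indicator_of_mem hg.1, mkG_co, Shl, if_pos h2, dens,
      of_co, Pi.one_apply, one_mul, one_mul, ← ofReal_norm,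
      ← ENNReal.ofReal_pow (norm_nonneg _), ← ENNReal.ofReal_mul (by positivity), inv_pow,
      div_eq_inv_mul]
  · by_cases hgD : co g ∈ D
    · have h2 : ¬ (1 ≤ dt g ∧ dt g ≤ 2) := fun h2 => hg ⟨hgD, h2⟩
      simp [Shl, h2]
    · simp [Set.indicator_of_notMem hgD]

end Bridge

open Bridge in
theorem bridge (hHC : HCStmt) (hC : CalcStmt) (hQ : QuotStmt) : BridgeStmt := by
  intro n
  obtain ⟨C0, hC0⟩ := hc_bound hHC hC n
  refine ⟨C0, fun φ μ α h T hT hμ => ?_⟩
  have hs := sm_of h.smooth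
  have ha : Aut fun g : G n => φ g.val :=
    ⟨hC.cont n _ hs, fun γ g => h.inv γ g.val (det_ne g), fun t ht g => by
      simp only [val_sc_mul ht]
      exact h.cen t ht g.val (det_ne g)⟩
  obtain ⟨P, hP, hgel⟩ := h.arch
  refine ⟨⟨ha, cusp_of h ha.cont, hk_of h, l2_of hQ h ha, fun h0 => ?_, fun a hO => ?_⟩, hs,
    h.prod_eq, fun m => gelfand m P 1, hC0 μ P hP T hT hμ, fun m => ?_⟩
  · obtain ⟨g, hg, hne⟩ := h.nonzero
    have := congrFun h0 (mkG g)
    rw [val_mkG hg] at this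
    exact hne this
  · funext g
    exact h.sph a.val hO g.val (det_ne g)
  · funext g
    rw [gel_eq, hgel m g.val (det_ne g)]
    rfl

end Pool.Agent.Lib.MP_fa98d2_nt.D
end
end

-- part Pool.Agent.Lib.MP_fa98d2_nt.D.Main
section

/-! Density theorem for cusp forms on PGL(n): the duality argument and the final deduction. -/

open MeasureTheory Filter Topology Matrix
open scoped ENNReal Real ContDiff ComplexConjugate

noncomputable section

namespace Pool.Agent.Lib.MP_fa98d2_nt.D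

namespace Main

variable {k N : ℕ}

lemma memLp {F : G k → ℂ} (hF : Continuous F) (h : N2 F < ⊤) : MemLp F 2 (nu k) := by
  refine ⟨hF.measurable.aestronglyMeasurable, ?_⟩
  rw [eLpNorm_lt_top_iff_lintegral_rpow_enorm_lt_top (by norm_num) (by norm_num)]
  simpa [N2] using h

lemma intg {F F' : G k → ℂ} (hF : MemLp F 2 (nu k)) (hF' : MemLp F' 2 (nu k)) :
    Integrable (fun g => F g * conj (F' g)) (nu k) := by
  have h : MemLp (fun g => conj (F' g)) 2 (nu k) := hF'.star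
  exact hF.integrable_mul h

lemma n2_eq {F : G k → ℂ} (hF : MemLp F 2 (nu k)) :
    N2 F = ENNReal.ofReal (ip F F).re := by
  have h1 : ip F F = ((∫ g, ‖F g‖ ^ 2 ∂nu k : ℝ) : ℂ) := by
    rw [ip, ← integral_complex_ofReal]
    congr 1; ext g
    rw [Complex.mul_conj, Complex.normSq_eq_norm_sq]
  have h2 : Integrable (fun g => ‖F g‖ ^ 2) (nu k) := by
    have := (intg hF hF).norm
    refine this.congr (Eventually.of_forall fun g => ?_)
    simp [sq]
  rw [h1, Complex.ofReal_re, ofReal_integral_eq_lintegral_ofReal h2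
    (Eventually.of_forall fun g => by positivity), N2]
  congr 1; ext g
  rw [ENNReal.ofReal_pow (norm_nonneg _), ofReal_norm_eq_enorm]

lemma ip_self {F : G k → ℂ} (hF : MemLp F 2 (nu k)) : ip F F = ((N2 F).toReal : ℂ) := by
  have h1 : ip F F = ((∫ g, ‖F g‖ ^ 2 ∂nu k : ℝ) : ℂ) := by
    rw [ip, ← integral_complex_ofReal]
    congr 1; ext g
    rw [Complex.mul_conj, Complex.normSq_eq_norm_sq]
  rw [n2_eq hF, h1, Complex.ofReal_re, ENNReal.toReal_ofReal (integral_nonneg fun g => by positivity)]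

/-- Pythagoras -/
lemma n2_sum {ι : Type} [Fintype ι] (w : ι → G k → ℂ) (hw : ∀ j, MemLp (w j) 2 (nu k))
    (ho : ∀ i j, i ≠ j → ip (w i) (w j) = 0) (z : ι → ℂ) :
    N2 (fun g => ∑ j, z j * w j g) = ENNReal.ofReal (∑ j, ‖z j‖ ^ 2 * (N2 (w j)).toReal) := by
  classical
  have hF : MemLp (fun g => ∑ j, z j * w j g) 2 (nu k) :=
    memLp_finset_sum _ fun j _ => (hw j).const_mul (z j)
  rw [n2_eq hF]
  congr 1
  have h1 : ip (fun g => ∑ j, z j * w j g) (fun g => ∑ j, z j * w j g) =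
      ∑ i, ∑ j, z i * conj (z j) * ip (w i) (w j) := by
    unfold ip
    have : ∀ g, (∑ j, z j * w j g) * conj (∑ j, z j * w j g) =
        ∑ i, ∑ j, z i * conj (z j) * (w i g * conj (w j g)) := by
      intro g
      rw [map_sum, Finset.sum_mul_sum]
      refine Finset.sum_congr rfl fun i _ => Finset.sum_congr rfl fun j _ => ?_
      rw [map_mul]; ring
    simp_rw [this]
    rw [integral_finset_sum _ fun i _ => integrable_finset_sum _ fun j _ =>
      (intg (hw i) (hw j)).const_mul _]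
    refine Finset.sum_congr rfl fun i _ => ?_
    rw [integral_finset_sum _ fun j _ => (intg (hw i) (hw j)).const_mul _]
    refine Finset.sum_congr rfl fun j _ => ?_
    rw [integral_const_mul]
  have h2 : ∀ i, ∑ j, z i * conj (z j) * ip (w i) (w j) =
      ((‖z i‖ ^ 2 * (N2 (w i)).toReal : ℝ) : ℂ) := by
    intro i
    rw [Finset.sum_eq_single i (fun j _ hj => by rw [ho i j (Ne.symm hj), mul_zero])
      (fun h => (h (Finset.mem_univ _)).elim), ip_self (hw i), Complex.mul_conj,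
      Complex.normSq_eq_norm_sq]
    push_cast; ring
  rw [h1]
  simp_rw [h2]
  rw [← Complex.ofReal_sum, Complex.ofReal_re]

lemma wf_sum (hW : WhStmt) {ι : Type} (S : Finset ι) (m : Fin k → ℤ) (w : ι → G (k + 1) → ℂ)
    (hw : ∀ j, Continuous (w j)) (z : ι → ℂ) :
    Wf m (fun g => ∑ j ∈ S, z j * w j g) = fun g => ∑ j ∈ S, z j * Wf m (w j) g := by
  classical
  induction S using Finset.induction_on with
  | empty =>
    have := hW.smul k m 0 0
    simp only [zero_smul] at this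
    simp only [Finset.sum_empty]
    exact this
  | insert a S ha ih =>
    have e : (fun g => ∑ j ∈ insert a S, z j * w j g) =
        z a • w a + fun g => ∑ j ∈ S, z j * w j g := by
      ext g; simp [Finset.sum_insert ha]
    have hc : Continuous fun g => ∑ j ∈ S, z j * w j g :=
      continuous_finset_sum _ fun j _ => continuous_const.mul (hw j)
    rw [e, hW.add k m _ _ ((hw a).const_smul _) hc, ih, hW.smul]
    ext g; simp [Finset.sum_insert ha]

lemma aut_sum {ι : Type} [Fintype ι] (w : ι → G k → ℂ) (hw : ∀ j, Aut (w j)) (z : ι → ℂ) :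
    Aut fun g => ∑ j, z j * w j g :=
  ⟨continuous_finset_sum _ fun j _ => continuous_const.mul (hw j).cont,
    fun γ g => Finset.sum_congr rfl fun j _ => by rw [(hw j).zinv],
    fun t ht g => Finset.sum_congr rfl fun j _ => by rw [(hw j).sinv t ht]⟩

lemma tm_pos (m : Fin N → ℕ+) (i : Fin (N + 1)) : 0 < tm m i := by
  unfold tm
  refine Finset.prod_pos fun j _ => ?_
  split_ifs
  · exact_mod_cast (m j).pos
  · exact one_pos

lemma dl_pos {a : Fin k → ℝ} (ha : ∀ i, 0 < a i) : 0 < dl a :=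
  Finset.prod_pos fun i _ => Finset.prod_pos fun j _ => div_pos (ha i) (ha j)

lemma norm_psi (m : Fin k → ℝ) (u : G (k + 1)) : ‖psi m u‖ = 1 := norm_ee _

lemma lam_single (l : ℕ) :
    lam (Pi.single (0 : Fin (N + 1)) l) = Pi.single 0 l := by
  ext i
  unfold lam
  rw [Finset.sum_eq_single 0]
  · by_cases h : i = 0
    · subst h; simp
    · have : ¬ i.val ≤ 0 := fun h' => h (Fin.ext (Nat.le_zero.1 h'))
      simp [h, this]
  · intro j _ hj; simp [hj]
  · intro h; exact (h (Finset.mem_univ _)).elim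

lemma mulf_m1 {p : ℕ} (hp : p.Prime) (l : ℕ) (a : ℕ → (Fin (N + 1) → ℕ) → ℂ) (h0 : a p 0 = 1) :
    mulf a (m1 N ⟨p ^ l, pow_pos hp.pos l⟩) = a p (Pi.single 0 l) := by
  have h1 : ∏ i, ((m1 N ⟨p ^ l, pow_pos hp.pos l⟩ i : ℕ+) : ℕ) = p ^ l := by
    rw [Finset.prod_eq_single 0]
    · simp [m1]
    · intro j _ hj; simp [m1, hj]
    · intro h; exact (h (Finset.mem_univ _)).elim
  have h2 : (fun i => ((m1 N ⟨p ^ l, pow_pos hp.pos l⟩ i : ℕ+) : ℕ).factorization p) =
      Pi.single 0 l := by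
    ext i
    by_cases h : i = 0
    · subst h; simp [m1, hp.factorization_pow]
    · simp [m1, h]
  unfold mulf
  rw [h1]
  rcases Nat.eq_zero_or_pos l with rfl | hl
  · simp [h0]
  · rw [Nat.primeFactors_prime_pow hl.ne' hp, Finset.prod_singleton, h2]

lemma uz_of_aut {F : G k → ℂ} (h : Aut F) : UZInv F := fun γ _ g => h.zinv γ g

/-- the duality step -/
lemma dual {ι : Type} [Fintype ι] (x : ι → ℂ) (n : ι → ℝ) (hn : ∀ j, 0 < n j) (K : ℝ)
    (hK : 0 ≤ K) (h : ∀ z : ι → ℂ, ‖∑ j, z j * x j‖ ^ 2 ≤ K * ∑ j, ‖z j‖ ^ 2 * n j) :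
    ∑ j, ‖x j‖ ^ 2 / n j ≤ K := by
  have h1 := h fun j => conj (x j) / n j
  set A := ∑ j, ‖x j‖ ^ 2 / n j with hA
  have e1 : ∑ j, conj (x j) / n j * x j = (A : ℂ) := by
    rw [hA, Complex.ofReal_sum]
    refine Finset.sum_congr rfl fun j _ => ?_
    rw [div_mul_eq_mul_div, mul_comm, Complex.mul_conj, Complex.normSq_eq_norm_sq]
    push_cast; rfl
  have e2 : ∑ j, ‖conj (x j) / n j‖ ^ 2 * n j = A := by
    refine Finset.sum_congr rfl fun j _ => ?_
    have := (hn j).ne'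
    rw [norm_div, Complex.norm_conj, Complex.norm_real, Real.norm_of_nonneg (hn j).le]
    field_simp
  have hA0 : 0 ≤ A := Finset.sum_nonneg fun j _ => div_nonneg (by positivity) (hn j).le
  rw [e1, e2, Complex.norm_real, Real.norm_of_nonneg hA0] at h1
  rcases hA0.eq_or_lt with h0 | h0
  · rw [← h0]; exact hK
  · nlinarith

/-- the mean square bound for the coefficients at one integer -/
lemma core (hSh : ShinStmt) (hO : OrthStmt) (hI : IsoStmt) (hL : LocStmt) (hR : RBStmt)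
    (hJ : InjStmt) (hW : WhStmt) (hQ : QuotStmt) (N : ℕ) (C0 ε : ℝ) (hε : 0 < ε) :
    ∃ c3 C : ℝ, 0 < c3 ∧ 0 < C ∧ ∀ T : ℝ, 1 ≤ T →
      ∀ (ι : Type) [Fintype ι] (α : ι → ℕ → Fin (N + 2) → ℂ) (γ : ι → ℕ → ℂ)
        (S : ι → ℕ → (Fin (N + 2) → ℕ) → ℂ),
      (∀ j, Pr1 (α j)) → (∀ j, Gam (N + 2) C0 T (γ j)) →
      (∀ j, ∃ w, w ≠ 0 ∧ InV (α j) w ∧ Cen (γ j) w) →
      (∀ i j, i ≠ j → ∃ q : ℕ, q.Prime ∧ ∃ r, r ≤ N + 2 ∧ esy (α i q) r ≠ esy (α j q) r) →
      (∀ j q, q.Prime → IsSch (α j q) (S j q)) →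
      (∀ j q, q.Prime → ∀ i, ‖α j q i‖ ≤ Real.sqrt q) ∧
      ∀ m : ℕ+, ((m : ℕ) : ℝ) ≤ c3 * T ^ (N + 2) →
        ∑ j, ‖mulf (fun q e => S j q (lam e)) (m1 N m)‖ ^ 2 ≤
          C * T ^ ((N + 1 + (N + 2).choose 2 : ℕ) + ε) := by
  obtain ⟨c, CL, CM, hc, hc1, hCL, hL⟩ := hL (N + 1) C0
  obtain ⟨c3, CI, hc3, hCI, hJ⟩ := hJ N c hc (by push_cast at hc1; linarith)
  obtain ⟨CR, hCR, hR⟩ := hR (N + 1) (by omega) CM ε hε
  refine ⟨c3, CL * CI * CR, hc3, by positivity, ?_⟩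
  intro T hT ι _ α γ S hP hG hw hne hS
  have hT0 : 0 < T := by linarith
  obtain ⟨Λ, b, hb, hlin, hup, hlow⟩ := hL T hT
  choose R hRi using fun j => hI (N + 1) (by omega) (α j) (hP j)
    (by obtain ⟨w, h1, h2, -⟩ := hw j; exact ⟨w, h1, h2⟩)
  have hA := fun j => hlow (α j) (γ j) (R j) (hG j) (hRi j) (hw j)
  choose w hw0 hwV hwl using fun j => (hA j).1
  have hRb := fun j => hR T hT (α j) (R j) (hP j) (hRi j) (hA j).2
  refine ⟨fun j => (hRb j).2, fun m hm => ?_⟩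
  set cc : ι → ℂ := fun j => mulf (fun q e => S j q (lam e)) (m1 N m) with hcc
  have hfin : ∀ j, N2 (w j) < ⊤ := fun j => by simpa [Rw] using (hwV j).l2 []
  have hL2 : ∀ j, MemLp (w j) 2 (nu (N + 2)) := fun j => memLp (hwV j).aut.cont (hfin j)
  have hn0 : ∀ j, N2 (w j) ≠ 0 := fun j h => hw0 j (hQ.pos _ _ (hwV j).aut h)
  have hn : ∀ j, 0 < (N2 (w j)).toReal := fun j => ENNReal.toReal_pos (hn0 j) (hfin j).ne
  have hor : ∀ i j, i ≠ j → ip (w i) (w j) = 0 := fun i j hij =>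
    hO.orth _ (α i) (α j) _ _ (hwV i).aut (hwV j).aut (hfin i) (hfin j) (hwV i).hk (hwV j).hk
      (hne i j hij)
  have hWc : ∀ j, Continuous (W1 (w j)) := fun j => hW.cont _ _ _ (hwV j).aut.cont
  set K : ℝ := CL * b * T ^ (N + 1 + 1 + (N + 1 + 1).choose 2) * (CI / T) with hK
  have hK0 : 0 ≤ K := by positivity
  have hd := dual (fun j => cc j * Λ (W1 (w j))) (fun j => (N2 (w j)).toReal) hn K hK0 (by
    intro z
    set W : G (N + 2) → ℂ := fun g => ∑ j, (z j * cc j) * W1 (w j) g with hWdef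
    have hWcont : Continuous W := continuous_finset_sum _ fun j _ => continuous_const.mul (hWc j)
    have hWU : UInv fun g => ‖W g‖ := by
      intro u hu g
      have : W (u * g) = psi (zv fun _ => 1) u * W g := by
        simp only [hWdef, Finset.mul_sum]
        refine Finset.sum_congr rfl fun j _ => ?_
        have := hW.eqv _ (fun _ => 1) (w j) (hwV j).aut.cont (uz_of_aut (hwV j).aut) u hu g
        simp only [W1]
        rw [this]; ring
      simp only [this, norm_mul, norm_psi, one_mul]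
    have e1 : Λ W = ∑ j, z j * (cc j * Λ (W1 (w j))) := by
      rw [hWdef, hlin ι Finset.univ _ _ hWc]
      exact Finset.sum_congr rfl fun j _ => by ring
    have h1 := hup W hWcont hWU
    have h2 := hJ T hT m hm _ (aut_sum w (fun j => (hwV j).aut) z)
    rw [n2_sum w hL2 hor z, wf_sum hW _ _ w (fun j => (hwV j).aut.cont) z] at h2
    have hdl : 0 < dl (tm (m1 N m)) := dl_pos (tm_pos _)
    have e2 : ∀ g, ∑ j, z j * Wf (zm (m1 N m)) (w j) ((dg (tm (m1 N m)))⁻¹ * g) =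
        ((dl (tm (m1 N m)) ^ (-(1 / 2) : ℝ) : ℝ) : ℂ) * W g := by
      intro g
      simp only [hWdef, Finset.mul_sum]
      refine Finset.sum_congr rfl fun j _ => ?_
      rw [hSh (N + 1) (α j) (S j) (hS j) (w j) (hwV j).aut (hwV j).hk (m1 N m), mul_inv_cancel_left]
      simp only [hcc]; ring
    simp only [e2] at h2
    have e3 : ENNReal.ofReal (dl (tm (m1 N m))) * II (N + 2) (fun g =>
        (Om (up (dg (tT (N + 1) T))) (c / T)).indicator 1 g *
          ‖((dl (tm (m1 N m)) ^ (-(1 / 2) : ℝ) : ℝ) : ℂ) * W g‖ₑ ^ 2) =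
        II (N + 2) (fun g => (Om (up (dg (tT (N + 1) T))) (c / T)).indicator 1 g * ‖W g‖ₑ ^ 2) := by
      unfold II
      rw [← lintegral_const_mul' _ _ ENNReal.ofReal_ne_top]
      congr 1; ext x
      have : ENNReal.ofReal (dl (tm (m1 N m))) *
          ‖((dl (tm (m1 N m)) ^ (-(1 / 2) : ℝ) : ℝ) : ℂ)‖ₑ ^ 2 = 1 := by
        rw [← ofReal_norm_eq_enorm, Complex.norm_real,
          Real.norm_of_nonneg (Real.rpow_nonneg hdl.le _),
          ← ENNReal.ofReal_pow (Real.rpow_nonneg hdl.le _), ← ENNReal.ofReal_mul hdl.le,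
          ← Real.rpow_natCast, ← Real.rpow_mul hdl.le]
        norm_num
        rw [Real.rpow_neg_one, mul_inv_cancel₀ hdl.ne']
      simp only []
      rw [enorm_mul, mul_pow]
      calc _ = (ENNReal.ofReal (dl (tm (m1 N m))) *
          ‖((dl (tm (m1 N m)) ^ (-(1 / 2) : ℝ) : ℝ) : ℂ)‖ₑ ^ 2) *
          ((Om (up (dg (tT (N + 1) T))) (c / T)).indicator 1 (sg (N + 2) x) *
            ‖W (sg (N + 2) x)‖ₑ ^ 2) := by ring
        _ = _ := by rw [this, one_mul]
    rw [e3] at h2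
    have h3 := h1.trans (mul_le_mul_right h2 _)
    have hs0 : 0 ≤ ∑ j, ‖z j‖ ^ 2 * (N2 (w j)).toReal :=
      Finset.sum_nonneg fun j _ => by positivity
    rw [← ofReal_norm_eq_enorm, ← ENNReal.ofReal_pow (norm_nonneg _),
      ← ENNReal.ofReal_mul (by positivity), ← ENNReal.ofReal_mul (by positivity),
      ENNReal.ofReal_le_ofReal_iff (by positivity), e1] at h3
    refine h3.trans (le_of_eq ?_)
    rw [hK]; ring)
  have hlow2 : ∀ j, b / (CR * T ^ ε) * ‖cc j‖ ^ 2 ≤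
      ‖cc j * Λ (W1 (w j))‖ ^ 2 / (N2 (w j)).toReal := by
    intro j
    have hRj := (hRi j).1
    have h1 := hwl j
    have h2 := (hRi j).2 (w j) (hwV j)
    have hKf : KK 1 (W1 (w j)) ≠ ⊤ := by
      intro h
      have := hfin j
      rw [h2, h, ENNReal.mul_top (by simpa using hRj)] at this
      exact lt_irrefl _ this
    have h3 : b * (KK 1 (W1 (w j))).toReal ≤ ‖Λ (W1 (w j))‖ ^ 2 := by
      have := ENNReal.toReal_mono (by simp) h1
      simpa [ENNReal.toReal_mul, ENNReal.toReal_ofReal hb.le] using this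
    have h4 : (N2 (w j)).toReal = R j * (KK 1 (W1 (w j))).toReal := by
      rw [h2, ENNReal.toReal_mul, ENNReal.toReal_ofReal hRj.le]
    have h5 := (hRb j).1
    have hTe : 0 < T ^ ε := Real.rpow_pos_of_pos hT0 _
    rw [le_div_iff₀ (hn j), norm_mul, mul_pow, h4]
    have hk0 : 0 ≤ (KK 1 (W1 (w j))).toReal := ENNReal.toReal_nonneg
    calc b / (CR * T ^ ε) * ‖cc j‖ ^ 2 * (R j * (KK 1 (W1 (w j))).toReal)
        = ‖cc j‖ ^ 2 * (b * (KK 1 (W1 (w j))).toReal) * (R j / (CR * T ^ ε)) := by ring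
      _ ≤ ‖cc j‖ ^ 2 * ‖Λ (W1 (w j))‖ ^ 2 * 1 := by
        gcongr
        exact (div_le_one (by positivity)).2 h5
      _ = _ := mul_one _
  have h6 : b / (CR * T ^ ε) * ∑ j, ‖cc j‖ ^ 2 ≤ K := by
    rw [Finset.mul_sum]
    exact (Finset.sum_le_sum fun j _ => hlow2 j).trans hd
  have hTe : 0 < T ^ ε := Real.rpow_pos_of_pos hT0 _
  rw [div_mul_eq_mul_div, div_le_iff₀ (by positivity)] at h6
  rw [Real.rpow_add hT0, Real.rpow_natCast]
  have e : K * (CR * T ^ ε) = b * (CL * CI * CR * (T ^ (N + 1 + (N + 2).choose 2) * T ^ ε)) := by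
    rw [hK, show N + 1 + 1 + (N + 1 + 1).choose 2 = (N + 1 + (N + 2).choose 2) + 1 by ring, pow_succ]
    field_simp
  rw [e] at h6
  exact le_of_mul_le_mul_left h6 hb

lemma exists_big {n : ℕ} (α : ℕ → Fin (n + 1) → ℂ) {p : ℕ} (hp : p.Prime) (h1 : ∏ i, α p i = 1)
    (hu : ∀ i, ∃ j, ‖α p j‖ = ‖α p i‖⁻¹) {σ : ℝ} (hσ : σ ≤ thetaP α p) :
    ∃ i, (p : ℝ) ^ σ ≤ ‖α p i‖ := by
  have hp1 : (1 : ℝ) < p := by exact_mod_cast hp.one_lt
  have hne : ∀ i, 0 < ‖α p i‖ := by
    intro i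
    refine norm_pos_iff.2 fun h => ?_
    rw [Finset.prod_eq_zero (Finset.mem_univ i) h] at h1
    exact zero_ne_one h1
  obtain ⟨i, hi⟩ := exists_eq_ciSup_of_finite (f := fun i => |Real.logb p ‖α p i‖|)
  have h2 : σ ≤ |Real.logb p ‖α p i‖| := by rw [hi]; exact hσ
  rcases le_abs'.1 h2 with h | h
  · obtain ⟨j, hj⟩ := hu i
    refine ⟨j, (Real.le_logb_iff_rpow_le hp1 (hne j)).1 ?_⟩
    rw [hj, Real.logb_inv]; linarith
  · exact ⟨i, (Real.le_logb_iff_rpow_le hp1 (hne i)).1 h⟩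

lemma blomer {n : ℕ} {α : Fin (n + 1) → ℂ} {S : (Fin (n + 1) → ℕ) → ℂ} (hS : IsSch α S) {p σ : ℝ}
    (hp : 1 ≤ p) (hα : ∀ i, ‖α i‖ ≤ Real.sqrt p) {i : Fin (n + 1)} (hi : p ^ σ ≤ ‖α i‖) (l : ℕ) :
    p ^ (2 * σ * l) ≤ 4 ^ n * p ^ n * (n + 1) *
      ∑ j ∈ Finset.range (min l n + 1), ‖S (Pi.single 0 (l - j))‖ ^ 2 := by
  have hp0 : 0 < p := by linarith
  have hs1 : 1 ≤ Real.sqrt p := Real.one_le_sqrt.2 hp
  have h1 := (hS.2.2 (Real.sqrt p) hs1 hα).2 i l
  have h2 : p ^ (2 * σ * l) = ((p ^ σ) ^ l) ^ 2 := by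
    rw [← Real.rpow_natCast, ← Real.rpow_natCast, ← Real.rpow_mul hp0.le, ← Real.rpow_mul hp0.le]
    congr 1; push_cast; ring
  have h3 : (p ^ σ) ^ l ≤ (1 + Real.sqrt p) ^ n *
      ∑ j ∈ Finset.range (min l n + 1), ‖S (Pi.single 0 (l - j))‖ :=
    (pow_le_pow_left₀ (by positivity) hi l).trans h1
  have h4 : (∑ j ∈ Finset.range (min l n + 1), ‖S (Pi.single 0 (l - j))‖) ^ 2 ≤
      (n + 1) * ∑ j ∈ Finset.range (min l n + 1), ‖S (Pi.single 0 (l - j))‖ ^ 2 := by
    refine sq_sum_le_card_mul_sum_sq.trans ?_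
    gcongr
    rw [Finset.card_range]
    have : min l n + 1 ≤ n + 1 := by omega
    exact_mod_cast this
  have h5 : ((1 + Real.sqrt p) ^ n) ^ 2 ≤ 4 ^ n * p ^ n := by
    rw [← pow_mul, mul_comm n 2, pow_mul, ← mul_pow]
    refine pow_le_pow_left₀ (by positivity) ?_ n
    have := Real.sq_sqrt hp0.le
    nlinarith
  rw [h2]
  calc _ ≤ ((1 + Real.sqrt p) ^ n *
      ∑ j ∈ Finset.range (min l n + 1), ‖S (Pi.single 0 (l - j))‖) ^ 2 :=
        pow_le_pow_left₀ (by positivity) h3 2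
    _ ≤ (4 ^ n * p ^ n) * ((n + 1) *
        ∑ j ∈ Finset.range (min l n + 1), ‖S (Pi.single 0 (l - j))‖ ^ 2) := by
        rw [mul_pow]; gcongr
    _ = _ := by ring

lemma cast_d (N : ℕ) : ((N + 1 + (N + 2).choose 2 : ℕ) : ℝ) = ((N + 1) * (N + 4) : ℝ) / 2 := by
  rw [Nat.cast_add, Nat.cast_choose_two]; push_cast; ring

end Main

open Main in
theorem mainS (hS : SchurStmt) (hSh : ShinStmt) (hO : OrthStmt) (hI : IsoStmt) (hL : LocStmt)
    (hR : RBStmt) (hJ : InjStmt) (hW : WhStmt) (hQ : QuotStmt) : MainStmt := by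
  intro N C0 ε hε
  obtain ⟨c3, C, hc3, hC, hcore⟩ := core hSh hO hI hL hR hJ hW hQ N C0 ε hε
  set T0 : ℝ := max 1 c3⁻¹ with hT0
  have hT01 : 1 ≤ T0 := le_max_left _ _
  set d : ℝ := ((N + 1) * (N + 4) : ℝ) / 2 with hd
  refine ⟨4 ^ (N + 1) * (N + 2) ^ 2 * C * T0 * T0 ^ (d + ε), ?_⟩
  intro p hp T hT σ hσ ι _ α γ hP hG hw hne hθ
  have hp1 : (1 : ℝ) < p := by exact_mod_cast hp.one_lt
  have hp0 : (0 : ℝ) < p := by linarith
  have hTp : 0 < T := by linarith
  rcases isEmpty_or_nonempty ι with hι | ⟨⟨j0⟩⟩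
  · rw [Fintype.card_eq_zero, Nat.cast_zero]; positivity
  have hC0 : 0 ≤ C0 := by simpa using (norm_nonneg _).trans (hG j0 0 (by omega))
  set T' := T0 * T with hT'
  have hTT : T ≤ T' := le_mul_of_one_le_left hTp.le hT01
  have hT1 : 1 ≤ T' := hT.trans hTT
  have hT'p : 0 < T' := by linarith
  have hG' : ∀ j, Gam (N + 2) C0 T' (γ j) := fun j m hm =>
    (hG j m hm).trans (by gcongr)
  have hSe : ∀ j q, ∃ S, q.Prime → IsSch (α j q) S := by
    intro j q
    by_cases hq : q.Prime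
    · obtain ⟨S, h⟩ := hS.isSch (α j q) (hP j q hq)
      exact ⟨S, fun _ => h⟩
    · exact ⟨0, fun h => (hq h).elim⟩
  choose S hSs using hSe
  obtain ⟨hb, hsum⟩ := hcore T' hT1 ι α γ S hP hG' hw hne hSs
  rw [cast_d] at hsum
  have hbig : ∀ j, ∃ i, (p : ℝ) ^ σ ≤ ‖α j p i‖ := by
    intro j
    obtain ⟨w, h0, hV, -⟩ := hw j
    exact exists_big (α j) hp (hP j p hp) (hO.unit _ (α j) w hV.aut
      (by simpa [Rw] using hV.l2 []) h0 hV.hk (hP j) p hp) (hθ j)
  have hσ2 : 2 * σ ≤ 1 := by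
    obtain ⟨i, hi⟩ := hbig j0
    have := hi.trans (hb j0 p hp i)
    rw [Real.sqrt_eq_rpow, Real.rpow_le_rpow_left_iff hp1] at this
    linarith
  set Xr := c3 * T' ^ (N + 2) with hX
  have hc3T : 1 ≤ c3 * T0 := by
    have : c3⁻¹ ≤ T0 := le_max_right _ _
    calc (1 : ℝ) = c3 * c3⁻¹ := (mul_inv_cancel₀ hc3.ne').symm
      _ ≤ _ := by gcongr
  have hX1 : 1 ≤ Xr := by
    have h1 : T0 ≤ T' := le_mul_of_one_le_right (by linarith) hT
    have h2 : T' ≤ T' ^ (N + 2) := le_self_pow₀ hT1 (by omega)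
    calc (1 : ℝ) ≤ c3 * T0 := hc3T
      _ ≤ c3 * T' ^ (N + 2) := mul_le_mul_of_nonneg_left (h1.trans h2) hc3.le
  obtain ⟨l, hl1, hl2⟩ := exists_nat_pow_near hX1 hp1
  have hterm : ∀ t, ∑ j, ‖S j p (Pi.single 0 (l - t))‖ ^ 2 ≤ C * T' ^ (d + ε) := by
    intro t
    have h1 := hsum ⟨p ^ (l - t), pow_pos hp.pos _⟩ (by
      refine le_trans ?_ hl1
      simp only [PNat.mk_coe, Nat.cast_pow]
      exact pow_le_pow_right₀ hp1.le (by omega))
    refine le_of_eq_of_le (Finset.sum_congr rfl fun j _ => ?_) h1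
    rw [mulf_m1 hp _ _ (by
      have : lam (0 : Fin (N + 1) → ℕ) = 0 := by ext i; simp [lam]
      simp only [this]; exact (hSs j p hp).1), lam_single]
  have hA : (Fintype.card ι : ℝ) * (p : ℝ) ^ (2 * σ * l) ≤
      4 ^ (N + 1) * (p : ℝ) ^ (N + 1) * (N + 2) * ((N + 2) * (C * T' ^ (d + ε))) := by
    calc (Fintype.card ι : ℝ) * (p : ℝ) ^ (2 * σ * l) = ∑ _j : ι, (p : ℝ) ^ (2 * σ * l) := by simp
      _ ≤ ∑ j : ι, 4 ^ (N + 1) * (p : ℝ) ^ (N + 1) * (((N + 1 : ℕ) : ℝ) + 1) *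
          ∑ t ∈ Finset.range (min l (N + 1) + 1), ‖S j p (Pi.single 0 (l - t))‖ ^ 2 := by
        refine Finset.sum_le_sum fun j _ => ?_
        obtain ⟨i, hi⟩ := hbig j
        exact blomer (hSs j p hp) hp1.le (hb j p hp) hi l
      _ = 4 ^ (N + 1) * (p : ℝ) ^ (N + 1) * (N + 2) * ∑ t ∈ Finset.range (min l (N + 1) + 1),
          ∑ j : ι, ‖S j p (Pi.single 0 (l - t))‖ ^ 2 := by
        rw [← Finset.mul_sum, Finset.sum_comm]; push_cast; ring
      _ ≤ _ := by
        gcongr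
        refine (Finset.sum_le_sum fun t _ => hterm t).trans ?_
        rw [Finset.sum_const, Finset.card_range, nsmul_eq_mul]
        gcongr
        have : min l (N + 1) + 1 ≤ N + 2 := by omega
        exact_mod_cast this
  have hB : T ^ (2 * (N + 2) * σ) ≤ T0 * p * (p : ℝ) ^ (2 * σ * l) := by
    have h1 : T ^ (N + 2) ≤ T0 * p * (p : ℝ) ^ l := by
      calc T ^ (N + 2) ≤ (c3 * T0) * T' ^ (N + 2) := by
            rw [← one_mul (T ^ (N + 2))]; gcongr
        _ = T0 * Xr := by rw [hX]; ring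
        _ ≤ T0 * (p : ℝ) ^ (l + 1) := by gcongr
        _ = _ := by ring
    have h2 : T ^ (2 * (N + 2) * σ) = (T ^ (N + 2)) ^ (2 * σ) := by
      rw [← Real.rpow_natCast, ← Real.rpow_mul hTp.le]; congr 1; push_cast; ring
    have h3 : (p : ℝ) ^ (2 * σ * l) = ((p : ℝ) ^ l) ^ (2 * σ) := by
      rw [← Real.rpow_natCast, ← Real.rpow_mul hp0.le]; congr 1; ring
    have h4 : 1 ≤ T0 * p := one_le_mul_of_one_le_of_one_le hT01 hp1.le
    rw [h2, h3]
    calc (T ^ (N + 2)) ^ (2 * σ) ≤ (T0 * p * (p : ℝ) ^ l) ^ (2 * σ) := by gcongr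
      _ = (T0 * p) ^ (2 * σ) * ((p : ℝ) ^ l) ^ (2 * σ) := Real.mul_rpow (by positivity) (by positivity)
      _ ≤ (T0 * p) ^ (1 : ℝ) * ((p : ℝ) ^ l) ^ (2 * σ) := by gcongr
      _ = _ := by rw [Real.rpow_one]
  have hE : T ^ (d - 2 * (N + 2) * σ + ε) = T ^ (d + ε) / T ^ (2 * (N + 2) * σ) := by
    rw [← Real.rpow_sub hTp]; congr 1; ring
  rw [hE, ← mul_div_assoc, le_div_iff₀ (by positivity)]
  have hF : T' ^ (d + ε) = T0 ^ (d + ε) * T ^ (d + ε) := Real.mul_rpow (by positivity) hTp.le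
  calc (Fintype.card ι : ℝ) * T ^ (2 * (N + 2) * σ)
      ≤ (Fintype.card ι : ℝ) * (T0 * p * (p : ℝ) ^ (2 * σ * l)) := by gcongr
    _ = T0 * p * ((Fintype.card ι : ℝ) * (p : ℝ) ^ (2 * σ * l)) := by ring
    _ ≤ T0 * p * (4 ^ (N + 1) * (p : ℝ) ^ (N + 1) * (N + 2) * ((N + 2) * (C * T' ^ (d + ε)))) := by
      gcongr
    _ = _ := by rw [hF]; ring

theorem final (hM : MainStmt) (hMu : MultStmt) (hB : BridgeStmt) (hV : ClassStmt) : FinalStmt := by
  intro n hn ε hε
  obtain ⟨N, rfl⟩ : ∃ N, n = N + 2 := ⟨n - 2, by omega⟩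
  obtain ⟨C0, hB⟩ := hB (N + 2)
  obtain ⟨C, hM⟩ := hM N C0 ε hε
  refine ⟨C, fun p hp T hT σ hσ ι _ φ μ α hφ hnp hμ hθ => ?_⟩
  have h := fun j => hB (φ j) (μ j) (α j) (hφ j) T hT (hμ j)
  choose γ hγ using fun j => (h j).2.2.2
  have key := hM p hp T hT σ hσ ι α γ (fun j => (h j).2.2.1) (fun j => (hγ j).1) (fun j => by
    obtain ⟨f, hf, hf', h0⟩ := hV.init _ _ (h j).1.aut.cont (h j).1.ne
    exact ⟨_, h0, hV.convV _ _ _ (h j).1.aut (h j).1.cusp (h j).1.hk (h j).1.l2 f hf hf',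
      hV.convC _ _ _ (h j).2.1 (hγ j).2 f hf hf'⟩) (fun i j hij => by
    by_contra hcon
    push Not at hcon
    have hF : Form (α i) fun g : G (N + 2) => φ j g.val :=
      ⟨(h j).1.aut, (h j).1.cusp, fun q hq r hr g => by
        rw [hcon q hq _ (Nat.sub_le _ _)]; exact (h j).1.hk q hq r hr g,
        (h j).1.l2, (h j).1.ne, (h j).1.sph⟩
    obtain ⟨c, hc⟩ := hMu (N + 1) (by omega) (α i) _ _ (h i).2.2.1 (h i).1 hF
    refine hnp i j hij ⟨c, fun g hg => ?_⟩
    have := congrFun hc (mkG g)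
    simpa [val_mkG hg] using this) hθ
  convert key using 3
  push_cast; ring

end Pool.Agent.Lib.MP_fa98d2_nt.D
end
end
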