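import Pool.Agent.Lib.MP_fa98d2_nt.D.Calc

-- part Pool.Agent.Lib.MP_fa98d2_nt.D.Gelf
section

/-!
Gelfand pair `(GL(k,R), O(k))`: in an irreducible unitary representation (no continuity needed)
the space of `O(k)`-fixed vectors has dimension at most one.
-/

open scoped InnerProductSpace ComplexConjugate

noncomputable section

namespace Pool.Agent.Lib.MP_fa98d2_nt.D

namespace Gelf

/-- the point of smallest norm of a closed convex set is determined by its norm -/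
lemma fixpt {F : Type} [NormedAddCommGroup F] [InnerProductSpace ℂ F] [CompleteSpace F]
    (C : Set F) (hne : C.Nonempty) (hc : IsClosed C) (hv : Convex ℝ C) :
    ∃ v ∈ C, ∀ w ∈ C, ‖w‖ = ‖v‖ → w = v := by
  letI : InnerProductSpace ℝ F := InnerProductSpace.rclikeToReal ℂ F
  obtain ⟨v, hvC, hmin⟩ := exists_norm_eq_iInf_of_complete_convex hne hc.isComplete hv 0
  refine ⟨v, hvC, fun w hw hn => ?_⟩
  have hle : ∀ z ∈ C, ‖v‖ ≤ ‖z‖ := by
    intro z hz
    have h1 : (⨅ w : C, ‖(0 : F) - w‖) ≤ ‖(0 : F) - ((⟨z, hz⟩ : C) : F)‖ :=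
      ciInf_le (f := fun w : C => ‖(0 : F) - w‖)
        ⟨0, Set.forall_mem_range.2 fun _ => norm_nonneg _⟩ ⟨z, hz⟩
    rw [← hmin] at h1
    simpa using h1
  have hm : (1 / 2 : ℝ) • w + (1 / 2 : ℝ) • v ∈ C :=
    hv hw hvC (by norm_num) (by norm_num) (by norm_num)
  have h2 := hle _ hm
  rw [← smul_add, norm_smul] at h2
  have h3 : ‖(1 / 2 : ℝ)‖ = 1 / 2 := by norm_num
  rw [h3] at h2
  refine eq_of_norm_eq_of_norm_add_eq hn (le_antisymm (norm_add_le _ _) ?_)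
  linarith

section schur

variable {V : Type} [NormedAddCommGroup V] [InnerProductSpace ℂ V] [CompleteSpace V]

lemma pos_apply_zero (B : V →L[ℂ] V) (hB : 0 ≤ B) (x : V) (hx : (⟪B x, x⟫_ℂ).re = 0) :
    B x = 0 := by
  have h1 : CFC.sqrt B * CFC.sqrt B = B := CFC.sqrt_mul_sqrt_self B hB
  have h2 : IsSelfAdjoint (CFC.sqrt B) := (CFC.sqrt_nonneg B).isSelfAdjoint
  have h3 : B x = CFC.sqrt B (CFC.sqrt B x) := by
    conv_lhs => rw [← h1]
    rfl
  have h4 : ⟪B x, x⟫_ℂ = ⟪CFC.sqrt B x, CFC.sqrt B x⟫_ℂ := by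
    rw [h3]
    exact h2.isSymmetric _ _
  rw [h4] at hx
  have h5 : CFC.sqrt B x = 0 := by
    have := inner_self_eq_norm_sq (𝕜 := ℂ) (CFC.sqrt B x)
    rw [RCLike.re_to_complex, hx] at this
    exact norm_eq_zero.1 (pow_eq_zero_iff two_ne_zero |>.1 this.symm)
  rw [h3, h5, map_zero]

lemma sa_sign (S : Set (V →L[ℂ] V))
    (hirr : ∀ U : Submodule ℂ V, IsClosed (U : Set V) → (∀ T ∈ S, ∀ x ∈ U, T x ∈ U) →
      U = ⊥ ∨ U = ⊤)
    (B : V →L[ℂ] V) (hB : IsSelfAdjoint B) (hc : ∀ T ∈ S, Commute B T) : 0 ≤ B ∨ 0 ≤ -B := by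
  have hcp : ∀ T ∈ S, Commute B⁺ T := by
    intro T hT
    rw [CFC.posPart_def]
    exact (hc T hT).cfcₙ_real _
  have hs : B⁺ - B⁻ = B := CFC.posPart_sub_negPart B hB
  rcases hirr (LinearMap.ker (B⁺ : V →L[ℂ] V).toLinearMap) (ContinuousLinearMap.isClosed_ker _)
    (by
      intro T hT x hx
      have h0 : B⁺ x = 0 := hx
      have h1 : B⁺ (T x) = T (B⁺ x) := congrArg (fun L : V →L[ℂ] V => L x) (hcp T hT).eq
      show B⁺ (T x) = 0
      rw [h1, h0, map_zero]) with h | h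
  · left
    have h0 : B⁻ = 0 := by
      ext x
      have h1 : B⁺ (B⁻ x) = 0 := congrArg (fun L : V →L[ℂ] V => L x) (CFC.posPart_mul_negPart B)
      have h2 : B⁻ x ∈ LinearMap.ker (B⁺ : V →L[ℂ] V).toLinearMap := h1
      rw [h] at h2
      simpa using h2
    rw [h0, sub_zero] at hs
    rw [← hs]
    exact CFC.posPart_nonneg B
  · right
    have h0 : B⁺ = 0 := by
      ext x
      have h2 : x ∈ LinearMap.ker (B⁺ : V →L[ℂ] V).toLinearMap := by rw [h]; trivial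
      simpa using h2
    rw [h0, zero_sub] at hs
    rw [← hs, neg_neg]
    exact CFC.negPart_nonneg B

lemma sa_eig (S : Set (V →L[ℂ] V))
    (hirr : ∀ U : Submodule ℂ V, IsClosed (U : Set V) → (∀ T ∈ S, ∀ x ∈ U, T x ∈ U) →
      U = ⊥ ∨ U = ⊤)
    (B : V →L[ℂ] V) (hB : IsSelfAdjoint B) (hc : ∀ T ∈ S, Commute B T) (x : V) :
    B x ∈ Submodule.span ℂ {x} := by
  by_cases hx : x = 0
  · simp [hx]
  have hn : ‖x‖ ^ 2 ≠ 0 := pow_ne_zero _ (norm_ne_zero_iff.2 hx)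
  set m : ℝ := (⟪B x, x⟫_ℂ).re / ‖x‖ ^ 2 with hm
  set B' : V →L[ℂ] V := B - (m : ℂ) • (1 : V →L[ℂ] V) with hB'
  have hsa : IsSelfAdjoint B' := by
    refine hB.sub ?_
    rw [IsSelfAdjoint, star_smul, star_one]
    simp
  have hc' : ∀ T ∈ S, Commute B' T := fun T hT =>
    (hc T hT).sub_left ((Commute.one_left T).smul_left _)
  have hap : B' x = B x - (m : ℂ) • x := by simp [hB']
  have hz : (⟪B' x, x⟫_ℂ).re = 0 := by
    rw [hap, inner_sub_left, inner_smul_left, Complex.sub_re, Complex.conj_ofReal,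
      Complex.re_ofReal_mul]
    have := inner_self_eq_norm_sq (𝕜 := ℂ) x
    rw [RCLike.re_to_complex] at this
    rw [this, hm, div_mul_cancel₀ _ hn, sub_self]
  have h0 : B' x = 0 := by
    rcases sa_sign S hirr B' hsa hc' with h | h
    · exact pos_apply_zero B' h x hz
    · have := pos_apply_zero (-B') h x (by
        rw [neg_apply, inner_neg_left, Complex.neg_re, hz, neg_zero])
      simpa using this
  rw [hap, sub_eq_zero] at h0
  rw [h0]
  exact Submodule.smul_mem _ _ (Submodule.mem_span_singleton_self x)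

/-- an irreducible commuting self-adjoint family lives on a space of dimension at most one -/
lemma comm_dim (S : Set (V →L[ℂ] V))
    (hirr : ∀ U : Submodule ℂ V, IsClosed (U : Set V) → (∀ T ∈ S, ∀ x ∈ U, T x ∈ U) →
      U = ⊥ ∨ U = ⊤)
    (hst : ∀ T ∈ S, star T ∈ S) (hc : ∀ T ∈ S, ∀ T' ∈ S, Commute T T') (x y : V) (hx : x ≠ 0) :
    ∃ c : ℂ, y = c • x := by
  have key : ∀ T ∈ S, T x ∈ Submodule.span ℂ {x} := by
    intro T hT
    have h1 := sa_eig S hirr (T + star T) (IsSelfAdjoint.add_star_self T)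
      (fun T' hT' => (hc T hT T' hT').add_left (hc _ (hst T hT) T' hT')) x
    have h2 := sa_eig S hirr (Complex.I • (T - star T)) (by
      rw [IsSelfAdjoint, star_smul, star_sub, star_star, Complex.star_def, Complex.conj_I,
        neg_smul, ← smul_neg, neg_sub])
      (fun T' hT' => ((hc T hT T' hT').sub_left (hc _ (hst T hT) T' hT')).smul_left _) x
    have h3 : T x = (1 / 2 : ℂ) • ((T + star T) x) +
        (-Complex.I / 2) • ((Complex.I • (T - star T)) x) := by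
      simp only [add_apply, smul_apply,
        sub_apply, smul_smul]
      have : -Complex.I / 2 * Complex.I = 1 / 2 := by
        rw [div_mul_eq_mul_div, neg_mul, Complex.I_mul_I, neg_neg]
      rw [this]
      module
    rw [h3]
    exact Submodule.add_mem _ (Submodule.smul_mem _ _ h1) (Submodule.smul_mem _ _ h2)
  rcases hirr (Submodule.span ℂ {x}) (Submodule.closed_of_finiteDimensional _) (by
    intro T hT z hz
    obtain ⟨c, rfl⟩ := Submodule.mem_span_singleton.1 hz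
    rw [map_smul]
    exact Submodule.smul_mem _ _ (key T hT)) with h | h
  · exact absurd (Submodule.span_singleton_eq_bot.1 h) hx
  · have : y ∈ Submodule.span ℂ {x} := by rw [h]; trivial
    obtain ⟨c, hc⟩ := Submodule.mem_span_singleton.1 this
    exact ⟨c, hc.symm⟩

end schur

section gelfand

variable {Γ : Type} [Group Γ] {H : Type} [NormedAddCommGroup H] [InnerProductSpace ℂ H]
  [CompleteSpace H]

/-- vectors fixed by the subgroup -/
def fx (ρ : Γ →* (H ≃ₗᵢ[ℂ] H)) (K : Subgroup Γ) : Submodule ℂ H where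
  carrier := {x | ∀ a ∈ K, ρ a x = x}
  add_mem' := by
    intro x y hx hy a ha
    rw [map_add, hx a ha, hy a ha]
  zero_mem' := by
    intro a _
    rw [map_zero]
  smul_mem' := by
    intro c x hx a ha
    rw [map_smul, hx a ha]

omit [CompleteSpace H] in
lemma isClosed_fx (ρ : Γ →* (H ≃ₗᵢ[ℂ] H)) (K : Subgroup Γ) : IsClosed (fx ρ K : Set H) := by
  have : (fx ρ K : Set H) = ⋂ a ∈ K, {x | ρ a x = x} := by
    ext x
    simp only [Set.mem_iInter, Set.mem_ofPred_eq]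
    rfl
  rw [this]
  exact isClosed_biInter fun a _ => isClosed_eq (ρ a).continuous continuous_id

instance (ρ : Γ →* (H ≃ₗᵢ[ℂ] H)) (K : Subgroup Γ) : CompleteSpace (fx ρ K) :=
  (isClosed_fx ρ K).completeSpace_coe

omit [CompleteSpace H] in
lemma rho_mul (ρ : Γ →* (H ≃ₗᵢ[ℂ] H)) (g h : Γ) (x : H) : ρ (g * h) x = ρ g (ρ h x) := by
  rw [map_mul]
  rfl

omit [CompleteSpace H] in
lemma rho_adj (ρ : Γ →* (H ≃ₗᵢ[ℂ] H)) (g : Γ) (x y : H) :
    ⟪x, ρ g y⟫_ℂ = ⟪ρ g⁻¹ x, y⟫_ℂ := by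
  rw [← (ρ g).inner_map_map (ρ g⁻¹ x) y, ← rho_mul, mul_inv_cancel, map_one]
  rfl

/-- simultaneous averaging over the subgroup -/
lemma avg (ρ : Γ →* (H ≃ₗᵢ[ℂ] H)) (K : Subgroup Γ) (α β p q : H)
    (h : ∀ a ∈ K, ⟪α, ρ a p⟫_ℂ = ⟪ρ a q, β⟫_ℂ) :
    ⟪α, (fx ρ K).starProjection p⟫_ℂ = ⟪(fx ρ K).starProjection q, β⟫_ℂ := by
  set C : Set (WithLp 2 (H × H)) :=
    (⋂ a ∈ K, {z | ⟪α, ρ a z.fst⟫_ℂ = ⟪ρ a z.snd, β⟫_ℂ}) ∩
      ((⋂ f ∈ fx ρ K, {z | ⟪z.fst, f⟫_ℂ = ⟪p, f⟫_ℂ}) ∩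
        ⋂ f ∈ fx ρ K, {z | ⟪z.snd, f⟫_ℂ = ⟪q, f⟫_ℂ}) with hC
  have hmem : ∀ z, z ∈ C ↔ (∀ a ∈ K, ⟪α, ρ a z.fst⟫_ℂ = ⟪ρ a z.snd, β⟫_ℂ) ∧
      (∀ f ∈ fx ρ K, ⟪z.fst, f⟫_ℂ = ⟪p, f⟫_ℂ) ∧ ∀ f ∈ fx ρ K, ⟪z.snd, f⟫_ℂ = ⟪q, f⟫_ℂ := by
    intro z
    simp only [hC, Set.mem_inter_iff, Set.mem_iInter, Set.mem_ofPred_eq]
  have c1 : Continuous (WithLp.fst : WithLp 2 (H × H) → H) := WithLp.continuous_fst ..
  have c2 : Continuous (WithLp.snd : WithLp 2 (H × H) → H) := WithLp.continuous_snd ..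
  have hcl : IsClosed C := by
    refine IsClosed.inter (isClosed_biInter fun a _ => isClosed_eq ?_ ?_)
      (IsClosed.inter (isClosed_biInter fun f _ => isClosed_eq ?_ continuous_const)
        (isClosed_biInter fun f _ => isClosed_eq ?_ continuous_const))
    · exact continuous_const.inner ((ρ a).continuous.comp c1)
    · exact ((ρ a).continuous.comp c2).inner continuous_const
    · exact c1.inner continuous_const
    · exact c2.inner continuous_const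
  have hcv : Convex ℝ C := by
    intro z hz w hw s t hs ht hst
    rw [hmem] at hz hw ⊢
    have e1 : (s • z + t • w).fst = (s : ℂ) • z.fst + (t : ℂ) • w.fst := by
      simp
    have e2 : (s • z + t • w).snd = (s : ℂ) • z.snd + (t : ℂ) • w.snd := by
      simp
    have hst' : (s : ℂ) + t = 1 := by exact_mod_cast hst
    rw [e1, e2]
    refine ⟨fun a ha => ?_, fun f hf => ?_, fun f hf => ?_⟩
    · simp only [map_add, map_smul, inner_add_left, inner_add_right, inner_smul_left,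
        inner_smul_right, Complex.conj_ofReal]
      rw [hz.1 a ha, hw.1 a ha]
    · simp only [inner_add_left, inner_smul_left, Complex.conj_ofReal]
      rw [hz.2.1 f hf, hw.2.1 f hf, ← add_mul, hst', one_mul]
    · simp only [inner_add_left, inner_smul_left, Complex.conj_ofReal]
      rw [hz.2.2 f hf, hw.2.2 f hf, ← add_mul, hst', one_mul]
  have hne : C.Nonempty := ⟨WithLp.toLp 2 (p, q), (hmem _).2 ⟨h, fun _ _ => rfl, fun _ _ => rfl⟩⟩
  obtain ⟨v, hv, huniq⟩ := fixpt C hne hcl hcv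
  have hv' := (hmem v).1 hv
  have hfix : ∀ b ∈ K, ρ b v.fst = v.fst ∧ ρ b v.snd = v.snd := by
    intro b hb
    have := huniq (WithLp.toLp 2 (ρ b v.fst, ρ b v.snd)) ((hmem _).2 ⟨fun a ha => ?_,
      fun f hf => ?_, fun f hf => ?_⟩) ?_
    · exact ⟨congrArg WithLp.fst this, congrArg WithLp.snd this⟩
    · show ⟪α, ρ a (ρ b v.fst)⟫_ℂ = ⟪ρ a (ρ b v.snd), β⟫_ℂ
      rw [← rho_mul, ← rho_mul]
      exact hv'.1 _ (K.mul_mem ha hb)
    · show ⟪ρ b v.fst, f⟫_ℂ = _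
      rw [← hv'.2.1 f hf, ← (ρ b).inner_map_map v.fst f, hf b hb]
    · show ⟪ρ b v.snd, f⟫_ℂ = _
      rw [← hv'.2.2 f hf, ← (ρ b).inner_map_map v.snd f, hf b hb]
    · rw [WithLp.prod_norm_eq_of_L2, WithLp.prod_norm_eq_of_L2]
      simp
  have e1 : (fx ρ K).starProjection p = v.fst :=
    Submodule.eq_starProjection_of_mem_of_inner_eq_zero (fun b hb => (hfix b hb).1)
      fun f hf => by rw [inner_sub_left, hv'.2.1 f hf, sub_self]
  have e2 : (fx ρ K).starProjection q = v.snd :=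
    Submodule.eq_starProjection_of_mem_of_inner_eq_zero (fun b hb => (hfix b hb).2)
      fun f hf => by rw [inner_sub_left, hv'.2.2 f hf, sub_self]
  rw [e1, e2]
  have := hv'.1 1 K.one_mem
  rw [map_one] at this
  exact this

/-- compression of `ρ g` to the fixed vectors -/
def cp (ρ : Γ →* (H ≃ₗᵢ[ℂ] H)) (K : Subgroup Γ) (g : Γ) : fx ρ K →L[ℂ] fx ρ K :=
  (fx ρ K).orthogonalProjectionOnto ∘L ((ρ g).toContinuousLinearEquiv : H →L[ℂ] H) ∘L
    (fx ρ K).subtypeL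

lemma cp_val (ρ : Γ →* (H ≃ₗᵢ[ℂ] H)) (K : Subgroup Γ) (g : Γ) (v : fx ρ K) :
    (cp ρ K g v : H) = (fx ρ K).starProjection (ρ g v) := rfl

lemma inner_pr (ρ : Γ →* (H ≃ₗᵢ[ℂ] H)) (K : Subgroup Γ) (w : fx ρ K) (x : H) :
    ⟪(w : H), (fx ρ K).starProjection x⟫_ℂ = ⟪(w : H), x⟫_ℂ := by
  have := Submodule.starProjection_inner_eq_zero (K := fx ρ K) x w w.2
  rw [inner_sub_left, sub_eq_zero] at this
  rw [← inner_conj_symm, ← this, inner_conj_symm]

lemma inner_cp (ρ : Γ →* (H ≃ₗᵢ[ℂ] H)) (K : Subgroup Γ) (g : Γ) (w v : fx ρ K) :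
    ⟪w, cp ρ K g v⟫_ℂ = ⟪(w : H), ρ g v⟫_ℂ := by
  rw [Submodule.coe_inner, cp_val, inner_pr]

lemma star_cp (ρ : Γ →* (H ≃ₗᵢ[ℂ] H)) (K : Subgroup Γ) (g : Γ) :
    star (cp ρ K g) = cp ρ K g⁻¹ := by
  rw [ContinuousLinearMap.star_eq_adjoint, eq_comm, ContinuousLinearMap.eq_adjoint_iff]
  intro x y
  rw [inner_cp, rho_adj, ← inner_conj_symm, inner_cp, inner_conj_symm]

lemma cp_comm (ρ : Γ →* (H ≃ₗᵢ[ℂ] H)) (K : Subgroup Γ) (τ : Γ → Γ)
    (hmul : ∀ g h, τ (g * h) = τ h * τ g) (hK : ∀ a ∈ K, τ a = a⁻¹)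
    (hd : ∀ g, ∃ a ∈ K, ∃ b ∈ K, τ g = a * g * b) (g h : Γ) :
    Commute (cp ρ K g) (cp ρ K h) := by
  have bi : ∀ (w v : fx ρ K) (g : Γ), ∀ a ∈ K, ∀ b ∈ K,
      ⟪(w : H), ρ (a * g * b) v⟫_ℂ = ⟪(w : H), ρ g v⟫_ℂ := by
    intro w v g a ha b hb
    rw [rho_mul, rho_mul, v.2 b hb, rho_adj, w.2 _ (K.inv_mem ha)]
  have sy : ∀ (w v : fx ρ K) (g : Γ), ⟪(w : H), ρ (τ g) v⟫_ℂ = ⟪(w : H), ρ g v⟫_ℂ := by
    intro w v g
    obtain ⟨a, ha, b, hb, e⟩ := hd g
    rw [e, bi w v g a ha b hb]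
  obtain ⟨a, ha, b, hb, eg⟩ := hd g
  obtain ⟨c, hc, d, hd', eh⟩ := hd h
  ext1 v
  refine ext_inner_left ℂ fun w => ?_
  show ⟪w, cp ρ K g (cp ρ K h v)⟫_ℂ = ⟪w, cp ρ K h (cp ρ K g v)⟫_ℂ
  have key := avg ρ K (ρ g⁻¹ w) (ρ (a * g) v) (ρ h v) (ρ (d⁻¹ * h⁻¹) w) (by
    intro k hk
    rw [← rho_adj, ← rho_mul, ← rho_mul, ← sy, hmul, hmul, hK k hk, eg, eh, ← rho_mul,
      ← inv_inv (k * (d⁻¹ * h⁻¹)), ← rho_adj, ← rho_mul]
    rw [← bi w v ((k * (d⁻¹ * h⁻¹))⁻¹ * (a * g)) c hc b hb]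
    congr 3
    group)
  rw [inner_cp, inner_cp, cp_val, cp_val, rho_adj, key]
  have pr : ∀ (x : H) (k : Γ), k ∈ K →
      (fx ρ K).starProjection (ρ k x) = (fx ρ K).starProjection x := by
    intro x k hk
    refine Submodule.eq_starProjection_of_mem_of_inner_eq_zero
      (Submodule.starProjection_apply_mem _ _) fun f hf => ?_
    have := Submodule.starProjection_inner_eq_zero (K := fx ρ K) x f hf
    rw [inner_sub_left] at this ⊢
    rw [← this, ← (ρ k).inner_map_map x f, hf k hk]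
  rw [rho_mul, rho_mul, pr _ _ (K.inv_mem hd'), (fx ρ K).inner_starProjection_left_eq_right,
    pr _ _ ha, ← rho_adj]

lemma cp_irr (ρ : Γ →* (H ≃ₗᵢ[ℂ] H)) (K : Subgroup Γ)
    (hirr : ∀ U : Submodule ℂ H, IsClosed (U : Set H) → (∀ g, ∀ x ∈ U, ρ g x ∈ U) →
      U = ⊥ ∨ U = ⊤)
    (M : Submodule ℂ (fx ρ K)) (hM : IsClosed (M : Set (fx ρ K)))
    (hst : ∀ T ∈ Set.range (cp ρ K), ∀ x ∈ M, T x ∈ M) : M = ⊥ ∨ M = ⊤ := by
  let L : Γ → (H →L[ℂ] fx ρ K) := fun g =>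
    (fx ρ K).orthogonalProjectionOnto ∘L ((ρ g).toContinuousLinearEquiv : H →L[ℂ] H)
  have hL : ∀ g z, L g z = (fx ρ K).orthogonalProjectionOnto (ρ g z) := fun _ _ => rfl
  let U : Submodule ℂ H := ⨅ g, M.comap (L g).toLinearMap
  have hU : ∀ z, z ∈ U ↔ ∀ g, L g z ∈ M := by
    intro z
    simp only [U, Submodule.mem_iInf, Submodule.mem_comap]
    rfl
  have hcl : IsClosed (U : Set H) := by
    have : (U : Set H) = ⋂ g, L g ⁻¹' (M : Set (fx ρ K)) := by
      ext z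
      simp only [Set.mem_iInter, Set.mem_preimage, SetLike.mem_coe, hU]
    rw [this]
    exact isClosed_iInter fun g => hM.preimage (L g).continuous
  rcases hirr U hcl (by
    intro g x hx
    rw [hU] at hx ⊢
    intro g'
    have := hx (g' * g)
    rw [hL, rho_mul] at this
    exact this) with h | h
  · left
    rw [eq_bot_iff]
    intro x hx
    have : (x : H) ∈ U := (hU _).2 fun g => hst _ ⟨g, rfl⟩ x hx
    rw [h, Submodule.mem_bot] at this
    rw [Submodule.mem_bot]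
    exact Subtype.ext this
  · right
    rw [eq_top_iff]
    intro x _
    have h1 : (x : H) ∈ U := by rw [h]; trivial
    have h2 := (hU _).1 h1 1
    rw [hL, map_one] at h2
    have h3 : (fx ρ K).orthogonalProjectionOnto (x : H) = x :=
      Submodule.orthogonalProjectionOnto_mem_subspace_eq_self x
    rw [← h3]
    exact h2

theorem gelfand (ρ : Γ →* (H ≃ₗᵢ[ℂ] H)) (K : Subgroup Γ) (τ : Γ → Γ)
    (hmul : ∀ g h, τ (g * h) = τ h * τ g) (hK : ∀ a ∈ K, τ a = a⁻¹)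
    (hd : ∀ g, ∃ a ∈ K, ∃ b ∈ K, τ g = a * g * b)
    (hirr : ∀ U : Submodule ℂ H, IsClosed (U : Set H) → (∀ g, ∀ x ∈ U, ρ g x ∈ U) →
      U = ⊥ ∨ U = ⊤)
    (x y : H) (hx0 : x ≠ 0) (hx : x ∈ fx ρ K) (hy : y ∈ fx ρ K) : ∃ c : ℂ, y = c • x := by
  obtain ⟨c, hc⟩ := comm_dim (Set.range (cp ρ K)) (cp_irr ρ K hirr)
    (by rintro _ ⟨g, rfl⟩; exact ⟨g⁻¹, (star_cp ρ K g).symm⟩)
    (by rintro _ ⟨g, rfl⟩ _ ⟨h, rfl⟩; exact cp_comm ρ K τ hmul hK hd g h)
    ⟨x, hx⟩ ⟨y, hy⟩ (fun h => hx0 (congrArg Subtype.val h))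
  exact ⟨c, congrArg Subtype.val hc⟩

end gelfand

variable {k : ℕ}

lemma isO_iff (a : G k) : IsO a ↔ tr a * a = 1 := by
  rw [IsO, Matrix.mem_orthogonalGroup_iff', ← Units.val_inj, Units.val_mul, val_tr, Units.val_one]

lemma tr_of_isO {a : G k} (ha : IsO a) : tr a = a⁻¹ := eq_inv_of_mul_eq_one_left ((isO_iff a).1 ha)

/-- the orthogonal group as a subgroup -/
def og (k : ℕ) : Subgroup (G k) where
  carrier := {a | IsO a}
  one_mem' := (isO_iff 1).2 (by simp)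
  mul_mem' := by
    intro a b ha hb
    refine (isO_iff _).2 ?_
    rw [tr_mul, tr_of_isO ha, tr_of_isO hb]
    group
  inv_mem' := by
    intro a ha
    refine (isO_iff _).2 ?_
    rw [tr_inv, tr_of_isO ha]
    group

open scoped MatrixOrder in
lemma polar (g : G k) : ∃ s : G k, tr s = s ∧ s * s = tr g * g := by
  have hp : (0 : Mat k) ≤ g.val.transpose * g.val := by
    rw [Matrix.nonneg_iff_posSemidef]
    have := Matrix.posSemidef_conjTranspose_mul_self g.val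
    rwa [Matrix.conjTranspose_eq_transpose_of_trivial] at this
  have h1 := CFC.sqrt_mul_sqrt_self _ hp
  have h2 : (CFC.sqrt (g.val.transpose * g.val)).PosSemidef :=
    Matrix.nonneg_iff_posSemidef.1 (CFC.sqrt_nonneg _)
  have h3 : (CFC.sqrt (g.val.transpose * g.val)).det ≠ 0 := by
    intro h0
    have := congrArg Matrix.det h1
    rw [Matrix.det_mul, h0, Matrix.det_mul, Matrix.det_transpose, zero_mul] at this
    exact Matrix.GeneralLinearGroup.det_ne_zero g (mul_self_eq_zero.1 this.symm)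
  refine ⟨Matrix.GeneralLinearGroup.mkOfDetNeZero _ h3, Units.ext ?_, Units.ext h1⟩
  have := h2.1.eq
  rwa [Matrix.conjTranspose_eq_transpose_of_trivial] at this

lemma tr_mem_double (g : G k) : ∃ a ∈ og k, ∃ b ∈ og k, tr g = a * g * b := by
  obtain ⟨s, hs, hss⟩ := polar g
  have ha : g * s⁻¹ ∈ og k := by
    refine (isO_iff _).2 ?_
    rw [tr_mul, tr_inv, hs]
    calc s⁻¹ * tr g * (g * s⁻¹) = s⁻¹ * (tr g * g) * s⁻¹ := by group
      _ = 1 := by rw [← hss]; group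
  refine ⟨_, (og k).inv_mem ha, _, (og k).inv_mem ha, ?_⟩
  have : tr g = s * s * g⁻¹ := by rw [hss]; group
  rw [this]
  group

end Gelf

theorem gelf : GelfStmt := by
  intro k H _ _ _ ρ hirr x y hx0 hx hy
  exact Gelf.gelfand ρ (Gelf.og k) tr tr_mul (fun a ha => Gelf.tr_of_isO ha) Gelf.tr_mem_double
    hirr x y hx0 hx hy

end Pool.Agent.Lib.MP_fa98d2_nt.D
end
end

-- part Pool.Agent.Lib.MP_fa98d2_nt.D.Mult
section

/-!
Multiplicity one for spherical cusp forms with a given Hecke system.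
-/

open MeasureTheory Filter Topology Matrix
open scoped ENNReal Real ContDiff ComplexConjugate

noncomputable section

namespace Pool.Agent.Lib.MP_fa98d2_nt.D

namespace Mult

/-! ### Square integrable functions -/

section L2

variable {Z : Type} [MeasurableSpace Z] {μ : Measure Z}

lemma sq_eLp (f : Z → ℂ) : eLpNorm f 2 μ ^ 2 = ∫⁻ x, ‖f x‖ₑ ^ 2 ∂μ := by
  have h := eLpNorm_nnreal_pow_eq_lintegral (μ := μ) (f := f) (p := 2) two_ne_zero
  simpa using h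

lemma memLp_of {f : Z → ℂ} (hf : Measurable f) (h : ∫⁻ x, ‖f x‖ₑ ^ 2 ∂μ < ⊤) : MemLp f 2 μ := by
  refine ⟨hf.aestronglyMeasurable, ?_⟩
  rw [← sq_eLp] at h
  exact lt_top_iff_ne_top.2 fun e => by simp [e] at h

lemma enorm_sq (f : Lp ℂ 2 μ) : ‖f‖ₑ ^ 2 = ∫⁻ x, ‖f x‖ₑ ^ 2 ∂μ := by
  rw [Lp.enorm_def, sq_eLp]

lemma enorm_toLp_sq {f : Z → ℂ} (hf : MemLp f 2 μ) :
    ‖hf.toLp f‖ₑ ^ 2 = ∫⁻ x, ‖f x‖ₑ ^ 2 ∂μ := by
  rw [enorm_sq]
  exact lintegral_congr_ae (hf.coeFn_toLp.mono fun x hx => by simp only [hx])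

lemma norm_eq_of_sq {A B : Type} [NormedAddCommGroup A] [NormedAddCommGroup B] {a : A} {b : B}
    (h : ‖a‖ₑ ^ 2 = ‖b‖ₑ ^ 2) : ‖a‖ = ‖b‖ := by
  have h1 := congrArg ENNReal.toReal h
  simp only [ENNReal.toReal_pow, toReal_enorm] at h1
  exact (pow_left_inj₀ (norm_nonneg _) (norm_nonneg _) two_ne_zero).1 h1

/-- A linear family of square integrable functions as a map to `L2`. -/
def toL {V : Type} [AddCommGroup V] [Module ℂ V] (T : V →ₗ[ℂ] (Z → ℂ))
    (h : ∀ w, MemLp (T w) 2 μ) : V →ₗ[ℂ] Lp ℂ 2 μ where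
  toFun w := (h w).toLp (T w)
  map_add' w w' := by
    rw [← MemLp.toLp_add]
    exact MemLp.toLp_congr _ _ (by rw [map_add])
  map_smul' c w := by
    rw [RingHom.id_apply, ← MemLp.toLp_const_smul]
    exact MemLp.toLp_congr _ _ (by rw [map_smul])

lemma cs {φ h : Z → ℝ≥0∞} (hφ : Measurable φ) (hh : Measurable h) :
    (∫⁻ x, φ x * h x ∂μ) ^ 2 ≤ (∫⁻ x, φ x ∂μ) * ∫⁻ x, φ x * h x ^ 2 ∂μ := by
  have k := ENNReal.lintegral_mul_le_Lp_mul_Lq μ Real.HolderConjugate.two_two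
    (f := fun x => φ x ^ (1 / 2 : ℝ)) (g := fun x => φ x ^ (1 / 2 : ℝ) * h x)
    (hφ.pow_const _).aemeasurable ((hφ.pow_const _).mul hh).aemeasurable
  have e0 : ∀ a : ℝ≥0∞, (a ^ (1 / 2 : ℝ)) ^ (2 : ℝ) = a := fun a => by
    rw [← ENNReal.rpow_mul]; norm_num
  have e1 : ∀ a : ℝ≥0∞, a ^ (1 / 2 : ℝ) * a ^ (1 / 2 : ℝ) = a := fun a => by
    rw [← sq, ← ENNReal.rpow_two, e0]
  have e2 : ∀ a b : ℝ≥0∞, (a ^ (1 / 2 : ℝ) * b) ^ (2 : ℝ) = a * b ^ 2 := fun a b => by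
    rw [ENNReal.mul_rpow_of_nonneg _ _ zero_le_two, e0, ENNReal.rpow_two]
  simp only [Pi.mul_apply, ← mul_assoc, e0, e1, e2] at k
  refine (pow_le_pow_left' k 2).trans_eq ?_
  rw [mul_pow, ← ENNReal.rpow_two, ← ENNReal.rpow_two, e0, e0]

end L2

/-! ### Abstract Hilbert space facts -/

section Hil

variable {V H : Type} [AddCommGroup V] [Module ℂ V] [NormedAddCommGroup H]
  [InnerProductSpace ℂ H] [CompleteSpace H]

lemma ext_rep {Γ : Type} [Group Γ] (j : V →ₗ[ℂ] H) (hj : DenseRange j) (r : Γ → V →ₗ[ℂ] V)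
    (r1 : ∀ w, r 1 w = w) (rm : ∀ a b w, r (a * b) w = r a (r b w))
    (rn : ∀ a w, ‖j (r a w)‖ = ‖j w‖) :
    ∃ ρ : Γ →* (H ≃ₗᵢ[ℂ] H), ∀ a w, ρ a (j w) = j (r a w) := by
  let e : Γ → V ≃ₗ[ℂ] V := fun a =>
    { r a with
      invFun := r a⁻¹
      left_inv := fun w => by
        show r a⁻¹ (r a w) = w
        rw [← rm, inv_mul_cancel, r1]
      right_inv := fun w => by
        show r a (r a⁻¹ w) = w
        rw [← rm, mul_inv_cancel, r1] }
  let σ : Γ → H ≃ₗᵢ[ℂ] H := fun a => (e a).extendOfIsometry j j hj hj (rn a)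
  have hσ : ∀ a w, σ a (j w) = j (r a w) := fun a w =>
    LinearEquiv.extendOfIsometry_eq (e a) j j hj hj (rn a) w
  refine ⟨MonoidHom.mk' σ fun a b => ?_, hσ⟩
  ext x
  refine hj.induction_on x (isClosed_eq (σ (a * b)).continuous (σ a * σ b).continuous) fun w => ?_
  show σ (a * b) (j w) = σ a (σ b (j w))
  rw [hσ, hσ, hσ, rm]

omit [CompleteSpace H] in
lemma ext_iso {L : Type} [NormedAddCommGroup L] [InnerProductSpace ℂ L] [CompleteSpace L]
    (j : V →ₗ[ℂ] H) (hj : DenseRange j) (κ : V →ₗ[ℂ] L) (hn : ∀ w, ‖κ w‖ = ‖j w‖) :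
    ∃ K : H →ₗᵢ[ℂ] L, ∀ w, K (j w) = κ w := by
  have h : ∀ w, κ.extendOfNorm j (j w) = κ w :=
    LinearMap.extendOfNorm_eq hj ⟨1, fun w => by rw [hn, one_mul]⟩
  refine ⟨⟨(κ.extendOfNorm j).toLinearMap, fun x => ?_⟩, h⟩
  refine hj.induction_on x (isClosed_eq (κ.extendOfNorm j).continuous.norm continuous_norm)
    fun w => ?_
  show ‖κ.extendOfNorm j (j w)‖ = _
  rw [h, hn]

omit [CompleteSpace H] in
lemma series (j : V →ₗ[ℂ] H) (hj : DenseRange j) (x : H) :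
    ∃ d : ℕ → V, Summable (fun n => ‖j (d n)‖) ∧ HasSum (fun n => j (d n)) x := by
  obtain ⟨v, h1, h2, -, h3⟩ := controlled_sum_of_mem_closure
    (s := (LinearMap.range j).toAddSubgroup) (a := x) (hj x) (b := fun n => (1 / 2 : ℝ) ^ n)
    fun n => by positivity
  choose d hd using h2
  have hs : Summable fun n => ‖v n‖ := by
    rw [← summable_nat_add_iff 1]
    refine Summable.of_nonneg_of_le (fun _ => norm_nonneg _)
      (fun n => (h3 (n + 1) n.succ_pos).le) ?_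
    exact (summable_nat_add_iff 1).2 summable_geometric_two
  refine ⟨d, by simpa only [hd] using hs, ?_⟩
  simp only [hd]
  exact (hasSum_iff_tendsto_nat_of_summable_norm hs).2 ((tendsto_add_atTop_iff_nat 1).1 h1)

end Hil

/-! ### Approximation by smooth vectors -/

variable {k : ℕ}

lemma aut_sub {F F' : G k → ℂ} (h : Aut F) (h' : Aut F') (c : ℂ) : Aut (F - c • F') :=
  ⟨h.cont.sub (h'.cont.const_smul c), fun γ g => by simp [h.zinv γ g, h'.zinv γ g],
    fun t ht g => by simp [h.sinv t ht g, h'.sinv t ht g]⟩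

lemma small_ball {s : Set (G k)} (hs : s ∈ 𝓝 (1 : G k)) :
    ∃ δ : ℝ, 0 < δ ∧ δ * (2 * k + 2) ≤ 1 ∧ Bl k δ ⊆ s := by
  rw [isOpenEmbedding_co.isInducing.nhds_eq_comap, mem_comap] at hs
  obtain ⟨t, ht, hts⟩ := hs
  obtain ⟨ε, hε, hb⟩ := Metric.mem_nhds_iff.1 ht
  have hk : (0 : ℝ) < 2 * k + 2 := by positivity
  refine ⟨min ε (2 * k + 2)⁻¹, lt_min hε (inv_pos.2 hk), ?_, fun g hg => hts (hb ?_)⟩
  · calc min ε (2 * k + 2)⁻¹ * (2 * k + 2) ≤ (2 * k + 2 : ℝ)⁻¹ * (2 * k + 2) := by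
          gcongr; exact min_le_right _ _
      _ = 1 := inv_mul_cancel₀ hk.ne'
  · rw [Metric.mem_ball, dist_pi_lt_iff hε]
    intro i
    rw [dist_pi_lt_iff hε]
    intro j
    exact (hg i j).trans_le (min_le_left _ _)

lemma cont_tf (δ : ℝ) : Continuous (tf (k := k) δ) :=
  Complex.continuous_ofReal.comp ((bp k).continuous.comp
    ((continuous_co.sub continuous_const).const_smul δ⁻¹))

instance : SFinite (nu k) := by unfold nu; infer_instance

/-- Smoothing moves a form only a little. -/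
lemma approx (hV : ClassStmt) (hL : Loc0Stmt) {α : ℕ → Fin k → ℂ} {F : G k → ℂ} (hF : Form α F)
    {ε : ℝ≥0∞} (hε : 0 < ε) : ∃ (w : G k → ℂ) (c : ℂ), InV α w ∧ N2 (F - c • w) ≤ ε := by
  obtain ⟨δ, δ0, δ1, hδ⟩ := small_ball ((hV.strong k F hF.aut hF.l2).eventually (gt_mem_nhds hε))
  obtain ⟨b1, b2, b3, b4, b5⟩ := hL.bump k δ δ0 δ1
  have ct := cont_tf (k := k) δ
  have cF := hF.aut.cont
  have it : Integrable (tf (k := k) δ) (mu k) := ct.integrable_of_hasCompactSupport b2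
  set m : ℝ≥0∞ := ∫⁻ x, ‖tf (k := k) δ x‖ₑ ∂mu k with hm
  have mt : m ≠ ⊤ := it.2.ne
  have m0 : m ≠ 0 := by
    intro h
    have h1 : (fun x => ‖tf (k := k) δ x‖ₑ) =ᵐ[mu k] 0 :=
      (lintegral_eq_zero_iff ct.measurable.enorm).1 h
    have h2 : tf (k := k) δ = 0 := (Continuous.ae_eq_iff_eq (mu k) ct continuous_zero).1
      (h1.mono fun x hx => by simpa using hx)
    have h3 := b4 1 fun i j => by simpa using δ0
    rw [h2] at h3
    simp at h3
  set c : ℂ := ∫ x, tf (k := k) δ x ∂mu k with hc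
  have cm : ‖c‖ₑ = m := by
    have e1 : ∀ x, tf (k := k) δ x = ((‖tf (k := k) δ x‖ : ℝ) : ℂ) := fun x => by
      obtain ⟨y, y0, -, hy⟩ := b5 x
      rw [hy, Complex.norm_real, Real.norm_of_nonneg y0]
    have e2 : c = ((∫ x, ‖tf (k := k) δ x‖ ∂mu k : ℝ) : ℂ) := by
      rw [hc, ← integral_complex_ofReal]
      exact integral_congr_ae (Eventually.of_forall e1)
    rw [e2, ← ofReal_norm, Complex.norm_real,
      Real.norm_of_nonneg (integral_nonneg fun _ => norm_nonneg _),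
      ofReal_integral_norm_eq_lintegral_enorm it]
  have c0 : c ≠ 0 := fun h => m0 (by rw [← cm, h, enorm_zero])
  refine ⟨conv (tf δ) F, c⁻¹, hV.convV k α F hF.aut hF.cusp hF.hk hF.l2 _ b1 b2, ?_⟩
  have mj : Measurable fun p : G k × G k => ‖tf δ p.2‖ₑ * ‖F (p.1 * p.2) - F p.1‖ₑ ^ 2 :=
    (ct.measurable.comp measurable_snd).enorm.mul
      (((cF.comp continuous_mul).sub (cF.comp continuous_fst)).measurable.enorm.pow_const 2)
  have pt : ∀ g, m ^ 2 * ‖(F - c⁻¹ • conv (tf δ) F) g‖ₑ ^ 2 ≤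
      m * ∫⁻ x, ‖tf δ x‖ₑ * ‖F (g * x) - F g‖ₑ ^ 2 ∂mu k := fun g => by
    have cg : Continuous fun x => F (g * x) := cF.comp (continuous_const_mul g)
    have i1 : Integrable (fun x => tf δ x * F (g * x)) (mu k) :=
      (ct.mul cg).integrable_of_hasCompactSupport b2.mul_right
    have e1 : c * (F - c⁻¹ • conv (tf δ) F) g = -∫ x, tf δ x * (F (g * x) - F g) ∂mu k := by
      simp only [mul_sub]
      rw [integral_sub i1 (it.mul_const _), integral_mul_const, ← hc]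
      simp only [Pi.sub_apply, Pi.smul_apply, smul_eq_mul, conv]
      field_simp
      ring
    rw [← mul_pow, ← cm, ← enorm_mul, e1, enorm_neg, cm]
    refine le_trans (pow_le_pow_left' ((enorm_integral_le_lintegral_enorm _).trans_eq ?_) 2)
      (cs ct.measurable.enorm (cg.sub continuous_const).measurable.enorm)
    simp only [enorm_mul]
  have tot : m ^ 2 * N2 (F - c⁻¹ • conv (tf δ) F) ≤ m ^ 2 * ε := by
    calc m ^ 2 * N2 (F - c⁻¹ • conv (tf δ) F)
        = ∫⁻ g, m ^ 2 * ‖(F - c⁻¹ • conv (tf δ) F) g‖ₑ ^ 2 ∂nu k :=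
          (lintegral_const_mul' _ _ (ENNReal.pow_ne_top mt)).symm
      _ ≤ ∫⁻ g, m * ∫⁻ x, ‖tf δ x‖ₑ * ‖F (g * x) - F g‖ₑ ^ 2 ∂mu k ∂nu k := lintegral_mono pt
      _ = m * ∫⁻ x, ∫⁻ g, ‖tf δ x‖ₑ * ‖F (g * x) - F g‖ₑ ^ 2 ∂nu k ∂mu k := by
          rw [lintegral_const_mul' _ _ mt, lintegral_lintegral_swap mj.aemeasurable]
      _ ≤ m * ∫⁻ x, ‖tf (k := k) δ x‖ₑ * ε ∂mu k := by
          gcongr with x
          rw [lintegral_const_mul' _ _ enorm_ne_top]
          by_cases hx : tf δ x = 0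
          · simp [hx]
          · exact mul_le_mul_right (le_of_lt (hδ (b3 x hx))) _
      _ = m ^ 2 * ε := by
          rw [lintegral_mul_const _ ct.measurable.enorm, ← hm, sq, mul_assoc]
  exact (ENNReal.mul_le_mul_iff_right (pow_ne_zero 2 m0) (ENNReal.pow_ne_top mt)).1 tot

/-! ### Irreducibility -/

variable {N : ℕ}

lemma KK_one (W : G (N + 1) → ℂ) : KK 1 W = ∫⁻ x, ‖W (up (sg N x))‖ₑ ^ 2 ∂mX N := by
  simp [KK, II]

lemma irr_of (hI : IrrStmt) {V H : Type} [AddCommGroup V] [Module ℂ V] [NormedAddCommGroup H]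
    [InnerProductSpace ℂ H] [CompleteSpace H] (j : V →ₗ[ℂ] H) (hj : DenseRange j)
    (ρ : G (N + 1) →* (H ≃ₗᵢ[ℂ] H)) (K : H →ₗᵢ[ℂ] Lp ℂ 2 (mX N)) (W : V → G (N + 1) → ℂ)
    (Wm : ∀ w, Measurable (W w)) (We : ∀ w, Eqv (fun _ => 1) (W w))
    (hK : ∀ w a, K (ρ a (j w)) =ᵐ[mX N] fun x => W w (up (sg N x) * a))
    (U : Submodule ℂ H) (hU : IsClosed (U : Set H)) (hinv : ∀ g, ∀ x ∈ U, ρ g x ∈ U) :
    U = ⊥ ∨ U = ⊤ := by
  rw [or_iff_not_imp_left]
  intro h0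
  obtain ⟨x, xU, x0⟩ := (Submodule.ne_bot_iff U).1 h0
  obtain ⟨d, d1, d2⟩ := series j hj x
  set Ξ : G (N + 1) → ℂ := fun g => ∑' n, W (d n) g with hΞ
  have key : ∀ a, K (ρ a x) =ᵐ[mX N] fun z => Ξ (up (sg N z) * a) := fun a => by
    have s1 : HasSum (fun n => K (ρ a (j (d n)))) (K (ρ a x)) :=
      K.toContinuousLinearMap.hasSum ((ρ a).toLinearIsometry.toContinuousLinearMap.hasSum d2)
    have s2 : ∑' n, ‖K (ρ a (j (d n)))‖ₑ ≠ ⊤ := by
      rw [tsum_enorm_ne_top_iff_summable_norm]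
      simpa only [LinearIsometry.norm_map, LinearIsometryEquiv.norm_map] using d1
    rw [← s1.tsum_eq]
    filter_upwards [Lp.coeFn_tsum s2, ae_all_iff.2 fun n => hK (d n) a] with z h1 h2
    rw [h1]
    exact tsum_congr h2
  have kk : KK 1 Ξ = ‖x‖ₑ ^ 2 := by
    rw [KK_one, ← K.enorm_map x, enorm_sq]
    refine lintegral_congr_ae ?_
    filter_upwards [key 1] with z hz
    rw [map_one, mul_one] at hz
    rw [← hz]
    rfl
  have : CompleteSpace U := hU.completeSpace_coe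
  refine Submodule.orthogonal_eq_bot_iff.1 ((Submodule.eq_bot_iff _).2 fun y hy => ?_)
  have h := hI N Ξ (K y) (Measurable.tsum fun n => Wm (d n))
    (fun u hu g => by
      simp only [hΞ, We _ u hu g]
      exact tsum_mul_left)
    (Lp.stronglyMeasurable _).measurable
    (by rw [kk]; exact ENNReal.pow_lt_top enorm_lt_top)
    (by rw [← enorm_sq]; exact ENNReal.pow_lt_top enorm_lt_top)
    (Eventually.of_forall fun h => Eventually.of_forall fun b => by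
      have e := (Submodule.mem_orthogonal U y).1 hy _ (hinv (nb b * up h) x xU)
      rw [← K.inner_map_map, L2.inner_def] at e
      rw [← e]
      refine integral_congr_ae ?_
      filter_upwards [key (nb b * up h)] with z hz
      rw [hz, RCLike.inner_apply])
  rcases h with h | h
  · have e : K y = 0 := Lp.eq_zero_iff_ae_eq_zero.2 h
    exact K.injective (by rw [e, map_zero])
  · rw [kk] at h
    exact absurd (by simpa using h) x0

end Mult

open Mult in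
theorem mult (hQ : QuotStmt) (hW : WhStmt) (hV : ClassStmt) (hL : Loc0Stmt) (hIso : IsoStmt)
    (hI : IrrStmt) (hG : GelfStmt) : MultStmt := by
  intro N hN α F F' hα hF hF'
  obtain ⟨V, hVm⟩ := hV.sub (N + 1) α
  obtain ⟨R, R0, hR⟩ := hIso N hN α hα (by
    obtain ⟨f, f1, f2, f3⟩ := hV.init _ F hF.aut.cont hF.ne
    exact ⟨_, f3, hV.convV _ α F hF.aut hF.cusp hF.hk hF.l2 f f1 f2⟩)
  have inV : ∀ w : V, InV α w.1 := fun w => (hVm w).1 w.2
  have mem : ∀ w : V, MemLp (V.subtype w) 2 (nu (N + 1)) := fun w =>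
    memLp_of (inV w).aut.cont.measurable ((inV w).l2 [])
  let ι : V →ₗ[ℂ] Lp ℂ 2 (nu (N + 1)) := toL V.subtype mem
  let H : Submodule ℂ (Lp ℂ 2 (nu (N + 1))) := (LinearMap.range ι).topologicalClosure
  let j : V →ₗ[ℂ] H := ι.codRestrict H fun w =>
    Submodule.le_topologicalClosure _ (LinearMap.mem_range_self ι w)
  have hj : DenseRange j := by
    rw [DenseRange, Subtype.dense_iff, ← Set.range_comp]
    exact subset_rfl
  have jn : ∀ w : V, ‖j w‖ₑ ^ 2 = N2 w.1 := fun w => enorm_toLp_sq (mem w)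
  let r : G (N + 1) → V →ₗ[ℂ] V := fun a =>
    { toFun := fun w => ⟨rt a w.1, (hVm _).2 (hV.rtV _ _ _ (inV w) a)⟩
      map_add' := fun _ _ => rfl
      map_smul' := fun _ _ => rfl }
  obtain ⟨ρ, hρ⟩ := ext_rep j hj r
    (fun w => Subtype.ext (funext fun g => congrArg w.1 (mul_one g)))
    (fun a b w => Subtype.ext (funext fun g => congrArg w.1 (mul_assoc g a b).symm))
    fun a w => norm_eq_of_sq (by rw [jn, jn]; exact hV.n2rt _ _ (inV w).aut a)
  let T : V →ₗ[ℂ] (X N → ℂ) :=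
    { toFun := fun w x => (Real.sqrt R : ℂ) * W1 w.1 (up (sg N x))
      map_add' := fun w w' => by
        ext x
        simp only [W1, Submodule.coe_add, Pi.add_apply,
          hW.add _ _ _ _ (inV w).aut.cont (inV w').aut.cont, mul_add]
      map_smul' := fun c w => by
        ext x
        simp only [W1, Submodule.coe_smul, Pi.smul_apply, hW.smul, smul_eq_mul, RingHom.id_apply]
        ring }
  have cW : ∀ w : V, Continuous (W1 w.1) := fun w => hW.cont _ _ _ (inV w).aut.cont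
  have Tn : ∀ w : V, ∫⁻ x, ‖T w x‖ₑ ^ 2 ∂mX N = N2 w.1 := fun w => by
    rw [hR _ (inV w), KK_one, ← lintegral_const_mul' _ _ ENNReal.ofReal_ne_top]
    refine lintegral_congr fun x => ?_
    show ‖(Real.sqrt R : ℂ) * W1 w.1 (up (sg N x))‖ₑ ^ 2 = _
    rw [enorm_mul, mul_pow, ← ofReal_norm (Real.sqrt R : ℂ), Complex.norm_real,
      Real.norm_of_nonneg (Real.sqrt_nonneg R), ← ENNReal.ofReal_pow (Real.sqrt_nonneg R),
      Real.sq_sqrt R0.le]
  have memT : ∀ w : V, MemLp (T w) 2 (mX N) := fun w =>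
    memLp_of (((cW w).measurable.comp (continuous_up.measurable.comp (measurable_sg N))).const_mul _)
      (by rw [Tn]; exact (inV w).l2 [])
  obtain ⟨K, hK⟩ := ext_iso j hj (toL T memT) fun w =>
    norm_eq_of_sq (by rw [jn, ← Tn]; exact enorm_toLp_sq (memT w))
  have irr := irr_of hI j hj ρ K (fun w g => (Real.sqrt R : ℂ) * W1 w.1 g)
    (fun w => (cW w).measurable.const_mul _)
    (fun w u hu g => by
      have e := hW.eqv N (fun _ => 1) w.1 (inV w).aut.cont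
        (fun γ _ g => (inV w).aut.zinv γ g) u hu g
      have e1 : zv (fun _ : Fin N => (1 : ℤ)) = fun _ => 1 := by
        ext i
        simp [zv]
      rw [e1] at e
      simp only [W1, e]
      ring)
    (fun w a => by
      rw [hρ, hK]
      filter_upwards [(memT (r a w)).coeFn_toLp] with x hx
      refine hx.trans ?_
      show (Real.sqrt R : ℂ) * W1 (rt a w.1) (up (sg N x)) = _
      rw [W1, Wf_rt]
      rfl)
  have mF : ∀ {Φ : G (N + 1) → ℂ}, Form α Φ → MemLp Φ 2 (nu (N + 1)) := fun h =>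
    memLp_of h.aut.cont.measurable h.l2
  have fix : ∀ {Φ : G (N + 1) → ℂ} (h : Form α Φ), ∃ x : H, x.1 = (mF h).toLp Φ ∧
      ∀ a, IsO a → ρ a x = x := fun {Φ} h => by
    have nr : ∀ (w : V) (ε : ℝ), 0 < ε → N2 (Φ - w.1) ≤ ENNReal.ofReal ε ^ 2 →
        ‖(mF h).toLp Φ - ι w‖ ≤ ε := fun w ε hε hw => by
      have e : (mF h).toLp Φ - ι w = ((mF h).sub (mem w)).toLp (Φ - w.1) :=
        (MemLp.toLp_sub (mF h) (mem w)).symm
      have e1 : ‖(mF h).toLp Φ - ι w‖ₑ ^ 2 ≤ ENNReal.ofReal ε ^ 2 := by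
        rw [e]
        exact (enorm_toLp_sq _).trans_le hw
      rw [← ofReal_norm, ENNReal.pow_le_pow_left_iff two_ne_zero] at e1
      exact (ENNReal.ofReal_le_ofReal_iff hε.le).1 e1
    have ap : ∀ ε : ℝ, 0 < ε → ∃ w : V, ‖(mF h).toLp Φ - ι w‖ ≤ ε ∧
        ∀ a, IsO a → ‖(mF h).toLp Φ - ι (r a w)‖ ≤ ε := fun ε hε => by
      obtain ⟨w, c, hw, hc⟩ := approx hV hL h (ε := ENNReal.ofReal ε ^ 2)
        (ENNReal.pow_pos (ENNReal.ofReal_pos.2 hε) 2)
      let w' : V := ⟨c • w, V.smul_mem c ((hVm w).2 hw)⟩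
      refine ⟨w', nr w' ε hε hc, fun a ha => nr (r a w') ε hε ?_⟩
      have e := hV.n2rt _ _ (aut_sub h.aut hw.aut c) a
      have e1 : rt a (Φ - c • w) = Φ - rt a (c • w) := funext fun g =>
        congrArg (fun t => t - c • w (g * a)) (congrFun (h.sph a ha) g)
      rw [e1] at e
      exact e.trans_le hc
    have xm : (mF h).toLp Φ ∈ H := by
      refine Metric.mem_closure_iff.2 fun ε hε => ?_
      obtain ⟨w, hw, -⟩ := ap (ε / 2) (half_pos hε)
      refine ⟨ι w, LinearMap.mem_range_self ι w, ?_⟩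
      rw [dist_eq_norm]
      exact hw.trans_lt (half_lt_self hε)
    refine ⟨⟨_, xm⟩, rfl, fun a ha => eq_of_forall_dist_le fun ε hε => ?_⟩
    obtain ⟨w, h1, h2⟩ := ap (ε / 2) (half_pos hε)
    have t := dist_triangle (ρ a ⟨_, xm⟩) (ρ a (j w)) ⟨_, xm⟩
    have t1 : dist (ρ a ⟨_, xm⟩) (ρ a (j w)) ≤ ε / 2 := by
      rw [LinearIsometryEquiv.dist_map, Subtype.dist_eq, dist_eq_norm]
      exact h1
    have t2 : dist (ρ a (j w)) ⟨_, xm⟩ ≤ ε / 2 := by
      rw [hρ, dist_comm, Subtype.dist_eq, dist_eq_norm]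
      exact h2 a ha
    linarith
  obtain ⟨x, x1, x2⟩ := fix hF
  obtain ⟨y, y1, y2⟩ := fix hF'
  have x0 : x ≠ 0 := fun e => by
    have e1 := enorm_toLp_sq (mF hF)
    rw [← x1, e] at e1
    exact hF.ne (hQ.pos _ F hF.aut (e1.symm.trans (by simp)))
  obtain ⟨c, hc⟩ := hG (N + 1) H ρ irr x y x0 x2 y2
  refine ⟨c, sub_eq_zero.1 (hQ.pos _ _ (aut_sub hF'.aut hF.aut c) ?_)⟩
  have e := enorm_toLp_sq ((mF hF').sub ((mF hF).const_smul c))
  rw [MemLp.toLp_sub (mF hF') ((mF hF).const_smul c), MemLp.toLp_const_smul c (mF hF), ← x1, ← y1,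
    hc] at e
  exact e.symm.trans (by simp)

end Pool.Agent.Lib.MP_fa98d2_nt.D
end
end
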