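import Pool.Agent.Lib.MP_fa98d2_nt.D.Calc

-- part Pool.Agent.Lib.MP_fa98d2_nt.D.HW
section

/-! The action of the Hecke representatives of one type on Whittaker coefficients. -/

open MeasureTheory Filter Topology Matrix
open scoped ENNReal Real ContDiff ComplexConjugate

noncomputable section

namespace Pool.Agent.Lib.MP_fa98d2_nt.D

namespace HW

variable {k : ℕ}

/-! ### Integrals over the cube -/

lemma cub_eq (k : ℕ) : cub k = volume.restrict (Set.Icc (0 : Fin k → ℝ) 1) :=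
  Measure.restrict_congr_set Measure.univ_pi_Ico_ae_eq_Icc

lemma integrable_cub {K : (Fin k → ℝ) → ℂ} (hK : Continuous K) : Integrable K (cub k) := by
  rw [cub_eq]
  exact hK.continuousOn.integrableOn_compact isCompact_Icc

lemma continuous_eeDot (ξ : Fin k → ℤ) : Continuous fun b : Fin k → ℝ => ee (-(zv ξ ⬝ᵥ b)) :=
  continuous_ee.comp (continuous_const.dotProduct continuous_id).neg

lemma continuous_cfU (ξ : Fin k → ℤ) {F : G (k + 1) → ℂ} (hF : Continuous F) :
    Continuous (cfU ξ F) := by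
  unfold cfU fc
  rw [cub_eq]
  exact continuous_parametric_integral_of_continuous
    (f := fun (g : G (k + 1)) (b : Fin k → ℝ) => F (nb b * g) * ee (-(zv ξ ⬝ᵥ b)))
    ((hF.comp ((continuous_nb.comp continuous_snd).mul continuous_fst)).mul
      ((continuous_eeDot ξ).comp continuous_snd)) isCompact_Icc

lemma per_ee (ξ z : Fin k → ℤ) (b : Fin k → ℝ) :
    ee (-(zv ξ ⬝ᵥ (zv z + b))) = ee (-(zv ξ ⬝ᵥ b)) := by
  have : -(zv ξ ⬝ᵥ (zv z + b)) = ((-(ξ ⬝ᵥ z) : ℤ) : ℝ) + -(zv ξ ⬝ᵥ b) := by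
    simp [dotProduct, zv, mul_add, Finset.sum_add_distrib, add_comm]
  rw [this, ee_add, ee_int, one_mul]

lemma per_nb {F : G (k + 1) → ℂ} (hZ : UZInv F) (g : G (k + 1)) : Per fun b => F (nb b * g) := by
  intro z b
  have h : IsU (iz (pb 1 z)) := by rw [iz_pb_one]; exact isU_nb _
  simp only [nb_add, mul_assoc, ← iz_pb_one, hZ _ h]

lemma mulVec_last {u : G (k + 1)} (hu : IsU u) (b : Fin (k + 1) → ℝ) :
    (u.val *ᵥ b) (Fin.last k) = b (Fin.last k) := by
  simp only [Matrix.mulVec, dotProduct, hu _ _ (Fin.le_last _)]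
  simp

lemma single_dot (c : ℤ) (b : Fin (k + 1) → ℝ) :
    zv (Pi.single (Fin.last k) c) ⬝ᵥ b = c * b (Fin.last k) := by
  simp [dotProduct, zv, Pi.single_apply]

/-- substitution by an integral unitriangular matrix -/
lemma glzU (hT : TorusStmt) {K : (Fin (k + 1) → ℝ) → ℂ} (hK : Continuous K) (hP : Per K)
    {γ : GZ (k + 1)} (hγ : IsU (iz γ)) (c : ℤ) :
    ∫ b, K ((iz γ).val *ᵥ b) * ee (-(zv (Pi.single (Fin.last k) c) ⬝ᵥ b)) ∂cub (k + 1) =
      ∫ b, K b * ee (-(zv (Pi.single (Fin.last k) c) ⬝ᵥ b)) ∂cub (k + 1) := by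
  rw [← hT.glz _ (fun b => K b * ee (-(zv (Pi.single (Fin.last k) c) ⬝ᵥ b)))
    (hK.mul (continuous_eeDot _)) (fun z b => by simp only [hP z b, per_ee]) γ]
  simp only [← val_iz, single_dot, mulVec_last hγ]

lemma uzinv_cfU (hT : TorusStmt) {F : G (k + 2) → ℂ} (hF : Continuous F) (hZ : UZInv F) (c : ℤ)
    (g : G (k + 2)) : UZInv fun x => cfU (Pi.single (Fin.last k) c) F (up x * g) := by
  intro γ hγ x
  have h : IsU (iz (pb γ 0)) := by rw [iz_pb_zero]; exact hγ.up
  simp only [cfU, fc]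
  rw [← glzU hT (K := fun b => F (nb b * (up (iz γ * x) * g)))
    (hF.comp (continuous_nb.mul continuous_const)) (per_nb hZ _) hγ c]
  congr 1
  ext b
  rw [up_mul, ← mul_assoc, ← mul_assoc, ← up_mul_nb, ← iz_pb_zero, mul_assoc, mul_assoc, hZ _ h]

/-- the averaged function of `scaleIn` is periodic -/
lemma per_in {p : ℕ} (hp : 0 < p) (I : Finset (Fin k)) {H : (Fin k → ℝ) → ℂ} (hH : Per H) :
    Per fun y => ∑ v ∈ Fintype.piFinset fun i => if i ∈ I then ({0} : Finset ℕ) else Finset.range p,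
      H fun i => if i ∈ I then y i else ((v i : ℝ) + y i) / p := by
  intro z y
  have hp' : (0 : ℤ) < p := by exact_mod_cast hp
  have hpr : (p : ℝ) ≠ 0 := by exact_mod_cast hp.ne'
  let σ : (Fin k → ℤ) → (Fin k → ℕ) → Fin k → ℕ := fun z v i =>
    if i ∈ I then 0 else (((v i : ℤ) + z i) % p).toNat
  have cast : ∀ z v i, i ∉ I → (σ z v i : ℤ) = ((v i : ℤ) + z i) % p := fun z v i hi => by
    simp only [σ, if_neg hi]
    exact Int.toNat_of_nonneg (Int.emod_nonneg _ hp'.ne')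
  have mem : ∀ z v, σ z v ∈ Fintype.piFinset fun i =>
      if i ∈ I then ({0} : Finset ℕ) else Finset.range p := fun z v => by
    refine Fintype.mem_piFinset.2 fun i => ?_
    by_cases hi : i ∈ I
    · simp [σ, hi]
    · rw [if_neg hi, Finset.mem_range]
      have := Int.emod_lt_of_pos ((v i : ℤ) + z i) hp'
      rw [← cast z v i hi] at this
      exact_mod_cast this
  have inv : ∀ z z' : Fin k → ℤ, (∀ i, z i + z' i = 0) → ∀ v ∈ Fintype.piFinset fun i =>
      if i ∈ I then ({0} : Finset ℕ) else Finset.range p, σ z' (σ z v) = v := by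
    intro z z' e v hv
    ext i
    have h := Fintype.mem_piFinset.1 hv i
    by_cases hi : i ∈ I
    · rw [if_pos hi, Finset.mem_singleton] at h
      simp [σ, hi, h]
    · rw [if_neg hi, Finset.mem_range] at h
      have : (σ z' (σ z v) i : ℤ) = v i := by
        rw [cast _ _ i hi, cast _ _ i hi, Int.emod_add_emod, add_assoc, e, add_zero]
        exact Int.emod_eq_of_lt (by positivity) (by exact_mod_cast h)
      exact_mod_cast this
  refine Finset.sum_nbij' (σ z) (σ (-z)) (fun v _ => mem _ _) (fun v _ => mem _ _)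
    (inv _ _ fun i => by simp) (inv _ _ fun i => by simp) fun v _ => ?_
  refine Eq.trans (congrArg H ?_) (hH (fun i => if i ∈ I then z i else ((v i : ℤ) + z i) / p) _)
  ext i
  by_cases hi : i ∈ I
  · simp [zv, hi]
  · have h1 : ((σ z v i : ℕ) : ℝ) = ((((v i : ℤ) + z i) % p : ℤ) : ℝ) := by
      rw [← cast z v i hi]; simp
    have h2 : ((((v i : ℤ) + z i) % p : ℤ) : ℝ) + p * ((((v i : ℤ) + z i) / p : ℤ) : ℝ) =
        v i + z i := by exact_mod_cast Int.emod_add_mul_ediv ((v i : ℤ) + z i) p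
    simp only [zv, Pi.add_apply, if_neg hi, h1]
    field_simp
    linarith

lemma per_out (p : ℕ) (I : Finset (Fin k)) {H : (Fin k → ℝ) → ℂ} (hH : Per H) :
    Per fun y : Fin k → ℝ => H fun i => if i ∈ I then p * y i else y i := by
  intro z y
  refine Eq.trans (congrArg H ?_) (hH (fun i => if i ∈ I then p * z i else z i) _)
  ext i
  by_cases hi : i ∈ I <;> simp [zv, hi, mul_add]

/-! ### The representatives -/

lemma dI_ne {p : ℕ} (hp : 0 < p) (I : Finset (Fin k)) (i : Fin k) : (dI p I i : ℝ) ≠ 0 := by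
  unfold dI
  split_ifs
  · exact_mod_cast hp.ne'
  · simp

lemma reps_zero {p : ℕ} {I : Finset (Fin k)} {v : Fin k → Fin k → ℕ} (hv : v ∈ reps p I)
    {a b : Fin k} (h : ¬ (a < b ∧ a ∉ I ∧ b ∈ I)) : v a b = 0 := by
  have := Fintype.mem_piFinset.1 (Fintype.mem_piFinset.1 hv a) b
  rwa [if_neg h, Finset.mem_singleton] at this

lemma hm_eq {p : ℕ} (hp : 0 < p) {I : Finset (Fin k)} {v : Fin k → Fin k → ℕ}
    (hv : v ∈ reps p I) : (hm p I v).val = hmat ℝ p I v ∧
      ∃ γ : GZ k, IsU (iz γ) ∧ hm p I v = dg (fun i => dI p I i) * iz γ := by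
  have low : ∀ a b, b < a → v a b = 0 := fun a b h => reps_zero hv fun q => lt_asymm h q.1
  have hd : (hmat ℤ 1 I v).det = 1 := by
    rw [Matrix.det_of_isUpperTriangular]
    · simp [hmat]
    · intro a b h
      simp [hmat, low a b h, (show b < a from h).ne']
  let γ : GZ k := Matrix.GeneralLinearGroup.mk'' (hmat ℤ 1 I v) (by rw [hd]; exact isUnit_one)
  have e : (dg (fun i => dI p I i) * iz γ).val = hmat ℝ p I v := by
    rw [Units.val_mul, val_dg (dI_ne hp I), val_iz]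
    ext a b
    rw [Matrix.diagonal_mul]
    change _ * ((hmat ℤ 1 I v a b : ℤ) : ℝ) = _
    by_cases h : a = b
    · simp [hmat, h, dI]
    · by_cases ha : a ∈ I
      · simp [hmat, h, reps_zero hv (a := a) (b := b) fun q => q.2.1 ha]
      · simp [hmat, h, dI, ha]
  have e2 : hm p I v = dg (fun i => dI p I i) * iz γ := by rw [hm, ← e, mkG_val]
  refine ⟨by rw [e2, e], γ, fun a b h => ?_, e2⟩
  change ((hmat ℤ 1 I v a b : ℤ) : ℝ) = _
  by_cases q : a = b
  · simp [hmat, q]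
  · simp [hmat, q, low a b (lt_of_le_of_ne h (Ne.symm q))]

/-- the type of the upper left block -/
def pre (I : Finset (Fin (k + 1))) : Finset (Fin k) := Finset.univ.filter fun i => i.castSucc ∈ I

@[simp] lemma mem_pre {I : Finset (Fin (k + 1))} {i : Fin k} : i ∈ pre I ↔ i.castSucc ∈ I := by
  simp [pre]

lemma dI_pre (p : ℕ) (I : Finset (Fin (k + 1))) (i : Fin k) : dI p (pre I) i = dI p I i.castSucc := by
  simp [dI]

/-- the possible last columns -/
def col (p : ℕ) (I : Finset (Fin (k + 1))) : Finset (Fin k → ℕ) :=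
  Fintype.piFinset fun a => if a ∉ pre I ∧ Fin.last k ∈ I then Finset.range p else {0}

/-- block and last column put together -/
def join (v : Fin k → Fin k → ℕ) (w : Fin k → ℕ) : Fin (k + 1) → Fin (k + 1) → ℕ :=
  Fin.snoc (fun a => Fin.snoc (v a) (w a)) 0

@[simp] lemma join_cc (v : Fin k → Fin k → ℕ) (w : Fin k → ℕ) (a b : Fin k) :
    join v w a.castSucc b.castSucc = v a b := by simp [join]

@[simp] lemma join_cl (v : Fin k → Fin k → ℕ) (w : Fin k → ℕ) (a : Fin k) :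
    join v w a.castSucc (Fin.last k) = w a := by simp [join]

@[simp] lemma join_l (v : Fin k → Fin k → ℕ) (w : Fin k → ℕ) (b : Fin (k + 1)) :
    join v w (Fin.last k) b = 0 := by simp [join]

lemma join_mem {p : ℕ} {I : Finset (Fin (k + 1))} {v : Fin k → Fin k → ℕ} {w : Fin k → ℕ} :
    join v w ∈ reps p I ↔ v ∈ reps p (pre I) ∧ w ∈ col p I := by
  simp only [reps, col, Fintype.mem_piFinset, Fin.forall_fin_succ', join_cc, join_cl, join_l,
    mem_pre, Fin.castSucc_lt_castSucc_iff, Fin.castSucc_lt_last, true_and, forall_and]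
  simp [(Fin.le_last _).not_gt]

lemma sum_reps {p : ℕ} (I : Finset (Fin (k + 1))) (f : (Fin (k + 1) → Fin (k + 1) → ℕ) → ℂ) :
    ∑ v ∈ reps p I, f v = ∑ v ∈ reps p (pre I), ∑ w ∈ col p I, f (join v w) := by
  have e : ∀ v ∈ reps p I, join (fun a b => v a.castSucc b.castSucc)
      (fun a => v a.castSucc (Fin.last k)) = v := fun v hv => by
    ext a b
    refine Fin.lastCases ?_ (fun a => ?_) a
    · rw [join_l, reps_zero hv fun q => (Fin.le_last _).not_gt q.1]
    · refine Fin.lastCases ?_ (fun b => ?_) b <;> simp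
  rw [← Finset.sum_product']
  refine Finset.sum_nbij' (fun v => (fun a b => v a.castSucc b.castSucc,
    fun a => v a.castSucc (Fin.last k))) (fun x => join x.1 x.2) (fun v hv => ?_)
    (fun x hx => join_mem.2 (Finset.mem_product.1 hx)) e (fun x _ => by simp) fun v hv => ?_
  · exact Finset.mem_product.2 (join_mem.1 (by rwa [e v hv]))
  · rw [e v hv]

/-- the diagonal element with one entry in the last place -/
def eL (k : ℕ) (d : ℝ) : G (k + 1) := dg (Fin.snoc (fun _ => 1) d)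

lemma snoc_ne {d : ℝ} (hd : d ≠ 0) (i : Fin (k + 1)) :
    (Fin.snoc (fun _ => 1) d : Fin (k + 1) → ℝ) i ≠ 0 := by
  refine Fin.lastCases ?_ (fun i => ?_) i <;> simp [hd]

lemma eL_pb {d : ℝ} (hd : d ≠ 0) (h : G k) (c : Fin k → ℝ) :
    eL k d * pb h c = pb h (fun i => c i / d) * eL k d := by
  apply Units.ext
  rw [Units.val_mul, Units.val_mul, eL, val_dg (snoc_ne hd)]
  ext a b
  rw [Matrix.diagonal_mul, Matrix.mul_diagonal]
  refine Fin.lastCases ?_ (fun a => ?_) a <;> refine Fin.lastCases ?_ (fun b => ?_) b <;>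
    simp [hd]

lemma hm_join {p : ℕ} (hp : 0 < p) {I : Finset (Fin (k + 1))} {v : Fin k → Fin k → ℕ}
    {w : Fin k → ℕ} (hv : v ∈ reps p (pre I)) (hw : w ∈ col p I) :
    hm p I (join v w) = eL k (dI p I (Fin.last k)) * pb (hm p (pre I) v) fun a => w a := by
  apply Units.ext
  rw [(hm_eq hp (join_mem.2 ⟨hv, hw⟩)).1, Units.val_mul, eL, val_dg (snoc_ne (dI_ne hp I _)),
    val_pb, (hm_eq hp hv).1]
  ext a b
  rw [Matrix.diagonal_mul]
  refine Fin.lastCases ?_ (fun a => ?_) a <;> refine Fin.lastCases ?_ (fun b => ?_) b <;>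
    simp [hmat, dI, Fin.castSucc_ne_last, (Fin.castSucc_ne_last _).symm]

lemma dg_split {p : ℕ} (hp : 0 < p) (I : Finset (Fin (k + 1))) :
    dg (fun i => (dI p I i : ℝ)) =
      up (dg fun i => dI p (pre I) i) * eL k (dI p I (Fin.last k)) := by
  rw [up_dg (dI_ne hp _), eL, dg_mul _ (snoc_ne (dI_ne hp I _))]
  · congr 1
    ext i
    refine Fin.lastCases ?_ (fun i => ?_) i <;> simp [dI_pre]
  · intro i
    refine Fin.lastCases ?_ (fun i => ?_) i <;> simp [dI_ne hp]

lemma nI_succ (I : Finset (Fin (k + 1))) :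
    nI I = nI (pre I) + if Fin.last k ∈ I then k - (pre I).card else 0 := by
  have h : k - (pre I).card = ∑ a : Fin k, if a.castSucc ∉ I then 1 else 0 := by
    rw [← Finset.card_filter]
    have := Finset.card_compl (pre I)
    rw [Fintype.card_fin] at this
    rw [← this]
    congr 1
    ext a
    simp
  simp only [nI, Finset.card_filter, Fintype.sum_prod_type, Fin.sum_univ_castSucc, h,
    Finset.sum_add_distrib, mem_pre, Fin.castSucc_lt_castSucc_iff, Fin.castSucc_lt_last]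
  by_cases q : Fin.last k ∈ I <;> simp [q, (Fin.le_last _).not_gt]

/-! ### One step -/

lemma step (hT : TorusStmt) {p : ℕ} (hp : 0 < p) (I : Finset (Fin (k + 2))) {F : G (k + 2) → ℂ}
    (hF : Continuous F) (hZ : UZInv F) (c : ℤ) (g : G (k + 2)) (x : G (k + 1)) :
    cfU (Pi.single (Fin.last k) c) (TI p I F) (up x * g) =
      ((p : ℂ) ^ (if Fin.last (k + 1) ∈ I then k + 1 - (pre I).card else 0) *
        if (dI p I (Fin.last k).castSucc : ℤ) ∣ c * dI p I (Fin.last (k + 1)) then 1 else 0) *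
      TI p (pre I) (fun y => cfU (Pi.single (Fin.last k)
        (c * dI p I (Fin.last (k + 1)) / dI p I (Fin.last k).castSucc)) F
          (up y * (eL (k + 1) (dI p I (Fin.last (k + 1))) * g))) x := by
  have hpr : (p : ℝ) ≠ 0 := by exact_mod_cast hp.ne'
  have hpz : (p : ℤ) ≠ 0 := by exact_mod_cast hp.ne'
  set e := eL (k + 1) (dI p I (Fin.last (k + 1))) with he
  have cH : ∀ g', Continuous fun b : Fin (k + 1) → ℝ => F (nb b * g') := fun g' =>
    hF.comp (continuous_nb.mul continuous_const)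
  rw [cfU, fc]
  simp only [TI]
  rw [Finset.mul_sum]
  simp only [sum_reps I, Finset.sum_mul (s := reps p (pre I))]
  rw [integral_finsetSum]
  swap
  · exact fun v _ => integrable_cub ((continuous_finsetSum _ fun w _ =>
      hF.comp (continuous_const.mul (continuous_nb.mul continuous_const))).mul
        (continuous_eeDot _))
  refine Finset.sum_congr rfl fun v hv => ?_
  obtain ⟨-, γ, hγ, eγ⟩ := hm_eq hp hv
  set g' := up (hm p (pre I) v * x) * (e * g) with hg'
  have key : ∀ w ∈ col p I, ∀ b, hm p I (join v w) * (nb b * (up x * g)) =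
      nb (fun i => ((w i : ℝ) + dI p (pre I) i * ((iz γ).val *ᵥ b) i) /
        dI p I (Fin.last (k + 1))) * g' := fun w hw b => by
    rw [hm_join hp hv hw, ← mul_assoc (nb b), nb_mul_up, ← mul_assoc, mul_assoc (eL _ _), pb_mul,
      eL_pb (dI_ne hp I _), hg', ← mul_assoc (nb _), nb_mul_up, mul_assoc]
    congr 2
    ext i
    rw [eγ, Units.val_mul, val_dg (dI_ne hp _), ← Matrix.mulVec_mulVec, Pi.add_apply,
      Matrix.mulVec_diagonal, add_comm]
  by_cases hl : Fin.last (k + 1) ∈ I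
  · have h1 := glzU hT (continuous_finsetSum _ fun w _ => (cH g').comp (continuous_pi fun i => by
      by_cases hi : i ∈ pre I <;> simp only [hi, if_true, if_false] <;> fun_prop))
      (per_in hp (pre I) (per_nb hZ g')) hγ c
    have h2 := hT.scaleIn _ p hp (pre I) _ (cH g') (per_nb hZ g') (Pi.single (Fin.last k) c)
    have ec : col p I = Fintype.piFinset fun i =>
        if i ∈ pre I then ({0} : Finset ℕ) else Finset.range p := by
      simp only [col, hl, and_true, ite_not]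
    have ed : (dI p I (Fin.last k).castSucc : ℤ) ∣ c * dI p I (Fin.last (k + 1)) := by
      simp only [dI, hl, if_true]
      split_ifs <;> simp
    rw [if_pos hl, if_pos ed, mul_one, cfU]
    refine Eq.trans ?_ ((h1.trans h2).trans ?_)
    · congr 1
      ext b
      rw [← ec]
      congr 1
      refine Finset.sum_congr rfl fun w hw => ?_
      rw [key w hw, Function.comp_apply]
      congr 3
      ext i
      by_cases hi : i ∈ pre I
      · have := Fintype.mem_piFinset.1 (ec ▸ hw) i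
        rw [if_pos hi, Finset.mem_singleton] at this
        simp only [dI, hi, hl, if_true, this]
        field_simp
        simp
      · simp only [dI, hi, hl, if_true, if_false]
        simp
    · congr 2
      ext i
      by_cases hi : i = Fin.last k
      · subst hi
        by_cases q : (Fin.last k).castSucc ∈ I
        · simp [dI, hl, q, Int.mul_ediv_cancel _ hpz]
        · simp [dI, hl, q, mul_comm]
      · simp [hi]
  · have h1 := glzU hT ((cH g').comp (continuous_pi fun i => by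
      by_cases hi : i ∈ pre I <;> simp only [hi, if_true, if_false] <;> fun_prop))
      (per_out p (pre I) (per_nb hZ g')) hγ c
    have h2 := hT.scaleOut _ p hp (pre I) _ (cH g') (per_nb hZ g') (Pi.single (Fin.last k) c)
    have ec : col p I = {0} := by
      simp only [col, hl, and_false, if_false]
      exact Fintype.piFinset_singleton _
    rw [if_neg hl, pow_zero, one_mul, cfU]
    refine Eq.trans ?_ ((h1.trans h2).trans ?_)
    · congr 1
      ext b
      rw [ec, Finset.sum_singleton, key 0 (by simp [ec]), Function.comp_apply]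
      congr 4
      ext i
      by_cases hi : i ∈ pre I <;> simp only [dI, hi, hl, if_true, if_false] <;> simp
    · have ed : (∀ i ∈ pre I, (p : ℤ) ∣ (Pi.single (Fin.last k) c : Fin (k + 1) → ℤ) i) ↔
          (dI p I (Fin.last k).castSucc : ℤ) ∣ c * dI p I (Fin.last (k + 1)) := by
        by_cases q : (Fin.last k).castSucc ∈ I
        · simp only [dI, q, hl, if_true, if_false, Nat.cast_one, mul_one]
          refine ⟨fun h => by simpa using h _ (mem_pre.2 q), fun h i _ => ?_⟩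
          by_cases hi : i = Fin.last k <;> simp [hi, h]
        · simp only [dI, q, hl, if_false, Nat.cast_one, one_dvd, iff_true]
          intro i hi
          have : i ≠ Fin.last k := fun h => q (mem_pre.1 (h ▸ hi))
          simp [this]
      simp only [ed]
      split_ifs
      · rw [one_mul]
        congr 1
        ext i
        by_cases hi : i = Fin.last k
        · subst hi
          by_cases q : (Fin.last k).castSucc ∈ I <;> simp [dI, hl, q]
        · simp [hi]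
      · rw [zero_mul]

end HW

open HW in
theorem hw (hT : TorusStmt) (hW : WhStmt) : HWStmt := by
  intro k p hp
  induction k with
  | zero =>
    intro I F _ _ m g
    have h1 : reps p I = {0} := by
      have : ∀ a b : Fin 1, ¬ a < b := fun a b => by simp [Subsingleton.elim a b]
      simp only [reps, this, false_and, if_false, Fintype.piFinset_singleton]
      rfl
    have h2 : nI I = 0 := by
      have : ∀ a b : Fin 1, ¬ a < b := fun a b => by simp [Subsingleton.elim a b]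
      simp [nI, this]
    obtain ⟨-, γ, hγ, e⟩ := hm_eq (I := I) (v := 0) hp (by simp [h1])
    have h3 : iz γ = 1 := by
      apply Units.ext
      ext a b
      rw [hγ a b (by omega)]
      simp [Matrix.one_apply]
    simp [Wf_zero, TI, h1, h2, e, h3]
  | succ k ih =>
    intro I F hF hZ m g
    set e := eL (k + 1) (dI p I (Fin.last (k + 1))) with he
    set F1 : G (k + 1) → ℂ := fun y => cfU (Pi.single (Fin.last k)
      (m (Fin.last k) * dI p I (Fin.last (k + 1)) / dI p I (Fin.last k).castSucc)) F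
        (up y * (e * g)) with hF1
    have h1 := Wf_succ m (TI p I F) 1 g
    rw [up_one, one_mul] at h1
    have h2 := ih (pre I) F1 ((continuous_cfU _ hF).comp (continuous_up.mul continuous_const))
      (uzinv_cfU hT hF hZ _ _) (Fin.init m) 1
    have h0 : (fun x => cfU (Pi.single (Fin.last k) (m (Fin.last k))) (TI p I F) (up x * g)) =
        ((p : ℂ) ^ (if Fin.last (k + 1) ∈ I then k + 1 - (pre I).card else 0) *
        if (dI p I (Fin.last k).castSucc : ℤ) ∣ m (Fin.last k) * dI p I (Fin.last (k + 1)) then 1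
          else 0) • TI p (pre I) F1 := funext fun x => step hT hp I hF hZ _ g x
    rw [h1, h0, hW.smul, Pi.smul_apply, smul_eq_mul, h2, nI_succ I, pow_add, dg_split hp I,
      mul_assoc (up _), Wf_succ, mul_one]
    simp only [Fin.forall_fin_succ', dI_pre, Fin.succ_last, Fin.succ_castSucc, Fin.init_def]
    by_cases c1 : (dI p I (Fin.last k).castSucc : ℤ) ∣
      m (Fin.last k) * dI p I (Fin.last (k + 1))
    · simp only [c1, and_true, if_true, mul_one]
      rw [← mul_assoc, mul_comm ((p : ℂ) ^ nI (pre I))]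
    · simp only [c1, and_false, if_false, mul_zero, zero_mul]

end Pool.Agent.Lib.MP_fa98d2_nt.D
end
end

-- part Pool.Agent.Lib.MP_fa98d2_nt.D.Shin
section

/-!
Whittaker coefficients of a Hecke eigenfunction: the formula of Shintani.
-/

open MeasureTheory Filter Topology Matrix
open scoped ENNReal Real

noncomputable section

namespace Pool.Agent.Lib.MP_fa98d2_nt.D

namespace Shin

variable {k N : ℕ}

/-! ### The modulus -/

lemma dl_pos {a : Fin k → ℝ} (ha : ∀ i, 0 < a i) : 0 < dl a :=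
  Finset.prod_pos fun i _ => Finset.prod_pos fun j _ => div_pos (ha i) (ha j)

lemma dl_mul (a b : Fin k → ℝ) : dl (fun i => a i * b i) = dl a * dl b := by
  simp only [dl, ← Finset.prod_mul_distrib, mul_div_mul_comm]

lemma dl_one : dl (fun _ : Fin k => (1 : ℝ)) = 1 := by simp [dl]

/-- pairs in increasing order that leave `I` -/
def nO (I : Finset (Fin k)) : ℕ :=
  (Finset.univ.filter fun x : Fin k × Fin k => x.1 < x.2 ∧ x.1 ∈ I ∧ x.2 ∉ I).card

lemma nO_add (I : Finset (Fin k)) : nO I + nI I = I.card * (k - I.card) := by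
  have h1 : (I ×ˢ Iᶜ).card = I.card * (k - I.card) := by
    rw [Finset.card_product, Finset.card_compl, Fintype.card_fin]
  rw [← h1, ← Finset.card_filter_add_card_filter_not (s := I ×ˢ Iᶜ) fun x => x.1 < x.2]
  congr 1
  · unfold nO
    congr 1
    ext x
    simp only [Finset.mem_filter, Finset.mem_univ, true_and, Finset.mem_product, Finset.mem_compl]
    tauto
  · unfold nI
    refine Finset.card_nbij' Prod.swap Prod.swap (fun x hx => ?_) (fun x hx => ?_)
      (fun x _ => rfl) fun x _ => rfl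
    · simp only [Finset.coe_filter, Finset.mem_univ, true_and, Set.mem_ofPred_eq, Finset.mem_product,
        Finset.mem_compl, Prod.fst_swap, Prod.snd_swap] at hx ⊢
      exact ⟨⟨hx.2.2, hx.2.1⟩, not_lt.2 hx.1.le⟩
    · simp only [Finset.coe_filter, Finset.mem_univ, true_and, Set.mem_ofPred_eq, Finset.mem_product,
        Finset.mem_compl, Prod.fst_swap, Prod.snd_swap] at hx ⊢
      refine ⟨lt_of_le_of_ne (not_lt.1 hx.2) fun e => hx.1.2 (e ▸ hx.1.1), hx.1.2, hx.1.1⟩

lemma dl_dI {p : ℕ} (hp : 0 < p) (I : Finset (Fin k)) :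
    dl (fun i => (dI p I i : ℝ)) = (p : ℝ) ^ nO I / (p : ℝ) ^ nI I := by
  have hp' : (p : ℝ) ≠ 0 := Nat.cast_ne_zero.2 hp.ne'
  have h1 : dl (fun i => (dI p I i : ℝ)) = ∏ x : Fin k × Fin k,
      (if x.1 < x.2 ∧ x.1 ∈ I ∧ x.2 ∉ I then (p : ℝ) else 1) /
        (if x.1 < x.2 ∧ x.1 ∉ I ∧ x.2 ∈ I then (p : ℝ) else 1) := by
    rw [Fintype.prod_prod_type]
    refine Finset.prod_congr rfl fun i _ => ?_
    have : Finset.Ioi i = Finset.univ.filter fun j => i < j := by ext j; simp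
    rw [this, Finset.prod_filter]
    refine Finset.prod_congr rfl fun j _ => ?_
    by_cases a : i < j <;> by_cases b : i ∈ I <;> by_cases c : j ∈ I <;> simp [dI, a, b, c, hp']
  rw [h1, Finset.prod_div_distrib, ← Finset.prod_filter, ← Finset.prod_filter, Finset.prod_const,
    Finset.prod_const]
  rfl

lemma dI_pos {p : ℕ} (hp : 0 < p) (I : Finset (Fin k)) (i : Fin k) : (0 : ℝ) < dI p I i := by
  unfold dI
  split_ifs
  · exact Nat.cast_pos.2 hp
  · simp

lemma hecke_pow {p : ℕ} (hp : 0 < p) (I : Finset (Fin k)) :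
    (p : ℝ) ^ ((I.card : ℝ) * ((k : ℝ) - I.card) / 2) =
      dl (fun i => (dI p I i : ℝ)) ^ (1 / 2 : ℝ) * (p : ℝ) ^ nI I := by
  have hp' : (0 : ℝ) < p := Nat.cast_pos.2 hp
  have hc : I.card ≤ k := by simpa using I.card_le_univ
  have h1 : (I.card : ℝ) * ((k : ℝ) - I.card) = (nO I : ℝ) + nI I := by
    rw [← Nat.cast_add, nO_add, Nat.cast_mul, Nat.cast_sub hc]
  rw [h1, dl_dI hp, ← Real.rpow_natCast, ← Real.rpow_natCast, ← Real.rpow_sub hp',
    ← Real.rpow_mul hp'.le, ← Real.rpow_add hp']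
  congr 1
  ring

/-! ### Linearity -/

lemma cont_TI (p : ℕ) (I : Finset (Fin k)) {F : G k → ℂ} (hF : Continuous F) :
    Continuous (TI p I F) :=
  continuous_finsetSum _ fun _ _ => hF.comp (continuous_const_mul _)

lemma Wf_sum (hW : WhStmt) (m : Fin k → ℤ) {ι : Type} (s : Finset ι) (f : ι → G (k + 1) → ℂ)
    (hf : ∀ i, Continuous (f i)) : Wf m (∑ i ∈ s, f i) = ∑ i ∈ s, Wf m (f i) := by
  classical
  induction s using Finset.induction_on with
  | empty => simpa using hW.smul k m 0 0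
  | insert i s hi ih =>
    rw [Finset.sum_insert hi, Finset.sum_insert hi, hW.add k m _ _ (hf i), ih]
    have : (∑ i ∈ s, f i) = fun g => ∑ i ∈ s, f i g := by ext g; simp
    rw [this]
    exact continuous_finsetSum _ fun j _ => hf j

lemma Wf_hecke (hW : WhStmt) {α : ℕ → Fin (k + 1) → ℂ} {F : G (k + 1) → ℂ} (hF : Continuous F)
    (hk : Hk α F) {p : ℕ} (hp : p.Prime) {r : ℕ} (hr : r ≤ k + 1) (m : Fin k → ℤ)
    (g : G (k + 1)) :
    ∑ I ∈ Finset.powersetCard r Finset.univ, Wf m (TI p I F) g =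
      (((p : ℝ) ^ ((r : ℝ) * (((k + 1 : ℕ) : ℝ) - r) / 2) : ℝ) : ℂ) * esy (α p) (k + 1 - r) *
        Wf m F g := by
  have h1 : (∑ I ∈ Finset.powersetCard r Finset.univ, TI p I F) =
      ((((p : ℝ) ^ ((r : ℝ) * (((k + 1 : ℕ) : ℝ) - r) / 2) : ℝ) : ℂ) * esy (α p) (k + 1 - r)) • F := by
    ext x
    rw [Finset.sum_apply]
    exact hk p hp r hr x
  have h2 := Wf_sum hW m (Finset.powersetCard r Finset.univ) (fun I => TI p I F)
    fun I => cont_TI p I hF
  rw [h1, hW.smul] at h2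
  rw [← Finset.sum_apply, ← h2]
  rfl

/-! ### The local recursion -/

lemma tm_pos (m : Fin N → ℕ+) (i : Fin (N + 1)) : 0 < tm m i :=
  Finset.prod_pos fun j _ => by
    split_ifs
    · exact Nat.cast_pos.2 (m j).pos
    · exact one_pos

/-- the diagonal entries -/
def av (p : ℕ) (m : Fin N → ℕ+) (l : Fin (N + 1) → ℤ) (i : Fin (N + 1)) : ℝ :=
  tm m i * (p : ℝ) ^ l i

/-- the frequencies -/
def mv (p : ℕ) (m : Fin N → ℕ+) (l : Fin (N + 1) → ℤ) (i : Fin N) : ℤ :=
  ((m i : ℕ) : ℤ) * (p : ℤ) ^ (l i.castSucc - l i.succ).toNat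

open Classical in
/-- the normalised coefficients -/
def Av (p : ℕ) (m : Fin N → ℕ+) (F : G (N + 1) → ℂ) (g : G (N + 1)) (l : Fin (N + 1) → ℤ) : ℂ :=
  if Antitone l then
    ((dl (av p m l) ^ (1 / 2 : ℝ) : ℝ) : ℂ) * Wf (mv p m l) F ((dg (av p m l))⁻¹ * g)
  else 0

lemma av_pos {p : ℕ} (hp : 0 < p) (m : Fin N → ℕ+) (l : Fin (N + 1) → ℤ) (i : Fin (N + 1)) :
    0 < av p m l i := mul_pos (tm_pos m i) (zpow_pos (Nat.cast_pos.2 hp) _)

lemma av_sub {p : ℕ} (hp : 0 < p) (m : Fin N → ℕ+) (l : Fin (N + 1) → ℤ) (I : Finset (Fin (N + 1))) :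
    av p m l = fun i => av p m (l - ind I) i * dI p I i := by
  have hp' : (p : ℝ) ≠ 0 := Nat.cast_ne_zero.2 hp.ne'
  ext i
  by_cases h : i ∈ I
  · simp only [av, dI, ind, h, if_true, Pi.sub_apply]
    rw [mul_assoc, ← zpow_add_one₀ hp', sub_add_cancel]
  · simp [av, dI, ind, h]

lemma dg_sub {p : ℕ} (hp : 0 < p) (m : Fin N → ℕ+) (l : Fin (N + 1) → ℤ) (I : Finset (Fin (N + 1)))
    (g : G (N + 1)) :
    dg (fun i => (dI p I i : ℝ)) * ((dg (av p m l))⁻¹ * g) = (dg (av p m (l - ind I)))⁻¹ * g := by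
  have h1 : dg (av p m l) = dg (av p m (l - ind I)) * dg fun i => (dI p I i : ℝ) := by
    rw [dg_mul (fun i => (av_pos hp m _ i).ne') fun i => (dI_pos hp I i).ne', ← av_sub hp]
  have h2 : dg (av p m l) = (dg fun i => (dI p I i : ℝ)) * dg (av p m (l - ind I)) := by
    rw [dg_mul (fun i => (dI_pos hp I i).ne') fun i => (av_pos hp m _ i).ne', av_sub hp m l I]
    simp only [mul_comm]
  have h3 : (dg (av p m l))⁻¹ = (dg fun i => (dI p I i : ℝ))⁻¹ * (dg (av p m (l - ind I)))⁻¹ := by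
    rw [h1, _root_.mul_inv_rev]
  rw [h3]
  group

lemma mv_step {p : ℕ} (hp : p.Prime) {m : Fin N → ℕ+} (hm : ∀ i, ¬ p ∣ (m i : ℕ))
    {l : Fin (N + 1) → ℤ} (hl : Antitone l) (I : Finset (Fin (N + 1))) (i : Fin N) :
    (((dI p I i.castSucc : ℤ) ∣ mv p m l i * dI p I i.succ) ↔
      (l - ind I) i.succ ≤ (l - ind I) i.castSucc) ∧
    ((l - ind I) i.succ ≤ (l - ind I) i.castSucc →
      mv p m l i * dI p I i.succ / dI p I i.castSucc = mv p m (l - ind I) i) := by
  have h0 : l i.succ ≤ l i.castSucc := hl i.castSucc_lt_succ.le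
  have hp' : (p : ℤ) ≠ 0 := Nat.cast_ne_zero.2 hp.ne_zero
  obtain ⟨d, hd⟩ : ∃ d : ℕ, l i.castSucc = l i.succ + d :=
    ⟨(l i.castSucc - l i.succ).toNat, by omega⟩
  by_cases a : i.castSucc ∈ I <;> by_cases b : i.succ ∈ I <;>
    simp only [mv, dI, ind, a, b, if_true, if_false, Pi.sub_apply, hd]
  · have e1 : (l i.succ + d - l i.succ).toNat = d := by omega
    have e2 : (l i.succ + d - 1 - (l i.succ - 1)).toNat = d := by omega
    rw [e1, e2]
    exact ⟨⟨fun _ => by omega, fun _ => Dvd.intro_left _ rfl⟩,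
      fun _ => Int.mul_ediv_cancel _ hp'⟩
  · have e1 : (l i.succ + d - l i.succ).toNat = d := by omega
    rw [e1, Nat.cast_one, mul_one]
    rcases d with _ | d
    · refine ⟨⟨fun h => absurd ?_ (hm i), fun h => by omega⟩, fun h => by omega⟩
      rw [pow_zero, mul_one] at h
      exact Int.natCast_dvd_natCast.1 h
    · have e2 : (l i.succ + (d + 1 : ℕ) - 1 - (l i.succ - 0)).toNat = d := by omega
      rw [e2, pow_succ, ← mul_assoc]
      exact ⟨⟨fun _ => by omega, fun _ => Dvd.intro_left _ rfl⟩,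
        fun _ => Int.mul_ediv_cancel _ hp'⟩
  · have e1 : (l i.succ + d - l i.succ).toNat = d := by omega
    have e2 : (l i.succ + d - 0 - (l i.succ - 1)).toNat = d + 1 := by omega
    rw [e1, e2, Nat.cast_one, Int.ediv_one, pow_succ, mul_assoc]
    exact ⟨⟨fun _ => by omega, fun _ => one_dvd _⟩, fun _ => rfl⟩
  · have e1 : (l i.succ + d - l i.succ).toNat = d := by omega
    have e2 : (l i.succ + d - 0 - (l i.succ - 0)).toNat = d := by omega
    rw [e1, e2, Nat.cast_one, Int.ediv_one, mul_one]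
    exact ⟨⟨fun _ => by omega, fun _ => one_dvd _⟩, fun _ => rfl⟩

lemma Av_term (hHW : HWStmt) {p : ℕ} (hp : p.Prime) {m : Fin N → ℕ+} (hm : ∀ i, ¬ p ∣ (m i : ℕ))
    {F : G (N + 1) → ℂ} (hF : Aut F) (g : G (N + 1)) {l : Fin (N + 1) → ℤ} (hl : Antitone l)
    (I : Finset (Fin (N + 1))) :
    ((dl (av p m l) ^ (1 / 2 : ℝ) : ℝ) : ℂ) * Wf (mv p m l) (TI p I F) ((dg (av p m l))⁻¹ * g) =
      (((p : ℝ) ^ ((I.card : ℝ) * (((N + 1 : ℕ) : ℝ) - I.card) / 2) : ℝ) : ℂ) *
        Av p m F g (l - ind I) := by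
  rw [hHW N p hp.pos I F hF.cont (fun γ _ => hF.zinv γ), Av]
  have hiff : (∀ i : Fin N, (dI p I i.castSucc : ℤ) ∣ mv p m l i * dI p I i.succ) ↔
      Antitone (l - ind I) := by
    rw [Fin.antitone_iff_succ_le]
    exact forall_congr' fun i => (mv_step hp hm hl I i).1
  by_cases h : Antitone (l - ind I)
  · have e : (fun i => mv p m l i * dI p I i.succ / dI p I i.castSucc) = mv p m (l - ind I) :=
      funext fun i => (mv_step hp hm hl I i).2 (h i.castSucc_lt_succ.le)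
    rw [if_pos (hiff.2 h), if_pos h, e, dg_sub hp.pos, hecke_pow hp.pos, av_sub hp.pos m l I,
      dl_mul, Real.mul_rpow (dl_pos (av_pos hp.pos m _)).le (dl_pos (dI_pos hp.pos I)).le]
    push_cast
    ring
  · rw [if_neg (mt hiff.1 h), if_neg h, mul_zero, mul_zero, mul_zero]

lemma Av_rec (hW : WhStmt) (hHW : HWStmt) {α : ℕ → Fin (N + 1) → ℂ} {p : ℕ} (hp : p.Prime)
    {m : Fin N → ℕ+} (hm : ∀ i, ¬ p ∣ (m i : ℕ)) {F : G (N + 1) → ℂ} (hF : Aut F) (hk : Hk α F)
    (g : G (N + 1)) {l : Fin (N + 1) → ℤ} (hl : Antitone l) {r : ℕ} (hr : r ≤ N + 1) :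
    esy (α p) (N + 1 - r) * Av p m F g l =
      ∑ I ∈ Finset.powersetCard r Finset.univ, Av p m F g (l - ind I) := by
  have hc : (((p : ℝ) ^ ((r : ℝ) * (((N + 1 : ℕ) : ℝ) - r) / 2) : ℝ) : ℂ) ≠ 0 :=
    Complex.ofReal_ne_zero.2 (Real.rpow_pos_of_pos (Nat.cast_pos.2 hp.pos) _).ne'
  apply mul_left_cancel₀ hc
  have h1 := Wf_hecke hW hF.cont hk hp hr (mv p m l) ((dg (av p m l))⁻¹ * g)
  have h2 : ∀ I ∈ Finset.powersetCard r (Finset.univ : Finset (Fin (N + 1))),
      (((p : ℝ) ^ ((r : ℝ) * (((N + 1 : ℕ) : ℝ) - r) / 2) : ℝ) : ℂ) * Av p m F g (l - ind I) =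
      ((dl (av p m l) ^ (1 / 2 : ℝ) : ℝ) : ℂ) *
        Wf (mv p m l) (TI p I F) ((dg (av p m l))⁻¹ * g) := fun I hI => by
    rw [Av_term hHW hp hm hF g hl I, (Finset.mem_powersetCard.1 hI).2]
  rw [Finset.mul_sum, Finset.sum_congr rfl h2, ← Finset.mul_sum, h1, Av, if_pos hl]
  ring

/-! ### One prime -/

/-- the normalised coefficient of a tuple -/
def Bv (m : Fin N → ℕ+) (F : G (N + 1) → ℂ) (g : G (N + 1)) : ℂ :=
  ((dl (tm m) ^ (1 / 2 : ℝ) : ℝ) : ℂ) * Wf (zm m) F ((dg (tm m))⁻¹ * g)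

lemma lam_step (e : Fin N → ℕ) (i : Fin N) : lam e i.castSucc = lam e i.succ + e i := by
  have h : ∀ j : Fin N, (if i.castSucc.val ≤ j.val then e j else 0) =
      (if i.succ.val ≤ j.val then e j else 0) + if j = i then e j else 0 := fun j => by
    simp only [Fin.val_castSucc, Fin.val_succ, Fin.ext_iff]
    split_ifs <;> omega
  simp only [lam]
  rw [Finset.sum_congr rfl fun j _ => h j, Finset.sum_add_distrib, Finset.sum_ite_eq']
  simp

lemma lam_anti (e : Fin N → ℕ) : Antitone (lam e) :=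
  Fin.antitone_iff_succ_le.2 fun i => by rw [lam_step]; omega

lemma Av_lam {p : ℕ} {m m' : Fin N → ℕ+} {e : Fin N → ℕ}
    (h : ∀ i, (m i : ℕ) = m' i * p ^ e i) (F : G (N + 1) → ℂ) (g : G (N + 1)) :
    Av p m' F g (fun i => lam e i) = Bv m F g := by
  have h1 : av p m' (fun i => lam e i) = tm m := by
    ext i
    simp only [av, tm, lam, zpow_natCast]
    rw [← Finset.prod_pow_eq_pow_sum, ← Finset.prod_mul_distrib]
    refine Finset.prod_congr rfl fun j _ => ?_
    split_ifs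
    · rw [h j]; push_cast; rfl
    · simp
  have h2 : mv p m' (fun i => lam e i) = zm m := by
    ext i
    have : ((lam e i.castSucc : ℤ) - (lam e i.succ : ℤ)).toNat = e i := by
      rw [lam_step]; omega
    simp only [mv, zm, this, h i]
    push_cast; rfl
  have h3 : Antitone fun i => (lam e i : ℤ) := fun i j hij => Int.ofNat_le.2 (lam_anti e hij)
  rw [Av, if_pos h3, h1, h2, Bv]

lemma Bv_step (hW : WhStmt) (hHW : HWStmt) {α : ℕ → Fin (N + 1) → ℂ} {p : ℕ} (hp : p.Prime)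
    {S : (Fin (N + 1) → ℕ) → ℂ} (hS : IsSch (α p) S) {m m' : Fin N → ℕ+} {e : Fin N → ℕ}
    (hm : ∀ i, ¬ p ∣ (m' i : ℕ)) (h : ∀ i, (m i : ℕ) = m' i * p ^ e i) {F : G (N + 1) → ℂ}
    (hF : Aut F) (hk : Hk α F) (g : G (N + 1)) : Bv m F g = S (lam e) * Bv m' F g := by
  have h1 := hS.2.1 (Av p m' F g) (fun l hl => if_neg hl)
    (fun l hl r hr => Av_rec hW hHW hp hm hF hk g hl hr) (lam e) (lam_anti e)
  have h2 := Av_lam (p := p) (m := m') (m' := m') (e := 0) (by simp) F g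
  have h3 : (fun i => ((lam (0 : Fin N → ℕ) i : ℕ) : ℤ)) = 0 := by
    ext i; simp [lam]
  rw [h3] at h2
  rw [← Av_lam h, h1, h2]

/-! ### All primes -/

lemma Bv_one (F : G (N + 1) → ℂ) (g : G (N + 1)) {m : Fin N → ℕ+} (h : ∀ i, (m i : ℕ) = 1) :
    Bv m F g = W1 F g := by
  have h1 : tm m = fun _ => 1 := by
    ext i; simp [tm, h]
  have h2 : zm m = fun _ => 1 := by
    ext i; simp [zm, h]
  simp [Bv, h1, h2, dl_one, W1]

lemma exists_split {p : ℕ} (hp : p.Prime) (m : Fin N → ℕ+) :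
    ∃ m' : Fin N → ℕ+, (∀ i, ¬ p ∣ (m' i : ℕ)) ∧
      ∀ i, (m i : ℕ) = m' i * p ^ (m i : ℕ).factorization p :=
  ⟨fun i => ⟨ordCompl[p] (m i : ℕ), Nat.ordCompl_pos p (m i).ne_zero⟩,
    fun i => Nat.not_dvd_ordCompl hp (m i).ne_zero,
    fun _ => ((mul_comm _ _).trans (Nat.ordProj_mul_ordCompl_eq_self _ p)).symm⟩

lemma mulf_step {R : Type} [CommMonoid R] (a : ℕ → (Fin N → ℕ) → R) {p : ℕ} (hp : p.Prime)
    {m m' : Fin N → ℕ+} (hm : ∀ i, ¬ p ∣ (m' i : ℕ))
    (h : ∀ i, (m i : ℕ) = m' i * p ^ (m i : ℕ).factorization p)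
    (hd : p ∈ (∏ i, (m i : ℕ)).primeFactors) :
    (∏ i, (m i : ℕ)).primeFactors = insert p (∏ i, (m' i : ℕ)).primeFactors ∧
      p ∉ (∏ i, (m' i : ℕ)).primeFactors ∧
      mulf a m = a p (fun i => (m i : ℕ).factorization p) * mulf a m' := by
  have n1 : ∀ m : Fin N → ℕ+, ∏ i, (m i : ℕ) ≠ 0 := fun m =>
    Finset.prod_ne_zero_iff.2 fun i _ => (m i).ne_zero
  have h1 : p ∉ (∏ i, (m' i : ℕ)).primeFactors := fun h' => by
    obtain ⟨i, -, hi⟩ := (Prime.dvd_finsetProd_iff hp.prime _).1 (Nat.dvd_of_mem_primeFactors h')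
    exact hm i hi
  have h2 : (∏ i, (m i : ℕ)).primeFactors = insert p (∏ i, (m' i : ℕ)).primeFactors := by
    ext q
    rw [Finset.mem_insert]
    constructor
    · intro hq
      have hq' := Nat.prime_of_mem_primeFactors hq
      obtain ⟨i, -, hi⟩ := (Prime.dvd_finsetProd_iff hq'.prime _).1 (Nat.dvd_of_mem_primeFactors hq)
      rw [h i] at hi
      rcases (Nat.Prime.dvd_mul hq').1 hi with hi | hi
      · exact Or.inr (Nat.mem_primeFactors.2 ⟨hq', hi.trans (Finset.dvd_prod_of_mem _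
          (Finset.mem_univ i)), n1 m'⟩)
      · exact Or.inl ((Nat.prime_dvd_prime_iff_eq hq' hp).1 (hq'.dvd_of_dvd_pow hi))
    · rintro (rfl | hq)
      · exact hd
      · refine Nat.primeFactors_mono (Finset.prod_dvd_prod_of_dvd _ _ fun i _ => ?_) (n1 m) hq
        rw [h i]
        exact Dvd.intro _ rfl
  refine ⟨h2, h1, ?_⟩
  rw [mulf, h2, Finset.prod_insert h1, mulf]
  congr 1
  refine Finset.prod_congr rfl fun q hq => ?_
  congr 1
  ext i
  have hne : p ≠ q := fun e => h1 (e ▸ hq)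
  rw [h i, Nat.factorization_mul (m' i).ne_zero (pow_ne_zero _ hp.ne_zero), hp.factorization_pow,
    Finsupp.add_apply, Finsupp.single_eq_of_ne' hne, add_zero]

lemma Bv_eq (hW : WhStmt) (hHW : HWStmt) {α : ℕ → Fin (N + 1) → ℂ}
    {S : ℕ → (Fin (N + 1) → ℕ) → ℂ} (hS : ∀ p : ℕ, p.Prime → IsSch (α p) (S p))
    {F : G (N + 1) → ℂ} (hF : Aut F) (hk : Hk α F) (g : G (N + 1)) :
    ∀ (n : ℕ) (m : Fin N → ℕ+), (∏ i, (m i : ℕ)).primeFactors.card = n →
      Bv m F g = mulf (fun p e => S p (lam e)) m * W1 F g := by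
  intro n
  induction n with
  | zero =>
    intro m hm
    rw [Finset.card_eq_zero] at hm
    rw [mulf, hm, Finset.prod_empty, one_mul]
    refine Bv_one F g fun i => ?_
    rcases Nat.primeFactors_eq_empty.1 hm with h | h
    · exact absurd h (Finset.prod_ne_zero_iff.2 fun i _ => (m i).ne_zero)
    · exact Nat.eq_one_of_dvd_one (h ▸ Finset.dvd_prod_of_mem _ (Finset.mem_univ i))
  | succ n ih =>
    intro m hm
    obtain ⟨p, hp⟩ := Finset.card_pos.1 (show 0 < (∏ i, (m i : ℕ)).primeFactors.card by omega)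
    have hp' := Nat.prime_of_mem_primeFactors hp
    obtain ⟨m', h1, h2⟩ := exists_split hp' m
    obtain ⟨e1, e2, e3⟩ := mulf_step (fun p e => S p (lam e)) hp' h1 h2 hp
    rw [e1, Finset.card_insert_of_notMem e2] at hm
    rw [Bv_step hW hHW hp' (hS p hp') h1 h2 hF hk, ih m' (by omega), e3, mul_assoc]

end Shin

theorem shin (hW : WhStmt) (hHW : HWStmt) : ShinStmt := by
  intro N α S hS F hF hk m g
  have h := Shin.Bv_eq hW hHW hS hF hk (dg (tm m) * g) _ m rfl
  have hp := Shin.dl_pos (Shin.tm_pos m)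
  rw [Shin.Bv, inv_mul_cancel_left] at h
  rw [mul_assoc, ← h, ← mul_assoc, ← Complex.ofReal_mul, ← Real.rpow_add hp]
  simp

end Pool.Agent.Lib.MP_fa98d2_nt.D
end
end

-- part Pool.Agent.Lib.MP_fa98d2_nt.D.Orth
section

/- Adjointness of the Hecke operators, orthogonality of Hecke systems, unitarity symmetry. -/

open MeasureTheory Filter Topology Matrix
open scoped ENNReal Real ComplexConjugate

noncomputable section

namespace Pool.Agent.Lib.MP_fa98d2_nt.D

namespace Orth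

variable {n : ℕ}

/-- an integral matrix as an element of the real group -/
def cz (x : Matrix (Fin n) (Fin n) ℤ) : G n := mkG (x.map (Int.cast : ℤ → ℝ))

lemma det_cast (x : Matrix (Fin n) (Fin n) ℤ) :
    (x.map (Int.cast : ℤ → ℝ)).det = ((x.det : ℤ) : ℝ) :=
  ((Int.castRingHom ℝ).map_det x).symm

lemma val_cz {x : Matrix (Fin n) (Fin n) ℤ} (hx : x.det ≠ 0) :
    (cz x).val = x.map (Int.cast : ℤ → ℝ) :=
  val_mkG (by rw [det_cast]; exact_mod_cast hx)

lemma cz_mul {x y : Matrix (Fin n) (Fin n) ℤ} (hx : x.det ≠ 0) (hy : y.det ≠ 0) :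
    cz (x * y) = cz x * cz y := by
  apply Units.ext
  rw [Units.val_mul, val_cz hx, val_cz hy,
    val_cz (by rw [Matrix.det_mul]; exact mul_ne_zero hx hy)]
  exact Matrix.map_mul (f := Int.castRingHom ℝ)

lemma det_GZ (γ : GZ n) : γ.val.det ≠ 0 := fun h => by
  have := abs_det_GZ γ
  rw [h] at this
  simp at this

lemma cz_iz (γ : GZ n) : cz γ.val = iz γ := mkG_val (iz γ)

lemma cz_hmat (p : ℕ) (I : Finset (Fin n)) (v : Fin n → Fin n → ℕ) :
    cz (hmat ℤ p I v) = hm p I v := by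
  unfold cz hm
  congr 1
  ext a b
  simp only [hmat, Matrix.map_apply, Matrix.of_apply]
  split_ifs <;> simp

lemma det_hmat {p : ℕ} (hp : p ≠ 0) {I : Finset (Fin n)} {v : Fin n → Fin n → ℕ}
    (hv : v ∈ reps p I) : (hmat ℤ p I v).det ≠ 0 := by
  rw [Matrix.det_of_isUpperTriangular]
  · refine Finset.prod_ne_zero_iff.2 fun i _ => ?_
    simp only [hmat, Matrix.of_apply, if_true]
    split_ifs
    · exact_mod_cast hp
    · exact one_ne_zero
  · intro a b hab
    have hab' : b < a := hab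
    have h1 := Fintype.mem_piFinset.1 (Fintype.mem_piFinset.1 hv a) b
    rw [if_neg fun h => absurd h.1 (not_lt.2 hab'.le), Finset.mem_singleton] at h1
    simp [hmat, hab'.ne', h1]

lemma det_Dc {p r : ℕ} (hp : p ≠ 0) (x : Dc n p r) : x.1.det ≠ 0 := fun h => by
  have := x.2.2
  rw [h, abs_zero] at this
  exact pow_ne_zero r (by exact_mod_cast hp : (p : ℤ) ≠ 0) this.symm

lemma dt_Dc {p r : ℕ} (hp : p ≠ 0) (x : Dc n p r) : dt (cz x.1) = (p : ℝ) ^ r := by
  rw [dt, val_cz (det_Dc hp x), det_cast, ← Int.cast_abs, x.2.2]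
  push_cast
  rfl

lemma mul_mem_Dc {p r : ℕ} {x : Matrix (Fin n) (Fin n) ℤ} (hx : x ∈ Dc n p r) (γ : GZ n) :
    x * γ.val ∈ Dc n p r := by
  obtain ⟨⟨y, hy⟩, hd⟩ := hx
  refine ⟨⟨(γ⁻¹).val * y, ?_⟩, ?_⟩
  · rw [Matrix.mul_assoc, ← Matrix.mul_assoc γ.val, ← Units.val_mul, mul_inv_cancel,
      Units.val_one, Matrix.one_mul, hy]
  · rw [Matrix.det_mul, abs_mul, abs_det_GZ, mul_one, hd]

/-- right multiplication on the double coset -/
def rmulDc (p r : ℕ) (γ : GZ n) : Dc n p r ≃ Dc n p r where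
  toFun x := ⟨x.1 * γ.val, mul_mem_Dc x.2 γ⟩
  invFun x := ⟨x.1 * (γ⁻¹).val, mul_mem_Dc x.2 γ⁻¹⟩
  left_inv x := Subtype.ext (by
    change x.1 * γ.val * (γ⁻¹).val = x.1
    rw [Matrix.mul_assoc, ← Units.val_mul, mul_inv_cancel, Units.val_one, Matrix.mul_one])
  right_inv x := Subtype.ext (by
    change x.1 * (γ⁻¹).val * γ.val = x.1
    rw [Matrix.mul_assoc, ← Units.val_mul, inv_mul_cancel, Units.val_one, Matrix.mul_one])

/-- index set of the Hecke representatives -/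
def Rp (n p r : ℕ) : Finset (Σ _ : Finset (Fin n), Fin n → Fin n → ℕ) :=
  (Finset.powersetCard r Finset.univ).sigma (reps p)

lemma Tr_eq (p r : ℕ) (F : G n → ℂ) (g : G n) :
    Tr p r F g = ∑ h ∈ Rp n p r, F (hm p h.1 h.2 * g) := by
  rw [Rp, Finset.sum_sigma]
  rfl

/-- unfolding of the sum over the double coset -/
lemma unfold (hN : HNFStmt) {p : ℕ} (hp : p.Prime) (r : ℕ) (β Φ : G n → ℝ≥0∞)
    (hβ : ∀ u, ∑' γ : GZ n, β (iz γ * u) = 1) (hΦ : ZInv Φ) (g : G n) :
    ∑' x : Dc n p r, β (cz x.1 * g) * Φ (cz x.1 * g) = ∑ h ∈ Rp n p r, Φ (hm p h.1 h.2 * g) := by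
  rw [hN.dec n p r hp fun x => β (cz x * g) * Φ (cz x * g), Rp, Finset.sum_sigma,
    Summable.tsum_finsetSum fun _ _ => ENNReal.summable]
  refine Finset.sum_congr rfl fun I _ => ?_
  rw [Summable.tsum_finsetSum fun _ _ => ENNReal.summable]
  refine Finset.sum_congr rfl fun v hv => ?_
  have : ∀ γ : GZ n, β (cz (γ.val * hmat ℤ p I v) * g) * Φ (cz (γ.val * hmat ℤ p I v) * g) =
      β (iz γ * (hm p I v * g)) * Φ (hm p I v * g) := fun γ => by
    rw [cz_mul (det_GZ γ) (det_hmat hp.ne_zero hv), cz_iz, cz_hmat, mul_assoc, hΦ]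
  simp_rw [this]
  rw [ENNReal.tsum_mul_right, hβ, one_mul]

lemma zinv_sum (hN : HNFStmt) (hQ : QuotStmt) {p : ℕ} (hp : p.Prime) (r : ℕ) (Φ : G n → ℝ≥0∞)
    (hΦ : ZInv Φ) (γ : GZ n) (g : G n) :
    ∑ h ∈ Rp n p r, Φ (hm p h.1 h.2 * (iz γ * g)) = ∑ h ∈ Rp n p r, Φ (hm p h.1 h.2 * g) := by
  rw [← unfold hN hp r wt Φ (hQ.sum n) hΦ, ← unfold hN hp r wt Φ (hQ.sum n) hΦ,
    ← (rmulDc p r γ).tsum_eq fun x => wt (cz x.1 * g) * Φ (cz x.1 * g)]
  refine tsum_congr fun x => ?_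
  have : cz (rmulDc p r γ x).1 * g = cz x.1 * (iz γ * g) := by
    change cz (x.1 * γ.val) * g = _
    rw [cz_mul (det_Dc hp.ne_zero x) (det_GZ γ), cz_iz, mul_assoc]
  rw [this]

lemma measurable_Shl (c c' : ℝ) : Measurable (Shl (k := n) c c') := by
  unfold Shl
  exact Measurable.ite ((measurableSet_le measurable_const measurable_dt).inter
    (measurableSet_le measurable_dt measurable_const)) measurable_const measurable_const

/-- kernels invariant in both variables -/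
structure Inv2 {β : Type} (Ψ : G n → G n → β) : Prop where
  z1 : ∀ g, ZInv fun u => Ψ u g
  z2 : ∀ u, ZInv (Ψ u)
  s1 : ∀ g, SInv fun u => Ψ u g
  s2 : ∀ u, SInv (Ψ u)

lemma Inv2.comp {β β' : Type} {Ψ : G n → G n → β} (h : Inv2 Ψ) (f : β → β') :
    Inv2 fun u g => f (Ψ u g) :=
  ⟨fun g γ u => congrArg f (h.z1 g γ u), fun u γ g => congrArg f (h.z2 u γ g),
    fun g t ht u => congrArg f (h.s1 g t ht u), fun u t ht g => congrArg f (h.s2 u t ht g)⟩

lemma meas_l {β : Type} [MeasurableSpace β] {Ψ : G n → G n → β}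
    (hm : Measurable (Function.uncurry Ψ)) (a : G n) : Measurable fun g => Ψ (a * g) g :=
  hm.comp ((measurable_const_mul a).prodMk measurable_id)

lemma meas_r {β : Type} [MeasurableSpace β] {Ψ : G n → G n → β}
    (hm : Measurable (Function.uncurry Ψ)) (a : G n) : Measurable fun g => Ψ g (a * g) :=
  hm.comp (measurable_id.prodMk (measurable_const_mul a))

/-- adjointness for nonnegative kernels -/
lemma adjE (hN : HNFStmt) (hQ : QuotStmt) {N p r : ℕ} (hp : p.Prime) (hr : r ≤ N + 1)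
    (Ψ : G (N + 1) → G (N + 1) → ℝ≥0∞) (hm0 : Measurable (Function.uncurry Ψ)) (hΨ : Inv2 Ψ) :
    ∫⁻ g, ∑ h ∈ Rp (N + 1) p r, Ψ (hm p h.1 h.2 * g) g ∂nu (N + 1) =
      ∫⁻ g, ∑ h ∈ Rp (N + 1) p (N + 1 - r), Ψ g (hm p h.1 h.2 * g) ∂nu (N + 1) := by
  obtain ⟨e, he⟩ := hN.inv (N + 1) p r hp hr
  have hp0 : (0 : ℝ) < p := by exact_mod_cast hp.pos
  have hpr : (0 : ℝ) < (p : ℝ) ^ r := pow_pos hp0 r
  have hw := hQ.meas (N + 1)
  have hinv : ∀ x : Dc (N + 1) p r, (cz x.1)⁻¹ = sc (p : ℝ)⁻¹ * cz (e x).1 := fun x => by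
    have h1 : cz x.1 * cz (e x).1 = sc (p : ℝ) := by
      rw [← cz_mul (det_Dc hp.ne_zero x) (det_Dc hp.ne_zero (e x)), he x]
      apply Units.ext
      rw [val_sc hp0.ne', val_cz (by
        rw [← he x, Matrix.det_mul]
        exact mul_ne_zero (det_Dc hp.ne_zero x) (det_Dc hp.ne_zero (e x)))]
      ext a b
      simp only [Matrix.map_apply, Matrix.smul_apply, Matrix.one_apply, smul_eq_mul]
      split_ifs <;> simp
    rw [inv_eq_iff_mul_eq_one, sc_comm (inv_ne_zero hp0.ne'), ← mul_assoc, h1,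
      sc_mul hp0.ne' (inv_ne_zero hp0.ne'), mul_inv_cancel₀ hp0.ne', sc_one]
  have hH : Measurable fun g => ∑ h ∈ Rp (N + 1) p (N + 1 - r), Ψ g (hm p h.1 h.2 * g) :=
    Finset.measurable_fun_sum _ fun h _ => meas_r hm0 _
  have hsh := hQ.shell N _ hH
    (fun γ g => by
      simp only [hΨ.z1 _ γ g]
      exact zinv_sum hN hQ hp _ (Ψ g) (hΨ.z2 g) γ g)
    (fun t ht g => Finset.sum_congr rfl fun h _ => by
      rw [← mul_assoc, ← sc_comm ht, mul_assoc, hΨ.s2 _ t ht]
      exact hΨ.s1 _ t ht g)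
    ((p : ℝ) ^ r) (2 * (p : ℝ) ^ r) hpr (by linarith)
  rw [mul_div_assoc, div_self hpr.ne', mul_one, div_self (Real.log_pos one_lt_two).ne',
    ENNReal.ofReal_one, one_mul] at hsh
  rw [← hsh, hQ.nuQ _ _ (Finset.measurable_fun_sum _ fun h _ => meas_l hm0 _)]
  unfold QI
  have l1 : ∀ g, wt g * (Shl 1 2 g * ∑ h ∈ Rp (N + 1) p r, Ψ (hm p h.1 h.2 * g) g) =
      ∑' x : Dc (N + 1) p r, wt g * (Shl 1 2 g * (wt (cz x.1 * g) * Ψ (cz x.1 * g) g)) := fun g => by
    rw [ENNReal.tsum_mul_left, ENNReal.tsum_mul_left,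
      unfold hN hp r wt (fun u => Ψ u g) (hQ.sum _) (hΨ.z1 g)]
  have l2 : ∀ g, wt g * (Shl ((p : ℝ) ^ r) (2 * (p : ℝ) ^ r) g *
        ∑ h ∈ Rp (N + 1) p (N + 1 - r), Ψ g (hm p h.1 h.2 * g)) =
      ∑' x : Dc (N + 1) p r, wt g * (Shl ((p : ℝ) ^ r) (2 * (p : ℝ) ^ r) g *
        (wt (sc (p : ℝ)⁻¹ * (cz (e x).1 * g)) * Ψ g (cz (e x).1 * g))) := fun g => by
    rw [ENNReal.tsum_mul_left, ENNReal.tsum_mul_left,
      e.tsum_eq fun y => wt (sc (p : ℝ)⁻¹ * (cz y.1 * g)) * Ψ g (cz y.1 * g),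
      unfold hN hp (N + 1 - r) (fun u => wt (sc (p : ℝ)⁻¹ * u)) (Ψ g) (fun u => ?_) (hΨ.z2 g)]
    rw [← hQ.sum _ (sc (p : ℝ)⁻¹ * u)]
    refine tsum_congr fun γ => ?_
    rw [← mul_assoc, sc_comm (inv_ne_zero hp0.ne'), mul_assoc]
  simp_rw [l1, l2]
  have m1 : ∀ x : Dc (N + 1) p r, AEMeasurable
      (fun g => wt g * (Shl 1 2 g * (wt (cz x.1 * g) * Ψ (cz x.1 * g) g))) (mu (N + 1)) := fun x =>
    (hw.mul ((measurable_Shl _ _).mul
      ((hw.comp (measurable_const_mul _)).mul (meas_l hm0 _)))).aemeasurable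
  have m2 : ∀ x : Dc (N + 1) p r, AEMeasurable
      (fun g => wt g * (Shl ((p : ℝ) ^ r) (2 * (p : ℝ) ^ r) g *
        (wt (sc (p : ℝ)⁻¹ * (cz (e x).1 * g)) * Ψ g (cz (e x).1 * g)))) (mu (N + 1)) := fun x =>
    (hw.mul ((measurable_Shl _ _).mul
      ((hw.comp ((measurable_const_mul _).comp (measurable_const_mul _))).mul
        (meas_r hm0 _)))).aemeasurable
  rw [lintegral_tsum m1, lintegral_tsum m2]
  refine tsum_congr fun x => ?_
  rw [← lintegral_mul_left_eq_self _ (cz x.1)⁻¹]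
  refine lintegral_congr fun g => ?_
  have h1 : Shl 1 2 ((cz x.1)⁻¹ * g) = Shl ((p : ℝ) ^ r) (2 * (p : ℝ) ^ r) g := by
    unfold Shl
    refine if_congr ?_ rfl rfl
    rw [dt_mul, dt_inv, dt_Dc hp.ne_zero, le_inv_mul_iff₀ hpr, inv_mul_le_iff₀ hpr, mul_one,
      mul_comm _ (2 : ℝ)]
  rw [h1, mul_inv_cancel_left, hinv, mul_assoc, hΨ.s2 _ _ (inv_ne_zero hp0.ne')]
  ring

/-- a finite sum of integrals through positive and negative parts -/
lemma sum_integral_eq {α ι : Type} [MeasurableSpace α] (μ : Measure α) (S : Finset ι)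
    (f : ι → α → ℝ) (hm0 : ∀ i, Measurable (f i)) (hf : ∫⁻ g, ∑ i ∈ S, ‖f i g‖ₑ ∂μ ≠ ⊤) :
    (∀ i ∈ S, Integrable (f i) μ) ∧ ∑ i ∈ S, ∫ g, f i g ∂μ =
      (∫⁻ g, ∑ i ∈ S, ENNReal.ofReal (f i g) ∂μ).toReal -
        (∫⁻ g, ∑ i ∈ S, ENNReal.ofReal (-f i g) ∂μ).toReal := by
  have hi : ∀ i ∈ S, Integrable (f i) μ := fun i hi =>
    ⟨(hm0 i).aestronglyMeasurable, lt_of_le_of_lt (lintegral_mono fun g =>
      Finset.single_le_sum (f := fun i => ‖f i g‖ₑ) (fun _ _ => zero_le) hi) hf.lt_top⟩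
  refine ⟨hi, ?_⟩
  rw [lintegral_finsetSum _ fun i _ => (hm0 i).ennreal_ofReal,
    lintegral_finsetSum (f := fun i g => ENNReal.ofReal (-f i g)) _
      fun i _ => (hm0 i).neg.ennreal_ofReal,
    ENNReal.toReal_sum fun i h => (hi i h).lintegral_lt_top.ne,
    ENNReal.toReal_sum (f := fun i => ∫⁻ g, ENNReal.ofReal (-f i g) ∂μ)
      fun i h => (hi i h).neg.lintegral_lt_top.ne, ← Finset.sum_sub_distrib]
  exact Finset.sum_congr rfl fun i h => integral_eq_lintegral_pos_part_sub_lintegral_neg_part (hi i h)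

/-- adjointness for real kernels -/
lemma adjR (hN : HNFStmt) (hQ : QuotStmt) {N p r : ℕ} (hp : p.Prime) (hr : r ≤ N + 1)
    (ψ : G (N + 1) → G (N + 1) → ℝ) (hm0 : Measurable (Function.uncurry ψ)) (hψ : Inv2 ψ)
    (hf : ∫⁻ g, ∑ h ∈ Rp (N + 1) p r, ‖ψ (hm p h.1 h.2 * g) g‖ₑ ∂nu (N + 1) ≠ ⊤) :
    ∑ h ∈ Rp (N + 1) p r, ∫ g, ψ (hm p h.1 h.2 * g) g ∂nu (N + 1) =
      ∑ h ∈ Rp (N + 1) p (N + 1 - r), ∫ g, ψ g (hm p h.1 h.2 * g) ∂nu (N + 1) := by
  have hf' := hf
  rw [adjE hN hQ hp hr (fun u g => ‖ψ u g‖ₑ) hm0.enorm (hψ.comp _)] at hf'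
  rw [(sum_integral_eq _ _ _ (fun h => meas_l hm0 _) hf).2,
    (sum_integral_eq _ _ _ (fun h => meas_r hm0 _) hf').2,
    adjE hN hQ hp hr (fun u g => ENNReal.ofReal (ψ u g)) hm0.ennreal_ofReal (hψ.comp _),
    adjE hN hQ hp hr (fun u g => ENNReal.ofReal (-ψ u g)) hm0.neg.ennreal_ofReal
      (hψ.comp fun x => ENNReal.ofReal (-x))]

/-- adjointness for complex kernels -/
lemma adjC (hN : HNFStmt) (hQ : QuotStmt) {N p r : ℕ} (hp : p.Prime) (hr : r ≤ N + 1)
    (ψ : G (N + 1) → G (N + 1) → ℂ) (hm0 : Measurable (Function.uncurry ψ)) (hψ : Inv2 ψ)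
    (hf : ∫⁻ g, ∑ h ∈ Rp (N + 1) p r, ‖ψ (hm p h.1 h.2 * g) g‖ₑ ∂nu (N + 1) ≠ ⊤) :
    ∫ g, ∑ h ∈ Rp (N + 1) p r, ψ (hm p h.1 h.2 * g) g ∂nu (N + 1) =
      ∫ g, ∑ h ∈ Rp (N + 1) p (N + 1 - r), ψ g (hm p h.1 h.2 * g) ∂nu (N + 1) := by
  have hf' := hf
  rw [adjE hN hQ hp hr (fun u g => ‖ψ u g‖ₑ) hm0.enorm (hψ.comp _)] at hf'
  have i1 : ∀ h ∈ Rp (N + 1) p r, Integrable (fun g => ψ (hm p h.1 h.2 * g) g) (nu (N + 1)) :=
    fun h hh => ⟨(meas_l hm0 _).aestronglyMeasurable, lt_of_le_of_lt (lintegral_mono fun g =>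
      Finset.single_le_sum (f := fun h : Σ _ : Finset (Fin (N + 1)), Fin (N + 1) → Fin (N + 1) → ℕ =>
        ‖ψ (hm p h.1 h.2 * g) g‖ₑ) (fun _ _ => zero_le) hh) hf.lt_top⟩
  have i2 : ∀ h ∈ Rp (N + 1) p (N + 1 - r),
      Integrable (fun g => ψ g (hm p h.1 h.2 * g)) (nu (N + 1)) :=
    fun h hh => ⟨(meas_r hm0 _).aestronglyMeasurable, lt_of_le_of_lt (lintegral_mono fun g =>
      Finset.single_le_sum (f := fun h : Σ _ : Finset (Fin (N + 1)), Fin (N + 1) → Fin (N + 1) → ℕ =>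
        ‖ψ g (hm p h.1 h.2 * g)‖ₑ) (fun _ _ => zero_le) hh) hf'.lt_top⟩
  rw [integral_finsetSum _ i1, integral_finsetSum _ i2]
  have key : ∀ L : ℂ →L[ℝ] ℝ, (∀ z, ‖L z‖ ≤ ‖z‖) →
      L (∑ h ∈ Rp (N + 1) p r, ∫ g, ψ (hm p h.1 h.2 * g) g ∂nu (N + 1)) =
        L (∑ h ∈ Rp (N + 1) p (N + 1 - r), ∫ g, ψ g (hm p h.1 h.2 * g) ∂nu (N + 1)) := by
    intro L hL
    rw [map_sum, map_sum, Finset.sum_congr rfl fun h hh => (L.integral_comp_comm (i1 h hh)).symm,
      Finset.sum_congr rfl fun h hh => (L.integral_comp_comm (i2 h hh)).symm]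
    refine adjR hN hQ hp hr (fun u g => L (ψ u g)) (L.continuous.measurable.comp hm0) (hψ.comp L)
      (ne_top_of_le_ne_top hf (lintegral_mono fun g => Finset.sum_le_sum fun h _ => ?_))
    rw [← ofReal_norm, ← ofReal_norm]
    exact ENNReal.ofReal_le_ofReal (hL _)
  exact Complex.ext (key Complex.reCLM Complex.abs_re_le_norm)
    (key Complex.imCLM Complex.abs_im_le_norm)

lemma mul_le_sq_add (a b : ℝ≥0∞) : a * b ≤ a ^ 2 + b ^ 2 := by
  rcases le_total a b with h | h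
  · exact le_add_left (by rw [sq]; gcongr)
  · exact le_add_right (by rw [sq]; gcongr)

/-- the Hecke operators of types `r` and `n - r` are adjoint -/
lemma adj (hN : HNFStmt) (hQ : QuotStmt) {N p r : ℕ} (hp : p.Prime) (hr : r ≤ N + 1)
    {F F' : G (N + 1) → ℂ} (hF : Aut F) (hF' : Aut F') (n1 : N2 F < ⊤) (n2 : N2 F' < ⊤) :
    ip (Tr p r F) F' = ip F (Tr p (N + 1 - r) F') := by
  have m1 : Measurable F := hF.cont.measurable
  have m2 : Measurable F' := hF'.cont.measurable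
  have h := adjC hN hQ hp hr (fun u g => F u * conj (F' g))
    ((m1.comp measurable_fst).mul
      (Complex.continuous_conj.measurable.comp (m2.comp measurable_snd)))
    ⟨fun g γ u => by simp only [hF.zinv γ u], fun u γ g => by simp only [hF'.zinv γ g],
      fun g t ht u => by simp only [hF.sinv t ht u], fun u t ht g => by simp only [hF'.sinv t ht g]⟩
    (by
      have a1 := adjE hN hQ hp hr (fun u _ => ‖F u‖ₑ ^ 2)
        ((m1.comp measurable_fst).enorm.pow_const 2)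
        ⟨fun g γ u => by simp only [hF.zinv γ u], fun _ _ _ => rfl,
          fun g t ht u => by simp only [hF.sinv t ht u], fun _ _ _ _ => rfl⟩
      have a2 : ∀ (S : Finset (Σ _ : Finset (Fin (N + 1)), Fin (N + 1) → Fin (N + 1) → ℕ))
          (W : G (N + 1) → ℂ), Measurable W → N2 W < ⊤ →
          ∫⁻ g, ∑ _h ∈ S, ‖W g‖ₑ ^ 2 ∂nu (N + 1) ≠ ⊤ := fun S W hW nW => by
        rw [lintegral_finsetSum _ fun _ _ => hW.enorm.pow_const 2]
        exact ENNReal.sum_ne_top.2 fun _ _ => nW.ne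
      refine ne_top_of_le_ne_top (b := ∫⁻ g, (∑ h ∈ Rp (N + 1) p r, ‖F (hm p h.1 h.2 * g)‖ₑ ^ 2) +
        ∑ _h ∈ Rp (N + 1) p r, ‖F' g‖ₑ ^ 2 ∂nu (N + 1)) ?_ (lintegral_mono fun g => ?_)
      · rw [lintegral_add_right _ (Finset.measurable_fun_sum _ fun _ _ => m2.enorm.pow_const 2), a1]
        exact ENNReal.add_ne_top.2 ⟨a2 _ _ m1 n1, a2 _ _ m2 n2⟩
      · rw [← Finset.sum_add_distrib]
        refine Finset.sum_le_sum fun h _ => ?_
        rw [enorm_mul, RCLike.enorm_conj]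
        exact mul_le_sq_add _ _)
  unfold ip
  simp only [Tr_eq, Finset.sum_mul, map_sum, Finset.mul_sum]
  exact h

lemma eig (hN : HNFStmt) (hQ : QuotStmt) {N p r : ℕ} (hp : p.Prime) (hr : r ≤ N + 1)
    {α α' : ℕ → Fin (N + 1) → ℂ} {F F' : G (N + 1) → ℂ} (hF : Aut F) (hF' : Aut F')
    (n1 : N2 F < ⊤) (n2 : N2 F' < ⊤) (k1 : Hk α F) (k2 : Hk α' F') (h0 : ip F F' ≠ 0) :
    esy (α p) (N + 1 - r) = conj (esy (α' p) r) := by
  have h := adj hN hQ hp hr hF hF' n1 n2
  have hp0 : (0 : ℝ) < p := by exact_mod_cast hp.pos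
  have e1 : ((N + 1 - r : ℕ) : ℝ) * (((N + 1 : ℕ) : ℝ) - ((N + 1 - r : ℕ) : ℝ)) / 2 =
      (r : ℝ) * (((N + 1 : ℕ) : ℝ) - r) / 2 := by
    rw [Nat.cast_sub hr]
    ring
  unfold ip at h h0
  simp only [k1 p hp r hr, k2 p hp _ (Nat.sub_le _ r), e1, Nat.sub_sub_self hr, map_mul,
    Complex.conj_ofReal] at h
  set c : ℂ := (((p : ℝ) ^ ((r : ℝ) * (((N + 1 : ℕ) : ℝ) - r) / 2) : ℝ) : ℂ) with hc
  have hc0 : c ≠ 0 := Complex.ofReal_ne_zero.2 (Real.rpow_pos_of_pos hp0 _).ne'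
  have e2 : ∀ g, F g * (c * conj (esy (α' p) r) * conj (F' g)) =
      c * conj (esy (α' p) r) * (F g * conj (F' g)) := fun g => by ring
  simp only [e2, mul_assoc _ (F _), integral_const_mul] at h
  exact mul_left_cancel₀ hc0 (mul_right_cancel₀ h0 h)

lemma ip_self_ne (hQ : QuotStmt) {F : G n → ℂ} (hF : Aut F) (n1 : N2 F < ⊤) (h0 : F ≠ 0) :
    ip F F ≠ 0 := fun h => h0 (hQ.pos n F hF (by
  have m1 : Measurable F := hF.cont.measurable
  unfold ip at h
  simp only [Complex.mul_conj, integral_complex_ofReal, Complex.ofReal_eq_zero,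
    Complex.normSq_eq_norm_sq] at h
  rw [integral_eq_lintegral_of_nonneg_ae (Eventually.of_forall fun g => sq_nonneg _)
    (m1.norm.pow_const 2).aestronglyMeasurable] at h
  have e : ∫⁻ g, ENNReal.ofReal (‖F g‖ ^ 2) ∂nu n = N2 F := lintegral_congr fun g => by
    rw [ENNReal.ofReal_pow (norm_nonneg _), ofReal_norm]
  rw [e, ENNReal.toReal_eq_zero_iff] at h
  exact h.resolve_right n1.ne))

lemma prod_esy (β : Fin n → ℂ) (a t : ℂ) :
    ∏ j, (a * β j + t) = ∑ r ∈ Finset.range (n + 1), a ^ r * t ^ (n - r) * esy β r := by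
  rw [Finset.prod_add, Finset.sum_powerset, Finset.card_univ, Fintype.card_fin]
  refine Finset.sum_congr rfl fun r _ => ?_
  rw [esy, Finset.mul_sum]
  refine Finset.sum_congr rfl fun J hJ => ?_
  have hc := (Finset.mem_powersetCard.1 hJ).2
  rw [Finset.prod_mul_distrib, Finset.prod_const, Finset.prod_const, Finset.card_univ_sdiff,
    Fintype.card_fin, hc]
  ring

lemma esy_conj (β : Fin n → ℂ) (r : ℕ) : esy (fun i => conj (β i)) r = conj (esy β r) := by
  simp only [esy, map_sum, map_prod]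

lemma exists_inv (β : Fin n → ℂ) (h : ∀ r, r ≤ n → esy β (n - r) = conj (esy β r)) (i : Fin n) :
    ∃ j, ‖β j‖ = ‖β i‖⁻¹ := by
  have h1 : ∏ j, (-conj (β i) * β j + 1) = ∏ j, (1 * conj (β j) + -conj (β i)) := by
    rw [prod_esy, prod_esy (fun j => conj (β j)), ← Finset.sum_range_reflect]
    refine Finset.sum_congr rfl fun r hr => ?_
    rw [esy_conj, ← h r (Nat.lt_succ_iff.1 (Finset.mem_range.1 hr)), one_pow, one_pow, mul_one,
      one_mul, Nat.add_sub_cancel]
  rw [Finset.prod_eq_zero (f := fun j => 1 * conj (β j) + -conj (β i)) (Finset.mem_univ i)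
    (by ring)] at h1
  obtain ⟨j, -, hj⟩ := Finset.prod_eq_zero_iff.1 h1
  have h2 : conj (β i) * β j = 1 := by linear_combination -hj
  have h3 := congrArg norm h2
  rw [norm_mul, Complex.norm_conj, norm_one] at h3
  exact ⟨j, eq_inv_of_mul_eq_one_right h3⟩

end Orth

open Orth in
theorem orth (hN : HNFStmt) (hQ : QuotStmt) : OrthStmt := by
  refine ⟨fun k α α' F F' hF hF' n1 n2 k1 k2 ⟨p, hp, r, hr, hne⟩ => ?_,
    fun k α F hF n1 h0 k1 _ p hp i => ?_⟩
  · rcases k with _ | N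
    · obtain rfl := Nat.le_zero.1 hr
      simp [esy] at hne
    by_contra h0
    have h1 : F' ≠ 0 := fun h => h0 (by simp [ip, h])
    have a1 := eig hN hQ hp (Nat.sub_le _ r) hF hF' n1 n2 k1 k2 h0
    have a2 := eig hN hQ hp (Nat.sub_le _ r) hF' hF' n2 n2 k2 k2 (ip_self_ne hQ hF' n2 h1)
    rw [Nat.sub_sub_self hr] at a1 a2
    exact hne (a1.trans a2.symm)
  · rcases k with _ | N
    · exact i.elim0
    exact exists_inv (α p)
      (fun r hr => eig hN hQ hp hr hF hF n1 n1 k1 k1 (ip_self_ne hQ hF n1 h0)) i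

end Pool.Agent.Lib.MP_fa98d2_nt.D
end
end
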