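import Pool.Agent.Lib.MP_fa98d2_nt.D.Calc

-- part Pool.Agent.Lib.MP_fa98d2_nt.D.Quot
section

/-! Integration on the quotient by the integral points. -/

open MeasureTheory Filter Topology Matrix
open scoped ENNReal Real

noncomputable section

namespace Pool.Agent.Lib.MP_fa98d2_nt.D

namespace Quot

variable {k : ℕ}

/-! The partition of unity -/

lemma tsum_pi {α : Type} (F : α → ℝ≥0∞) :
    ∀ n : ℕ, ∑' x : Fin n → α, ∏ i, F (x i) = (∑' a, F a) ^ n
  | 0 => by simp
  | n + 1 => by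
    rw [← (Fin.consEquiv fun _ : Fin (n + 1) => α).tsum_eq, ENNReal.tsum_prod', pow_succ',
      ← tsum_pi F n, ← ENNReal.tsum_mul_right]
    refine tsum_congr fun a => ?_
    rw [← ENNReal.tsum_mul_left]
    refine tsum_congr fun x => ?_
    simp [Fin.prod_univ_succ, Fin.consEquiv]

lemma tsum_int : ∑' z : ℤ, ENNReal.ofReal ((1 + |(z : ℝ)|)⁻¹ ^ 2) ≠ ⊤ := by
  have h : Summable fun n : ℕ => (1 + (n : ℝ))⁻¹ ^ 2 := by
    have := (summable_nat_add_iff 1).2 (Real.summable_nat_pow_inv.2 one_lt_two)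
    simpa [add_comm] using this
  have h2 : Summable fun z : ℤ => (1 + |(z : ℝ)|)⁻¹ ^ 2 :=
    Summable.of_nat_of_neg (by simpa using h) (by simpa using h)
  rw [← ENNReal.ofReal_tsum_of_nonneg (fun _ => by positivity) h2]
  exact ENNReal.ofReal_ne_top

lemma th_le (γ : GZ k) :
    th (iz γ) ≤ ∏ i, ∏ j, ENNReal.ofReal ((1 + |((γ.val i j : ℤ) : ℝ)|)⁻¹ ^ 2) := by
  have h : th (iz γ) = ∏ _i : Fin k, ∏ _j : Fin k, ENNReal.ofReal ((1 + ‖co (iz γ)‖)⁻¹ ^ 2) := by
    simp only [Finset.prod_const, Finset.card_univ, Fintype.card_fin]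
    rw [← ENNReal.ofReal_pow (by positivity), ← ENNReal.ofReal_pow (by positivity), ← pow_mul,
      ← pow_mul, th, mul_assoc]
  rw [h]
  refine Finset.prod_le_prod' fun i _ => Finset.prod_le_prod' fun j _ =>
    ENNReal.ofReal_le_ofReal ?_
  have : |((γ.val i j : ℤ) : ℝ)| ≤ ‖co (iz γ)‖ :=
    (norm_le_pi_norm (co (iz γ) i) j).trans (norm_le_pi_norm (co (iz γ)) i)
  gcongr

lemma tsum_th_one : ∑' γ : GZ k, th (iz γ) ≠ ⊤ := by
  refine ne_top_of_le_ne_top ?_ ((ENNReal.tsum_le_tsum th_le).trans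
    (ENNReal.tsum_comp_le_tsum_of_injective (f := fun γ : GZ k => (fun i j => γ.val i j))
      (fun a b h => Units.ext h)
      fun x : Fin k → Fin k → ℤ => ∏ i, ∏ j, ENNReal.ofReal ((1 + |((x i j : ℤ) : ℝ)|)⁻¹ ^ 2)))
  rw [tsum_pi fun z : Fin k → ℤ => ∏ j, ENNReal.ofReal ((1 + |((z j : ℤ) : ℝ)|)⁻¹ ^ 2),
    tsum_pi fun z : ℤ => ENNReal.ofReal ((1 + |(z : ℝ)|)⁻¹ ^ 2)]
  exact ENNReal.pow_ne_top (ENNReal.pow_ne_top tsum_int)

lemma th_mul (g : G k) : ∃ C : ℝ≥0∞, C ≠ ⊤ ∧ ∀ x, th (x * g) ≤ C * th x := by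
  let L := LinearMap.toContinuousLinearMap (rmul (g⁻¹).val)
  refine ⟨ENNReal.ofReal ((1 + ‖L‖) ^ (2 * k * k)), ENNReal.ofReal_ne_top, fun x => ?_⟩
  have h : L (co (x * g)) = co x := by
    have := of_rmul (g⁻¹).val (co (x * g))
    rw [of_co, ← Units.val_mul, mul_inv_cancel_right] at this
    exact this
  have h2 := L.le_opNorm (co (x * g))
  rw [h] at h2
  rw [th, th, ← ENNReal.ofReal_mul (by positivity), ← mul_pow]
  refine ENNReal.ofReal_le_ofReal (pow_le_pow_left₀ (by positivity) ?_ _)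
  rw [← div_eq_mul_inv, inv_eq_one_div, div_le_div_iff₀ (by positivity) (by positivity)]
  nlinarith [norm_nonneg L, norm_nonneg (co (x * g))]

lemma tsum_th_ne_top (g : G k) : ∑' γ : GZ k, th (iz γ * g) ≠ ⊤ := by
  obtain ⟨C, hC, h⟩ := th_mul g
  refine ne_top_of_le_ne_top ?_ (ENNReal.tsum_le_tsum fun γ => h (iz γ))
  rw [ENNReal.tsum_mul_left]
  exact ENNReal.mul_ne_top hC tsum_th_one

lemma th_ne (g : G k) : th g ≠ 0 := (ENNReal.ofReal_pos.2 (by positivity)).ne'

lemma wt_ne (g : G k) : wt g ≠ 0 := ENNReal.div_ne_zero.2 ⟨th_ne g, tsum_th_ne_top g⟩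

lemma measurable_th : Measurable (th (k := k)) :=
  ((measurable_const.add continuous_co.norm.measurable).inv.pow_const _).ennreal_ofReal

lemma meas : Measurable (wt (k := k)) :=
  measurable_th.div (Measurable.tsum fun _ => measurable_th.comp (measurable_const_mul _))

lemma sum (g : G k) : ∑' γ : GZ k, wt (iz γ * g) = 1 := by
  have h : ∀ δ : GZ k, ∑' γ : GZ k, th (iz γ * (iz δ * g)) = ∑' γ : GZ k, th (iz γ * g) :=
    fun δ => by
      rw [← (Equiv.mulRight δ).tsum_eq fun γ => th (iz γ * g)]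
      simp [mul_assoc]
  simp only [wt, h, div_eq_mul_inv]
  rw [ENNReal.tsum_mul_right]
  exact ENNReal.mul_inv_cancel (fun h0 => th_ne _ (ENNReal.tsum_eq_zero.1 h0 1))
    (tsum_th_ne_top g)

/-! Unfolding -/

lemma unfold {ι : Type} [Countable ι] (s : ι → G k) {β F : G k → ℝ≥0∞} (hβ : Measurable β)
    (hF : Measurable F) :
    ∫⁻ g, β g * ∑' v, F (s v * g) ∂mu k = ∫⁻ g, (∑' v, β ((s v)⁻¹ * g)) * F g ∂mu k := by
  simp_rw [← ENNReal.tsum_mul_left, ← ENNReal.tsum_mul_right]
  rw [lintegral_tsum (f := fun v g => β g * F (s v * g))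
      fun v => (hβ.mul (hF.comp (measurable_const_mul _))).aemeasurable,
    lintegral_tsum (f := fun v g => β ((s v)⁻¹ * g) * F g)
      fun v => ((hβ.comp (measurable_const_mul _)).mul hF).aemeasurable]
  refine tsum_congr fun v => ?_
  rw [← lintegral_mul_left_eq_self _ (s v)⁻¹]
  simp

lemma fold (Ψ : G k → ℝ≥0∞) (hΨ : Measurable Ψ) :
    ∫⁻ g, Ψ g ∂mu k = QI k fun g => ∑' γ : GZ k, Ψ (iz γ * g) := by
  rw [QI, unfold (fun γ => iz γ) meas hΨ]
  refine lintegral_congr fun g => ?_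
  rw [← (Equiv.inv (GZ k)).tsum_eq]
  simp [sum]

lemma indep (β F : G k → ℝ≥0∞) (hβ : Measurable β) (hF : Measurable F)
    (h1 : ∀ g, ∑' γ : GZ k, β (iz γ * g) = 1) (hz : ZInv F) :
    ∫⁻ g, β g * F g ∂mu k = QI k F := by
  rw [fold (fun g => β g * F g) (hβ.mul hF)]
  congr 1
  funext g
  simp only [hz _ _]
  rw [ENNReal.tsum_mul_right, h1, one_mul]

lemma rinv (F : G k → ℝ≥0∞) (hF : Measurable F) (hz : ZInv F) (a : G k) :
    QI k (rt a F) = QI k F := by
  rw [← indep (fun g => wt (g * a⁻¹)) F (meas.comp (measurable_mul_const _)) hF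
    (fun g => by simpa only [mul_assoc] using sum (g * a⁻¹)) hz, QI,
    ← lintegral_mul_right_eq_self _ a⁻¹]
  simp [rt]

lemma measurable_Shl (c c' : ℝ) : Measurable (Shl (k := k) c c') :=
  Measurable.ite ((measurableSet_le measurable_const measurable_dt).inter
    (measurableSet_le measurable_dt measurable_const)) measurable_const measurable_const

lemma Shl_iz (c c' : ℝ) (γ : GZ k) (g : G k) : Shl c c' (iz γ * g) = Shl c c' g := by
  simp [Shl, dt_mul]

lemma nuQ (F : G k → ℝ≥0∞) (hF : Measurable F) :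
    ∫⁻ g, F g ∂nu k = QI k fun g => Shl 1 2 g * F g := by
  rw [nu, lintegral_withDensity_eq_lintegral_mul _ (f := fun g => wt g * Shl 1 2 g)
    (meas.mul (measurable_Shl 1 2)) hF, QI]
  simp only [Pi.mul_apply, mul_assoc]

/-! The centre -/

lemma log_int {a b : ℝ} (ha : 0 < a) (hab : a ≤ b) :
    ∫⁻ t in Set.Ioi (0 : ℝ), ENNReal.ofReal t⁻¹ *
      (if a ≤ t ^ (k + 1) ∧ t ^ (k + 1) ≤ b then 1 else 0) =
      ENNReal.ofReal (Real.log (b / a) / (k + 1)) := by
  have hb : 0 < b := ha.trans_le hab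
  have hk : k + 1 ≠ 0 := k.succ_ne_zero
  obtain ⟨x, hx, rfl⟩ : ∃ x : ℝ, 0 < x ∧ x ^ (k + 1) = a :=
    ⟨_, Real.rpow_pos_of_pos ha _, Real.rpow_inv_natCast_pow ha.le hk⟩
  obtain ⟨y, hy, rfl⟩ : ∃ y : ℝ, 0 < y ∧ y ^ (k + 1) = b :=
    ⟨_, Real.rpow_pos_of_pos hb _, Real.rpow_inv_natCast_pow hb.le hk⟩
  have hxy : x ≤ y := (pow_le_pow_iff_left₀ hx.le hy.le hk).1 hab
  have h1 : ∀ t ∈ Set.Ioi (0 : ℝ), ENNReal.ofReal t⁻¹ *
      (if x ^ (k + 1) ≤ t ^ (k + 1) ∧ t ^ (k + 1) ≤ y ^ (k + 1) then 1 else 0) =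
      (Set.Icc x y).indicator (fun t => ENNReal.ofReal t⁻¹) t := fun t ht => by
    have ht : 0 < t := ht
    simp only [pow_le_pow_iff_left₀ hx.le ht.le hk, pow_le_pow_iff_left₀ ht.le hy.le hk,
      Set.indicator_apply, Set.mem_Icc]
    split_ifs <;> simp
  have h0 : (0 : ℝ) ∉ Set.uIcc x y := by
    rw [Set.uIcc_of_le hxy]
    exact fun h => absurd h.1 (not_le.2 hx)
  have hi : IntegrableOn (fun t : ℝ => t⁻¹) (Set.Icc x y) :=
    (continuousOn_inv₀.mono fun t ht => (hx.trans_le ht.1).ne').integrableOn_Icc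
  rw [setLIntegral_congr_fun measurableSet_Ioi h1, lintegral_indicator measurableSet_Icc,
    Measure.restrict_restrict measurableSet_Icc,
    Set.inter_eq_left.2 (show Set.Icc x y ⊆ Set.Ioi 0 from fun t ht => hx.trans_le ht.1),
    ← ofReal_integral_eq_lintegral_ofReal hi
      ((ae_restrict_mem measurableSet_Icc).mono fun t ht => inv_nonneg.2 (hx.le.trans ht.1)),
    integral_Icc_eq_integral_Ioc, ← intervalIntegral.integral_of_le hxy, integral_inv h0,
    ← div_pow, Real.log_pow]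
  congr 1
  push_cast
  field_simp

lemma shl_int {c c' : ℝ} (hc : 0 < c) (hcc : c ≤ c') (g : G (k + 1)) :
    ∫⁻ t in Set.Ioi (0 : ℝ), ENNReal.ofReal t⁻¹ * Shl c c' (sc t * g) =
      ENNReal.ofReal (Real.log (c' / c) / (k + 1)) := by
  have hd := dt_pos g
  rw [← div_div_div_cancel_right₀ hd.ne' c' c, ← log_int (div_pos hc hd) (by gcongr)]
  refine setLIntegral_congr_fun measurableSet_Ioi fun t ht => ?_
  have ht : 0 < t := ht
  simp only [Shl, dt_mul, dt_sc ht.ne', abs_of_pos ht, div_le_iff₀ hd, le_div_iff₀ hd]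

lemma shl_int' (g : G (k + 1)) :
    ∫⁻ t in Set.Ioi (0 : ℝ), ENNReal.ofReal t⁻¹ * Shl 1 2 (sc t⁻¹ * g) =
      ENNReal.ofReal (Real.log 2 / (k + 1)) := by
  have hd := dt_pos g
  have e : dt g / (dt g / 2) = 2 := by field_simp
  rw [← e, ← log_int (half_pos hd) (half_le_self hd.le), e]
  refine setLIntegral_congr_fun measurableSet_Ioi fun t ht => ?_
  have ht : 0 < t := ht
  have hp : 0 < t ^ (k + 1) := pow_pos ht _
  simp only [Shl, dt_mul, dt_sc (inv_ne_zero ht.ne'), abs_of_pos (inv_pos.2 ht), inv_pow,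
    le_inv_mul_iff₀ hp, inv_mul_le_iff₀ hp, div_le_iff₀ (zero_lt_two' ℝ), mul_one, and_comm]

lemma sc_iz {t : ℝ} (ht : t ≠ 0) (γ : GZ k) (g : G k) : sc t * (iz γ * g) = iz γ * (sc t * g) := by
  rw [← mul_assoc, sc_comm ht, mul_assoc]

lemma cen (Ψ : G (k + 1) → ℝ≥0∞) (hΨ : Measurable Ψ) (hz : ZInv Ψ) :
    QI (k + 1) Ψ = ENNReal.ofReal ((k + 1) / Real.log 2) *
      ∫⁻ g, ∫⁻ t in Set.Ioi (0 : ℝ), ENNReal.ofReal t⁻¹ * Ψ (sc t * g) ∂volume ∂nu (k + 1) := by
  have hl : 0 < Real.log 2 := Real.log_pos one_lt_two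
  have hS := measurable_Shl (k := k + 1) 1 2
  have mt : Measurable fun p : G (k + 1) × ℝ => ENNReal.ofReal p.2⁻¹ :=
    measurable_snd.inv.ennreal_ofReal
  have m1 : Measurable fun p : G (k + 1) × ℝ => ENNReal.ofReal p.2⁻¹ * Ψ (sc p.2 * p.1) :=
    mt.mul (hΨ.comp ((measurable_sc.comp measurable_snd).mul measurable_fst))
  have m2 : Measurable fun p : G (k + 1) × ℝ => ENNReal.ofReal p.2⁻¹ * Shl 1 2 (sc p.2⁻¹ * p.1) :=
    mt.mul (hS.comp ((measurable_sc.comp measurable_snd.inv).mul measurable_fst))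
  have key : ∀ t ∈ Set.Ioi (0 : ℝ),
      ∫⁻ g, wt g * (Shl 1 2 g * (ENNReal.ofReal t⁻¹ * Ψ (sc t * g))) ∂mu (k + 1) =
      ∫⁻ g, wt g * (ENNReal.ofReal t⁻¹ * Shl 1 2 (sc t⁻¹ * g) * Ψ g) ∂mu (k + 1) := fun t ht => by
    have ht : t ≠ 0 := ne_of_gt ht
    refine Eq.trans ?_ (rinv (fun g => ENNReal.ofReal t⁻¹ * Shl 1 2 (sc t⁻¹ * g) * Ψ g)
      ((m2.comp measurable_prodMk_right).mul hΨ) (fun γ g => by
        simp only [sc_iz (inv_ne_zero ht), Shl_iz, hz γ g]) (sc t))
    refine lintegral_congr fun g => ?_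
    simp only [rt, ← sc_comm ht, ← sc_inv ht, inv_mul_cancel_left]
    ring
  rw [nuQ _ m1.lintegral_prod_right', QI, QI]
  calc ∫⁻ g, wt g * Ψ g ∂mu (k + 1)
      = ∫⁻ g, ENNReal.ofReal ((k + 1) / Real.log 2) * ∫⁻ t in Set.Ioi (0 : ℝ),
          wt g * (ENNReal.ofReal t⁻¹ * Shl 1 2 (sc t⁻¹ * g) * Ψ g) ∂volume ∂mu (k + 1) := by
        refine lintegral_congr fun g => ?_
        have m3 : Measurable fun t : ℝ => ENNReal.ofReal t⁻¹ * Shl 1 2 (sc t⁻¹ * g) :=
          m2.comp measurable_prodMk_left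
        rw [lintegral_const_mul _ (m3.mul_const _), lintegral_mul_const _ m3, shl_int',
          mul_left_comm, ← mul_assoc (ENNReal.ofReal _), ← ENNReal.ofReal_mul (by positivity),
          show (k + 1) / Real.log 2 * (Real.log 2 / (k + 1)) = 1 by field_simp,
          ENNReal.ofReal_one, one_mul]
    _ = _ := by
        rw [lintegral_const_mul' _ _ ENNReal.ofReal_ne_top, lintegral_lintegral_swap
          ((meas.comp measurable_fst).mul (m2.mul (hΨ.comp measurable_fst))).aemeasurable,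
          ← setLIntegral_congr_fun measurableSet_Ioi key, ← lintegral_lintegral_swap
          ((meas.comp measurable_fst).mul ((hS.comp measurable_fst).mul m1)).aemeasurable]
        congr 1
        refine lintegral_congr fun g => ?_
        have m3 : Measurable fun t : ℝ => ENNReal.ofReal t⁻¹ * Ψ (sc t * g) :=
          m1.comp measurable_prodMk_left
        rw [lintegral_const_mul _ (m3.const_mul _), lintegral_const_mul _ m3]

lemma shell (H : G (k + 1) → ℝ≥0∞) (hH : Measurable H) (hz : ZInv H) (hs : SInv H) (c c' : ℝ)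
    (hc : 0 < c) (hcc : c ≤ c') : QI (k + 1) (fun g => Shl c c' g * H g) =
      ENNReal.ofReal (Real.log (c' / c) / Real.log 2) * ∫⁻ g, H g ∂nu (k + 1) := by
  have hl : 0 < Real.log 2 := Real.log_pos one_lt_two
  have e : ∀ g : G (k + 1), ∫⁻ t in Set.Ioi (0 : ℝ),
      ENNReal.ofReal t⁻¹ * (Shl c c' (sc t * g) * H (sc t * g)) =
      ENNReal.ofReal (Real.log (c' / c) / (k + 1)) * H g := fun g => by
    rw [← shl_int hc hcc g, ← lintegral_mul_const _
      (f := fun t : ℝ => ENNReal.ofReal t⁻¹ * Shl c c' (sc t * g))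
      (measurable_inv.ennreal_ofReal.mul ((measurable_Shl c c').comp (measurable_sc.mul_const g)))]
    refine setLIntegral_congr_fun measurableSet_Ioi fun t ht => ?_
    simp only [hs t (ne_of_gt ht), mul_assoc]
  rw [cen (fun g => Shl c c' g * H g) ((measurable_Shl c c').mul hH) fun γ g => by
    simp only [Shl_iz, hz γ g]]
  simp only [e]
  rw [lintegral_const_mul _ hH, ← mul_assoc, ← ENNReal.ofReal_mul (by positivity)]
  congr 2
  field_simp

lemma nuR : ∀ (k : ℕ) (H : G k → ℝ≥0∞), Measurable H → ZInv H → SInv H → ∀ a,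
    ∫⁻ g, H (g * a) ∂nu k = ∫⁻ g, H g ∂nu k
  | 0, H, _, _, _, a => by simp only [Subsingleton.elim a 1, mul_one]
  | k + 1, H, hH, hz, hs, a => by
    have hl : 0 < Real.log 2 := Real.log_pos one_lt_two
    have hd := dt_pos a
    have h := shell H hH hz hs (dt a) (2 * dt a) hd (by linarith)
    rw [mul_div_cancel_right₀ _ hd.ne', div_self hl.ne', ENNReal.ofReal_one, one_mul] at h
    rw [← h, ← rinv (fun g => Shl (dt a) (2 * dt a) g * H g) ((measurable_Shl _ _).mul hH)
      (fun γ g => by simp only [Shl_iz, hz γ g]) a,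
      nuQ (fun g => H (g * a)) (hH.comp (measurable_mul_const a))]
    congr 1
    funext g
    simp only [rt, Shl, dt_mul, le_mul_iff_one_le_left hd, mul_le_mul_iff_left₀ hd]

lemma pos (k : ℕ) (F : G k → ℂ) (hF : Aut F) (h : N2 F = 0) : F = 0 := by
  have hm : Measurable fun g => ‖F g‖ₑ ^ 2 := hF.cont.measurable.enorm.pow_const 2
  have h1 : QI k (fun g => ‖F g‖ₑ ^ 2) = 0 := by
    cases k with
    | zero =>
      rw [← h, N2, nuQ _ hm]
      congr 1
      funext g
      simp [Shl, Subsingleton.elim g 1]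
    | succ k =>
      rw [cen _ hm fun γ g => by simp only [hF.zinv γ g], mul_eq_zero]
      refine Or.inr ((lintegral_congr_ae ?_).trans lintegral_zero)
      filter_upwards [(lintegral_eq_zero_iff hm).1 h] with g hg
      refine (setLIntegral_congr_fun measurableSet_Ioi fun t ht => ?_).trans lintegral_zero
      simp only [hF.sinv t (ne_of_gt ht), hg, Pi.zero_apply, mul_zero]
  refine (hF.cont.ae_eq_iff_eq (mu k) continuous_zero).1 ?_
  filter_upwards [(lintegral_eq_zero_iff (meas.mul hm)).1 h1] with g hg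
  simpa [wt_ne g] using hg

/-! Unfolding to the mirabolic subgroup -/

lemma bij : Function.Bijective fun p : GZ k × (Fin k → ℤ) × Prim k =>
    (pz p.2.2)⁻¹ * (pb p.1 0 * pb 1 p.2.1) := by
  have row : ∀ (ξ : Prim k) (γ : GZ (k + 1)),
      (pz ξ * γ).val (Fin.last k) = ξ.1 ᵥ* γ.val := fun ξ γ => by
    rw [← pz_row]
    ext j
    simp [Matrix.mul_apply, Matrix.vecMul, dotProduct]
  constructor
  · rintro ⟨h, z, ξ⟩ ⟨h', z', ξ'⟩ e
    simp only [pb_mul, mul_one, add_zero] at e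
    have key : ∀ (ξ : Prim k) (h : GZ k) (b : Fin k → ℤ),
        ξ.1 = Pi.single (Fin.last k) 1 ᵥ* (((pz ξ)⁻¹ * pb h b)⁻¹).val := fun ξ h b => by
      rw [← blk_last h.val b, ← val_pb, ← mul_inv_cancel_left (pz ξ) (pb h b), row,
        mul_inv_cancel_left, Matrix.vecMul_vecMul, ← Units.val_mul, mul_inv_cancel, Units.val_one,
        Matrix.vecMul_one]
    have e1 : ξ = ξ' := Subtype.ext (by rw [key ξ h, key ξ' h', e])
    subst e1
    obtain ⟨rfl, e2⟩ := pb_inj (mul_left_cancel e)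
    have e3 := congrArg (fun v => (h⁻¹).val *ᵥ v) e2
    simp only [Matrix.mulVec_mulVec, ← Units.val_mul, inv_mul_cancel, Units.val_one,
      Matrix.one_mulVec] at e3
    rw [e3]
  · intro γ
    let ξ : Prim k := ⟨(γ⁻¹).val (Fin.last k), γ⁻¹, rfl⟩
    obtain ⟨h, z, e⟩ := exists_pb (g := pz ξ * γ) (by
      rw [row, ← blk_last (1 : Matrix (Fin k) (Fin k) ℤ) 0, blk_one]
      have := congrArg (fun x : GZ (k + 1) => x.val (Fin.last k)) (inv_mul_cancel γ)
      refine Eq.trans ?_ this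
      ext j
      simp only [ξ, Units.val_mul, Matrix.mul_apply, Matrix.vecMul, dotProduct])
    refine ⟨(h, (h⁻¹).val *ᵥ z, ξ), ?_⟩
    simp only [pb_mul, mul_one, add_zero, Matrix.mulVec_mulVec, ← Units.val_mul, mul_inv_cancel,
      Units.val_one, Matrix.one_mulVec, ← e, inv_mul_cancel_left]

lemma vol_iz (γ : GZ k) {Φ : (Fin k → ℝ) → ℝ≥0∞} (hΦ : Measurable Φ) :
    ∫⁻ b, Φ b = ∫⁻ b, Φ ((iz γ).val *ᵥ b) := by
  have h := Real.map_matrix_volume_pi_eq_smul_volume_pi (det_ne (iz γ))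
  have h2 := dt_iz γ
  rw [dt] at h2
  rw [abs_inv, h2, inv_one, ENNReal.ofReal_one, one_smul] at h
  conv_lhs => rw [← h]
  exact lintegral_map hΦ (LinearMap.continuous_of_finiteDimensional _).measurable

lemma unf (hH : HaarStmt) (hT : TorusStmt) (H : G (k + 1) → ℝ≥0∞) (hm : Measurable H)
    (hp : PInv H) : QI (k + 1) (fun g => ∑' ξ : Prim k, H (iz (pz ξ) * g)) = PI k H := by
  set β : G (k + 1) → ℝ≥0∞ := fun g => ∑' ξ : Prim k, wt ((iz (pz ξ))⁻¹ * g) with hβ
  have mβ : Measurable β := Measurable.tsum fun _ => meas.comp (measurable_const_mul _)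
  have sβ : ∀ g, ∑' h : GZ k, ∑' z : Fin k → ℤ, β (iz (pb h 0 * pb 1 z) * g) = 1 := fun g => by
    rw [← sum g, ← (Equiv.ofBijective _ bij).tsum_eq, ENNReal.tsum_prod']
    refine tsum_congr fun h => ?_
    rw [ENNReal.tsum_prod']
    simp only [hβ, Equiv.ofBijective_apply, map_mul, map_inv, mul_assoc]
  have m0 : Measurable fun g => β g * H g := mβ.mul hm
  have mn := continuous_nb (k := k).measurable
  have key : ∀ g, ∑' γ : GZ k, ∫⁻ b, β (nb b * (up (iz γ) * g)) * H (nb b * (up (iz γ) * g)) =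
      ∫⁻ b, H (nb b * g) ∂cub k := fun g => by
    have e : ∀ γ : GZ k, ∫⁻ b, β (nb b * (up (iz γ) * g)) * H (nb b * (up (iz γ) * g)) =
        ∫⁻ b, (∑' z : Fin k → ℤ, β (iz (pb γ 0 * pb 1 z) * (nb b * g))) * H (nb b * g) ∂cub k :=
      fun γ => by
        have m1 : Measurable fun b => β (nb b * (up (iz γ) * g)) * H (nb b * (up (iz γ) * g)) :=
          m0.comp (mn.mul_const _)
        have m2 : Measurable fun b => β (up (iz γ) * (nb b * g)) * H (up (iz γ) * (nb b * g)) :=
          m0.comp ((mn.mul_const _).const_mul _)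
        rw [vol_iz γ m1]
        simp only [← mul_assoc, ← up_mul_nb]
        simp only [mul_assoc]
        rw [hT.tile k _ m2]
        refine lintegral_congr fun b => ?_
        rw [← ENNReal.tsum_mul_right]
        refine tsum_congr fun z => ?_
        have e2 : up (iz γ) * (nb (zv z + b) * g) = iz (pb γ 0 * pb 1 z) * (nb b * g) := by
          rw [map_mul, iz_pb_zero, iz_pb_one, nb_add, mul_assoc, mul_assoc]
        rw [e2, pb_mul, hp]
    simp only [e]
    rw [← lintegral_tsum (f := fun (γ : GZ k) b =>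
      (∑' z : Fin k → ℤ, β (iz (pb γ 0 * pb 1 z) * (nb b * g))) * H (nb b * g))
      fun γ => ((Measurable.tsum fun z =>
        mβ.comp ((mn.mul_const _).const_mul _)).mul (hm.comp (mn.mul_const _))).aemeasurable]
    refine lintegral_congr fun b => ?_
    rw [ENNReal.tsum_mul_right, sβ, one_mul]
  rw [QI, unfold (fun ξ => iz (pz ξ)) meas hm, hH.blk k _ m0, PI]
  refine lintegral_congr fun r => ?_
  have m3 : Measurable fun p : G k × (Fin k → ℝ) =>
      β (nb p.2 * up p.1 * sr r) * H (nb p.2 * up p.1 * sr r) :=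
    m0.comp (((mn.comp measurable_snd).mul
      (continuous_up.measurable.comp measurable_fst)).mul_const _)
  rw [fold (fun h => ENNReal.ofReal (dt h)⁻¹ *
    ∫⁻ b, β (nb b * up h * sr r) * H (nb b * up h * sr r))
    (measurable_dt.inv.ennreal_ofReal.mul m3.lintegral_prod_right')]
  congr 1
  funext h
  simp only [dt_mul, dt_iz, one_mul, up_mul, mul_assoc]
  rw [ENNReal.tsum_mul_left, key]

end Quot

theorem quot (hH : HaarStmt) (hT : TorusStmt) : QuotStmt :=
  ⟨fun _ => Quot.meas, fun _ => Quot.sum, fun _ => Quot.indep, fun _ => Quot.fold,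
    fun _ => Quot.rinv, fun _ => Quot.nuQ, fun _ => Quot.cen, fun _ => Quot.shell, Quot.nuR,
    Quot.pos, fun _ => Quot.unf hH hT⟩

end Pool.Agent.Lib.MP_fa98d2_nt.D
end
end

-- part Pool.Agent.Lib.MP_fa98d2_nt.D.Wh
section

/-! Whittaker coefficients: integral representation, equivariance, smoothness. -/

open MeasureTheory Filter Topology Matrix
open scoped ENNReal Real ContDiff ComplexConjugate

noncomputable section

namespace Pool.Agent.Lib.MP_fa98d2_nt.D

namespace Wh

variable {k : ℕ}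

theorem ae_cub (k : ℕ) : ∀ᵐ b ∂cub k, b ∈ Set.Icc (0 : Fin k → ℝ) 1 := by
  have h : ∀ᵐ b ∂cub k, b ∈ (Set.univ.pi fun _ => Set.Ico (0 : ℝ) 1) :=
    ae_restrict_mem (MeasurableSet.univ_pi fun _ => measurableSet_Ico)
  filter_upwards [h] with b hb
  exact ⟨fun i => (hb i trivial).1, fun i => (hb i trivial).2.le⟩

theorem cpt : ∀ k : ℕ, ∃ K : Set (G k), IsCompact K ∧ ∀ᵐ y ∂cY k, un k y ∈ K
  | 0 => ⟨{1}, isCompact_singleton, Eventually.of_forall fun _ => rfl⟩
  | k + 1 => by
    obtain ⟨K, hK, h⟩ := cpt k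
    refine ⟨(fun p : G k × (Fin k → ℝ) => nb p.2 * up p.1) '' (K ×ˢ Set.Icc 0 1),
      (hK.prod isCompact_Icc).image
        ((continuous_nb.comp continuous_snd).mul (continuous_up.comp continuous_fst)), ?_⟩
    have h1 := (Measure.quasiMeasurePreserving_fst (μ := cY k) (ν := cub k)).ae h
    have h2 := (Measure.quasiMeasurePreserving_snd (μ := cY k) (ν := cub k)).ae (ae_cub k)
    have h3 : ∀ᵐ p ∂(cY k).prod (cub k), nb p.2 * up (un k p.1) ∈
        (fun p : G k × (Fin k → ℝ) => nb p.2 * up p.1) '' (K ×ˢ Set.Icc 0 1) := by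
      filter_upwards [h1, h2] with p hp1 hp2
      exact ⟨(un k p.1, p.2), ⟨hp1, hp2⟩, rfl⟩
    exact h3

theorem integrable_un {Φ : G k → ℂ} (hΦ : Continuous Φ) :
    Integrable (fun y => Φ (un k y)) (cY k) := by
  obtain ⟨K, hK, h⟩ := cpt k
  obtain ⟨C, hC⟩ := hK.exists_bound_of_continuousOn hΦ.continuousOn
  refine Integrable.of_bound (hΦ.measurable.comp (measurable_un k)).aestronglyMeasurable C ?_
  filter_upwards [h] with y hy using hC _ hy

theorem integrable_cub {H : (Fin k → ℝ) → ℂ} (hH : Continuous H) : Integrable H (cub k) := by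
  obtain ⟨C, hC⟩ := (isCompact_Icc (a := (0 : Fin k → ℝ)) (b := 1)).exists_bound_of_continuousOn
    hH.continuousOn
  refine Integrable.of_bound hH.aestronglyMeasurable C ?_
  filter_upwards [ae_cub k] with y hy using hC _ hy

/-- continuity of parametric integrals -/
theorem cont_int {Z : Type} [MeasurableSpace Z] {ν : Measure Z} {u : Z → G k} {χ : Z → ℂ}
    {K : Set (G k)} (hu : Measurable u) (hχ : Integrable χ ν) (hK : IsCompact K)
    (hae : ∀ᵐ z ∂ν, χ z ≠ 0 → u z ∈ K) {Φ : G k × G k → ℂ} (hΦ : Continuous Φ) :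
    Continuous fun g => ∫ z, χ z * Φ (u z, g) ∂ν := by
  refine continuous_iff_continuousAt.2 fun g0 => ?_
  obtain ⟨N, hN, hN0⟩ := exists_compact_mem_nhds g0
  obtain ⟨C, hC⟩ := (hK.prod hN).exists_bound_of_continuousOn hΦ.continuousOn
  refine continuousAt_of_dominated (bound := fun z => ‖χ z‖ * C) ?_ ?_ (hχ.norm.mul_const C) ?_
  · exact Eventually.of_forall fun g => hχ.aestronglyMeasurable.mul
      (hΦ.measurable.comp (hu.prodMk measurable_const)).aestronglyMeasurable
  · filter_upwards [hN0] with g hg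
    filter_upwards [hae] with z hz
    by_cases h0 : χ z = 0
    · simp [h0]
    · rw [norm_mul]
      exact mul_le_mul_of_nonneg_left (hC (u z, g) ⟨hz h0, hg⟩) (norm_nonneg _)
  · exact Eventually.of_forall fun z =>
      (continuous_const.mul (hΦ.comp (continuous_const.prodMk continuous_id))).continuousAt

theorem cont_ee_dot (ξ : Fin k → ℤ) : Continuous fun b : Fin k → ℝ => ee (-(zv ξ ⬝ᵥ b)) :=
  continuous_ee.comp (continuous_const.dotProduct continuous_id).neg

theorem cont_cfU (ξ : Fin k → ℤ) {F : G (k + 1) → ℂ} (hF : Continuous F) :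
    Continuous (cfU ξ F) := by
  have h := cont_int (ν := cub k) (u := nb) (χ := fun b => ee (-(zv ξ ⬝ᵥ b)))
    (K := nb '' Set.Icc 0 1) continuous_nb.measurable (integrable_cub (cont_ee_dot ξ))
    (isCompact_Icc.image continuous_nb)
    (by filter_upwards [ae_cub k] with b hb _ using ⟨b, hb, rfl⟩)
    (Φ := fun p => F (p.1 * p.2)) (hF.comp continuous_mul)
  refine h.congr fun g => ?_
  simp only [cfU, fc, mul_comm]

/-! ### The character -/

theorem psi_zero (m : Fin 0 → ℝ) (u : G 1) : psi m u = 1 := by simp [psi]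

theorem psi_pb (k : ℕ) (m : Fin (k + 1) → ℝ) (u : G (k + 1)) (b : Fin (k + 1) → ℝ) :
    psi m (pb u b) = ee (m (Fin.last k) * b (Fin.last k)) * psi (Fin.init m) u := by
  rw [psi, psi, ← ee_add, Fin.sum_univ_castSucc, add_comm]
  congr 2
  · simp [Fin.succ_last]
  · refine Finset.sum_congr rfl fun i _ => ?_
    rw [Fin.succ_castSucc, val_pb, blk_cc]
    rfl

theorem mulVec_last {u : G (k + 1)} (hu : IsU u) (b : Fin (k + 1) → ℝ) :
    (u.val *ᵥ b) (Fin.last k) = b (Fin.last k) := by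
  obtain ⟨u', c, -, rfl⟩ := hu.exists_pb
  simp [Matrix.mulVec, dotProduct, Fin.sum_univ_castSucc]

theorem psi_mul : ∀ (k : ℕ) (m : Fin k → ℝ) (u v : G (k + 1)), IsU u → IsU v →
    psi m (u * v) = psi m u * psi m v
  | 0, m, u, v, _, _ => by simp [psi_zero]
  | k + 1, m, u, v, hu, hv => by
    obtain ⟨u', b, hu', rfl⟩ := hu.exists_pb
    obtain ⟨v', c, hv', rfl⟩ := hv.exists_pb
    rw [pb_mul, psi_pb, psi_pb, psi_pb, psi_mul k _ _ _ hu' hv', Pi.add_apply, mulVec_last hu',
      mul_add, ee_add]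
    ring

theorem cont_psi (m : Fin k → ℝ) : Continuous (psi m) :=
  continuous_ee.comp (continuous_finsetSum _ fun _ _ => continuous_const.mul (continuous_entry _ _))

theorem cont_cpsi (m : Fin k → ℝ) : Continuous fun u => conj (psi m u) :=
  Complex.continuous_conj.comp (cont_psi m)

theorem zv_single_dot (z : ℤ) (b : Fin (k + 1) → ℝ) :
    zv (Pi.single (Fin.last k) z) ⬝ᵥ b = z * b (Fin.last k) := by
  have : zv (Pi.single (Fin.last k) z) = Pi.single (Fin.last k) (z : ℝ) := by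
    ext i
    by_cases h : i = Fin.last k
    · subst h; simp [zv]
    · simp [zv, Pi.single_eq_of_ne h]
  rw [this, single_dotProduct]

theorem init_zv (m : Fin (k + 1) → ℤ) : Fin.init (zv m) = zv (Fin.init m) := rfl

/-! ### Integral representation -/

theorem isU_one_dim {u : G 1} (hu : IsU u) : u = 1 := by
  apply Units.ext
  ext i j
  rw [hu i j (by rw [Subsingleton.elim j i]), Units.val_one, Matrix.one_apply]

theorem repr0 : ∀ (k : ℕ) (m : Fin k → ℤ) (F : G (k + 1) → ℂ), Continuous F → D.Wh k m F =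
    ∫ y, conj (psi (zv m) (un (k + 1) y)) * F (un (k + 1) y) ∂cY (k + 1)
  | 0, m, F, _ => by
    have : ∀ y, un 1 y = 1 := fun y => isU_one_dim (isU_un 1 y)
    simp [this, psi_zero, D.Wh]
  | k + 1, m, F, hF => by
    have hi : Integrable (fun p : Y (k + 1) × (Fin (k + 1) → ℝ) =>
        conj (psi (zv m) (nb p.2 * up (un (k + 1) p.1))) * F (nb p.2 * up (un (k + 1) p.1)))
        ((cY (k + 1)).prod (cub (k + 1))) :=
      integrable_un (k := k + 2) ((cont_cpsi (zv m)).mul hF)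
    have h1 := integral_prod _ hi
    have hc : Continuous fun h => cfU (Pi.single (Fin.last k) (m (Fin.last k))) F (up h) :=
      (cont_cfU _ hF).comp continuous_up
    rw [D.Wh, repr0 k _ _ hc]
    refine Eq.trans ?_ h1.symm
    refine integral_congr_ae (Eventually.of_forall fun y => ?_)
    simp only [cfU, fc]
    rw [← integral_const_mul]
    refine integral_congr_ae (Eventually.of_forall fun b => ?_)
    simp only
    rw [zv_single_dot, nb_mul_up, psi_pb, map_mul, conj_ee, init_zv]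
    simp only [zv]
    ring

theorem cont_rt {F : G k → ℂ} (hF : Continuous F) (g : G k) : Continuous (rt g F) :=
  hF.comp (continuous_mul_const g)

theorem repr (k : ℕ) (m : Fin k → ℤ) (F : G (k + 1) → ℂ) (hF : Continuous F) (g : G (k + 1)) :
    Wf m F g = ∫ y, conj (psi (zv m) (un (k + 1) y)) * F (un (k + 1) y * g) ∂cY (k + 1) :=
  repr0 k m _ (cont_rt hF g)

theorem cont (k : ℕ) (m : Fin k → ℤ) (F : G (k + 1) → ℂ) (hF : Continuous F) :
    Continuous (Wf m F) := by
  obtain ⟨K, hK, h⟩ := cpt (k + 1)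
  have h := cont_int (measurable_un (k + 1)) (integrable_un (cont_cpsi (zv m))) hK
    (by filter_upwards [h] with y hy _ using hy)
    (Φ := fun p => F (p.1 * p.2)) (hF.comp continuous_mul)
  exact h.congr fun g => (repr k m F hF g).symm

theorem add (k : ℕ) (m : Fin k → ℤ) (F F' : G (k + 1) → ℂ) (hF : Continuous F)
    (hF' : Continuous F') : Wf m (F + F') = Wf m F + Wf m F' := by
  ext g
  rw [Pi.add_apply, repr k m _ (hF.add hF'), repr k m _ hF, repr k m _ hF', ← integral_add]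
  · simp only [Pi.add_apply, mul_add]
  · exact integrable_un ((cont_cpsi (zv m)).mul (cont_rt hF g))
  · exact integrable_un ((cont_cpsi (zv m)).mul (cont_rt hF' g))

theorem smul0 : ∀ (k : ℕ) (m : Fin k → ℤ) (c : ℂ) (F : G (k + 1) → ℂ),
    D.Wh k m (fun x => c * F x) = c * D.Wh k m F
  | 0, _, _, _ => rfl
  | k + 1, m, c, F => by
    rw [D.Wh, D.Wh, ← smul0 k]
    congr 1
    ext h
    simp only [cfU, fc, mul_assoc]
    exact integral_const_mul _ _

theorem smul (k : ℕ) (m : Fin k → ℤ) (c : ℂ) (F : G (k + 1) → ℂ) :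
    Wf m (c • F) = c • Wf m F := by
  ext g
  exact smul0 k m c (rt g F)

/-! ### Equivariance -/

theorem congrU : ∀ (k : ℕ) (m : Fin k → ℤ) (F F' : G (k + 1) → ℂ), (∀ u, IsU u → F u = F' u) →
    D.Wh k m F = D.Wh k m F'
  | 0, _, _, _, h => h 1 isU_one
  | k + 1, m, F, F', h => by
    rw [D.Wh, D.Wh]
    refine congrU k _ _ _ fun u hu => ?_
    simp only [cfU, h _ ((isU_nb _).mul hu.up)]

theorem per {F : G (k + 1) → ℂ} (hZ : UZInv F) (ξ : Fin k → ℤ) (g : G (k + 1)) :
    Per fun b => F (nb b * g) * ee (-(zv ξ ⬝ᵥ b)) := by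
  intro z b
  have h1 : F (nb (zv z + b) * g) = F (nb b * g) := by
    rw [nb_add, mul_assoc, ← iz_pb_one, hZ _ (by rw [iz_pb_one]; exact isU_nb _)]
  have h2 : -(zv ξ ⬝ᵥ (zv z + b)) = ((-(ξ ⬝ᵥ z) : ℤ) : ℝ) + -(zv ξ ⬝ᵥ b) := by
    rw [dotProduct_add, neg_add]
    simp [dotProduct, zv]
  simp only
  rw [h1, h2, ee_add, ee_int, one_mul]

theorem cont_H {F : G (k + 1) → ℂ} (hF : Continuous F) (ξ : Fin k → ℤ) (g : G (k + 1)) :
    Continuous fun b => F (nb b * g) * ee (-(zv ξ ⬝ᵥ b)) :=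
  (hF.comp (continuous_nb.mul continuous_const)).mul (cont_ee_dot ξ)

theorem cfU_nb (hT : TorusStmt) {F : G (k + 1) → ℂ} (hF : Continuous F) (hZ : UZInv F)
    (ξ : Fin k → ℤ) (c : Fin k → ℝ) (g : G (k + 1)) :
    cfU ξ F (nb c * g) = ee (zv ξ ⬝ᵥ c) * cfU ξ F g := by
  rw [cfU, cfU, fc, fc, ← hT.shift k _ (cont_H hF ξ g) (per hZ ξ g) c, ← integral_const_mul]
  refine integral_congr_ae (Eventually.of_forall fun b => ?_)
  have h : -(zv ξ ⬝ᵥ b) = zv ξ ⬝ᵥ c + -(zv ξ ⬝ᵥ (b + c)) := by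
    rw [dotProduct_add]; ring
  simp only
  rw [nb_add, mul_assoc (nb b), h, ee_add]
  ring

theorem cfU_up (hT : TorusStmt) {F : G (k + 2) → ℂ} (hF : Continuous F) (hZ : UZInv F)
    (z : ℤ) {γ : GZ (k + 1)} (hγ : IsU (iz γ)) (g : G (k + 2)) :
    cfU (Pi.single (Fin.last k) z) F (up (iz γ) * g) = cfU (Pi.single (Fin.last k) z) F g := by
  rw [cfU, cfU, fc, fc, ← hT.glz (k + 1) _ (cont_H hF _ (up (iz γ) * g)) (per hZ _ _) γ]
  refine integral_congr_ae (Eventually.of_forall fun b => ?_)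
  simp only
  rw [← val_iz, zv_single_dot, zv_single_dot, mulVec_last hγ, ← mul_assoc, ← up_mul_nb, mul_assoc,
    ← iz_pb_zero, hZ _ (by rw [iz_pb_zero]; exact hγ.up)]

theorem eqv0 (hT : TorusStmt) : ∀ (k : ℕ) (m : Fin k → ℤ) (F : G (k + 1) → ℂ), Continuous F →
    UZInv F → ∀ u, IsU u → D.Wh k m (rt u F) = psi (zv m) u * D.Wh k m F
  | 0, m, F, _, _, u, hu => by
    rw [isU_one_dim hu, psi_zero, one_mul]
    simp [D.Wh, rt]
  | k + 1, m, F, hF, hZ, u, hu => by
    obtain ⟨u', b, hu', rfl⟩ := hu.exists_pb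
    have hc : Continuous fun h => cfU (Pi.single (Fin.last k) (m (Fin.last k))) F (up h) :=
      (cont_cfU _ hF).comp continuous_up
    have hz : UZInv fun h => cfU (Pi.single (Fin.last k) (m (Fin.last k))) F (up h) := by
      intro γ hγ g
      simp only
      rw [up_mul, cfU_up hT hF hZ _ hγ]
    rw [D.Wh, D.Wh, psi_pb, init_zv, mul_assoc, ← eqv0 hT k _ _ hc hz u' hu', ← smul0]
    refine congrU k _ _ _ fun x hx => ?_
    have h1 : cfU (Pi.single (Fin.last k) (m (Fin.last k))) (rt (pb u' b) F) (up x) =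
        cfU (Pi.single (Fin.last k) (m (Fin.last k))) F (nb (x.val *ᵥ b) * up (x * u')) := by
      simp only [cfU, rt]
      rw [up_mul, ← mul_assoc (nb _), ← up_mul_nb, mul_assoc (up x), nb_mul_up b u']
      simp only [mul_assoc]
    rw [h1, cfU_nb hT hF hZ, zv_single_dot, mulVec_last hx]
    rfl

theorem eqv (hT : TorusStmt) (k : ℕ) (m : Fin k → ℤ) (F : G (k + 1) → ℂ) (hF : Continuous F)
    (hZ : UZInv F) : Eqv (zv m) (Wf m F) := by
  intro u hu g
  rw [Wf, Wf, ← eqv0 hT k m _ (cont_rt hF g) (fun γ hγ x => by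
    simp only [rt]; rw [mul_assoc, hZ γ hγ]) u hu]
  congr 1
  ext x
  simp only [rt, mul_assoc]

theorem sinv (k : ℕ) (m : Fin k → ℤ) (F : G (k + 1) → ℂ) (hF : SInv F) : SInv (Wf m F) := by
  intro t ht g
  rw [Wf, Wf]
  congr 1
  ext x
  simp only [rt]
  rw [← mul_assoc, ← sc_comm ht, mul_assoc, hF t ht]

theorem sm (hC : CalcStmt) (k : ℕ) (m : Fin k → ℤ) (F : G (k + 1) → ℂ) (hF : Sm F) :
    Sm (Wf m F) ∧ ∀ A, Rd A (Wf m F) = Wf m (Rd A F) := by
  obtain ⟨K, hK, h⟩ := cpt (k + 1)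
  obtain ⟨h1, h2⟩ := hC.par (k + 1) (Y (k + 1)) (cY (k + 1)) (un (k + 1))
    (fun y => conj (psi (zv m) (un (k + 1) y))) K (measurable_un (k + 1))
    (integrable_un (cont_cpsi (zv m))) hK (by filter_upwards [h] with y hy _ using hy) F hF
  rw [funext (repr k m F (hC.cont _ _ hF))]
  refine ⟨h1, fun A => ?_⟩
  rw [h2 A, funext (repr k m _ (hC.cont _ _ (hC.rd _ A _ hF)))]

theorem cont_conv {f F : G k → ℂ} (hf : Continuous f) (hs : HasCompactSupport f)
    (hF : Continuous F) : Continuous (conv f F) :=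
  cont_int (u := id) measurable_id (hf.integrable_of_hasCompactSupport hs) hs
    (Eventually.of_forall fun _ hx => subset_tsupport f hx)
    (Φ := fun p => F (p.2 * p.1)) (hF.comp (continuous_snd.mul continuous_fst))

theorem conv_comm (k : ℕ) (m : Fin k → ℤ) (f F : G (k + 1) → ℂ) (hf : Continuous f)
    (hs : HasCompactSupport f) (hF : Continuous F) : Wf m (conv f F) = conv f (Wf m F) := by
  ext g
  obtain ⟨K, hK, h⟩ := cpt (k + 1)
  have hΦ : Continuous fun p : G (k + 1) × G (k + 1) => F (p.1 * g * p.2) :=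
    hF.comp ((continuous_fst.mul continuous_const).mul continuous_snd)
  obtain ⟨C, hC⟩ := (hK.prod hs).exists_bound_of_continuousOn hΦ.continuousOn
  have hχ := integrable_un (cont_cpsi (zv m))
  have hfi : Integrable f (mu (k + 1)) := hf.integrable_of_hasCompactSupport hs
  have hi : Integrable (fun p : Y (k + 1) × G (k + 1) =>
      conj (psi (zv m) (un (k + 1) p.1)) * f p.2 * F (un (k + 1) p.1 * g * p.2))
      ((cY (k + 1)).prod (mu (k + 1))) := by
    refine ((hχ.mul_prod hfi).norm.mul_const C).mono' ((hχ.mul_prod hfi).aestronglyMeasurable.mul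
      (hΦ.measurable.comp (((measurable_un _).comp measurable_fst).prodMk
        measurable_snd)).aestronglyMeasurable) ?_
    filter_upwards [(Measure.quasiMeasurePreserving_fst (μ := cY (k + 1))
      (ν := mu (k + 1))).ae h] with p hp
    by_cases h0 : f p.2 = 0
    · simp [h0]
    · rw [norm_mul]
      exact mul_le_mul_of_nonneg_left (hC (un (k + 1) p.1, p.2) ⟨hp, subset_tsupport f h0⟩)
        (norm_nonneg _)
  have h1 := integral_integral_swap (f := fun (y : Y (k + 1)) (x : G (k + 1)) =>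
      conj (psi (zv m) (un (k + 1) y)) * f x * F (un (k + 1) y * g * x)) hi
  rw [repr k m _ (cont_conv hf hs hF)]
  simp only [conv, repr k m F hF, ← integral_const_mul]
  simp only [mul_assoc] at h1 ⊢
  rw [h1]
  simp only [mul_left_comm]

theorem ldU (k : ℕ) (m : Fin k → ℝ) (W : G (k + 1) → ℂ) (hW : Eqv m W) (i j : Fin (k + 1))
    (hij : i < j) (g : G (k + 1)) : Ld (em i j) W g =
      (∑ l : Fin k, if i = l.castSucc ∧ j = l.succ then 2 * π * Complex.I * m l else 0) * W g := by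
  set s : ℝ := ∑ l : Fin k, if i = l.castSucc ∧ j = l.succ then m l else 0 with hs
  have hv : ∀ t : ℝ, (mkG (1 + t • em i j)).val = 1 + t • em i j := fun t => by
    refine val_mkG ?_
    have := Matrix.det_transvection_of_ne i j hij.ne t
    rw [Matrix.transvection] at this
    rw [em, Matrix.smul_single, smul_eq_mul, mul_one, this]
    exact one_ne_zero
  have hU : ∀ t : ℝ, IsU (mkG (1 + t • em i j)) := fun t a b hab => by
    have : ¬ (i = a ∧ j = b) := by
      rintro ⟨rfl, rfl⟩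
      exact absurd hij (not_lt.2 hab)
    rw [hv]
    simp [em, Matrix.one_apply, this]
  have hp : ∀ t : ℝ, psi m (mkG (1 + t • em i j)) = Complex.exp (2 * π * Complex.I * s * t) := by
    intro t
    have : ∑ l : Fin k, m l * (mkG (1 + t • em i j)).val l.castSucc l.succ = s * t := by
      rw [hs, Finset.sum_mul]
      refine Finset.sum_congr rfl fun l _ => ?_
      rw [hv]
      simp [em, Matrix.single_apply, (Fin.castSucc_lt_succ (i := l)).ne]
    rw [psi, this, ee]
    push_cast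
    ring_nf
  have hd : HasDerivAt (fun t : ℝ => Complex.exp (2 * π * Complex.I * s * t) * W g)
      (Complex.exp (2 * π * Complex.I * s * (0 : ℝ)) * (2 * π * Complex.I * s * 1) * W g) 0 :=
    ((Complex.ofRealCLM.hasDerivAt (x := 0)).const_mul _).cexp.mul_const _
  have he : (fun t : ℝ => W (mkG (1 + t • em i j) * g)) =
      fun t : ℝ => Complex.exp (2 * π * Complex.I * s * t) * W g := by
    ext t
    rw [hW _ (hU t), hp]
  rw [Ld, he, hd.deriv, hs]
  congr 1
  simp [Finset.mul_sum, apply_ite]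

end Wh

theorem wh (hT : TorusStmt) (hC : CalcStmt) : WhStmt :=
  ⟨Wh.repr, Wh.cpt, Wh.cont, Wh.add, Wh.smul, Wh.psi_mul, Wh.psi_pb, Wh.eqv hT, Wh.sinv, Wh.sm hC,
    Wh.conv_comm, Wh.ldU⟩

end Pool.Agent.Lib.MP_fa98d2_nt.D
end
end

-- part Pool.Agent.Lib.MP_fa98d2_nt.D.Par
section

/-! Stagewise Bessel inequality and mirabolic Parseval identity. -/

open MeasureTheory Filter Topology Matrix Set
open scoped ENNReal Real

noncomputable section

namespace Pool.Agent.Lib.MP_fa98d2_nt.D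

namespace Par

variable {k : ℕ}

/-! ### Integrals over the cube -/

lemma cub_ae : ∀ᵐ b ∂cub k, b ∈ Icc (0 : Fin k → ℝ) 1 := by
  refine (ae_restrict_mem (MeasurableSet.univ_pi fun _ => measurableSet_Ico)).mono ?_
  intro b hb
  exact ⟨fun i => (hb i trivial).1, fun i => (hb i trivial).2.le⟩

lemma int_cpt {Z T : Type} [MeasurableSpace Z] [TopologicalSpace T] [MeasurableSpace T]
    [OpensMeasurableSpace T] {ν : Measure Z} [IsFiniteMeasure ν] {u : Z → T} (hu : Measurable u)
    {K : Set T} (hK : IsCompact K) (h : ∀ᵐ z ∂ν, u z ∈ K) {Φ : T → ℂ} (hΦ : Continuous Φ) :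
    Integrable (fun z => Φ (u z)) ν := by
  obtain ⟨C, hC⟩ := hK.exists_bound_of_continuousOn hΦ.continuousOn
  exact Integrable.of_bound (hΦ.measurable.comp hu).aestronglyMeasurable C
    (h.mono fun z hz => hC _ hz)

lemma cont_int {T : Type} [TopologicalSpace T] [FirstCountableTopology T] [LocallyCompactSpace T]
    {f : T → (Fin k → ℝ) → ℂ} (hf : Continuous f.uncurry) :
    Continuous fun x => ∫ b, f x b ∂cub k := by
  have := continuous_parametric_integral_of_continuous (μ := cub k) hf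
    (isCompact_Icc (a := (0 : Fin k → ℝ)) (b := 1))
  rwa [Measure.restrict_eq_self_of_ae_mem cub_ae] at this

lemma cont_ch (ξ : Fin k → ℝ) : Continuous fun b : Fin k → ℝ => ee (-(ξ ⬝ᵥ b)) :=
  continuous_ee.comp (continuous_const.dotProduct continuous_id).neg

lemma ch_per (ξ z : Fin k → ℤ) (b : Fin k → ℝ) :
    ee (-(zv ξ ⬝ᵥ (zv z + b))) = ee (-(zv ξ ⬝ᵥ b)) := by
  have : zv ξ ⬝ᵥ zv z = ((ξ ⬝ᵥ z : ℤ) : ℝ) := by simp [zv, dotProduct]
  rw [dotProduct_add, neg_add, ee_add, this, ← Int.cast_neg, ee_int, one_mul]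

/-! ### The Fourier coefficients along the last column -/

section cf
variable {F : G (k + 1) → ℂ}

lemma cont_cf (hF : Continuous F) (ξ : Fin k → ℤ) : Continuous (cfU ξ F) :=
  cont_int (f := fun g b => F (nb b * g) * ee (-(zv ξ ⬝ᵥ b)))
    ((hF.comp ((continuous_nb.comp continuous_snd).mul continuous_fst)).mul
      ((cont_ch _).comp continuous_snd))

lemma inv_nb {β : Type} {F : G (k + 1) → β} (hP : PInv F) (z : Fin k → ℤ) (g : G (k + 1)) :
    F (nb (zv z) * g) = F g := by rw [← iz_pb_one, hP]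

lemma inv_up {β : Type} {F : G (k + 1) → β} (hP : PInv F) (γ : GZ k) (g : G (k + 1)) :
    F (up (iz γ) * g) = F g := by rw [← iz_pb_zero, hP]

lemma hc (hF : Continuous F) (ξ : Fin k → ℤ) (g : G (k + 1)) :
    Continuous fun b => F (nb b * g) * ee (-(zv ξ ⬝ᵥ b)) :=
  (hF.comp (continuous_nb.mul continuous_const)).mul (cont_ch _)

lemma hper (hP : PInv F) (ξ : Fin k → ℤ) (g : G (k + 1)) :
    Per fun b => F (nb b * g) * ee (-(zv ξ ⬝ᵥ b)) := fun z b => by
  simp only [ch_per, nb_add, mul_assoc, inv_nb hP]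

lemma cf_up (hT : TorusStmt) (hF : Continuous F) (hP : PInv F) (ξ : Fin k → ℤ) (γ : GZ k)
    (g : G (k + 1)) : cfU ξ F (up (iz γ) * g) = cfU (ξ ᵥ* γ.val) F g := by
  have := hT.glz k _ (hc hF ξ (up (iz γ) * g)) (hper hP ξ _) γ
  rw [cfU, fc, ← this, cfU, fc]
  refine integral_congr_ae (Eventually.of_forall fun b => ?_)
  simp only
  rw [← val_iz, ← mul_assoc, ← up_mul_nb, mul_assoc, inv_up hP, dotProduct_mulVec, zv_vecMul]

lemma parseval (hT : TorusStmt) (hF : Continuous F) (g : G (k + 1)) :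
    ∑' ξ : Fin k → ℤ, ‖cfU ξ F g‖ₑ ^ 2 = ∫⁻ b, ‖F (nb b * g)‖ₑ ^ 2 ∂cub k :=
  hT.parseval k _ (hF.comp (continuous_nb.mul continuous_const))

lemma meas_nb (hF : Continuous F) (g : G (k + 1)) : Measurable fun b => ‖F (nb b * g)‖ₑ ^ 2 :=
  (hF.comp (continuous_nb.mul continuous_const)).measurable.enorm.pow_const 2

end cf

/-- the coefficient function one level down -/
def Fs (c : ℤ) (F : G (k + 2) → ℂ) (s : G (k + 2)) (x : G (k + 1)) : ℂ :=
  cfU (Pi.single (Fin.last k) c) F (up x * s)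

/-- the weight one level down -/
def os (om : G (k + 1) → ℝ≥0∞) (s : G (k + 1)) (x : G k) : ℝ≥0∞ :=
  ENNReal.ofReal (dt x)⁻¹ * om (up x * s)

section step
variable {F : G (k + 2) → ℂ} {c : ℤ} {s : G (k + 2)}

lemma cont_Fs (hF : Continuous F) : Continuous (Fs c F s) :=
  (cont_cf hF _).comp (continuous_up.mul continuous_const)

lemma Fs_iz (hT : TorusStmt) (hF : Continuous F) (hP : PInv F) (γ : GZ (k + 1)) (x : G (k + 1)) :
    Fs c F s (iz γ * x) = cfU (c • γ.val (Fin.last k)) F (up x * s) := by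
  rw [Fs, up_mul, mul_assoc, cf_up hT hF hP]
  congr 1
  ext j
  simp [Matrix.vecMul, dotProduct, Pi.single_apply]

lemma pinv_Fs (hT : TorusStmt) (hF : Continuous F) (hP : PInv F) : PInv (Fs c F s) := by
  intro h z x
  rw [Fs_iz hT hF hP, val_pb, blk_last, Fs]
  congr 1
  ext j
  simp [Pi.single_apply]

end step

lemma meas_os {om : G (k + 1) → ℝ≥0∞} (h : Measurable om) (s : G (k + 1)) : Measurable (os om s) :=
  measurable_dt.inv.ennreal_ofReal.mul
    (h.comp (continuous_up.mul continuous_const).measurable)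

lemma meas_sq {F : G k → ℂ} (hF : Continuous F) : Measurable fun g => ‖F g‖ₑ ^ 2 :=
  hF.measurable.enorm.pow_const 2

lemma meas_ms {om : G k → ℝ≥0∞} {F : G k → ℂ} (ho : Measurable om) (hF : Continuous F) :
    Measurable fun g => om g * ‖F g‖ₑ ^ 2 := ho.mul (meas_sq hF)

/-! ### Level zero -/

lemma mu_zero : mu 0 univ = 1 := by
  have := lintegral_mu (k := 0) (fun _ => 1) measurable_const
  rw [lintegral_const, one_mul] at this
  have e : range (co (k := 0)) = univ := by
    rw [range_co]; ext x; simp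
  rw [this, e]
  simp [dens, volume_pi]

lemma QI_zero (hQ : QuotStmt) (F : G 0 → ℝ≥0∞) : QI 0 F = F 1 := by
  have w : ∀ g : G 0, wt g * F g = F 1 := fun g => by
    have := hQ.sum 0 g
    rw [tsum_eq_single 1 (fun b hb => absurd (Subsingleton.elim _ _) hb), map_one, one_mul] at this
    rw [this, one_mul, Subsingleton.elim g 1]
  simp [QI, w, mu_zero]

lemma PI_zero (hQ : QuotStmt) {H : G 1 → ℝ≥0∞} (hH : Measurable H) : PI 0 H = II 1 H := by
  rw [II_succ hH, PI]
  refine lintegral_congr fun r => ?_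
  rw [QI_zero hQ, II_zero]
  have : ∀ b : Fin 0 → ℝ, H (nb b * up 1 * sr r) = H (up 1 * sr r) := fun b => by
    rw [Subsingleton.elim b 0, nb_zero, one_mul]
  simp only [this]
  simp

/-! ### Saturation -/

section sat
variable {om : G (k + 1) → ℝ≥0∞}

lemma meas_sat (h : Measurable om) : Measurable (sat om) :=
  Measurable.iSup fun _ => Measurable.iSup fun _ => h.comp (measurable_const_mul _)

lemma le_sat (h : GZ k) (z : Fin k → ℤ) (g : G (k + 1)) : om (iz (pb h z) * g) ≤ sat om g :=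
  le_iSup₂ (f := fun (h : GZ k) (z : Fin k → ℤ) => om (iz (pb h z) * g)) h z

lemma sat_le (h : GZ k) (z : Fin k → ℤ) (g : G (k + 1)) : sat om (iz (pb h z) * g) ≤ sat om g :=
  iSup₂_le fun h' z' => by
    rw [← mul_assoc, ← map_mul, pb_mul]; exact le_sat _ _ _

lemma pinv_sat : PInv (sat om) := fun h z g => by
  refine le_antisymm (sat_le _ _ _) ?_
  have := sat_le (om := om) h⁻¹ (-((h⁻¹).val *ᵥ z)) (iz (pb h z) * g)
  rwa [← pb_inv, ← mul_assoc, ← map_mul, inv_mul_cancel, map_one, one_mul] at this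

lemma sat_nb (hU : UInv om) (b : Fin k → ℝ) (g : G (k + 1)) : sat om (nb b * g) = sat om g := by
  refine iSup_congr fun h => iSup_congr fun z => ?_
  have : iz (pb h z) * nb b = nb ((iz h).val *ᵥ b) * iz (pb h z) := by
    simp [iz_pb, nb, pb_mul, add_comm]
  rw [← mul_assoc, this, mul_assoc, hU _ (isU_nb _)]

end sat

lemma sat_os {om : G (k + 2) → ℝ≥0∞} (s : G (k + 2)) (γ : GZ (k + 1)) (x : G (k + 1)) :
    sat (os om s) (iz γ * x) ≤ ENNReal.ofReal (dt x)⁻¹ * sat om (up x * s) :=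
  iSup₂_le fun h z => by
    rw [← mul_assoc, ← map_mul, os, dt_mul, dt_iz, one_mul, up_mul, mul_assoc, ← iz_pb_zero]
    exact mul_le_mul_right (le_sat _ _ _) _

/-! ### The Bessel inequality -/

theorem bes (hT : TorusStmt) (hQ : QuotStmt) (hW : WhStmt) :
    ∀ (k : ℕ) (m : Fin k → ℤ), (∀ i, m i ≠ 0) → ∀ (F : G (k + 1) → ℂ), Continuous F → PInv F →
    ∀ om : G (k + 1) → ℝ≥0∞, Measurable om → UInv om →
    II (k + 1) (fun g => om g * ‖Wf m F g‖ₑ ^ 2) ≤ PI k fun g => sat om g * ‖F g‖ₑ ^ 2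
  | 0, m, _, F, hF, _, om, ho, _ => by
    rw [PI_zero hQ (meas_ms (meas_sat ho) hF), Wf_zero]
    refine lintegral_mono fun x => mul_le_mul_left ?_ _
    have := le_sat (om := om) 1 0 (sg 1 x)
    rwa [pb_one, map_one, one_mul] at this
  | k + 1, m, hm, F, hF, hP, om, ho, hU => by
    rw [II_succ (meas_ms ho (hW.cont _ m F hF)), PI]
    refine lintegral_mono fun r => ?_
    have hF' : Continuous (Fs (m (Fin.last k)) F (sr r)) := cont_Fs hF
    have hP' : PInv (Fs (m (Fin.last k)) F (sr r)) := pinv_Fs hT hF hP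
    have ih := bes hT hQ hW k (Fin.init m) (fun i => hm _) _ hF' hP' (os om (sr r))
      (meas_os ho _) fun u hu g => by
        rw [os, os, dt_mul, hu.dt, one_mul, up_mul, mul_assoc, hU _ hu.up]
    simp only [Wf_succ, ← mul_assoc]
    refine ih.trans ?_
    rw [← hQ.unf k _ (meas_ms (meas_sat (meas_os ho _)) hF')
      (fun h z g => by simp only [pinv_sat h z g, hP' h z g])]
    refine lintegral_mono fun x => mul_le_mul_right ?_ _
    simp only [mul_assoc, sat_nb hU]
    rw [lintegral_const_mul _ (meas_nb hF _), ← parseval hT hF, ← mul_assoc]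
    refine (ENNReal.tsum_le_tsum fun ξ => mul_le_mul_left (sat_os _ _ _) _).trans ?_
    rw [ENNReal.tsum_mul_left]
    refine mul_le_mul_right ?_ _
    simp only [Fs_iz hT hF hP, pz_row]
    exact ENNReal.tsum_comp_le_tsum_of_injective (f := fun ξ : Prim k => m (Fin.last k) • ξ.1)
      (fun a b e => Subtype.ext (smul_right_injective _ (hm _) e))
      fun ξ => ‖cfU ξ F (up x * sr r)‖ₑ ^ 2

/-! ### Cuspidality one level down -/

/-- the coordinates below `j` -/
def top (j : ℕ) {R : Type} [Zero R] (t : Fin k → R) : Fin k → R :=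
  fun i => if i.val < j then t i else 0

lemma cont_top (j : ℕ) : Continuous (top j : (Fin k → ℝ) → Fin k → ℝ) :=
  continuous_pi fun i => by
    unfold top
    split_ifs
    exacts [continuous_apply i, continuous_const]

lemma top_add (j : ℕ) (t w : Fin k → ℝ) : top j (t + w) = top j t + top j w := by
  ext i; simp only [top, Pi.add_apply]; split_ifs <;> simp

lemma top_zv (j : ℕ) (z : Fin k → ℤ) : top j (zv z) = zv (top j z) := by
  ext i; simp only [top, zv]; split_ifs <;> simp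

lemma cb_succ {j : ℕ} (h : j ≤ k) (y : Y (k + 1)) :
    cb j (k + 1) y = nb (top j y.2) * up (cb j k y.1) := by
  simp only [cb, h, and_true]; rfl

lemma cb_one (j : ℕ) : ∀ k, k ≤ j → ∀ y, cb j k y = 1
  | 0, _, _ => rfl
  | k + 1, h, y => by
    have : ¬ j ≤ k := by omega
    simp only [cb, this, and_false, if_false, cb_one j k (by omega), up_one, mul_one]
    exact nb_zero

lemma cb_row (j : ℕ) : ∀ k (y : Y k) (b : Fin k → ℝ) (i : Fin k), j ≤ i.val →
    ((cb j k y).val *ᵥ b) i = b i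
  | 0, _, _, i, _ => i.elim0
  | k + 1, y, b, i, h => by
    rw [cb, nb_mul_up, val_pb]
    revert h
    refine Fin.lastCases (fun _ => ?_) (fun i h => ?_) i
    · simp [Matrix.mulVec, dotProduct, Fin.sum_univ_castSucc]
    · have := cb_row j k y.1 (fun i => b i.castSucc) i h
      have h' : ¬ i.val < j := not_lt.2 h
      simpa [Matrix.mulVec, dotProduct, Fin.sum_univ_castSucc, h'] using this

lemma cont_cbs (j k : ℕ) : Continuous fun p : G k × (Fin k → ℝ) =>
    nb (fun i => if i.val < j ∧ j ≤ k then p.2 i else 0) * up p.1 :=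
  (continuous_nb.comp (continuous_pi fun i => by
    split_ifs
    exacts [(continuous_apply i).comp continuous_snd, continuous_const])).mul
    (continuous_up.comp continuous_fst)

lemma meas_cb (j : ℕ) : ∀ k, Measurable (cb j k)
  | 0 => measurable_const
  | k + 1 => by
    have h : Measurable fun y : Y k × (Fin k → ℝ) => (cb j k y.1, y.2) :=
      ((meas_cb j k).comp measurable_fst).prodMk measurable_snd
    have := (cont_cbs j k).measurable.comp h
    exact this

lemma cb_cpt (j : ℕ) : ∀ k, ∃ K : Set (G k), IsCompact K ∧ ∀ᵐ y ∂cY k, cb j k y ∈ K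
  | 0 => ⟨{1}, isCompact_singleton, Eventually.of_forall fun _ => rfl⟩
  | k + 1 => by
    obtain ⟨K, hK, h⟩ := cb_cpt j k
    refine ⟨_, (hK.prod (isCompact_Icc (a := 0) (b := 1))).image (cont_cbs j k), ?_⟩
    filter_upwards [(Measure.quasiMeasurePreserving_fst (μ := cY k) (ν := cub k)).ae h,
      (Measure.quasiMeasurePreserving_snd (μ := cY k) (ν := cub k)).ae cub_ae] with y h1 h2
    exact ⟨(cb j k y.1, y.2), ⟨h1, h2⟩, rfl⟩

lemma int_cb (j : ℕ) {l : ℕ} {Φ : G k × (Fin l → ℝ) → ℂ} (hΦ : Continuous Φ) :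
    Integrable (fun p : Y k × (Fin l → ℝ) => Φ (cb j k p.1, p.2)) ((cY k).prod (cub l)) := by
  obtain ⟨K, hK, h⟩ := cb_cpt j k
  refine int_cpt (((meas_cb j k).comp measurable_fst).prodMk measurable_snd)
    (hK.prod (isCompact_Icc (a := 0) (b := 1))) ?_ hΦ
  filter_upwards [(Measure.quasiMeasurePreserving_fst (μ := cY k) (ν := cub l)).ae h,
    (Measure.quasiMeasurePreserving_snd (μ := cY k) (ν := cub l)).ae cub_ae] with y h1 h2
  exact ⟨h1, h2⟩

lemma avg (hT : TorusStmt) (j : ℕ) {H : (Fin k → ℝ) → ℂ} (hc : Continuous H) (hp : Per H)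
    {w : (Fin k → ℝ) → Fin k → ℝ} (hw : ∀ b, top j (w b) = w b) :
    ∫ b, H b ∂cub k = ∫ b, ∫ t, H (b + w b + top j t) ∂cub k ∂cub k := by
  have c2 : Continuous fun p : (Fin k → ℝ) × (Fin k → ℝ) => H (p.2 + top j p.1) :=
    hc.comp (continuous_snd.add ((cont_top j).comp continuous_fst))
  have i2 : Integrable (fun p : (Fin k → ℝ) × (Fin k → ℝ) => H (p.2 + top j p.1))
      ((cub k).prod (cub k)) := by
    refine int_cpt measurable_id ((isCompact_Icc (a := 0) (b := 1)).prod
      (isCompact_Icc (a := 0) (b := 1))) ?_ c2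
    filter_upwards [(Measure.quasiMeasurePreserving_fst (μ := cub k) (ν := cub k)).ae cub_ae,
      (Measure.quasiMeasurePreserving_snd (μ := cub k) (ν := cub k)).ae cub_ae] with y h1 h2
    exact ⟨h1, h2⟩
  calc ∫ b, H b ∂cub k = ∫ t, ∫ b, H (b + top j t) ∂cub k ∂cub k := by
        simp [hT.shift k H hc hp]
    _ = ∫ b, ∫ t, H (b + top j t) ∂cub k ∂cub k := integral_integral_swap i2
    _ = _ := by
        refine integral_congr_ae (Eventually.of_forall fun b => ?_)
        have := hT.shift k (fun t => H (b + top j t)) (hc.comp (continuous_const.add (cont_top j)))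
          (fun z t => by simp only [top_add, top_zv]; rw [add_left_comm, hp]) (w b)
        simp only [top_add, hw] at this
        simp only [← this, add_assoc, add_comm (w b)]

lemma cf_zero {F : G (k + 2) → ℂ} (hC : Cusp F) (g : G (k + 2)) : cfU 0 F g = 0 := by
  have := hC (k + 1) (by omega) (by omega) g
  have e : ∀ y : Y (k + 2), cb (k + 1) (k + 2) y = nb y.2 := fun y => by
    rw [cb_succ le_rfl, cb_one _ _ le_rfl, up_one, mul_one]
    congr 1
    ext i
    simp [top, i.2]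
  simp only [e] at this
  have h2 : ∫ y : Y (k + 1) × (Fin (k + 1) → ℝ), F (nb y.2 * g)
      ∂(cY (k + 1)).prod (cub (k + 1)) = 0 := this
  rw [integral_fun_snd (fun b => F (nb b * g))] at h2
  have z0 : zv (0 : Fin (k + 1) → ℤ) = 0 := by ext i; simp [zv]
  simpa [cfU, fc, z0] using h2

lemma cusp_Fs (hT : TorusStmt) {F : G (k + 2) → ℂ} (hF : Continuous F) (hP : PInv F) (hC : Cusp F)
    (c : ℤ) (s : G (k + 2)) : Cusp (Fs c F s) := by
  intro j h0 hj x
  set η : Fin (k + 1) → ℤ := Pi.single (Fin.last k) c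
  set g := up x * s
  have hη : ∀ v v' : Fin (k + 1) → ℝ, v (Fin.last k) = v' (Fin.last k) →
      zv η ⬝ᵥ v = zv η ⬝ᵥ v' := fun v v' e => by
    simp [η, zv, dotProduct, Pi.single_apply, e]
  have c3 : Continuous fun q : (G (k + 1) × (Fin (k + 1) → ℝ)) × (Fin (k + 1) → ℝ) =>
      F (nb (top j q.2) * up q.1.1 * (nb q.1.2 * g)) :=
    hF.comp (((continuous_nb.comp ((cont_top j).comp continuous_snd)).mul
      (continuous_up.comp continuous_fst.fst)).mul
      ((continuous_nb.comp continuous_fst.snd).mul continuous_const))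
  have e : ∀ y : Y (k + 1), Fs c F s (cb j (k + 1) y * x) = ∫ b, ee (-(zv η ⬝ᵥ b)) *
      ∫ t, F (nb (top j t) * up (cb j (k + 1) y) * (nb b * g)) ∂cub (k + 1) ∂cub (k + 1) := by
    intro y
    rw [Fs, up_mul, mul_assoc, cfU, fc, avg hT j (hc hF η _) (hper hP η _)
      (w := fun b => (cb j (k + 1) y).val *ᵥ b - b) fun b => ?_]
    · refine integral_congr_ae (Eventually.of_forall fun b => ?_)
      simp only
      rw [← integral_const_mul]
      refine integral_congr_ae (Eventually.of_forall fun t => ?_)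
      simp only
      rw [add_sub_cancel, mul_comm, hη _ b, add_comm _ (top j t), nb_add, mul_assoc (nb _),
        ← mul_assoc (nb (_ *ᵥ _)), ← up_mul_nb]
      · simp only [mul_assoc, g]
      · have : ¬ k < j := by omega
        simp [cb_row j _ y b (Fin.last k) (by simp; omega), top, this]
    · ext i
      simp only [top, Pi.sub_apply]
      split_ifs with h
      · rfl
      · rw [cb_row j _ y b i (not_lt.1 h), sub_self]
  simp only [e]
  rw [integral_integral_swap (int_cb j (Φ := fun p => ee (-(zv η ⬝ᵥ p.2)) *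
    ∫ t, F (nb (top j t) * up p.1 * (nb p.2 * g)) ∂cub (k + 1))
    (((cont_ch _).comp continuous_snd).mul (cont_int c3)))]
  refine (integral_congr_ae (Eventually.of_forall fun b => ?_)).trans (integral_zero _ _)
  rw [integral_const_mul, integral_integral (int_cb j
    (Φ := fun p => F (nb (top j p.2) * up p.1 * (nb b * g))) (hF.comp
      (((continuous_nb.comp ((cont_top j).comp continuous_snd)).mul
        (continuous_up.comp continuous_fst)).mul continuous_const)))]
  have := hC j h0 (by omega) (nb b * g)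
  simp only [cb_succ (show j ≤ k + 1 by omega)] at this
  exact mul_eq_zero_of_right _ this

/-! ### The Parseval identity -/

lemma sum_cf (hT : TorusStmt) (hR : PrimStmt) {F : G (k + 2) → ℂ} (hF : Continuous F)
    (hC : Cusp F) (g : G (k + 2)) : ∫⁻ b, ‖F (nb b * g)‖ₑ ^ 2 ∂cub (k + 1) =
      ∑' c : ℕ+, ∑' ξ : Prim k, ‖cfU (((c : ℕ) : ℤ) • ξ.1) F g‖ₑ ^ 2 := by
  rw [← parseval hT hF, ← hR k fun ξ => ‖cfU ξ F g‖ₑ ^ 2]
  refine (tsum_subtype_eq_of_support_subset (s := {ξ | ξ ≠ 0})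
    (f := fun ξ => ‖cfU ξ F g‖ₑ ^ 2) fun ξ h e => h ?_).symm
  simp [e, cf_zero hC]

lemma tsum_snoc (f : (Fin (k + 1) → ℕ+) → ℝ≥0∞) :
    ∑' m, f m = ∑' c : ℕ+, ∑' m : Fin k → ℕ+, f (Fin.snoc m c) := by
  rw [← (Fin.snocEquiv fun _ => ℕ+).tsum_eq, ENNReal.tsum_prod']
  rfl

theorem parE (hT : TorusStmt) (hR : PrimStmt) (hQ : QuotStmt) (hW : WhStmt) :
    ∀ (k : ℕ) (F : G (k + 1) → ℂ), Continuous F → PInv F → Cusp F →
    ∀ om : G (k + 1) → ℝ≥0∞, Measurable om →
    (∀ (h : G k) (b : Fin k → ℝ), dt h = 1 → ∀ g, om (pb h b * g) = om g) →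
    PI k (fun g => om g * ‖F g‖ₑ ^ 2) =
      ∑' m : Fin k → ℕ+, II (k + 1) fun g => om g * ‖Wf (zm m) F g‖ₑ ^ 2
  | 0, F, hF, _, _, om, ho, _ => by
    rw [PI_zero hQ (meas_ms ho hF), tsum_eq_single default
      (fun b hb => absurd (Subsingleton.elim _ _) hb), Wf_zero]
  | k + 1, F, hF, hP, hC, om, ho, hU => by
    have hm := fun m : Fin (k + 1) → ℕ+ => meas_ms ho (hW.cont _ (zm m) F hF)
    have mr : ∀ m : Fin (k + 1) → ℕ+, Measurable fun r => II (k + 1) fun h =>
        ENNReal.ofReal (dt h)⁻¹ * (om (up h * sr r) * ‖Wf (zm m) F (up h * sr r)‖ₑ ^ 2) :=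
      fun m => Measurable.lintegral_prod_left' (μ := mX (k + 1))
        (f := fun p : X (k + 1) × (Fin (k + 2) → ℝ) => ENNReal.ofReal (dt (sg (k + 1) p.1))⁻¹ *
          (om (up (sg (k + 1) p.1) * sr p.2) * ‖Wf (zm m) F (up (sg (k + 1) p.1) * sr p.2)‖ₑ ^ 2))
        (((measurable_dt.comp (measurable_sg _)).inv.ennreal_ofReal.comp measurable_fst).mul
          ((hm m).comp (measurable_sg (k + 2))))
    simp only [fun m => II_succ (hm m)]
    rw [← lintegral_tsum fun m => (mr m).aemeasurable, PI]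
    refine lintegral_congr fun r => ?_
    have hF' : ∀ c, Continuous (Fs c F (sr r)) := fun c => cont_Fs hF
    have hP' : ∀ c, PInv (Fs c F (sr r)) := fun c => pinv_Fs hT hF hP
    have hU' : ∀ a : G (k + 1), dt a = 1 → ∀ g, os om (sr r) (a * g) = os om (sr r) g :=
      fun a ha g => by rw [os, os, dt_mul, ha, one_mul, up_mul, mul_assoc, up, hU _ _ ha]
    have ih := fun c => parE hT hR hQ hW k _ (hF' c) (hP' c) (cusp_Fs hT hF hP hC c _)
      (os om (sr r)) (meas_os ho _) fun h b e => hU' _ (by rw [dt_pb, e])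
    have un := fun c => hQ.unf k _ (meas_ms (meas_os ho (sr r)) (hF' c))
      fun h z g => by simp only [hU' _ (dt_iz _), hP' c h z g]
    have e1 : ∀ (c : ℕ+) (m : Fin k → ℕ+), Fin.init (zm (Fin.snoc m c)) = zm m := fun c m => by
      ext i; simp [zm, Fin.init]
    have e2 : ∀ (c : ℕ+) (m : Fin k → ℕ+), zm (Fin.snoc m c) (Fin.last k) = ((c : ℕ) : ℤ) :=
      fun c m => by simp [zm]
    rw [tsum_snoc]
    simp only [Wf_succ, e1, e2, ← mul_assoc]
    refine Eq.trans ?_ (tsum_congr fun c : ℕ+ => (un ((c : ℕ) : ℤ)).trans (ih _))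
    simp only [QI]
    refine Eq.trans (lintegral_congr fun x => ?_) (lintegral_tsum fun c =>
      ((hQ.meas _).mul (Measurable.tsum fun ξ => (meas_ms (meas_os ho (sr r)) (hF' _)).comp
        (measurable_const_mul _))).aemeasurable)
    have e3 : ∀ b g, om (nb b * g) = om g := fun b => hU 1 b dt_one
    simp only [mul_assoc (nb _), e3, hU' _ (dt_iz _), Fs_iz hT hF hP, pz_row, ENNReal.tsum_mul_left]
    rw [lintegral_const_mul _ (meas_nb hF _), sum_cf hT hR hF hC, os, mul_assoc]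

end Par

theorem par (hT : TorusStmt) (hP : PrimStmt) (hQ : QuotStmt) (hW : WhStmt) : ParStmt :=
  ⟨Par.bes hT hQ hW, Par.parE hT hP hQ hW⟩

end Pool.Agent.Lib.MP_fa98d2_nt.D
end
end
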