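import Pool.Agent.Lib.MP_fa98d2_nt.D.Stmts1

/-! Schur functions: Pieri rule, uniqueness and bounds. -/

open Finset Matrix

noncomputable section

namespace Pool.Agent.Lib.MP_fa98d2_nt.D

namespace Schur

/-- `u a κ j` is the complete symmetric function of degree `κ - j` in `a 0, ..., a j`. -/
def u (a : ℕ → ℂ) : ℕ → ℕ → ℂ
  | 0, 0 => 1
  | 0, _ + 1 => 0
  | k + 1, 0 => a 0 * u a k 0
  | k + 1, j + 1 => u a k j + a (j + 1) * u a k (j + 1)

variable (a : ℕ → ℂ)

theorem u_lt : ∀ k j, k < j → u a k j = 0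
  | 0, 0, h => absurd h (by omega)
  | 0, _ + 1, _ => rfl
  | k + 1, 0, h => absurd h (by omega)
  | k + 1, j + 1, h => by rw [u, u_lt k j (by omega), u_lt k (j + 1) (by omega)]; simp

theorem u_self : ∀ k, u a k k = 1
  | 0 => rfl
  | k + 1 => by rw [u, u_self k, u_lt a k (k + 1) (by omega)]; simp

theorem u_bd {B : ℝ} (hB : 0 ≤ B) (h : ∀ m, ‖a m‖ ≤ B) :
    ∀ k j, ‖u a k j‖ * B ^ j ≤ k.choose j * B ^ k
  | 0, 0 => by simp [u]
  | 0, _ + 1 => by simp [u]
  | k + 1, 0 => by
    have := u_bd hB h k 0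
    simp only [u, pow_zero, mul_one, Nat.choose_zero_right, Nat.cast_one, one_mul, norm_mul,
      pow_succ'] at this ⊢
    exact mul_le_mul (h 0) this (norm_nonneg _) hB
  | k + 1, j + 1 => by
    have h1 := u_bd hB h k j
    have h2 := u_bd hB h k (j + 1)
    have h3 : ‖u a (k + 1) (j + 1)‖ ≤ ‖u a k j‖ + B * ‖u a k (j + 1)‖ := by
      rw [u]
      refine (norm_add_le _ _).trans ?_
      rw [norm_mul]
      gcongr
      exact h _
    have h4 := mul_le_mul_of_nonneg_right h3 (pow_nonneg hB (j + 1))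
    have h5 := mul_le_mul_of_nonneg_left h1 hB
    have h6 := mul_le_mul_of_nonneg_left h2 hB
    rw [Nat.choose_succ_succ', Nat.cast_add]
    simp only [pow_succ] at h4 h5 h6 ⊢
    linarith

variable {N : ℕ}

/-- the row attached to `κ` -/
def row (N : ℕ) (k : ℕ) (j : Fin (N + 1)) : ℂ := u a k j.rev

/-- the Schur function -/
def S (l : Fin (N + 1) → ℕ) : ℂ := (Matrix.of fun i => row a N (l i + i.rev)).det

def C (N : ℕ) : Matrix (Fin (N + 1)) (Fin (N + 1)) ℂ := Matrix.of fun m j =>
  (if m = j then a j.rev else 0) + if m.val = j.val + 1 then 1 else 0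

theorem row_C (k : ℕ) (j : Fin (N + 1)) : ∑ m, row a N k m * C a N m j = row a N (k + 1) j := by
  simp only [C, Matrix.of_apply, mul_add, sum_add_distrib, mul_ite, mul_zero, sum_ite_eq',
    mem_univ, if_true, mul_one]
  refine Fin.lastCases ?_ (fun j => ?_) j
  · rw [sum_eq_zero fun m _ => if_neg (by have := m.2; simp; omega)]
    simp [row, u, mul_comm]
  · rw [sum_eq_single j.succ (fun m _ hm => if_neg fun h => hm (Fin.ext (by simpa using h)))
      (by simp), if_pos (by simp)]
    simp only [row, Fin.rev_castSucc, Fin.rev_succ, Fin.val_succ, Fin.val_castSucc, u]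
    ring

theorem det_C (t : ℂ) : (1 + t • C a N).det = ∏ j : Fin (N + 1), (1 + t * a j.rev) := by
  rw [det_of_isLowerTriangular]
  · simp [C]
  · intro i j h
    have h' : i < j := h
    have h1 : i.val ≠ j.val + 1 := by have := Fin.lt_def.1 h'; omega
    simp [C, h'.ne, h1]

/-- indicator with values in the natural numbers -/
def ia {n : ℕ} (I : Finset (Fin n)) (i : Fin n) : ℕ := if i ∈ I then 1 else 0

theorem pieri_t (l : Fin (N + 1) → ℕ) (t : ℂ) :
    ∑ I : Finset (Fin (N + 1)), t ^ I.card * S a (l + ia I) =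
      ∑ I : Finset (Fin (N + 1)), t ^ I.card * ((∏ j ∈ I, a j.rev) * S a l) := by
  have e : (Matrix.of fun i => row a N (l i + i.rev)) * (1 + t • C a N) =
      (fun i => t • row a N (l i + i.rev + 1)) + fun i => row a N (l i + i.rev) := by
    ext i j
    rw [mul_add, mul_one, Matrix.mul_smul]
    simp [Matrix.mul_apply, row_C, add_comm]
  have h1 := congrArg det e
  rw [det_mul, det_C, prod_one_add, powerset_univ, mul_sum] at h1
  have h2 := (detRowAlternating : (Fin (N + 1) → ℂ) [⋀^Fin (N + 1)]→ₗ[ℂ] ℂ).map_add_univ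
    (fun i => t • row a N (l i + i.rev + 1)) fun i => row a N (l i + i.rev)
  refine Eq.trans ?_ ((h1.trans h2).symm.trans ?_)
  · refine sum_congr rfl fun I _ => ?_
    have h3 := det_mul_column (fun i => if i ∈ I then t else 1)
      (Matrix.of fun i => row a N ((l + ia I) i + i.rev))
    rw [prod_ite_mem, univ_inter, prod_const] at h3
    refine h3.symm.trans (congrArg det ?_)
    ext i j
    by_cases hi : i ∈ I
    · simp [hi, ia, add_right_comm]
    · simp [hi, ia]
  · refine sum_congr rfl fun I _ => ?_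
    rw [prod_mul_distrib, prod_const, S]
    ring

theorem coef {ι : Type} [Fintype ι] [DecidableEq ι] (f g : Finset ι → ℂ)
    (h : ∀ t : ℂ, ∑ I, t ^ I.card * f I = ∑ I, t ^ I.card * g I) (r : ℕ) :
    ∑ I ∈ powersetCard r univ, f I = ∑ I ∈ powersetCard r univ, g I := by
  have h1 : ∑ I : Finset ι, Polynomial.monomial I.card (f I) =
      ∑ I : Finset ι, Polynomial.monomial I.card (g I) := by
    refine Polynomial.funext fun t => ?_
    simpa [Polynomial.eval_finsetSum, mul_comm] using h t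
  have h2 := congrArg (Polynomial.coeff · r) h1
  simp only [Polynomial.finsetSum_coeff, Polynomial.coeff_monomial] at h2
  rw [powersetCard_eq_filter, powerset_univ, sum_filter, sum_filter]
  exact h2

theorem vanish {l : Fin (N + 1) → ℕ} (hl : Antitone l) {I : Finset (Fin (N + 1))}
    (h : ¬ Antitone (l + ia I)) : S a (l + ia I) = 0 := by
  rw [Fin.antitone_iff_succ_le] at h hl
  push Not at h
  obtain ⟨i, hi⟩ := h
  refine det_zero_of_row_eq (i := i.castSucc) (j := i.succ) (Fin.castSucc_lt_succ).ne ?_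
  have h1 := hl i
  have : (l + ia I) i.castSucc + i.castSucc.rev = (l + ia I) i.succ + i.succ.rev := by
    simp only [Pi.add_apply, ia, Fin.rev_castSucc, Fin.rev_succ, Fin.val_succ,
      Fin.val_castSucc] at hi ⊢
    split_ifs at hi ⊢ <;> omega
  exact congrArg (row a N) this

theorem S_single (k : ℕ) : S a (Pi.single (0 : Fin (N + 1)) k) = u a (k + N) N := by
  rw [S, det_of_isUpperTriangular, Fin.prod_univ_succ]
  · simp [row, u_self]
  · intro i j h
    have h' : j < i := h
    have h0 : i ≠ 0 := Fin.ne_zero_of_lt h'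
    simp only [Matrix.of_apply, row, Pi.single_eq_of_ne h0, zero_add]
    exact u_lt a _ _ (Fin.rev_lt_rev.2 h')

theorem wt_lt {n : ℕ} {I J : Finset (Fin n)} (hc : I.card = J.card) (hn : I ≠ J)
    (hJ : ∀ i ∈ J, ∀ j ∉ J, i < j) : ∑ i ∈ I, (n - i.val) < ∑ i ∈ J, (n - i.val) := by
  have h1 : (I \ J).card = (J \ I).card := card_sdiff_comm hc
  have h2 : (I \ J).Nonempty := by
    rw [sdiff_nonempty]
    exact fun h => hn (eq_of_subset_of_card_le h hc.ge)
  obtain ⟨j, hj, hm⟩ := exists_max_image (I \ J) (fun i => n - i.val) h2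
  have h3 := sum_le_card_nsmul _ _ _ hm
  have h4 : ∑ _i ∈ J \ I, (n - j.val) < ∑ i ∈ J \ I, (n - i.val) := by
    refine sum_lt_sum_of_nonempty (card_pos.1 (h1 ▸ card_pos.2 h2)) fun i hi => ?_
    have := Fin.lt_def.1 (hJ i (mem_sdiff.1 hi).1 j (mem_sdiff.1 hj).2)
    have := j.2
    omega
  rw [sum_const, ← h1] at h4
  rw [← sum_inter_add_sum_sdiff I J, ← sum_inter_add_sum_sdiff J I, inter_comm]
  omega

theorem uniq {n : ℕ} (D : (Fin n → ℕ) → ℂ) (h0 : D 0 = 0)
    (h1 : ∀ l, Antitone l → ∀ I, ¬ Antitone (l + ia I) → D (l + ia I) = 0)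
    (h2 : ∀ l, Antitone l → D l = 0 → ∀ r ≤ n, ∑ I ∈ powersetCard r univ, D (l + ia I) = 0)
    (l : Fin n → ℕ) (hl : Antitone l) : D l = 0 := by
  induction hw : ∑ i : Fin n, (n - i.val) * l i using Nat.strong_induction_on generalizing l with
  | _ m ih =>
  by_cases hz : l = 0
  · rw [hz, h0]
  have wa : ∀ (ν : Fin n → ℕ) (I : Finset (Fin n)), ∑ i : Fin n, (n - i.val) * (ν + ia I) i =
      ∑ i : Fin n, (n - i.val) * ν i + ∑ i ∈ I, (n - i.val) := fun ν I => by
    simp [ia, mul_add, sum_add_distrib]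
  set J := univ.filter fun i => l i ≠ 0 with hJ
  have e : (fun i => l i - 1) + ia J = l := by
    funext i
    simp only [Pi.add_apply, ia, hJ, mem_filter, mem_univ, true_and]
    split_ifs <;> omega
  have hν : Antitone fun i => l i - 1 := fun i j h => Nat.sub_le_sub_right (hl h) 1
  have hm := wa (fun i => l i - 1) J
  rw [e, hw] at hm
  have hp : 0 < ∑ i ∈ J, (n - i.val) := by
    obtain ⟨i, hi⟩ := Function.ne_iff.1 hz
    exact sum_pos (fun i _ => Nat.sub_pos_of_lt i.2) ⟨i, by simpa [hJ] using hi⟩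
  have h3 := h2 _ hν (ih _ (by omega) _ hν rfl) J.card (by simpa using card_le_univ J)
  rw [sum_eq_single_of_mem J (by simp), e] at h3
  · exact h3
  · intro I hI hne
    by_cases ha : Antitone ((fun i => l i - 1) + ia I)
    · refine ih _ ?_ _ ha rfl
      have := wt_lt (mem_powersetCard.1 hI).2 hne fun i hi j hj => by
        by_contra hc
        have := hl (not_lt.1 hc)
        simp only [hJ, mem_filter, mem_univ, true_and] at hi hj
        omega
      rw [wa]
      omega
    · exact h1 _ hν I ha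

theorem S_bd {B : ℝ} (hB : 1 ≤ B) (h : ∀ m, ‖a m‖ ≤ B) (l : Fin (N + 1) → ℕ) :
    ‖S a l‖ ≤ ((N + 1).factorial * (N + 1) ^ ((N + 1) ^ 2) : ℝ) *
      ((∑ i, l i : ℕ) + 1 : ℝ) ^ ((N + 1) ^ 2) * B ^ (∑ i, l i) := by
  have B0 : 0 < B := by linarith
  set X : ℝ := (((N + 1) * ((∑ i, l i) + 1) : ℕ) : ℝ) ^ (N + 1) with hX
  have h1 : ∀ (i j : Fin (N + 1)), ‖row a N (l i + i.rev) j‖ * B ^ j.rev.val ≤
      X * B ^ (l i + i.rev) := fun i j => by
    refine (u_bd a B0.le h _ _).trans (mul_le_mul_of_nonneg_right ?_ (by positivity))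
    have e1 : l i ≤ ∑ i, l i := single_le_sum (fun _ _ => Nat.zero_le _) (mem_univ i)
    have e2 := i.rev.2
    have e3 : l i + i.rev ≤ (N + 1) * ((∑ i, l i) + 1) := by nlinarith
    rw [hX]
    exact_mod_cast (Nat.choose_le_pow _ _).trans ((Nat.pow_le_pow_left e3 _).trans
      (Nat.pow_le_pow_right (by positivity) j.rev.2.le))
  have h2 : ∀ σ : Equiv.Perm (Fin (N + 1)), ‖∏ j, row a N (l (σ j) + (σ j).rev) j‖ ≤
      X ^ (N + 1) * B ^ (∑ i, l i) := fun σ => by
    have e1 := prod_le_prod (s := univ) (fun j _ => by positivity) fun j _ => h1 (σ j) j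
    rw [prod_mul_distrib, prod_mul_distrib, prod_const, prod_pow_eq_pow_sum, prod_pow_eq_pow_sum,
      Equiv.sum_comp σ fun i => l i + i.rev.val, sum_add_distrib, pow_add, ← mul_assoc,
      card_univ, Fintype.card_fin] at e1
    rw [norm_prod]
    exact le_of_mul_le_mul_right e1 (by positivity)
  rw [S, det_apply']
  refine (norm_sum_le _ _).trans ((sum_le_card_nsmul _ _ (X ^ (N + 1) * B ^ (∑ i, l i))
    fun σ _ => ?_).trans (le_of_eq ?_))
  · rw [norm_mul]
    refine le_trans (le_of_eq ?_) (h2 σ)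
    rcases Int.units_eq_one_or (Equiv.Perm.sign σ) with e | e <;> simp [e]
  · rw [card_univ, Fintype.card_perm, Fintype.card_fin, nsmul_eq_mul, hX, ← pow_mul, ← sq]
    push_cast
    rw [mul_pow]
    ring

open PowerSeries in
theorem gen (j : ℕ) : (∏ m ∈ range (j + 1), (1 - PowerSeries.C (a m) * X)) *
    PowerSeries.mk (fun k => u a (k + j) j) = 1 := by
  induction j with
  | zero =>
    ext k
    rcases k with _ | k <;> simp [sub_mul, mul_assoc, u, coeff_succ_X_mul, coeff_one]
  | succ j ih =>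
    rw [prod_range_succ, mul_assoc]
    refine Eq.trans (congrArg _ ?_) ih
    ext k
    rcases k with _ | k
    · simp [sub_mul, mul_assoc, u_self]
    · simp [sub_mul, mul_assoc, coeff_succ_X_mul, ← add_assoc, u, add_right_comm k 1 j]

open PowerSeries in
theorem geo (x : ℂ) : (1 - PowerSeries.C x * X) * PowerSeries.mk (fun k => x ^ k) = 1 := by
  ext k
  rcases k with _ | k <;> simp [sub_mul, mul_assoc, coeff_succ_X_mul, coeff_one, pow_succ']

open PowerSeries in
theorem prod_bd {B : ℝ} (hB : 0 ≤ B) (h : ∀ m, ‖a m‖ ≤ B) (s : Finset ℕ) :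
    ∀ k, ‖coeff k (∏ m ∈ s, (1 - PowerSeries.C (a m) * X))‖ ≤
      if k ≤ s.card then (1 + B) ^ s.card else 0 := by
  induction s using Finset.induction_on with
  | empty => intro k; rcases k with _ | k <;> simp [coeff_one]
  | insert m s hm ih =>
    intro k
    have hp : 0 ≤ (1 + B) ^ s.card := by positivity
    rw [prod_insert hm, card_insert_of_notMem hm, sub_mul, one_mul, mul_assoc, map_sub,
      coeff_C_mul, pow_succ]
    rcases k with _ | k
    · have := ih 0
      simp only [Nat.zero_le, if_true, coeff_zero_X_mul, mul_zero, sub_zero] at this ⊢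
      nlinarith
    · rw [coeff_succ_X_mul]
      refine (norm_sub_le _ _).trans ?_
      rw [norm_mul]
      have h1 := ih (k + 1)
      have h2 := mul_le_mul (h m) (ih k) (norm_nonneg _) hB
      split_ifs at h1 h2 ⊢ <;> first | omega | nlinarith

theorem low {B : ℝ} (hB : 0 ≤ B) (h : ∀ m, ‖a m‖ ≤ B) {i : ℕ} (hi : i < N + 1) (l : ℕ) :
    ‖a i‖ ^ l ≤ (1 + B) ^ N * ∑ j ∈ range (min l N + 1), ‖u a (l - j + N) N‖ := by
  have h1 := gen a N
  rw [← mul_prod_erase _ _ (mem_range.2 hi), mul_assoc] at h1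
  have h2 := left_inv_eq_right_inv ((mul_comm _ _).trans h1) (geo (a i))
  have h3 := congrArg (PowerSeries.coeff l) h2
  rw [PowerSeries.coeff_mul, Finset.Nat.sum_antidiagonal_eq_sum_range_succ_mk,
    PowerSeries.coeff_mk] at h3
  have h4 := prod_bd a hB h ((range (N + 1)).erase i)
  rw [card_erase_of_mem (mem_range.2 hi), card_range, Nat.add_sub_cancel] at h4
  rw [← norm_pow, ← h3, mul_sum]
  refine (norm_sum_le _ _).trans ?_
  have e : range (min l N + 1) = (range l.succ).filter (· ≤ N) := by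
    ext j; simp
  rw [e, sum_filter]
  refine sum_le_sum fun j _ => ?_
  rw [norm_mul, PowerSeries.coeff_mk]
  refine (mul_le_mul_of_nonneg_right (h4 j) (norm_nonneg _)).trans (le_of_eq ?_)
  split_ifs <;> simp

theorem up {n : ℕ} (e : ℕ → ℂ) (h0 : e 0 = 1) (A : (Fin n → ℤ) → ℂ)
    (h1 : ∀ l, ¬ Antitone l → A l = 0)
    (h2 : ∀ l, Antitone l → ∀ r, r ≤ n → e (n - r) * A l =
      ∑ I ∈ powersetCard r univ, A (l - ind I)) (l : Fin n → ℤ) (hl : Antitone l) (r : ℕ)
    (hr : r ≤ n) : e r * A l = ∑ I ∈ powersetCard r univ, A (l + ind I) := by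
  have s : ∀ l, A l = A (l - ind univ) := fun l => by
    by_cases h : Antitone l
    · have := h2 l h n le_rfl
      have e : powersetCard n (univ : Finset (Fin n)) = {univ} := by
        simpa using powersetCard_self (univ : Finset (Fin n))
      rwa [Nat.sub_self, h0, one_mul, e, sum_singleton] at this
    · rw [h1 l h, h1 _ fun h' => h fun i j hij => by simpa [ind] using h' hij]
  have h3 := h2 l hl (n - r) (Nat.sub_le _ _)
  rw [Nat.sub_sub_self hr] at h3
  rw [h3]
  refine sum_nbij' compl compl (fun I hI => ?_) (fun I hI => ?_) (fun I _ => compl_compl I)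
    (fun I _ => compl_compl I) fun I _ => ?_
  · simp only [mem_powersetCard_univ, card_compl, Fintype.card_fin] at hI ⊢
    omega
  · simp only [mem_powersetCard_univ, card_compl, Fintype.card_fin] at hI ⊢
    omega
  · rw [s (l + ind Iᶜ)]
    congr 1
    funext i
    by_cases hi : i ∈ I <;> simp [ind, hi]

end Schur

theorem schur : SchurStmt := by
  intro N α _
  let a : ℕ → ℂ := fun m => if h : m < N + 1 then α (Fin.rev ⟨m, h⟩) else 0
  have ha : ∀ j : Fin (N + 1), a j.rev = α j := fun j => by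
    simp only [a, dif_pos j.rev.2, Fin.eta, Fin.rev_rev]
  have S0 : Schur.S a (0 : Fin (N + 1) → ℕ) = 1 := by
    have := Schur.S_single (N := N) a 0
    rwa [Pi.single_zero, zero_add, Schur.u_self] at this
  refine ⟨Schur.S a, S0, fun A h1 h2 l hl => ?_, fun B hB hα => ?_⟩
  · have c : ∀ (l : Fin (N + 1) → ℕ) I, (fun i => ((l + Schur.ia I) i : ℤ)) =
        (fun i => (l i : ℤ)) + ind I := fun l I => by
      funext i
      simp [Schur.ia, ind]
    refine sub_eq_zero.1 (Schur.uniq (fun l => A (fun i => l i) - Schur.S a l * A 0) ?_ ?_ ?_ l hl)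
    · rw [S0, one_mul]
      exact sub_self _
    · intro l hl I hI
      rw [Schur.vanish a hl hI, h1 _ fun h => hI fun i j hij => Int.ofNat_le.1 (h hij)]
      simp
    · intro l hl hD r hr
      have e1 := Schur.up (esy α) (by simp [esy]) A h1 h2 (fun i => (l i : ℤ))
        (fun i j hij => Int.ofNat_le.2 (hl hij)) r hr
      have e2 := Schur.coef _ _ (Schur.pieri_t a l) r
      simp only [ha, ← sum_mul] at e2
      rw [sum_sub_distrib, ← sum_mul, e2]
      simp only [c]
      rw [← e1, sub_eq_zero.1 hD, esy]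
      ring
  · have hb : ∀ m, ‖a m‖ ≤ B := fun m => by
      simp only [a]
      split_ifs
      · exact hα _
      · simp; linarith
    refine ⟨fun l _ => Schur.S_bd a hB hb l, fun i l => ?_⟩
    simp only [Schur.S_single]
    rw [← ha]
    exact Schur.low a (by linarith) hb i.rev.2 l

end Pool.Agent.Lib.MP_fa98d2_nt.D
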