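import Pool.Agent.Lib.MP_fa98d2_nt.D.Stmts1

/-!
Density theorem for cusp forms on PGL(n): Fourier analysis on tori.
-/

open MeasureTheory Filter Topology Matrix
open scoped ENNReal Real

noncomputable section

namespace Pool.Agent.Lib.MP_fa98d2_nt.D

namespace Torus

variable {k : ℕ}

/-- the unit cube -/
def Q (k : ℕ) : Set (Fin k → ℝ) := Set.univ.pi fun _ => Set.Ico 0 1

lemma Q_meas : MeasurableSet (Q k) := MeasurableSet.univ_pi fun _ => measurableSet_Ico

lemma mem_Q {b : Fin k → ℝ} : b ∈ Q k ↔ ∀ i, 0 ≤ b i ∧ b i < 1 := by simp [Q]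

lemma cub_eq : cub k = volume.restrict (Q k) := rfl

/-- fractional part -/
def fr (b : Fin k → ℝ) : Fin k → ℝ := fun i => Int.fract (b i)

lemma fr_meas : Measurable (fr : (Fin k → ℝ) → Fin k → ℝ) :=
  measurable_pi_lambda _ fun i => measurable_fract.comp (measurable_pi_apply i)

lemma fr_of_mem {b : Fin k → ℝ} (h : b ∈ Q k) : fr b = b :=
  funext fun i => Int.fract_eq_self.2 (mem_Q.1 h i)

lemma fr_add (z : Fin k → ℤ) (b : Fin k → ℝ) : fr (zv z + b) = fr b :=
  funext fun i => Int.fract_intCast_add (z i) (b i)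

lemma per_fr {β : Type} {H : (Fin k → ℝ) → β} (h : Per H) (b : Fin k → ℝ) : H (fr b) = H b := by
  rw [← h (fun i => ⌊b i⌋) (fr b)]
  exact congrArg H (funext fun i => Int.floor_add_fract (b i))

lemma zv_neg (z : Fin k → ℤ) : zv (-z) = -zv z := funext fun i => Int.cast_neg (z i)

/-- indicator of the cube -/
def chi (b : Fin k → ℝ) : ℝ≥0∞ := (Q k).indicator 1 b

lemma chi_meas : Measurable (chi : (Fin k → ℝ) → ℝ≥0∞) := measurable_one.indicator Q_meas

lemma chi_of_mem {b : Fin k → ℝ} (h : b ∈ Q k) : chi b = 1 := Set.indicator_of_mem h _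

lemma chi_of_not {b : Fin k → ℝ} (h : b ∉ Q k) : chi b = 0 := Set.indicator_of_notMem h _

lemma tsum_chi (σ : (Fin k → ℤ) ≃ (Fin k → ℤ)) (b : Fin k → ℝ) :
    ∑' z, chi (zv (σ z) + b) = 1 := by
  rw [σ.tsum_eq fun z => chi (zv z + b), tsum_eq_single fun i => -⌊b i⌋]
  · refine chi_of_mem (mem_Q.2 fun i => ?_)
    have h1 := Int.floor_le (b i)
    have h2 := Int.lt_floor_add_one (b i)
    simp only [zv, Pi.add_apply, Int.cast_neg]
    constructor <;> linarith
  · intro z hz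
    refine chi_of_not fun h => hz (funext fun i => ?_)
    have h1 := mem_Q.1 h i
    simp only [zv, Pi.add_apply] at h1
    have : ⌊b i⌋ = -z i := Int.floor_eq_iff.2 (by push_cast; constructor <;> linarith [h1.1, h1.2])
    rw [this, neg_neg]

lemma lint_cub (G : (Fin k → ℝ) → ℝ≥0∞) : ∫⁻ b, G b ∂cub k = ∫⁻ b, chi b * G b := by
  rw [cub_eq, ← lintegral_indicator Q_meas]
  refine lintegral_congr fun b => ?_
  by_cases h : b ∈ Q k
  · rw [chi_of_mem h, one_mul, Set.indicator_of_mem h]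
  · rw [chi_of_not h, zero_mul, Set.indicator_of_notMem h]

lemma tile {F : (Fin k → ℝ) → ℝ≥0∞} (hF : Measurable F) :
    ∫⁻ b, F b = ∫⁻ b, ∑' z : Fin k → ℤ, F (zv z + b) ∂cub k := by
  have hm : ∀ z : Fin k → ℤ, Measurable fun b : Fin k → ℝ => zv z + b := fun z =>
    measurable_const_add _
  calc ∫⁻ b, F b = ∫⁻ b, ∑' z : Fin k → ℤ, chi (zv (Equiv.neg _ z) + b) * F b := by
        simp only [ENNReal.tsum_mul_right, tsum_chi, one_mul]
    _ = ∑' z : Fin k → ℤ, ∫⁻ b, chi (zv (Equiv.neg _ z) + b) * F b :=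
        lintegral_tsum fun z => ((chi_meas.comp (hm _)).mul hF).aemeasurable
    _ = ∑' z : Fin k → ℤ, ∫⁻ b, F (zv z + b) ∂cub k := by
        refine tsum_congr fun z => ?_
        rw [lint_cub, ← lintegral_add_left_eq_self _ (zv z)]
        simp only [Equiv.neg_apply, zv_neg, neg_add_cancel_left]
    _ = _ := (lintegral_tsum fun z => (hF.comp (hm z)).aemeasurable).symm

lemma unf {T : (Fin k → ℝ) → Fin k → ℝ} (hT : MeasurePreserving T volume volume)
    (σ : (Fin k → ℤ) ≃ (Fin k → ℤ)) (h : ∀ z b, T (zv z + b) = zv (σ z) + T b)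
    {H : (Fin k → ℝ) → ℝ≥0∞} (hH : Measurable H) (hp : Per H) :
    ∫⁻ b, H (T b) ∂cub k = ∫⁻ b, H b ∂cub k := by
  have hm : Measurable fun b => chi b * H b := chi_meas.mul hH
  rw [lint_cub H, ← hT.lintegral_comp hm,
    tile (F := fun b => chi (T b) * H (T b)) (hm.comp hT.measurable)]
  refine lintegral_congr fun b => ?_
  simp only [h, hp _ _, ENNReal.tsum_mul_right, tsum_chi, one_mul]

lemma int_of_lint {T : (Fin k → ℝ) → Fin k → ℝ} (hT : Measurable T)
    (h : ∀ H : (Fin k → ℝ) → ℝ≥0∞, Measurable H → Per H →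
      ∫⁻ b, H (T b) ∂cub k = ∫⁻ b, H b ∂cub k)
    {H : (Fin k → ℝ) → ℂ} (hH : Continuous H) (hp : Per H) :
    ∫ b, H (T b) ∂cub k = ∫ b, H b ∂cub k := by
  have hm : Measurable fun b => fr (T b) := fr_meas.comp hT
  have mp : (cub k).map (fun b => fr (T b)) = cub k := Measure.ext_of_lintegral _ fun f hf => by
    rw [lintegral_map hf hm]
    exact (h (fun b => f (fr b)) (hf.comp fr_meas) fun z b => congrArg f (fr_add z b)).trans
      (setLIntegral_congr_fun Q_meas fun b hb => congrArg f (fr_of_mem hb))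
  conv_rhs => rw [← mp, integral_map hm.aemeasurable hH.aestronglyMeasurable]
  simp only [per_fr hp]

lemma shiftL {H : (Fin k → ℝ) → ℝ≥0∞} (hH : Measurable H) (hp : Per H) (c : Fin k → ℝ) :
    ∫⁻ b, H (b + c) ∂cub k = ∫⁻ b, H b ∂cub k :=
  unf (measurePreserving_add_right volume c) (Equiv.refl _) (fun _ _ => add_assoc _ _ _) hH hp

lemma shift {H : (Fin k → ℝ) → ℂ} (hH : Continuous H) (hp : Per H) (c : Fin k → ℝ) :
    ∫ b, H (b + c) ∂cub k = ∫ b, H b ∂cub k :=
  int_of_lint (measurable_add_const c) (fun _ h h' => shiftL h h' c) hH hp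

lemma mv_meas (m : Matrix (Fin k) (Fin k) ℝ) : Measurable fun b : Fin k → ℝ => m *ᵥ b :=
  (LinearMap.continuous_on_pi (toLin' m)).measurable

lemma glzL {H : (Fin k → ℝ) → ℝ≥0∞} (hH : Measurable H) (hp : Per H) (γ : GL (Fin k) ℤ) :
    ∫⁻ b, H (γ.val.map (Int.cast : ℤ → ℝ) *ᵥ b) ∂cub k = ∫⁻ b, H b ∂cub k := by
  have hd : |(γ.val.map (Int.cast : ℤ → ℝ)).det| = 1 := by
    have h1 : (γ.val.map (Int.cast : ℤ → ℝ)).det = (γ.val.det : ℝ) :=
      ((Int.castRingHom ℝ).map_det γ.val).symm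
    rw [h1, ← Int.cast_abs, Int.isUnit_iff_abs_eq.1 ((isUnit_iff_isUnit_det _).1 γ.isUnit),
      Int.cast_one]
  refine unf (T := fun b => γ.val.map (Int.cast : ℤ → ℝ) *ᵥ b) ⟨mv_meas _, ?_⟩
    ⟨fun z => γ.val *ᵥ z, fun z => (γ⁻¹).val *ᵥ z, fun z => by simp, fun z => by simp⟩
    (fun z b => ?_) hH hp
  · have := Real.map_matrix_volume_pi_eq_smul_volume_pi (M := γ.val.map (Int.cast : ℤ → ℝ))
      (fun h => by simp [h] at hd)
    rwa [abs_inv, hd, inv_one, ENNReal.ofReal_one, one_smul] at this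
  · rw [mulVec_add]
    congr 1
    ext i
    simp [zv, mulVec, dotProduct]

lemma integrable_cub {E : Type} [NormedAddCommGroup E] {H : (Fin k → ℝ) → E} (hH : Continuous H) :
    Integrable H (cub k) :=
  (hH.continuousOn.integrableOn_compact (isCompact_Icc (a := 0) (b := 1))).mono_set
    fun _ hb => ⟨fun i => (mem_Q.1 hb i).1, fun i => (mem_Q.1 hb i).2.le⟩

/-! ### scaling -/

/-- digits -/
def V (p : ℕ) (I : Finset (Fin k)) : Finset (Fin k → ℕ) :=
  Fintype.piFinset fun i => if i ∈ I then ({0} : Finset ℕ) else Finset.range p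

/-- contraction onto a small box -/
def S (p : ℕ) (I : Finset (Fin k)) (v : Fin k → ℕ) (y : Fin k → ℝ) : Fin k → ℝ :=
  fun i => if i ∈ I then y i else ((v i : ℝ) + y i) / p

lemma S_cont (p : ℕ) (I : Finset (Fin k)) (v : Fin k → ℕ) : Continuous (S p I v) :=
  continuous_pi fun i => by
    unfold S
    split_ifs <;> fun_prop

lemma prod_ite_pow {M : Type} [CommMonoid M] (I : Finset (Fin k)) (x : M) :
    ∏ i, (if i ∈ I then 1 else x) = x ^ (k - I.card) := by
  rw [Finset.prod_ite, Finset.prod_const_one, one_mul, Finset.prod_const]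
  congr 1
  rw [show Finset.univ.filter (fun i => i ∉ I) = Iᶜ by ext; simp, Finset.card_compl,
    Fintype.card_fin]

lemma card_V (p : ℕ) (I : Finset (Fin k)) : (V p I).card = p ^ (k - I.card) := by
  rw [V, Fintype.card_piFinset, ← prod_ite_pow]
  refine Finset.prod_congr rfl fun i _ => ?_
  split_ifs <;> simp

lemma mem_V {p : ℕ} {I : Finset (Fin k)} {v : Fin k → ℕ} :
    v ∈ V p I ↔ ∀ i, v i < if i ∈ I then 1 else p := by
  rw [V, Fintype.mem_piFinset]
  refine forall_congr' fun i => ?_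
  split_ifs <;> simp

lemma scaleL {p : ℕ} (hp : 0 < p) (I : Finset (Fin k)) {F : (Fin k → ℝ) → ℝ≥0∞}
    (hF : Measurable F) :
    ∑ v ∈ V p I, ∫⁻ y, F (S p I v y) ∂cub k = (p : ℝ≥0∞) ^ (k - I.card) * ∫⁻ y, F y ∂cub k := by
  have hp' : (0 : ℝ) < p := by exact_mod_cast hp
  let D : Matrix (Fin k) (Fin k) ℝ := diagonal fun i => if i ∈ I then 1 else (p : ℝ)⁻¹
  have hD : D.det = ((p : ℝ)⁻¹) ^ (k - I.card) := by rw [det_diagonal, prod_ite_pow]
  have h1 := Real.map_matrix_volume_pi_eq_smul_volume_pi (M := D) (by rw [hD]; positivity)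
  rw [hD, inv_pow, inv_inv, abs_of_pos (by positivity), ENNReal.ofReal_pow hp'.le,
    ENNReal.ofReal_natCast] at h1
  have hm : Measurable fun b => chi b * F b := chi_meas.mul hF
  have h2 : (p : ℝ≥0∞) ^ (k - I.card) * ∫⁻ y, F y ∂cub k = ∫⁻ y, chi (D *ᵥ y) * F (D *ᵥ y) := by
    rw [lint_cub, ← smul_eq_mul, ← lintegral_smul_measure, ← h1]
    exact lintegral_map hm (mv_meas D)
  rw [h2, tile (F := fun y => chi (D *ᵥ y) * F (D *ᵥ y)) (hm.comp (mv_meas D)),
    ← lintegral_finsetSum (f := fun v y => F (S p I v y)) _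
      fun v _ => hF.comp (S_cont p I v).measurable]
  refine setLIntegral_congr_fun Q_meas fun y hy => ?_
  let c : (Fin k → ℕ) ↪ (Fin k → ℤ) := ⟨fun v i => (v i : ℤ), fun v w h => funext fun i =>
    Int.natCast_inj.1 (congrFun h i)⟩
  have hDv : ∀ (z : Fin k → ℤ) (i : Fin k),
      (D *ᵥ (zv z + y)) i = if i ∈ I then (z i : ℝ) + y i else ((z i : ℝ) + y i) / p := by
    intro z i
    simp only [D, mulVec_diagonal, zv, Pi.add_apply]
    split_ifs
    · rw [one_mul]
    · rw [div_eq_inv_mul]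
  rw [tsum_eq_sum (s := (V p I).map c), Finset.sum_map]
  · refine Finset.sum_congr rfl fun v hv => ?_
    have e : D *ᵥ (zv (c v) + y) = S p I v y := funext fun i => by
      have := mem_V.1 hv i
      rw [hDv, S, show c v i = (v i : ℤ) from rfl, Int.cast_natCast]
      split_ifs at this ⊢
      · simp [Nat.lt_one_iff.1 this]
      · rfl
    rw [e, chi_of_mem, one_mul]
    refine mem_Q.2 fun i => ?_
    have h3 := mem_V.1 hv i
    have h4 := mem_Q.1 hy i
    rw [S]
    split_ifs at h3 ⊢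
    · exact h4
    · have h5 : (v i : ℝ) + 1 ≤ p := by exact_mod_cast h3
      exact ⟨div_nonneg (add_nonneg (Nat.cast_nonneg _) h4.1) hp'.le,
        (div_lt_one hp').2 (by linarith [h4.2])⟩
  · intro z hz
    rw [chi_of_not, zero_mul]
    intro h
    have key : ∀ i, 0 ≤ z i ∧ z i < ((if i ∈ I then 1 else p : ℕ) : ℤ) := fun i => by
      have h3 := mem_Q.1 h i
      have h4 := mem_Q.1 hy i
      rw [hDv] at h3
      have h5 : 0 ≤ (z i : ℝ) + y i ∧ (z i : ℝ) + y i < ((if i ∈ I then 1 else p : ℕ) : ℝ) := by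
        split_ifs at h3 ⊢
        · simpa using h3
        · exact ⟨by simpa [le_div_iff₀ hp'] using h3.1, (div_lt_one hp').1 h3.2⟩
      have h6 : ((-1 : ℤ) : ℝ) < z i := by push_cast; linarith [h5.1, h4.2]
      have h7 : (z i : ℝ) < (((if i ∈ I then 1 else p : ℕ) : ℤ) : ℝ) := by
        rw [Int.cast_natCast]; linarith [h5.2, h4.1]
      exact ⟨by have := Int.cast_lt.1 h6; omega, Int.cast_lt.1 h7⟩
    refine hz (Finset.mem_map.2 ⟨fun i => (z i).toNat, mem_V.2 fun i => ?_, funext fun i => ?_⟩)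
    · have := key i
      omega
    · exact Int.toNat_of_nonneg (key i).1

lemma scale {p : ℕ} (hp : 0 < p) (I : Finset (Fin k)) {G : (Fin k → ℝ) → ℂ} (hG : Continuous G) :
    ∫ y, ∑ v ∈ V p I, G (S p I v y) ∂cub k = (p : ℂ) ^ (k - I.card) * ∫ y, G y ∂cub k := by
  have hm := fun v => (S_cont p I v).measurable
  have mp : ∑ v ∈ V p I, (cub k).map (S p I v) = (p : ℝ≥0∞) ^ (k - I.card) • cub k :=
    Measure.ext_of_lintegral _ fun f hf => by
      rw [lintegral_finsetSum_measure, lintegral_smul_measure, smul_eq_mul, ← scaleL hp I hf]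
      exact Finset.sum_congr rfl fun v _ => lintegral_map hf (hm v)
  have h1 : ∀ v, Integrable (fun y => G (S p I v y)) (cub k) := fun v =>
    integrable_cub (hG.comp (S_cont p I v))
  have h2 := integral_finsetSum_measure (f := G) (s := V p I)
    (μ := fun v => (cub k).map (S p I v)) fun v _ =>
      (integrable_map_measure hG.aestronglyMeasurable (hm v).aemeasurable).2 (h1 v)
  rw [mp, integral_smul_measure] at h2
  rw [integral_finsetSum _ fun v _ => h1 v, ← Finset.sum_congr rfl fun v _ =>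
    integral_map (hm v).aemeasurable hG.aestronglyMeasurable, ← h2]
  simp

/-- dilation -/
def T (p : ℕ) (I : Finset (Fin k)) (y : Fin k → ℝ) : Fin k → ℝ :=
  fun i => if i ∈ I then p * y i else y i

lemma T_cont (p : ℕ) (I : Finset (Fin k)) : Continuous (T p I) :=
  continuous_pi fun i => by
    unfold T
    split_ifs <;> fun_prop

lemma dil {p : ℕ} (hp : 0 < p) (I : Finset (Fin k)) {G : (Fin k → ℝ) → ℂ} (hG : Continuous G)
    (h : Per G) : ∫ y, G (T p I y) ∂cub k = ∫ y, G y ∂cub k := by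
  have hp' : (p : ℝ) ≠ 0 := by exact_mod_cast hp.ne'
  have h1 := scale hp Iᶜ (hG.comp (T_cont p I))
  have h2 : ∀ y, ∑ v ∈ V p Iᶜ, (G ∘ T p I) (S p Iᶜ v y) = (p : ℂ) ^ (k - Iᶜ.card) * G y := by
    intro y
    rw [Finset.sum_congr rfl (g := fun _ => G y), Finset.sum_const, card_V, nsmul_eq_mul,
      Nat.cast_pow]
    intro v hv
    rw [← h (fun i => v i) y]
    refine congrArg G (funext fun i => ?_)
    have := mem_V.1 hv i
    by_cases hi : i ∈ I
    · simp [T, S, hi, zv, mul_div_cancel₀ _ hp']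
    · simp only [Finset.mem_compl, hi, not_false_eq_true, if_true, Nat.lt_one_iff] at this
      simp [T, S, hi, zv, this]
  simp only [h2, integral_const_mul] at h1
  exact (mul_left_cancel₀ (pow_ne_zero _ (by exact_mod_cast hp.ne')) h1).symm

/-! ### the character -/

lemma ee_add (x y : ℝ) : ee (x + y) = ee x * ee y := by
  rw [ee, ee, ee, ← Complex.exp_add]
  push_cast
  ring_nf

lemma ee_int (n : ℤ) : ee n = 1 := by
  rw [ee, mul_comm]
  exact Complex.exp_int_mul_two_pi_mul_I n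

lemma ee_cont : Continuous ee := by unfold ee; fun_prop

lemma norm_ee (x : ℝ) : ‖ee x‖ = 1 := by
  rw [ee, show 2 * π * Complex.I * x = (2 * π * x : ℝ) * Complex.I by push_cast; ring]
  exact Complex.norm_exp_ofReal_mul_I _

lemma conj_ee (x : ℝ) : (starRingEnd ℂ) (ee x) = ee (-x) := by
  rw [ee, ee, ← Complex.exp_conj]
  simp [map_ofNat]

lemma ee_eq_one {x : ℝ} (h : ee x = 1) : ∃ n : ℤ, x = n := by
  obtain ⟨n, hn⟩ := Complex.exp_eq_one_iff.1 h
  rw [mul_comm] at hn
  exact ⟨n, by exact_mod_cast mul_right_cancel₀ Complex.two_pi_I_ne_zero hn⟩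

lemma zv_dot (ξ z : Fin k → ℤ) : zv ξ ⬝ᵥ zv z = (ξ ⬝ᵥ z : ℤ) := by simp [zv, dotProduct]

lemma ee_shift (n : ℤ) (x : ℝ) : ee (-(n + x)) = ee (-x) := by
  rw [neg_add, ee_add, ← Int.cast_neg, ee_int, one_mul]

lemma tw_cont {H : (Fin k → ℝ) → ℂ} (hH : Continuous H) (ξ : Fin k → ℤ) :
    Continuous fun b => H b * ee (-(zv ξ ⬝ᵥ b)) :=
  hH.mul (ee_cont.comp (continuous_const.dotProduct continuous_id).neg)

lemma tw_per {H : (Fin k → ℝ) → ℂ} (hp : Per H) (ξ : Fin k → ℤ) :
    Per fun b => H b * ee (-(zv ξ ⬝ᵥ b)) := fun z b => by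
  simp only [hp z b, dotProduct_add, zv_dot, ee_shift]

lemma scaleIn {p : ℕ} (hp : 0 < p) (I : Finset (Fin k)) {H : (Fin k → ℝ) → ℂ} (hH : Continuous H)
    (ξ : Fin k → ℤ) :
    ∫ y, (∑ v ∈ V p I, H (S p I v y)) * ee (-(zv ξ ⬝ᵥ y)) ∂cub k =
      (p : ℂ) ^ (k - I.card) * fc (fun i => if i ∈ I then ξ i else p * ξ i) H := by
  have hp' : (p : ℝ) ≠ 0 := by exact_mod_cast hp.ne'
  rw [fc, ← scale hp I (tw_cont hH _)]
  refine integral_congr_ae (Eventually.of_forall fun y => ?_)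
  simp only [Finset.sum_mul]
  refine Finset.sum_congr rfl fun v hv => ?_
  rw [← ee_shift (ξ ⬝ᵥ fun i => v i), ← zv_dot, ← dotProduct_add]
  congr 3
  refine Finset.sum_congr rfl fun i _ => ?_
  have := mem_V.1 hv i
  by_cases hi : i ∈ I
  · simp only [hi, if_true, Nat.lt_one_iff] at this
    simp [S, hi, zv, this]
  · simp only [S, hi, zv, if_false, Pi.add_apply]
    push_cast
    field_simp

lemma scaleOut {p : ℕ} (hp : 0 < p) (I : Finset (Fin k)) {H : (Fin k → ℝ) → ℂ} (hH : Continuous H)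
    (h : Per H) (ξ : Fin k → ℤ) :
    ∫ y, H (T p I y) * ee (-(zv ξ ⬝ᵥ y)) ∂cub k =
      if ∀ i ∈ I, (p : ℤ) ∣ ξ i then fc (fun i => if i ∈ I then ξ i / p else ξ i) H else 0 := by
  have hp' : (p : ℝ) ≠ 0 := by exact_mod_cast hp.ne'
  split_ifs with hd
  · rw [fc, ← dil hp I (tw_cont hH _) (tw_per h _)]
    refine integral_congr_ae (Eventually.of_forall fun y => ?_)
    dsimp only
    congr 3
    refine Finset.sum_congr rfl fun i _ => ?_
    by_cases hi : i ∈ I
    · obtain ⟨c, hc⟩ := hd i hi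
      have : ξ i / p = c := by rw [hc, Int.mul_ediv_cancel_left _ (by exact_mod_cast hp.ne')]
      simp only [T, hi, zv, if_true, this]
      rw [hc]
      push_cast
      ring
    · simp [T, hi, zv]
  · push Not at hd
    obtain ⟨i, hi, hd⟩ := hd
    have h1 : Per fun y => H (T p I y) := fun z b => by
      dsimp only
      rw [← h (fun j => if j ∈ I then p * z j else z j) (T p I b)]
      refine congrArg H (funext fun j => ?_)
      by_cases hj : j ∈ I <;> simp [T, hj, zv, mul_add]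
    have h2 := shift (tw_cont (hH.comp (T_cont p I)) ξ) (tw_per h1 ξ) (Pi.single i (p : ℝ)⁻¹)
    have h3 : ∀ y, H (T p I (y + Pi.single i (p : ℝ)⁻¹)) = H (T p I y) := fun y => by
      rw [← h (Pi.single i 1) (T p I y)]
      refine congrArg H (funext fun j => ?_)
      by_cases hj : j = i
      · subst hj
        simp [T, hi, zv, mul_add, mul_inv_cancel₀ hp', add_comm]
      · simp [T, zv, hj]
    simp only [Function.comp_apply, h3, dotProduct_add, dotProduct_single, neg_add, ee_add,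
      ← mul_assoc, integral_mul_const] at h2
    by_contra h0
    obtain ⟨n, hn⟩ := ee_eq_one ((mul_eq_left₀ h0).1 h2)
    refine hd ⟨-n, ?_⟩
    have h4 : (ξ i : ℝ) = p * (-n : ℤ) := by
      rw [Int.cast_neg, ← hn, zv]
      field_simp
    exact_mod_cast h4

/-! ### Parseval -/

lemma cub_Ioc : cub k = volume.restrict
    {x : Fin k → ℝ | ∀ i, x i ∈ Set.Ioc ((0 : Fin k → ℝ) i) ((0 : Fin k → ℝ) i + 1)} := by
  refine Measure.restrict_congr_set ?_
  have h1 := Measure.univ_pi_Ico_ae_eq_Icc (μ := fun _ : Fin k => (volume : Measure ℝ))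
    (f := fun _ => 0) (g := fun _ => 1)
  have h2 := Measure.univ_pi_Ioc_ae_eq_Icc (μ := fun _ : Fin k => (volume : Measure ℝ))
    (f := fun _ => 0) (g := fun _ => 1)
  have e : {x : Fin k → ℝ | ∀ i, x i ∈ Set.Ioc ((0 : Fin k → ℝ) i) ((0 : Fin k → ℝ) i + 1)} =
      Set.univ.pi fun _ => Set.Ioc 0 1 := by
    ext x
    simp
  rw [e]
  exact h1.trans h2.symm

lemma parseval {H : (Fin k → ℝ) → ℂ} (hH : Continuous H) :
    ∑' ξ : Fin k → ℤ, ‖fc ξ H‖ₑ ^ 2 = ∫⁻ b, ‖H b‖ₑ ^ 2 ∂cub k := by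
  let μ : Measure (UnitAddTorus (Fin k)) := Measure.pi fun _ => AddCircle.haarAddCircle
  let g : UnitAddTorus (Fin k) → ℂ := fun x => H (UnitAddTorus.measurableEquivPiIoc 0 x).1
  have gm : Measurable g := hH.measurable.comp
    (measurable_subtype_coe.comp (UnitAddTorus.measurableEquivPiIoc 0).measurable)
  obtain ⟨C, hC⟩ := (isCompact_Icc (a := (0 : Fin k → ℝ)) (b := 1)).exists_bound_of_continuousOn
    hH.continuousOn
  have gl : MemLp g 2 μ := MemLp.of_bound gm.aestronglyMeasurable C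
    (Eventually.of_forall fun x => hC _ ⟨fun i => ((UnitAddTorus.measurableEquivPiIoc 0 x).2 i).1.le,
      fun i => by simpa using ((UnitAddTorus.measurableEquivPiIoc 0 x).2 i).2⟩)
  have hm : MeasurableSet
      {x : Fin k → ℝ | ∀ i, x i ∈ Set.Ioc ((0 : Fin k → ℝ) i) ((0 : Fin k → ℝ) i + 1)} :=
    MeasurableSet.univ_pi' fun _ => measurableSet_Ioc
  have hg : ∀ x : Fin k → ℝ, (∀ i, x i ∈ Set.Ioc ((0 : Fin k → ℝ) i) ((0 : Fin k → ℝ) i + 1)) →
      g (fun i => x i) = H x := fun x hx =>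
    congrArg H (funext fun i => congrArg Subtype.val (AddCircle.equivIoc_coe_eq (hx i)))
  have h1 := UnitAddTorus.hasSum_sq_mFourierCoeff (d := Fin k) (gl.toLp g)
  have h2 : ∀ ξ, UnitAddTorus.mFourierCoeff (gl.toLp g) ξ = fc ξ H := fun ξ => by
    have : UnitAddTorus.mFourierCoeff (gl.toLp g) ξ = UnitAddTorus.mFourierCoeff g ξ :=
      integral_congr_ae (gl.coeFn_toLp.mono fun x hx => by simp only [hx])
    rw [this, UnitAddTorus.mFourierCoeff_eq_integral g ξ 0, fc, cub_Ioc]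
    refine setIntegral_congr_fun hm fun x hx => ?_
    rw [hg x hx, smul_eq_mul, mul_comm]
    congr 1
    simp only [UnitAddTorus.mFourier, ContinuousMap.coe_mk, fourier_coe_apply, ← Complex.exp_sum, ee,
      dotProduct, zv, Pi.neg_apply]
    congr 1
    push_cast
    rw [← Finset.sum_neg_distrib, Finset.mul_sum]
    exact Finset.sum_congr rfl fun i _ => by ring
  have h3 : ∫ t, ‖(gl.toLp g) t‖ ^ 2 ∂μ = ∫ b, ‖H b‖ ^ 2 ∂cub k := by
    have : ∫ t, ‖(gl.toLp g) t‖ ^ 2 ∂μ = ∫ t, ‖g t‖ ^ 2 ∂μ :=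
      integral_congr_ae (gl.coeFn_toLp.mono fun x hx => by simp only [hx])
    rw [this, cub_Ioc]
    refine (UnitAddTorus.integral_preimage (fun t => ‖g t‖ ^ 2) 0).trans
      (setIntegral_congr_fun hm fun x hx => ?_)
    rw [hg x hx]
  have h4 : HasSum (fun ξ => ‖fc ξ H‖ ^ 2) (∫ b, ‖H b‖ ^ 2 ∂cub k) := by
    rw [← h3]
    simp only [← h2]
    exact h1
  have e : ∀ z : ℂ, ‖z‖ₑ ^ 2 = ENNReal.ofReal (‖z‖ ^ 2) := fun z => by
    rw [ENNReal.ofReal_pow (norm_nonneg _), ofReal_norm]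
  simp only [e]
  rw [← ENNReal.ofReal_tsum_of_nonneg (fun _ => sq_nonneg _) h4.summable, h4.tsum_eq]
  exact ofReal_integral_eq_lintegral_ofReal (integrable_cub (hH.norm.pow 2))
    (Eventually.of_forall fun _ => sq_nonneg _)

/-! ### uniqueness -/

lemma ee_dot_cont (b : Fin k → ℝ) : Continuous fun r : Fin k → ℝ => ee (-(r ⬝ᵥ b)) :=
  ee_cont.comp (continuous_id.dotProduct continuous_const).neg

lemma int_tw {f : (Fin k → ℝ) → ℂ} (hf : Integrable f) (b : Fin k → ℝ) :
    Integrable fun r => f r * ee (-(r ⬝ᵥ b)) :=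
  hf.mul_bdd (ee_dot_cont b).aestronglyMeasurable (Eventually.of_forall fun _ => (norm_ee _).le)

lemma uniq_real {g : (Fin k → ℝ) → ℝ} (hg : Integrable g)
    (h : ∀ b : Fin k → ℝ, ∫ r, (g r : ℂ) * ee (-(r ⬝ᵥ b)) = 0) : ∀ᵐ r, g r = 0 := by
  have := isFiniteMeasure_withDensity_ofReal hg.2
  have := isFiniteMeasure_withDensity_ofReal hg.neg.2
  have m1 : AEMeasurable fun r => ENNReal.ofReal (g r) := hg.1.aemeasurable.ennreal_ofReal
  have m2 : AEMeasurable fun r => ENNReal.ofReal ((-g) r) := hg.neg.1.aemeasurable.ennreal_ofReal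
  have h1 : (volume.withDensity fun r => ENNReal.ofReal (g r)) =
      volume.withDensity fun r => ENNReal.ofReal ((-g) r) := by
    refine Measure.ext_of_charFunDual (funext fun L => ?_)
    let b : Fin k → ℝ := fun i => -(L (Pi.single i 1)) / (2 * π)
    have hL : ∀ r : Fin k → ℝ, Complex.exp (L r * Complex.I) = ee (-(r ⬝ᵥ b)) := fun r => by
      have h2 : L r = ∑ i, r i * L (Pi.single i 1) := by
        conv_lhs => rw [pi_eq_sum_univ' r]
        simp
      have h3 : L r = 2 * π * -(r ⬝ᵥ b) := by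
        rw [h2, dotProduct, ← Finset.sum_neg_distrib, Finset.mul_sum]
        refine Finset.sum_congr rfl fun i _ => ?_
        simp only [b]
        field_simp
      rw [ee, h3]
      push_cast
      ring_nf
    rw [charFunDual_apply, charFunDual_apply,
      integral_withDensity_eq_integral_toReal_smul₀ m1 (Eventually.of_forall fun _ => by simp),
      integral_withDensity_eq_integral_toReal_smul₀ m2 (Eventually.of_forall fun _ => by simp),
      ← sub_eq_zero, ← h b]
    simp only [hL, ENNReal.toReal_ofReal', Complex.real_smul]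
    refine (integral_sub (int_tw hg.pos_part.ofReal b) (int_tw hg.neg.pos_part.ofReal b)).symm.trans
      (integral_congr_ae (Eventually.of_forall fun r => ?_))
    change ((max (g r) 0 : ℝ) : ℂ) * _ - ((max ((-g) r) 0 : ℝ) : ℂ) * _ = (g r : ℂ) * _
    rw [← sub_mul, ← Complex.ofReal_sub, Pi.neg_apply, max_zero_sub_max_neg_zero_eq_self]
  filter_upwards [(withDensity_eq_iff_of_sigmaFinite m1 m2).1 h1] with r hr
  rcases le_total (g r) 0 with h2 | h2
  · rw [ENNReal.ofReal_of_nonpos h2, eq_comm, ENNReal.ofReal_eq_zero, Pi.neg_apply] at hr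
    linarith
  · rw [ENNReal.ofReal_of_nonpos (p := (-g) r) (neg_nonpos.2 h2), ENNReal.ofReal_eq_zero] at hr
    linarith

lemma uniq {f : (Fin k → ℝ) → ℂ} (hf : Integrable f)
    (h : ∀ᵐ b : Fin k → ℝ, ∫ r, f r * ee (-(r ⬝ᵥ b)) = 0) : ∀ᵐ r, f r = 0 := by
  have hc : Continuous fun b : Fin k → ℝ => ∫ r, f r * ee (-(r ⬝ᵥ b)) :=
    continuous_of_dominated (fun b => (int_tw hf b).1)
      (fun b => Eventually.of_forall fun r => by rw [norm_mul, norm_ee, mul_one]) hf.norm
      (Eventually.of_forall fun r => continuous_const.mul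
        (ee_cont.comp (continuous_const.dotProduct continuous_id).neg))
  have h1 : ∀ b : Fin k → ℝ, ∫ r, f r * ee (-(r ⬝ᵥ b)) = 0 :=
    congrFun ((hc.ae_eq_iff_eq volume continuous_zero).1 h)
  have hf' : Integrable fun r => (starRingEnd ℂ) (f r) :=
    Complex.conjCLE.toContinuousLinearMap.integrable_comp hf
  have h2 : ∀ b : Fin k → ℝ, ∫ r, (starRingEnd ℂ) (f r) * ee (-(r ⬝ᵥ b)) = 0 := fun b => by
    have := congrArg (starRingEnd ℂ) (h1 (-b))
    rw [← integral_conj, map_zero] at this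
    simpa only [map_mul, conj_ee, dotProduct_neg, neg_neg] using this
  have h3 := uniq_real hf.re fun b => by
    have : ∀ r, ((RCLike.re (f r) : ℝ) : ℂ) * ee (-(r ⬝ᵥ b)) =
        (f r * ee (-(r ⬝ᵥ b)) + (starRingEnd ℂ) (f r) * ee (-(r ⬝ᵥ b))) / 2 := fun r => by
      rw [RCLike.re_to_complex, Complex.re_eq_add_conj]; ring
    simp only [this]
    rw [integral_div, integral_add (int_tw hf b) (int_tw hf' b), h1, h2, add_zero, zero_div]
  have h4 := uniq_real hf.im fun b => by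
    have : ∀ r, ((RCLike.im (f r) : ℝ) : ℂ) * ee (-(r ⬝ᵥ b)) =
        (f r * ee (-(r ⬝ᵥ b)) - (starRingEnd ℂ) (f r) * ee (-(r ⬝ᵥ b))) / (2 * Complex.I) :=
      fun r => by rw [RCLike.im_to_complex, Complex.im_eq_sub_conj]; ring
    simp only [this]
    rw [integral_div, integral_sub (int_tw hf b) (int_tw hf' b), h1, h2, sub_zero, zero_div]
  filter_upwards [h3, h4] with r h5 h6
  exact Complex.ext h5 h6

end Torus

theorem torus : TorusStmt where
  parseval _ _ hH := Torus.parseval hH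
  shift _ _ hH hp := Torus.shift hH hp
  shiftL _ _ hH hp := Torus.shiftL hH hp
  glz _ _ hH hp γ := Torus.int_of_lint (Torus.mv_meas _) (fun _ h h' => Torus.glzL h h' γ) hH hp
  glzL _ _ hH hp := Torus.glzL hH hp
  tile _ _ hF := Torus.tile hF
  scaleIn _ _ hp I _ hH _ := Torus.scaleIn hp I hH
  scaleOut _ _ hp I _ hH h := Torus.scaleOut hp I hH h
  uniq _ _ hf := Torus.uniq hf

end Pool.Agent.Lib.MP_fa98d2_nt.D
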