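import Pool.Agent.Lib.MP_fa98d2_nt.D.Kaz

import Pool.Agent.Lib.MP_fa98d2_nt.D.Schur
import Pool.Agent.Lib.MP_fa98d2_nt.D.Euler
import Pool.Agent.Lib.MP_fa98d2_nt.D.Torus
import Pool.Agent.Lib.MP_fa98d2_nt.D.Arith

import Pool.Agent.Lib.MP_fa98d2_nt.D.Haar
import Pool.Agent.Lib.MP_fa98d2_nt.D.Par



import Pool.Agent.Lib.MP_fa98d2_nt.D.Orth


import Pool.Agent.Lib.MP_fa98d2_nt.D.Class

import Pool.Agent.Lib.MP_fa98d2_nt.D.CD
import Pool.Agent.Lib.MP_fa98d2_nt.D.Irr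

import Pool.Agent.Lib.MP_fa98d2_nt.D.Loc1

import Pool.Agent.Lib.MP_fa98d2_nt.D.Loc3

import Pool.Agent.Lib.MP_fa98d2_nt.D.Inj

import Pool.Agent.Lib.MP_fa98d2_nt.D.Mult

import Pool.Agent.Lib.MP_fa98d2_nt.D.Main


/-! Density theorem for cusp forms on PGL(n): assembly. -/

namespace Pool.Agent.Lib.MP_fa98d2_nt.D

theorem finalS : FinalStmt :=
  have hH := haar
  have hT := torus
  have hQ := quot hH hT
  have hC := calcS
  have hW := wh hT hC
  have hPar := par hT prim hQ hW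
  have hSh := shin hW (hw hT hW)
  have hR := rs prim hH hQ hW hPar
  have hL0 := loc0 hH hC
  have hV := cls hC hQ hW hL0
  have hD := cd lat hC hQ hW hPar hR hV
  have hIso := iso kappa schur lat hC hH hQ hW hR hSh hV hD
  have hI := irr hT hH hW
  have hL := loc3 hC hQ hW hR hV hL0 (loc1 kaz hC hW hV hL0) (loc2 hH hQ hW hV hI hL0)
  final (mainS schur hSh (orth hnf hQ) hIso hL (rb schur euler lat hQ hW hR hSh hV hD)
    (inj hH hQ hW hPar hL0) hW hQ) (mult hQ hW hV hL0 hIso hI gelf) (bridge hc hC hQ) hV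

end Pool.Agent.Lib.MP_fa98d2_nt.D
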