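import Pool.Agent.Lib.MP_fa98d2_nt.D.Calc

-- part Pool.Agent.Lib.MP_fa98d2_nt.D.Iso
section

/-!
The Kirillov model of the space of smooth vectors is isometric up to a positive finite factor.
-/

open MeasureTheory Filter Topology Matrix
open scoped ENNReal Real

noncomputable section

namespace Pool.Agent.Lib.MP_fa98d2_nt.D

namespace Iso

variable {N : ℕ}

/-! ### Elementary inequalities -/

lemma sq_le {δ : ℝ} (hδ : 0 < δ) (x y : ℂ) :
    ‖x + y‖ₑ ^ 2 ≤ ENNReal.ofReal (1 + δ) * ‖x‖ₑ ^ 2 + ENNReal.ofReal (1 + δ⁻¹) * ‖y‖ₑ ^ 2 := by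
  have e : ∀ z : ℂ, ‖z‖ₑ ^ 2 = ENNReal.ofReal (‖z‖ ^ 2) := fun z => by
    rw [← ofReal_norm, ENNReal.ofReal_pow (norm_nonneg _)]
  rw [e, e, e, ← ENNReal.ofReal_mul (by positivity), ← ENNReal.ofReal_mul (by positivity),
    ← ENNReal.ofReal_add (by positivity) (by positivity)]
  refine ENNReal.ofReal_le_ofReal ?_
  have h1 : ‖x + y‖ ^ 2 ≤ (‖x‖ + ‖y‖) ^ 2 := by gcongr; exact norm_add_le x y
  have h2 : 0 ≤ δ⁻¹ * (δ * ‖x‖ - ‖y‖) ^ 2 := by positivity
  have h3 : δ⁻¹ * (δ * ‖x‖ - ‖y‖) ^ 2 = δ * ‖x‖ ^ 2 - 2 * (‖x‖ * ‖y‖) + δ⁻¹ * ‖y‖ ^ 2 := by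
    field_simp
    ring
  nlinarith

section pw
variable {Z : Type} [MeasurableSpace Z] {μ : Measure Z} {d : Z → ℝ} {f : Z → ℝ≥0∞}

/-- integral against a power -/
def Ip (μ : Measure Z) (d : Z → ℝ) (f : Z → ℝ≥0∞) (s : ℝ) : ℝ≥0∞ :=
  ∫⁻ x, ENNReal.ofReal (d x ^ s) * f x ∂μ

lemma pw_mid {x a s b : ℝ} (hx : 0 < x) (h1 : a ≤ s) (h2 : s ≤ b) (y : ℝ≥0∞) :
    ENNReal.ofReal (x ^ s) * y ≤ ENNReal.ofReal (x ^ a) * y + ENNReal.ofReal (x ^ b) * y := by
  rcases le_total x 1 with h | h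
  · exact le_add_right (mul_le_mul_left
      (ENNReal.ofReal_le_ofReal (Real.rpow_le_rpow_of_exponent_ge hx h h1)) _)
  · exact le_add_left (mul_le_mul_left
      (ENNReal.ofReal_le_ofReal (Real.rpow_le_rpow_of_exponent_le h h2)) _)

lemma ip_meas (hd : Measurable d) (hf : Measurable f) (s : ℝ) :
    Measurable fun x => ENNReal.ofReal (d x ^ s) * f x :=
  (hd.pow_const s).ennreal_ofReal.mul hf

lemma ip_mid (hd : Measurable d) (hp : ∀ x, 0 < d x) (hf : Measurable f) {a s b : ℝ} (h1 : a ≤ s)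
    (h2 : s ≤ b) : Ip μ d f s ≤ Ip μ d f a + Ip μ d f b := by
  rw [Ip, Ip, Ip, ← lintegral_add_left (ip_meas hd hf a)]
  exact lintegral_mono fun x => pw_mid (hp x) h1 h2 _

lemma ip_zero (hd : Measurable d) (hp : ∀ x, 0 < d x) (hf : Measurable f) {a : ℝ}
    (h : Ip μ d f a = 0) (s : ℝ) : Ip μ d f s = 0 := by
  rw [Ip, lintegral_eq_zero_iff (ip_meas hd hf _)] at h ⊢
  filter_upwards [h] with x hx
  have : f x = 0 := (mul_eq_zero.1 hx).resolve_left
    (ENNReal.ofReal_pos.2 (Real.rpow_pos_of_pos (hp x) a)).ne'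
  simp [this]

lemma ip_tend (hd : Measurable d) (hp : ∀ x, 0 < d x) (hf : Measurable f) (hf' : ∀ x, f x ≠ ⊤)
    (h3 : Ip μ d f 3 ≠ ⊤) : Tendsto (Ip μ d f) (𝓝[>] 1) (𝓝 (Ip μ d f 1)) := by
  have hl : ∀ x, Tendsto (fun s : ℝ => ENNReal.ofReal (d x ^ s) * f x) (𝓝[>] 1)
      (𝓝 (ENNReal.ofReal (d x ^ (1 : ℝ)) * f x)) := fun x =>
    ENNReal.Tendsto.mul_const (ENNReal.tendsto_ofReal
      (((Real.continuousAt_const_rpow (hp x).ne').tendsto).mono_left nhdsWithin_le_nhds))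
      (Or.inr (hf' x))
  by_cases h1 : Ip μ d f 1 = ⊤
  · refine tendsto_of_le_liminf_of_limsup_le ?_ (h1 ▸ le_top)
    refine le_trans (le_of_eq ?_) (lintegral_liminf_le fun s => ip_meas hd hf s)
    exact lintegral_congr fun x => (hl x).liminf_eq.symm
  · refine tendsto_lintegral_filter_of_dominated_convergence
      (fun x => ENNReal.ofReal (d x ^ (1 : ℝ)) * f x + ENNReal.ofReal (d x ^ (3 : ℝ)) * f x)
      (Eventually.of_forall fun s => ip_meas hd hf s) ?_ ?_ (ae_of_all _ hl)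
    · filter_upwards [Ioo_mem_nhdsGT (show (1 : ℝ) < 3 by norm_num)] with s hs
      exact ae_of_all _ fun x => pw_mid (hp x) hs.1.le hs.2.le _
    · rw [lintegral_add_left (ip_meas hd hf _)]
      exact ENNReal.add_ne_top.2 ⟨h1, h3⟩

end pw

/-! ### The Kirillov norm -/

/-- weighted norm of the first coefficient -/
def Q (s : ℝ) (w : G (N + 1) → ℂ) : ℝ≥0∞ := KK s (W1 w)

lemma kk_meas (s : ℝ) {W : G (N + 1) → ℂ} (hW : Continuous W) : Measurable fun x : X N =>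
    ENNReal.ofReal (dt (sg N x) ^ (s - 1)) * ‖W (up (sg N x))‖ₑ ^ 2 :=
  ip_meas (measurable_dt.comp (measurable_sg N))
    (((hW.comp continuous_up).measurable.comp (measurable_sg N)).enorm.pow_const 2) _

lemma Q_add (hW : WhStmt) {δ : ℝ} (hδ : 0 < δ) (s : ℝ) {v w : G (N + 1) → ℂ} (hv : Continuous v)
    (hw : Continuous w) :
    Q s (v + w) ≤ ENNReal.ofReal (1 + δ) * Q s v + ENNReal.ofReal (1 + δ⁻¹) * Q s w := by
  have h1 := kk_meas s (W := W1 v) (hW.cont N (fun _ => 1) v hv)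
  rw [Q, Q, Q, W1, hW.add N _ v w hv hw, KK, KK, KK, II, II, II,
    ← lintegral_const_mul' _ _ ENNReal.ofReal_ne_top,
    ← lintegral_const_mul' _ _ ENNReal.ofReal_ne_top, ← lintegral_add_left (h1.const_mul _)]
  refine lintegral_mono fun x => ?_
  refine (mul_le_mul_right (sq_le hδ _ _) _).trans (le_of_eq ?_)
  simp only [W1]
  ring

lemma Q_add2 (hW : WhStmt) (s : ℝ) {v w : G (N + 1) → ℂ} (hv : Continuous v)
    (hw : Continuous w) : Q s (v + w) ≤ 2 * Q s v + 2 * Q s w := by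
  have := Q_add hW one_pos s hv hw
  rwa [inv_one, one_add_one_eq_two, ENNReal.ofReal_ofNat] at this

lemma Q_smul (hW : WhStmt) (s : ℝ) (c : ℂ) (w : G (N + 1) → ℂ) :
    Q s (c • w) = ‖c‖ₑ ^ 2 * Q s w := by
  rw [Q, Q, W1, hW.smul, KK, KK, II, II, ← lintegral_const_mul' _ _ (by simp)]
  refine lintegral_congr fun x => ?_
  simp only [W1, Pi.smul_apply, enorm_smul]
  ring

lemma Q_rt (s : ℝ) (a : G (N + 1)) (w : G (N + 1) → ℂ) : Q s (rt a w) = KK s (rt a (W1 w)) := by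
  rw [Q, W1, Wf_rt, W1]

lemma Q_lsc (hW : WhStmt) {w : G (N + 1) → ℂ} (hw : Continuous w) {t : ℝ≥0∞} (ht : t < Q 1 w) :
    ∀ᶠ a in 𝓝 (1 : G (N + 1)), t < Q 1 (rt a w) := by
  have hc := hW.cont N (fun _ => 1) w hw
  refine eventually_lt_of_lt_liminf (ht.trans_le ?_)
  simp only [Q_rt]
  refine le_trans (le_of_eq ?_) (lintegral_liminf_le fun a =>
    kk_meas 1 (hc.comp (continuous_mul_const a)))
  refine lintegral_congr fun x => (Tendsto.liminf_eq ?_).symm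
  refine ENNReal.Tendsto.const_mul ?_ (Or.inr ENNReal.ofReal_ne_top)
  have : Continuous fun a : G (N + 1) => ‖Wf (fun _ => 1) w (up (sg N x) * a)‖ₑ ^ 2 :=
    (ENNReal.continuous_pow 2).comp (hc.comp (continuous_const_mul _)).enorm
  simpa [W1, rt] using this.tendsto 1

/-! ### Negligible families -/

variable {α : ℕ → Fin (N + 1) → ℂ}

/-- families that are small near the identity compared with finitely many translates -/
def Neg (α : ℕ → Fin (N + 1) → ℂ) (D : G (N + 1) → G (N + 1) → ℂ) : Prop :=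
  (∀ a, Continuous (D a)) ∧ ∃ (ι : Type) (_ : Fintype ι) (u : ι → G (N + 1) → ℂ),
    (∀ i, InV α (u i)) ∧ ∀ η : ℝ≥0∞, η ≠ 0 → ∀ᶠ a in 𝓝 (1 : G (N + 1)), ∀ s,
      Q s (D a) ≤ η * ∑ i, Q s (rt a (u i))

lemma neg_zero (hW : WhStmt) : Neg α fun _ => 0 :=
  ⟨fun _ => continuous_const, Empty, inferInstance, Empty.elim, fun i => i.elim,
    fun η _ => Eventually.of_forall fun a s => by
      have := Q_smul hW s 0 (0 : G (N + 1) → ℂ)
      simp only [smul_zero, enorm_zero, ne_eq, OfNat.ofNat_ne_zero, not_false_eq_true, zero_pow,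
        zero_mul] at this
      simp [this]⟩

lemma Neg.add (hW : WhStmt) {D D' : G (N + 1) → G (N + 1) → ℂ} (h : Neg α D) (h' : Neg α D') :
    Neg α fun a => D a + D' a := by
  obtain ⟨c, ι, _, u, h1, h2⟩ := h
  obtain ⟨c', ι', _, u', h1', h2'⟩ := h'
  refine ⟨fun a => (c a).add (c' a), ι ⊕ ι', inferInstance, Sum.elim u u',
    fun i => by cases i <;> simp [h1, h1'], fun η hη => ?_⟩
  have h0 : η / 2 ≠ 0 := ENNReal.div_ne_zero.2 ⟨hη, by simp⟩
  filter_upwards [h2 _ h0, h2' _ h0] with a ha ha' s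
  refine (Q_add2 hW s (c a) (c' a)).trans ?_
  have e : 2 * (η / 2) = η := ENNReal.mul_div_cancel (by simp) (by simp)
  rw [Fintype.sum_sum_type, mul_add]
  refine add_le_add ((mul_le_mul_right (ha s) _).trans (le_of_eq ?_))
    ((mul_le_mul_right (ha' s) _).trans (le_of_eq ?_)) <;> rw [← mul_assoc, e] <;> rfl

lemma neg_basic (hW : WhStmt) {q : G (N + 1) → ℂ} (hq : Continuous q) (h1 : q 1 = 0)
    {u : G (N + 1) → ℂ} (hu : InV α u) : Neg α fun a => q a • rt a u := by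
  refine ⟨fun a => (hu.aut.cont.comp (continuous_mul_const a)).const_smul _, Unit, inferInstance,
    fun _ => u, fun _ => hu, fun η hη => ?_⟩
  have : Tendsto (fun a => ‖q a‖ₑ ^ 2) (𝓝 1) (𝓝 0) := by
    simpa [h1, Function.comp_def] using ((ENNReal.continuous_pow 2).comp hq.enorm).tendsto 1
  filter_upwards [ENNReal.tendsto_nhds_zero.1 this η (pos_iff_ne_zero.2 hη)] with a ha s
  rw [Q_smul hW, Fintype.sum_unique]
  exact mul_le_mul_left ha _

lemma neg_sum (hW : WhStmt) {ι : Type} (S : Finset ι) {D : ι → G (N + 1) → G (N + 1) → ℂ}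
    (h : ∀ i ∈ S, Neg α (D i)) : Neg α fun a => ∑ i ∈ S, D i a := by
  classical
  induction S using Finset.induction_on with
  | empty => simpa using neg_zero hW
  | insert i S hi ih =>
    simp only [Finset.sum_insert hi]
    exact (h i (by simp)).add hW (ih fun j hj => h j (by simp [hj]))

lemma inV_Rw (hV : ClassStmt) {w : G (N + 1) → ℂ} (hw : InV α w) (l : List _) :
    InV α (Rw l w) := by
  induction l with
  | nil => exact hw
  | cons x l ih => exact hV.rdV _ α _ ih _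

lemma neg_word (hC : CalcStmt) (hW : WhStmt) (hV : ClassStmt) {w : G (N + 1) → ℂ} (hw : InV α w)
    (c : ℂ) (l : List _) : Neg α fun a => c • (rt a (Rw l w) - Rw l (rt a w)) := by
  obtain ⟨S, q, h1, -, h2, h3, h4⟩ := hC.adj (N + 1) l
  have := neg_sum hW S (D := fun l' a => (c * ((if l' = l then 1 else 0) - q l' a)) •
    rt a (Rw l' w)) fun l' _ => neg_basic hW (by fun_prop) (by simp [h3]) (inV_Rw hV hw l')
  refine (congrArg (Neg α) (funext fun a => ?_)).mp this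
  rw [h4 w hw.sm a]
  ext g
  simp only [rt, Finset.sum_apply, Pi.smul_apply, Pi.sub_apply, smul_eq_mul, mul_assoc, sub_mul,
    ← Finset.mul_sum, Finset.sum_sub_distrib, ite_mul, one_mul, zero_mul, Finset.sum_ite_eq', h1,
    if_true]

/-! ### The element `κ` -/

lemma whF (hC : CalcStmt) (hW : WhStmt) {w : G (N + 1) → ℂ} (hw : InV α w) {i j : Fin (N + 1)}
    (hij : i < j) : W1 (Rd (em i j) w) 1 =
      (if j.val = i.val + 1 then 2 * π * Complex.I else 0) * W1 w 1 := by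
  have h1 := hW.ldU N _ _ (hW.eqv N (fun _ => 1) w hw.aut.cont fun γ _ => hw.aut.zinv γ) i j hij 1
  rw [hC.ld_rd, (hW.sm N _ w hw.sm).2] at h1
  simp only [inv_one, Units.val_one, Matrix.one_mul, Matrix.mul_one] at h1
  rw [W1, h1, W1]
  congr 1
  split_ifs with h
  · rw [Finset.sum_eq_single ⟨i.val, by omega⟩]
    · rw [if_pos ⟨rfl, Fin.ext h⟩]
      simp [zv]
    · intro l _ hl
      exact if_neg fun e => hl (Fin.ext (by simp [e.1]))
    · simp
  · exact Finset.sum_eq_zero fun l _ => if_neg fun e => h (by rw [e.1, e.2]; simp)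

lemma rt_rd (hC : CalcStmt) {w : G (N + 1) → ℂ} (g : G (N + 1)) (hw : Sm (rt g w))
    (a b : Fin (N + 1)) : rt g (Rd (em a b) w) =
      ∑ c, ∑ d, ((g.val c a : ℂ) * ((g⁻¹).val b d : ℂ)) • Rd (em c d) (rt g w) := by
  have h1 := hC.rd_rt _ (g.val * em a b * (g⁻¹).val) g w
  have e : (g⁻¹).val * (g.val * em a b * (g⁻¹).val) * g.val = em a b := by
    rw [← Matrix.mul_assoc, ← Matrix.mul_assoc, ← Units.val_mul, inv_mul_cancel, Matrix.mul_assoc,
      ← Units.val_mul, inv_mul_cancel]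
    simp
  rw [e] at h1
  rw [← h1, hC.rd_lin _ _ _ hw]
  refine Finset.sum_congr rfl fun c _ => Finset.sum_congr rfl fun d _ => ?_
  congr 1
  rw [← Complex.ofReal_mul]
  congr 1
  simp [em, Matrix.mul_apply, Matrix.single_apply, ite_and]

lemma kap (hK : KappaStmt) (hC : CalcStmt) (hW : WhStmt) (hV : ClassStmt)
    (α : ℕ → Fin (N + 1) → ℂ) : ∃ C : ℝ≥0∞, C ≠ ⊤ ∧ ∀ w, InV α w →
      ∃ v D, InV α v ∧ Neg α D ∧ (v = 0 → W1 w 1 = 0) ∧
        ∀ a s, Q s (rt a v) ≤ C * Q (s + 2) (rt a w) + 2 * Q s (D a) := by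
  obtain ⟨V, hm⟩ := hV.sub (N + 1) α
  obtain ⟨e, hc, he, hew, -⟩ := hC.mod (N + 1) V (fun w hw => ((hm w).1 hw).sm)
    fun a b w hw => (hm _).2 (hV.rdV _ α w ((hm w).1 hw) _)
  obtain ⟨κ, ε, hε, hκ⟩ := hK N
  obtain ⟨h1, h2⟩ := hκ V e hc
  have iv : ∀ w : V, InV α w := fun w => (hm _).1 w.2
  let L : V →ₗ[ℂ] ℂ :=
    { toFun := fun w => W1 w.1 1
      map_add' := fun v w => congrFun (hW.add N _ v w (iv v).aut.cont (iv w).aut.cont) 1
      map_smul' := fun c w => congrFun (hW.smul N _ c w) 1 }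
  let ρ : G (N + 1) → Module.End ℂ V := fun g =>
    { toFun := fun w => ⟨rt g w, (hm _).2 (hV.rtV _ α w (iv w) g)⟩
      map_add' := fun _ _ => rfl
      map_smul' := fun _ _ => rfl }
  have hL := h1 (2 * π * Complex.I) L fun i j hij => LinearMap.ext fun w => by
    have := whF hC hW (iv w) hij
    rw [← he] at this
    exact this
  set z := ε * (2 * π * Complex.I) ^ (N + 1).choose 2 with hz
  have hz0 : z ≠ 0 := mul_ne_zero (fun h => by simp [h] at hε)
    (pow_ne_zero _ Complex.two_pi_I_ne_zero)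
  have hL' : ∀ w : V, W1 (ecomb e κ w).1 1 = z * W1 w.1 1 := fun w => LinearMap.congr_fun hL w
  have ev : ∀ (w : G (N + 1) → ℂ) g, W1 (rt g w) 1 = W1 w g := fun w g => by
    rw [W1, Wf_rt, rt, one_mul, W1]
  have key : ∀ (w : V) (h : G N),
      W1 (ecomb e κ w).1 (up h) = (h.val.det : ℂ) * (z * W1 w.1 (up h)) := by
    intro w h
    have h3 := h2 (ρ (up h)) ((up h).val.map Complex.ofRealHom) ((up h)⁻¹.val.map Complex.ofRealHom)
      (by rw [← Matrix.map_mul, ← Units.val_mul, mul_inv_cancel]; simp)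
      (fun j => by refine Fin.lastCases ?_ (fun j => ?_) j <;> simp [up, Fin.castSucc_ne_last])
      (fun j => by refine Fin.lastCases ?_ (fun j => ?_) j <;> simp [up, Fin.castSucc_ne_last])
      fun a b => LinearMap.ext fun w => Subtype.ext (by
        have := rt_rd hC (up h) (iv (ρ (up h) w)).sm a b
        rw [← he] at this
        refine this.trans ?_
        simp only [Module.End.mul_apply, LinearMap.sum_apply, LinearMap.smul_apply,
          Submodule.coe_sum, Submodule.coe_smul, he]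
        rfl)
    have h4 : W1 (rt (up h) (ecomb e κ w).1) 1 = _ * W1 (ecomb e κ (ρ (up h) w)).1 1 :=
      (congrArg L (LinearMap.congr_fun h3 w)).trans (L.map_smul _ _)
    rw [ev, hL'] at h4
    rw [h4, ← ev w.1 (up h)]
    congr 1
    rw [← RingHom.mapMatrix_apply, ← RingHom.map_det]
    simp [up, det_blk]
  have hq : ∀ (w : V) s, Q s (ecomb e κ w).1 = ‖z‖ₑ ^ 2 * Q (s + 2) w.1 := fun w s => by
    rw [Q, Q, KK, KK, II, II, ← lintegral_const_mul' _ _ (by simp)]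
    refine lintegral_congr fun x => ?_
    have hp := dt_pos (sg N x)
    have e1 : ‖((sg N x).val.det : ℂ)‖ₑ = ENNReal.ofReal (dt (sg N x)) := by
      rw [← ofReal_norm, Complex.norm_real]
      rfl
    rw [key, enorm_mul, enorm_mul, e1, show s + 2 - 1 = s - 1 + (2 : ℕ) by push_cast; ring,
      Real.rpow_add_natCast hp.ne', ENNReal.ofReal_mul (by positivity), ENNReal.ofReal_pow hp.le]
    ring
  have hn : ∀ (w : V) (κ' : List _),
      Neg α fun a => (ρ a (ecomb e κ' w) - ecomb e κ' (ρ a w)).1 := fun w κ' => by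
    induction κ' with
    | nil => simpa [ecomb] using neg_zero hW
    | cons x κ' ih =>
      refine (congrArg (Neg α) (funext fun a => ?_)).mp
        ((neg_word hC hW hV (iv w) x.1 x.2).add hW ih)
      have e1 : ecomb e (x :: κ') = x.1 • ew e x.2 + ecomb e κ' := by simp [ecomb]
      have e2 : rt a (Rw x.2 w.1) = (ρ a (ew e x.2 w)).1 := by rw [← hew]; rfl
      have e3 : Rw x.2 (rt a w.1) = (ew e x.2 (ρ a w)).1 := (hew x.2 (ρ a w)).symm
      rw [e1, e2, e3, ← Submodule.coe_sub, ← Submodule.coe_smul, ← Submodule.coe_add]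
      congr 1
      simp only [LinearMap.add_apply, LinearMap.smul_apply, map_add, map_smul, smul_sub]
      abel
  refine ⟨2 * ‖z‖ₑ ^ 2, by simp [ENNReal.mul_eq_top], fun w hw => ?_⟩
  let w' : V := ⟨w, (hm w).2 hw⟩
  refine ⟨(ecomb e κ w').1, _, iv _, hn w' κ, fun h => ?_, fun a s => ?_⟩
  · have h3 := hL' w'
    have h4 := congrFun (hW.smul N (fun _ => 1) 0 (0 : G (N + 1) → ℂ)) 1
    rw [smul_zero, zero_smul] at h4
    rw [h, W1, h4] at h3
    exact (mul_eq_zero.1 h3.symm).resolve_left hz0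
  · have e1 : rt a (ecomb e κ w').1 = (ecomb e κ (ρ a w')).1 +
        (ρ a (ecomb e κ w') - ecomb e κ (ρ a w')).1 := by
      rw [← Submodule.coe_add, add_sub_cancel]
      rfl
    rw [e1, mul_assoc]
    refine (Q_add2 hW s (iv _).aut.cont (iv _).aut.cont).trans (le_of_eq ?_)
    rw [hq]
    rfl

/-! ### Test functions -/

/-- base point -/
def r0 (N : ℕ) : Fin (N + 1) → ℝ := Pi.single (Fin.last N) (3 / 2)

/-- admissible test functions -/
structure Adm (Φ : (Fin (N + 1) → ℝ) → ℝ) : Prop where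
  cont : Continuous Φ
  cpt : HasCompactSupport Φ
  nn : ∀ r, 0 ≤ Φ r
  le1 : ∀ r, Φ r ≤ 1
  cn : ∀ r, Φ r ≠ 0 →
    1 ≤ |r (Fin.last N)| ∧ |r (Fin.last N)| ≤ 2 ∧ ∀ j, |r j| ≤ |r (Fin.last N)|
  pos : 0 < ∫ r, Φ r

lemma exists_adm {U : Set (G (N + 1))} (hU : U ∈ 𝓝 (1 : G (N + 1))) :
    ∃ Φ, Adm Φ ∧ ∀ r, Φ r ≠ 0 → sr r * (sr (r0 N))⁻¹ ∈ U := by
  have h0 : r0 N (Fin.last N) = 3 / 2 := by simp [r0]
  have h1 : ContinuousAt sr (r0 N) := continuousOn_sr.continuousAt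
    ((isOpen_ne_fun (continuous_apply _) continuous_const).mem_nhds (by simp [h0]))
  have h2 : (fun r => sr r * (sr (r0 N))⁻¹) ⁻¹' U ∈ 𝓝 (r0 N) :=
    (h1.mul continuousAt_const).preimage_mem_nhds (by simpa using hU)
  obtain ⟨f, f1, f2, f3, f4, f5⟩ := exists_contDiff_tsupport_subset (n := 0)
    (inter_mem h2 (Metric.ball_mem_nhds (r0 N) (show (0 : ℝ) < 1 / 2 by norm_num)))
  have g1 : ∀ r, 0 ≤ f r := fun r => (f4 ⟨r, rfl⟩).1
  refine ⟨f, ⟨f3.continuous, f2, g1, fun r => (f4 ⟨r, rfl⟩).2, fun r hr => ?_,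
    f3.continuous.integral_pos_of_hasCompactSupport_nonneg_nonzero f2 g1 (f5 ▸ one_ne_zero)⟩,
    fun r hr => (f1 (subset_tsupport _ hr)).1⟩
  have h3 : ∀ j, |r j - r0 N j| < 1 / 2 := fun j =>
    (dist_le_pi_dist r (r0 N) j).trans_lt (f1 (subset_tsupport _ hr)).2
  have h4 := abs_lt.1 (h3 (Fin.last N))
  rw [h0] at h4
  have h5 : |r (Fin.last N)| = r (Fin.last N) := abs_of_pos (by linarith)
  refine ⟨by linarith, by linarith, fun j => ?_⟩
  by_cases hj : j = Fin.last N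
  · rw [hj]
  · have := h3 j
    rw [r0, Pi.single_eq_of_ne hj, sub_zero] at this
    linarith

variable {Φ : (Fin (N + 1) → ℝ) → ℝ}

lemma Adm.meas (h : Adm Φ) : Measurable fun r => ENNReal.ofReal (Φ r) :=
  h.cont.measurable.ennreal_ofReal

lemma Adm.le_cone (h : Adm Φ) (r : _) : ENNReal.ofReal (Φ r) ≤ cone (Fin.last N) r := by
  by_cases hr : Φ r = 0
  · simp [hr]
  · rw [cone, if_pos (h.cn r hr)]
    exact ENNReal.ofReal_le_one.2 (h.le1 r)

lemma Adm.far (h : Adm Φ) (r : _) (hr : 4 < ‖r‖) : ENNReal.ofReal (Φ r) = 0 := by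
  by_cases h0 : Φ r = 0
  · simp [h0]
  · have := (pi_norm_le_iff_of_nonneg (x := r) zero_le_two).2 fun j =>
      ((h.cn r h0).2.2 j).trans (h.cn r h0).2.1
    linarith

lemma Adm.lint (h : Adm Φ) : ∫⁻ r, ENNReal.ofReal (Φ r) = ENNReal.ofReal (∫ r, Φ r) :=
  (ofReal_integral_eq_lintegral_ofReal (h.cont.integrable_of_hasCompactSupport h.cpt)
    (ae_of_all _ h.nn)).symm

/-- the local integral around the base point -/
def Av (s : ℝ) (Φ : (Fin (N + 1) → ℝ) → ℝ) (w : G (N + 1) → ℂ) : ℝ≥0∞ :=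
  Iv s (fun r => ENNReal.ofReal (Φ r)) (W1 (rt (sr (r0 N))⁻¹ w))

lemma Av_eq (hW : WhStmt) (hR : RSStmt) (h : Adm Φ) (s : ℝ) {w : G (N + 1) → ℂ}
    (hw : Continuous w) : Av s Φ w = ∫⁻ r, ENNReal.ofReal (Φ r) *
      ENNReal.ofReal (|r (Fin.last N)| ^ (s - 1)) * Q s (rt (sr r * (sr (r0 N))⁻¹) w) := by
  rw [Av, hR.ik N s _ h.meas (W1 (rt _ w)) (hW.cont N _ _ (hw.comp (continuous_mul_const _)))]
  refine lintegral_congr fun r => ?_
  rw [Q_rt, W1, Wf_rt]
  congr 2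
  ext g
  simp only [rt, W1, mul_assoc]

lemma Av_meas (hW : WhStmt) (hR : RSStmt) (h : Adm Φ) (s : ℝ) {w : G (N + 1) → ℂ}
    (hw : Continuous w) : Measurable fun r => ENNReal.ofReal (Φ r) *
      ENNReal.ofReal (|r (Fin.last N)| ^ (s - 1)) * Q s (rt (sr r * (sr (r0 N))⁻¹) w) := by
  simp only [Q_rt]
  exact (h.meas.mul ((measurable_pi_apply _).abs.pow_const _).ennreal_ofReal).mul
    ((hR.kkm N s _ (hW.cont N _ w hw)).comp (measurable_sr.mul_const _))

lemma Av_ip (Φ : (Fin (N + 1) → ℝ) → ℝ) (w : G (N + 1) → ℂ) : (fun s => Av s Φ w) =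
    Ip (mX (N + 1)) (fun x => dt (sg _ x)) fun x => ENNReal.ofReal (Φ (lr (sg _ x))) *
      ‖W1 (rt (sr (r0 N))⁻¹ w) (sg _ x)‖ₑ ^ 2 := by
  ext s
  simp only [Av, Iv, II, Ip, mul_assoc]

lemma ip_f (hW : WhStmt) (h : Adm Φ) {w : G (N + 1) → ℂ} (hw : Continuous w) :
    Measurable fun x : X (N + 1) => ENNReal.ofReal (Φ (lr (sg _ x))) *
      ‖W1 (rt (sr (r0 N))⁻¹ w) (sg _ x)‖ₑ ^ 2 :=
  (h.meas.comp (continuous_lr.measurable.comp (measurable_sg _))).mul
    (((hW.cont N _ _ (hw.comp (continuous_mul_const _))).measurable.comp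
      (measurable_sg _)).enorm.pow_const 2)

/-! ### The residue -/

/-- the facts used in the last step -/
structure Res (α : ℕ → Fin (N + 1) → ℂ) (Gs : ℝ → ℝ≥0∞) (s2 : ℝ) : Prop where
  ge : 4 ≤ s2
  lim : ∀ Φ, Adm Φ → ∀ w, InV α w → Tendsto (fun s => Gs s * Av s Φ w) (𝓝[>] 1)
    (𝓝 (ENNReal.ofReal ((∫ r, Φ r) / Real.log 2) * N2 w))
  f3 : ∀ Φ, Adm Φ → ∀ w, InV α w → Av 3 Φ w ≠ ⊤
  f2 : ∀ Φ, Adm Φ → ∀ w, InV α w → Av s2 Φ w ≠ ⊤

lemma res (hS : SchurStmt) (hL : LatStmt) (hR : RSStmt) (hSh : ShinStmt) (hV : ClassStmt)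
    (hD : CDStmt) (hN : 1 ≤ N) (hα : Pr1 α) : ∃ Gs s2, Res α Gs s2 := by
  have h0 : ∀ p : ℕ, ∃ S, p.Prime → IsSch (α p) S := fun p => by
    by_cases hp : p.Prime
    · exact (hS.isSch _ (hα p hp)).imp fun _ h _ => h
    · exact ⟨0, fun h => absurd h hp⟩
  choose S hS' using h0
  set c : (Fin N → ℕ+) → ℂ := mulf fun p e => S p (lam e) with hc
  have jj : ∀ s Ψ, Measurable Ψ → ∀ w, InV α w →
      JJ s Ψ w = zet N s * (DS c s * Iv s Ψ (W1 w)) := fun s Ψ hΨ w hw => by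
    rw [hR.unf N s Ψ hΨ w hw.aut hw.cusp,
      hR.dser N s Ψ hΨ w hw.aut c (hSh N α S hS' w hw.aut hw.hk)]
  have le : ∀ s, 1 ≤ s → ∀ Ψ, Measurable Ψ → ∀ w, InV α w → Iv s Ψ (W1 w) ≤ JJ s Ψ w :=
    fun s hs Ψ hΨ w hw => by
      have h1 : 1 ≤ DS c s := le_trans (by simp [hc, mulf, dtm]) (ENNReal.le_tsum 1)
      rw [jj s Ψ hΨ w hw]
      exact (le_mul_of_one_le_left' h1).trans (le_mul_of_one_le_left' (hR.zeta N s hN hs).1)
  obtain ⟨s2, M, C, h4, hC, hb⟩ := hD N hN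
  obtain ⟨C', hC', hd⟩ := hL.dom N s2 (by linarith)
  have fin : ∀ w, InV α w →
      ∫⁻ g, ‖w g‖ₑ ^ 2 * (C' * ∑ i, Eis (cone i) s2 g.val) ∂nu (N + 1) ≠ ⊤ := fun w hw => by
    simp only [mul_left_comm _ C']
    rw [lintegral_const_mul' _ _ hC']
    exact ENNReal.mul_ne_top hC' (ne_top_of_le_ne_top
      (ENNReal.mul_ne_top hC (hV.sobFin _ α w hw M).ne) (hb w hw.sm hw.aut hw.cusp))
  have iv : ∀ w, InV α w → InV α (rt (sr (r0 N))⁻¹ w) := fun w hw => hV.rtV _ α w hw _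
  refine ⟨fun s => ENNReal.ofReal (s - 1) * (zet N s * DS c s), s2, h4, fun Φ h w hw => ?_,
    fun Φ h w hw => ?_, fun Φ h w hw => ?_⟩
  · have hw' := iv w hw
    rw [← hV.n2rt _ w hw.aut (sr (r0 N))⁻¹]
    simp only [Av]
    generalize rt (sr (r0 N))⁻¹ w = v at hw'
    have hm : Measurable fun g => ‖v g‖ₑ ^ 2 := hw'.aut.cont.measurable.enorm.pow_const 2
    have h1 := tendsto_lintegral_filter_of_dominated_convergence (μ := nu (N + 1)) (l := 𝓝[>] 1)
      (F := fun s g => ‖v g‖ₑ ^ 2 *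
        (ENNReal.ofReal (s - 1) * Eis (fun r => ENNReal.ofReal (Φ r)) s g.val)) _
      (Eventually.of_forall fun s => hm.mul ((hR.eism N s _ h.meas).const_mul _))
      (by
        filter_upwards [Ioo_mem_nhdsGT (show (1 : ℝ) < 3 by norm_num)] with s hs
        exact ae_of_all _ fun g => mul_le_mul_right (hd _
          (fun r => ENNReal.ofReal_le_one.2 (h.le1 r)) h.far s hs.1 hs.2.le _ (det_ne g)) _)
      (fin v hw') (ae_of_all _ fun g => ENNReal.Tendsto.const_mul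
        (hL.lim N Φ h.cont h.cpt h.nn _ (det_ne g)) (Or.inr (by simp)))
    have h2 := ENNReal.Tendsto.const_mul (a := ENNReal.ofReal ((N + 1) / Real.log 2)) h1
      (Or.inr ENNReal.ofReal_ne_top)
    have hl : 0 < Real.log 2 := Real.log_pos one_lt_two
    rw [lintegral_mul_const _ hm, mul_comm _ (ENNReal.ofReal ((∫ r, Φ r) / _)), ← mul_assoc,
      ← ENNReal.ofReal_mul (by positivity),
      show ((N : ℝ) + 1) / Real.log 2 * ((∫ r, Φ r) / (N + 1)) = (∫ r, Φ r) / Real.log 2 by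
        field_simp] at h2
    refine h2.congr fun s => ?_
    simp only [mul_left_comm _ (ENNReal.ofReal (s - 1))]
    rw [lintegral_const_mul' _ _ ENNReal.ofReal_ne_top, mul_left_comm,
      ← hR.eis N s _ h.meas v hw'.aut, jj s _ h.meas v hw', mul_assoc, mul_assoc]
  · refine ne_top_of_le_ne_top ?_ (le 3 (by norm_num) _ h.meas _ (iv w hw))
    rw [hR.eis N 3 _ h.meas _ (iv w hw).aut]
    refine ENNReal.mul_ne_top ENNReal.ofReal_ne_top (ne_top_of_le_ne_top (fin _ (iv w hw))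
      (lintegral_mono fun g => mul_le_mul_right (le_trans ?_ (hd _
        (fun r => ENNReal.ofReal_le_one.2 (h.le1 r)) h.far 3 (by norm_num) le_rfl _ (det_ne g))) _))
    exact le_mul_of_one_le_left' (ENNReal.one_le_ofReal.2 (by norm_num))
  · have h1 : Av s2 Φ w ≤ Iv s2 (cone (Fin.last N)) (W1 (rt (sr (r0 N))⁻¹ w)) :=
      lintegral_mono fun x => mul_le_mul_left (mul_le_mul_right (h.le_cone _) _) _
    refine ne_top_of_le_ne_top ?_ (h1.trans (le s2 (by linarith) _ (hR.conem N _) _ (iv w hw)))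
    rw [hR.eis N s2 _ (hR.conem N _) _ (iv w hw).aut]
    refine ENNReal.mul_ne_top ENNReal.ofReal_ne_top (ne_top_of_le_ne_top
      (ENNReal.mul_ne_top hC (hV.sobFin _ α _ (iv w hw) M).ne) (le_trans (lintegral_mono fun g =>
        mul_le_mul_right ?_ _) (hb _ (iv w hw).sm (iv w hw).aut (iv w hw).cusp)))
    exact Finset.single_le_sum (f := fun i => Eis (cone i) s2 g.val) (fun _ _ => zero_le)
      (Finset.mem_univ _)

variable {Gs : ℝ → ℝ≥0∞} {s2 : ℝ}

lemma Adm.c_ne (h : Adm Φ) : ENNReal.ofReal ((∫ r, Φ r) / Real.log 2) ≠ 0 :=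
  (ENNReal.ofReal_pos.2 (div_pos h.pos (Real.log_pos one_lt_two))).ne'

lemma Res.zero (hQ : QuotStmt) (hr : Res α Gs s2) (h : Adm Φ) {w : G (N + 1) → ℂ} (hw : InV α w)
    (h0 : ∀ s, Av s Φ w = 0) : w = 0 := by
  have h1 := hr.lim Φ h w hw
  simp only [h0, mul_zero] at h1
  exact hQ.pos _ w hw.aut
    ((mul_eq_zero.1 (tendsto_nhds_unique h1 tendsto_const_nhds)).resolve_left h.c_ne)

lemma Res.tend (hW : WhStmt) (hr : Res α Gs s2) (h : Adm Φ) {w : G (N + 1) → ℂ} (hw : InV α w) :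
    Tendsto (fun s => Av s Φ w) (𝓝[>] 1) (𝓝 (Av 1 Φ w)) := by
  have h1 := hr.f3 Φ h w hw
  have e := Av_ip Φ w
  rw [congrFun e] at h1 ⊢
  rw [e]
  exact ip_tend (measurable_dt.comp (measurable_sg _)) (fun _ => dt_pos _) (ip_f hW h hw.aut.cont)
    (fun x => ENNReal.mul_ne_top ENNReal.ofReal_ne_top (by simp)) h1

/-- The normalised Dirichlet series does not tend to zero. -/
lemma Res.low (hK : KappaStmt) (hC : CalcStmt) (hQ : QuotStmt) (hW : WhStmt) (hR : RSStmt)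
    (hV : ClassStmt) (hr : Res α Gs s2) {u : Filter ℝ} [u.NeBot] (hu : u ≤ 𝓝[>] 1)
    (h0 : Tendsto Gs u (𝓝 0)) {w : G (N + 1) → ℂ} (hw : InV α w) : W1 w 1 = 0 := by
  obtain ⟨C, hC', hk⟩ := kap hK hC hW hV α
  obtain ⟨v, D, hv, ⟨-, ι, _, y, hy, hD⟩, h1, h2⟩ := hk w hw
  refine h1 (hQ.pos _ v hv.aut ?_)
  by_contra hne
  have hM : 2 * ∑ i, N2 (y i) ≠ ⊤ :=
    ENNReal.mul_ne_top (by simp) (ENNReal.sum_ne_top.2 fun i _ => ((hy i).l2 []).ne)
  obtain ⟨η, hη, hlt⟩ := ENNReal.exists_nnreal_pos_mul_lt hM hne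
  obtain ⟨Φ, h, hU⟩ := exists_adm (hD η (by simpa using hη.ne'))
  have hB : C * (Av 3 Φ w + Av s2 Φ w) ≠ ⊤ :=
    ENNReal.mul_ne_top hC' (ENNReal.add_ne_top.2 ⟨hr.f3 Φ h w hw, hr.f2 Φ h w hw⟩)
  have h3 : ∀ s, Av s Φ v ≤ C * Av (s + 2) Φ w + 2 * η * ∑ i, Av s Φ (y i) := fun s => by
    simp only [Av_eq hW hR h _ hv.aut.cont, Av_eq hW hR h _ hw.aut.cont,
      fun i => Av_eq hW hR h s (hy i).aut.cont]
    rw [← lintegral_finsetSum _ fun i _ => Av_meas hW hR h s (hy i).aut.cont,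
      ← lintegral_const_mul' _ _ hC', ← lintegral_const_mul' _ _ (ENNReal.mul_ne_top (by simp)
        ENNReal.coe_ne_top), ← lintegral_add_left ((Av_meas hW hR h _ hw.aut.cont).const_mul _)]
    refine lintegral_mono fun r => ?_
    by_cases h4 : Φ r = 0
    · simp [h4]
    have h5 : ENNReal.ofReal (|r (Fin.last N)| ^ (s - 1)) ≤
        ENNReal.ofReal (|r (Fin.last N)| ^ (s + 2 - 1)) := ENNReal.ofReal_le_ofReal
      (Real.rpow_le_rpow_of_exponent_le (h.cn r h4).1 (by linarith))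
    refine (mul_le_mul_right ((h2 _ s).trans (add_le_add_right
      (mul_le_mul_right (hU r h4 s) _) _)) _).trans ?_
    rw [mul_add, ← Finset.mul_sum]
    refine add_le_add ?_ (le_of_eq (by ring))
    rw [mul_left_comm]
    gcongr
  have h4 : ∀ᶠ s in u, Gs s * Av s Φ v ≤
      Gs s * (C * (Av 3 Φ w + Av s2 Φ w)) + 2 * η * ∑ i, Gs s * Av s Φ (y i) := by
    filter_upwards [hu (Ioo_mem_nhdsGT (show (1 : ℝ) < 2 by norm_num))] with s hs
    have h5 : Av (s + 2) Φ w ≤ Av 3 Φ w + Av s2 Φ w := by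
      simp only [congrFun (Av_ip Φ w)]
      exact ip_mid (measurable_dt.comp (measurable_sg _)) (fun _ => dt_pos _)
        (ip_f hW h hw.aut.cont) (by linarith [hs.1]) (by linarith [hs.2, hr.ge])
    refine (mul_le_mul_right ((h3 s).trans (add_le_add_left (mul_le_mul_right h5 _) _)) _).trans
      (le_of_eq ?_)
    rw [← Finset.mul_sum]
    ring
  have h5 := le_of_tendsto_of_tendsto ((hr.lim Φ h v hv).mono_left hu)
    ((ENNReal.Tendsto.mul_const h0 (Or.inr hB)).add (ENNReal.Tendsto.const_mul (a := 2 * η)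
      (tendsto_finsetSum _ fun i _ => (hr.lim Φ h _ (hy i)).mono_left hu)
      (Or.inr (ENNReal.mul_ne_top (by simp) ENNReal.coe_ne_top)))) h4
  rw [zero_mul, zero_add, ← Finset.mul_sum, mul_left_comm,
    ENNReal.mul_le_mul_iff_right h.c_ne ENNReal.ofReal_ne_top] at h5
  exact absurd hlt (not_lt.2 (h5.trans (le_of_eq (by ring))))

/-- The averaged identity. -/
lemma Res.avg (hK : KappaStmt) (hC : CalcStmt) (hQ : QuotStmt) (hW : WhStmt) (hR : RSStmt)
    (hV : ClassStmt) (hr : Res α Gs s2) {w0 : G (N + 1) → ℂ} (h0 : w0 ≠ 0) (hw0 : InV α w0) :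
    ∃ R : ℝ, 0 < R ∧ ∀ Φ, Adm Φ → ∀ w, InV α w →
      ENNReal.ofReal R * Av 1 Φ w = ENNReal.ofReal (∫ r, Φ r) * N2 w := by
  obtain ⟨x, -, hx⟩ := isCompact_univ.ultrafilter_le_nhds'
    ((Ultrafilter.of (𝓝[>] (1 : ℝ))).map Gs) Filter.univ_mem
  have hu := Ultrafilter.of_le (𝓝[>] (1 : ℝ))
  have hx' : Tendsto Gs (Ultrafilter.of (𝓝[>] (1 : ℝ))) (𝓝 x) := hx
  obtain ⟨Φ0, hΦ, -⟩ := exists_adm (N := N) Filter.univ_mem
  have x0 : x ≠ 0 := by
    rintro rfl
    refine h0 (hr.zero hQ hΦ hw0 fun s => ?_)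
    have : W1 (rt (sr (r0 N))⁻¹ w0) = 0 := funext fun g => by
      have := hr.low hK hC hQ hW hR hV hu hx' (hV.rtV _ α _ (hV.rtV _ α _ hw0 (sr (r0 N))⁻¹) g)
      rwa [W1, Wf_rt, rt, one_mul] at this
    simp [Av, Iv, II, this]
  have x1 : x ≠ ⊤ := by
    rintro rfl
    by_cases h1 : Av 1 Φ0 w0 = 0
    · refine h0 (hr.zero hQ hΦ hw0 fun s => ?_)
      rw [congrFun (Av_ip Φ0 w0)] at h1 ⊢
      exact ip_zero (measurable_dt.comp (measurable_sg _)) (fun _ => dt_pos _)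
        (ip_f hW hΦ hw0.aut.cont) h1 s
    · have h2 := tendsto_nhds_unique ((hr.lim Φ0 hΦ w0 hw0).mono_left hu)
        (ENNReal.Tendsto.mul hx' (Or.inl ENNReal.top_ne_zero)
          ((hr.tend hW hΦ hw0).mono_left hu) (Or.inl h1))
      rw [ENNReal.top_mul h1] at h2
      exact ENNReal.mul_ne_top ENNReal.ofReal_ne_top (hw0.l2 []).ne h2
  have hl : 0 < Real.log 2 := Real.log_pos one_lt_two
  refine ⟨Real.log 2 * x.toReal, mul_pos hl (ENNReal.toReal_pos x0 x1), fun Φ h w hw => ?_⟩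
  have h2 := tendsto_nhds_unique ((hr.lim Φ h w hw).mono_left hu)
    (ENNReal.Tendsto.mul hx' (Or.inl x0) ((hr.tend hW h hw).mono_left hu) (Or.inr x1))
  rw [ENNReal.ofReal_mul hl.le, ENNReal.ofReal_toReal x1, mul_assoc, ← h2, ← mul_assoc,
    ← ENNReal.ofReal_mul hl.le, mul_div_cancel₀ _ hl.ne']

/-- From the averaged identity to the pointwise one. -/
lemma point (hW : WhStmt) (hR : RSStmt) (hV : ClassStmt) {ρ : ℝ≥0∞} (h0 : ρ ≠ 0) (h1 : ρ ≠ ⊤)
    (h : ∀ Φ, Adm Φ → ∀ w, InV α w → ρ * Av 1 Φ w = ENNReal.ofReal (∫ r, Φ r) * N2 w)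
    {w : G (N + 1) → ℂ} (hw : InV α w) : N2 w = ρ * Q 1 w := by
  have e : ∀ Φ, Adm Φ → ∀ w, InV α w → ENNReal.ofReal (∫ r, Φ r) * N2 w =
      ∫⁻ r, ENNReal.ofReal (Φ r) * (ρ * Q 1 (rt (sr r * (sr (r0 N))⁻¹) w)) := fun Φ hΦ w hw => by
    rw [← h Φ hΦ w hw, Av_eq hW hR hΦ 1 hw.aut.cont, ← lintegral_const_mul' _ _ h1]
    refine lintegral_congr fun r => ?_
    rw [sub_self, Real.rpow_zero, ENNReal.ofReal_one, mul_one, mul_left_comm]
  have ge : ∀ w, InV α w → ∀ t, (∀ᶠ a in 𝓝 (1 : G (N + 1)), t ≤ ρ * Q 1 (rt a w)) → t ≤ N2 w :=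
    fun w hw t ht => by
      obtain ⟨Φ, hΦ, hU⟩ := exists_adm ht
      rw [← ENNReal.mul_le_mul_iff_right (ENNReal.ofReal_pos.2 hΦ.pos).ne' ENNReal.ofReal_ne_top,
        e Φ hΦ w hw, ← hΦ.lint, ← lintegral_mul_const _ hΦ.meas]
      refine lintegral_mono fun r => ?_
      by_cases h4 : Φ r = 0
      · simp [h4]
      · exact mul_le_mul_right (hU r h4) _
  have le : ∀ t, (∀ᶠ a in 𝓝 (1 : G (N + 1)), ρ * Q 1 (rt a w) ≤ t) → N2 w ≤ t := fun t ht => by
    obtain ⟨Φ, hΦ, hU⟩ := exists_adm ht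
    rw [← ENNReal.mul_le_mul_iff_right (ENNReal.ofReal_pos.2 hΦ.pos).ne' ENNReal.ofReal_ne_top,
      e Φ hΦ w hw, ← hΦ.lint, ← lintegral_mul_const _ hΦ.meas]
    refine lintegral_mono fun r => ?_
    by_cases h4 : Φ r = 0
    · simp [h4]
    · exact mul_le_mul_right (hU r h4) _
  have up : ∀ w, InV α w → ρ * Q 1 w ≤ N2 w := fun w hw =>
    le_of_forall_lt_imp_le_of_dense fun t ht => ge w hw t (by
      filter_upwards [Q_lsc hW hw.aut.cont (ENNReal.div_lt_of_lt_mul' ht)] with a ha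
      exact (ENNReal.div_le_iff' h0 h1).1 ha.le)
  obtain ⟨V, hm⟩ := hV.sub (N + 1) α
  refine le_antisymm ?_ (up w hw)
  have h2 : Tendsto (fun δ : ℝ => ENNReal.ofReal (1 + δ) * (ρ * Q 1 w)) (𝓝[>] 0)
      (𝓝 (ρ * Q 1 w)) := by
    have : Tendsto (fun δ : ℝ => ENNReal.ofReal (1 + δ)) (𝓝[>] 0) (𝓝 1) := by
      have h3 : Continuous fun δ : ℝ => ENNReal.ofReal (1 + δ) :=
        ENNReal.continuous_ofReal.comp (by fun_prop)
      simpa using (h3.tendsto 0).mono_left nhdsWithin_le_nhds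
    simpa using ENNReal.Tendsto.mul_const this (Or.inl one_ne_zero)
  refine ge_of_tendsto h2 ?_
  filter_upwards [self_mem_nhdsWithin] with δ hδ
  refine ENNReal.le_of_forall_pos_le_add fun ε hε _ => le _ ?_
  have h3 := ENNReal.Tendsto.const_mul (a := ENNReal.ofReal (1 + δ⁻¹))
    (hV.strong _ w hw.aut (hw.l2 [])) (Or.inr ENNReal.ofReal_ne_top)
  rw [mul_zero] at h3
  filter_upwards [ENNReal.tendsto_nhds_zero.1 h3 ε (by simpa using hε)] with a ha
  have h4 : InV α (rt a w - w) :=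
    (hm _).1 (V.sub_mem ((hm _).2 (hV.rtV _ α w hw a)) ((hm _).2 hw))
  have h5 := Q_add hW hδ 1 hw.aut.cont h4.aut.cont
  rw [add_sub_cancel] at h5
  refine (mul_le_mul_right h5 _).trans ?_
  rw [mul_add, mul_left_comm, mul_left_comm ρ]
  exact add_le_add_right ((mul_le_mul_right (up _ h4) _).trans ha) _

end Iso

set_option linter.unusedVariables false in
theorem iso (hK : KappaStmt) (hS : SchurStmt) (hL : LatStmt) (hC : CalcStmt) (hH : HaarStmt)
    (hQ : QuotStmt) (hW : WhStmt) (hR : RSStmt) (hSh : ShinStmt) (hV : ClassStmt) (hD : CDStmt) :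
    IsoStmt := by
  intro N hN α hα ⟨w0, h0, hw0⟩
  obtain ⟨Gs, s2, hr⟩ := Iso.res hS hL hR hSh hV hD hN hα
  obtain ⟨R, h1, h2⟩ := hr.avg hK hC hQ hW hR hV h0 hw0
  exact ⟨R, h1, fun w hw =>
    Iso.point hW hR hV (ENNReal.ofReal_pos.2 h1).ne' ENNReal.ofReal_ne_top h2 hw⟩

end Pool.Agent.Lib.MP_fa98d2_nt.D
end
end

-- part Pool.Agent.Lib.MP_fa98d2_nt.D.Irr
section

/-! The mirabolic group acts irreducibly on the Kirillov space. -/

open MeasureTheory Filter Topology Matrix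
open scoped ENNReal Real ComplexConjugate

noncomputable section

namespace Pool.Agent.Lib.MP_fa98d2_nt.D

namespace Irr

variable {k : ℕ}

/-- the weighted measure on the upper rows -/
def wX (k : ℕ) : Measure (X k) := (mX k).withDensity fun x => ENNReal.ofReal (dt (sg k x))⁻¹

instance : SigmaFinite (wX k) := by unfold wX; infer_instance

lemma meas_wt : Measurable fun x : X k => ENNReal.ofReal (dt (sg k x))⁻¹ :=
  (measurable_dt.comp (measurable_sg k)).inv.ennreal_ofReal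

lemma meas_wr : Measurable fun r : Fin (k + 1) → ℝ => ENNReal.ofReal |r (Fin.last k)|⁻¹ :=
  (measurable_pi_apply (Fin.last k)).abs.inv.ennreal_ofReal

lemma ae_mR {p : (Fin (k + 1) → ℝ) → Prop} :
    (∀ᵐ r ∂mR k, p r) ↔ ∀ᵐ r : Fin (k + 1) → ℝ, r (Fin.last k) ≠ 0 → p r := by
  rw [mR, ae_withDensity_iff meas_wr]
  simp

lemma ae_last : ∀ᵐ r ∂mR k, r (Fin.last k) ≠ 0 := ae_mR.2 (Eventually.of_forall fun _ h => h)

lemma ae_wX {p : X k → Prop} : (∀ᵐ x ∂wX k, p x) ↔ ∀ᵐ x ∂mX k, p x := by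
  rw [wX, ae_withDensity_iff meas_wt]
  simp [dt_pos]

lemma integrable_mul {α : Type} [MeasurableSpace α] {μ : Measure α} {a b : α → ℂ}
    (ha : Measurable a) (hb : Measurable b) (ha2 : ∫⁻ x, ‖a x‖ₑ ^ 2 ∂μ < ⊤)
    (hb2 : ∫⁻ x, ‖b x‖ₑ ^ 2 ∂μ < ⊤) : Integrable (fun x => a x * conj (b x)) μ := by
  refine ⟨(ha.mul (Complex.continuous_conj.measurable.comp hb)).aestronglyMeasurable, ?_⟩
  have h : ∀ x, ‖a x * conj (b x)‖ₑ ≤ ‖a x‖ₑ ^ 2 + ‖b x‖ₑ ^ 2 := fun x => by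
    rw [enorm_mul, RCLike.enorm_conj]
    rcases le_total ‖a x‖ₑ ‖b x‖ₑ with h | h
    · exact le_add_left (by rw [sq]; gcongr)
    · exact le_add_right (by rw [sq]; gcongr)
  refine lt_of_le_of_lt (lintegral_mono h) ?_
  rw [lintegral_add_left (ha.enorm.pow_const 2)]
  exact ENNReal.add_lt_top.2 ⟨ha2, hb2⟩

lemma KK_one (W : G (k + 1) → ℂ) : KK 1 W = II k fun h => ‖W (up h)‖ₑ ^ 2 := by
  simp [KK]

lemma psi_one (m : Fin k → ℝ) : psi m 1 = 1 := by
  simp [psi, (Fin.castSucc_lt_succ).ne]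

lemma enorm_psi (m : Fin k → ℝ) (u : G (k + 1)) : ‖psi m u‖ₑ = 1 := by
  rw [psi, ← ofReal_norm, norm_ee, ENNReal.ofReal_one]

lemma psi_up (hW : WhStmt) (u : G (k + 1)) :
    psi (fun _ : Fin (k + 1) => (1 : ℝ)) (up u) = psi (fun _ => 1) u := by
  rw [up, hW.psi_pb]
  simp only [Pi.zero_apply, mul_zero, ee_zero, one_mul]
  rfl

lemma psi_nb (hW : WhStmt) (c : Fin (k + 1) → ℝ) :
    psi (fun _ : Fin (k + 1) => (1 : ℝ)) (nb c) = ee (c (Fin.last k)) := by
  rw [nb, hW.psi_pb, psi_one]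
  simp

lemma uinv {Ξ : G (k + 1) → ℂ} (hE : Eqv (fun _ => 1) Ξ) : UInv fun h => ‖Ξ (up h)‖ₑ ^ 2 := by
  intro u hu g
  simp only
  rw [up_mul, hE _ hu.up, enorm_mul, enorm_psi, one_mul]

lemma xi_nb (hW : WhStmt) {Ξ : G (k + 2) → ℂ} (hE : Eqv (fun _ => 1) Ξ) (g h : G (k + 1))
    (b : Fin (k + 1) → ℝ) : Ξ (up g * (nb b * up h)) = ee (lr g ⬝ᵥ b) * Ξ (up (g * h)) := by
  rw [← mul_assoc, up_mul_nb, mul_assoc, ← up_mul, hE _ (isU_nb _), psi_nb hW]
  rfl

/-- the pairing along the upper rows -/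
def B (Ξ : G (k + 2) → ℂ) (η : X k × (Fin (k + 1) → ℝ) → ℂ) (g : G (k + 1))
    (r : Fin (k + 1) → ℝ) : ℂ :=
  ∫ x, η (x, r) * conj (Ξ (up (up (sg k x) * g))) ∂wX k

lemma measurable_B {Ξ : G (k + 2) → ℂ} {η : X k × (Fin (k + 1) → ℝ) → ℂ} (hΞ : Measurable Ξ)
    (hη : Measurable η) : Measurable fun p : G (k + 1) × (Fin (k + 1) → ℝ) => B Ξ η p.1 p.2 := by
  have h : Measurable fun q : (G (k + 1) × (Fin (k + 1) → ℝ)) × X k =>
      η (q.2, q.1.2) * conj (Ξ (up (up (sg k q.2) * q.1.1))) :=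
    (hη.comp (measurable_snd.prodMk (measurable_snd.comp measurable_fst))).mul
      (Complex.continuous_conj.measurable.comp (hΞ.comp (continuous_up.measurable.comp
        ((continuous_up.measurable.comp ((measurable_sg k).comp measurable_snd)).mul
          (measurable_fst.comp measurable_fst)))))
  exact (h.stronglyMeasurable.integral_prod_right' (ν := wX k)).measurable

/-- Fourier uniqueness in the last row. -/
lemma four (hT : TorusStmt) {F : X k × (Fin (k + 1) → ℝ) → ℂ}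
    (hF : Integrable F ((wX k).prod (mR k)))
    (h0 : ∀ᵐ b : Fin (k + 1) → ℝ, ∫ p, F p * ee (-(p.2 ⬝ᵥ b)) ∂(wX k).prod (mR k) = 0) :
    ∀ᵐ r ∂mR k, ∫ x, F (x, r) ∂wX k = 0 := by
  have hi := hF.integral_prod_right
  rw [mR, integrable_withDensity_iff_integrable_smul' meas_wr
    (Eventually.of_forall fun _ => ENNReal.ofReal_lt_top)] at hi
  have h1 := hT.uniq (k + 1) _ hi (by
    filter_upwards [h0] with b hb
    have hc : Continuous fun r : Fin (k + 1) → ℝ => ee (-(r ⬝ᵥ b)) :=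
      continuous_ee.comp (continuous_id.dotProduct continuous_const).neg
    have hb' : Integrable (fun p : X k × (Fin (k + 1) → ℝ) => F p * ee (-(p.2 ⬝ᵥ b)))
        ((wX k).prod (mR k)) :=
      hF.mul_bdd (c := 1) (hc.measurable.comp measurable_snd).aestronglyMeasurable
        (Eventually.of_forall fun p => (norm_ee _).le)
    rw [integral_prod_symm _ hb', mR, integral_withDensity_eq_integral_toReal_smul meas_wr
      (Eventually.of_forall fun _ => ENNReal.ofReal_lt_top)] at hb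
    rw [← hb]
    congr 1
    ext r
    simp only [integral_mul_const, smul_mul_assoc])
  rw [ae_mR]
  filter_upwards [h1] with r hr hne
  rw [smul_eq_zero] at hr
  refine hr.resolve_left ?_
  rw [ENNReal.toReal_ofReal (by positivity)]
  exact inv_ne_zero (abs_ne_zero.2 hne)

lemma ae_blk (hH : HaarStmt) {p : G (k + 1) → Prop} (hp : MeasurableSet {g | p g})
    (h : ∀ᵐ g ∂mu (k + 1), p g) :
    ∀ᵐ r ∂mR k, ∀ᵐ h ∂mu k, ∀ᵐ b : Fin k → ℝ, p (nb b * up h * sr r) := by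
  set F : G (k + 1) → ℝ≥0∞ := {g | p g}ᶜ.indicator 1 with hF
  have hFm : Measurable F := measurable_one.indicator hp.compl
  have h1 : ∫⁻ g, F g ∂mu (k + 1) = 0 := by
    rw [hF, lintegral_indicator_one hp.compl]
    exact h
  have hm : Measurable fun q : ((Fin (k + 1) → ℝ) × G k) × (Fin k → ℝ) =>
      F (nb q.2 * up q.1.2 * sr q.1.1) :=
    hFm.comp (((continuous_nb.measurable.comp measurable_snd).mul
      (continuous_up.measurable.comp (measurable_snd.comp measurable_fst))).mul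
      (measurable_sr.comp (measurable_fst.comp measurable_fst)))
  have hm2 : Measurable fun q : (Fin (k + 1) → ℝ) × G k =>
      ENNReal.ofReal (dt q.2)⁻¹ * ∫⁻ b, F (nb b * up q.2 * sr q.1) :=
    (measurable_dt.comp measurable_snd).inv.ennreal_ofReal.mul hm.lintegral_prod_right'
  rw [hH.blk k F hFm, lintegral_eq_zero_iff hm2.lintegral_prod_right'] at h1
  filter_upwards [h1] with r hr
  filter_upwards [(lintegral_eq_zero_iff (hm2.comp (measurable_prodMk_left (x := r)))).1 hr]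
    with h hh
  have h2 : ENNReal.ofReal (dt h)⁻¹ ≠ 0 := by simp [dt_pos]
  have h3 : ∫⁻ b, F (nb b * up h * sr r) = 0 := (mul_eq_zero.1 hh).resolve_left h2
  filter_upwards [(lintegral_eq_zero_iff (hm.comp (measurable_prodMk_left (x := (r, h))))).1 h3]
    with b hb
  by_contra hn
  have : F (nb b * up h * sr r) = 1 := Set.indicator_of_mem (s := {g | p g}ᶜ) hn _
  exact one_ne_zero (this.symm.trans hb)

/-- the factor `|det|^(-1/2)` -/
def isq (g : G k) : ℂ := (((Real.sqrt (dt g))⁻¹ : ℝ) : ℂ)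

lemma measurable_isq : Measurable (isq (k := k)) :=
  Complex.measurable_ofReal.comp measurable_dt.sqrt.inv

lemma isq_mul (g h : G k) : isq (g * h) = isq g * isq h := by
  rw [isq, dt_mul, Real.sqrt_mul (dt_pos g).le, mul_inv, Complex.ofReal_mul]
  rfl

lemma isq_congr {l : ℕ} {g : G k} {h : G l} (e : dt g = dt h) : isq g = isq h := by
  rw [isq, isq, e]

lemma conj_isq (g : G k) : conj (isq g) = isq g := Complex.conj_ofReal _

lemma isq_sq (g : G k) : isq g * isq g = (((dt g)⁻¹ : ℝ) : ℂ) := by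
  rw [isq, ← Complex.ofReal_mul, ← mul_inv, Real.mul_self_sqrt (dt_pos g).le]

lemma isq_ne (g : G k) : isq g ≠ 0 :=
  Complex.ofReal_ne_zero.2 (inv_ne_zero (Real.sqrt_pos.2 (dt_pos g)).ne')

lemma enorm_isq (g : G k) (z : ℂ) :
    ‖z * isq g‖ₑ ^ 2 = ENNReal.ofReal (dt g)⁻¹ * ‖z‖ₑ ^ 2 := by
  rw [enorm_mul, mul_pow, mul_comm, sq ‖isq g‖ₑ, ← enorm_mul, isq_sq, ← ofReal_norm,
    Complex.norm_real, Real.norm_of_nonneg (inv_pos.2 (dt_pos g)).le]

/-- the slice of the Kirillov function -/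
def sl (Ξ : G (k + 2) → ℂ) (r : Fin (k + 1) → ℝ) (g : G (k + 1)) : ℂ := Ξ (up (g * sr r)) * isq g

lemma measurable_sl {Ξ : G (k + 2) → ℂ} (hΞ : Measurable Ξ) (r : Fin (k + 1) → ℝ) :
    Measurable (sl Ξ r) :=
  (hΞ.comp (continuous_up.measurable.comp (measurable_mul_const _))).mul measurable_isq

lemma eqv_sl (hW : WhStmt) {Ξ : G (k + 2) → ℂ} (hE : Eqv (fun _ => 1) Ξ) (r : Fin (k + 1) → ℝ) :
    Eqv (fun _ => 1) (sl Ξ r) := by
  intro u hu g
  rw [sl, sl, mul_assoc u, up_mul, hE _ hu.up, psi_up hW,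
    isq_congr (g := u * g) (h := g) (by rw [dt_mul, hu.dt, one_mul]), mul_assoc]

lemma KK_sl (Ξ : G (k + 2) → ℂ) (r : Fin (k + 1) → ℝ) : KK 1 (sl Ξ r) =
    II k fun h => ENNReal.ofReal (dt h)⁻¹ * ‖Ξ (up (up h * sr r))‖ₑ ^ 2 := by
  rw [KK_one]
  simp only [sl, enorm_isq, dt_up]

lemma KK_succ {Ξ : G (k + 2) → ℂ} (hΞ : Measurable Ξ) :
    KK 1 Ξ = ∫⁻ r, KK 1 (sl Ξ r) ∂mR k := by
  rw [KK_one, II_succ (H := fun h => ‖Ξ (up h)‖ₑ ^ 2)
    ((hΞ.comp continuous_up.measurable).enorm.pow_const 2)]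
  simp only [KK_sl]

lemma measurable_KK_sl {Ξ : G (k + 2) → ℂ} (hΞ : Measurable Ξ) :
    Measurable fun r => KK 1 (sl Ξ r) := by
  simp only [KK_sl, II]
  have : Measurable fun q : (Fin (k + 1) → ℝ) × X k =>
      ENNReal.ofReal (dt (sg k q.2))⁻¹ * ‖Ξ (up (up (sg k q.2) * sr q.1))‖ₑ ^ 2 :=
    (meas_wt.comp measurable_snd).mul ((hΞ.comp (continuous_up.measurable.comp
      ((continuous_up.measurable.comp ((measurable_sg k).comp measurable_snd)).mul
        (measurable_sr.comp measurable_fst)))).enorm.pow_const 2)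
  exact this.lintegral_prod_right'

lemma pair_sl (Ξ : G (k + 2) → ℂ) (η : X k × (Fin (k + 1) → ℝ) → ℂ) (r r' : Fin (k + 1) → ℝ)
    (h : G k) (b : Fin k → ℝ) :
    ∫ x, η (x, r) * isq (sg k x) * conj (sl Ξ r' (up (sg k x) * (nb b * up h))) ∂mX k =
      isq h * B Ξ η (nb b * up h * sr r') r := by
  rw [B, wX, integral_withDensity_eq_integral_toReal_smul meas_wt
    (Eventually.of_forall fun _ => ENNReal.ofReal_lt_top), ← integral_const_mul]
  congr 1
  ext x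
  have e : isq (up (sg k x) * (nb b * up h)) = isq (sg k x) * isq h := by
    rw [← isq_mul]
    exact isq_congr (by simp [dt_mul])
  rw [sl, map_mul, conj_isq, e, ENNReal.toReal_ofReal (inv_pos.2 (dt_pos _)).le,
    Complex.real_smul, ← isq_sq, mul_assoc (up (sg k x))]
  ring

lemma base (Ξ : G 1 → ℂ) (η : X 0 → ℂ)
    (h0 : ∀ᵐ h ∂mu 0, ∀ᵐ b : Fin 0 → ℝ,
      ∫ x, η x * conj (Ξ (up (sg 0 x) * (nb b * up h))) ∂mX 0 = 0) :
    (∀ᵐ x ∂mX 0, η x = 0) ∨ KK 1 Ξ = 0 := by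
  obtain ⟨h, hh⟩ := h0.exists
  obtain ⟨b, hb⟩ := hh.exists
  have e1 : h = 1 := Subsingleton.elim _ _
  have e2 : b = 0 := Subsingleton.elim _ _
  subst e1 e2
  have hb' : ∫ x : Unit, η x * conj (Ξ (up 1 * (nb 0 * up 1))) ∂Measure.dirac () = 0 := hb
  rw [integral_dirac] at hb'
  rcases mul_eq_zero.1 hb' with h1 | h1
  · exact Or.inl (Eventually.of_forall fun _ => h1)
  · right
    rw [nb_zero] at h1
    rw [KK_one, II_zero]
    simpa using h1

lemma step (hT : TorusStmt) (hH : HaarStmt) (hW : WhStmt) {Ξ : G (k + 2) → ℂ}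
    {η : X k × (Fin (k + 1) → ℝ) → ℂ} (hΞ : Measurable Ξ) (hE : Eqv (fun _ => 1) Ξ)
    (hη : Measurable η) (hK : KK 1 Ξ < ⊤)
    (hη2 : ∫⁻ p, ‖η p‖ₑ ^ 2 ∂(wX k).prod (mR k) < ⊤)
    (h0 : ∀ᵐ h ∂mu (k + 1), ∀ᵐ b : Fin (k + 1) → ℝ,
      ∫ p, η p * conj (Ξ (up (up (sg k p.1) * sr p.2) * (nb b * up h))) ∂(wX k).prod (mR k) = 0) :
    ∀ᵐ r ∂mR k, ∀ᵐ r' ∂mR k, ∀ᵐ h ∂mu k, ∀ᵐ b : Fin k → ℝ,
      B Ξ η (nb b * up h * sr r') r = 0 := by
  have hB := measurable_B hΞ hη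
  have hsg : Measurable fun p : X k × (Fin (k + 1) → ℝ) => up (sg k p.1) * sr p.2 :=
    measurable_sg (k + 1)
  have h1 : ∀ᵐ h ∂mu (k + 1), ∀ᵐ r ∂mR k, B Ξ η (sr r * h) r = 0 := by
    filter_upwards [h0] with h hh
    have hm : Measurable fun p : X k × (Fin (k + 1) → ℝ) =>
        Ξ (up (up (sg k p.1) * sr p.2 * h)) :=
      hΞ.comp (continuous_up.measurable.comp (hsg.mul_const h))
    have h2 : ∫⁻ p, ‖Ξ (up (up (sg k p.1) * sr p.2 * h))‖ₑ ^ 2 ∂(wX k).prod (mR k) < ⊤ := by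
      have := hH.iir (k + 1) _ ((hΞ.comp continuous_up.measurable).enorm.pow_const 2) (uinv hE) h
      rw [KK_one] at hK
      exact lt_of_eq_of_lt this hK
    have h3 := four hT (integrable_mul hη hm hη2 h2) (by
      filter_upwards [hh] with b hb
      rw [← hb]
      apply integral_congr_ae
      have : ∀ᵐ p ∂(wX k).prod (mR k), p.2 (Fin.last k) ≠ 0 :=
        Measure.quasiMeasurePreserving_snd.ae ae_last
      filter_upwards [this] with p hp
      rw [xi_nb hW hE, lr_up_mul, lr_sr hp, map_mul, conj_ee]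
      ring)
    filter_upwards [h3] with r hr
    simpa only [B, mul_assoc] using hr
  have hs : MeasurableSet {q : G (k + 1) × (Fin (k + 1) → ℝ) | B Ξ η (sr q.2 * q.1) q.2 = 0} :=
    measurableSet_eq_fun (hB.comp (((measurable_sr.comp measurable_snd).mul measurable_fst).prodMk
      measurable_snd)) measurable_const
  have h2 := (Measure.ae_ae_comm (p := fun h r => B Ξ η (sr r * h) r = 0) hs).1 h1
  filter_upwards [h2] with r hr
  refine ae_blk hH (p := fun g => B Ξ η g r = 0)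
    (measurableSet_eq_fun (hB.comp measurable_prodMk_right) measurable_const) ?_
  have := (measurePreserving_mul_left (mu (k + 1)) (sr r)⁻¹).quasiMeasurePreserving.ae hr
  simpa using this

end Irr

open Irr

theorem irr (hT : TorusStmt) (hH : HaarStmt) (hW : WhStmt) : IrrStmt := by
  intro k
  induction k with
  | zero => exact fun Ξ η _ _ _ _ _ h0 => base Ξ η h0
  | succ k ih =>
    intro Ξ η hΞ hE hη hK hη2 h0
    have hη' : Measurable fun p : X k × (Fin (k + 1) → ℝ) => η p := hη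
    have hη3 : ∫⁻ p : X k × (Fin (k + 1) → ℝ), ‖η p‖ₑ ^ 2 ∂(wX k).prod (mR k) < ⊤ := hη2
    have h1 := step hT hH hW hΞ hE hη' hK hη3 h0
    rw [or_iff_not_imp_right]
    intro hne
    have h2 : ∀ᵐ r' ∂mR k, KK 1 (sl Ξ r') < ⊤ :=
      ae_lt_top (measurable_KK_sl hΞ) (by rw [← KK_succ hΞ]; exact hK.ne)
    have hm := hη'.enorm.pow_const 2
    have h3 : ∀ᵐ r ∂mR k, ∫⁻ x, ‖η (x, r)‖ₑ ^ 2 ∂wX k < ⊤ := by
      rw [lintegral_prod_symm _ hm.aemeasurable] at hη3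
      exact ae_lt_top hm.lintegral_prod_left' hη3.ne
    have h4 : ∀ᵐ r ∂mR k, ∀ᵐ x ∂wX k, η (x, r) = 0 := by
      filter_upwards [h1, h3] with r hr1 hr3
      have hm1 : Measurable fun x : X k => η (x, r) := hη'.comp measurable_prodMk_right
      have hm2 : Measurable fun x : X k => η (x, r) * isq (sg k x) :=
        hm1.mul (measurable_isq.comp (measurable_sg k))
      have hf : ∫⁻ x, ‖η (x, r) * isq (sg k x)‖ₑ ^ 2 ∂mX k < ⊤ := by
        rw [wX, lintegral_withDensity_eq_lintegral_mul _ meas_wt (hm1.enorm.pow_const 2)] at hr3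
        simp only [enorm_isq]
        exact hr3
      by_contra hn
      apply hne
      rw [KK_succ hΞ, lintegral_eq_zero_iff (measurable_KK_sl hΞ)]
      filter_upwards [hr1, h2] with r' a1 a2
      refine (ih (sl Ξ r') _ (measurable_sl hΞ r') (eqv_sl hW hE r') hm2 a2 hf ?_).resolve_left ?_
      · filter_upwards [a1] with h b1
        filter_upwards [b1] with b b2
        rw [pair_sl, b2, mul_zero]
      · intro a3
        apply hn
        rw [ae_wX]
        filter_upwards [a3] with x hx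
        exact (mul_eq_zero.1 hx).resolve_right (isq_ne _)
    have hs : MeasurableSet {p : X k × (Fin (k + 1) → ℝ) | η p = 0} :=
      measurableSet_eq_fun hη' measurable_const
    exact (Measure.ae_prod_iff_ae_ae hs).2
      ((Measure.ae_ae_comm (p := fun x r => η (x, r) = 0) hs).2 h4)

end Pool.Agent.Lib.MP_fa98d2_nt.D
end
end
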