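import Pool.Agent.Lib.MP_fa98d2_nt.D.Stmts1

-- part Pool.Agent.Lib.MP_fa98d2_nt.D.Kappa
section

/-! The semi-invariant of the mirabolic subalgebra and the Harish-Chandra bound. -/

open Matrix

noncomputable section

namespace Pool.Agent.Lib.MP_fa98d2_nt.D

namespace Kappa

section words
variable {n : ℕ} {M : Type} [AddCommGroup M] [Module ℂ M] (e : Fin n → Fin n → Module.End ℂ M)

@[simp] theorem ew_nil : ew e [] = 1 := rfl

@[simp] theorem ew_cons (x : Fin n × Fin n) (l : List (Fin n × Fin n)) :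
    ew e (x :: l) = e x.1 x.2 * ew e l := by simp [ew]

@[simp] theorem ew_append (l l' : List (Fin n × Fin n)) : ew e (l ++ l') = ew e l * ew e l' := by
  simp [ew]

theorem ecomb_append (z z' : List (ℂ × List (Fin n × Fin n))) :
    ecomb e (z ++ z') = ecomb e z + ecomb e z' := by simp [ecomb]

theorem ecomb_left (a : ℂ × List (Fin n × Fin n)) (z : List (ℂ × List (Fin n × Fin n))) :
    ecomb e (z.map fun b => (a.1 * b.1, a.2 ++ b.2)) = (a.1 • ew e a.2) * ecomb e z := by
  induction z with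
  | nil => simp [ecomb]
  | cons b z ih =>
    simp only [ecomb, List.map_cons, List.sum_cons, mul_add] at ih ⊢
    rw [ih, ew_append, smul_mul_smul_comm]

theorem ecomb_mul (z z' : List (ℂ × List (Fin n × Fin n))) :
    ecomb e (z.flatMap fun a => z'.map fun b => (a.1 * b.1, a.2 ++ b.2)) =
      ecomb e z * ecomb e z' := by
  induction z with
  | nil => simp [ecomb]
  | cons a z ih =>
    rw [List.flatMap_cons, ecomb_append, ih, ecomb_left, ← add_mul]
    simp [ecomb]

end words

theorem rep {n : ℕ} (x : FreeAlgebra ℂ (Fin n × Fin n)) :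
    ∃ z : List (ℂ × List (Fin n × Fin n)), ∀ (M : Type) [AddCommGroup M] [Module ℂ M]
      (e : Fin n → Fin n → Module.End ℂ M),
      FreeAlgebra.lift ℂ (fun p : Fin n × Fin n => e p.1 p.2) x = ecomb e z := by
  induction x using FreeAlgebra.induction with
  | grade0 r =>
    refine ⟨[(r, [])], fun M _ _ e => ?_⟩
    simp [ecomb, Algebra.algebraMap_eq_smul_one]
  | grade1 p => exact ⟨[(1, [p])], fun M _ _ e => by simp [ecomb]⟩
  | mul a b ha hb =>
    obtain ⟨z, hz⟩ := ha
    obtain ⟨z', hz'⟩ := hb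
    exact ⟨_, fun M _ _ e => by rw [map_mul, hz, hz', ← ecomb_mul]⟩
  | add a b ha hb =>
    obtain ⟨z, hz⟩ := ha
    obtain ⟨z', hz'⟩ := hb
    exact ⟨_, fun M _ _ e => by rw [map_add, hz, hz', ← ecomb_append]⟩

section alg
variable {N : ℕ} {A : Type} [Ring A] [Algebra ℂ A]

/-- the vectors `v (k + 1)` -/
def vv (e : Fin (N + 1) → Fin (N + 1) → A) : ℕ → Fin N → A
  | 0, i => e i.castSucc (Fin.last N)
  | k + 1, i => ∑ j, vv e k j * e i.castSucc j.castSucc

/-- the semi-invariant -/
def kap (e : Fin (N + 1) → Fin (N + 1) → A) : A :=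
  ∑ σ : Equiv.Perm (Fin N), Equiv.Perm.sign σ • (List.ofFn fun k : Fin N => vv e k (σ k)).prod

theorem map_vv {B : Type} [Ring B] [Algebra ℂ B] (φ : A →ₐ[ℂ] B)
    (e : Fin (N + 1) → Fin (N + 1) → A) (k : ℕ) :
    ∀ i, φ (vv e k i) = vv (fun a b => φ (e a b)) k i := by
  induction k with
  | zero => intro i; rfl
  | succ k ih => intro i; simp [vv, map_sum, ih]

theorem map_kap {B : Type} [Ring B] [Algebra ℂ B] (φ : A →ₐ[ℂ] B)
    (e : Fin (N + 1) → Fin (N + 1) → A) : φ (kap e) = kap fun a b => φ (e a b) := by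
  simp only [kap, map_sum, Units.smul_def, map_zsmul, map_list_prod, List.map_ofFn,
    Function.comp_def, map_vv]

theorem alt_det (u : ℕ → Fin N → A) (x : Fin N → Fin N → ℂ) :
    ∑ σ : Equiv.Perm (Fin N), Equiv.Perm.sign σ •
        (List.ofFn fun k : Fin N => ∑ l, x (σ k) l • u k l).prod =
      (Matrix.of x).det • ∑ σ : Equiv.Perm (Fin N), Equiv.Perm.sign σ •
        (List.ofFn fun k : Fin N => u k (σ k)).prod := by
  let m : MultilinearMap ℂ (fun _ : Fin N => Fin N → ℂ) A :=
    (MultilinearMap.mkPiAlgebraFin ℂ N A).compLinearMap fun k => Fintype.linearCombination ℂ (u k)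
  have hm : ∀ y : Fin N → Fin N → ℂ, MultilinearMap.alternatization m y =
      ∑ σ : Equiv.Perm (Fin N), Equiv.Perm.sign σ •
        (List.ofFn fun k : Fin N => ∑ l, y (σ k) l • u k l).prod := fun y => by
    rw [MultilinearMap.alternatization_apply]
    rfl
  have hb : MultilinearMap.alternatization m (Pi.basisFun ℂ (Fin N)) =
      ∑ σ : Equiv.Perm (Fin N), Equiv.Perm.sign σ •
        (List.ofFn fun k : Fin N => u k (σ k)).prod := by
    rw [hm]
    simp [Pi.single_apply, ite_smul]
  have key : MultilinearMap.alternatization m = (Pi.basisFun ℂ (Fin N)).det.smulRight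
      (MultilinearMap.alternatization m (Pi.basisFun ℂ (Fin N))) := by
    refine (Pi.basisFun ℂ (Fin N)).ext_alternating fun v hv => ?_
    let σ : Equiv.Perm (Fin N) := Equiv.ofBijective v (Finite.injective_iff_bijective.1 hv)
    have e : (fun i => Pi.basisFun ℂ (Fin N) (v i)) = Pi.basisFun ℂ (Fin N) ∘ σ := rfl
    rw [e, AlternatingMap.map_perm, AlternatingMap.map_perm]
    congr 1
    rw [AlternatingMap.smulRight_apply, Module.Basis.det_self, one_smul]
  rw [← hm, ← hb, ← Pi.basisFun_det_apply]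
  exact DFunLike.congr_fun key x

omit [Algebra ℂ A] in
theorem mul_list_prod (ρ : A) : ∀ {m : ℕ} (a b : Fin m → A), (∀ k, ρ * a k = b k * ρ) →
    ρ * (List.ofFn a).prod = (List.ofFn b).prod * ρ
  | 0, _, _, _ => by simp
  | m + 1, a, b, h => by
    rw [List.ofFn_succ, List.ofFn_succ, List.prod_cons, List.prod_cons, ← mul_assoc, h, mul_assoc,
      mul_list_prod ρ _ _ fun k => h k.succ, mul_assoc]

theorem rho_vv (e : Fin (N + 1) → Fin (N + 1) → A) (ρ : A)
    (h h' : Matrix (Fin (N + 1)) (Fin (N + 1)) ℂ) (hh : h * h' = 1)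
    (h1 : ∀ j, h (Fin.last N) j = if j = Fin.last N then 1 else 0)
    (h2 : ∀ i, h i (Fin.last N) = if i = Fin.last N then 1 else 0)
    (hρ : ∀ a b, ρ * e a b = (∑ c, ∑ d, (h c a * h' b d) • e c d) * ρ) (k : ℕ) :
    ∀ i, ρ * vv e k i = (∑ l : Fin N, h l.castSucc i.castSucc • vv e k l) * ρ := by
  have hi : ∀ l d, ∑ j, h l j * h' j d = if l = d then 1 else 0 := fun l d => by
    rw [← Matrix.mul_apply, hh, Matrix.one_apply]
  have h3 : ∀ d, h' (Fin.last N) d = if Fin.last N = d then 1 else 0 := fun d => by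
    rw [← hi]
    simp [h1]
  have h4 : ∀ (l : Fin N) d, ∑ j : Fin N, h l.castSucc j.castSucc * h' j.castSucc d =
      if l.castSucc = d then 1 else 0 := fun l d => by
    rw [← hi, Fin.sum_univ_castSucc, h2]
    simp
  induction k with
  | zero =>
    intro i
    rw [vv, hρ, Fin.sum_univ_castSucc]
    congr 1
    simp [h1, h3, vv, ite_smul]
  | succ k ih =>
    intro i
    have e1 : ∀ j : Fin N, ρ * (vv e k j * e i.castSucc j.castSucc) =
        (∑ l : Fin N, ∑ c, ∑ d, (h c i.castSucc * (h l.castSucc j.castSucc * h' j.castSucc d)) •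
          (vv e k l * e c d)) * ρ := fun j => by
      rw [← mul_assoc, ih, mul_assoc, hρ, ← mul_assoc]
      congr 1
      rw [Finset.sum_mul]
      refine Finset.sum_congr rfl fun l _ => ?_
      rw [Finset.mul_sum]
      refine Finset.sum_congr rfl fun c _ => ?_
      rw [Finset.mul_sum]
      refine Finset.sum_congr rfl fun d _ => ?_
      rw [smul_mul_smul_comm]
      congr 1
      ring
    rw [vv, Finset.mul_sum, Finset.sum_congr rfl fun j _ => e1 j, ← Finset.sum_mul]
    congr 1
    have e2 : ∀ l : Fin N, ∑ j : Fin N, ∑ c, ∑ d,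
        (h c i.castSucc * (h l.castSucc j.castSucc * h' j.castSucc d)) • (vv e k l * e c d) =
        ∑ c : Fin N, h c.castSucc i.castSucc • (vv e k l * e c.castSucc l.castSucc) := fun l => by
      rw [Finset.sum_comm]
      have e3 : ∀ c, ∑ j : Fin N, ∑ d,
          (h c i.castSucc * (h l.castSucc j.castSucc * h' j.castSucc d)) • (vv e k l * e c d) =
          h c i.castSucc • (vv e k l * e c l.castSucc) := fun c => by
        rw [Finset.sum_comm]
        simp only [← Finset.sum_smul, ← Finset.mul_sum, h4]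
        simp [ite_smul]
      rw [Finset.sum_congr rfl fun c _ => e3 c, Fin.sum_univ_castSucc, h1]
      simp
    rw [Finset.sum_comm, Finset.sum_congr rfl fun l _ => e2 l, Finset.sum_comm]
    simp only [vv, Finset.smul_sum]

theorem rho_kap (e : Fin (N + 1) → Fin (N + 1) → A) (ρ : A)
    (h h' : Matrix (Fin (N + 1)) (Fin (N + 1)) ℂ) (hh : h * h' = 1)
    (h1 : ∀ j, h (Fin.last N) j = if j = Fin.last N then 1 else 0)
    (h2 : ∀ i, h i (Fin.last N) = if i = Fin.last N then 1 else 0)
    (hρ : ∀ a b, ρ * e a b = (∑ c, ∑ d, (h c a * h' b d) • e c d) * ρ) :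
    ρ * kap e = h.det • (kap e * ρ) := by
  have hd : h.det = (Matrix.of fun i l : Fin N => h l.castSucc i.castSucc).det := by
    rw [Matrix.det_succ_row h (Fin.last N), Finset.sum_eq_single (Fin.last N), h1,
      ← Matrix.det_transpose]
    · simp only [if_true, mul_one, Fin.succAbove_last, Fin.val_last, ← two_mul, pow_mul]
      simp only [even_two, Even.neg_pow, one_pow, one_mul]
      rfl
    · intro j _ hj
      rw [h1, if_neg hj, mul_zero, zero_mul]
    · exact fun hj => absurd (Finset.mem_univ _) hj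
  rw [← smul_mul_assoc, hd, kap, ← alt_det (vv e) fun i l => h l.castSucc i.castSucc,
    Finset.mul_sum, Finset.sum_mul]
  refine Finset.sum_congr rfl fun σ _ => ?_
  rw [mul_smul_comm, smul_mul_assoc,
    mul_list_prod ρ _ _ fun k => rho_vv e ρ h h' hh h1 h2 hρ k (σ k)]

end alg

section whit
variable {N : ℕ} {M : Type} [AddCommGroup M] [Module ℂ M]
  {e : Fin (N + 1) → Fin (N + 1) → Module.End ℂ M}

theorem comm_vv (he : Comm 1 e) (a b : Fin N) (k : ℕ) : ∀ i,
    e a.castSucc b.castSucc * vv e k i - vv e k i * e a.castSucc b.castSucc =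
      if b = i then vv e k a else 0 := by
  induction k with
  | zero =>
    intro i
    rw [vv, he]
    simp [vv, (Fin.castSucc_lt_last a).ne']
  | succ k ih =>
    intro i
    have e1 : ∀ j : Fin N, e a.castSucc b.castSucc * (vv e k j * e i.castSucc j.castSucc) -
        vv e k j * e i.castSucc j.castSucc * e a.castSucc b.castSucc =
        (if b = j then vv e k a * e i.castSucc j.castSucc else 0) +
          ((if b = i then vv e k j * e a.castSucc j.castSucc else 0) -
            if j = a then vv e k j * e i.castSucc b.castSucc else 0) := fun j => by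
      have h1 := ih j
      have h2 := he a.castSucc b.castSucc i.castSucc j.castSucc
      simp only [one_smul, Fin.castSucc_inj] at h2
      calc _ = (e a.castSucc b.castSucc * vv e k j - vv e k j * e a.castSucc b.castSucc) *
            e i.castSucc j.castSucc + vv e k j * (e a.castSucc b.castSucc * e i.castSucc j.castSucc -
              e i.castSucc j.castSucc * e a.castSucc b.castSucc) := by noncomm_ring
        _ = _ := by rw [h1, h2, mul_sub, ite_mul, mul_ite, mul_ite, zero_mul, mul_zero]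
    rw [vv, Finset.mul_sum, Finset.sum_mul, ← Finset.sum_sub_distrib,
      Finset.sum_congr rfl fun j _ => e1 j, Finset.sum_add_distrib, Finset.sum_sub_distrib]
    split_ifs with hb <;> simp [vv]

theorem comp_mul (L : M →ₗ[ℂ] ℂ) (a b : Module.End ℂ M) : L ∘ₗ (a * b) = (L ∘ₗ a) ∘ₗ b := rfl

theorem comp_sum {κ : Type} (s : Finset κ) (L : M →ₗ[ℂ] ℂ) (a : κ → Module.End ℂ M) :
    L ∘ₗ (∑ j ∈ s, a j) = ∑ j ∈ s, L ∘ₗ a j := by
  ext x
  simp

theorem whit_vv (he : Comm 1 e) {c : ℂ} {L : M →ₗ[ℂ] ℂ} (hL : WhF c e L) (k : ℕ) :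
    ∀ i : Fin N, i.val + k + 1 ≤ N →
      L ∘ₗ vv e k i = (if i.val + k + 1 = N then c ^ (k + 1) else 0) • L := by
  induction k with
  | zero =>
    intro i _
    rw [vv, hL _ _ (Fin.castSucc_lt_last i)]
    simp [eq_comm]
  | succ k ih =>
    intro i hi
    have hj0 : N - (k + 1) < N := by omega
    rw [vv, comp_sum, Finset.sum_eq_single ⟨N - (k + 1), hj0⟩]
    · rw [comp_mul, ih _ (by simp only; omega), if_pos (by simp only; omega), LinearMap.smul_comp,
        hL _ _ (by rw [Fin.lt_def]; simp only [Fin.val_castSucc]; omega), smul_smul]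
      congr 1
      simp only [Fin.val_castSucc]
      split_ifs with h1 h2 h2
      · ring
      · omega
      · omega
      · ring
    · intro j _ hj
      have hj' : j.val ≠ N - (k + 1) := fun h => hj (Fin.ext h)
      by_cases hjk : j.val + k + 1 ≤ N
      · rw [comp_mul, ih j hjk, if_neg (by omega), zero_smul, LinearMap.zero_comp]
      · have h1 := comm_vv he i j k j
        rw [if_pos rfl, sub_eq_iff_eq_add, ← sub_eq_iff_eq_add'] at h1
        rw [← h1, LinearMap.comp_sub, comp_mul, ih i (by omega), if_neg (by omega),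
          hL _ _ (by rw [Fin.lt_def]; simp only [Fin.val_castSucc]; omega),
          if_neg (by simp only [Fin.val_castSucc]; omega)]
        simp
    · exact fun hj => absurd (Finset.mem_univ _) hj

theorem whit_take (he : Comm 1 e) {c : ℂ} {L : M →ₗ[ℂ] ℂ} (hL : WhF c e L)
    (σ : Equiv.Perm (Fin N)) (m : ℕ) (hm : m ≤ N) :
    L ∘ₗ ((List.ofFn fun k : Fin N => vv e k (σ k)).take m).prod =
      (if ∀ k : Fin N, k.val < m → σ k = k.rev then c ^ (m + 1).choose 2 else 0) • L := by
  induction m with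
  | zero =>
    simp only [List.take_zero, List.prod_nil, Nat.not_lt_zero, false_imp_iff, imp_true_iff, if_true]
    ext x
    simp
  | succ m ih =>
    have hm' : m < N := hm
    rw [List.prod_take_succ _ _ (by simpa using hm'), comp_mul, ih hm'.le, List.getElem_ofFn,
      LinearMap.smul_comp]
    by_cases h : ∀ k : Fin N, k.val < m → σ k = k.rev
    · have hle : (σ ⟨m, hm'⟩).val + m + 1 ≤ N := by
        by_contra hc
        have h1 : (σ ⟨m, hm'⟩).rev.val < m := by rw [Fin.val_rev]; omega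
        have h2 := h _ h1
        rw [Fin.rev_rev] at h2
        rw [σ.injective h2] at h1
        exact lt_irrefl _ h1
      rw [if_pos h, whit_vv he hL m _ hle, smul_smul]
      congr 1
      by_cases h3 : (σ ⟨m, hm'⟩).val + m + 1 = N
      · rw [if_pos h3, if_pos, ← pow_add, Nat.choose_succ_succ' (m + 1) 1, Nat.choose_one_right,
          add_comm]
        intro k hk
        rcases (Nat.lt_succ_iff.1 hk).lt_or_eq with hk | hk
        · exact h k hk
        · obtain rfl : k = ⟨m, hm'⟩ := Fin.ext hk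
          exact Fin.ext (by rw [Fin.val_rev]; simp only; omega)
      · rw [if_neg h3, if_neg, mul_zero]
        intro h4
        have := congrArg Fin.val (h4 ⟨m, hm'⟩ (Nat.lt_succ_self m))
        rw [Fin.val_rev] at this
        simp only at this
        omega
    · rw [if_neg h, if_neg fun h4 => h fun k hk => h4 k (Nat.lt_succ_of_lt hk), zero_smul,
        zero_smul]

theorem whit_kap (he : Comm 1 e) {c : ℂ} {L : M →ₗ[ℂ] ℂ} (hL : WhF c e L) :
    L ∘ₗ kap e = ((((Equiv.Perm.sign (Fin.revPerm : Equiv.Perm (Fin N)) : ℤˣ) : ℤ) : ℂ) *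
      c ^ (N + 1).choose 2) • L := by
  have h : ∀ σ : Equiv.Perm (Fin N), L ∘ₗ (List.ofFn fun k : Fin N => vv e k (σ k)).prod =
      (if σ = Fin.revPerm then c ^ (N + 1).choose 2 else 0) • L := fun σ => by
    have := whit_take he hL σ N le_rfl
    rw [List.take_of_length_le (by simp)] at this
    rw [this]
    congr 2
    exact propext ⟨fun h => Equiv.ext fun k => h k k.2, fun h k _ => by rw [h]; rfl⟩
  have h' : ∀ (u : ℤˣ) (a : Module.End ℂ M), L ∘ₗ (u • a) = ((u : ℤ) : ℂ) • (L ∘ₗ a) := by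
    intro u a
    ext x
    simp [Units.smul_def]
  rw [kap, comp_sum, Finset.sum_eq_single Fin.revPerm, h', h, if_pos rfl, smul_smul]
  · intro σ _ hσ
    rw [h', h, if_neg hσ, zero_smul, smul_zero]
  · exact fun hj => absurd (Finset.mem_univ _) hj

end whit

section hc
variable {n : ℕ}

/-- operators attached to every module -/
def Op (n : ℕ) : Type 1 :=
  ∀ (M : Type) [AddCommGroup M] [Module ℂ M], (Fin n → Fin n → Module.End ℂ M) → Module.End ℂ M

/-- the highest weight functional is an eigenvector with eigenvalue of size `B ^ m` -/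
def Good (m : ℕ) (T : Op n) : Prop :=
  ∃ C : ℝ, 0 ≤ C ∧
    ∀ (M : Type) [AddCommGroup M] [Module ℂ M] (e : Fin n → Fin n → Module.End ℂ M),
      Comm 1 e → ∀ (L : M →ₗ[ℂ] ℂ), WhF 0 e L → ∀ ν : Fin n → ℂ,
      (∀ i, L ∘ₗ e i i = ν i • L) → ∀ B : ℝ, 1 ≤ B → (∀ i, ‖ν i‖ ≤ B) →
      ∃ z : ℂ, ‖z‖ ≤ C * B ^ m ∧ L ∘ₗ T M e = z • L

theorem Good.congr {m : ℕ} {T T' : Op n} (h : Good m T)
    (hT : ∀ (M : Type) [AddCommGroup M] [Module ℂ M] (e : Fin n → Fin n → Module.End ℂ M),
      Comm 1 e → T' M e = T M e) : Good m T' := by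
  obtain ⟨C, h0, hC⟩ := h
  refine ⟨C, h0, fun M _ _ e he L hL ν hν B hB hb => ?_⟩
  rw [hT M e he]
  exact hC M e he L hL ν hν B hB hb

theorem Good.succ {m : ℕ} {T : Op n} (h : Good m T) : Good (m + 1) T := by
  obtain ⟨C, h0, hC⟩ := h
  refine ⟨C, h0, fun M _ _ e he L hL ν hν B hB hb => ?_⟩
  obtain ⟨z, hz, hz'⟩ := hC M e he L hL ν hν B hB hb
  exact ⟨z, hz.trans (mul_le_mul_of_nonneg_left (pow_le_pow_right₀ hB (Nat.le_succ m)) h0), hz'⟩

theorem good_zero (m : ℕ) : Good m (fun _ _ _ _ => 0 : Op n) :=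
  ⟨0, le_rfl, fun M _ _ e _ L _ _ _ B _ _ => ⟨0, by simp, by simp⟩⟩

theorem Good.add {m : ℕ} {T T' : Op n} (h : Good m T) (h' : Good m T') :
    Good m fun M _ _ e => T M e + T' M e := by
  obtain ⟨C, h0, hC⟩ := h
  obtain ⟨C', h0', hC'⟩ := h'
  refine ⟨C + C', add_nonneg h0 h0', fun M _ _ e he L hL ν hν B hB hb => ?_⟩
  obtain ⟨z, hz, hz'⟩ := hC M e he L hL ν hν B hB hb
  obtain ⟨w, hw, hw'⟩ := hC' M e he L hL ν hν B hB hb
  refine ⟨z + w, (norm_add_le _ _).trans (by rw [add_mul]; exact add_le_add hz hw), ?_⟩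
  rw [LinearMap.comp_add, hz', hw', add_smul]

theorem Good.neg {m : ℕ} {T : Op n} (h : Good m T) : Good m fun M _ _ e => -T M e := by
  obtain ⟨C, h0, hC⟩ := h
  refine ⟨C, h0, fun M _ _ e he L hL ν hν B hB hb => ?_⟩
  obtain ⟨z, hz, hz'⟩ := hC M e he L hL ν hν B hB hb
  exact ⟨-z, by rwa [norm_neg], by rw [LinearMap.comp_neg, hz', neg_smul]⟩

theorem good_sum {m : ℕ} {κ : Type} (s : Finset κ) (T : κ → Op n) (h : ∀ a ∈ s, Good m (T a)) :
    Good m fun M _ _ e => ∑ a ∈ s, T a M e := by
  classical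
  induction s using Finset.induction_on with
  | empty => exact (good_zero m).congr fun M _ _ e _ => Finset.sum_empty
  | insert a s ha ih =>
    exact ((h a (Finset.mem_insert_self _ _)).add
      (ih fun b hb => h b (Finset.mem_insert_of_mem hb))).congr
        fun M _ _ e _ => Finset.sum_insert ha

/-- the height of a word -/
def ht (z : List (Fin n × Fin n)) : ℤ := (z.map fun x => (x.1.val : ℤ) - x.2.val).sum

@[simp] theorem ht_nil : ht ([] : List (Fin n × Fin n)) = 0 := rfl

@[simp] theorem ht_cons (x : Fin n × Fin n) (z : List (Fin n × Fin n)) :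
    ht (x :: z) = (x.1.val : ℤ) - x.2.val + ht z := by simp [ht]

@[simp] theorem ht_append (z z' : List (Fin n × Fin n)) : ht (z ++ z') = ht z + ht z' := by
  simp [ht]

theorem ht_nonneg (z : List (Fin n × Fin n)) (h : ∀ x ∈ z, x.2 ≤ x.1) : 0 ≤ ht z := by
  induction z with
  | nil => exact le_rfl
  | cons x z ih =>
    have h1 : x.2.val ≤ x.1.val := h x List.mem_cons_self
    have h2 := ih fun y hy => h y (List.mem_cons_of_mem _ hy)
    rw [ht_cons]
    omega

theorem good_low (z : List (Fin n × Fin n)) (h : ∀ x ∈ z, x.2 ≤ x.1) (h0 : ht z = 0) :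
    Good z.length fun _ _ _ e => ew e z := by
  refine ⟨1, zero_le_one, fun M _ _ e he L hL ν hν B hB hb => ?_⟩
  induction z with
  | nil => exact ⟨1, by simp, by ext x; simp⟩
  | cons x z ih =>
    have h1 : x.2.val ≤ x.1.val := h x List.mem_cons_self
    have h2 := ht_nonneg z fun y hy => h y (List.mem_cons_of_mem _ hy)
    rw [ht_cons] at h0
    obtain ⟨w, hw, hw'⟩ := ih (fun y hy => h y (List.mem_cons_of_mem _ hy)) (by omega)
    have h3 : x.2 = x.1 := Fin.ext (by omega)
    refine ⟨ν x.1 * w, ?_, ?_⟩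
    · rw [norm_mul, List.length_cons, pow_succ', one_mul]
      exact mul_le_mul (hb _) (by simpa using hw) (norm_nonneg _) (by linarith)
    · show L ∘ₗ ew e (x :: z) = _
      rw [ew_cons, h3]
      show (L ∘ₗ e x.1 x.1) ∘ₗ ew e z = _
      rw [hν, LinearMap.smul_comp, hw', smul_smul]

theorem good_front (m : ℕ) (x : Fin n × Fin n) (hx : x.1 < x.2) (z : List (Fin n × Fin n)) :
    Good m fun _ _ _ e => ew e (x :: z) := by
  refine ⟨0, le_rfl, fun M _ _ e he L hL ν hν B hB hb => ⟨0, by simp, ?_⟩⟩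
  show L ∘ₗ ew e (x :: z) = _
  rw [ew_cons]
  show (L ∘ₗ e x.1 x.2) ∘ₗ ew e z = _
  rw [hL _ _ hx]
  simp

theorem good_word (m : ℕ) : ∀ z : List (Fin n × Fin n), z.length = m → ht z = 0 →
    Good m fun _ _ _ e => ew e z := by
  induction m with
  | zero =>
    intro z hz h0
    obtain rfl := List.length_eq_zero_iff.1 hz
    exact good_low [] (by simp) rfl
  | succ m ih =>
    have key : ∀ (x : Fin n × Fin n), x.1 < x.2 → ∀ p s : List (Fin n × Fin n),
        (p ++ x :: s).length = m + 1 → ht (p ++ x :: s) = 0 →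
        Good (m + 1) fun _ _ _ e => ew e (p ++ x :: s) := by
      intro x hx p
      induction p using List.reverseRecOn with
      | nil => intro s _ _; exact good_front _ x hx s
      | append_singleton p y ihp =>
        intro s hl h0
        simp only [List.length_append, List.length_cons, List.length_nil, ht_append, ht_cons,
          ht_nil] at hl h0
        have g1 := ihp (y :: s) (by simp only [List.length_append, List.length_cons]; omega)
          (by simp only [ht_append, ht_cons]; omega)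
        have g2 : Good (m + 1) fun _ _ _ e =>
            if y.2 = x.1 then ew e (p ++ (y.1, x.2) :: s) else 0 := by
          split_ifs with h
          · refine (ih _ (by simp only [List.length_append, List.length_cons]; omega) ?_).succ
            simp only [ht_append, ht_cons]
            rw [h] at h0
            omega
          · exact good_zero _
        have g3 : Good (m + 1) fun _ _ _ e =>
            if x.2 = y.1 then ew e (p ++ (x.1, y.2) :: s) else 0 := by
          split_ifs with h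
          · refine (ih _ (by simp only [List.length_append, List.length_cons]; omega) ?_).succ
            simp only [ht_append, ht_cons]
            rw [h] at h0
            omega
          · exact good_zero _
        refine ((g1.add g2).add g3.neg).congr fun M _ _ e he => ?_
        have h1 := he y.1 y.2 x.1 x.2
        rw [one_smul, sub_eq_iff_eq_add] at h1
        simp only [ew_append, ew_cons, ew_nil, mul_one]
        rw [mul_assoc, ← mul_assoc (e y.1 y.2), h1]
        split_ifs <;> noncomm_ring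
    intro z hz h0
    by_cases h : ∀ x ∈ z, x.2 ≤ x.1
    · exact hz ▸ good_low z h h0
    · simp only [not_forall, not_le] at h
      obtain ⟨x, hx, hx'⟩ := h
      obtain ⟨p, s, rfl⟩ := List.append_of_mem hx
      exact key x hx' p s hz h0

theorem good_epw (k : ℕ) : ∀ (p : List (Fin n × Fin n)) (i j : Fin n),
    ht p + i.val - j.val = 0 → Good (p.length + k) fun _ _ _ e => ew e p * epw e k i j := by
  induction k with
  | zero =>
    intro p i j h
    by_cases hij : i = j
    · subst hij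
      exact (good_word _ p rfl (by omega)).congr fun M _ _ e _ => by simp [epw]
    · exact (good_zero _).congr fun M _ _ e _ => by simp [epw, hij]
  | succ k ih =>
    intro p i j h
    have := good_sum (m := p.length + (k + 1)) Finset.univ
      (fun l : Fin n => (fun _ _ _ e => ew e (p ++ [(i, l)]) * epw e k l j : Op n)) fun l _ => by
        have h1 := ih (p ++ [(i, l)]) l j (by simp only [ht_append, ht_cons, ht_nil]; omega)
        rwa [List.length_append, List.length_singleton, add_assoc, add_comm 1 k] at h1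
    refine this.congr fun M _ _ e _ => ?_
    simp [epw, Finset.mul_sum, mul_assoc]

end hc

end Kappa

open Kappa

theorem kappa : KappaStmt := by
  intro N
  obtain ⟨z, hz⟩ := rep (kap fun a b : Fin (N + 1) => FreeAlgebra.ι ℂ (a, b))
  refine ⟨z, (((Equiv.Perm.sign (Fin.revPerm : Equiv.Perm (Fin N)) : ℤˣ) : ℤ) : ℂ), ?_,
    fun M _ _ e he => ?_⟩
  · rcases Int.units_eq_one_or (Equiv.Perm.sign (Fin.revPerm : Equiv.Perm (Fin N))) with h | h <;>
      simp [h]
  have hk : ecomb e z = kap e := by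
    rw [← hz M e, map_kap]
    simp
  rw [hk]
  exact ⟨fun c L hL => whit_kap he hL, fun ρ h h' hh h1 h2 hρ => rho_kap e ρ h h' hh h1 h2 hρ⟩

theorem hc : HCStmt := by
  intro n k
  have := good_sum (m := k) Finset.univ
    (fun i : Fin n => (fun _ _ _ e => ew e [] * epw e k i i : Op n)) fun i _ => by
      simpa using good_epw k [] i i (by simp)
  exact this.congr (T' := fun _ _ _ e => egel e k) fun M _ _ e _ => by simp [egel]

end Pool.Agent.Lib.MP_fa98d2_nt.D
end
end

-- part Pool.Agent.Lib.MP_fa98d2_nt.D.Kaz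
section

/-! Reduction of a Whittaker functional to words in `gl_N`, using the Gelfand invariants. -/

noncomputable section

namespace Pool.Agent.Lib.MP_fa98d2_nt.D

namespace Kaz

/-- letters -/
abbrev Lt (N : ℕ) := Fin (N + 1) × Fin (N + 1)

/-- words -/
abbrev Wd (N : ℕ) := List (Lt N)

/-- all the data of the statement -/
structure Dat (N : ℕ) (c : ℂ) (C0 : ℝ) : Type 1 where
  M : Type
  acg : AddCommGroup M
  md : Module ℂ M
  e : Fin (N + 1) → Fin (N + 1) → Module.End ℂ M
  h : ℂ
  hh : ‖h‖ ≤ 1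
  comm : Comm h e
  L : M →ₗ[ℂ] ℂ
  wh : WhF c e L
  γ : ℕ → ℂ
  hγ : ∀ k, k ≤ N + 1 → egel e k = γ k • (1 : Module.End ℂ M) ∧ ‖γ k‖ ≤ C0

variable {N : ℕ} {c : ℂ} {C0 : ℝ}

instance (D : Dat N c C0) : AddCommGroup D.M := D.acg

instance (D : Dat N c C0) : Module ℂ D.M := D.md

section words
variable {n : ℕ} {M : Type} [AddCommGroup M] [Module ℂ M] (e : Fin n → Fin n → Module.End ℂ M)

theorem ew_nil : ew e [] = 1 := rfl

theorem ew_cons (x : Fin n × Fin n) (l : List (Fin n × Fin n)) :
    ew e (x :: l) = e x.1 x.2 * ew e l := by simp [ew]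

theorem ew_append (l l' : List (Fin n × Fin n)) : ew e (l ++ l') = ew e l * ew e l' := by
  simp [ew]

theorem sum_flatMap {α β γ : Type} [AddCommMonoid γ] (f : α → List β) (g : β → γ) :
    ∀ l : List α, ((l.flatMap f).map g).sum = (l.map fun a => ((f a).map g).sum).sum
  | [] => rfl
  | a :: l => by
    rw [List.flatMap_cons, List.map_append, List.sum_append, sum_flatMap f g l, List.map_cons,
      List.sum_cons]

/-- the words of paths from `i` to `j` -/
def pw : ℕ → Fin n → Fin n → List (List (Fin n × Fin n))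
  | 0, i, j => if i = j then [[]] else []
  | k + 1, i, j => (List.finRange n).flatMap fun l => (pw k l j).map ((i, l) :: ·)

theorem mul_sum_ew (x : Fin n × Fin n) : ∀ Z : List (List (Fin n × Fin n)),
    e x.1 x.2 * (Z.map (ew e)).sum = ((Z.map (x :: ·)).map (ew e)).sum
  | [] => by simp
  | z :: Z => by
    rw [List.map_cons, List.sum_cons, mul_add, mul_sum_ew x Z, List.map_cons, List.map_cons,
      List.sum_cons, ew_cons]

theorem epw_eq : ∀ (k : ℕ) (i j : Fin n), epw e k i j = ((pw k i j).map (ew e)).sum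
  | 0, i, j => by
    rw [epw, pw]
    split_ifs <;> simp [ew_nil]
  | k + 1, i, j => by
    rw [epw, pw, sum_flatMap, Fin.sum_univ_def]
    congr 1
    refine List.map_congr_left fun l _ => ?_
    rw [epw_eq k l j]
    exact mul_sum_ew e (i, l) _

/-- closed paths -/
def cyc (n k : ℕ) : List (List (Fin n × Fin n)) := (List.finRange n).flatMap fun i => pw k i i

theorem egel_eq (k : ℕ) : egel e k = ((cyc n k).map (ew e)).sum := by
  rw [egel, cyc, sum_flatMap, Fin.sum_univ_def]
  congr 1
  exact List.map_congr_left fun i _ => epw_eq e k i i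

end words

/-- degree of a letter -/
def dg (x : Lt N) : ℤ := 1 + x.1.val - x.2.val

/-- degree of a word -/
def KK (w : Wd N) : ℤ := (w.map dg).sum

/-- words without letters above the diagonal -/
def Low (w : Wd N) : Prop := ∀ x ∈ w, x.2 ≤ x.1

theorem KK_cons (x : Lt N) (w : Wd N) : KK (x :: w) = dg x + KK w := by simp [KK]

theorem KK_append (w w' : Wd N) : KK (w ++ w') = KK w + KK w' := by simp [KK]

theorem KK_perm {w w' : Wd N} (h : w.Perm w') : KK w = KK w' := (h.map _).sum_eq

theorem Low.perm {w w' : Wd N} (h : w.Perm w') : Low w ↔ Low w' :=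
  ⟨fun a x hx => a x (h.mem_iff.2 hx), fun a x hx => a x (h.mem_iff.1 hx)⟩

theorem low_append {w w' : Wd N} : Low (w ++ w') ↔ Low w ∧ Low w' := by
  simp only [Low, List.mem_append]
  exact ⟨fun h => ⟨fun x hx => h x (Or.inl hx), fun x hx => h x (Or.inr hx)⟩,
    fun h x hx => hx.elim (h.1 x) (h.2 x)⟩

theorem low_cons {x : Lt N} {w : Wd N} : Low (x :: w) ↔ x.2 ≤ x.1 ∧ Low w := by
  simp only [Low, List.forall_mem_cons]

theorem pw_spec : ∀ (k : ℕ) (i j : Fin (N + 1)), ∀ z ∈ pw k i j,
    z.length = k ∧ KK z = k + i.val - j.val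
  | 0, i, j => fun z hz => by
    rw [pw] at hz
    split_ifs at hz with h
    · obtain rfl := List.mem_singleton.1 hz
      subst h
      simp [KK]
    · simp at hz
  | k + 1, i, j => fun z hz => by
    rw [pw] at hz
    obtain ⟨l, -, hl⟩ := List.mem_flatMap.1 hz
    obtain ⟨z', hz', rfl⟩ := List.mem_map.1 hl
    obtain ⟨h1, h2⟩ := pw_spec k l j z' hz'
    refine ⟨by rw [List.length_cons, h1], ?_⟩
    rw [KK_cons, h2, dg]
    push_cast
    ring

/-- the functional of a word -/
def Lw (w : Wd N) (D : Dat N c C0) : D.M →ₗ[ℂ] ℂ := D.L ∘ₗ ew D.e w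

/-- combinations with bounded coefficients of finitely many words with property `P` -/
inductive Sp (N : ℕ) (c : ℂ) (C0 : ℝ) (P : Wd N → Prop) :
    (∀ D : Dat N c C0, D.M →ₗ[ℂ] ℂ) → Prop
  | base (w : Wd N) : P w → Sp N c C0 P (Lw w)
  | zero : Sp N c C0 P fun _ => 0
  | add (φ ψ : ∀ D : Dat N c C0, D.M →ₗ[ℂ] ℂ) : Sp N c C0 P φ → Sp N c C0 P ψ →
      Sp N c C0 P fun D => φ D + ψ D
  | smul (a : Dat N c C0 → ℂ) (C : ℝ) (φ : ∀ D : Dat N c C0, D.M →ₗ[ℂ] ℂ) :
      (∀ D, ‖a D‖ ≤ C) → Sp N c C0 P φ → Sp N c C0 P fun D => a D • φ D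

theorem Sp.congr {P : Wd N → Prop} {φ ψ : ∀ D : Dat N c C0, D.M →ₗ[ℂ] ℂ} (h : Sp N c C0 P φ)
    (e : ∀ D, ψ D = φ D) : Sp N c C0 P ψ := by
  rw [show ψ = φ from funext e]; exact h

theorem Sp.csmul {P : Wd N → Prop} {φ : ∀ D : Dat N c C0, D.M →ₗ[ℂ] ℂ} (h : Sp N c C0 P φ)
    (a : ℂ) : Sp N c C0 P fun D => a • φ D :=
  Sp.smul (fun _ => a) ‖a‖ φ (fun _ => le_rfl) h

theorem Sp.sub {P : Wd N → Prop} {φ ψ : ∀ D : Dat N c C0, D.M →ₗ[ℂ] ℂ} (h : Sp N c C0 P φ)
    (h' : Sp N c C0 P ψ) : Sp N c C0 P fun D => φ D - ψ D :=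
  (Sp.add _ _ h (h'.csmul (-1))).congr fun D => by rw [neg_one_smul, sub_eq_add_neg]

theorem Sp.comp {P Q : Wd N → Prop} (m : Wd N) (hPQ : ∀ w, P w → Sp N c C0 Q (Lw (w ++ m)))
    {φ : ∀ D : Dat N c C0, D.M →ₗ[ℂ] ℂ} (h : Sp N c C0 P φ) :
    Sp N c C0 Q fun D => φ D ∘ₗ ew D.e m := by
  induction h with
  | base w hw =>
    refine (hPQ w hw).congr fun D => ?_
    rw [Lw, Lw, ew_append]; rfl
  | zero => exact Sp.zero.congr fun D => LinearMap.zero_comp _
  | add φ ψ _ _ ha hb => exact (Sp.add _ _ ha hb).congr fun D => LinearMap.add_comp _ _ _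
  | smul a C φ hC _ ha => exact (Sp.smul a C _ hC ha).congr fun D => LinearMap.smul_comp _ _ _

theorem Sp.trans {P Q : Wd N → Prop} (hPQ : ∀ w, P w → Sp N c C0 Q (Lw w))
    {φ : ∀ D : Dat N c C0, D.M →ₗ[ℂ] ℂ} (h : Sp N c C0 P φ) : Sp N c C0 Q φ :=
  (h.comp [] fun w hw => by rw [List.append_nil]; exact hPQ w hw).congr fun _ => rfl

theorem Sp.mono {P Q : Wd N → Prop} (hPQ : ∀ w, P w → Q w)
    {φ : ∀ D : Dat N c C0, D.M →ₗ[ℂ] ℂ} (h : Sp N c C0 P φ) : Sp N c C0 Q φ :=
  h.trans fun w hw => Sp.base w (hPQ w hw)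

/-- words that arise from commutators -/
def Less (m w : Wd N) : Prop := w.length + 1 = m.length ∧ KK w + 1 = KK m ∧ (Low m → Low w)

theorem Less.perm {m m' w : Wd N} (h : m.Perm m') (hw : Less m' w) : Less m w :=
  ⟨hw.1.trans h.length_eq.symm, hw.2.1.trans (KK_perm h).symm,
    fun a => hw.2.2 ((Low.perm h).1 a)⟩

theorem sp_swap (p v : Wd N) (x y : Lt N) :
    Sp N c C0 (Less (p ++ x :: y :: v)) fun D =>
      Lw (p ++ x :: y :: v) D - Lw (p ++ y :: x :: v) D := by
  have h1 : Sp N c C0 (Less (p ++ x :: y :: v)) fun D =>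
      if x.2 = y.1 then Lw (p ++ (x.1, y.2) :: v) D else 0 := by
    split_ifs with h
    · refine Sp.base _ ⟨by simp [add_assoc], ?_, fun a => ?_⟩
      · simp only [KK_append, KK_cons, dg, h]; ring
      · simp only [low_append, low_cons] at a ⊢
        exact ⟨a.1, (a.2.2.1.trans (h ▸ a.2.1)), a.2.2.2⟩
    · exact Sp.zero
  have h2 : Sp N c C0 (Less (p ++ x :: y :: v)) fun D =>
      if y.2 = x.1 then Lw (p ++ (y.1, x.2) :: v) D else 0 := by
    split_ifs with h
    · refine Sp.base _ ⟨by simp [add_assoc], ?_, fun a => ?_⟩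
      · simp only [KK_append, KK_cons, dg, h]; ring
      · simp only [low_append, low_cons] at a ⊢
        exact ⟨a.1, (a.2.1.trans (h ▸ a.2.2.1)), a.2.2.2⟩
    · exact Sp.zero
  refine (Sp.smul (fun D => D.h) 1 _ (fun D => D.hh) (h1.sub h2)).congr fun D => ?_
  have e1 : ew D.e (p ++ x :: y :: v) - ew D.e (p ++ y :: x :: v) =
      ew D.e p * (D.e x.1 x.2 * D.e y.1 y.2 - D.e y.1 y.2 * D.e x.1 x.2) * ew D.e v := by
    simp only [ew_append, ew_cons, mul_sub, sub_mul, mul_assoc]
  rw [Lw, Lw, ← LinearMap.comp_sub, e1, D.comm, mul_smul_comm, smul_mul_assoc,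
    LinearMap.comp_smul, mul_sub, sub_mul, LinearMap.comp_sub]
  congr 2
  · split_ifs
    · rw [Lw, ew_append, ew_cons, mul_assoc]
    · rw [mul_zero, zero_mul]; exact LinearMap.comp_zero _
  · split_ifs
    · rw [Lw, ew_append, ew_cons, mul_assoc]
    · rw [mul_zero, zero_mul]; exact LinearMap.comp_zero _

theorem sp_perm {w w' : Wd N} (h : w.Perm w') : ∀ p : Wd N,
    Sp N c C0 (Less (p ++ w)) fun D => Lw (p ++ w) D - Lw (p ++ w') D := by
  induction h with
  | nil => exact fun p => Sp.zero.congr fun D => sub_self _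
  | @cons x l₁ l₂ _ ih =>
    intro p
    have := ih (p ++ [x])
    simpa only [List.append_assoc, List.singleton_append] using this
  | swap x y l => exact fun p => sp_swap p l y x
  | @trans l₁ l₂ l₃ h₁ _ ih₁ ih₂ =>
    intro p
    exact (Sp.add _ _ (ih₁ p) ((ih₂ p).mono fun w hw => hw.perm (h₁.append_left p))).congr
      fun D => (sub_add_sub_cancel _ _ _).symm

/-- the letters above the diagonal -/
def up (z : Wd N) : Wd N := z.filter fun x => decide (x.1 < x.2)

/-- the other letters -/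
def lo (z : Wd N) : Wd N := z.filter fun x => !decide (x.1 < x.2)

/-- the value of the character on a word -/
def cf (c : ℂ) (u : Wd N) : ℂ := (u.map fun x => if x.2.val = x.1.val + 1 then c else 0).prod

theorem perm_up_lo (z : Wd N) : z.Perm (up z ++ lo z) := (List.filter_append_perm _ z).symm

theorem low_lo (z : Wd N) : Low (lo z) := fun x hx => by
  simpa using (List.mem_filter.1 hx).2

theorem up_lt (z : Wd N) : ∀ x ∈ up z, x.1 < x.2 := fun x hx => by
  simpa using (List.mem_filter.1 hx).2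

theorem cf_cons (x : Lt N) (u : Wd N) :
    cf c (x :: u) = (if x.2.val = x.1.val + 1 then c else 0) * cf c u := by simp [cf]

theorem cf_spec : ∀ u : Wd N, cf c u ≠ 0 → KK u = 0 ∧ cf c u = c ^ u.length
  | [], _ => by simp [cf, KK]
  | x :: u, h => by
    rw [cf_cons] at h ⊢
    obtain ⟨h1, h2⟩ := cf_spec u (right_ne_zero_of_mul h)
    have h3 := left_ne_zero_of_mul h
    split_ifs at h3 ⊢ with h4
    · refine ⟨?_, by rw [h2, List.length_cons, pow_succ']⟩
      rw [KK_cons, h1, dg, h4]
      push_cast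
      ring
    · exact absurd rfl h3

theorem Lw_up (D : Dat N c C0) (v : Wd N) :
    ∀ u : Wd N, (∀ x ∈ u, x.1 < x.2) → Lw (u ++ v) D = cf c u • Lw v D
  | [], _ => by simp [cf]
  | x :: u, h => by
    have h1 := Lw_up D v u fun y hy => h y (List.mem_cons_of_mem _ hy)
    have h2 := D.wh x.1 x.2 (h x List.mem_cons_self)
    rw [cf_cons, mul_smul, ← h1, Lw, Lw, List.cons_append, ew_cons, ← LinearMap.smul_comp, ← h2]
    rfl

theorem sp_top (z : Wd N) :
    Sp N c C0 (Less z) fun D => Lw z D - cf c (up z) • Lw (lo z) D :=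
  (sp_perm (perm_up_lo z) []).congr fun D => by
    rw [List.nil_append, List.nil_append, Lw_up D _ _ (up_lt z)]

theorem KK_lo {z : Wd N} (h : cf c (up z) ≠ 0) : KK (lo z) = KK z := by
  rw [KK_perm (perm_up_lo z), KK_append, (cf_spec _ h).1, zero_add]

theorem step1_weak : ∀ (k : ℕ) (z : Wd N), z.length = k →
    Sp N c C0 (fun w => Low w ∧ KK w ≤ KK z) (Lw z) := by
  intro k
  induction k with
  | zero =>
    intro z hz
    obtain rfl := List.length_eq_zero_iff.1 hz
    exact Sp.base _ ⟨fun x hx => absurd hx List.not_mem_nil, le_rfl⟩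
  | succ k ih =>
    intro z hz
    have h1 : Sp N c C0 (fun w => Low w ∧ KK w ≤ KK z)
        fun D => Lw z D - cf c (up z) • Lw (lo z) D :=
      (sp_top z).trans fun w hw => (ih w (by have := hw.1; omega)).mono
        fun v hv => ⟨hv.1, by have := hw.2.1; have := hv.2; omega⟩
    have h2 : Sp N c C0 (fun w => Low w ∧ KK w ≤ KK z) fun D => cf c (up z) • Lw (lo z) D := by
      by_cases h : cf c (up z) = 0
      · exact Sp.zero.congr fun D => by rw [h, zero_smul]
      · exact (Sp.base _ ⟨low_lo z, (KK_lo h).le⟩).csmul _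
    exact (Sp.add _ _ h1 h2).congr fun D => (sub_add_cancel _ _).symm

theorem step1 (z : Wd N) : Sp N c C0 (fun w => Low w ∧ KK w < KK z)
    fun D => Lw z D - cf c (up z) • Lw (lo z) D :=
  (sp_top z).trans fun w hw => (step1_weak _ w rfl).mono
    fun v hv => ⟨hv.1, by have := hw.2.1; have := hv.2; omega⟩

theorem exists_path (hc : c ≠ 0) (j : Fin (N + 1)) : ∀ (t : ℕ) (i : Fin (N + 1)),
    i.val + t = N → ∃ z ∈ pw (t + 1) i j, cf c (up z) ≠ 0 ∧ lo z = [(Fin.last N, j)] := by
  intro t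
  induction t with
  | zero =>
    intro i hi
    obtain rfl : i = Fin.last N := Fin.ext hi
    have h : ¬Fin.last N < j := not_lt.2 (Fin.le_last j)
    refine ⟨[(Fin.last N, j)], ?_, by simp [up, cf, h], by simp [lo, h]⟩
    rw [pw]
    exact List.mem_flatMap.2 ⟨j, List.mem_finRange _, List.mem_map.2 ⟨[], by simp [pw], rfl⟩⟩
  | succ t ih =>
    intro i hi
    obtain ⟨z, hz, h1, h2⟩ := ih ⟨i.val + 1, by omega⟩ (by show i.val + 1 + t = N; omega)
    have h : i < ⟨i.val + 1, by omega⟩ := Nat.lt_succ_self _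
    refine ⟨(i, ⟨i.val + 1, by omega⟩) :: z, ?_, ?_, ?_⟩
    · rw [pw]
      exact List.mem_flatMap.2 ⟨_, List.mem_finRange _, List.mem_map.2 ⟨z, hz, rfl⟩⟩
    · rw [up, List.filter_cons_of_pos (by simpa using h), cf_cons, if_pos rfl]
      exact mul_ne_zero hc h1
    · rw [lo, List.filter_cons_of_neg (by simpa using h)]
      exact h2

theorem sum_two_valued {α : Type} (f : α → ℂ) (t : ℂ) : ∀ Z : List α,
    (∀ z ∈ Z, f z = 0 ∨ f z = t) → ∃ k : ℕ, (Z.map f).sum = k * t ∧ ((∃ z ∈ Z, f z ≠ 0) → k ≠ 0)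
  | [], _ => ⟨0, by simp, by simp⟩
  | z :: Z, h => by
    obtain ⟨k, h1, h2⟩ := sum_two_valued f t Z fun y hy => h y (List.mem_cons_of_mem _ hy)
    rcases h z List.mem_cons_self with h0 | h0
    · refine ⟨k, by rw [List.map_cons, List.sum_cons, h0, h1, zero_add], fun ⟨y, hy, hf⟩ => ?_⟩
      rcases List.mem_cons.1 hy with rfl | hy
      · exact absurd h0 hf
      · exact h2 ⟨y, hy, hf⟩
    · refine ⟨k + 1, ?_, fun _ => Nat.succ_ne_zero k⟩
      rw [List.map_cons, List.sum_cons, h0, h1]
      push_cast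
      ring

theorem sp_list {P : Wd N → Prop} (f : Wd N → ℂ) (φ : ∀ D : Dat N c C0, D.M →ₗ[ℂ] ℂ) :
    ∀ Z : List (Wd N), (∀ z ∈ Z, Sp N c C0 P fun D => Lw z D - f z • φ D) →
      Sp N c C0 P fun D => D.L ∘ₗ (Z.map (ew D.e)).sum - (Z.map f).sum • φ D
  | [], _ => Sp.zero.congr fun D => by simp
  | z :: Z, h => by
    refine (Sp.add _ _ (h z List.mem_cons_self)
      (sp_list f φ Z fun y hy => h y (List.mem_cons_of_mem _ hy))).congr fun D => ?_
    rw [List.map_cons, List.map_cons, List.sum_cons, List.sum_cons, LinearMap.comp_add, add_smul,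
      Lw]
    abel

theorem last_row (hc : c ≠ 0) (j : Fin (N + 1)) :
    Sp N c C0 (fun w => Low w ∧ (KK w < dg (Fin.last N, j) ∨
      (KK w = dg (Fin.last N, j) ∧ w ≠ [(Fin.last N, j)]))) (Lw [(Fin.last N, j)]) := by
  obtain ⟨t, ht⟩ : ∃ t, j.val + t = N := Nat.exists_eq_add_of_le' (Nat.lt_succ_iff.1 j.2) |>.imp
    fun t h => by omega
  have hd : dg (Fin.last N, j) = (t + 1 : ℕ) := by
    rw [dg]
    simp only [Fin.val_last]
    omega
  have hZ : ∀ z ∈ cyc (N + 1) (t + 1), z.length = t + 1 ∧ KK z = dg (Fin.last N, j) :=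
    fun z hz => by
      obtain ⟨i, -, hi⟩ := List.mem_flatMap.1 hz
      obtain ⟨h1, h2⟩ := pw_spec _ _ _ z hi
      exact ⟨h1, by rw [h2, hd, add_sub_cancel_right]⟩
  obtain ⟨k, hk, hk0⟩ := sum_two_valued
    (fun z : Wd N => if lo z = [(Fin.last N, j)] then cf c (up z) else 0) (c ^ t)
    (cyc (N + 1) (t + 1)) fun z hz => by
      split_ifs with h
      · by_cases h0 : cf c (up z) = 0
        · exact Or.inl h0
        · right
          have h1 := (perm_up_lo z).length_eq
          rw [List.length_append, h, (hZ z hz).1, List.length_singleton] at h1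
          rw [(cf_spec _ h0).2, Nat.succ_injective h1]
      · exact Or.inl rfl
  have hk1 : k ≠ 0 := by
    obtain ⟨z, hz, h1, h2⟩ := exists_path hc j t j ht
    exact hk0 ⟨z, List.mem_flatMap.2 ⟨j, List.mem_finRange _, hz⟩, by rw [if_pos h2]; exact h1⟩
  have hA : (k : ℂ) * c ^ t ≠ 0 := mul_ne_zero (Nat.cast_ne_zero.2 hk1) (pow_ne_zero _ hc)
  have h1 := sp_list (c := c) (C0 := C0) (P := fun w => Low w ∧ (KK w < dg (Fin.last N, j) ∨
      (KK w = dg (Fin.last N, j) ∧ w ≠ [(Fin.last N, j)])))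
    (fun z : Wd N => if lo z = [(Fin.last N, j)] then cf c (up z) else 0)
    (Lw [(Fin.last N, j)]) (cyc (N + 1) (t + 1)) fun z hz => by
      have h2 := (step1 (c := c) (C0 := C0) z).mono (Q := fun w => Low w ∧
        (KK w < dg (Fin.last N, j) ∨ (KK w = dg (Fin.last N, j) ∧ w ≠ [(Fin.last N, j)])))
        fun w hw => ⟨hw.1, Or.inl ((hZ z hz).2 ▸ hw.2)⟩
      split_ifs with h
      · rw [← h]
        rw [← h] at h2
        exact h2
      · by_cases h0 : cf c (up z) = 0
        · exact h2.congr fun D => by rw [h0, zero_smul, zero_smul]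
        · refine (Sp.add _ _ h2 ((Sp.base (lo z)
            ⟨low_lo z, Or.inr ⟨(KK_lo h0).trans (hZ z hz).2, h⟩⟩).csmul (cf c (up z)))).congr
            fun D => ?_
          rw [zero_smul, sub_zero, sub_add_cancel]
  have h2 := Sp.smul (P := fun w => Low w ∧ (KK w < dg (Fin.last N, j) ∨
      (KK w = dg (Fin.last N, j) ∧ w ≠ [(Fin.last N, j)]))) (fun D : Dat N c C0 => D.γ (t + 1)) C0
    _ (fun D => (D.hγ _ (by omega)).2)
    (Sp.base [] ⟨fun x hx => absurd hx List.not_mem_nil, Or.inl (by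
      rw [hd]; exact Int.natCast_pos.2 (Nat.succ_pos t))⟩)
  refine ((h2.sub h1).csmul ((k : ℂ) * c ^ t)⁻¹).congr fun D => ?_
  rw [hk, ← egel_eq, (D.hγ _ (by omega)).1, LinearMap.comp_smul]
  have : D.L ∘ₗ (1 : Module.End ℂ D.M) = Lw [] D := rfl
  rw [this, sub_sub_cancel, smul_smul, inv_mul_cancel₀ hA, one_smul]

/-- potential of a word -/
def pot (w : Wd N) : ℤ := (w.map fun x => if x.1 = Fin.last N then 1 else 2).sum

theorem pot_cons (x : Lt N) (w : Wd N) :
    pot (x :: w) = (if x.1 = Fin.last N then 1 else 2) + pot w := by simp [pot]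

theorem pot_append (w w' : Wd N) : pot (w ++ w') = pot w + pot w' := by simp [pot]

theorem pot_perm {w w' : Wd N} (h : w.Perm w') : pot w = pot w' := (h.map _).sum_eq

theorem pot_bounds : ∀ w : Wd N, Low w → 0 ≤ pot w ∧ pot w ≤ 2 * KK w
  | [], _ => by simp [pot, KK]
  | x :: w, h => by
    obtain ⟨h1, h2⟩ := low_cons.1 h
    obtain ⟨h3, h4⟩ := pot_bounds w h2
    have h5 : x.2.val ≤ x.1.val := h1
    rw [pot_cons, KK_cons, dg]
    split_ifs <;> omega

theorem two_le_pot {j : Fin (N + 1)} {w : Wd N} (h : Low w) (h1 : KK w = dg (Fin.last N, j))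
    (h2 : w ≠ [(Fin.last N, j)]) : 2 ≤ pot w := by
  have hj := j.2
  rcases w with _ | ⟨x, _ | ⟨y, w⟩⟩
  · simp only [KK, dg, List.map_nil, List.sum_nil, Fin.val_last] at h1
    omega
  · rw [pot_cons]
    split_ifs with h3
    · exfalso
      apply h2
      simp only [KK, dg, List.map_cons, List.map_nil, List.sum_cons, List.sum_nil, h3] at h1
      have : x.2 = j := Fin.ext (by omega)
      rw [← h3, ← this]
    · simp [pot]
  · have := (pot_bounds w (low_cons.1 (low_cons.1 h).2).2).1
    rw [pot_cons, pot_cons]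
    split_ifs <;> omega

theorem exists_upw : ∀ w : Wd N, Low w → (∀ x ∈ w, x.1 ≠ Fin.last N) → ∃ l, w = upw l
  | [], _, _ => ⟨[], rfl⟩
  | (a, b) :: w, h, h' => by
    obtain ⟨h1, h2⟩ := low_cons.1 h
    obtain ⟨l, hl⟩ := exists_upw w h2 fun x hx => h' x (List.mem_cons_of_mem _ hx)
    have ha : a ≠ Fin.last N := h' _ List.mem_cons_self
    have hb : b ≠ Fin.last N := (lt_of_le_of_lt h1 (Fin.lt_last_iff_ne_last.2 ha)).ne
    obtain ⟨a, rfl⟩ := Fin.exists_castSucc_eq.2 ha
    obtain ⟨b, rfl⟩ := Fin.exists_castSucc_eq.2 hb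
    exact ⟨(a, b) :: l, by rw [hl]; rfl⟩

theorem step2 (hc : c ≠ 0) : ∀ (k : ℕ) (m : Wd N), Low m → KK m ^ 2 + 2 * KK m - pot m < k →
    Sp N c C0 (fun w => ∃ l, w = upw l) (Lw m) := by
  intro k
  induction k with
  | zero =>
    intro m hm h
    have := pot_bounds m hm
    exfalso
    push_cast at h
    nlinarith [sq_nonneg (KK m)]
  | succ k ih =>
    intro m hm h
    by_cases hl : ∀ x ∈ m, x.1 ≠ Fin.last N
    · exact Sp.base _ (exists_upw m hm hl)
    push Not at hl
    obtain ⟨⟨a, j⟩, hx, rfl⟩ := hl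
    have hp := List.perm_cons_erase hx
    generalize m.erase (Fin.last N, j) = m' at hp
    obtain ⟨b1, b2⟩ := pot_bounds m hm
    have drop : ∀ w : Wd N, Low w → KK w < KK m → Sp N c C0 (fun w => ∃ l, w = upw l) (Lw w) :=
      fun w hw hK => by
        obtain ⟨a1, a2⟩ := pot_bounds w hw
        refine ih w hw ?_
        push_cast at h
        have : KK w + 1 ≤ KK m := hK
        nlinarith [mul_self_le_mul_self (by omega : 0 ≤ KK w + 1) this]
    have h1 : Sp N c C0 (fun w => ∃ l, w = upw l)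
        fun D => Lw m D - Lw ((Fin.last N, j) :: m') D :=
      (sp_perm hp []).trans fun w hw =>
        drop w (hw.2.2 hm) (by have := hw.2.1; rw [List.nil_append] at this; omega)
    have hm' := (low_cons.1 ((Low.perm hp).1 hm)).2
    have hK := KK_perm hp
    have hP := pot_perm hp
    rw [KK_cons] at hK
    rw [pot_cons, if_pos rfl] at hP
    have h2 := (last_row (C0 := C0) hc j).comp (Q := fun w => ∃ l, w = upw l) m'
      fun w hw => by
        have hl : Low (w ++ m') := low_append.2 ⟨hw.1, hm'⟩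
        rcases hw.2 with h3 | ⟨h3, h4⟩
        · exact drop _ hl (by rw [KK_append]; omega)
        · have h5 := two_le_pot hw.1 h3 h4
          refine ih _ hl ?_
          rw [KK_append, pot_append, h3, ← hK]
          push_cast at h
          omega
    refine (Sp.add _ _ h1 h2).congr fun D => ?_
    have : Lw [(Fin.last N, j)] D ∘ₗ ew D.e m' = Lw ((Fin.last N, j) :: m') D := by
      rw [Lw, Lw, ew_cons, ew_cons, ew_nil, mul_one]; rfl
    rw [this, sub_add_cancel]

theorem all_words (hc : c ≠ 0) (z : Wd N) : Sp N c C0 (fun w => ∃ l, w = upw l) (Lw z) :=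
  (step1_weak _ z rfl).trans fun w hw =>
    step2 hc ((KK w ^ 2 + 2 * KK w - pot w).toNat + 1) w hw.1 (by push_cast; omega)

theorem extract {φ : ∀ D : Dat N c C0, D.M →ₗ[ℂ] ℂ}
    (h : Sp N c C0 (fun w => ∃ l, w = upw l) φ) : ∃ (K : ℕ) (C : ℝ), ∀ D : Dat N c C0,
      ∃ z : List (ℂ × List (Fin N × Fin N)), (∀ x ∈ z, x.2.length ≤ K) ∧
        (z.map fun x => ‖x.1‖).sum ≤ C ∧
        φ D = D.L ∘ₗ ecomb D.e (z.map fun x => (x.1, upw x.2)) := by
  induction h with
  | base w hw =>
    obtain ⟨l, rfl⟩ := hw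
    exact ⟨l.length, 1, fun D => ⟨[(1, l)], by simp, by simp, by simp [ecomb, Lw]⟩⟩
  | zero => exact ⟨0, 0, fun D => ⟨[], by simp, by simp, by simp [ecomb]⟩⟩
  | add φ ψ _ _ ha hb =>
    obtain ⟨K, C, ha⟩ := ha
    obtain ⟨K', C', hb⟩ := hb
    refine ⟨max K K', C + C', fun D => ?_⟩
    obtain ⟨z, a1, a2, a3⟩ := ha D
    obtain ⟨z', b1, b2, b3⟩ := hb D
    refine ⟨z ++ z', fun x hx => ?_, ?_, ?_⟩
    · rcases List.mem_append.1 hx with hx | hx
      · exact (a1 x hx).trans (le_max_left _ _)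
      · exact (b1 x hx).trans (le_max_right _ _)
    · rw [List.map_append, List.sum_append]
      exact add_le_add a2 b2
    · show φ D + ψ D = _
      rw [a3, b3, ← LinearMap.comp_add]
      simp [ecomb]
  | smul a B φ hB _ ha =>
    obtain ⟨K, C, ha⟩ := ha
    refine ⟨K, B * C, fun D => ?_⟩
    obtain ⟨z, a1, a2, a3⟩ := ha D
    refine ⟨z.map fun x => (a D * x.1, x.2), fun x hx => ?_, ?_, ?_⟩
    · obtain ⟨y, hy, rfl⟩ := List.mem_map.1 hx
      exact a1 y hy
    · have e : ((z.map fun x => (a D * x.1, x.2)).map fun x => ‖x.1‖).sum =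
          ‖a D‖ * (z.map fun x => ‖x.1‖).sum := by
        rw [← List.sum_map_mul_left, List.map_map]
        exact congrArg List.sum (List.map_congr_left fun x _ => norm_mul _ _)
      have h0 : 0 ≤ (z.map fun x => ‖x.1‖).sum := List.sum_nonneg fun x hx => by
        obtain ⟨y, -, rfl⟩ := List.mem_map.1 hx
        exact norm_nonneg _
      rw [e]
      exact mul_le_mul (hB D) a2 h0 ((norm_nonneg _).trans (hB D))
    · show a D • φ D = _
      rw [a3, ← LinearMap.comp_smul, ecomb, ecomb, List.smul_sum, List.map_map, List.map_map,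
        List.map_map, List.map_map]
      congr 2
      exact List.map_congr_left fun x _ => (mul_smul _ _ _).symm

end Kaz

theorem kaz : KazStmt := by
  intro N c hc C0 a b
  obtain ⟨K, C, h⟩ := Kaz.extract (Kaz.all_words (C0 := C0) hc [(a, b)])
  refine ⟨K, C, fun M i1 i2 e h' hh comm L wh γ hγ => ?_⟩
  obtain ⟨z, h1, h2, h3⟩ := h ⟨M, i1, i2, e, h', hh, comm, L, wh, γ, hγ⟩
  refine ⟨z, h1, h2, ?_⟩
  rw [Kaz.Lw, Kaz.ew_cons, Kaz.ew_nil, mul_one] at h3
  exact h3

end Pool.Agent.Lib.MP_fa98d2_nt.D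
end
end
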