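import Mathlib

/-!
Density theorem for cusp forms on PGL(n): statements of the modules that depend on Mathlib only.
Plan: `dn_PLAN.md` in the team store.
-/

open MeasureTheory Filter Topology Matrix
open scoped ENNReal Real

noncomputable section

namespace Pool.Agent.Lib.MP_fa98d2_nt.D

/-! ### Algebra of `gl_n`-modules -/

section alg
variable {n : ℕ} {M : Type} [AddCommGroup M] [Module ℂ M]

/-- commutation relations of `gl_n`, scaled by `h` -/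
def Comm (h : ℂ) (e : Fin n → Fin n → Module.End ℂ M) : Prop :=
  ∀ a b c d, e a b * e c d - e c d * e a b =
    h • ((if b = c then e a d else 0) - (if d = a then e c b else 0))

/-- the operator of a word -/
def ew (e : Fin n → Fin n → Module.End ℂ M) (l : List (Fin n × Fin n)) : Module.End ℂ M :=
  (l.map fun x => e x.1 x.2).prod

/-- a linear combination of words -/
def ecomb (e : Fin n → Fin n → Module.End ℂ M) (z : List (ℂ × List (Fin n × Fin n))) :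
    Module.End ℂ M := (z.map fun x => x.1 • ew e x.2).sum

/-- entries of the powers of the matrix of operators -/
def epw (e : Fin n → Fin n → Module.End ℂ M) : ℕ → Fin n → Fin n → Module.End ℂ M
  | 0, i, j => if i = j then 1 else 0
  | k + 1, i, j => ∑ l, e i l * epw e k l j

/-- Gelfand invariant -/
def egel (e : Fin n → Fin n → Module.End ℂ M) (k : ℕ) : Module.End ℂ M := ∑ i, epw e k i i

/-- Whittaker type functional -/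
def WhF (c : ℂ) (e : Fin n → Fin n → Module.End ℂ M) (L : M →ₗ[ℂ] ℂ) : Prop :=
  ∀ i j, i < j → L ∘ₗ e i j = (if j.val = i.val + 1 then c else 0) • L

end alg

/-- a word in `gl_N` seen in `gl_(N+1)` -/
def upw {N : ℕ} (l : List (Fin N × Fin N)) : List (Fin (N + 1) × Fin (N + 1)) :=
  l.map fun x => (x.1.castSucc, x.2.castSucc)

def KappaStmt : Prop :=
  ∀ N : ℕ, ∃ (κ : List (ℂ × List (Fin (N + 1) × Fin (N + 1)))) (ε : ℂ), ‖ε‖ = 1 ∧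
    ∀ (M : Type) [AddCommGroup M] [Module ℂ M] (e : Fin (N + 1) → Fin (N + 1) → Module.End ℂ M),
      Comm 1 e →
      (∀ (c : ℂ) (L : M →ₗ[ℂ] ℂ), WhF c e L →
        L ∘ₗ ecomb e κ = (ε * c ^ ((N + 1).choose 2)) • L) ∧
      (∀ (ρ : Module.End ℂ M) (h h' : Matrix (Fin (N + 1)) (Fin (N + 1)) ℂ), h * h' = 1 →
        (∀ j, h (Fin.last N) j = if j = Fin.last N then 1 else 0) →
        (∀ i, h i (Fin.last N) = if i = Fin.last N then 1 else 0) →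
        (∀ a b, ρ * e a b = (∑ c, ∑ d, (h c a * h' b d) • e c d) * ρ) →
        ρ * ecomb e κ = h.det • (ecomb e κ * ρ))

def KazStmt : Prop :=
  ∀ (N : ℕ) (c : ℂ), c ≠ 0 → ∀ (C0 : ℝ) (a b : Fin (N + 1)), ∃ (K : ℕ) (C : ℝ),
    ∀ (M : Type) [AddCommGroup M] [Module ℂ M] (e : Fin (N + 1) → Fin (N + 1) → Module.End ℂ M)
      (h : ℂ), ‖h‖ ≤ 1 → Comm h e → ∀ (L : M →ₗ[ℂ] ℂ), WhF c e L →
      ∀ γ : ℕ → ℂ, (∀ k, k ≤ N + 1 → egel e k = γ k • (1 : Module.End ℂ M) ∧ ‖γ k‖ ≤ C0) →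
      ∃ z : List (ℂ × List (Fin N × Fin N)), (∀ x ∈ z, x.2.length ≤ K) ∧
        (z.map fun x => ‖x.1‖).sum ≤ C ∧
        L ∘ₗ e a b = L ∘ₗ ecomb e (z.map fun x => (x.1, upw x.2))

def HCStmt : Prop :=
  ∀ n k : ℕ, ∃ C : ℝ, 0 ≤ C ∧
    ∀ (M : Type) [AddCommGroup M] [Module ℂ M] (e : Fin n → Fin n → Module.End ℂ M),
      Comm 1 e → ∀ (L : M →ₗ[ℂ] ℂ), WhF 0 e L → ∀ ν : Fin n → ℂ,
      (∀ i, L ∘ₗ e i i = ν i • L) → ∀ B : ℝ, 1 ≤ B → (∀ i, ‖ν i‖ ≤ B) →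
      ∃ z : ℂ, ‖z‖ ≤ C * B ^ k ∧ L ∘ₗ egel e k = z • L

/-! ### Schur functions and Euler products -/

/-- elementary symmetric function -/
def esy {n : ℕ} (α : Fin n → ℂ) (r : ℕ) : ℂ :=
  ∑ J ∈ Finset.powersetCard r Finset.univ, ∏ i ∈ J, α i

/-- indicator vector -/
def ind {n : ℕ} (I : Finset (Fin n)) (i : Fin n) : ℤ := if i ∈ I then 1 else 0

def SchurStmt : Prop :=
  ∀ (N : ℕ) (α : Fin (N + 1) → ℂ), ∏ i, α i = 1 → ∃ S : (Fin (N + 1) → ℕ) → ℂ, S 0 = 1 ∧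
    (∀ A : (Fin (N + 1) → ℤ) → ℂ, (∀ l, ¬ Antitone l → A l = 0) →
      (∀ l, Antitone l → ∀ r, r ≤ N + 1 → esy α (N + 1 - r) * A l =
        ∑ I ∈ Finset.powersetCard r Finset.univ, A (l - ind I)) →
      ∀ l : Fin (N + 1) → ℕ, Antitone l → A (fun i => l i) = S l * A 0) ∧
    (∀ B : ℝ, 1 ≤ B → (∀ i, ‖α i‖ ≤ B) →
      (∀ l : Fin (N + 1) → ℕ, Antitone l → ‖S l‖ ≤
        ((N + 1).factorial * (N + 1) ^ ((N + 1) ^ 2) : ℝ) *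
          ((∑ i, l i : ℕ) + 1 : ℝ) ^ ((N + 1) ^ 2) * B ^ (∑ i, l i)) ∧
      ∀ (i : Fin (N + 1)) (l : ℕ), ‖α i‖ ^ l ≤
        (1 + B) ^ N * ∑ j ∈ Finset.range (min l N + 1), ‖S (Pi.single 0 (l - j))‖)

/-- weighted size of an exponent vector -/
def wsz {N : ℕ} (k : Fin N → ℕ) : ℕ := ∑ i, (i.val + 1) * k i

/-- the multiplicative function on tuples with local factors `a p` -/
def mulf {N : ℕ} {R : Type} [CommMonoid R] (a : ℕ → (Fin N → ℕ) → R) (m : Fin N → ℕ+) : R :=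
  ∏ p ∈ (∏ i, (m i : ℕ)).primeFactors, a p fun i => (m i : ℕ).factorization p

/-- determinant of the diagonal matrix attached to a tuple -/
def dtm {N : ℕ} (m : Fin N → ℕ+) : ℝ := ∏ i, ((m i : ℕ) : ℝ) ^ (i.val + 1)

/-- the Dirichlet series -/
def Dser {N : ℕ} (a : ℕ → (Fin N → ℕ) → ℝ) (s : ℝ) : ℝ≥0∞ :=
  ∑' m : Fin N → ℕ+, ENNReal.ofReal (mulf a m * dtm m ^ (-s))

def EulerStmt : Prop :=
  ∀ (N d : ℕ) (C1 ε η : ℝ), 0 < ε → 0 < η → ∃ C : ℝ, 0 < C ∧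
    ∀ a : ℕ → (Fin N → ℕ) → ℝ, (∀ p, a p 0 = 1) → (∀ p k, 0 ≤ a p k) →
      (∀ p, p.Prime → ∀ k, a p k ≤ C1 * (wsz k + 1 : ℝ) ^ d * (p : ℝ) ^ wsz k) →
      Dser a (5 / 2) ≤ ENNReal.ofReal C ∧
      ∀ X : ℝ, 1 ≤ X → Dser a (1 + ε / 2) ≤ ENNReal.ofReal X →
        Dser a (1 + ε) ≤ ENNReal.ofReal (C * X ^ η)

/-! ### Fourier analysis on tori -/

/-- the additive character -/
def ee (x : ℝ) : ℂ := Complex.exp (2 * π * Complex.I * x)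

/-- Lebesgue measure on the unit cube -/
def cub (k : ℕ) : Measure (Fin k → ℝ) := volume.restrict (Set.univ.pi fun _ => Set.Ico 0 1)

/-- integer vector as a real vector -/
def zv {k : ℕ} (z : Fin k → ℤ) : Fin k → ℝ := fun i => z i

/-- periodic for the integer lattice -/
def Per {k : ℕ} {β : Type} (H : (Fin k → ℝ) → β) : Prop := ∀ z b, H (zv z + b) = H b

/-- Fourier coefficient -/
def fc {k : ℕ} (ξ : Fin k → ℤ) (H : (Fin k → ℝ) → ℂ) : ℂ :=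
  ∫ b, H b * ee (-(zv ξ ⬝ᵥ b)) ∂cub k

structure TorusStmt : Prop where
  parseval : ∀ (k : ℕ) (H : (Fin k → ℝ) → ℂ), Continuous H →
    ∑' ξ : Fin k → ℤ, ‖fc ξ H‖ₑ ^ 2 = ∫⁻ b, ‖H b‖ₑ ^ 2 ∂cub k
  shift : ∀ (k : ℕ) (H : (Fin k → ℝ) → ℂ), Continuous H → Per H → ∀ c,
    ∫ b, H (b + c) ∂cub k = ∫ b, H b ∂cub k
  shiftL : ∀ (k : ℕ) (H : (Fin k → ℝ) → ℝ≥0∞), Measurable H → Per H → ∀ c,
    ∫⁻ b, H (b + c) ∂cub k = ∫⁻ b, H b ∂cub k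
  glz : ∀ (k : ℕ) (H : (Fin k → ℝ) → ℂ), Continuous H → Per H → ∀ γ : GL (Fin k) ℤ,
    ∫ b, H (γ.val.map (Int.cast : ℤ → ℝ) *ᵥ b) ∂cub k = ∫ b, H b ∂cub k
  glzL : ∀ (k : ℕ) (H : (Fin k → ℝ) → ℝ≥0∞), Measurable H → Per H → ∀ γ : GL (Fin k) ℤ,
    ∫⁻ b, H (γ.val.map (Int.cast : ℤ → ℝ) *ᵥ b) ∂cub k = ∫⁻ b, H b ∂cub k
  tile : ∀ (k : ℕ) (F : (Fin k → ℝ) → ℝ≥0∞), Measurable F →
    ∫⁻ b, F b = ∫⁻ b, ∑' z : Fin k → ℤ, F (zv z + b) ∂cub k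
  scaleIn : ∀ (k p : ℕ), 0 < p → ∀ (I : Finset (Fin k)) (H : (Fin k → ℝ) → ℂ), Continuous H →
    Per H → ∀ ξ : Fin k → ℤ,
    ∫ y, (∑ v ∈ Fintype.piFinset fun i => if i ∈ I then ({0} : Finset ℕ) else Finset.range p,
        H fun i => if i ∈ I then y i else ((v i : ℝ) + y i) / p) * ee (-(zv ξ ⬝ᵥ y)) ∂cub k =
      (p : ℂ) ^ (k - I.card) * fc (fun i => if i ∈ I then ξ i else p * ξ i) H
  scaleOut : ∀ (k p : ℕ), 0 < p → ∀ (I : Finset (Fin k)) (H : (Fin k → ℝ) → ℂ), Continuous H →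
    Per H → ∀ ξ : Fin k → ℤ,
    ∫ y, (H fun i => if i ∈ I then p * y i else y i) * ee (-(zv ξ ⬝ᵥ y)) ∂cub k =
      if ∀ i ∈ I, (p : ℤ) ∣ ξ i then fc (fun i => if i ∈ I then ξ i / p else ξ i) H else 0
  uniq : ∀ (k : ℕ) (f : (Fin k → ℝ) → ℂ), Integrable f →
    (∀ᵐ b : Fin k → ℝ, ∫ r, f r * ee (-(r ⬝ᵥ b)) = 0) → ∀ᵐ r, f r = 0

/-! ### Lattice sums. The norm on `Fin n → ℝ` is the sup norm. -/

/-- theta sum over the nonzero vectors of the lattice spanned by the rows of `g` -/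
def Th {n : ℕ} (Φ : (Fin n → ℝ) → ℝ≥0∞) (g : Matrix (Fin n) (Fin n) ℝ) : ℝ≥0∞ :=
  ∑' ξ : {ξ : Fin n → ℤ // ξ ≠ 0}, Φ (zv ξ.1 ᵥ* g)

/-- Epstein type Eisenstein series -/
def Eis {n : ℕ} (Φ : (Fin n → ℝ) → ℝ≥0∞) (s : ℝ) (g : Matrix (Fin n) (Fin n) ℝ) : ℝ≥0∞ :=
  ∫⁻ t in Set.Ioi (0 : ℝ), ENNReal.ofReal (t⁻¹ * |(t • g).det| ^ s) * Th Φ (t • g)

open Classical in
/-- indicator of a truncated cone around the `i`-th axis -/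
def cone {n : ℕ} (i : Fin n) (r : Fin n → ℝ) : ℝ≥0∞ :=
  if 1 ≤ |r i| ∧ |r i| ≤ 2 ∧ ∀ j, |r j| ≤ |r i| then 1 else 0

structure LatStmt : Prop where
  lim : ∀ (N : ℕ) (Φ : (Fin (N + 1) → ℝ) → ℝ), Continuous Φ → HasCompactSupport Φ →
    (∀ r, 0 ≤ Φ r) → ∀ g : Matrix (Fin (N + 1)) (Fin (N + 1)) ℝ, g.det ≠ 0 →
    Tendsto (fun s : ℝ => ENNReal.ofReal (s - 1) * Eis (fun r => ENNReal.ofReal (Φ r)) s g)
      (𝓝[>] 1) (𝓝 (ENNReal.ofReal ((∫ r, Φ r) / (N + 1))))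
  dom : ∀ (N : ℕ) (s2 : ℝ), 3 ≤ s2 → ∃ C : ℝ≥0∞, C ≠ ∞ ∧
    ∀ Φ : (Fin (N + 1) → ℝ) → ℝ≥0∞, (∀ r, Φ r ≤ 1) → (∀ r, 4 < ‖r‖ → Φ r = 0) →
    ∀ s : ℝ, 1 < s → s ≤ 3 → ∀ g : Matrix (Fin (N + 1)) (Fin (N + 1)) ℝ, g.det ≠ 0 →
      ENNReal.ofReal (s - 1) * Eis Φ s g ≤ C * ∑ i, Eis (cone i) s2 g
  mink : ∀ (N : ℕ) (s : ℝ), 0 ≤ s → ∀ g : Matrix (Fin (N + 1)) (Fin (N + 1)) ℝ, g.det ≠ 0 →
    1 ≤ 2 * ∑ i, Eis (cone i) s g
  sum : ∀ N : ℕ, ∃ C : ℝ≥0∞, C ≠ ∞ ∧ ∀ (g : Matrix (Fin (N + 1)) (Fin (N + 1)) ℝ) (l : ℝ),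
    0 < l → l ≤ 1 → (∀ ξ : Fin (N + 1) → ℤ, ξ ≠ 0 → l ≤ ‖zv ξ ᵥ* g‖) →
    Th (fun r => ENNReal.ofReal ((l / (1 + ‖r‖)) ^ (2 * (N + 1)))) g ≤ C

/-! ### Integral matrices -/

/-- last rows of invertible integral matrices -/
def Prim (k : ℕ) : Type :=
  {ξ : Fin (k + 1) → ℤ // ∃ γ : GL (Fin (k + 1)) ℤ, γ.val (Fin.last k) = ξ}

/-- an invertible integral matrix with given last row -/
def pz {k : ℕ} (ξ : Prim k) : GL (Fin (k + 1)) ℤ := ξ.2.choose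

def PrimStmt : Prop :=
  ∀ (k : ℕ) (F : (Fin (k + 1) → ℤ) → ℝ≥0∞),
    ∑' ξ : {ξ : Fin (k + 1) → ℤ // ξ ≠ 0}, F ξ.1 =
      ∑' c : ℕ+, ∑' ξ : Prim k, F (((c : ℕ) : ℤ) • ξ.1)

/-- entries above the diagonal of the Hecke representatives of type `I` -/
def reps {n : ℕ} (p : ℕ) (I : Finset (Fin n)) : Finset (Fin n → Fin n → ℕ) :=
  Fintype.piFinset fun a => Fintype.piFinset fun b =>
    if a < b ∧ a ∉ I ∧ b ∈ I then Finset.range p else {0}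

/-- Hecke representative -/
def hmat {n : ℕ} (R : Type) [Semiring R] (p : ℕ) (I : Finset (Fin n)) (v : Fin n → Fin n → ℕ) :
    Matrix (Fin n) (Fin n) R :=
  Matrix.of fun a b => if a = b then (if a ∈ I then (p : R) else 1) else (v a b : R)

/-- the double coset of `diag(1, ..., 1, p, ..., p)` with `r` entries `p` -/
def Dc (n p r : ℕ) : Set (Matrix (Fin n) (Fin n) ℤ) :=
  {x | (∃ y, x * y = (p : ℤ) • (1 : Matrix (Fin n) (Fin n) ℤ)) ∧ |x.det| = (p : ℤ) ^ r}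

structure HNFStmt : Prop where
  dec : ∀ (n p r : ℕ), p.Prime → ∀ f : Matrix (Fin n) (Fin n) ℤ → ℝ≥0∞,
    ∑' x : Dc n p r, f x = ∑' γ : GL (Fin n) ℤ,
      ∑ I ∈ Finset.powersetCard r Finset.univ, ∑ v ∈ reps p I, f (γ.val * hmat ℤ p I v)
  inv : ∀ (n p r : ℕ), p.Prime → r ≤ n → ∃ e : Dc n p r ≃ Dc n p (n - r),
    ∀ x : Dc n p r, x.1 * (e x).1 = (p : ℤ) • (1 : Matrix (Fin n) (Fin n) ℤ)

end Pool.Agent.Lib.MP_fa98d2_nt.D
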